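import Pool.Agent.Lib.MP_dd244f_an.Four.Basic

/-!
Full operator, `p = 4`: averaging over the position of the blocks.
-/

set_option autoImplicit false

namespace Pool.Agent.Lib.MP_dd244f_an.Four

open MeasureTheory Filter Topology Finset

namespace AvgM

/-! ### Telescoping -/

lemma sum_Icc_tel (f : ℤ → ℝ) (m : ℤ) (k : ℕ) :
    ∑ b ∈ Finset.Icc m (m + k), (f (b + 1) - f b) = f (m + k + 1) - f m := by
  induction k with
  | zero => simp
  | succ k ih =>
    have e : Finset.Icc m (m + ((k + 1 : ℕ) : ℤ)) = insert (m + k + 1) (Finset.Icc m (m + k)) := by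
      ext b
      simp only [Finset.mem_Icc, Finset.mem_insert]
      push_cast
      omega
    rw [e, Finset.sum_insert (by simp only [Finset.mem_Icc]; omega), ih]
    push_cast
    ring_nf

lemma n4_zero : N4 (fun _ => 0) = 0 := by
  unfold N4 iF
  simp

lemma n4_bd_self (s : ℤ) (G : ℂ → ℂ) : N4 (cut (bd s s) G) = 0 := by
  have : cut (bd s s) G = fun _ => 0 := by
    ext ζ
    simp [cut, bd_self]
  rw [this, n4_zero]

lemma sum_Dd (s : ℤ) (L : ℕ) (G : ℂ → ℂ) :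
    ∑ j ∈ Finset.range L, Dd (s + j) j G =
      N4 (cut (lo (s + L)) G) - N4 (cut (lo s) G) - N4 (cut (bd s (s + L)) G) := by
  have h1 := Finset.sum_range_sub (fun j : ℕ => N4 (cut (lo (s + j)) G)) L
  have h2 := Finset.sum_range_sub (fun j : ℕ => N4 (cut (bd s (s + j)) G)) L
  have h3 : ∀ j : ℕ, Dd (s + j) j G =
      (N4 (cut (lo (s + ((j + 1 : ℕ) : ℤ))) G) - N4 (cut (lo (s + j)) G)) -
        (N4 (cut (bd s (s + ((j + 1 : ℕ) : ℤ))) G) - N4 (cut (bd s (s + j)) G)) := by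
    intro j
    unfold Dd
    have e1 : s + (j : ℤ) - (j : ℤ) = s := by ring
    have e2 : s + (j : ℤ) + 1 = s + ((j + 1 : ℕ) : ℤ) := by push_cast; ring
    rw [e1, e2]
  simp only [h3]
  rw [Finset.sum_sub_distrib, h1, h2]
  simp only [Nat.cast_zero, add_zero, n4_bd_self, sub_zero]

lemma tel (L : ℕ) (t : ℤ) (N : ℕ) (G : ℂ → ℂ)
    (hlow : cut (lo (-(N : ℤ) * L - t)) G = fun _ => 0)
    (hhigh : cut (lo (((N : ℤ) + 1) * L - t)) G = G) :
    N4 G - ∑ b ∈ Finset.Icc (-(N : ℤ)) N, N4 (cut (bd (b * L - t) ((b + 1) * L - t)) G) =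
      ∑ b ∈ Finset.Icc (-(N : ℤ)) N, ∑ j ∈ Finset.range L, Dd (b * L - t + j) j G := by
  have h1 : ∀ b : ℤ, ∑ j ∈ Finset.range L, Dd (b * L - t + j) j G =
      (N4 (cut (lo ((b + 1) * L - t)) G) - N4 (cut (lo (b * L - t)) G)) -
        N4 (cut (bd (b * L - t) ((b + 1) * L - t)) G) := by
    intro b
    rw [sum_Dd]
    have e : b * L - t + L = (b + 1) * L - t := by ring
    rw [e]
  simp only [h1]
  rw [Finset.sum_sub_distrib]
  have h2 := sum_Icc_tel (fun b => N4 (cut (lo (b * L - t)) G)) (-(N : ℤ)) (2 * N)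
  have e1 : -(N : ℤ) + ((2 * N : ℕ) : ℤ) = N := by push_cast; ring
  rw [e1, hlow, hhigh, n4_zero, sub_zero] at h2
  rw [h2]

/-! ### Rearrangement -/

lemma rearrange (L N : ℕ) (F : ℤ → ℝ) (j : ℕ) : ∃ A : Finset ℤ,
    ∑ t ∈ Finset.range L, ∑ b ∈ Finset.Icc (-(N : ℤ)) N, F (b * L - t + j) = ∑ a ∈ A, F a := by
  classical
  refine ⟨(Finset.range L ×ˢ Finset.Icc (-(N : ℤ)) N).image
    (fun z : ℕ × ℤ => z.2 * L - z.1 + j), ?_⟩
  rw [Finset.sum_image, Finset.sum_product]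
  rintro ⟨t, b⟩ h1 ⟨t', b'⟩ h2 h3
  simp only [Finset.coe_product, Set.mem_prod, Finset.mem_coe, Finset.mem_range] at h1 h2
  simp only at h3
  have h4 : (b - b') * L = t - t' := by linarith
  have hL : (t : ℤ) < L := by exact_mod_cast h1.1
  have hL' : (t' : ℤ) < L := by exact_mod_cast h2.1
  have ht : (0 : ℤ) ≤ t := Int.natCast_nonneg _
  have ht' : (0 : ℤ) ≤ t' := Int.natCast_nonneg _
  have hb : b = b' := by
    rcases lt_trichotomy b b' with h | h | h
    · exfalso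
      have : (b' - b) * L ≥ L := by nlinarith
      linarith
    · exact h
    · exfalso
      have : (b - b') * L ≥ L := by nlinarith
      linarith
  subst hb
  rw [sub_self, zero_mul] at h4
  have : t = t' := by omega
  rw [this]

/-! ### The energies -/

lemma sum_Ya {C : ℝ} (hP : ∀ (A : Finset ℤ) (τ : ℤ → ℤ) (g h : ℂ → ℂ), CC g → CC h →
    (∀ a ∈ A, Integrable (fun x => qa a g x * ‖iF (cut (lo (τ a)) h) x‖ ^ 2)) ∧
    ∑ a ∈ A, ∫ x, qa a g x * ‖iF (cut (lo (τ a)) h) x‖ ^ 2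
      ≤ C * (Real.sqrt (N4 g) * Real.sqrt (N4 h)) ∧
    ∑ a ∈ A, N22 (cut (sh a) g) (cut (lo (τ a)) h) ≤ C * (Real.sqrt (N4 g) * Real.sqrt (N4 h)) ∧
    ∑ a ∈ A, N4 (cut (sh a) g) ≤ C * N4 g) (A : Finset ℤ) (d : ℕ) (G : ℂ → ℂ) (hG : CC G) :
    ∑ a ∈ A, Ya a d G ≤ 12 * C * N4 G := by
  classical
  have hY : ∀ a : ℤ, Ya a d G = ∑ k ∈ Finset.range 4, (N4 (cut (sh (a - k)) G) +
      N22 (cut (sh (a - k)) G) (cut (lo (a - k)) G) +
      N22 (cut (sh (a - k)) G) (cut (lo (a - d)) G)) := by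
    intro a
    unfold Ya
    have e : Finset.Icc (a - 3) a = (Finset.range 4).image (fun k : ℕ => a - k) := by
      ext i
      simp only [Finset.mem_Icc, Finset.mem_image, Finset.mem_range]
      constructor
      · rintro ⟨h1, h2⟩
        exact ⟨(a - i).toNat, by omega, by omega⟩
      · rintro ⟨k, h1, rfl⟩
        omega
    rw [e, Finset.sum_image]
    intro k _ k' _ h
    simp only at h
    omega
  simp only [hY]
  rw [Finset.sum_comm]
  have hss : Real.sqrt (N4 G) * Real.sqrt (N4 G) = N4 G := Real.mul_self_sqrt (n4_nonneg G)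
  have hk : ∀ k ∈ Finset.range 4, ∑ a ∈ A, (N4 (cut (sh (a - k)) G) +
      N22 (cut (sh (a - k)) G) (cut (lo (a - k)) G) +
      N22 (cut (sh (a - k)) G) (cut (lo (a - d)) G)) ≤ 3 * C * N4 G := by
    intro k _
    have hinj : Set.InjOn (fun a : ℤ => a - (k : ℤ)) A := by
      intro a _ b _ h
      simp only at h
      omega
    rw [Finset.sum_add_distrib, Finset.sum_add_distrib]
    have h1 := (hP (A.image (fun a : ℤ => a - (k : ℤ))) id G G hG hG).2.2.2
    have h2 := (hP (A.image (fun a : ℤ => a - (k : ℤ))) id G G hG hG).2.2.1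
    have h3 := (hP (A.image (fun a : ℤ => a - (k : ℤ))) (fun i => i + k - d) G G hG hG).2.2.1
    rw [Finset.sum_image hinj] at h1 h2 h3
    rw [hss] at h2 h3
    have e : ∀ a : ℤ, a - (k : ℤ) + k - d = a - d := fun a => by ring
    simp only [e] at h3
    simp only [id] at h2
    linarith
  refine (Finset.sum_le_sum hk).trans ?_
  rw [Finset.sum_const, Finset.card_range]
  simp only [nsmul_eq_mul]
  push_cast
  linarith

lemma Ya_nonneg (a : ℤ) (d : ℕ) (G : ℂ → ℂ) : 0 ≤ Ya a d G := by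
  unfold Ya
  exact Finset.sum_nonneg fun i _ => add_nonneg (add_nonneg (n4_nonneg _) (n22_nonneg _ _))
    (n22_nonneg _ _)

lemma sqrt_aux (n : ℕ) (j : ℕ) :
    Real.sqrt (1 + n * (2 : ℝ) ^ (-(j : ℤ))) ≤ 1 + Real.sqrt n * (3 / 4 : ℝ) ^ j := by
  apply Real.sqrt_le_iff.2
  have h0 : 0 ≤ Real.sqrt n := Real.sqrt_nonneg _
  have h1 : Real.sqrt n ^ 2 = n := Real.sq_sqrt (Nat.cast_nonneg n)
  have h2 : (2 : ℝ) ^ (-(j : ℤ)) = (1 / 2 : ℝ) ^ j := by
    rw [zpow_neg, zpow_natCast, one_div, inv_pow]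
  have h3 : (1 / 2 : ℝ) ^ j ≤ ((3 / 4 : ℝ) ^ j) ^ 2 := by
    rw [← pow_mul, mul_comm, pow_mul]
    exact pow_le_pow_left₀ (by norm_num) (by norm_num) j
  have h4 : 0 ≤ (3 / 4 : ℝ) ^ j := by positivity
  refine ⟨by positivity, ?_⟩
  rw [h2]
  have h5 : (n : ℝ) * (1 / 2) ^ j ≤ n * ((3 / 4 : ℝ) ^ j) ^ 2 :=
    mul_le_mul_of_nonneg_left h3 (Nat.cast_nonneg n)
  nlinarith [mul_nonneg h0 h4]

lemma sum_geo (L : ℕ) : ∑ j ∈ Finset.range L, (3 / 4 : ℝ) ^ j ≤ 4 := by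
  have h := geom_sum_eq (by norm_num : (3 / 4 : ℝ) ≠ 1) L
  rw [h, div_le_iff_of_neg (by norm_num)]
  have : 0 ≤ (3 / 4 : ℝ) ^ L := by positivity
  linarith

end AvgM

open AvgM in
theorem avg (hT : StmtTop) (hD : StmtDec) (hP : StmtPP) (hF : StmtFac) : StmtAvg := by
  classical
  obtain ⟨C1, hC1, hT⟩ := hT
  obtain ⟨C3, hC3, hD⟩ := hD
  obtain ⟨C2, hC2, hP⟩ := hP
  refine ⟨48 * C1 * C2 + 4 * C1 * Real.sqrt (12 * C2 * C3) + 1, by positivity, ?_⟩
  intro n B R L g hn hB hL hg hSup hNB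
  have hn' : (1 : ℝ) ≤ n := by exact_mod_cast hn
  have hL' : (1 : ℝ) ≤ L := by exact_mod_cast hL
  -- `g` vanishes near `0`
  have hZ : Z0 g := by
    have h1 : ∀ᶠ ζ in 𝓝 (0 : ℂ), ‖ζ‖ < (2 : ℝ) ^ (-(R : ℤ)) := by
      have := continuous_norm.continuousAt (x := (0 : ℂ))
      refine (this.eventually (gt_mem_nhds ?_))
      show ‖(0 : ℂ)‖ < _
      rw [norm_zero]
      positivity
    filter_upwards [h1] with ζ h2
    by_contra h3
    exact absurd (hSup ζ h3).1 (not_le.2 h2)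
  set G := mg n g with hGdef
  have hGC : CC G := (hF.2.2.2.2.2.1 g n hn hg hZ).1
  have hGsup : ∀ ζ, G ζ ≠ 0 → (2 : ℝ) ^ (-(R : ℤ)) ≤ ‖ζ‖ ∧ ‖ζ‖ ≤ (2 : ℝ) ^ (R : ℤ) := by
    intro ζ h1
    apply hSup
    intro h2
    apply h1
    rw [hGdef]
    unfold mg
    rw [h2, mul_zero]
  -- high and low cutoffs
  have hlow : ∀ a : ℤ, a ≤ -(R : ℤ) - 1 → cut (lo a) G = fun _ => 0 := by
    intro a ha
    ext ζ
    by_cases hz : G ζ = 0
    · simp [cut, hz]
    · have h1 := (hGsup ζ hz).1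
      have h2 : lo a ζ = 0 := by
        apply hF.2.2.1
        have h3 : (2 : ℝ) ^ a ≤ (2 : ℝ) ^ (-(R : ℤ)) / 2 := by
          have h4 : (2 : ℝ) ^ a ≤ (2 : ℝ) ^ (-(R : ℤ) - 1) := zpow_le_zpow_right₀ (by norm_num) ha
          rwa [zpow_sub_one₀ (by norm_num : (2 : ℝ) ≠ 0), ← div_eq_mul_inv] at h4
        have h5 : (0 : ℝ) < (2 : ℝ) ^ a := by positivity
        have h6 : (0 : ℝ) < (2 : ℝ) ^ (-(R : ℤ)) := by positivity
        have h7 : 2 * (2 : ℝ) ^ a ≤ ‖ζ‖ := by linarith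
        nlinarith
      simp [cut, h2]
  have hhigh : ∀ a : ℤ, (R : ℤ) ≤ a → cut (lo a) G = G := by
    intro a ha
    ext ζ
    by_cases hz : G ζ = 0
    · simp [cut, hz]
    · have h1 := (hGsup ζ hz).2
      have h2 : lo a ζ = 1 := by
        apply hF.2.1
        exact h1.trans (zpow_le_zpow_right₀ (by norm_num) ha)
      simp [cut, h2]
  -- telescoping
  have htel : ∀ t ∈ Finset.range L, N4 G - ∑ b ∈ Finset.Icc (-((R : ℤ) + 4)) (R + 4),
      N4 (cut (bd (b * L - t) ((b + 1) * L - t)) G) =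
      ∑ b ∈ Finset.Icc (-((R : ℤ) + 4)) (R + 4), ∑ j ∈ Finset.range L, Dd (b * L - t + j) j G := by
    intro t ht
    rw [Finset.mem_range] at ht
    have hLz : (1 : ℤ) ≤ L := by exact_mod_cast hL
    have htz : (t : ℤ) < L := by exact_mod_cast ht
    have ht0 : (0 : ℤ) ≤ t := Int.natCast_nonneg _
    have hR0 : (0 : ℤ) ≤ R := Int.natCast_nonneg _
    have h := tel L t (R + 4) G (hlow _ (by push_cast; nlinarith)) (hhigh _ (by push_cast; nlinarith))
    push_cast at h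
    exact h
  rw [Finset.sum_congr rfl htel]
  -- rearrangement
  have hre : ∑ t ∈ Finset.range L, ∑ b ∈ Finset.Icc (-((R : ℤ) + 4)) (R + 4),
      ∑ j ∈ Finset.range L, Dd (b * L - t + j) j G ≤
      ∑ j ∈ Finset.range L, ∑ t ∈ Finset.range L, ∑ b ∈ Finset.Icc (-((R : ℤ) + 4)) (R + 4),
        |Dd (b * L - t + j) j G| := by
    calc ∑ t ∈ Finset.range L, ∑ b ∈ Finset.Icc (-((R : ℤ) + 4)) (R + 4),
          ∑ j ∈ Finset.range L, Dd (b * L - t + j) j G
        ≤ ∑ t ∈ Finset.range L, ∑ b ∈ Finset.Icc (-((R : ℤ) + 4)) (R + 4),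
          ∑ j ∈ Finset.range L, |Dd (b * L - t + j) j G| :=
        Finset.sum_le_sum fun t _ => Finset.sum_le_sum fun b _ => Finset.sum_le_sum fun j _ =>
          le_abs_self _
      _ = ∑ t ∈ Finset.range L, ∑ j ∈ Finset.range L,
          ∑ b ∈ Finset.Icc (-((R : ℤ) + 4)) (R + 4), |Dd (b * L - t + j) j G| :=
        Finset.sum_congr rfl fun t _ => Finset.sum_comm
      _ = _ := Finset.sum_comm
  refine hre.trans ?_
  set X := Real.sqrt (N4 g) with hX
  set Y := Real.sqrt (N4 G) with hY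
  have hX0 : 0 ≤ X := Real.sqrt_nonneg _
  have hY0 : 0 ≤ Y := Real.sqrt_nonneg _
  have hX2 : X ^ 2 = N4 g := Real.sq_sqrt (n4_nonneg g)
  have hY2 : Y ^ 2 = N4 G := Real.sq_sqrt (n4_nonneg G)
  have hsn : 1 ≤ Real.sqrt n := by
    rw [Real.one_le_sqrt]
    exact hn'
  have hsn2 : Real.sqrt n ^ 2 = n := Real.sq_sqrt (Nat.cast_nonneg n)
  have hj : ∀ j ∈ Finset.range L, ∑ t ∈ Finset.range L,
      ∑ b ∈ Finset.Icc (-((R : ℤ) + 4)) (R + 4), |Dd (b * L - t + j) j G| ≤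
      (if j < 4 then 12 * C1 * C2 * Y ^ 2 else 0) +
        C1 * Real.sqrt (12 * C2 * C3) * (Real.sqrt (X * Y) * Y) *
          (1 + Real.sqrt n * (3 / 4 : ℝ) ^ j) := by
    intro j _
    obtain ⟨A, hA⟩ := rearrange L (R + 4) (fun a => |Dd a j G|) j
    push_cast at hA
    rw [hA]
    have hYa := sum_Ya hP A j G hGC
    rw [← hY2] at hYa
    have hpos : 0 ≤ C1 * Real.sqrt (12 * C2 * C3) * (Real.sqrt (X * Y) * Y) *
        (1 + Real.sqrt n * (3 / 4 : ℝ) ^ j) := by positivity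
    by_cases hj4 : j < 4
    · rw [if_pos hj4]
      have h1 : ∑ a ∈ A, |Dd a j G| ≤ C1 * ∑ a ∈ A, Ya a j G := by
        rw [Finset.mul_sum]
        exact Finset.sum_le_sum fun a _ => (hT a j G hGC).1 hj4
      have h2 : C1 * ∑ a ∈ A, Ya a j G ≤ C1 * (12 * C2 * Y ^ 2) :=
        mul_le_mul_of_nonneg_left hYa hC1.le
      nlinarith
    · rw [if_neg hj4, zero_add]
      push Not at hj4
      have h1 : ∑ a ∈ A, |Dd a j G| ≤ C1 * ∑ a ∈ A,
          (Real.sqrt (N22 (cut (sh a) G) (cut (lo (a - j)) G)) * Real.sqrt (Ya a j G)) := by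
        rw [Finset.mul_sum]
        exact Finset.sum_le_sum fun a _ => (hT a j G hGC).2 hj4
      have h2 := Real.sum_sqrt_mul_sqrt_le A
        (f := fun a => N22 (cut (sh a) G) (cut (lo (a - j)) G)) (g := fun a => Ya a j G)
        (fun a => n22_nonneg _ _) (fun a => Ya_nonneg _ _ _)
      have h3 := hD n g hn hg hZ A j
      rw [← hGdef, ← hX, ← hY] at h3
      have h4 : Real.sqrt (∑ a ∈ A, N22 (cut (sh a) G) (cut (lo (a - j)) G)) *
          Real.sqrt (∑ a ∈ A, Ya a j G) ≤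
          Real.sqrt (C3 * (1 + n * (2 : ℝ) ^ (-(j : ℤ))) * (X * Y)) *
            Real.sqrt (12 * C2 * Y ^ 2) :=
        mul_le_mul (Real.sqrt_le_sqrt h3) (Real.sqrt_le_sqrt hYa) (Real.sqrt_nonneg _)
          (Real.sqrt_nonneg _)
      have h5 : Real.sqrt (C3 * (1 + n * (2 : ℝ) ^ (-(j : ℤ))) * (X * Y)) *
            Real.sqrt (12 * C2 * Y ^ 2) =
          Real.sqrt (12 * C2 * C3) * (Real.sqrt (X * Y) * Y) *
            Real.sqrt (1 + n * (2 : ℝ) ^ (-(j : ℤ))) := by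
        have hp : (0 : ℝ) ≤ 1 + n * (2 : ℝ) ^ (-(j : ℤ)) := by positivity
        have a1 : Real.sqrt (C3 * (1 + n * (2 : ℝ) ^ (-(j : ℤ))) * (X * Y)) =
            Real.sqrt C3 * Real.sqrt (1 + n * (2 : ℝ) ^ (-(j : ℤ))) * Real.sqrt (X * Y) := by
          rw [Real.sqrt_mul (by positivity), Real.sqrt_mul hC3.le]
        have a2 : Real.sqrt (12 * C2 * Y ^ 2) = Real.sqrt (12 * C2) * Y := by
          rw [Real.sqrt_mul (by positivity), Real.sqrt_sq hY0]
        have a3 : Real.sqrt (12 * C2 * C3) = Real.sqrt (12 * C2) * Real.sqrt C3 :=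
          Real.sqrt_mul (by positivity) C3
        rw [a1, a2, a3]
        ring
      have h6 := sqrt_aux n j
      have h7 : 0 ≤ Real.sqrt (12 * C2 * C3) * (Real.sqrt (X * Y) * Y) := by positivity
      calc ∑ a ∈ A, |Dd a j G| ≤ C1 * (Real.sqrt (12 * C2 * C3) * (Real.sqrt (X * Y) * Y) *
            Real.sqrt (1 + n * (2 : ℝ) ^ (-(j : ℤ)))) := by
            refine h1.trans (mul_le_mul_of_nonneg_left ?_ hC1.le)
            rw [← h5]
            exact h2.trans h4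
        _ ≤ C1 * (Real.sqrt (12 * C2 * C3) * (Real.sqrt (X * Y) * Y) *
            (1 + Real.sqrt n * (3 / 4 : ℝ) ^ j)) :=
            mul_le_mul_of_nonneg_left (mul_le_mul_of_nonneg_left h6 h7) hC1.le
        _ = _ := by ring
  refine (Finset.sum_le_sum hj).trans ?_
  rw [Finset.sum_add_distrib, ← Finset.mul_sum, Finset.sum_add_distrib, ← Finset.mul_sum]
  have hfirst : ∑ j ∈ Finset.range L, (if j < 4 then 12 * C1 * C2 * Y ^ 2 else 0) ≤
      48 * C1 * C2 * Y ^ 2 := by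
    rw [← Finset.sum_filter, Finset.sum_const, nsmul_eq_mul]
    have hc : ((Finset.range L).filter (fun j => j < 4)).card ≤ 4 := by
      calc _ ≤ (Finset.range 4).card := Finset.card_le_card (by
            intro j hj
            rw [Finset.mem_filter] at hj
            exact Finset.mem_range.2 hj.2)
        _ = 4 := Finset.card_range 4
    have hc' : (((Finset.range L).filter (fun j => j < 4)).card : ℝ) ≤ 4 := by exact_mod_cast hc
    have hp : 0 ≤ 12 * C1 * C2 * Y ^ 2 := by positivity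
    nlinarith
  have hone : ∑ j ∈ Finset.range L, (1 : ℝ) = L := by simp
  rw [hone]
  have hgeo := sum_geo L
  -- the mixed term
  have hYX : Y ^ 2 ≤ B * n ^ 2 * X ^ 2 := by
    rw [hY2, hX2]
    exact hNB
  have hYX1 : Y ≤ B * n * X := by
    have h1 : Y ^ 2 ≤ (B * n * X) ^ 2 := by
      refine hYX.trans ?_
      have h2 : B ≤ B ^ 2 := by nlinarith
      have h3 : (0 : ℝ) ≤ n ^ 2 * X ^ 2 := by positivity
      nlinarith
    exact (sq_le_sq₀ hY0 (by positivity)).1 h1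
  have hmix : Real.sqrt (X * Y) * Y ≤ B * n * Real.sqrt n * X ^ 2 := by
    have h1 : (Real.sqrt (X * Y) * Y) ^ 2 ≤ (B * n * Real.sqrt n * X ^ 2) ^ 2 := by
      rw [mul_pow, Real.sq_sqrt (by positivity)]
      have h2 : (B * n * Real.sqrt n * X ^ 2) ^ 2 = B ^ 2 * n ^ 3 * X ^ 4 := by
        calc (B * n * Real.sqrt n * X ^ 2) ^ 2 = B ^ 2 * n ^ 2 * Real.sqrt n ^ 2 * X ^ 4 := by ring
          _ = B ^ 2 * n ^ 3 * X ^ 4 := by rw [hsn2]; ring
      rw [h2]
      calc X * Y * Y ^ 2 ≤ X * (B * n * X) * (B * n ^ 2 * X ^ 2) := by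
            apply mul_le_mul _ hYX (by positivity) (by positivity)
            exact mul_le_mul_of_nonneg_left hYX1 hX0
        _ = B ^ 2 * n ^ 3 * X ^ 4 := by ring
    exact (sq_le_sq₀ (by positivity) (by positivity)).1 h1
  have hK : 0 ≤ C1 * Real.sqrt (12 * C2 * C3) := by positivity
  have hs2 : (L : ℝ) + Real.sqrt n * ∑ j ∈ Finset.range L, (3 / 4 : ℝ) ^ j ≤
      L + 4 * Real.sqrt n := by nlinarith
  have hs0 : 0 ≤ (L : ℝ) + Real.sqrt n * ∑ j ∈ Finset.range L, (3 / 4 : ℝ) ^ j := by positivity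
  have hsecond : C1 * Real.sqrt (12 * C2 * C3) * (Real.sqrt (X * Y) * Y) *
      ((L : ℝ) + Real.sqrt n * ∑ j ∈ Finset.range L, (3 / 4 : ℝ) ^ j) ≤
      C1 * Real.sqrt (12 * C2 * C3) * (B * n * Real.sqrt n * X ^ 2) * (L + 4 * Real.sqrt n) := by
    apply mul_le_mul _ hs2 hs0 (by positivity)
    exact mul_le_mul_of_nonneg_left hmix hK
  have hfin : (B * n * Real.sqrt n * X ^ 2) * (L + 4 * Real.sqrt n) ≤
      4 * (B * (1 + L / Real.sqrt n) * n ^ 2 * X ^ 2) := by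
    have hs : 0 < Real.sqrt n := by linarith
    have e1 : (L : ℝ) / Real.sqrt n * n = L * Real.sqrt n := by
      rw [div_mul_eq_mul_div, div_eq_iff hs.ne']
      calc (L : ℝ) * n = L * Real.sqrt n ^ 2 := by rw [hsn2]
        _ = _ := by ring
    have e2 : (B * n * Real.sqrt n * X ^ 2) * (L + 4 * Real.sqrt n) =
        B * n * X ^ 2 * (L / Real.sqrt n * n + 4 * n) := by
      rw [e1]
      calc (B * n * Real.sqrt n * X ^ 2) * (L + 4 * Real.sqrt n)
          = B * n * X ^ 2 * (L * Real.sqrt n + 4 * Real.sqrt n ^ 2) := by ring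
        _ = _ := by rw [hsn2]
    rw [e2]
    have h1 : 0 ≤ (L : ℝ) / Real.sqrt n := by positivity
    have h2 : 0 ≤ B * n ^ 2 * X ^ 2 * (L / Real.sqrt n) := by positivity
    nlinarith
  have hq : 1 ≤ 1 + L / Real.sqrt n := by
    have h1 : 0 ≤ (L : ℝ) / Real.sqrt n := by positivity
    linarith
  have hbase : 0 ≤ B * n ^ 2 * X ^ 2 := by positivity
  have hY3 : Y ^ 2 ≤ B * (1 + L / Real.sqrt n) * n ^ 2 * X ^ 2 := by
    refine hYX.trans ?_
    nlinarith
  have hE : 0 ≤ B * (1 + L / Real.sqrt n) * n ^ 2 * X ^ 2 := by positivity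
  rw [← hX2]
  calc _ ≤ 48 * C1 * C2 * Y ^ 2 + C1 * Real.sqrt (12 * C2 * C3) *
        (B * n * Real.sqrt n * X ^ 2) * (L + 4 * Real.sqrt n) := add_le_add hfirst hsecond
    _ ≤ 48 * C1 * C2 * (B * (1 + L / Real.sqrt n) * n ^ 2 * X ^ 2) +
        C1 * Real.sqrt (12 * C2 * C3) * (4 * (B * (1 + L / Real.sqrt n) * n ^ 2 * X ^ 2)) := by
      apply add_le_add
      · exact mul_le_mul_of_nonneg_left hY3 (by positivity)
      · rw [mul_assoc (C1 * Real.sqrt (12 * C2 * C3))]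
        exact mul_le_mul_of_nonneg_left hfin hK
    _ ≤ _ := by nlinarith

end Pool.Agent.Lib.MP_dd244f_an.Four
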