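import Pool.Agent.Lib.MP_dd244f_an.Four.Basic

/-!
Full operator, `p = 4`: pointwise comparison of a block with the chirped Gaussian.
-/

set_option autoImplicit false

namespace Pool.Agent.Lib.MP_dd244f_an.Four

open MeasureTheory Filter Topology Finset

namespace Blk1Aux

theorem integral_gauss {b : ℝ} (hb : 0 < b) : ∫ v : ℂ, Real.exp (-b * ‖v‖ ^ 2) = Real.pi / b := by
  rw [GaussianFourier.integral_rexp_neg_mul_sq_norm hb]
  simp

theorem integrable_gauss {b : ℝ} (hb : 0 < b) :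
    Integrable (fun v : ℂ => Real.exp (-b * ‖v‖ ^ 2)) := by
  by_contra h
  have h1 := integral_undef h
  rw [integral_gauss hb] at h1
  have := Real.pi_pos
  have : Real.pi / b ≠ 0 := by positivity
  exact this h1

theorem energy_le {a : ℂ → ℂ} {r e : ℝ} (hr : 0 < r) (he : 0 ≤ e)
    (h : ∀ δ, ‖a δ‖ ≤ e * Real.exp (-(r ^ 2 * ‖δ‖ ^ 2)) ∧
      ‖lap a δ‖ ≤ e * r ^ 2 * Real.exp (-(r ^ 2 * ‖δ‖ ^ 2))) :
    ∫ δ, ‖a δ - lap a δ / (4 * Real.pi ^ 2 * r ^ 2 : ℝ)‖ ^ 2 ≤ 2 * Real.pi * e ^ 2 / r ^ 2 := by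
  have hpi := Real.pi_gt_three
  have hpt : ∀ δ, ‖a δ - lap a δ / (4 * Real.pi ^ 2 * r ^ 2 : ℝ)‖ ^ 2 ≤
      4 * e ^ 2 * Real.exp (-(2 * r ^ 2) * ‖δ‖ ^ 2) := by
    intro δ
    obtain ⟨h1, h2⟩ := h δ
    set E := Real.exp (-(r ^ 2 * ‖δ‖ ^ 2)) with hE
    have hE0 : 0 < E := Real.exp_pos _
    have hE2 : Real.exp (-(2 * r ^ 2) * ‖δ‖ ^ 2) = E ^ 2 := by
      rw [hE, ← Real.exp_nat_mul]
      congr 1
      push_cast
      ring
    have h3 : ‖lap a δ / ((4 * Real.pi ^ 2 * r ^ 2 : ℝ) : ℂ)‖ ≤ e * E := by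
      rw [norm_div, Complex.norm_real, Real.norm_eq_abs, abs_of_pos (by positivity),
        div_le_iff₀ (by positivity)]
      refine h2.trans ?_
      have h4 : 0 ≤ e * r ^ 2 * E := by positivity
      have h5 : (1 : ℝ) ≤ 4 * Real.pi ^ 2 := by nlinarith
      calc e * r ^ 2 * E = (e * r ^ 2 * E) * 1 := by ring
        _ ≤ (e * r ^ 2 * E) * (4 * Real.pi ^ 2) := mul_le_mul_of_nonneg_left h5 h4
        _ = _ := by ring
    have h6 : ‖a δ - lap a δ / ((4 * Real.pi ^ 2 * r ^ 2 : ℝ) : ℂ)‖ ≤ 2 * e * E := by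
      refine (norm_sub_le _ _).trans ?_
      linarith
    calc _ ≤ (2 * e * E) ^ 2 := pow_le_pow_left₀ (norm_nonneg _) h6 2
      _ = _ := by rw [hE2]; ring
  have hint := (integrable_gauss (b := 2 * r ^ 2) (by positivity)).const_mul (4 * e ^ 2)
  have h7 := integral_mono_of_nonneg (ae_of_all _ fun δ => by positivity) hint
    (ae_of_all _ hpt)
  refine h7.trans (le_of_eq ?_)
  rw [integral_const_mul, integral_gauss (by positivity)]
  field_simp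
  ring

theorem bil_small (hBP : StmtBilPt) {a g h : ℂ → ℂ} {r e : ℝ} (hr : 0 < r) (he : 0 ≤ e) (hg : CC g)
    (hh : CC h) (ha : ContDiff ℝ 2 a) (hc : HasCompactSupport a)
    (hb : ∀ δ, ‖a δ‖ ≤ e * Real.exp (-(r ^ 2 * ‖δ‖ ^ 2)) ∧
      ‖lap a δ‖ ≤ e * r ^ 2 * Real.exp (-(r ^ 2 * ‖δ‖ ^ 2))) (θ : ℂ) :
    ‖bil a g h θ‖ ^ 2 ≤ 2 * Real.pi * e ^ 2 / r ^ 2 * Om r g h θ := by
  obtain ⟨h1, h2, -⟩ := hBP r g h hr hg hh
  exact (h1 θ a ha hc).trans (mul_le_mul_of_nonneg_right (energy_le hr he hb) (h2 θ))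

theorem bd_ne (hF : StmtFac) {a b : ℤ} (hab : a ≤ b) {ζ : ℂ} (h : bd a b ζ ≠ 0) :
    (2 : ℝ) ^ a < ‖ζ‖ ∧ ‖ζ‖ ^ 2 < 2 * ((2 : ℝ) ^ b) ^ 2 := by
  have hle : (2 : ℝ) ^ a ≤ (2 : ℝ) ^ b := zpow_le_zpow_right₀ one_le_two hab
  constructor
  · by_contra hcon
    push Not at hcon
    apply h
    unfold bd
    rw [hF.2.1 a ζ hcon, hF.2.1 b ζ (hcon.trans hle), sub_self]
  · by_contra hcon
    push Not at hcon
    apply h
    unfold bd
    have h1 : ((2 : ℝ) ^ a) ^ 2 ≤ ((2 : ℝ) ^ b) ^ 2 := pow_le_pow_left₀ (by positivity) hle 2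
    rw [hF.2.2.1 b ζ hcon, hF.2.2.1 a ζ (by linarith), sub_self]

theorem bd_one (hF : StmtFac) {a b : ℤ} {ζ : ℂ} (h1 : 2 * ((2 : ℝ) ^ a) ^ 2 ≤ ‖ζ‖ ^ 2)
    (h2 : ‖ζ‖ ≤ (2 : ℝ) ^ b) : bd a b ζ = 1 := by
  unfold bd
  rw [hF.2.1 b ζ h2, hF.2.2.1 a ζ h1, sub_zero]

theorem norm_mm_le (n : ℕ) (ζ : ℂ) : ‖mm n ζ‖ ≤ 1 := by
  unfold mm
  rw [norm_pow, norm_div, RCLike.norm_conj]
  exact pow_le_one₀ (by positivity) (div_self_le_one _)

theorem mm_ne (n : ℕ) {ζ : ℂ} (h : ζ ≠ 0) : mm n ζ ≠ 0 := by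
  unfold mm
  exact pow_ne_zero _ (div_ne_zero ((map_ne_zero _).2 h) h)

/-- the block function -/
theorem cut_eq (hF : StmtFac) (n : ℕ) (s : ℤ) {L m : ℕ} (hm : 4 ≤ m) (hmL : 2 * m < L) (g : ℂ → ℂ)
    (ζ : ℂ) : cut (bd (s + m) (s + L - m)) (mg n g) ζ =
      (bd (s + m) (s + L - m) ζ : ℂ) * (mm n ζ * cut (bd s (s + L)) g ζ) := by
  unfold cut mg
  by_cases h : bd (s + m) (s + L - m) ζ = 0
  · rw [h]; simp
  · have hab : s + (m : ℤ) ≤ s + L - m := by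
      have : (2 * m : ℤ) < L := by exact_mod_cast hmL
      linarith
    obtain ⟨h1, h2⟩ := bd_ne hF hab h
    have h3 : bd s (s + L) ζ = 1 := by
      apply bd_one hF
      · have e1 : 2 * (2 : ℝ) ^ s ≤ (2 : ℝ) ^ (s + m) := by
          have e2 : 2 * (2 : ℝ) ^ s = (2 : ℝ) ^ (s + 1) := by
            rw [zpow_add₀ (by norm_num)]; simp; ring
          rw [e2]
          exact zpow_le_zpow_right₀ one_le_two (by omega)
        have e3 : 0 < (2 : ℝ) ^ s := by positivity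
        have e4 : (2 * (2 : ℝ) ^ s) ^ 2 ≤ ‖ζ‖ ^ 2 := pow_le_pow_left₀ (by positivity) (by linarith) 2
        nlinarith
      · have e1 : 2 * (2 : ℝ) ^ (s + L - m) ≤ (2 : ℝ) ^ (s + L) := by
          have e2 : 2 * (2 : ℝ) ^ (s + L - m) = (2 : ℝ) ^ (s + L - m + 1) := by
            rw [zpow_add₀ (by norm_num : (2 : ℝ) ≠ 0) (s + L - m) 1]; simp; ring
          rw [e2]
          exact zpow_le_zpow_right₀ one_le_two (by omega)
        have e3 : 0 < (2 : ℝ) ^ (s + L - m) := by positivity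
        have e4 : ‖ζ‖ ^ 2 ≤ ((2 : ℝ) ^ (s + L)) ^ 2 := by
          have e5 : (2 * (2 : ℝ) ^ (s + L - m)) ^ 2 ≤ ((2 : ℝ) ^ (s + L)) ^ 2 :=
            pow_le_pow_left₀ (by positivity) e1 2
          nlinarith
        exact abs_le_of_sq_le_sq' e4 (by positivity) |>.2
    rw [h3]
    simp

theorem chi_one (hF : StmtFac) (s : ℤ) (L : ℕ) {g : ℂ → ℂ} {ζ : ℂ}
    (h : cut (bd s (s + L)) g ζ ≠ 0) : bd (s - 1) (s + L + 1) ζ = 1 := by
  have h0 : bd s (s + L) ζ ≠ 0 := by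
    intro h0
    apply h
    unfold cut
    rw [h0]
    simp
  obtain ⟨h1, h2⟩ := bd_ne hF (by omega) h0
  apply bd_one hF
  · have e1 : (2 : ℝ) ^ (s - 1) = (2 : ℝ) ^ s / 2 := by
      rw [zpow_sub₀ (by norm_num)]; simp
    rw [e1]
    have e2 : 0 < (2 : ℝ) ^ s := by positivity
    have e3 : ((2 : ℝ) ^ s) ^ 2 ≤ ‖ζ‖ ^ 2 := pow_le_pow_left₀ e2.le h1.le 2
    nlinarith
  · have e1 : (2 : ℝ) ^ (s + L + 1) = 2 * (2 : ℝ) ^ (s + L) := by
      rw [zpow_add₀ (by norm_num : (2 : ℝ) ≠ 0) (s + L) 1]; simp; ring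
    rw [e1]
    have e2 : 0 < (2 : ℝ) ^ (s + L) := by positivity
    have e3 : ‖ζ‖ ^ 2 ≤ (2 * (2 : ℝ) ^ (s + L)) ^ 2 := by nlinarith
    exact abs_le_of_sq_le_sq' e3 (by positivity) |>.2

theorem integrable_prod {a g : ℂ → ℂ} (ha : Continuous a) (hg : CC g) (θ : ℂ) :
    Integrable (fun δ => a δ * (g (θ / 2 + δ) * g (θ / 2 - δ))) := by
  have hg1 : Continuous (fun δ => g (θ / 2 + δ)) := hg.1.comp (by fun_prop)
  have hg2 : Continuous (fun δ => g (θ / 2 - δ)) := hg.1.comp (by fun_prop)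
  have hc : HasCompactSupport (fun δ => g (θ / 2 + δ)) :=
    hg.2.comp_homeomorph (Homeomorph.addLeft (θ / 2))
  have hc2 : HasCompactSupport (fun δ => a δ * (g (θ / 2 + δ) * g (θ / 2 - δ))) :=
    (hc.mul_right (f' := fun δ => g (θ / 2 - δ))).mul_left (f := a)
  exact (ha.mul (hg1.mul hg2)).integrable_of_hasCompactSupport hc2

theorem cs_cont (n : ℕ) (r : ℝ) (q : ℂ) : Continuous (cs n r q) := by
  unfold cs
  fun_prop

theorem split_sq {ε : ℝ} (hε : 0 < ε) {x y : ℂ} :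
    ‖x + y‖ ^ 2 ≤ (1 + ε) * ‖x‖ ^ 2 + (1 + 1 / ε) * ‖y‖ ^ 2 := by
  have h1 : ‖x + y‖ ^ 2 ≤ (‖x‖ + ‖y‖) ^ 2 := pow_le_pow_left₀ (norm_nonneg _) (norm_add_le _ _) 2
  have h2 : 2 * (‖x‖ * ‖y‖) ≤ ε * ‖x‖ ^ 2 + 1 / ε * ‖y‖ ^ 2 := by
    have h3 : 0 ≤ (ε * ‖x‖ - ‖y‖) ^ 2 / ε := by positivity
    have h4 : (ε * ‖x‖ - ‖y‖) ^ 2 / ε = ε * ‖x‖ ^ 2 - 2 * (‖x‖ * ‖y‖) + 1 / ε * ‖y‖ ^ 2 := by
      field_simp
      ring
    rw [h4] at h3
    linarith
  nlinarith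

end Blk1Aux

open Blk1Aux

theorem blk1 (hE : StmtErr) (hEL : StmtErrLow) (hBP : StmtBilPt) (hF : StmtFac) (hB : StmtBase) :
    StmtBlk1 := by
  intro M L m ε hM hm hmL hε
  set e : ℝ := ε / (3 * (1 + ε)) with he
  have he0 : 0 < e := by positivity
  have heε : e ≤ ε := by
    rw [he, div_le_iff₀ (by positivity)]
    nlinarith
  have hpi := Real.pi_gt_three
  have hpi4 := Real.pi_lt_d2
  have hconst : (1 + 1 / ε) * (2 * Real.pi * e ^ 2) ≤ ε := by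
    have e1 : (1 + 1 / ε) * (2 * Real.pi * e ^ 2) = 2 * Real.pi / 9 * (ε / (1 + ε)) := by
      rw [he]
      field_simp
      ring
    rw [e1]
    have e2 : ε / (1 + ε) ≤ ε := by
      rw [div_le_iff₀ (by positivity)]
      nlinarith
    have e3 : 0 ≤ ε / (1 + ε) := by positivity
    nlinarith
  have hconst' : 2 * Real.pi * e ^ 2 ≤ ε := by
    refine le_trans ?_ hconst
    have h1 : 0 ≤ 2 * Real.pi * e ^ 2 := by positivity
    have h2 : 0 ≤ 1 / ε := by positivity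
    nlinarith
  obtain ⟨η, n₁, hη0, hη1, hηe, hEr⟩ := hE M L m e hM hm hmL he0
  obtain ⟨n₂, hLo⟩ := hEL M L m e hM hm hmL he0
  refine ⟨η, max (max n₁ n₂) 1, hη0, hη1, hηe.trans heε, fun n hn s g hg => ?_⟩
  have hn1 : n₁ ≤ n := (le_max_left _ _).trans ((le_max_left _ _).trans hn)
  have hn2 : n₂ ≤ n := (le_max_right _ _).trans ((le_max_left _ _).trans hn)
  have hn3 : 1 ≤ n := (le_max_right _ _).trans hn
  have hnpos : (0 : ℝ) < n := by exact_mod_cast hn3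
  set r : ℝ := win n M s L with hr
  have hrpos : 0 < r := by
    rw [hr]; unfold win
    have : 0 < Real.sqrt n := Real.sqrt_pos.2 hnpos
    positivity
  set gb : ℂ → ℂ := cut (bd s (s + L)) g with hgb
  have hgbc : CC gb := (hF.2.2.2.2.1 g s (s + L) hg).2.1
  have hκ : ∀ ζ, cut (bd (s + m) (s + L - m)) (mg n g) ζ =
      (bd (s + m) (s + L - m) ζ : ℂ) * (mm n ζ * gb ζ) := fun ζ => cut_eq hF n s hm hmL g ζ
  have hOm : ∀ θ, 0 ≤ Om r gb gb θ := (hBP r gb gb hrpos hgbc hgbc).2.1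
  refine ⟨fun θ hθ q hq => ?_, fun θ hθ => ?_, fun θ hθ => ?_⟩
  · obtain ⟨hc2, hcs, hbd⟩ := hEr n hn1 s θ q hθ hq
    have hsm := bil_small hBP hrpos he0.le hgbc hgbc hc2 hcs hbd θ
    have hθ0 : θ / 2 ≠ 0 := by
      intro h0
      have h1 : θ = 0 := by
        have := (div_eq_zero_iff.1 h0)
        rcases this with h | h
        · exact h
        · norm_num at h
      have h2 := hθ.1
      rw [h1, norm_zero] at h2
      have : (0 : ℝ) < (2 : ℝ) ^ (s + m : ℤ) := by positivity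
      linarith
    have hmm : mm n (θ / 2) ^ 2 ≠ 0 := pow_ne_zero _ (mm_ne n hθ0)
    have hid : As r (cut (bd (s + m) (s + L - m)) (mg n g)) (cut (bd (s + m) (s + L - m)) (mg n g)) θ
        = mm n (θ / 2) ^ 2 * (((bd (s + m) (s + L - m) (q / 2) ^ 2 : ℝ) : ℂ) * bil (cs n r q) gb gb θ
          + bil (Es n r s L m θ q) gb gb θ) := by
      unfold As bil
      rw [← integral_const_mul, ← integral_add
        ((integrable_prod (cs_cont n r q) hgbc θ).const_mul _)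
        (integrable_prod hc2.continuous hgbc θ), ← integral_const_mul]
      congr 1
      ext δ
      simp only [hκ]
      by_cases h1 : gb (θ / 2 + δ) = 0
      · rw [h1]; simp
      by_cases h2 : gb (θ / 2 - δ) = 0
      · rw [h2]; simp
      have h3 := chi_one hF s L (g := g) h1
      have h4 := chi_one hF s L (g := g) h2
      have h5 : Es n r s L m θ q δ = ((Real.exp (-(2 * Real.pi * r ^ 2 * ‖δ‖ ^ 2)) *
          (bd (s + m) (s + L - m) (θ / 2 + δ) * bd (s + m) (s + L - m) (θ / 2 - δ)) : ℝ) : ℂ)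
        * (E2 n θ δ / mm n (θ / 2) ^ 2)
      - ((bd (s + m) (s + L - m) (q / 2) ^ 2 : ℝ) : ℂ) * cs n r q δ := by
        unfold Es
        rw [h3, h4]
        push_cast
        ring
      rw [h5]
      have h6 : mm n (θ / 2) ^ 2 * (E2 n θ δ / mm n (θ / 2) ^ 2) = E2 n θ δ :=
        mul_div_cancel₀ _ hmm
      have h7 : E2 n θ δ = mm n (θ / 2 + δ) * mm n (θ / 2 - δ) := rfl
      push_cast
      rw [h7] at h6
      rw [h7]
      linear_combination -((Complex.exp (-(2 * Real.pi * r ^ 2 * ‖δ‖ ^ 2))) *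
        (bd (s + m) (s + L - m) (θ / 2 + δ) * bd (s + m) (s + L - m) (θ / 2 - δ)) *
        (gb (θ / 2 + δ) * gb (θ / 2 - δ))) * h6
    rw [hid, norm_mul, mul_pow]
    have h8 : ‖mm n (θ / 2) ^ 2‖ ^ 2 ≤ 1 := by
      rw [norm_pow]
      have := norm_mm_le n (θ / 2)
      exact pow_le_one₀ (by positivity) (pow_le_one₀ (norm_nonneg _) this)
    have h9 := split_sq hε (x := ((bd (s + m) (s + L - m) (q / 2) ^ 2 : ℝ) : ℂ) *
      bil (cs n r q) gb gb θ) (y := bil (Es n r s L m θ q) gb gb θ)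
    have h10 : ‖((bd (s + m) (s + L - m) (q / 2) ^ 2 : ℝ) : ℂ) * bil (cs n r q) gb gb θ‖ ^ 2
        = bd (s + m) (s + L - m) (q / 2) ^ 4 * ‖bil (cs n r q) gb gb θ‖ ^ 2 := by
      rw [norm_mul, mul_pow, Complex.norm_real, Real.norm_eq_abs, sq_abs]
      ring
    rw [h10] at h9
    have h11 : (1 + 1 / ε) * ‖bil (Es n r s L m θ q) gb gb θ‖ ^ 2 ≤
        ε / r ^ 2 * Om r gb gb θ := by
      have h12 : (1 + 1 / ε) * ‖bil (Es n r s L m θ q) gb gb θ‖ ^ 2 ≤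
          (1 + 1 / ε) * (2 * Real.pi * e ^ 2 / r ^ 2 * Om r gb gb θ) :=
        mul_le_mul_of_nonneg_left hsm (by positivity)
      refine h12.trans ?_
      have h13 : (1 + 1 / ε) * (2 * Real.pi * e ^ 2 / r ^ 2 * Om r gb gb θ) =
          ((1 + 1 / ε) * (2 * Real.pi * e ^ 2)) / r ^ 2 * Om r gb gb θ := by ring
      rw [h13]
      refine mul_le_mul_of_nonneg_right ?_ (hOm θ)
      exact div_le_div_of_nonneg_right hconst (by positivity)
    have h14 : ‖mm n (θ / 2) ^ 2‖ ^ 2 * ‖((bd (s + m) (s + L - m) (q / 2) ^ 2 : ℝ) : ℂ) *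
        bil (cs n r q) gb gb θ + bil (Es n r s L m θ q) gb gb θ‖ ^ 2 ≤
        1 * ‖((bd (s + m) (s + L - m) (q / 2) ^ 2 : ℝ) : ℂ) *
        bil (cs n r q) gb gb θ + bil (Es n r s L m θ q) gb gb θ‖ ^ 2 :=
      mul_le_mul_of_nonneg_right h8 (by positivity)
    rw [one_mul] at h14
    exact h14.trans (h9.trans (by linarith))
  · obtain ⟨hc2, hcs, hbd⟩ := hLo n hn2 s θ hθ
    have hsm := bil_small hBP hrpos he0.le hgbc hgbc hc2 hcs hbd θ
    have hid : As r (cut (bd (s + m) (s + L - m)) (mg n g)) (cut (bd (s + m) (s + L - m)) (mg n g)) θ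
        = bil (Ls n r s L m θ) gb gb θ := by
      unfold As bil
      congr 1
      ext δ
      simp only [hκ]
      unfold Ls E2
      push_cast
      ring
    rw [hid]
    refine hsm.trans ?_
    refine mul_le_mul_of_nonneg_right ?_ (hOm θ)
    exact div_le_div_of_nonneg_right hconst' (by positivity)
  · unfold As bil
    have h0 : ∀ δ : ℂ, cut (bd (s + m) (s + L - m)) (mg n g) (θ / 2 + δ) *
        cut (bd (s + m) (s + L - m)) (mg n g) (θ / 2 - δ) = 0 := by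
      intro δ
      rw [hκ, hκ]
      by_cases h1 : bd (s + m) (s + L - m) (θ / 2 + δ) = 0
      · rw [h1]; simp
      by_cases h2 : bd (s + m) (s + L - m) (θ / 2 - δ) = 0
      · rw [h2]; simp
      exfalso
      have hab : s + (m : ℤ) ≤ s + L - m := by
        have : (2 * m : ℤ) < L := by exact_mod_cast hmL
        linarith
      have h3 := (bd_ne hF hab h1).2
      have h4 := (bd_ne hF hab h2).2
      have h5 : θ = (θ / 2 + δ) + (θ / 2 - δ) := by ring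
      have h6 : ‖θ‖ ≤ ‖θ / 2 + δ‖ + ‖θ / 2 - δ‖ := by
        conv_lhs => rw [h5]
        exact norm_add_le _ _
      have e1 : (2 : ℝ) ^ (s + L - m + 2) = 4 * (2 : ℝ) ^ (s + L - m) := by
        rw [zpow_add₀ (by norm_num : (2 : ℝ) ≠ 0) (s + L - m) 2]
        have : (2 : ℝ) ^ (2 : ℤ) = 4 := by norm_num
        rw [this]; ring
      rw [e1] at hθ
      have e2 : 0 < (2 : ℝ) ^ (s + L - m) := by positivity
      set t := (2 : ℝ) ^ (s + L - m) with ht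
      have e3 : ‖θ / 2 + δ‖ ≤ 2 * t := by
        have : ‖θ / 2 + δ‖ ^ 2 ≤ (2 * t) ^ 2 := by nlinarith
        exact abs_le_of_sq_le_sq' this (by positivity) |>.2
      have e4 : ‖θ / 2 - δ‖ ≤ 2 * t := by
        have : ‖θ / 2 - δ‖ ^ 2 ≤ (2 * t) ^ 2 := by nlinarith
        exact abs_le_of_sq_le_sq' this (by positivity) |>.2
      linarith
    simp only [h0, mul_zero, integral_zero]

end Pool.Agent.Lib.MP_dd244f_an.Four
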