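import Pool.Agent.Lib.MP_dd244f_an.Four.BlkAvgA

/-!
Full operator, `p = 4`: averaging the chirp inequality over discs (`StmtBlkAvg`), conclusion.
-/

set_option autoImplicit false

namespace Pool.Agent.Lib.MP_dd244f_an.Four

open MeasureTheory Filter Topology
open scoped ENNReal

namespace BlkP

/-- the numerical inequality -/
theorem num_ineq {e n X : ℝ} (he : 0 < e) (he1 : e ≤ 1) (hX : 64 / e ≤ X)
    (hX2 : X ≤ n / (4 / e) ^ 2) :
    (X ^ 2 + 4 / Real.pi * X + 2 / Real.pi ^ 2) *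
      ((1 + e / 16) * (1 + 16 * n ^ 2 / (Real.pi ^ 2 * X ^ 2 * (1 - (1 / (8 / e)) ^ 2) ^ 2))) ≤
      (1 + e / 16) ^ 2 * (1 + e / 8) * (16 / Real.pi ^ 2 * n ^ 2) := by
  have hpi := Real.pi_gt_three
  have hpi2 := Real.pi_lt_d2
  have hpi0 := Real.pi_pos
  have hX64 : 64 ≤ e * X := by
    rw [div_le_iff₀ he] at hX; linarith
  have hX0 : 0 < X := lt_of_lt_of_le (by positivity) hX
  have hX1 : 64 ≤ X := by nlinarith
  -- the bracket
  have hbr : X ^ 2 + 4 / Real.pi * X + 2 / Real.pi ^ 2 ≤ (1 + e / 16) * X ^ 2 := by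
    have h1 : 4 / Real.pi ≤ 4 / 3 := by
      apply div_le_div_of_nonneg_left (by norm_num) (by norm_num) hpi.le
    have h2 : 2 / Real.pi ^ 2 ≤ 1 := by
      rw [div_le_one (by positivity)]; nlinarith
    have h3 : 4 / Real.pi * X ≤ 4 / 3 * X := mul_le_mul_of_nonneg_right h1 hX0.le
    have h4 : 64 * X ≤ e * X ^ 2 := by nlinarith
    nlinarith
  -- the second factor
  set x := (1 / (8 / e)) ^ 2 with hx
  have hx1 : x = e ^ 2 / 64 := by rw [hx]; field_simp; ring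
  have hx0 : 0 ≤ x := by positivity
  have hx2 : x ≤ 1 / 64 := by rw [hx1]; nlinarith
  have hxe : 4 * x ≤ e / 16 := by rw [hx1]; nlinarith
  have hy : 1 / (1 - x) ^ 2 ≤ 1 + e / 16 := by
    have h1 : 0 < (1 - x) ^ 2 := by nlinarith
    rw [div_le_iff₀ h1]
    have h2 : 1 ≤ (1 + 4 * x) * (1 - x) ^ 2 := by nlinarith [mul_nonneg hx0 hx0, mul_nonneg (mul_nonneg hx0 hx0) hx0]
    have h3 : (1 + 4 * x) * (1 - x) ^ 2 ≤ (1 + e / 16) * (1 - x) ^ 2 :=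
      mul_le_mul_of_nonneg_right (by linarith) h1.le
    linarith
  have hXn : X ^ 2 ≤ 16 / Real.pi ^ 2 * n ^ 2 * (e / 16) := by
    have h1 : X ≤ n * e ^ 2 / 16 := by
      have : n / (4 / e) ^ 2 = n * e ^ 2 / 16 := by field_simp; ring
      rw [this] at hX2; exact hX2
    have h2 : X ^ 2 ≤ (n * e ^ 2 / 16) ^ 2 := pow_le_pow_left₀ hX0.le h1 2
    have h3 : (n * e ^ 2 / 16) ^ 2 = n ^ 2 * (e ^ 4 / 256) := by ring
    have h4 : e ^ 4 / 256 ≤ 16 / Real.pi ^ 2 * (e / 16) := by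
      have h5 : 16 / Real.pi ^ 2 * (e / 16) = e / Real.pi ^ 2 := by field_simp
      rw [h5, div_le_div_iff₀ (by norm_num) (by positivity)]
      have h6 : Real.pi ^ 2 ≤ 10 := by nlinarith
      have h7 : e ^ 4 ≤ e := by
        have : e ^ 3 ≤ 1 := pow_le_one₀ he.le he1
        nlinarith
      have h8 : e ^ 4 * Real.pi ^ 2 ≤ e * 10 := mul_le_mul h7 h6 (by positivity) he.le
      linarith
    calc X ^ 2 ≤ n ^ 2 * (e ^ 4 / 256) := by rw [← h3]; exact h2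
      _ ≤ n ^ 2 * (16 / Real.pi ^ 2 * (e / 16)) := mul_le_mul_of_nonneg_left h4 (by positivity)
      _ = _ := by ring
  have hmain : X ^ 2 * (1 + 16 * n ^ 2 / (Real.pi ^ 2 * X ^ 2 * (1 - x) ^ 2)) ≤
      (1 + e / 8) * (16 / Real.pi ^ 2 * n ^ 2) := by
    have h1 : 0 < (1 - x) ^ 2 := by nlinarith
    have e1 : X ^ 2 * (1 + 16 * n ^ 2 / (Real.pi ^ 2 * X ^ 2 * (1 - x) ^ 2)) =
        X ^ 2 + 16 / Real.pi ^ 2 * n ^ 2 * (1 / (1 - x) ^ 2) := by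
      field_simp
    rw [e1]
    have h2 : 16 / Real.pi ^ 2 * n ^ 2 * (1 / (1 - x) ^ 2) ≤ 16 / Real.pi ^ 2 * n ^ 2 * (1 + e / 16) :=
      mul_le_mul_of_nonneg_left hy (by positivity)
    nlinarith
  have hpos : 0 ≤ 1 + 16 * n ^ 2 / (Real.pi ^ 2 * X ^ 2 * (1 - x) ^ 2) := by positivity
  calc (X ^ 2 + 4 / Real.pi * X + 2 / Real.pi ^ 2) *
        ((1 + e / 16) * (1 + 16 * n ^ 2 / (Real.pi ^ 2 * X ^ 2 * (1 - x) ^ 2)))
      ≤ ((1 + e / 16) * X ^ 2) *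
        ((1 + e / 16) * (1 + 16 * n ^ 2 / (Real.pi ^ 2 * X ^ 2 * (1 - x) ^ 2))) :=
        mul_le_mul_of_nonneg_right hbr (by positivity)
    _ = (1 + e / 16) ^ 2 * (X ^ 2 * (1 + 16 * n ^ 2 / (Real.pi ^ 2 * X ^ 2 * (1 - x) ^ 2))) := by ring
    _ ≤ (1 + e / 16) ^ 2 * ((1 + e / 8) * (16 / Real.pi ^ 2 * n ^ 2)) :=
        mul_le_mul_of_nonneg_left hmain (by positivity)
    _ = _ := by ring

theorem const_ineq {e : ℝ} (he : 0 < e) (he1 : e ≤ 1) :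
    (1 + e / 16) ^ 2 * (1 + e / 8) * (1 + e / 16) ^ 2 ≤ 1 + e := by
  have h1 : (1 + e / 16) ^ 2 ≤ 1 + 3 * e / 16 := by nlinarith
  have h2 : 0 ≤ (1 + e / 16) ^ 2 := by positivity
  have h3 : (1 + e / 16) ^ 2 * (1 + e / 16) ^ 2 ≤ (1 + 3 * e / 16) * (1 + 3 * e / 16) :=
    mul_le_mul h1 h1 h2 (by positivity)
  have h4 : (1 + 3 * e / 16) * (1 + 3 * e / 16) ≤ 1 + 9 * e / 16 := by nlinarith
  have h5 : (1 + 9 * e / 16) * (1 + e / 8) ≤ 1 + e := by nlinarith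
  calc (1 + e / 16) ^ 2 * (1 + e / 8) * (1 + e / 16) ^ 2
      = ((1 + e / 16) ^ 2 * (1 + e / 16) ^ 2) * (1 + e / 8) := by ring
    _ ≤ (1 + 9 * e / 16) * (1 + e / 8) :=
        mul_le_mul_of_nonneg_right (h3.trans h4) (by positivity)
    _ ≤ _ := h5

/-- where `bd a b` does not vanish -/
theorem bd_ne (hF : StmtFac) {a b : ℤ} (hab : a ≤ b) {ζ : ℂ} (h : bd a b ζ ≠ 0) :
    (2 : ℝ) ^ a < ‖ζ‖ ∧ ‖ζ‖ ^ 2 < 2 * ((2 : ℝ) ^ b) ^ 2 := by
  obtain ⟨-, hF1, hF0, -⟩ := hF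
  have h2 : (2 : ℝ) ^ a ≤ (2 : ℝ) ^ b := zpow_le_zpow_right₀ (by norm_num) hab
  have ha0 : (0 : ℝ) < (2 : ℝ) ^ a := by positivity
  constructor
  · by_contra hcon
    push Not at hcon
    apply h
    unfold bd
    rw [hF1 a ζ hcon, hF1 b ζ (hcon.trans h2), sub_self]
  · by_contra hcon
    push Not at hcon
    apply h
    unfold bd
    rw [hF0 b ζ hcon, hF0 a ζ, sub_self]
    have : ((2 : ℝ) ^ a) ^ 2 ≤ ((2 : ℝ) ^ b) ^ 2 := pow_le_pow_left₀ ha0.le h2 2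
    linarith

theorem bd_abs (hF : StmtFac) (a b : ℤ) (ζ : ℂ) : |bd a b ζ| ≤ 1 := by
  obtain ⟨hF0, -⟩ := hF
  have h1 := hF0 a ζ
  have h2 := hF0 b ζ
  unfold bd
  rw [abs_le]
  constructor <;> linarith [h1.1, h1.2, h2.1, h2.2]

theorem jset_meas (s : ℤ) (L m : ℕ) : MeasurableSet (Jset s L m) :=
  (measurableSet_le measurable_const measurable_norm).inter
    (measurableSet_le measurable_norm measurable_const)

theorem tendsto_exp_nat {c : ℝ} (hc : 0 < c) : Tendsto (fun n : ℕ => Real.exp (-(c * n))) atTop (𝓝 0) :=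
  Real.tendsto_exp_neg_atTop_nhds_zero.comp (tendsto_natCast_atTop_atTop.const_mul_atTop hc)


attribute [local irreducible] cs bil

theorem fin_ineq {e ε ε₂ n t IJ N : ℝ} (he0 : 0 < e) (he1 : e ≤ 1) (heε : e ≤ ε) (ht0 : 0 ≤ t)
    (ht1 : t ≤ ε₂ / 16) (hIJ0 : 0 ≤ IJ) (hN0 : 0 ≤ N) :
    ((1 + e / 16) ^ 2 * (1 + e / 8) * (16 / Real.pi ^ 2 * n ^ 2)) * (1 + e / 16) ^ 2 * IJ +
      ((1 + e / 16) ^ 2 * (1 + e / 8) * (16 / Real.pi ^ 2 * n ^ 2)) * (1 + e / 16) ^ 2 * (2 * t) * N ≤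
      (1 + ε) * (16 / Real.pi ^ 2 * n ^ 2) * IJ + ε₂ * n ^ 2 * N := by
  have hAμ : ((1 + e / 16) ^ 2 * (1 + e / 8) * (16 / Real.pi ^ 2 * n ^ 2)) * (1 + e / 16) ^ 2 ≤
      (1 + e) * (16 / Real.pi ^ 2 * n ^ 2) := by
    have h5 := const_ineq he0 he1
    have h6 : 0 ≤ 16 / Real.pi ^ 2 * n ^ 2 := by positivity
    calc _ = ((1 + e / 16) ^ 2 * (1 + e / 8) * (1 + e / 16) ^ 2) * (16 / Real.pi ^ 2 * n ^ 2) := by ring
      _ ≤ _ := mul_le_mul_of_nonneg_right h5 h6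
  have h5 : 0 ≤ 16 / Real.pi ^ 2 * n ^ 2 := by positivity
  have h6 : (1 + e) * (16 / Real.pi ^ 2 * n ^ 2) ≤ (1 + ε) * (16 / Real.pi ^ 2 * n ^ 2) :=
    mul_le_mul_of_nonneg_right (by linarith) h5
  have h7 := mul_le_mul_of_nonneg_right (hAμ.trans h6) hIJ0
  have h8 : ((1 + e / 16) ^ 2 * (1 + e / 8) * (16 / Real.pi ^ 2 * n ^ 2)) * (1 + e / 16) ^ 2 * (2 * t) * N ≤
      ε₂ * n ^ 2 * N := by
    apply mul_le_mul_of_nonneg_right _ hN0
    have h9 : 16 / Real.pi ^ 2 ≤ 2 := by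
      rw [div_le_iff₀ (by positivity)]
      have := Real.pi_gt_three
      nlinarith
    have hn2 : 0 ≤ n ^ 2 := by positivity
    have h10 : ((1 + e / 16) ^ 2 * (1 + e / 8) * (16 / Real.pi ^ 2 * n ^ 2)) * (1 + e / 16) ^ 2 ≤ 4 * n ^ 2 := by
      refine hAμ.trans ?_
      have h11 : 16 / Real.pi ^ 2 * n ^ 2 ≤ 2 * n ^ 2 := mul_le_mul_of_nonneg_right h9 hn2
      calc (1 + e) * (16 / Real.pi ^ 2 * n ^ 2) ≤ 2 * (2 * n ^ 2) :=
            mul_le_mul (by linarith) h11 h5 (by norm_num)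
        _ = _ := by ring
    have hε₂ : 0 ≤ ε₂ := by linarith
    calc _ ≤ 4 * n ^ 2 * (2 * (ε₂ / 16)) :=
          mul_le_mul h10 (by linarith) (by positivity) (by positivity)
      _ = ε₂ * n ^ 2 / 2 := by ring
      _ ≤ _ := by
          have : 0 ≤ ε₂ * n ^ 2 := by positivity
          linarith
  linarith

theorem far_ineq {P b μ η ℓ tm : ℝ} {θ q ξ : ℂ} (hP0 : 0 < P) (hη : 0 < η) (hη1 : η < 1) (hμ1 : μ ≤ 1)
    (hℓ : ℓ = η * P) (h2m : 16 ≤ tm) (hab : 2 * (P * tm) ≤ b) (h5 : 2 * (P * tm) < ‖q‖)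
    (h6 : ‖q‖ ^ 2 < 8 * b ^ 2) (h12 : ‖θ‖ < P * tm ∨ 4 * b < ‖θ‖) (hξ : ‖q - ξ‖ ≤ (1 + μ) * ℓ) :
    P ≤ ‖θ - ξ‖ := by
  have hPt : 0 < P * tm := by positivity
  have hb0 : 0 < b := by linarith
  have h7 : ‖q‖ < 3 * b := by
    by_contra hcon
    push Not at hcon
    have h8 : (3 * b) ^ 2 ≤ ‖q‖ ^ 2 := pow_le_pow_left₀ (by positivity) hcon 2
    have h9 : 0 < b ^ 2 := by positivity
    have h10 : (3 * b) ^ 2 = 9 * b ^ 2 := by ring
    linarith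
  have h8 : (1 + μ) * ℓ ≤ 2 * P := by
    rw [hℓ]
    have h9 : η * P ≤ P := by
      have := mul_le_mul_of_nonneg_right hη1.le hP0.le
      linarith
    exact mul_le_mul (by linarith) h9 (by positivity) (by norm_num)
  have h9 : 16 * P ≤ P * tm := by
    have := mul_le_mul_of_nonneg_left h2m hP0.le
    linarith
  have h10 : ‖θ - q‖ ≤ ‖θ - ξ‖ + ‖q - ξ‖ := by
    have : θ - q = (θ - ξ) - (q - ξ) := by ring
    rw [this]
    exact norm_sub_le _ _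
  have h11 : P * tm ≤ ‖θ - q‖ := by
    rcases h12 with h12 | h12
    · have := norm_sub_norm_le q θ
      rw [norm_sub_rev] at this
      linarith
    · have := norm_sub_norm_le θ q
      linarith
  linarith

/-- conversion of the estimate for the lower Lebesgue integral -/
theorem conv_l (hB : StmtBase) (hCG : StmtCG) {σ A a b N : ℝ} (hσ : 0 < σ) (hA : 0 ≤ A) (ha : 0 ≤ a)
    (hb : 0 ≤ b) {g : ℂ → ℂ} (hg : CC g) (hN : N = N4 g) {J : Set ℂ}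
    {S : Set (ℂ × ℂ)} {F : ℂ × ℂ → ℝ} (hFm : Measurable F) (hF0 : ∀ z, 0 ≤ F z)
    (h : ∫⁻ z in S, ENNReal.ofReal (F z) ≤ ENNReal.ofReal A * (ENNReal.ofReal a *
          (∫⁻ θ in J, ENNReal.ofReal (‖As σ g g θ‖ ^ 2)) +
        ENNReal.ofReal b * ∫⁻ θ, ENNReal.ofReal (‖As σ g g θ‖ ^ 2))) :
    IntegrableOn F S ∧ ∫ z in S, F z ≤ A * (a * (∫ θ in J, ‖As σ g g θ‖ ^ 2) + b * N) := by
  obtain ⟨hi, hI⟩ := int_as_le hB hCG hσ hg
  have hI0 : 0 ≤ ∫ θ, ‖As σ g g θ‖ ^ 2 := integral_nonneg fun _ => by positivity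
  have hJ0 : 0 ≤ ∫ θ in J, ‖As σ g g θ‖ ^ 2 := integral_nonneg fun _ => by positivity
  have hX : ∫⁻ z in S, ENNReal.ofReal (F z) ≤
      ENNReal.ofReal (A * (a * (∫ θ in J, ‖As σ g g θ‖ ^ 2) + b * N)) := by
    refine h.trans ?_
    rw [← ofReal_integral_eq_lintegral_ofReal hi (Eventually.of_forall fun θ => by positivity),
      ← ofReal_integral_eq_lintegral_ofReal hi.integrableOn (Eventually.of_forall fun θ => by positivity),
      ← ENNReal.ofReal_mul ha, ← ENNReal.ofReal_mul hb, ← ENNReal.ofReal_add (by positivity) (by positivity),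
      ← ENNReal.ofReal_mul hA]
    apply ENNReal.ofReal_le_ofReal
    rw [hN]
    apply mul_le_mul_of_nonneg_left _ hA
    have := mul_le_mul_of_nonneg_left hI hb
    linarith
  have hY0 : 0 ≤ A * (a * (∫ θ in J, ‖As σ g g θ‖ ^ 2) + b * N) := by
    rw [hN]
    have := n4_nonneg g
    positivity
  refine ⟨⟨hFm.aestronglyMeasurable, ?_⟩, ?_⟩
  · rw [hasFiniteIntegral_iff_ofReal (Eventually.of_forall hF0)]
    exact lt_of_le_of_lt hX ENNReal.ofReal_lt_top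
  · rw [integral_eq_lintegral_of_nonneg_ae (Eventually.of_forall hF0) hFm.aestronglyMeasurable]
    exact ENNReal.toReal_le_of_le_ofReal hY0 hX

end BlkP

open BlkP in
attribute [local irreducible] cs bil in
/-- average over discs -/
theorem blkAvg (hC : StmtChirp) (hCG : StmtCG) (hF : StmtFac) (hB : StmtBase) : StmtBlkAvg := by
  intro ε hε
  obtain ⟨e, he0, he1, heε⟩ : ∃ e : ℝ, 0 < e ∧ e ≤ 1 ∧ e ≤ ε :=
    ⟨min ε 1, lt_min hε one_pos, min_le_right _ _, min_le_left _ _⟩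
  refine ⟨4 / e, 8 / e, ?_, ?_, ?_⟩
  · rw [le_div_iff₀ he0]; linarith
  · rw [lt_div_iff₀ he0]; linarith
  intro m L hm hL η ε₂ hη hη1 hε₂
  have hpi := Real.pi_pos
  obtain ⟨Q, hQ⟩ : ∃ Q : ℝ, Q = (4 / e) * (8 / e) * (2:ℝ) ^ L := ⟨_, rfl⟩
  have hQ0 : 0 < Q := by rw [hQ]; positivity
  obtain ⟨μ, hμ⟩ : ∃ μ : ℝ, μ = e / 16 := ⟨_, rfl⟩
  have hμ0 : 0 < μ := by rw [hμ]; positivity
  have hμ1 : μ ≤ 1 := by rw [hμ]; linarith
  have ev1 : ∀ᶠ n : ℕ in atTop, 1 ≤ n := eventually_ge_atTop 1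
  have ev2 : ∀ᶠ n : ℕ in atTop, 64 * (4 / e) ^ 2 * (2 ^ L) ^ 2 / e ≤ (n : ℝ) :=
    tendsto_natCast_atTop_atTop.eventually_ge_atTop _
  have ev3 : ∀ᶠ n : ℕ in atTop, Real.exp (-(Real.pi / 2 * (μ * η) ^ 2 / Q ^ 2 * n)) ≤
      μ / (1 + μ) / 2 :=
    (tendsto_exp_nat (by positivity)).eventually (ge_mem_nhds (by positivity))
  have ev4 : ∀ᶠ n : ℕ in atTop, Real.exp (-(Real.pi / 2 / Q ^ 2 * n)) ≤ ε₂ / 16 :=
    (tendsto_exp_nat (by positivity)).eventually (ge_mem_nhds (by positivity))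
  obtain ⟨n₀, hn₀⟩ := eventually_atTop.1 (ev1.and (ev2.and (ev3.and ev4)))
  refine ⟨n₀, fun n hn s g hg => ?_⟩
  obtain ⟨h1, h2, h3, h4⟩ := hn₀ n hn
  clear ev1 ev2 ev3 ev4 hn₀
  have hn1 : (1 : ℝ) ≤ n := by exact_mod_cast h1
  -- powers of two
  obtain ⟨P, hP⟩ : ∃ P : ℝ, P = (2 : ℝ) ^ s := ⟨_, rfl⟩
  have hP0 : 0 < P := by rw [hP]; positivity
  have hzL : (2 : ℝ) ^ (s + (L : ℤ)) = P * 2 ^ L := by rw [zpow_add₀ two_ne_zero, zpow_natCast, hP]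
  have hza : (2 : ℝ) ^ (s + (m : ℤ)) = P * 2 ^ m := by rw [zpow_add₀ two_ne_zero, zpow_natCast, hP]
  obtain ⟨b, hb⟩ : ∃ b : ℝ, b = (2 : ℝ) ^ (s + (L : ℤ) - (m : ℤ)) := ⟨_, rfl⟩
  have hb0 : 0 < b := by rw [hb]; positivity
  have hbm : b * 2 ^ m = P * 2 ^ L := by
    rw [hb, ← hzL, ← zpow_natCast, ← zpow_add₀ two_ne_zero]
    congr 1
    ring
  have h2m : (16 : ℝ) ≤ 2 ^ m := by
    calc (16 : ℝ) = 2 ^ 4 := by norm_num
      _ ≤ 2 ^ m := pow_le_pow_right₀ (by norm_num) hm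
  have hab : 2 * (P * 2 ^ m) ≤ b := by
    rw [hb, ← hza]
    calc 2 * (2 : ℝ) ^ (s + (m : ℤ)) = (2 : ℝ) ^ (s + (m : ℤ) + 1) := by
          rw [zpow_add_one₀ two_ne_zero, mul_comm]
      _ ≤ (2 : ℝ) ^ (s + (L : ℤ) - (m : ℤ)) := zpow_le_zpow_right₀ (by norm_num) (by omega)
  have hz4 : (2 : ℝ) ^ (s + (L : ℤ) - (m : ℤ) + 2) = 4 * b := by
    rw [zpow_add₀ two_ne_zero, ← hb]; norm_num; ring
  -- windows
  obtain ⟨r, hr⟩ : ∃ r : ℝ, r = win n (4 / e) s L := ⟨_, rfl⟩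
  obtain ⟨σ, hσ⟩ : ∃ σ : ℝ, σ = win n (4 / e * (8 / e)) s L := ⟨_, rfl⟩
  have hsn : 0 < Real.sqrt n := Real.sqrt_pos.2 (by linarith)
  have hsn2 : Real.sqrt n ^ 2 = n := Real.sq_sqrt (by linarith)
  have hσe : σ = Real.sqrt n / (Q * P) := by
    rw [hσ, hQ]; unfold win; rw [hzL]; ring_nf
  have hre : r = Real.sqrt n / (4 / e * (P * 2 ^ L)) := by
    rw [hr]; unfold win; rw [hzL]
  have hσ0 : 0 < σ := by rw [hσe]; positivity
  have hr0 : 0 < r := by rw [hre]; positivity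
  have hrσ : σ = r * (1 / (8 / e)) := by
    rw [hσe, hre, hQ]; field_simp
  have hlt : σ < r := by
    rw [hrσ]
    have : 1 / (8 / e) < 1 := by
      rw [one_div_div, div_lt_one (by norm_num)]; linarith
    calc r * (1 / (8 / e)) < r * 1 := mul_lt_mul_of_pos_left this hr0
      _ = r := mul_one r
  have hσP : σ ^ 2 * P ^ 2 = n / Q ^ 2 := by
    rw [hσe, div_pow, hsn2]; field_simp
  have hrP : r ^ 2 * (P * 2 ^ L) ^ 2 = n / (4 / e) ^ 2 := by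
    rw [hre, div_pow, hsn2]; field_simp
  rw [← hr, ← hσ, ← hP]
  obtain ⟨ℓ, hℓ⟩ : ∃ ℓ : ℝ, ℓ = η * P := ⟨_, rfl⟩
  have hℓ0 : 0 < ℓ := by rw [hℓ]; positivity
  rw [← hℓ]
  obtain ⟨A, hA⟩ : ∃ A : ℝ, A = (1 + e / 16) ^ 2 * (1 + e / 8) * (16 / Real.pi ^ 2 * (n : ℝ) ^ 2) := ⟨_, rfl⟩
  have hA0 : 0 ≤ A := by rw [hA]; positivity
  have hlom : ∀ a : ℤ, Measurable (lo a) := fun a => (hF.2.2.2.1 a 0).continuous.measurable
  have hbdm : ∀ a b : ℤ, Measurable (bd a b) := fun a b => by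
    have h1 := hlom a
    have h2 := hlom b
    unfold bd
    fun_prop
  have hcm : Measurable (fun q : ℂ => bd (s + m) (s + L - m) (q / 2) ^ 4) := by
    have := hbdm (s + m) (s + L - m)
    fun_prop
  have hWm : Measurable (Wr r) := by
    unfold Wr
    fun_prop
  have hle : s + (m : ℤ) ≤ s + (L : ℤ) - (m : ℤ) := by omega
  have hWr0 : ∀ q, 0 ≤ Wr r q := fun q => by unfold Wr; positivity
  have hq : ∀ q : ℂ, bd (s + m) (s + L - m) (q / 2) ^ 4 ≠ 0 →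
      2 * (P * 2 ^ m) < ‖q‖ ∧ ‖q‖ ^ 2 < 8 * b ^ 2 := by
    intro q hq
    have h5 : bd (s + m) (s + L - m) (q / 2) ≠ 0 := fun h => hq (by rw [h]; simp)
    obtain ⟨h6, h7⟩ := bd_ne hF hle h5
    rw [norm_div, Complex.norm_ofNat] at h6 h7
    rw [hza] at h6
    rw [← hb] at h7
    constructor
    · linarith
    · have : (‖q‖ / 2) ^ 2 = ‖q‖ ^ 2 / 4 := by ring
      rw [this] at h7
      linarith
  have hmain := main_l hC hB (ε := μ) (R := P) (A := A) hσ0 hlt hℓ0 hμ0 hμ0 hP0.le hA0 ?_ n hg hcm hWm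
    (fun q => by positivity) ?_ ?_ (jset_meas s L m) ?_ ?_
  · obtain ⟨t, ht⟩ : ∃ t : ℝ, t = Real.exp (-(Real.pi * σ ^ 2 / 2 * P ^ 2)) := ⟨_, rfl⟩
    have ht0 : 0 < t := by rw [ht]; exact Real.exp_pos _
    have ht1 : t ≤ ε₂ / 16 := by
      have e1 : Real.pi * σ ^ 2 / 2 * P ^ 2 = Real.pi / 2 / Q ^ 2 * n := by
        have : Real.pi * σ ^ 2 / 2 * P ^ 2 = Real.pi / 2 * (σ ^ 2 * P ^ 2) := by ring
        rw [this, hσP]; ring
      rw [ht, e1]; exact h4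
    rw [← ht] at hmain
    have hFm : Measurable (fun z : ℂ × ℂ => bd (s + m) (s + L - m) (z.2 / 2) ^ 4 * Wr r z.2 *
        ‖bil (cs n r z.2) g g z.1‖ ^ 2) := by
      have h5 := meas_bil_cs n r hg (measurable_fst : Measurable (Prod.fst : ℂ × ℂ → ℂ))
        (measurable_snd : Measurable (Prod.snd : ℂ × ℂ → ℂ))
      have h6 : Measurable (fun z : ℂ × ℂ => bd (s + m) (s + L - m) (z.2 / 2) ^ 4) :=
        hcm.comp measurable_snd
      have h7 : Measurable (fun z : ℂ × ℂ => Wr r z.2) := hWm.comp measurable_snd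
      exact (h6.mul h7).mul (h5.norm.pow_const 2)
    obtain ⟨hi, hI⟩ := conv_l hB hCG hσ0 hA0 (by positivity) (by positivity) hg rfl
      hFm (fun z => mul_nonneg (mul_nonneg (by positivity) (hWr0 _)) (by positivity)) hmain
    refine ⟨hi, ?_⟩
    have hπℓ : 0 < Real.pi * ℓ ^ 2 := by positivity
    rw [div_le_iff₀ hπℓ]
    refine hI.trans ?_
    obtain ⟨IJ, hIJ⟩ : ∃ IJ : ℝ, IJ = ∫ θ in Jset s L m, ‖As σ g g θ‖ ^ 2 := ⟨_, rfl⟩
    have hIJ0 : 0 ≤ IJ := by rw [hIJ]; exact integral_nonneg fun _ => by positivity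
    rw [← hIJ]
    have hN0 := n4_nonneg g
    have e2 : A * (Real.pi * ((1 + μ) * ℓ) ^ 2 * IJ + Real.pi * ((1 + μ) * ℓ) ^ 2 * (2 * t) * N4 g) =
        (A * (1 + μ) ^ 2 * IJ + A * (1 + μ) ^ 2 * (2 * t) * N4 g) * (Real.pi * ℓ ^ 2) := by ring
    rw [e2]
    refine mul_le_mul_of_nonneg_right ?_ hπℓ.le
    rw [hA, hμ]
    exact fin_ineq he0 he1 heε ht0.le ht1 hIJ0 hN0
  · -- the window sees the whole disc
    have e1 : Real.pi * σ ^ 2 / 2 * (μ * ℓ) ^ 2 = Real.pi / 2 * (μ * η) ^ 2 / Q ^ 2 * n := by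
      have : Real.pi * σ ^ 2 / 2 * (μ * ℓ) ^ 2 = Real.pi / 2 * (μ * η) ^ 2 * (σ ^ 2 * P ^ 2) := by
        rw [hℓ]; ring
      rw [this, hσP]; ring
    rw [e1]
    linarith
  · intro q
    have h5 := bd_abs hF (s + m) (s + L - m) (q / 2)
    calc bd (s + m) (s + L - m) (q / 2) ^ 4 = |bd (s + m) (s + L - m) (q / 2)| ^ 4 := by
          rw [← abs_pow, abs_of_nonneg (by positivity)]
      _ ≤ 1 := pow_le_one₀ (abs_nonneg _) h5
  · by_contra hcon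
    have h5 := (hq 0 hcon).1
    rw [norm_zero] at h5
    have : 0 < 2 * (P * 2 ^ m) := by positivity
    linarith
  · -- far frequencies
    intro θ hθ q hcq ξ hξ
    obtain ⟨h5, h6⟩ := hq q hcq
    have h12 : ‖θ‖ < P * 2 ^ m ∨ 4 * b < ‖θ‖ := by
      by_contra hcon
      push Not at hcon
      apply hθ
      show (2 : ℝ) ^ (s + (m : ℤ)) ≤ ‖θ‖ ∧ ‖θ‖ ≤ (2 : ℝ) ^ (s + (L : ℤ) - (m : ℤ) + 2)
      rw [hza, hz4]
      exact hcon
    exact far_ineq hP0 hη hη1 hμ1 hℓ h2m hab h5 h6 h12 hξ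
  · -- the numerical inequality
    intro q hcq
    refine ⟨hWr0 q, ?_⟩
    obtain ⟨h5, h6⟩ := hq q hcq
    have hq0 : 0 < ‖q‖ := lt_trans (by positivity) h5
    obtain ⟨X, hX⟩ : ∃ X : ℝ, X = r ^ 2 * ‖q‖ ^ 2 := ⟨_, rfl⟩
    have hX0 : 0 < X := by rw [hX]; positivity
    have hXlo : 64 / e ≤ X := by
      have h7 : P ^ 2 ≤ ‖q‖ ^ 2 := by
        apply pow_le_pow_left₀ hP0.le
        have := mul_le_mul_of_nonneg_left h2m hP0.le
        linarith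
      have h8 : r ^ 2 * P ^ 2 = n / (4 / e) ^ 2 / (2 ^ L) ^ 2 := by
        rw [← hrP]; field_simp
      have h9 : 64 / e ≤ n / (4 / e) ^ 2 / (2 ^ L) ^ 2 := by
        rw [le_div_iff₀ (by positivity), le_div_iff₀ (by positivity)]
        refine le_trans (le_of_eq ?_) h2
        ring
      rw [hX]
      calc 64 / e ≤ r ^ 2 * P ^ 2 := by rw [h8]; exact h9
        _ ≤ _ := mul_le_mul_of_nonneg_left h7 (by positivity)
    have hXhi : X ≤ n / (4 / e) ^ 2 := by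
      rw [← hrP, hX]
      apply mul_le_mul_of_nonneg_left _ (by positivity)
      rw [← hbm]
      have h7 : (16 : ℝ) ^ 2 ≤ (2 ^ m) ^ 2 := pow_le_pow_left₀ (by norm_num) h2m 2
      have h8 : 0 ≤ b ^ 2 := by positivity
      have h9 := mul_le_mul_of_nonneg_left h7 h8
      calc ‖q‖ ^ 2 ≤ 8 * b ^ 2 := h6.le
        _ ≤ b ^ 2 * (2 ^ m) ^ 2 := by linarith
        _ = _ := by ring
    have hx : (0 : ℝ) < 1 - (1 / (8 / e)) ^ 2 := by
      have h7 : 1 / (8 / e) < 1 := by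
        rw [one_div_div, div_lt_one (by norm_num)]; linarith
      have h8 : 0 < 1 / (8 / e) := by positivity
      have h9 : (1 / (8 / e)) ^ 2 < 1 := pow_lt_one₀ h8.le h7 (by norm_num)
      linarith
    have e1 : Wr r q = X ^ 2 + 4 / Real.pi * X + 2 / Real.pi ^ 2 := by
      unfold Wr; rw [hX]; ring
    have e2 : (8 * (n : ℝ) / ‖q‖ ^ 2) ^ 2 / (2 * Real.pi * (r ^ 2 - σ ^ 2)) ^ 2 =
        16 * (n : ℝ) ^ 2 / (Real.pi ^ 2 * X ^ 2 * (1 - (1 / (8 / e)) ^ 2) ^ 2) := by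
      have h7 : r ^ 2 - σ ^ 2 = r ^ 2 * (1 - (1 / (8 / e)) ^ 2) := by rw [hrσ]; ring
      rw [h7, hX]
      generalize 1 - (1 / (8 / e)) ^ 2 = y at hx
      field_simp
      ring
    rw [e1, e2, hA, hμ]
    exact num_ineq he0 he1 hXlo hXhi

end Pool.Agent.Lib.MP_dd244f_an.Four
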