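import Pool.Agent.Lib.MP_dd244f_an.Four.Stmts

/-!
Complex Gaussians as superpositions of characters, with the exact `L^1` norm of the kernel.
-/

set_option autoImplicit false

namespace Pool.Agent.Lib.MP_dd244f_an.Four

open MeasureTheory Filter Topology Finset

namespace CGAux

/-- one-dimensional kernel: `exp (- c p ^ 2) = ∫ kc c s * exp (2 π i s p) ds` -/
noncomputable def kc (c : ℂ) (s : ℝ) : ℂ :=
  (((Real.pi : ℂ) / ((Real.pi : ℂ) ^ 2 / c)) ^ (1 / 2 : ℂ))⁻¹ *
    Complex.exp (-((Real.pi : ℂ) ^ 2 / c) * (s : ℂ) ^ 2)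

theorem re_pos {c : ℂ} (hc : 0 < c.re) : 0 < ((Real.pi : ℂ) ^ 2 / c).re := by
  have h0 : (Real.pi : ℂ) ^ 2 / c = ((Real.pi ^ 2 : ℝ) : ℂ) / c := by push_cast; ring
  rw [h0, Complex.div_re]
  have hn : 0 < Complex.normSq c := Complex.normSq_pos.2 (fun h => by simp [h] at hc)
  simp only [Complex.ofReal_re, Complex.ofReal_im]
  have : 0 < Real.pi ^ 2 * c.re / Complex.normSq c := by positivity
  simpa using this

theorem kc_int {c : ℂ} (hc : 0 < c.re) : Integrable (kc c) := by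
  unfold kc
  exact (integrable_cexp_neg_mul_sq (re_pos hc)).const_mul _

theorem kc_ft {c : ℂ} (hc : 0 < c.re) (p : ℝ) :
    ∫ s : ℝ, kc c s * Complex.exp (2 * (Real.pi : ℂ) * Complex.I * (s * p : ℝ)) =
      Complex.exp (-c * (p : ℂ) ^ 2) := by
  have hc0 : c ≠ 0 := fun h => by simp [h] at hc
  have hpi : (Real.pi : ℂ) ≠ 0 := by exact_mod_cast Real.pi_ne_zero
  have h := fourierIntegral_gaussian (re_pos hc) ((2 * Real.pi * p : ℝ) : ℂ)
  have hA : ((Real.pi : ℂ) / ((Real.pi : ℂ) ^ 2 / c)) ^ (1 / 2 : ℂ) ≠ 0 := by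
    rw [Complex.cpow_ne_zero_iff]
    left
    have e : (Real.pi : ℂ) / ((Real.pi : ℂ) ^ 2 / c) = c / Real.pi := by
      field_simp
    rw [e]
    exact div_ne_zero hc0 hpi
  set A := ((Real.pi : ℂ) / ((Real.pi : ℂ) ^ 2 / c)) ^ (1 / 2 : ℂ) with hAdef
  have h1 : ∀ s : ℝ, kc c s * Complex.exp (2 * (Real.pi : ℂ) * Complex.I * (s * p : ℝ)) =
      A⁻¹ * (Complex.exp (Complex.I * ((2 * Real.pi * p : ℝ) : ℂ) * s) *
        Complex.exp (-((Real.pi : ℂ) ^ 2 / c) * (s : ℂ) ^ 2)) := by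
    intro s
    unfold kc
    rw [← hAdef]
    have : (2 * (Real.pi : ℂ) * Complex.I * (s * p : ℝ)) =
        Complex.I * ((2 * Real.pi * p : ℝ) : ℂ) * s := by
      push_cast
      ring
    rw [this]
    ring
  simp_rw [h1]
  rw [integral_const_mul, h, ← mul_assoc, inv_mul_cancel₀ hA, one_mul]
  congr 1
  push_cast
  field_simp
  ring

theorem kc_norm {c : ℂ} (hc : 0 < c.re) : ∫ s : ℝ, ‖kc c s‖ = Real.sqrt (‖c‖ / c.re) := by
  have hc0 : c ≠ 0 := fun h => by simp [h] at hc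
  have hn : 0 < ‖c‖ := norm_pos_iff.2 hc0
  have hpi : (Real.pi : ℂ) ≠ 0 := by exact_mod_cast Real.pi_ne_zero
  have hre : ((Real.pi : ℂ) ^ 2 / c).re = Real.pi ^ 2 * c.re / ‖c‖ ^ 2 := by
    have h0 : (Real.pi : ℂ) ^ 2 / c = ((Real.pi ^ 2 : ℝ) : ℂ) / c := by push_cast; ring
    rw [h0, Complex.div_re, Complex.normSq_eq_norm_sq, Complex.ofReal_re, Complex.ofReal_im]
    simp
  have h1 : ∀ s : ℝ, ‖kc c s‖ = (Real.sqrt (‖c‖ / Real.pi))⁻¹ *
      Real.exp (-(Real.pi ^ 2 * c.re / ‖c‖ ^ 2) * s ^ 2) := by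
    intro s
    unfold kc
    rw [norm_mul, norm_inv, Complex.norm_exp]
    congr 1
    · congr 1
      have e : (Real.pi : ℂ) / ((Real.pi : ℂ) ^ 2 / c) = c / Real.pi := by
        field_simp
      have e3 : (c / Real.pi : ℂ) ≠ 0 := div_ne_zero hc0 hpi
      rw [e]
      have e2 : (1 / 2 : ℂ) = ((1 / 2 : ℝ) : ℂ) := by push_cast; ring
      rw [e2, Complex.norm_cpow_real, norm_div, Complex.norm_real, Real.norm_eq_abs,
        abs_of_pos Real.pi_pos, ← Real.sqrt_eq_rpow]
    · congr 1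
      rw [← hre]
      have : (-((Real.pi : ℂ) ^ 2 / c) * (s : ℂ) ^ 2) =
          ((s ^ 2 : ℝ) : ℂ) * (-((Real.pi : ℂ) ^ 2 / c)) := by push_cast; ring
      rw [this, Complex.re_ofReal_mul, Complex.neg_re]
      ring
  simp_rw [h1]
  rw [integral_const_mul, integral_gaussian, ← Real.sqrt_inv, ← Real.sqrt_mul (by positivity)]
  congr 1
  have := Real.pi_pos
  field_simp

/-- Fubini in the plane -/
theorem int_prod (f g : ℝ → ℂ) : ∫ z : ℂ, f z.re * g z.im = (∫ s, f s) * ∫ t, g t := by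
  rw [← integral_prod_mul, ← Measure.volume_eq_prod,
    ← Complex.volume_preserving_equiv_real_prod.integral_comp'
      (g := fun p : ℝ × ℝ => f p.1 * g p.2)]
  rfl

theorem integrable_prod' {f g : ℝ → ℂ} (hf : Integrable f) (hg : Integrable g) :
    Integrable (fun z : ℂ => f z.re * g z.im) := by
  have h1 : Integrable (fun p : ℝ × ℝ => f p.1 * g p.2) (volume : Measure (ℝ × ℝ)) := by
    rw [Measure.volume_eq_prod]
    exact hf.mul_prod hg
  have h2 := (Complex.volume_preserving_equiv_real_prod.integrable_comp_emb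
    Complex.measurableEquivRealProd.measurableEmbedding).2 h1
  exact h2

/-- rotations preserve the Lebesgue measure -/
theorem rot_mp (w : ℂ) (hw : ‖w‖ = 1) :
    MeasurePreserving (fun z : ℂ => z * w) volume volume ∧
      MeasurableEmbedding (fun z : ℂ => z * w) := by
  let W : Circle := ⟨w, mem_sphere_zero_iff_norm.2 hw⟩
  have e : (fun z : ℂ => z * w) = rotation W := by
    funext z
    rw [rotation_apply, mul_comm]
  rw [e]
  exact ⟨(rotation W).measurePreserving,
    (rotation W).toHomeomorph.measurableEmbedding⟩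

end CGAux

open CGAux in
theorem cg : StmtCG := by
  intro a β u ha hu
  -- a unit vector with `u ^ 2 = I * w ^ 2`
  obtain ⟨w, hw, hw2⟩ : ∃ w : ℂ, ‖w‖ = 1 ∧ u ^ 2 = Complex.I * w ^ 2 := by
    refine ⟨u * Complex.exp (-(Real.pi / 4 : ℝ) * Complex.I), ?_, ?_⟩
    · rw [norm_mul, hu, one_mul, Complex.norm_exp]
      simp
    · rw [mul_pow, ← Complex.exp_nat_mul]
      have : ((2 : ℕ) : ℂ) * (-(Real.pi / 4 : ℝ) * Complex.I) =
          ((-(Real.pi / 2) : ℝ) : ℂ) * Complex.I := by push_cast; ring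
      rw [this, Complex.exp_mul_I, ← Complex.ofReal_cos, ← Complex.ofReal_sin]
      rw [Real.cos_neg, Real.sin_neg, Real.cos_pi_div_two, Real.sin_pi_div_two]
      push_cast
      linear_combination (u ^ 2) * Complex.I_sq
  set c : ℂ := (a : ℂ) - β * Complex.I with hcdef
  have hcre : c.re = a := by simp [hcdef]
  have hcim : c.im = -β := by simp [hcdef]
  have hcn : ‖c‖ = Real.sqrt (a ^ 2 + β ^ 2) := by
    rw [Complex.norm_def, Complex.normSq_apply, hcre, hcim]
    congr 1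
    ring
  set c' : ℂ := (a : ℂ) + β * Complex.I with hcdef'
  have hcre' : c'.re = a := by simp [hcdef']
  have hcim' : c'.im = β := by simp [hcdef']
  have hcn' : ‖c'‖ = Real.sqrt (a ^ 2 + β ^ 2) := by
    rw [Complex.norm_def, Complex.normSq_apply, hcre', hcim']
    congr 1
    ring
  have hc : 0 < c.re := by rw [hcre]; exact ha
  have hc' : 0 < c'.re := by rw [hcre']; exact ha
  let K₀ : ℂ → ℂ := fun z => kc c z.re * kc c' z.im
  have hK₀ : Integrable K₀ := integrable_prod' (kc_int hc) (kc_int hc')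
  obtain ⟨hmp, hme⟩ := rot_mp w hw
  refine ⟨fun v => K₀ (v * w), (hmp.integrable_comp_emb hme).2 hK₀, ?_, ?_⟩
  · rw [hmp.integral_comp hme (fun z => ‖K₀ z‖)]
    have h1 : ∀ z, ‖K₀ z‖ = ‖kc c z.re‖ * ‖kc c' z.im‖ := fun z => norm_mul _ _
    simp_rw [h1]
    have h2 := int_prod (fun s => ((‖kc c s‖ : ℝ) : ℂ)) (fun s => ((‖kc c' s‖ : ℝ) : ℂ))
    have h3 : ((∫ z : ℂ, ‖kc c z.re‖ * ‖kc c' z.im‖ : ℝ) : ℂ) =
        (((∫ s, ‖kc c s‖) * ∫ s, ‖kc c' s‖ : ℝ) : ℂ) := by
      rw [Complex.ofReal_mul, ← integral_complex_ofReal, ← integral_complex_ofReal,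
        ← integral_complex_ofReal, ← h2]
      simp only [Complex.ofReal_mul]
    rw [Complex.ofReal_injective h3, kc_norm hc, kc_norm hc', hcn, hcn', hcre, hcre',
      Real.mul_self_sqrt (by positivity)]
    have h4 : 1 + β ^ 2 / a ^ 2 = (a ^ 2 + β ^ 2) / a ^ 2 := by field_simp
    rw [h4, Real.sqrt_div' _ (by positivity), Real.sqrt_sq ha.le]
  · intro δ
    set p := (δ * w).re with hp
    set q := (δ * w).im with hq
    have hd : δ * w = p + q * Complex.I := (Complex.re_add_im _).symm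
    have hch : ∀ v, ch v δ = Complex.exp (2 * (Real.pi : ℂ) * Complex.I * ((v * w).re * p : ℝ)) *
        Complex.exp (2 * (Real.pi : ℂ) * Complex.I * ((v * w).im * q : ℝ)) := by
      intro v
      rw [← Complex.exp_add]
      unfold ch
      congr 1
      rw [← mul_add, ← Complex.ofReal_add]
      congr 2
      have hww : w.re * w.re + w.im * w.im = 1 := by
        rw [← Complex.normSq_apply, Complex.normSq_eq_norm_sq, hw, one_pow]
      rw [hp, hq]
      simp only [Complex.mul_re, Complex.mul_im]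
      linear_combination (-(v.re * δ.re + v.im * δ.im)) * hww
    have h1 : ∀ v, K₀ (v * w) * ch v δ =
        (fun z : ℂ => (kc c z.re * Complex.exp (2 * (Real.pi : ℂ) * Complex.I * (z.re * p : ℝ))) *
          (kc c' z.im * Complex.exp (2 * (Real.pi : ℂ) * Complex.I * (z.im * q : ℝ)))) (v * w) := by
      intro v
      rw [hch]
      simp only [K₀]
      ring
    rw [integral_congr_ae (Eventually.of_forall h1)]
    rw [hmp.integral_comp hme (fun z : ℂ =>
        (kc c z.re * Complex.exp (2 * (Real.pi : ℂ) * Complex.I * (z.re * p : ℝ))) *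
          (kc c' z.im * Complex.exp (2 * (Real.pi : ℂ) * Complex.I * (z.im * q : ℝ)))), int_prod
      (fun s => kc c s * Complex.exp (2 * (Real.pi : ℂ) * Complex.I * (s * p : ℝ)))
      (fun s => kc c' s * Complex.exp (2 * (Real.pi : ℂ) * Complex.I * (s * q : ℝ))),
      kc_ft hc, kc_ft hc', ← Complex.exp_add]
    congr 1
    have hn : ‖δ‖ ^ 2 = p ^ 2 + q ^ 2 := by
      have : ‖δ * w‖ ^ 2 = ‖δ‖ ^ 2 := by rw [norm_mul, hw, mul_one]
      rw [← this, ← Complex.normSq_eq_norm_sq, Complex.normSq_apply, hp, hq]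
      ring
    have him : (δ ^ 2 * u ^ 2).im = p ^ 2 - q ^ 2 := by
      have : δ ^ 2 * u ^ 2 = Complex.I * (δ * w) ^ 2 := by rw [hw2]; ring
      rw [this, hd]
      simp [sq]
    rw [hn, him, hcdef, hcdef']
    push_cast
    ring

end Pool.Agent.Lib.MP_dd244f_an.Four
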