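import Pool.Agent.Lib.MP_dd244f_an.Four.Basic

/-!
The chirped Gaussian average is controlled by the Gaussian average.
-/

set_option autoImplicit false

namespace Pool.Agent.Lib.MP_dd244f_an.Four

open MeasureTheory Filter Topology Finset

namespace ChirpAux

/-- Cauchy-Schwarz against a nonnegative weight -/
theorem cs_int {k X : ℂ → ℝ} (hk : Integrable k)
    (hk0 : ∀ v, 0 ≤ k v) (h1 : Integrable fun v => k v * X v)
    (h2 : Integrable fun v => k v * X v ^ 2) (hL : 0 < ∫ v, k v) :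
    (∫ v, k v * X v) ^ 2 ≤ (∫ v, k v) * ∫ v, k v * X v ^ 2 := by
  set L := ∫ v, k v with hLd
  set m := ∫ v, k v * X v with hm
  have h3 : 0 ≤ ∫ v, k v * (L * X v - m) ^ 2 :=
    integral_nonneg fun v => mul_nonneg (hk0 v) (sq_nonneg _)
  have h4 : ∫ v, k v * (L * X v - m) ^ 2 =
      L ^ 2 * (∫ v, k v * X v ^ 2) - 2 * L * m * m + m ^ 2 * L := by
    have e : ∀ v, k v * (L * X v - m) ^ 2 =
        L ^ 2 * (k v * X v ^ 2) - 2 * L * m * (k v * X v) + m ^ 2 * k v := fun v => by ring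
    simp_rw [e]
    have i1 : Integrable fun v => L ^ 2 * (k v * X v ^ 2) := h2.const_mul _
    have i2 : Integrable fun v => 2 * L * m * (k v * X v) := h1.const_mul _
    have i3 : Integrable fun v => m ^ 2 * k v := hk.const_mul _
    have i4 : Integrable fun v => L ^ 2 * (k v * X v ^ 2) - 2 * L * m * (k v * X v) := i1.sub i2
    rw [integral_add i4 i3, integral_sub i1 i2, integral_const_mul, integral_const_mul,
      integral_const_mul]
  rw [h4] at h3
  have h5 : 0 ≤ L * (L * (∫ v, k v * X v ^ 2) - m ^ 2) := by nlinarith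
  have h6 := nonneg_of_mul_nonneg_right h5 hL
  linarith

/-- the integrand -/
noncomputable def Y (σ : ℝ) (g : ℂ → ℂ) (p : ℂ × ℂ) (δ : ℂ) : ℂ :=
  ch p.1 δ * ((Real.exp (-(2 * Real.pi * σ ^ 2 * ‖δ‖ ^ 2)) : ℂ) *
    (g (p.2 / 2 + δ) * g (p.2 / 2 - δ)))

theorem Y_cont {σ : ℝ} {g : ℂ → ℂ} (hg : Continuous g) :
    Continuous (Function.uncurry (Y σ g)) := by
  unfold Y ch Function.uncurry
  fun_prop

theorem As_eq_Y (σ : ℝ) (g : ℂ → ℂ) (v θ : ℂ) :
    As σ (fun ζ => ch (v / 2) ζ * g ζ) (fun ζ => ch (-(v / 2)) ζ * g ζ) θ =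
      ∫ δ, Y σ g (v, θ) δ := by
  unfold As bil Y
  congr 1
  ext δ
  have : ch v δ = ch (v / 2) (θ / 2 + δ) * ch (-(v / 2)) (θ / 2 - δ) := by
    rw [ch_neg_left, ← ch_add_right (v / 2)]
    have e : θ / 2 + δ + -(θ / 2 - δ) = δ + δ := by ring
    rw [e, ch_add_right, ← ch_add]
    congr 1
    ring
  simp only [this]
  ring

theorem exists_bound {g : ℂ → ℂ} (hg : CC g) : ∃ B, 0 ≤ B ∧ ∀ ζ, ‖g ζ‖ ≤ B := by
  obtain ⟨B, hB⟩ := hg.1.bounded_above_of_compact_support hg.2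
  exact ⟨max B 0, le_max_right _ _, fun ζ => (hB ζ).trans (le_max_left _ _)⟩

theorem int_g {g : ℂ → ℂ} (hg : CC g) : Integrable g := hg.1.integrable_of_hasCompactSupport hg.2

theorem exp_le_one (σ : ℝ) (δ : ℂ) :
    ‖(Real.exp (-(2 * Real.pi * σ ^ 2 * ‖δ‖ ^ 2)) : ℂ)‖ ≤ 1 := by
  rw [Complex.norm_real, Real.norm_eq_abs, Real.abs_exp]
  apply Real.exp_le_one_iff.2
  have := Real.pi_pos
  have : 0 ≤ 2 * Real.pi * σ ^ 2 * ‖δ‖ ^ 2 := by positivity
  linarith

theorem Y_norm_le (σ : ℝ) {g : ℂ → ℂ} {B : ℝ} (hB : ∀ ζ, ‖g ζ‖ ≤ B) (p : ℂ × ℂ) (δ : ℂ) :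
    ‖Y σ g p δ‖ ≤ B * ‖g (p.2 / 2 + δ)‖ := by
  unfold Y
  rw [norm_mul, norm_ch, one_mul, norm_mul, norm_mul]
  calc _ ≤ 1 * (‖g (p.2 / 2 + δ)‖ * B) :=
        mul_le_mul (exp_le_one σ δ) (mul_le_mul_of_nonneg_left (hB _) (norm_nonneg _))
          (by positivity) zero_le_one
    _ = _ := by ring

theorem int_shift {g : ℂ → ℂ} (hg : CC g) (θ : ℂ) : Integrable (fun δ => g (θ / 2 + δ)) :=
  (int_g hg).comp_add_left (θ / 2)

theorem Y_int {σ : ℝ} {g : ℂ → ℂ} (hg : CC g) (p : ℂ × ℂ) : Integrable (Y σ g p) := by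
  obtain ⟨B, hB0, hB⟩ := exists_bound hg
  refine Integrable.mono' ((int_shift hg p.2).norm.const_mul B) ?_
    (Eventually.of_forall fun δ => Y_norm_le σ hB p δ)
  exact ((Y_cont hg.1).comp (by fun_prop : Continuous fun δ : ℂ => (p, δ))).aestronglyMeasurable

theorem X_le {σ : ℝ} {g : ℂ → ℂ} (hg : CC g) : ∃ D, 0 ≤ D ∧ ∀ p, ‖∫ δ, Y σ g p δ‖ ≤ D := by
  obtain ⟨B, hB0, hB⟩ := exists_bound hg
  refine ⟨B * ∫ ζ, ‖g ζ‖, mul_nonneg hB0 (integral_nonneg fun _ => norm_nonneg _), fun p => ?_⟩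
  refine (norm_integral_le_of_norm_le ((int_shift hg p.2).norm.const_mul B)
    (Eventually.of_forall fun δ => Y_norm_le σ hB p δ)).trans ?_
  rw [integral_const_mul, integral_add_left_eq_self (fun ζ => ‖g ζ‖)]

theorem X_meas {σ : ℝ} {g : ℂ → ℂ} (hg : Continuous g) :
    StronglyMeasurable (fun p : ℂ × ℂ => ∫ δ, Y σ g p δ) :=
  (Y_cont (σ := σ) hg).stronglyMeasurable.integral_prod_right

end ChirpAux

open ChirpAux in
theorem chirp (hC : StmtCG) (hH : StmtHold) (_hB : StmtBase) : StmtChirp := by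
  intro σ r β u ξ g hσ hr hu hg
  have hpi := Real.pi_pos
  have ha : 0 < 2 * Real.pi * (r ^ 2 - σ ^ 2) := by
    have : σ ^ 2 < r ^ 2 := by gcongr
    have : 0 < r ^ 2 - σ ^ 2 := by linarith
    positivity
  obtain ⟨K, hK, hKn, hKe⟩ := hC (2 * Real.pi * (r ^ 2 - σ ^ 2)) β u ha hu
  set a := 2 * Real.pi * (r ^ 2 - σ ^ 2) with had
  set L := ∫ v, ‖K v‖ with hL
  have hL0 : 0 < L := by rw [hKn]; positivity
  have hL2 : L ^ 2 = 1 + β ^ 2 / a ^ 2 := by rw [hKn, Real.sq_sqrt (by positivity)]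
  obtain ⟨D, hD0, hD⟩ := X_le (σ := σ) hg
  have hXm := X_meas (σ := σ) hg.1
  set X : ℂ × ℂ → ℂ := fun p => ∫ δ, Y σ g p δ with hX
  -- superposition
  have key : ∀ θ, bil (fun δ => Complex.exp ((-(2 * Real.pi * r ^ 2 * ‖δ‖ ^ 2) : ℝ)
      + Complex.I * (β * (δ ^ 2 * u ^ 2).im : ℝ))) g g θ = ∫ v, K v * X (v, θ) := by
    intro θ
    have hΨ : Integrable (fun δ : ℂ => (Real.exp (-(2 * Real.pi * σ ^ 2 * ‖δ‖ ^ 2)) : ℂ) *
        (g (θ / 2 + δ) * g (θ / 2 - δ))) := by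
      have := Y_int (σ := σ) hg (0, θ)
      unfold Y at this
      simpa [ch_zero_left] using this
    set Ψ : ℂ → ℂ := fun δ : ℂ => (Real.exp (-(2 * Real.pi * σ ^ 2 * ‖δ‖ ^ 2)) : ℂ) *
        (g (θ / 2 + δ) * g (θ / 2 - δ)) with hΨd
    have hprod : Integrable (fun z : ℂ × ℂ => ch z.1 z.2 * (K z.1 * Ψ z.2))
        (volume.prod volume) := by
      refine Integrable.bdd_mul (c := 1) (hK.mul_prod hΨ)
        continuous_ch2.aestronglyMeasurable (Eventually.of_forall fun z => ?_)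
      rw [norm_ch]
    have h1 : bil (fun δ => Complex.exp ((-(2 * Real.pi * r ^ 2 * ‖δ‖ ^ 2) : ℝ)
      + Complex.I * (β * (δ ^ 2 * u ^ 2).im : ℝ))) g g θ =
        ∫ δ, ∫ v, ch v δ * (K v * Ψ δ) := by
      unfold bil
      congr 1
      ext δ
      have e1 : Complex.exp ((-(2 * Real.pi * r ^ 2 * ‖δ‖ ^ 2) : ℝ)
          + Complex.I * (β * (δ ^ 2 * u ^ 2).im : ℝ)) =
          (Real.exp (-(2 * Real.pi * σ ^ 2 * ‖δ‖ ^ 2)) : ℂ) *
            Complex.exp ((-(a * ‖δ‖ ^ 2) : ℝ) + Complex.I * (β * (δ ^ 2 * u ^ 2).im : ℝ)) := by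
        rw [Complex.ofReal_exp, ← Complex.exp_add]
        congr 1
        rw [had]
        push_cast
        ring
      have e2 : ∫ v, ch v δ * (K v * Ψ δ) = (∫ v, K v * ch v δ) * Ψ δ := by
        rw [← integral_mul_const]
        congr 1
        ext v
        ring
      rw [e2, ← hKe δ]
      simp only [e1, hΨd]
      ring
    rw [h1, ← integral_integral_swap hprod]
    congr 1
    ext v
    simp only [hX, Y]
    rw [← integral_const_mul]
    congr 1
    ext δ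
    ring
  -- the weight
  set w : ℂ → ℝ := fun θ => Real.exp (-(Real.pi * σ ^ 2 * ‖θ - ξ‖ ^ 2)) with hw
  have hw0 : ∀ θ, 0 ≤ w θ := fun θ => (Real.exp_pos _).le
  have hwi : Integrable w := by
    have h0 : Integrable (fun θ : ℂ => Real.exp (-(Real.pi * σ ^ 2) * ‖θ‖ ^ 2)) :=
      GaussianFourier.integrable_cexp_neg_mul_sq_norm_add (V := ℂ) (b := ((Real.pi * σ ^ 2 : ℝ) : ℂ))
        (by rw [Complex.ofReal_re]; positivity) 0 0 |>.norm.congr
        (Eventually.of_forall fun θ => by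
          simp only [Complex.norm_exp]
          congr 1
          have : (-((Real.pi * σ ^ 2 : ℝ) : ℂ) * (‖θ‖ : ℂ) ^ 2 + 0 * ((inner ℝ (0 : ℂ) θ : ℝ) : ℂ)) =
            ((-(Real.pi * σ ^ 2) * ‖θ‖ ^ 2 : ℝ) : ℂ) := by push_cast; ring
          rw [this, Complex.ofReal_re])
    have h1 := h0.comp_sub_right ξ
    refine h1.congr (Eventually.of_forall fun θ => ?_)
    simp only [hw, neg_mul]
  set E := ∫ θ, w θ * ‖As σ g g θ‖ ^ 2 with hE
  have hHold : ∀ v, ∫ θ, w θ * ‖X (v, θ)‖ ^ 2 ≤ E := by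
    intro v
    have := hH σ g (v / 2) ξ hg
    simp only [As_eq_Y] at this
    exact this
  have hF : Integrable (fun z : ℂ × ℂ => ‖X z‖ ^ 2 * (‖K z.1‖ * w z.2))
      (volume.prod volume) := by
    refine Integrable.bdd_mul (c := D ^ 2) (hK.norm.mul_prod hwi)
      (hXm.norm.pow 2).aestronglyMeasurable (Eventually.of_forall fun z => ?_)
    rw [Real.norm_eq_abs, abs_of_nonneg (by positivity)]
    exact pow_le_pow_left₀ (norm_nonneg _) (hD z) 2
  have hXv : ∀ θ, StronglyMeasurable fun v => X (v, θ) := fun θ =>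
    hXm.comp_measurable (by fun_prop)
  have pt : ∀ θ, ‖∫ v, K v * X (v, θ)‖ ^ 2 ≤ L * ∫ v, ‖K v‖ * ‖X (v, θ)‖ ^ 2 := by
    intro θ
    have i1 : Integrable fun v => ‖K v‖ * ‖X (v, θ)‖ := by
      have : Integrable fun v => ‖X (v, θ)‖ * ‖K v‖ :=
        Integrable.bdd_mul (c := D) hK.norm (hXv θ).norm.aestronglyMeasurable
          (Eventually.of_forall fun v => by rw [norm_norm]; exact hD _)
      refine this.congr (Eventually.of_forall fun v => by simp only; ring)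
    have i2 : Integrable fun v => ‖K v‖ * ‖X (v, θ)‖ ^ 2 := by
      have : Integrable fun v => ‖X (v, θ)‖ ^ 2 * ‖K v‖ :=
        Integrable.bdd_mul (c := D ^ 2) hK.norm ((hXv θ).norm.pow 2).aestronglyMeasurable
          (Eventually.of_forall fun v => by
            rw [Real.norm_eq_abs, abs_of_nonneg (by positivity)]
            exact pow_le_pow_left₀ (norm_nonneg _) (hD _) 2)
      refine this.congr (Eventually.of_forall fun v => by simp only; ring)
    refine le_trans ?_ (cs_int hK.norm (fun v => norm_nonneg _) i1 i2 hL0)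
    refine pow_le_pow_left₀ (norm_nonneg _) ?_ 2
    refine (norm_integral_le_integral_norm _).trans (le_of_eq ?_)
    congr 1
    ext v
    rw [norm_mul]
  have hswap : ∫ θ, ∫ v, ‖X (v, θ)‖ ^ 2 * (‖K v‖ * w θ) =
      ∫ v, ∫ θ, ‖X (v, θ)‖ ^ 2 * (‖K v‖ * w θ) := (integral_integral_swap hF).symm
  calc ∫ θ, w θ * ‖bil (fun δ => Complex.exp ((-(2 * Real.pi * r ^ 2 * ‖δ‖ ^ 2) : ℝ)
      + Complex.I * (β * (δ ^ 2 * u ^ 2).im : ℝ))) g g θ‖ ^ 2
      ≤ ∫ θ, L * ∫ v, ‖X (v, θ)‖ ^ 2 * (‖K v‖ * w θ) := by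
        refine integral_mono_of_nonneg
          (Eventually.of_forall fun θ => mul_nonneg (hw0 θ) (by positivity))
          ((hF.integral_prod_right).const_mul L) (Eventually.of_forall fun θ => ?_)
        simp only
        rw [key θ]
        have e : ∫ v, ‖X (v, θ)‖ ^ 2 * (‖K v‖ * w θ) =
            w θ * ∫ v, ‖K v‖ * ‖X (v, θ)‖ ^ 2 := by
          rw [← integral_const_mul]
          congr 1
          ext v
          ring
        rw [e]
        calc _ ≤ w θ * (L * ∫ v, ‖K v‖ * ‖X (v, θ)‖ ^ 2) :=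
              mul_le_mul_of_nonneg_left (pt θ) (hw0 θ)
          _ = _ := by ring
    _ = L * ∫ v, ∫ θ, ‖X (v, θ)‖ ^ 2 * (‖K v‖ * w θ) := by
        rw [integral_const_mul, hswap]
    _ ≤ L * ∫ v, ‖K v‖ * E := by
        refine mul_le_mul_of_nonneg_left ?_ hL0.le
        refine integral_mono (hF.integral_prod_left) (hK.norm.mul_const E) fun v => ?_
        simp only
        have e : ∫ θ, ‖X (v, θ)‖ ^ 2 * (‖K v‖ * w θ) =
            ‖K v‖ * ∫ θ, w θ * ‖X (v, θ)‖ ^ 2 := by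
          rw [← integral_const_mul]
          congr 1
          ext θ
          ring
        rw [e]
        exact mul_le_mul_of_nonneg_left (hHold v) (norm_nonneg _)
    _ = (1 + β ^ 2 / a ^ 2) * E := by
        rw [integral_mul_const, ← hL, ← hL2]
        ring

end Pool.Agent.Lib.MP_dd244f_an.Four
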