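import Pool.Agent.Lib.MP_dd244f_an.Four.Stmts

/-!
The averaging kernel `KK ρ x = ρ ^ 2 / (ρ ^ 2 + |x| ^ 2) ^ 2`.
-/

set_option autoImplicit false

namespace Pool.Agent.Lib.MP_dd244f_an.Four

open MeasureTheory Filter Topology Finset

namespace KKm

lemma kk_pos {ρ : ℝ} (hρ : 0 < ρ) (x : ℂ) : 0 < KK ρ x := by
  unfold KK
  positivity

lemma kk_le {ρ : ℝ} (hρ : 0 < ρ) (x : ℂ) : KK ρ x ≤ 1 / ρ ^ 2 := by
  unfold KK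
  rw [div_le_div_iff₀ (by positivity) (by positivity)]
  nlinarith [sq_nonneg ‖x‖, mul_nonneg (sq_nonneg ρ) (sq_nonneg ‖x‖), sq_nonneg (‖x‖ ^ 2)]

/-- the one dimensional integral -/
lemma int_one {ρ : ℝ} (hρ : 0 < ρ) :
    IntegrableOn (fun y : ℝ => y ^ 1 • (ρ ^ 2 / (ρ ^ 2 + y ^ 2) ^ 2)) (Set.Ioi 0) ∧
      ∫ y in Set.Ioi (0 : ℝ), y ^ 1 • (ρ ^ 2 / (ρ ^ 2 + y ^ 2) ^ 2) = 1 / 2 := by
  have hd : ∀ y : ℝ, HasDerivAt (fun y : ℝ => -(ρ ^ 2 / 2) * (ρ ^ 2 + y ^ 2)⁻¹)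
      (y ^ 1 • (ρ ^ 2 / (ρ ^ 2 + y ^ 2) ^ 2)) y := by
    intro y
    have h0 : ρ ^ 2 + y ^ 2 ≠ 0 := by positivity
    have h1 : HasDerivAt (fun y : ℝ => ρ ^ 2 + y ^ 2) (2 * y) y := by
      have := (hasDerivAt_pow 2 y).const_add (ρ ^ 2)
      simpa using this
    have h2 := (h1.inv h0).const_mul (-(ρ ^ 2 / 2))
    refine h2.congr_deriv ?_
    rw [smul_eq_mul, pow_one]
    field_simp
  have hpos : ∀ y ∈ Set.Ioi (0 : ℝ), 0 ≤ y ^ 1 • (ρ ^ 2 / (ρ ^ 2 + y ^ 2) ^ 2) := by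
    intro y hy
    have hy' : (0 : ℝ) < y := hy
    rw [smul_eq_mul]
    positivity
  have hlim : Tendsto (fun y : ℝ => -(ρ ^ 2 / 2) * (ρ ^ 2 + y ^ 2)⁻¹) atTop (𝓝 0) := by
    have h1 : Tendsto (fun y : ℝ => ρ ^ 2 + y ^ 2) atTop atTop :=
      tendsto_atTop_add_const_left _ _ (tendsto_pow_atTop (by norm_num))
    have h2 := (tendsto_inv_atTop_zero.comp h1).const_mul (-(ρ ^ 2 / 2))
    rw [mul_zero] at h2
    exact h2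
  refine ⟨integrableOn_Ioi_deriv_of_nonneg' (fun y _ => hd y) hpos hlim, ?_⟩
  rw [integral_Ioi_of_hasDerivAt_of_nonneg' (fun y _ => hd y) hpos hlim]
  have : ρ ≠ 0 := hρ.ne'
  field_simp
  ring

lemma kk_int {ρ : ℝ} (hρ : 0 < ρ) : Integrable (KK ρ) ∧ ∫ x, KK ρ x = Real.pi := by
  obtain ⟨h1, h2⟩ := int_one hρ
  have hdim : Module.finrank ℝ ℂ = 2 := Complex.finrank_real_complex
  have hrw : KK ρ = fun x : ℂ => (fun y : ℝ => ρ ^ 2 / (ρ ^ 2 + y ^ 2) ^ 2) ‖x‖ := rfl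
  refine ⟨?_, ?_⟩
  · rw [hrw]
    have := (integrable_fun_norm_addHaar (E := ℂ) volume
      (f := fun y : ℝ => ρ ^ 2 / (ρ ^ 2 + y ^ 2) ^ 2)).mpr
    apply this
    rw [hdim]
    exact h1
  · rw [hrw]
    rw [integral_fun_norm_addHaar volume (fun y : ℝ => ρ ^ 2 / (ρ ^ 2 + y ^ 2) ^ 2), hdim]
    norm_num only
    rw [h2]
    have h3 : (volume : Measure ℂ).real (Metric.ball 0 1) = Real.pi := by
      unfold Measure.real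
      rw [Complex.volume_ball]
      simp
    rw [h3]
    simp
    ring

/-- comparison -/
lemma kk_dom {τ ρ : ℝ} (hτ : 0 < τ) (hτρ : τ ≤ ρ) (x y : ℂ) :
    KK τ y * KK ρ (x - y) ≤ 16 * KK ρ x * (KK τ y + KK ρ (x - y)) := by
  have hρ : 0 < ρ := lt_of_lt_of_le hτ hτρ
  have hx : ‖x‖ ^ 2 ≤ 2 * ‖y‖ ^ 2 + 2 * ‖x - y‖ ^ 2 := by
    have h1 : ‖x‖ ≤ ‖y‖ + ‖x - y‖ := by
      have := norm_add_le y (x - y)
      simpa using this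
    have h2 := norm_nonneg x
    nlinarith [sq_nonneg (‖y‖ - ‖x - y‖), norm_nonneg y, norm_nonneg (x - y)]
  have p1 := kk_pos hτ y
  have p2 := kk_pos hρ (x - y)
  have p3 := kk_pos hρ x
  set a := ‖y‖ ^ 2 with ha
  set b := ρ ^ 2 + ‖x - y‖ ^ 2 with hb
  have ha0 : 0 ≤ a := sq_nonneg _
  have hb0 : 0 < b := by positivity
  have hc0 : 0 < ρ ^ 2 + ‖x‖ ^ 2 := by positivity
  rcases le_total a b with h | h
  · -- `KK ρ (x - y) ≤ 16 KK ρ x`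
    have h1 : KK ρ (x - y) ≤ 16 * KK ρ x := by
      unfold KK
      rw [← hb, mul_div_assoc', div_le_div_iff₀ (by positivity) (by positivity)]
      have h2 : ρ ^ 2 + ‖x‖ ^ 2 ≤ 4 * b := by nlinarith [sq_nonneg ρ, sq_nonneg ‖x - y‖]
      have h3 : (ρ ^ 2 + ‖x‖ ^ 2) ^ 2 ≤ (4 * b) ^ 2 := pow_le_pow_left₀ hc0.le h2 2
      nlinarith [sq_nonneg ρ]
    nlinarith [mul_le_mul_of_nonneg_left h1 p1.le, mul_pos p3 p2]
  · have h1 : KK τ y ≤ 16 * KK ρ x := by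
      unfold KK
      rw [mul_div_assoc', div_le_div_iff₀ (by positivity) (by positivity)]
      have h2 : ρ ^ 2 + ‖x‖ ^ 2 ≤ 4 * (τ ^ 2 + ‖y‖ ^ 2) := by
        nlinarith [sq_nonneg τ, sq_nonneg ‖x - y‖]
      have h3 : (ρ ^ 2 + ‖x‖ ^ 2) ^ 2 ≤ (4 * (τ ^ 2 + ‖y‖ ^ 2)) ^ 2 :=
        pow_le_pow_left₀ hc0.le h2 2
      have h4 : τ ^ 2 ≤ ρ ^ 2 := pow_le_pow_left₀ hτ.le hτρ 2
      calc τ ^ 2 * (ρ ^ 2 + ‖x‖ ^ 2) ^ 2 ≤ ρ ^ 2 * (4 * (τ ^ 2 + ‖y‖ ^ 2)) ^ 2 := by gcongr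
        _ = 16 * ρ ^ 2 * (τ ^ 2 + ‖y‖ ^ 2) ^ 2 := by ring
    nlinarith [mul_le_mul_of_nonneg_right h1 p2.le, mul_pos p3 p1]

end KKm

open KKm

/-- the averaging kernel -/
theorem kk : StmtKK := by
  refine ⟨?_, ?_, ?_, ?_⟩
  · intro ρ hρ
    obtain ⟨h1, h2⟩ := kk_int hρ
    exact ⟨h1, h2, fun x => ⟨kk_pos hρ x, kk_le hρ x⟩⟩
  · refine ⟨32 * Real.pi, by positivity, ?_⟩
    intro τ ρ hτ hτρ x
    have hρ : 0 < ρ := lt_of_lt_of_le hτ hτρ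
    obtain ⟨a1, a2⟩ := kk_int hτ
    obtain ⟨b1, b2⟩ := kk_int hρ
    have b1' : Integrable (fun y => KK ρ (x - y)) := b1.comp_sub_left x
    have b2' : ∫ y, KK ρ (x - y) = Real.pi := by
      rw [integral_sub_left_eq_self (fun y => KK ρ y), b2]
    calc ∫ y, KK τ y * KK ρ (x - y)
        ≤ ∫ y, 16 * KK ρ x * (KK τ y + KK ρ (x - y)) := by
          refine integral_mono_of_nonneg ?_ ((a1.add b1').const_mul _) ?_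
          · exact Eventually.of_forall fun y =>
              mul_nonneg (kk_pos hτ y).le (kk_pos hρ (x - y)).le
          · exact Eventually.of_forall fun y => kk_dom hτ hτρ x y
      _ = 32 * Real.pi * KK ρ x := by
          rw [integral_const_mul, integral_add a1 b1', a2, b2']
          ring
  · intro ρ hρ x h
    have hx : ‖x‖ ^ 2 ≤ 2 * ‖x + h‖ ^ 2 + 2 * ‖h‖ ^ 2 := by
      have h1 : ‖x‖ ≤ ‖x + h‖ + ‖h‖ := by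
        have := norm_sub_le (x + h) h
        simpa using this
      have h2 := norm_nonneg x
      nlinarith [sq_nonneg (‖x + h‖ - ‖h‖), norm_nonneg h, norm_nonneg (x + h)]
    have h1 : ρ ^ 2 + ‖x‖ ^ 2 ≤ 2 * (1 + ‖h‖ ^ 2 / ρ ^ 2) * (ρ ^ 2 + ‖x + h‖ ^ 2) := by
      have h2 : ‖h‖ ^ 2 ≤ ‖h‖ ^ 2 / ρ ^ 2 * (ρ ^ 2 + ‖x + h‖ ^ 2) := by
        rw [div_mul_eq_mul_div, le_div_iff₀ (by positivity)]
        nlinarith [mul_nonneg (sq_nonneg ‖h‖) (sq_nonneg ‖x + h‖)]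
      nlinarith [sq_nonneg ρ]
    unfold KK
    rw [mul_div_assoc', div_le_div_iff₀ (by positivity) (by positivity)]
    have h3 : (ρ ^ 2 + ‖x‖ ^ 2) ^ 2 ≤
        (2 * (1 + ‖h‖ ^ 2 / ρ ^ 2) * (ρ ^ 2 + ‖x + h‖ ^ 2)) ^ 2 :=
      pow_le_pow_left₀ (by positivity) h1 2
    calc ρ ^ 2 * (ρ ^ 2 + ‖x‖ ^ 2) ^ 2
        ≤ ρ ^ 2 * (2 * (1 + ‖h‖ ^ 2 / ρ ^ 2) * (ρ ^ 2 + ‖x + h‖ ^ 2)) ^ 2 := by gcongr
      _ = 4 * (1 + ‖h‖ ^ 2 / ρ ^ 2) ^ 2 * ρ ^ 2 * (ρ ^ 2 + ‖x + h‖ ^ 2) ^ 2 := by ring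
  · intro ρ ν hρ hν x
    unfold KK
    rw [mul_div_assoc', mul_pow]
    have h1 : ρ ^ 2 + ‖x‖ ^ 2 ≤ ν ^ 2 * ρ ^ 2 + ‖x‖ ^ 2 := by
      have h2 : 1 ≤ ν ^ 2 := one_le_pow₀ hν
      nlinarith [sq_nonneg ρ]
    have h3 : 0 < ρ ^ 2 + ‖x‖ ^ 2 := by positivity
    gcongr

end Pool.Agent.Lib.MP_dd244f_an.Four
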