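import Pool.Agent.Lib.MP_dd244f_an.Four.Stmts
import Pool.Agent.Lib.MP_dd244f_an.Joint.Cut

/-!
Full operator, `p = 4`: the cutoffs are harmless.
-/

set_option autoImplicit false

namespace Pool.Agent.Lib.MP_dd244f_an.Four

open MeasureTheory Filter Topology Finset
open Pool.Agent.Lib.MP_dd244f_an.Joint (st ct Mst)

namespace FacAux

theorem two_zpow_pos (a : ℤ) : (0 : ℝ) < (2 : ℝ) ^ a := by positivity

theorem lo_mem (a : ℤ) (ζ : ℂ) : 0 ≤ lo a ζ ∧ lo a ζ ≤ 1 := by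
  obtain ⟨-, h1, h2, -⟩ := Joint.cut ((2 : ℝ) ^ a) (two_zpow_pos a)
  have h3 := h1 ζ
  have h4 := h2 ζ
  unfold lo
  constructor <;> linarith

theorem lo_one {a : ℤ} {ζ : ℂ} (h : ‖ζ‖ ≤ (2 : ℝ) ^ a) : lo a ζ = 1 := by
  obtain ⟨-, -, -, h1, -⟩ := Joint.cut ((2 : ℝ) ^ a) (two_zpow_pos a)
  unfold lo
  rw [h1 ζ h, sub_zero]

theorem lo_zero {a : ℤ} {ζ : ℂ} (h : 2 * ((2 : ℝ) ^ a) ^ 2 ≤ ‖ζ‖ ^ 2) : lo a ζ = 0 := by
  obtain ⟨-, -, -, -, h1, -⟩ := Joint.cut ((2 : ℝ) ^ a) (two_zpow_pos a)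
  unfold lo
  rw [h1 ζ h, sub_self]

theorem lo_contDiff (a : ℤ) (k : ℕ∞) : ContDiff ℝ k (lo a) := by
  obtain ⟨h, -⟩ := Joint.cut ((2 : ℝ) ^ a) (two_zpow_pos a)
  exact contDiff_const.sub (h k)

theorem lo_cont (a : ℤ) : Continuous (lo a) := (lo_contDiff a 0).continuous

theorem bd_cont (a b : ℤ) : Continuous (bd a b) := (lo_cont b).sub (lo_cont a)

theorem sh_cont (a : ℤ) : Continuous (sh a) := bd_cont a (a + 1)

theorem cut_cc {χ : ℂ → ℝ} (hχ : Continuous χ) {g : ℂ → ℂ} (hg : CC g) : CC (cut χ g) :=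
  ⟨(Complex.continuous_ofReal.comp hχ).mul hg.1, hg.2.mul_left⟩

theorem mm_contAt (n : ℕ) {ζ : ℂ} (h : ζ ≠ 0) : ContinuousAt (mm n) ζ := by
  unfold mm
  exact (ContinuousAt.div Complex.continuous_conj.continuousAt continuousAt_id h).pow n

theorem mg_contAt (n : ℕ) {g : ℂ → ℂ} (hg : Continuous g) {ζ : ℂ} (h : ζ ≠ 0) :
    ContinuousAt (mg n g) ζ := (mm_contAt n h).mul hg.continuousAt

theorem cont_of_zero {F : ℂ → ℂ} (h0 : ∀ᶠ ζ in 𝓝 (0 : ℂ), F ζ = 0)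
    (h1 : ∀ ζ, ζ ≠ 0 → ContinuousAt F ζ) : Continuous F := by
  rw [continuous_iff_continuousAt]
  intro ζ
  by_cases hζ : ζ = 0
  · subst hζ
    exact (continuousAt_const (y := (0 : ℂ))).congr (h0.mono fun _ h => h.symm)
  · exact h1 ζ hζ

theorem bd_near_zero (a b : ℤ) : ∀ᶠ ζ in 𝓝 (0 : ℂ), bd a b ζ = 0 := by
  have hm : 0 < min ((2 : ℝ) ^ a) ((2 : ℝ) ^ b) := lt_min (two_zpow_pos a) (two_zpow_pos b)
  filter_upwards [Metric.ball_mem_nhds (0 : ℂ) hm] with ζ hζ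
  rw [mem_ball_zero_iff, lt_min_iff] at hζ
  unfold bd
  rw [lo_one hζ.1.le, lo_one hζ.2.le, sub_self]

end FacAux

open FacAux

theorem fac : StmtFac := by
  refine ⟨lo_mem, fun a ζ h => lo_one h, fun a ζ h => lo_zero h, lo_contDiff, ?_, ?_, ?_⟩
  · intro g a b hg
    exact ⟨cut_cc (lo_cont a) hg, cut_cc (bd_cont a b) hg, cut_cc (sh_cont a) hg⟩
  · intro g n _ hg h0
    have hz : Z0 (mg n g) := by
      unfold Z0
      filter_upwards [h0] with ζ hζ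
      unfold mg
      rw [hζ, mul_zero]
    exact ⟨⟨cont_of_zero hz fun ζ hζ => mg_contAt n hg.1 hζ, hg.2.mul_left⟩, hz⟩
  · intro g n a b hg
    have h0 : ∀ᶠ ζ in 𝓝 (0 : ℂ), cut (bd a b) (mg n g) ζ = 0 := by
      filter_upwards [bd_near_zero a b] with ζ hζ
      unfold cut
      rw [hζ, Complex.ofReal_zero, zero_mul]
    refine ⟨cont_of_zero h0 fun ζ hζ => ?_, ?_⟩
    · exact ((Complex.continuous_ofReal.comp (bd_cont a b)).continuousAt).mul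
        (mg_contAt n hg.1 hζ)
    · have h1 : HasCompactSupport (mg n g) := hg.2.mul_left
      exact h1.mul_left

end Pool.Agent.Lib.MP_dd244f_an.Four
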