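import Pool.Agent.Lib.MP_dd244f_an.Four.Base
import Pool.Agent.Lib.MP_dd244f_an.Four.Fac

/-!
Full operator, `p = 4`: module Ker (the kernels of the low pass filters).
-/

set_option autoImplicit false

namespace Pool.Agent.Lib.MP_dd244f_an.Four

open MeasureTheory Filter Topology FourierTransform
open scoped SchwartzMap ContDiff
open FacAux

theorem ker_schwartz {φ : ℂ → ℂ} (h1 : ContDiff ℝ ∞ φ) (h2 : HasCompactSupport φ) :
    ∃ K : 𝓢(ℂ, ℂ), ∀ x, K x = iF φ x := by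
  refine ⟨𝓕⁻ (h2.toSchwartzMap h1), fun x => ?_⟩
  rw [iF_eq_inv]
  have := congrFun (SchwartzMap.fourierInv_coe (h2.toSchwartzMap h1)) x
  rw [this]
  rfl

theorem ker_decay {φ : ℂ → ℂ} (h1 : ContDiff ℝ ∞ φ) (h2 : HasCompactSupport φ) :
    ∃ C : ℝ, 0 < C ∧ ∀ x, ‖iF φ x‖ ≤ C / (1 + ‖x‖ ^ 2) ^ 4 := by
  obtain ⟨K, hK⟩ := ker_schwartz h1 h2
  set S : ℝ := 2 ^ 8 * (Finset.Iic ((8, 0) : ℕ × ℕ)).sup
    (fun m => SchwartzMap.seminorm ℝ m.1 m.2) K with hS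
  refine ⟨|S| + 1, by positivity, fun x => ?_⟩
  have h3 := SchwartzMap.one_add_le_sup_seminorm_apply (𝕜 := ℝ) (m := (8, 0)) (k := 8) (n := 0)
    le_rfl le_rfl K x
  rw [norm_iteratedFDeriv_zero, hK] at h3
  rw [le_div_iff₀ (by positivity)]
  have h4 : (1 + ‖x‖ ^ 2) ^ 4 ≤ (1 + ‖x‖) ^ 8 := by
    have h5 : 1 + ‖x‖ ^ 2 ≤ (1 + ‖x‖) ^ 2 := by nlinarith [norm_nonneg x]
    calc (1 + ‖x‖ ^ 2) ^ 4 ≤ ((1 + ‖x‖) ^ 2) ^ 4 := pow_le_pow_left₀ (by positivity) h5 4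
      _ = _ := by rw [← pow_mul]
  calc ‖iF φ x‖ * (1 + ‖x‖ ^ 2) ^ 4 ≤ ‖iF φ x‖ * (1 + ‖x‖) ^ 8 :=
        mul_le_mul_of_nonneg_left h4 (norm_nonneg _)
    _ = (1 + ‖x‖) ^ 8 * ‖iF φ x‖ := mul_comm _ _
    _ ≤ S := h3
    _ ≤ |S| + 1 := (le_abs_self _).trans (by linarith)

/-- scaling -/
theorem ker_scale (φ : ℂ → ℂ) {R : ℝ} (hR : 0 < R) (z : ℂ) :
    iF (fun ζ => φ (R⁻¹ • ζ)) z = (((R ^ 2 : ℝ)) : ℂ) * iF φ ((R : ℂ) * z) := by
  unfold iF
  have h1 := Measure.integral_comp_smul (volume : Measure ℂ)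
    (fun ζ => ch ((R : ℂ) * z) ζ * φ ζ) R⁻¹
  have h2 : (fun x : ℂ => ch ((R : ℂ) * z) (R⁻¹ • x) * φ (R⁻¹ • x)) =
      fun x => ch z x * φ (R⁻¹ • x) := by
    ext x
    congr 1
    unfold ch
    congr 3
    have e1 : ((R : ℂ) * z).re = R * z.re := by simp
    have e2 : ((R : ℂ) * z).im = R * z.im := by simp
    have e3 : (R⁻¹ • x).re = R⁻¹ * x.re := by simp
    have e4 : (R⁻¹ • x).im = R⁻¹ * x.im := by simp
    rw [e1, e2, e3, e4]
    field_simp
  rw [h2] at h1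
  rw [h1, Complex.finrank_real_complex]
  have h3 : |((R⁻¹ : ℝ) ^ 2)⁻¹| = R ^ 2 := by
    rw [inv_pow, inv_inv, abs_of_pos (by positivity)]
  rw [h3, Complex.real_smul]

/-- multiplier as convolution -/
theorem ker_conv {φ : ℂ → ℂ} (h1 : ContDiff ℝ ∞ φ) (h2 : HasCompactSupport φ) {g : ℂ → ℂ}
    (hg : CC g) (x : ℂ) :
    iF (fun ζ => φ ζ * g ζ) x = ∫ y, iF φ (x - y) * iF g y := by
  obtain ⟨K, hK⟩ := ker_schwartz h1 h2
  have hφi : Integrable φ := h1.continuous.integrable_of_hasCompactSupport h2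
  have hKi : Integrable (iF φ) := by
    have h3 : Integrable (fun x => K x) := K.integrable
    exact h3.congr (Eventually.of_forall hK)
  have hinv : ∀ ζ, ∫ z, ch (-z) ζ * iF φ z = φ ζ := by
    intro ζ
    have h3 : 𝓕 (𝓕⁻ φ) = φ := by
      refine h1.continuous.fourier_fourierInv_eq hφi ?_
      have h4 : (fun x => iF φ (-x)) = 𝓕 φ := by
        ext x
        rw [iF_eq, neg_neg]
      rw [← h4]
      exact hKi.comp_neg
    have h5 : iF (iF φ) (-ζ) = φ ζ := by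
      have h6 : iF φ = 𝓕⁻ φ := by
        ext z
        exact iF_eq_inv φ z
      rw [iF_eq, neg_neg]
      conv_lhs => rw [h6]
      rw [h3]
    rw [← h5]
    unfold iF
    congr 1
    ext z
    congr 1
    rw [ch_neg_left, ch_comm]
  have hprod : Integrable (fun p : ℂ × ℂ => iF φ (x - p.1) * (ch p.1 p.2 * g p.2))
      ((volume : Measure ℂ).prod volume) := by
    have h3 : Integrable (fun p : ℂ × ℂ => iF φ (x - p.1) * g p.2)
        ((volume : Measure ℂ).prod volume) := by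
      exact Integrable.mul_prod (f := fun y => iF φ (x - y)) (g := g) (hKi.comp_sub_left x)
        hg.integrable
    have h4 : Integrable (fun p : ℂ × ℂ => ch p.1 p.2 * (iF φ (x - p.1) * g p.2))
        ((volume : Measure ℂ).prod volume) := by
      refine h3.bdd_mul (c := 1) continuous_ch2.aestronglyMeasurable ?_
      exact Eventually.of_forall fun p => (norm_ch _ _).le
    refine h4.congr (Eventually.of_forall fun p => ?_)
    simp only
    ring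
  calc iF (fun ζ => φ ζ * g ζ) x = ∫ ζ, ch x ζ * (φ ζ * g ζ) := rfl
    _ = ∫ ζ, ∫ y, iF φ (x - y) * (ch y ζ * g ζ) := by
        congr 1
        ext ζ
        rw [← hinv ζ]
        have h3 : ∫ y, iF φ (x - y) * (ch y ζ * g ζ) =
            ∫ z, iF φ z * (ch (x - z) ζ * g ζ) := by
          have := integral_sub_left_eq_self (μ := (volume : Measure ℂ))
            (fun z => iF φ z * (ch (x - z) ζ * g ζ)) x
          simpa using this
        rw [h3, ← integral_mul_const, ← integral_const_mul]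
        congr 1
        ext z
        have : ch (x - z) ζ = ch x ζ * ch (-z) ζ := by
          rw [sub_eq_add_neg, ch_add]
        rw [this]
        ring
    _ = ∫ y, ∫ ζ, iF φ (x - y) * (ch y ζ * g ζ) := (integral_integral_swap hprod).symm
    _ = ∫ y, iF φ (x - y) * iF g y := by
        congr 1
        ext y
        rw [integral_const_mul]
        rfl

theorem ker_filter {φ : ℂ → ℂ} (h1 : ContDiff ℝ ∞ φ) (h2 : HasCompactSupport φ) {R : ℝ}
    (hR : 0 < R) {g : ℂ → ℂ} (hg : CC g) (x : ℂ) :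
    iF (fun ζ => φ (R⁻¹ • ζ) * g ζ) x =
      ∫ y, ((R ^ 2 : ℝ) : ℂ) * iF φ ((R : ℂ) * (x - y)) * iF g y := by
  have h3 : ContDiff ℝ ∞ (fun ζ : ℂ => φ (R⁻¹ • ζ)) := h1.comp (contDiff_const_smul _)
  have h4 : HasCompactSupport (fun ζ : ℂ => φ (R⁻¹ • ζ)) := h2.comp_smul (inv_ne_zero hR.ne')
  rw [ker_conv h3 h4 hg]
  congr 1
  ext y
  rw [ker_scale φ hR]

theorem lo_scale (a : ℤ) (ζ : ℂ) : lo a ζ = lo 0 (((2 : ℝ) ^ a)⁻¹ • ζ) := by
  unfold lo Pool.Agent.Lib.MP_dd244f_an.Joint.ct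
  have h : (0 : ℝ) < (2 : ℝ) ^ a := two_zpow_pos a
  congr 2
  rw [zpow_zero, one_pow, div_one, Complex.real_smul, Complex.normSq_mul, Complex.normSq_ofReal]
  field_simp

theorem sh_scale (a : ℤ) (ζ : ℂ) : sh a ζ = sh 0 (((2 : ℝ) ^ a)⁻¹ • ζ) := by
  unfold sh bd
  rw [lo_scale a ζ, lo_scale (a + 1) ζ, lo_scale (0 + 1) (((2 : ℝ) ^ a)⁻¹ • ζ), smul_smul]
  congr 3
  rw [← mul_inv, zpow_add₀ (by norm_num), zero_add]
  ring

theorem lo_smooth (a : ℤ) : ContDiff ℝ ∞ (fun ζ => ((lo a ζ : ℝ) : ℂ)) :=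
  Complex.ofRealCLM.contDiff.comp (lo_contDiff a ⊤)

theorem lo_supp (a : ℤ) : HasCompactSupport (fun ζ => ((lo a ζ : ℝ) : ℂ)) := by
  refine HasCompactSupport.intro (isCompact_closedBall (0 : ℂ) (2 * (2 : ℝ) ^ a)) fun ζ hζ => ?_
  have h : (0 : ℝ) < (2 : ℝ) ^ a := two_zpow_pos a
  rw [Metric.mem_closedBall, dist_zero_right, not_le] at hζ
  rw [lo_zero, Complex.ofReal_zero]
  nlinarith [norm_nonneg ζ]

theorem ker : StmtKer := by
  have h1 := lo_smooth 0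
  have h2 := lo_supp 0
  have h3 : ContDiff ℝ ∞ (fun ζ => ((sh 0 ζ : ℝ) : ℂ)) := by
    have : (fun ζ => ((sh 0 ζ : ℝ) : ℂ)) = fun ζ => ((lo (0 + 1) ζ : ℝ) : ℂ) - ((lo 0 ζ : ℝ) : ℂ) := by
      ext ζ
      unfold sh bd
      push_cast
      rfl
    rw [this]
    exact (lo_smooth (0 + 1)).sub (lo_smooth 0)
  have h4 : HasCompactSupport (fun ζ => ((sh 0 ζ : ℝ) : ℂ)) := by
    have : (fun ζ => ((sh 0 ζ : ℝ) : ℂ)) = fun ζ => ((lo (0 + 1) ζ : ℝ) : ℂ) - ((lo 0 ζ : ℝ) : ℂ) := by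
      ext ζ
      unfold sh bd
      push_cast
      rfl
    rw [this]
    exact (lo_supp (0 + 1)).sub (lo_supp 0)
  obtain ⟨C1, hC1, hd1⟩ := ker_decay h1 h2
  obtain ⟨C2, hC2, hd2⟩ := ker_decay h3 h4
  refine ⟨max C1 C2, iF (fun ζ => ((lo 0 ζ : ℝ) : ℂ)), iF (fun ζ => ((sh 0 ζ : ℝ) : ℂ)),
    lt_max_of_lt_left hC1, ?_, ?_, ?_, ?_, ?_⟩
  · exact iF_continuous (h1.continuous.integrable_of_hasCompactSupport h2)
  · exact iF_continuous (h3.continuous.integrable_of_hasCompactSupport h4)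
  · intro x
    exact (hd1 x).trans (div_le_div_of_nonneg_right (le_max_left _ _) (by positivity))
  · intro x
    exact (hd2 x).trans (div_le_div_of_nonneg_right (le_max_right _ _) (by positivity))
  · intro a g hg x
    have h : (0 : ℝ) < (2 : ℝ) ^ a := two_zpow_pos a
    have e4 : ((2 : ℝ) ^ a) ^ 2 = (4 : ℝ) ^ a := by
      rw [← zpow_natCast, ← zpow_mul, mul_comm, zpow_mul]
      norm_num
    constructor
    · have h5 := ker_filter h1 h2 h hg x
      rw [e4] at h5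
      have h6 : (fun ζ => ((lo 0 (((2 : ℝ) ^ a)⁻¹ • ζ) : ℝ) : ℂ) * g ζ) = cut (lo a) g := by
        ext ζ
        unfold cut
        rw [lo_scale a ζ]
      rw [h6] at h5
      exact h5
    · have h5 := ker_filter h3 h4 h hg x
      rw [e4] at h5
      have h6 : (fun ζ => ((sh 0 (((2 : ℝ) ^ a)⁻¹ • ζ) : ℝ) : ℂ) * g ζ) = cut (sh a) g := by
        ext ζ
        unfold cut
        rw [sh_scale a ζ]
      rw [h6] at h5
      exact h5

end Pool.Agent.Lib.MP_dd244f_an.Four
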