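import Pool.Agent.Lib.MP_dd244f_an.Four.Stmts

/-!
(EI) the exact multiscale energy inequality.
-/

set_option autoImplicit false

namespace Pool.Agent.Lib.MP_dd244f_an.Four

open MeasureTheory Filter Topology Finset

namespace EI

/-- Gaussian times a function -/
noncomputable def ga (σ : ℝ) (g : ℂ → ℂ) (ζ : ℂ) : ℂ :=
  (Real.exp (-(Real.pi * σ ^ 2 * ‖ζ‖ ^ 2)) : ℂ) * g ζ

theorem cc_ga (σ : ℝ) {g : ℂ → ℂ} (hg : CC g) : CC (ga σ g) := by
  refine ⟨?_, hg.2.mul_left⟩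
  unfold ga
  have := hg.1
  fun_prop

theorem as_eq (σ : ℝ) (g h : ℂ → ℂ) (θ : ℂ) :
    As σ g h θ = (Real.exp (Real.pi * σ ^ 2 * ‖θ‖ ^ 2 / 2) : ℂ) *
      bil (fun _ => 1) (ga σ g) (ga σ h) θ := by
  unfold As bil
  rw [← integral_const_mul]
  congr 1
  funext δ
  have h1 := parallelogram_law_with_norm ℝ (θ / 2) δ
  have h2 : ‖θ / 2‖ = ‖θ‖ / 2 := by
    rw [norm_div]; simp
  have h3 : Real.exp (-(2 * Real.pi * σ ^ 2 * ‖δ‖ ^ 2)) =
      Real.exp (Real.pi * σ ^ 2 * ‖θ‖ ^ 2 / 2) *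
        (Real.exp (-(Real.pi * σ ^ 2 * ‖θ / 2 + δ‖ ^ 2)) *
          Real.exp (-(Real.pi * σ ^ 2 * ‖θ / 2 - δ‖ ^ 2))) := by
    rw [← Real.exp_add, ← Real.exp_add]
    congr 1
    rw [h2] at h1
    linear_combination (Real.pi * σ ^ 2) * h1
  simp only [ga, one_mul]
  rw [h3]
  push_cast
  ring

theorem cc_as (hB : StmtBase) (σ : ℝ) {g h : ℂ → ℂ} (hg : CC g) (hh : CC h) : CC (As σ g h) := by
  have h1 := (hB.2.1 _ _ (cc_ga σ hg) (cc_ga σ hh)).1
  have h2 : As σ g h = fun θ => (Real.exp (Real.pi * σ ^ 2 * ‖θ‖ ^ 2 / 2) : ℂ) *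
      bil (fun _ => 1) (ga σ g) (ga σ h) θ := funext (as_eq σ g h)
  rw [h2]
  refine ⟨?_, h1.2.mul_left⟩
  have := h1.1
  fun_prop

/-- integrability of a bounded continuous weight times the square -/
theorem int_w (hB : StmtBase) (σ : ℝ) {g : ℂ → ℂ} (hg : CC g) {w : ℂ → ℝ} (hw : Continuous w) :
    Integrable (fun θ => w θ * ‖As σ g g θ‖ ^ 2) := by
  obtain ⟨h1, h2⟩ := cc_as hB σ hg hg
  apply Continuous.integrable_of_hasCompactSupport
  · fun_prop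
  · apply HasCompactSupport.mul_left
    have h3 : HasCompactSupport (fun θ => ‖As σ g g θ‖) := h2.norm
    have : (fun θ => ‖As σ g g θ‖ ^ 2) = (fun x : ℝ => x ^ 2) ∘ (fun θ => ‖As σ g g θ‖) := rfl
    rw [this]
    exact h3.comp_left (by simp)

/-- Gaussian integral over the plane -/
theorem gauss (b : ℝ) (hb : 0 < b) (c : ℂ) :
    Integrable (fun z : ℂ => Real.exp (-(b * ‖z - c‖ ^ 2))) ∧
    ∫ z : ℂ, Real.exp (-(b * ‖z - c‖ ^ 2)) = Real.pi / b := by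
  have h1 := GaussianFourier.integral_rexp_neg_mul_sq_norm (V := ℂ) hb
  have h2 : Integrable (fun z : ℂ => Real.exp (-b * ‖z‖ ^ 2)) := by
    by_contra hcon
    rw [integral_undef hcon] at h1
    have : (Real.pi / b) ^ (Module.finrank ℝ ℂ / 2 : ℝ) > 0 :=
      Real.rpow_pos_of_pos (div_pos Real.pi_pos hb) _
    linarith
  constructor
  · have h3 := h2.comp_sub_right c
    simpa [neg_mul] using h3
  · have h4 : ∫ z : ℂ, Real.exp (-(b * ‖z - c‖ ^ 2)) = ∫ z : ℂ, Real.exp (-b * ‖z‖ ^ 2) := by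
      rw [← integral_sub_right_eq_self (fun z : ℂ => Real.exp (-b * ‖z‖ ^ 2)) c]
      congr 1
      funext z
      simp [neg_mul]
    rw [h4, h1]
    simp

/-- convolution of two Gaussians -/
theorem conv (K σ : ℝ) (hK : 0 < K) (hσ : 0 < σ) (hKσ : 1 < K * σ) : ∃ A B : ℝ, 0 < A ∧ 0 < B ∧
    ∀ θ : ℂ, Integrable (fun ξ : ℂ => A * Real.exp (-(B * ‖ξ‖ ^ 2)) *
      Real.exp (-(Real.pi * σ ^ 2 * ‖θ - ξ‖ ^ 2))) ∧
    ∫ ξ : ℂ, A * Real.exp (-(B * ‖ξ‖ ^ 2)) * Real.exp (-(Real.pi * σ ^ 2 * ‖θ - ξ‖ ^ 2))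
      = Real.exp (-(Real.pi * ‖θ‖ ^ 2 / K ^ 2)) := by
  have hp := Real.pi_pos
  have h0 : 0 < K ^ 2 * σ ^ 2 - 1 := by nlinarith [mul_pos hK hσ]
  have h0' : K ^ 2 * σ ^ 2 - 1 ≠ 0 := h0.ne'
  set b : ℝ := σ ^ 2 / (K ^ 2 * σ ^ 2 - 1) with hb
  have hbp : 0 < b := div_pos (by positivity) h0
  have hs : b + σ ^ 2 = K ^ 2 * σ ^ 4 / (K ^ 2 * σ ^ 2 - 1) := by
    rw [hb, eq_div_iff h0', add_mul, div_mul_cancel₀ _ h0']; ring
  have hbs : b * σ ^ 2 / (b + σ ^ 2) = 1 / K ^ 2 := by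
    rw [hs, hb, div_mul_eq_mul_div, div_div_div_cancel_right₀ h0', div_eq_div_iff (by positivity)
      (by positivity)]
    ring
  refine ⟨b + σ ^ 2, Real.pi * b, by positivity, by positivity, fun θ => ?_⟩
  have key : ∀ ξ : ℂ, (b + σ ^ 2) * Real.exp (-(Real.pi * b * ‖ξ‖ ^ 2)) *
      Real.exp (-(Real.pi * σ ^ 2 * ‖θ - ξ‖ ^ 2)) =
      ((b + σ ^ 2) * Real.exp (-(Real.pi * ‖θ‖ ^ 2 / K ^ 2))) *
        Real.exp (-((Real.pi * (b + σ ^ 2)) *
          ‖ξ - ((σ ^ 2 / (b + σ ^ 2) : ℝ) : ℂ) * θ‖ ^ 2)) := by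
    intro ξ
    rw [mul_assoc (b + σ ^ 2), mul_assoc (b + σ ^ 2), ← Real.exp_add, ← Real.exp_add]
    congr 2
    have e1 : ‖ξ‖ ^ 2 = ξ.re ^ 2 + ξ.im ^ 2 := by
      rw [← Complex.normSq_eq_norm_sq, Complex.normSq_apply]; ring
    have e2 : ‖θ‖ ^ 2 = θ.re ^ 2 + θ.im ^ 2 := by
      rw [← Complex.normSq_eq_norm_sq, Complex.normSq_apply]; ring
    have e3 : ‖θ - ξ‖ ^ 2 = (θ.re - ξ.re) ^ 2 + (θ.im - ξ.im) ^ 2 := by
      rw [← Complex.normSq_eq_norm_sq, Complex.normSq_apply]; simp; ring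
    have e4 : ‖ξ - ((σ ^ 2 / (b + σ ^ 2) : ℝ) : ℂ) * θ‖ ^ 2 =
        (ξ.re - σ ^ 2 / (b + σ ^ 2) * θ.re) ^ 2 + (ξ.im - σ ^ 2 / (b + σ ^ 2) * θ.im) ^ 2 := by
      rw [← Complex.normSq_eq_norm_sq, Complex.normSq_apply]
      simp only [Complex.sub_re, Complex.sub_im, Complex.re_ofReal_mul, Complex.im_ofReal_mul]
      ring
    rw [e1, e2, e3, e4]
    have e5 : Real.pi * (θ.re ^ 2 + θ.im ^ 2) / K ^ 2 =
        Real.pi * (θ.re ^ 2 + θ.im ^ 2) * (b * σ ^ 2 / (b + σ ^ 2)) := by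
      rw [hbs]; ring
    rw [e5]
    have : b + σ ^ 2 ≠ 0 := by positivity
    field_simp
    ring
  have hg := gauss (Real.pi * (b + σ ^ 2)) (by positivity) (((σ ^ 2 / (b + σ ^ 2) : ℝ) : ℂ) * θ)
  constructor
  · simp_rw [key]
    exact hg.1.const_mul _
  · simp_rw [key]
    rw [integral_const_mul, hg.2]
    have : b + σ ^ 2 ≠ 0 := by positivity
    field_simp

theorem swap {A B s : ℝ} (hB : 0 < B) (hs : 0 ≤ s) {X : ℂ → ℝ} (hX : Continuous X)
    (hXi : Integrable X) :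
    Integrable (fun ξ : ℂ => A * Real.exp (-(B * ‖ξ‖ ^ 2)) *
      ∫ θ, Real.exp (-(s * ‖θ - ξ‖ ^ 2)) * X θ) ∧
    ∫ θ : ℂ, (∫ ξ : ℂ, A * Real.exp (-(B * ‖ξ‖ ^ 2)) * Real.exp (-(s * ‖θ - ξ‖ ^ 2))) * X θ
      = ∫ ξ : ℂ, A * Real.exp (-(B * ‖ξ‖ ^ 2)) *
        ∫ θ, Real.exp (-(s * ‖θ - ξ‖ ^ 2)) * X θ := by
  have hF : Integrable (Function.uncurry (fun θ ξ : ℂ =>
      A * Real.exp (-(B * ‖ξ‖ ^ 2)) * Real.exp (-(s * ‖θ - ξ‖ ^ 2)) * X θ))
      ((volume : Measure ℂ).prod volume) := by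
    have h1 : Integrable (fun z : ℂ × ℂ => X z.1 * (A * Real.exp (-(B * ‖z.2‖ ^ 2))))
        ((volume : Measure ℂ).prod volume) := by
      have h2 := (gauss B hB 0).1
      simp only [sub_zero] at h2
      exact hXi.mul_prod (h2.const_mul A)
    refine h1.norm.mono' ?_ (Filter.Eventually.of_forall ?_)
    · apply Continuous.aestronglyMeasurable
      unfold Function.uncurry
      fun_prop
    · rintro ⟨θ, ξ⟩
      simp only [Function.uncurry]
      rw [norm_mul, norm_mul, norm_mul (X θ)]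
      have h3 : ‖Real.exp (-(s * ‖θ - ξ‖ ^ 2))‖ ≤ 1 := by
        rw [Real.norm_eq_abs, abs_of_pos (Real.exp_pos _)]
        apply Real.exp_le_one_iff.2
        have : 0 ≤ s * ‖θ - ξ‖ ^ 2 := by positivity
        linarith
      calc ‖A * Real.exp (-(B * ‖ξ‖ ^ 2))‖ * ‖Real.exp (-(s * ‖θ - ξ‖ ^ 2))‖ * ‖X θ‖
          ≤ ‖A * Real.exp (-(B * ‖ξ‖ ^ 2))‖ * 1 * ‖X θ‖ := by gcongr
        _ = _ := by ring
  constructor
  · have h1 := hF.integral_prod_right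
    refine h1.congr (Filter.Eventually.of_forall fun ξ => ?_)
    simp only [Function.uncurry]
    rw [← integral_const_mul]
    congr 1
    funext θ
    ring
  · have h1 := integral_integral_swap hF
    calc _ = ∫ θ : ℂ, ∫ ξ : ℂ, A * Real.exp (-(B * ‖ξ‖ ^ 2)) *
          Real.exp (-(s * ‖θ - ξ‖ ^ 2)) * X θ := by
          congr 1
          funext θ
          rw [integral_mul_const]
      _ = _ := h1
      _ = _ := by
          congr 1
          funext ξ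
          rw [← integral_const_mul]
          congr 1
          funext θ
          ring

theorem chirp0 (hC : StmtChirp) {σ r : ℝ} (hσ : 0 < σ) (hr : σ < r) (ξ : ℂ) {g : ℂ → ℂ}
    (hg : CC g) :
    ∫ θ, Real.exp (-(Real.pi * σ ^ 2 * ‖θ - ξ‖ ^ 2)) * ‖As r g g θ‖ ^ 2
      ≤ ∫ θ, Real.exp (-(Real.pi * σ ^ 2 * ‖θ - ξ‖ ^ 2)) * ‖As σ g g θ‖ ^ 2 := by
  have h1 := hC σ r 0 1 ξ g hσ hr (by simp) hg
  have h2 : (fun δ : ℂ => Complex.exp ((-(2 * Real.pi * r ^ 2 * ‖δ‖ ^ 2) : ℝ)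
        + Complex.I * (0 * (δ ^ 2 * 1 ^ 2).im : ℝ))) =
      fun δ => (Real.exp (-(2 * Real.pi * r ^ 2 * ‖δ‖ ^ 2)) : ℂ) := by
    funext δ
    rw [zero_mul, Complex.ofReal_zero, mul_zero, add_zero, Complex.ofReal_exp]
  rw [h2] at h1
  simpa [As] using h1

theorem mono (hC : StmtChirp) (hB : StmtBase) {K σ r : ℝ} (hK : 0 < K) (hσ : 0 < σ) (hr : σ ≤ r)
    (hKσ : 1 < K * σ) {g : ℂ → ℂ} (hg : CC g) :
    ∫ θ, Real.exp (-(Real.pi * ‖θ‖ ^ 2 / K ^ 2)) * ‖As r g g θ‖ ^ 2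
      ≤ ∫ θ, Real.exp (-(Real.pi * ‖θ‖ ^ 2 / K ^ 2)) * ‖As σ g g θ‖ ^ 2 := by
  rcases hr.eq_or_lt with rfl | hr
  · exact le_rfl
  obtain ⟨A, B, hA, hB', hAB⟩ := conv K σ hK hσ hKσ
  have key : ∀ τ : ℝ, Integrable (fun ξ : ℂ => A * Real.exp (-(B * ‖ξ‖ ^ 2)) *
      ∫ θ, Real.exp (-(Real.pi * σ ^ 2 * ‖θ - ξ‖ ^ 2)) * ‖As τ g g θ‖ ^ 2) ∧
      ∫ θ, Real.exp (-(Real.pi * ‖θ‖ ^ 2 / K ^ 2)) * ‖As τ g g θ‖ ^ 2 =
      ∫ ξ : ℂ, A * Real.exp (-(B * ‖ξ‖ ^ 2)) *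
      ∫ θ, Real.exp (-(Real.pi * σ ^ 2 * ‖θ - ξ‖ ^ 2)) * ‖As τ g g θ‖ ^ 2 := by
    intro τ
    have h0 : Continuous (fun θ => ‖As τ g g θ‖ ^ 2) := by
      have := (cc_as hB τ hg hg).1
      fun_prop
    have h1 : Integrable (fun θ => ‖As τ g g θ‖ ^ 2) := by
      simpa using int_w hB τ hg (w := fun _ => 1) continuous_const
    have h2 := swap (A := A) hB' (show 0 ≤ Real.pi * σ ^ 2 by positivity) h0 h1
    refine ⟨h2.1, ?_⟩
    rw [← h2.2]
    congr 1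
    funext θ
    rw [(hAB θ).2]
  rw [(key r).2, (key σ).2]
  apply integral_mono (key r).1 (key σ).1
  intro ξ
  have := chirp0 hC hσ hr ξ hg
  dsimp only
  have h3 : 0 ≤ A * Real.exp (-(B * ‖ξ‖ ^ 2)) := by positivity
  exact mul_le_mul_of_nonneg_left this h3

theorem int2 {g : ℂ → ℂ} (hg : CC g) (θ : ℂ) :
    Integrable (fun δ => ‖g (θ / 2 + δ)‖ * ‖g (θ / 2 - δ)‖) := by
  have h1 := hg.1
  apply Continuous.integrable_of_hasCompactSupport
  · fun_prop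
  · apply HasCompactSupport.mul_right
    exact (hg.2.comp_homeomorph (Homeomorph.addLeft (θ / 2))).norm

theorem as_le {g : ℂ → ℂ} (hg : CC g) (σ : ℝ) (θ : ℂ) :
    ‖As σ g g θ‖ ≤ ‖bil (fun _ => 1) (fun ζ => (‖g ζ‖ : ℂ)) (fun ζ => (‖g ζ‖ : ℂ)) θ‖ := by
  have h1 : bil (fun _ => 1) (fun ζ => (‖g ζ‖ : ℂ)) (fun ζ => (‖g ζ‖ : ℂ)) θ =
      ((∫ δ, ‖g (θ / 2 + δ)‖ * ‖g (θ / 2 - δ)‖ : ℝ) : ℂ) := by
    unfold bil
    rw [← integral_complex_ofReal]
    congr 1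
    funext δ
    push_cast
    ring
  rw [h1, Complex.norm_real, Real.norm_eq_abs]
  refine le_trans ?_ (le_abs_self _)
  unfold As bil
  apply norm_integral_le_of_norm_le (int2 hg θ)
  refine Filter.Eventually.of_forall fun δ => ?_
  rw [norm_mul, norm_mul, Complex.norm_real, Real.norm_eq_abs, abs_of_pos (Real.exp_pos _)]
  have h3 : Real.exp (-(2 * Real.pi * σ ^ 2 * ‖δ‖ ^ 2)) ≤ 1 := by
    apply Real.exp_le_one_iff.2
    have : 0 ≤ 2 * Real.pi * σ ^ 2 * ‖δ‖ ^ 2 := by positivity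
    linarith
  calc _ ≤ 1 * (‖g (θ / 2 + δ)‖ * ‖g (θ / 2 - δ)‖) := by gcongr
    _ = _ := one_mul _

theorem top (hC : StmtChirp) (hB : StmtBase) {r : ℝ} (hr : 0 < r) {g : ℂ → ℂ} (hg : CC g) :
    ∫ θ, ‖As r g g θ‖ ^ 2 ≤ N4 g := by
  have hN : N4 g = ∫ θ, ‖bil (fun _ => 1) g g θ‖ ^ 2 := by
    rw [← (hB.2.1 g g hg hg).2.2]
    unfold N4 N22
    congr 1
    funext x
    ring
  rw [hN]
  set s : ℕ → ℝ := fun k => r / ((k : ℝ) + 2) with hs
  have hs0 : ∀ k, 0 < s k := fun k => by simp only [hs]; positivity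
  have hs1 : ∀ k, s k < r := fun k => by
    simp only [hs]
    rw [div_lt_iff₀ (by positivity)]
    nlinarith [(Nat.cast_nonneg k : (0 : ℝ) ≤ k)]
  have hst : Tendsto s atTop (𝓝 0) := by
    have h1 : Tendsto (fun k : ℕ => ((k : ℝ) + 2)) atTop atTop :=
      tendsto_atTop_add_const_right _ _ tendsto_natCast_atTop_atTop
    exact h1.const_div_atTop r
  have hgA : CC (fun ζ => (‖g ζ‖ : ℂ)) := by
    refine ⟨by have := hg.1; fun_prop, ?_⟩
    have h1 : HasCompactSupport (fun ζ => ‖g ζ‖) := hg.2.norm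
    have : (fun ζ => (‖g ζ‖ : ℂ)) = (fun x : ℝ => (x : ℂ)) ∘ (fun ζ => ‖g ζ‖) := rfl
    rw [this]
    exact h1.comp_left (by simp)
  have hexp : ∀ θ : ℂ, Tendsto (fun k => Real.exp (-(Real.pi * s k ^ 2 * ‖θ‖ ^ 2))) atTop
      (𝓝 1) := by
    intro θ
    have h1 : Tendsto (fun k => -(Real.pi * s k ^ 2 * ‖θ‖ ^ 2)) atTop
        (𝓝 (-(Real.pi * 0 ^ 2 * ‖θ‖ ^ 2))) :=
      ((hst.pow 2).const_mul _ |>.mul_const _).neg
    have h2 := (Real.continuous_exp.tendsto _).comp h1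
    simpa [Function.comp_def] using h2
  have hexp1 : ∀ (k : ℕ) (θ : ℂ), Real.exp (-(Real.pi * s k ^ 2 * ‖θ‖ ^ 2)) ≤ 1 := by
    intro k θ
    apply Real.exp_le_one_iff.2
    have : 0 ≤ Real.pi * s k ^ 2 * ‖θ‖ ^ 2 := by positivity
    linarith
  have hcr := (cc_as hB r hg hg).1
  have hir : Integrable (fun θ => ‖As r g g θ‖ ^ 2) := by
    simpa using int_w hB r hg (w := fun _ => 1) continuous_const
  have hL : Tendsto (fun k => ∫ θ, Real.exp (-(Real.pi * s k ^ 2 * ‖θ‖ ^ 2)) *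
      ‖As r g g θ‖ ^ 2) atTop (𝓝 (∫ θ, ‖As r g g θ‖ ^ 2)) := by
    apply tendsto_integral_of_dominated_convergence (fun θ => ‖As r g g θ‖ ^ 2)
    · intro k
      apply Continuous.aestronglyMeasurable
      fun_prop
    · exact hir
    · intro k
      refine Filter.Eventually.of_forall fun θ => ?_
      rw [norm_mul, norm_pow, norm_norm, Real.norm_eq_abs, abs_of_pos (Real.exp_pos _)]
      calc _ ≤ 1 * ‖As r g g θ‖ ^ 2 := by gcongr; exact hexp1 k θ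
        _ = _ := one_mul _
    · refine Filter.Eventually.of_forall fun θ => ?_
      simpa using (hexp θ).mul_const (‖As r g g θ‖ ^ 2)
  have hR : Tendsto (fun k => ∫ θ, Real.exp (-(Real.pi * s k ^ 2 * ‖θ‖ ^ 2)) *
      ‖As (s k) g g θ‖ ^ 2) atTop (𝓝 (∫ θ, ‖bil (fun _ => 1) g g θ‖ ^ 2)) := by
    have hcA := (hB.2.1 _ _ hgA hgA).1
    apply tendsto_integral_of_dominated_convergence
      (fun θ => ‖bil (fun _ => 1) (fun ζ => (‖g ζ‖ : ℂ)) (fun ζ => (‖g ζ‖ : ℂ)) θ‖ ^ 2)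
    · intro k
      apply Continuous.aestronglyMeasurable
      have := (cc_as hB (s k) hg hg).1
      fun_prop
    · have h1 := hcA.1
      apply Continuous.integrable_of_hasCompactSupport
      · fun_prop
      · have h3 : HasCompactSupport (fun θ => ‖bil (fun _ => 1) (fun ζ => (‖g ζ‖ : ℂ))
            (fun ζ => (‖g ζ‖ : ℂ)) θ‖) := hcA.2.norm
        exact h3.comp_left (g := fun x : ℝ => x ^ 2) (by simp)
    · intro k
      refine Filter.Eventually.of_forall fun θ => ?_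
      rw [norm_mul, norm_pow, norm_norm, Real.norm_eq_abs, abs_of_pos (Real.exp_pos _)]
      calc _ ≤ 1 * ‖bil (fun _ => 1) (fun ζ => (‖g ζ‖ : ℂ)) (fun ζ => (‖g ζ‖ : ℂ)) θ‖ ^ 2 := by
            gcongr
            · exact hexp1 k θ
            · exact as_le hg _ θ
        _ = _ := one_mul _
    · refine Filter.Eventually.of_forall fun θ => ?_
      have h1 : Tendsto (fun k => As (s k) g g θ) atTop (𝓝 (bil (fun _ => 1) g g θ)) := by
        unfold As bil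
        apply tendsto_integral_of_dominated_convergence
          (fun δ => ‖g (θ / 2 + δ)‖ * ‖g (θ / 2 - δ)‖)
        · intro k
          apply Continuous.aestronglyMeasurable
          have := hg.1
          fun_prop
        · exact int2 hg θ
        · intro k
          refine Filter.Eventually.of_forall fun δ => ?_
          rw [norm_mul, norm_mul, Complex.norm_real, Real.norm_eq_abs,
            abs_of_pos (Real.exp_pos _)]
          have h3 : Real.exp (-(2 * Real.pi * s k ^ 2 * ‖δ‖ ^ 2)) ≤ 1 := by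
            apply Real.exp_le_one_iff.2
            have : 0 ≤ 2 * Real.pi * s k ^ 2 * ‖δ‖ ^ 2 := by positivity
            linarith
          calc _ ≤ 1 * (‖g (θ / 2 + δ)‖ * ‖g (θ / 2 - δ)‖) := by gcongr
            _ = _ := one_mul _
        · refine Filter.Eventually.of_forall fun δ => ?_
          have h1 : Tendsto (fun k => -(2 * Real.pi * s k ^ 2 * ‖δ‖ ^ 2)) atTop
              (𝓝 (-(2 * Real.pi * 0 ^ 2 * ‖δ‖ ^ 2))) :=
            ((hst.pow 2).const_mul _ |>.mul_const _).neg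
          have h2 := (Real.continuous_exp.tendsto _).comp h1
          have h4 := ((Complex.continuous_ofReal.tendsto _).comp h2).mul_const
            (g (θ / 2 + δ) * g (θ / 2 - δ))
          simpa [Function.comp_def] using h4
      have h2 := (hexp θ).mul ((h1.norm).pow 2)
      simpa using h2
  refine le_of_tendsto_of_tendsto' hL hR fun k => ?_
  have := chirp0 hC (hs0 k) (hs1 k) 0 hg
  simpa using this

end EI

/-- (EI) -/
theorem ei (hC : StmtChirp) (_hH : StmtHold) (_hP : StmtPS) (hB : StmtBase) : StmtEI := by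
  intro J K σ g hg hK hσ hKm hσm hKσ
  set w : ℕ → ℂ → ℝ := fun j θ => Real.exp (-(Real.pi * ‖θ‖ ^ 2 / K j ^ 2)) with hw
  have hwc : ∀ j, Continuous (w j) := fun j => by simp only [hw]; fun_prop
  set a : ℕ → ℝ := fun j => ∫ θ, w j θ * ‖As (σ j) g g θ‖ ^ 2 with ha
  have h1 : ∀ j, ∫ θ, (Real.exp (-(Real.pi * ‖θ‖ ^ 2 / K (j + 1) ^ 2))
      - Real.exp (-(Real.pi * ‖θ‖ ^ 2 / K j ^ 2))) * ‖As (σ j) g g θ‖ ^ 2 ≤ a (j + 1) - a j := by
    intro j
    have h2 : ∫ θ, (Real.exp (-(Real.pi * ‖θ‖ ^ 2 / K (j + 1) ^ 2))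
      - Real.exp (-(Real.pi * ‖θ‖ ^ 2 / K j ^ 2))) * ‖As (σ j) g g θ‖ ^ 2 =
      (∫ θ, w (j + 1) θ * ‖As (σ j) g g θ‖ ^ 2) - a j := by
      simp only [ha]
      rw [← integral_sub (EI.int_w hB (σ j) hg (hwc (j + 1))) (EI.int_w hB (σ j) hg (hwc j))]
      congr 1
      funext θ
      simp only [hw]
      ring
    rw [h2]
    have h3 := EI.mono hC hB (hK (j + 1)) (hσ (j + 1)) (hσm j) (hKσ (j + 1)) hg
    simp only [ha, hw] at *
    linarith
  calc _ ≤ ∑ j ∈ Finset.range J, (a (j + 1) - a j) := Finset.sum_le_sum fun j _ => h1 j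
    _ = a J - a 0 := Finset.sum_range_sub a J
    _ ≤ a J := by
        have : 0 ≤ a 0 := integral_nonneg fun θ => by
          simp only [hw]
          positivity
        linarith
    _ ≤ ∫ θ, ‖As (σ J) g g θ‖ ^ 2 := by
        have h4 : Integrable (fun θ => ‖As (σ J) g g θ‖ ^ 2) := by
          simpa using EI.int_w hB (σ J) hg (w := fun _ => 1) continuous_const
        apply integral_mono (EI.int_w hB (σ J) hg (hwc J)) h4
        intro θ
        have h5 : w J θ ≤ 1 := by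
          simp only [hw]
          apply Real.exp_le_one_iff.2
          have : 0 ≤ Real.pi * ‖θ‖ ^ 2 / K J ^ 2 := by positivity
          linarith
        calc w J θ * ‖As (σ J) g g θ‖ ^ 2 ≤ 1 * ‖As (σ J) g g θ‖ ^ 2 :=
              mul_le_mul_of_nonneg_right h5 (by positivity)
          _ = _ := one_mul _
    _ ≤ N4 g := EI.top hC hB (hσ J) hg

end Pool.Agent.Lib.MP_dd244f_an.Four
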