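import Pool.Agent.Lib.MP_dd244f_an.Four.Stmts

/-!
Full operator, `p = 4`: the symbol at low total frequency is tiny.
-/

set_option autoImplicit false

namespace Pool.Agent.Lib.MP_dd244f_an.Four

open MeasureTheory Filter Topology Finset

/-- size of a function and of its first two derivatives at the scale `1 / r` -/
def Sz (r : ℝ) (f : ℂ → ℂ) (δ : ℂ) (A : ℝ) : Prop :=
  ‖f δ‖ ≤ A ∧ ‖fderiv ℝ f δ‖ ≤ A * r ∧ ‖lap f δ‖ ≤ A * r ^ 2

theorem Sz.nonneg {r : ℝ} {f : ℂ → ℂ} {δ : ℂ} {A : ℝ} (h : Sz r f δ A) : 0 ≤ A :=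
  (norm_nonneg _).trans h.1

theorem Sz.mono {r : ℝ} {f : ℂ → ℂ} {δ : ℂ} {A B : ℝ} (hr : 0 ≤ r) (h : Sz r f δ A) (hAB : A ≤ B) :
    Sz r f δ B :=
  ⟨h.1.trans hAB, h.2.1.trans (mul_le_mul_of_nonneg_right hAB hr),
    h.2.2.trans (mul_le_mul_of_nonneg_right hAB (sq_nonneg r))⟩

theorem Sz.mul (hL : StmtLap) {r : ℝ} (hr : 0 ≤ r) {f g : ℂ → ℂ} {δ : ℂ} {A B : ℝ}
    (hf : ContDiff ℝ 2 f) (hg : ContDiff ℝ 2 g) (h1 : Sz r f δ A) (h2 : Sz r g δ B) :
    Sz r (fun z => f z * g z) δ (6 * (A * B)) := by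
  have hA := h1.nonneg
  have hB := h2.nonneg
  have hAB : 0 ≤ A * B := mul_nonneg hA hB
  obtain ⟨-, h3, h4⟩ := hL.1 f g hf hg δ
  obtain ⟨a0, a1, a2⟩ := h1
  obtain ⟨b0, b1, b2⟩ := h2
  have hr2 : 0 ≤ r ^ 2 := sq_nonneg r
  refine ⟨?_, h3.trans ?_, h4.trans ?_⟩
  · rw [norm_mul]
    have := mul_le_mul a0 b0 (norm_nonneg _) hA
    linarith
  · have e1 := mul_le_mul a0 b1 (norm_nonneg _) hA
    have e2 := mul_le_mul b0 a1 (norm_nonneg _) hB
    have e3 : 0 ≤ A * B * r := mul_nonneg hAB hr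
    nlinarith
  · have e1 := mul_le_mul a0 b2 (norm_nonneg _) hA
    have e2 := mul_le_mul b0 a2 (norm_nonneg _) hB
    have e3 := mul_le_mul a1 b1 (norm_nonneg _) (mul_nonneg hA hr)
    have e4 : 0 ≤ A * B * r ^ 2 := mul_nonneg hAB hr2
    nlinarith

/-- the Gaussian -/
noncomputable def gau (r : ℝ) (z : ℂ) : ℂ := ((Real.exp (-(2 * Real.pi * r ^ 2 * ‖z‖ ^ 2)) : ℝ) : ℂ)

theorem gau_contDiff (r : ℝ) : ContDiff ℝ 2 (gau r) := by
  unfold gau
  exact Complex.ofRealCLM.contDiff.comp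
    (Real.contDiff_exp.comp ((contDiff_const.mul (contDiff_norm_sq ℝ)).neg))

theorem gau_sz (hL : StmtLap) {r : ℝ} (hr : 0 < r) (δ : ℂ) :
    Sz r (gau r) δ (160 * (1 + (r * ‖δ‖) ^ 2) * Real.exp (-(2 * Real.pi * (r * ‖δ‖) ^ 2))) := by
  have h1 := hL.2.2.1 (2 * Real.pi * r ^ 2) δ (by positivity)
  have hG : gau r = fun z : ℂ => ((Real.exp (-(2 * Real.pi * r ^ 2 * ‖z‖ ^ 2)) : ℝ) : ℂ) := rfl
  have he : Real.exp (-(2 * Real.pi * r ^ 2 * ‖δ‖ ^ 2))
      = Real.exp (-(2 * Real.pi * (r * ‖δ‖) ^ 2)) := by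
    congr 1; ring
  rw [← hG, he] at h1
  set x := r * ‖δ‖ with hx
  have hx0 : 0 ≤ x := by positivity
  set E := Real.exp (-(2 * Real.pi * x ^ 2)) with hE
  have hE0 : 0 < E := Real.exp_pos _
  have hpi := Real.pi_pos
  have hpi4 := Real.pi_lt_d2
  have hpi2 : Real.pi ^ 2 ≤ 10 := by nlinarith
  refine ⟨?_, ?_, ?_⟩
  · have : ‖gau r δ‖ = E := by
      rw [hG]
      simp only [Complex.norm_real, Real.norm_eq_abs, abs_of_pos (Real.exp_pos _)]
      exact he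
    rw [this]
    nlinarith [mul_nonneg (sq_nonneg x) hE0.le]
  · refine h1.2.trans ?_
    have e1 : 2 * (2 * Real.pi * r ^ 2) * ‖δ‖ * E = (4 * Real.pi * x) * E * r := by
      rw [hx]; ring
    rw [e1]
    refine mul_le_mul_of_nonneg_right (mul_le_mul_of_nonneg_right ?_ hE0.le) hr.le
    nlinarith [sq_nonneg (x - 1)]
  · rw [h1.1, Complex.norm_real, Real.norm_eq_abs, abs_mul, abs_of_pos hE0]
    have e1 : |4 * (2 * Real.pi * r ^ 2) ^ 2 * ‖δ‖ ^ 2 - 4 * (2 * Real.pi * r ^ 2)|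
        ≤ (160 * (1 + x ^ 2)) * r ^ 2 := by
      have e2 : 4 * (2 * Real.pi * r ^ 2) ^ 2 * ‖δ‖ ^ 2 - 4 * (2 * Real.pi * r ^ 2)
          = (16 * Real.pi ^ 2 * x ^ 2 - 8 * Real.pi) * r ^ 2 := by
        rw [hx]; ring
      rw [e2, abs_mul, abs_of_nonneg (sq_nonneg r)]
      refine mul_le_mul_of_nonneg_right ?_ (sq_nonneg r)
      rw [abs_le]
      have e3 : 0 ≤ Real.pi ^ 2 * x ^ 2 := by positivity
      have e4 : Real.pi ^ 2 * x ^ 2 ≤ 10 * x ^ 2 := mul_le_mul_of_nonneg_right hpi2 (sq_nonneg x)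
      constructor <;> nlinarith [sq_nonneg x]
    have e5 := mul_le_mul_of_nonneg_right e1 hE0.le
    nlinarith

/-- the symbol, cut off -/
noncomputable def Pm (n : ℕ) (a b : ℤ) (ζ : ℂ) : ℂ := (bd a b ζ : ℂ) * mm n ζ

theorem norm_mm_le (n : ℕ) (ζ : ℂ) : ‖mm n ζ‖ ≤ 1 := by
  unfold mm
  rw [norm_pow, norm_div, RCLike.norm_conj]
  refine pow_le_one₀ (by positivity) ?_
  exact div_self_le_one _

theorem bd_abs_le (hF : StmtFac) (a b : ℤ) (ζ : ℂ) : |bd a b ζ| ≤ 1 := by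
  have h1 := hF.1 a ζ
  have h2 := hF.1 b ζ
  unfold bd
  rw [abs_le]
  constructor <;> linarith [h1.1, h1.2, h2.1, h2.2]

theorem Pm_norm_le (hF : StmtFac) (n : ℕ) (a b : ℤ) (ζ : ℂ) : ‖Pm n a b ζ‖ ≤ 1 := by
  unfold Pm
  rw [norm_mul, Complex.norm_real, Real.norm_eq_abs]
  exact mul_le_one₀ (bd_abs_le hF a b ζ) (norm_nonneg _) (norm_mm_le n ζ)

theorem bd_zero (hF : StmtFac) {a b : ℤ} (hab : a ≤ b) {ζ : ℂ} (h : ‖ζ‖ ≤ (2 : ℝ) ^ a) :
    bd a b ζ = 0 := by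
  have h1 := hF.2.1 a ζ h
  have h2 := hF.2.1 b ζ (h.trans (zpow_le_zpow_right₀ one_le_two hab))
  unfold bd
  rw [h1, h2, sub_self]

theorem Ls_eq (n : ℕ) (r : ℝ) (s : ℤ) (L m : ℕ) (θ : ℂ) :
    Ls n r s L m θ = fun δ => gau r δ * (Pm n (s + m) (s + L - m) (θ / 2 + δ) *
      Pm n (s + m) (s + L - m) (θ / 2 - δ)) := by
  ext δ
  unfold Ls gau Pm E2
  push_cast
  ring

theorem errLow (hL : StmtLap) (hM : StmtMM) (hF : StmtFac) : StmtErrLow := by
  obtain ⟨C, hC, hMM⟩ := hM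
  intro M L m ε hM1 hm hmL hε
  have hab : ∀ s : ℤ, s + m < s + L - m := fun s => by
    have : (2 * m : ℤ) < L := by exact_mod_cast hmL
    linarith
  -- the polynomial times the exponential tends to zero
  set c0 : ℝ := ((2 : ℝ) ^ m / (2 * M * (2 : ℝ) ^ L)) ^ 2 with hc0
  have hM0 : 0 < M := by linarith
  have hc0pos : 0 < c0 := by positivity
  set K : ℝ := (1 + C) * (M ^ 2 * (2 : ℝ) ^ (2 * L)) with hK
  have hKpos : 0 < K := by positivity
  have hlim : Tendsto (fun n : ℕ => (36 * 160 * K ^ 2) * ((n : ℝ) + 1) ^ 4 *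
      Real.exp (-(4 * c0 * n))) atTop (𝓝 0) := by
    have h1 : Tendsto (fun x : ℝ => x ^ 4 * Real.exp (-x)) atTop (𝓝 0) :=
      Real.tendsto_pow_mul_exp_neg_atTop_nhds_zero 4
    have h2 : Tendsto (fun n : ℕ => 4 * c0 * ((n : ℝ) + 1)) atTop atTop :=
      Tendsto.const_mul_atTop (by positivity)
        (tendsto_atTop_add_const_right _ _ tendsto_natCast_atTop_atTop)
    have h3 := (h1.comp h2).const_mul (36 * 160 * K ^ 2 * Real.exp (4 * c0) / (4 * c0) ^ 4)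
    rw [mul_zero] at h3
    refine h3.congr fun n => ?_
    simp only [Function.comp_apply]
    have e1 : Real.exp (-(4 * c0 * ((n : ℝ) + 1))) = Real.exp (-(4 * c0 * n)) *
        (Real.exp (4 * c0))⁻¹ := by
      rw [← Real.exp_neg, ← Real.exp_add]; congr 1; ring
    rw [e1]
    have e2 : Real.exp (4 * c0) ≠ 0 := (Real.exp_pos _).ne'
    field_simp
  obtain ⟨n₀, hn₀⟩ := eventually_atTop.1 ((hlim.eventually (gt_mem_nhds hε)).and
    (eventually_ge_atTop 1))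
  refine ⟨n₀, fun n hn s θ hθ => ?_⟩
  obtain ⟨hsmall, hn1⟩ := hn₀ n hn
  set a : ℤ := s + m with ha
  set b : ℤ := s + L - m with hb
  have hab' : a < b := hab s
  obtain ⟨hc2, hcs, hder⟩ := hMM n a b hab'
  set r : ℝ := win n M s L with hr
  have hnpos : (0 : ℝ) < n := by exact_mod_cast hn1
  have hn1' : (1 : ℝ) ≤ n := by exact_mod_cast hn1
  have hsq : 0 < Real.sqrt n := Real.sqrt_pos.2 hnpos
  have hsq1 : 1 ≤ Real.sqrt n := Real.one_le_sqrt.2 hn1'
  have hrpos : 0 < r := by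
    rw [hr]; unfold win; positivity
  have hP2 : ContDiff ℝ 2 (Pm n a b) := hc2
  have hPc : HasCompactSupport (Pm n a b) := hcs
  have hPp : ContDiff ℝ 2 (fun δ => Pm n a b (θ / 2 + δ)) := hP2.comp (contDiff_const.add contDiff_id)
  have hPn : ContDiff ℝ 2 (fun δ => Pm n a b (θ / 2 - δ)) := hP2.comp (contDiff_const.sub contDiff_id)
  have hPP : ContDiff ℝ 2 (fun δ => Pm n a b (θ / 2 + δ) * Pm n a b (θ / 2 - δ)) := hPp.mul hPn
  have hLs : Ls n r s L m θ = fun δ => gau r δ * (Pm n a b (θ / 2 + δ) * Pm n a b (θ / 2 - δ)) :=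
    Ls_eq n r s L m θ
  rw [hLs]
  refine ⟨(gau_contDiff r).mul hPP, ?_, fun δ => ?_⟩
  · have h1 : HasCompactSupport (fun δ => Pm n a b (θ / 2 + δ)) :=
      hPc.comp_homeomorph (Homeomorph.addLeft (θ / 2))
    exact (h1.mul_right (f' := fun δ => Pm n a b (θ / 2 - δ))).mul_left (f := gau r)
  -- pointwise bounds
  have h2a : (0 : ℝ) < (2 : ℝ) ^ a := by positivity
  by_cases hδ : ‖δ‖ < (2 : ℝ) ^ a / 2
  · -- everything vanishes near `δ`
    have hev : (fun δ => gau r δ * (Pm n a b (θ / 2 + δ) * Pm n a b (θ / 2 - δ))) =ᶠ[𝓝 δ]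
        fun _ => (0 : ℂ) := by
      have hop : IsOpen {z : ℂ | ‖z‖ < (2 : ℝ) ^ a / 2} := isOpen_lt continuous_norm continuous_const
      filter_upwards [hop.mem_nhds hδ] with z hz
      have hz' : ‖z‖ < (2 : ℝ) ^ a / 2 := hz
      have h1 : ‖θ / 2 + z‖ ≤ (2 : ℝ) ^ a := by
        refine (norm_add_le _ _).trans ?_
        have h3 : ‖θ / 2‖ = ‖θ‖ / 2 := by rw [norm_div]; simp
        rw [h3]
        linarith
      have h2 : Pm n a b (θ / 2 + z) = 0 := by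
        unfold Pm
        rw [bd_zero hF hab'.le h1]
        simp
      rw [h2, zero_mul, mul_zero]
    have h0 : lap (fun δ => gau r δ * (Pm n a b (θ / 2 + δ) * Pm n a b (θ / 2 - δ))) δ = 0 := by
      unfold lap
      have h1 : (fun z => fderiv ℝ (fun δ => gau r δ * (Pm n a b (θ / 2 + δ) *
          Pm n a b (θ / 2 - δ))) z) =ᶠ[𝓝 δ] fun _ => 0 := by
        filter_upwards [hev.eventually_nhds] with z hz
        have hz' : (fun δ => gau r δ * (Pm n a b (θ / 2 + δ) * Pm n a b (θ / 2 - δ))) =ᶠ[𝓝 z]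
          fun _ => (0 : ℂ) := hz
        rw [hz'.fderiv_eq]
        simp
      have h2 : ∀ w : ℂ, (fun z => fderiv ℝ (fun δ => gau r δ * (Pm n a b (θ / 2 + δ) *
          Pm n a b (θ / 2 - δ))) z w) =ᶠ[𝓝 δ] fun _ => 0 := fun w => by
        filter_upwards [h1] with z hz
        rw [hz]
        simp
      rw [(h2 1).fderiv_eq, (h2 Complex.I).fderiv_eq]
      simp
    constructor
    · have := hev.self_of_nhds
      simp only at this
      show ‖gau r δ * (Pm n a b (θ / 2 + δ) * Pm n a b (θ / 2 - δ))‖ ≤ _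
      rw [this, norm_zero]
      positivity
    · rw [h0, norm_zero]
      positivity
  · push Not at hδ
    set x := r * ‖δ‖ with hx
    have hx0 : 0 ≤ x := by positivity
    have hxsq : c0 * n ≤ x ^ 2 := by
      have h1 : r * ((2 : ℝ) ^ a / 2) ≤ x := mul_le_mul_of_nonneg_left hδ hrpos.le
      have h2 : r * ((2 : ℝ) ^ a / 2) = Real.sqrt n * ((2 : ℝ) ^ m / (2 * M * (2 : ℝ) ^ L)) := by
        rw [hr, ha]
        unfold win
        rw [zpow_add₀ (by norm_num), zpow_add₀ (by norm_num), zpow_natCast, zpow_natCast]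
        field_simp
      rw [h2] at h1
      have h3 := pow_le_pow_left₀ (by positivity) h1 2
      rw [mul_pow, Real.sq_sqrt hnpos.le] at h3
      rw [hc0]
      linarith
    -- sizes
    set A : ℝ := K * ((n : ℝ) + 1) ^ 2 with hA
    have hpw : 1 / (2 : ℝ) ^ a ≤ M * (2 : ℝ) ^ L * r := by
      have e1 : M * (2 : ℝ) ^ L * r = Real.sqrt n / (2 : ℝ) ^ s := by
        rw [hr]; unfold win
        rw [zpow_add₀ (by norm_num), zpow_natCast]
        field_simp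
      rw [e1]
      have e2 : (2 : ℝ) ^ s ≤ (2 : ℝ) ^ a := zpow_le_zpow_right₀ one_le_two (by omega)
      have e3 : (0 : ℝ) < (2 : ℝ) ^ s := by positivity
      exact div_le_div₀ (Real.sqrt_nonneg _) hsq1 e3 e2
    have hML1 : 1 ≤ M ^ 2 * (2 : ℝ) ^ (2 * L) := by
      have e1 : (1 : ℝ) ≤ (2 : ℝ) ^ (2 * L) := one_le_pow₀ one_le_two
      nlinarith [sq_nonneg M]
    have hn2 : (1 : ℝ) ≤ ((n : ℝ) + 1) ^ 2 := by nlinarith
    have hA1 : 1 ≤ A := by
      have e1 : 1 ≤ K := by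
        rw [hK]
        nlinarith
      rw [hA]
      nlinarith
    have hPs : ∀ ζ, Sz r (Pm n a b) ζ A := by
      intro ζ
      obtain ⟨hd1, hd2⟩ := hder ζ
      refine ⟨(Pm_norm_le hF n a b ζ).trans hA1, ?_, ?_⟩
      · refine hd1.trans ?_
        have e1 : C * (n + 1) / (2 : ℝ) ^ a = C * (n + 1) * (1 / (2 : ℝ) ^ a) := by ring
        rw [e1]
        have e2 : C * (n + 1) * (1 / (2 : ℝ) ^ a) ≤ C * (n + 1) * (M * (2 : ℝ) ^ L * r) :=
          mul_le_mul_of_nonneg_left hpw (by positivity)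
        refine e2.trans ?_
        have e3 : M * (2 : ℝ) ^ L ≤ M ^ 2 * (2 : ℝ) ^ (2 * L) := by
          have e4 : (1 : ℝ) ≤ M * (2 : ℝ) ^ L := by
            have : (1 : ℝ) ≤ (2 : ℝ) ^ L := one_le_pow₀ one_le_two
            nlinarith
          have e5 : M ^ 2 * (2 : ℝ) ^ (2 * L) = (M * (2 : ℝ) ^ L) * (M * (2 : ℝ) ^ L) := by
            rw [pow_mul']; ring
          rw [e5]
          nlinarith
        have e6 : (n : ℝ) + 1 ≤ ((n : ℝ) + 1) ^ 2 := by nlinarith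
        have e7 : C * (n + 1) * (M * (2 : ℝ) ^ L) ≤ A := by
          rw [hA, hK]
          have e8 : C * ((n : ℝ) + 1) ≤ (1 + C) * ((n : ℝ) + 1) ^ 2 := by nlinarith
          calc C * (n + 1) * (M * (2 : ℝ) ^ L)
              ≤ (1 + C) * ((n : ℝ) + 1) ^ 2 * (M ^ 2 * (2 : ℝ) ^ (2 * L)) :=
                mul_le_mul e8 e3 (by positivity) (by positivity)
            _ = _ := by ring
        calc C * (n + 1) * (M * (2 : ℝ) ^ L * r) = C * (n + 1) * (M * (2 : ℝ) ^ L) * r := by ring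
          _ ≤ A * r := mul_le_mul_of_nonneg_right e7 hrpos.le
      · refine hd2.trans ?_
        have e1 : C * (n + 1) ^ 2 / ((2 : ℝ) ^ a) ^ 2 = C * (n + 1) ^ 2 * (1 / (2 : ℝ) ^ a) ^ 2 := by
          rw [div_pow]; ring
        rw [e1]
        have e2 : (1 / (2 : ℝ) ^ a) ^ 2 ≤ (M * (2 : ℝ) ^ L * r) ^ 2 :=
          pow_le_pow_left₀ (by positivity) hpw 2
        have e3 : C * ((n : ℝ) + 1) ^ 2 * (1 / (2 : ℝ) ^ a) ^ 2
            ≤ (1 + C) * ((n : ℝ) + 1) ^ 2 * (M * (2 : ℝ) ^ L * r) ^ 2 := by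
          refine mul_le_mul ?_ e2 (by positivity) (by positivity)
          nlinarith
        refine e3.trans (le_of_eq ?_)
        rw [hA, hK, pow_mul']
        ring
    have hPps : Sz r (fun δ => Pm n a b (θ / 2 + δ)) δ A := by
      obtain ⟨e1, -, e3, -⟩ := hL.2.1 (Pm n a b) (θ / 2) δ hP2
      have h := hPs (θ / 2 + δ)
      exact ⟨h.1, by rw [e3]; exact h.2.1, by rw [e1]; exact h.2.2⟩
    have hPns : Sz r (fun δ => Pm n a b (θ / 2 - δ)) δ A := by
      obtain ⟨-, e1, -, e3⟩ := hL.2.1 (Pm n a b) (θ / 2) δ hP2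
      have h := hPs (θ / 2 - δ)
      exact ⟨h.1, by rw [e3]; exact h.2.1, by rw [e1]; exact h.2.2⟩
    have hall := Sz.mul hL hrpos.le (gau_contDiff r) hPP (gau_sz hL hrpos δ)
      (Sz.mul hL hrpos.le hPp hPn hPps hPns)
    have hfin : 6 * (160 * (1 + (r * ‖δ‖) ^ 2) * Real.exp (-(2 * Real.pi * (r * ‖δ‖) ^ 2)) *
        (6 * (A * A))) ≤ ε * Real.exp (-(r ^ 2 * ‖δ‖ ^ 2)) := by
      have e1 : r ^ 2 * ‖δ‖ ^ 2 = x ^ 2 := by rw [hx]; ring
      rw [e1, ← hx]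
      have e2 : Real.exp (-(2 * Real.pi * x ^ 2)) ≤ Real.exp (-(x ^ 2)) * Real.exp (-(x ^ 2)) *
          Real.exp (-(4 * c0 * n)) := by
        rw [← Real.exp_add, ← Real.exp_add, Real.exp_le_exp]
        have := Real.pi_gt_three
        nlinarith [sq_nonneg x]
      have e3 : (1 + x ^ 2) * Real.exp (-(x ^ 2)) ≤ 1 := by
        have h1 : 1 + x ^ 2 ≤ Real.exp (x ^ 2) := by
          have := Real.add_one_le_exp (x ^ 2)
          linarith
        rw [Real.exp_neg, ← div_eq_mul_inv]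
        exact (div_le_one (Real.exp_pos _)).2 h1
      have e4 : 0 < Real.exp (-(x ^ 2)) := Real.exp_pos _
      have e5 : 0 < Real.exp (-(4 * c0 * n)) := Real.exp_pos _
      calc 6 * (160 * (1 + x ^ 2) * Real.exp (-(2 * Real.pi * x ^ 2)) * (6 * (A * A)))
          = (36 * 160 * (A * A) * (1 + x ^ 2)) * Real.exp (-(2 * Real.pi * x ^ 2)) := by ring
        _ ≤ (36 * 160 * (A * A) * (1 + x ^ 2)) * (Real.exp (-(x ^ 2)) * Real.exp (-(x ^ 2)) *
          Real.exp (-(4 * c0 * n))) := mul_le_mul_of_nonneg_left e2 (by positivity)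
        _ = (36 * 160 * (A * A) * Real.exp (-(4 * c0 * n))) * Real.exp (-(x ^ 2)) *
            ((1 + x ^ 2) * Real.exp (-(x ^ 2))) := by ring
        _ ≤ (36 * 160 * (A * A) * Real.exp (-(4 * c0 * n))) * Real.exp (-(x ^ 2)) * 1 :=
            mul_le_mul_of_nonneg_left e3 (by positivity)
        _ ≤ ε * Real.exp (-(x ^ 2)) := by
            rw [mul_one]
            refine mul_le_mul_of_nonneg_right ?_ e4.le
            have e6 : 36 * 160 * (A * A) * Real.exp (-(4 * c0 * n)) =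
                (36 * 160 * K ^ 2) * ((n : ℝ) + 1) ^ 4 * Real.exp (-(4 * c0 * n)) := by
              rw [hA]; ring
            rw [e6]
            exact hsmall.le
    refine ⟨hall.1.trans hfin, ?_⟩
    have h3 := mul_le_mul_of_nonneg_right hfin (sq_nonneg r)
    refine hall.2.2.trans (h3.trans (le_of_eq ?_))
    ring

end Pool.Agent.Lib.MP_dd244f_an.Four
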