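import Pool.Agent.Lib.MP_dd244f_an.Four.Basic

/-!
Module F4-Final4: from compactly supported Fourier transforms to all Schwartz functions.
-/

set_option autoImplicit false

namespace Pool.Agent.Lib.MP_dd244f_an.Four

open MeasureTheory Filter Topology Finset
open Pool.Agent.Lib.MP_dd244f_an.Joint (st ct Mst ratio)
open scoped SchwartzMap ENNReal FourierTransform

namespace F4Fin

theorem memLp_four {h : ℂ → ℂ} (hm : AEStronglyMeasurable h volume)
    (hi : Integrable (fun x => ‖h x‖ ^ 4)) : MemLp h 4 volume := by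
  have h1 := (integrable_norm_rpow_iff (p := 4) hm (by norm_num) (by norm_num)).1
  apply h1
  have : (4 : ℝ≥0∞).toReal = ((4 : ℕ) : ℝ) := by simp
  simp only [this, Real.rpow_natCast]
  exact hi

theorem eLp_four {h : ℂ → ℂ} (hm : AEStronglyMeasurable h volume)
    (hi : Integrable (fun x => ‖h x‖ ^ 4)) :
    eLpNorm h 4 volume = ENNReal.ofReal ((∫ x, ‖h x‖ ^ 4) ^ ((1 : ℝ) / 4)) := by
  rw [(memLp_four hm hi).eLpNorm_eq_integral_rpow_norm (by norm_num) (by norm_num)]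
  have : (4 : ℝ≥0∞).toReal = ((4 : ℕ) : ℝ) := by simp
  simp only [this, Real.rpow_natCast]
  congr 2
  norm_num

theorem lo_cont (hF : StmtFac) (a : ℤ) : Continuous (lo a) := (hF.2.2.2.1 a 0).continuous

theorem lo_supp (hF : StmtFac) (a : ℤ) : HasCompactSupport (lo a) := by
  refine HasCompactSupport.of_support_subset_isCompact
    (isCompact_closedBall (0 : ℂ) (2 * (2 : ℝ) ^ a)) ?_
  intro ζ hζ
  rw [mem_closedBall_zero_iff]
  by_contra hlt
  push Not at hlt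
  apply hζ
  apply hF.2.2.1 a ζ
  have hp : (0 : ℝ) < (2 : ℝ) ^ a := by positivity
  nlinarith

theorem cutcc (hF : StmtFac) {g : ℂ → ℂ} (hg : Continuous g) (a b : ℤ) : CC (cut (bd a b) g) := by
  have h1 : Continuous (fun ζ => ((bd a b ζ : ℝ) : ℂ)) := by
    unfold bd
    exact Complex.continuous_ofReal.comp ((lo_cont hF b).sub (lo_cont hF a))
  have h2 : HasCompactSupport (bd a b) := by
    have e : bd a b = lo b + -lo a := by
      ext ζ
      simp [bd, sub_eq_add_neg]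
    rw [e]
    exact (lo_supp hF b).add (lo_supp hF a).neg
  refine ⟨?_, ?_⟩
  · unfold cut
    exact h1.mul hg
  · have h3 : HasCompactSupport (fun ζ => ((bd a b ζ : ℝ) : ℂ)) :=
      h2.comp_left (g := fun t : ℝ => (t : ℂ)) (by simp)
    exact h3.mul_right

theorem bd_z0 (hF : StmtFac) (g : ℂ → ℂ) (R : ℕ) : Z0 (cut (bd (-(R : ℤ)) R) g) := by
  unfold Z0
  have hp : (0 : ℝ) < (2 : ℝ) ^ (-(R : ℤ)) := by positivity
  filter_upwards [Metric.closedBall_mem_nhds (0 : ℂ) hp] with ζ hζ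
  rw [mem_closedBall_zero_iff] at hζ
  have h1 : lo (-(R : ℤ)) ζ = 1 := hF.2.1 _ _ hζ
  have h2 : lo (R : ℤ) ζ = 1 := hF.2.1 _ _ (hζ.trans (zpow_le_zpow_right₀ (by norm_num) (by omega)))
  unfold cut bd
  rw [h1, h2]
  simp

theorem bd_abs (hF : StmtFac) (a b : ℤ) (ζ : ℂ) : |bd a b ζ| ≤ 1 := by
  have h1 := hF.1 a ζ
  have h2 := hF.1 b ζ
  unfold bd
  rw [abs_le]
  constructor <;> linarith [h1.1, h1.2, h2.1, h2.2]

theorem bd_lim (hF : StmtFac) {ζ : ℂ} (hζ : ζ ≠ 0) :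
    Tendsto (fun R : ℕ => bd (-(R : ℤ)) R ζ) atTop (𝓝 1) := by
  have h0 : 0 < ‖ζ‖ := norm_pos_iff.2 hζ
  have e1 : ∀ᶠ R : ℕ in atTop, ‖ζ‖ ≤ (2 : ℝ) ^ R := by
    have := tendsto_pow_atTop_atTop_of_one_lt (r := (2 : ℝ)) (by norm_num)
    exact this.eventually_ge_atTop ‖ζ‖
  have e2 : ∀ᶠ R : ℕ in atTop, 2 / ‖ζ‖ ≤ (2 : ℝ) ^ R := by
    have := tendsto_pow_atTop_atTop_of_one_lt (r := (2 : ℝ)) (by norm_num)
    exact this.eventually_ge_atTop (2 / ‖ζ‖)
  refine tendsto_const_nhds.congr' ?_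
  filter_upwards [e1, e2] with R h1 h2
  have h3 : lo (R : ℤ) ζ = 1 := hF.2.1 _ _ (by simpa using h1)
  have h4 : lo (-(R : ℤ)) ζ = 0 := by
    apply hF.2.2.1
    have hp : (0 : ℝ) < (2 : ℝ) ^ R := by positivity
    have h5 : (2 : ℝ) ^ (-(R : ℤ)) = ((2 : ℝ) ^ R)⁻¹ := by simp
    rw [h5]
    have h6 : 2 * ((2 : ℝ) ^ R)⁻¹ ≤ ‖ζ‖ := by
      rw [div_le_iff₀ h0] at h2
      rw [← div_eq_mul_inv, div_le_iff₀ hp]
      linarith
    have h7 : 0 ≤ ((2 : ℝ) ^ R)⁻¹ := by positivity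
    nlinarith
  unfold bd
  rw [h3, h4]
  ring

theorem norm_mm_le (n : ℕ) (ζ : ℂ) : ‖mm n ζ‖ ≤ 1 := by
  unfold mm
  rw [norm_pow, norm_div, RCLike.norm_conj]
  exact pow_le_one₀ (by positivity) (div_self_le_one _)

theorem meas_mm (n : ℕ) : Measurable (mm n) := by
  unfold mm
  exact (Complex.continuous_conj.measurable.div measurable_id).pow_const n

/-- pointwise convergence of the truncated operators -/
theorem tend_iF (hF : StmtFac) (n : ℕ) {g : ℂ → ℂ} (hg : Continuous g) (hgi : Integrable g) (x : ℂ) :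
    Tendsto (fun R : ℕ => iF (mg n (cut (bd (-(R : ℤ)) R) g)) x) atTop (𝓝 (iF (mg n g) x)) := by
  unfold iF
  refine tendsto_integral_of_dominated_convergence (fun ζ => ‖g ζ‖) ?_ hgi.norm ?_ ?_
  · intro R
    have h1 := (cutcc hF hg (-(R : ℤ)) R).1
    unfold mg
    exact (continuous_ch x).aestronglyMeasurable.mul
      ((meas_mm n).aestronglyMeasurable.mul h1.aestronglyMeasurable)
  · intro R
    refine Eventually.of_forall fun ζ => ?_
    unfold mg cut
    rw [norm_mul, norm_mul, norm_mul, norm_ch, one_mul, Complex.norm_real, Real.norm_eq_abs]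
    have h1 := norm_mm_le n ζ
    have h2 := bd_abs hF (-(R : ℤ)) R ζ
    have h3 : ‖mm n ζ‖ * (|bd (-(R : ℤ)) R ζ| * ‖g ζ‖) ≤ 1 * (1 * ‖g ζ‖) := by
      apply mul_le_mul h1 _ (by positivity) (by norm_num)
      exact mul_le_mul_of_nonneg_right h2 (norm_nonneg _)
    simpa using h3
  · have h0 : ∀ᵐ ζ : ℂ, ζ ≠ 0 := by
      have : (volume : Measure ℂ) {0} = 0 := measure_singleton 0
      rw [ae_iff]
      simpa using this
    filter_upwards [h0] with ζ hζ
    have h1 := bd_lim hF hζ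
    unfold mg cut
    have h2 : Tendsto (fun R : ℕ => ch x ζ * (mm n ζ * (((bd (-(R : ℤ)) R ζ : ℝ) : ℂ) * g ζ))) atTop
        (𝓝 (ch x ζ * (mm n ζ * (((1 : ℝ) : ℂ) * g ζ)))) := by
      refine Tendsto.const_mul _ (Tendsto.const_mul _ (Tendsto.mul_const _ ?_))
      exact (Complex.continuous_ofReal.tendsto 1).comp h1
    simpa only [Complex.ofReal_one, one_mul] using h2

theorem tend_L1 (hF : StmtFac) {g : ℂ → ℂ} (hg : Continuous g) (hgi : Integrable g) :
    Tendsto (fun R : ℕ => ∫ ζ, ‖cut (bd (-(R : ℤ)) R) g ζ - g ζ‖) atTop (𝓝 0) := by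
  have : (0 : ℝ) = ∫ _ζ : ℂ, (0 : ℝ) := by simp
  rw [this]
  refine tendsto_integral_of_dominated_convergence (fun ζ => 2 * ‖g ζ‖) ?_ (hgi.norm.const_mul 2) ?_ ?_
  · intro R
    exact (((cutcc hF hg (-(R : ℤ)) R).1.sub hg).norm).aestronglyMeasurable
  · intro R
    refine Eventually.of_forall fun ζ => ?_
    rw [norm_norm]
    refine (norm_sub_le _ _).trans ?_
    unfold cut
    rw [norm_mul, Complex.norm_real, Real.norm_eq_abs]
    have h2 := mul_le_mul_of_nonneg_right (bd_abs hF (-(R : ℤ)) R ζ) (norm_nonneg (g ζ))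
    linarith
  · have h0 : ∀ᵐ ζ : ℂ, ζ ≠ 0 := by
      have : (volume : Measure ℂ) {0} = 0 := measure_singleton 0
      rw [ae_iff]
      simpa using this
    filter_upwards [h0] with ζ hζ
    have h1 := bd_lim hF hζ
    have h2 : Tendsto (fun R : ℕ => ‖((bd (-(R : ℤ)) R ζ : ℝ) : ℂ) * g ζ - g ζ‖) atTop
        (𝓝 ‖((1 : ℝ) : ℂ) * g ζ - g ζ‖) := by
      refine Tendsto.norm (Tendsto.sub_const (Tendsto.mul_const _ ?_) _)
      exact (Complex.continuous_ofReal.tendsto 1).comp h1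
    simpa only [cut, Complex.ofReal_one, one_mul, sub_self, norm_zero] using h2

theorem Tn_iF (n : ℕ) (f : ℂ → ℂ) (z : ℂ) : Tn n f z = iF (mg n (𝓕 f)) z := by
  unfold Tn
  simp_rw [fourier_eq]
  rfl

theorem iF_eq (g : ℂ → ℂ) (z : ℂ) : iF g z = 𝓕⁻ g z := fourierInv_eq_int g z

theorem f_iF (f : 𝓢(ℂ, ℂ)) (z : ℂ) : f z = iF (𝓕 (⇑f)) z := by
  rw [iF_eq]
  have h1 : Integrable (𝓕 (⇑f)) := by
    rw [← SchwartzMap.fourier_coe]
    exact (𝓕 f).integrable
  rw [f.continuous.fourierInv_fourier_eq f.integrable h1]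

theorem iF_sub {g h : ℂ → ℂ} (hg : Integrable g) (hh : Integrable h) (x : ℂ) :
    iF (fun ζ => g ζ - h ζ) x = iF g x - iF h x := by
  have key : ∀ {g : ℂ → ℂ}, Integrable g → Integrable (fun ζ => ch x ζ * g ζ) := by
    intro g hg
    refine hg.norm.mono' ((continuous_ch x).aestronglyMeasurable.mul hg.aestronglyMeasurable)
      (Eventually.of_forall fun ζ => ?_)
    rw [norm_mul, norm_ch, one_mul]
  unfold iF
  rw [← integral_sub (key hg) (key hh)]
  congr 1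
  ext ζ
  ring

theorem norm_iF_le (g : ℂ → ℂ) (x : ℂ) : ‖iF g x‖ ≤ ∫ ζ, ‖g ζ‖ := by
  unfold iF
  refine (norm_integral_le_integral_norm _).trans (le_of_eq ?_)
  congr 1
  ext ζ
  rw [norm_mul, norm_ch, one_mul]

/-- the `L^4` norm of the error -/
theorem err4 (hL : StmtL2) (hF : StmtFac) {g : ℂ → ℂ} (hg : Continuous g) (hgi : Integrable g)
    (hg2 : MemLp g 2 volume) :
    ∃ e : ℕ → ℝ≥0∞, Tendsto e atTop (𝓝 0) ∧
      ∀ R : ℕ, eLpNorm (iF (fun ζ => cut (bd (-(R : ℤ)) R) g ζ - g ζ)) 4 volume ≤ e R := by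
  set B : ℕ → ℝ := fun R => ∫ ζ, ‖cut (bd (-(R : ℤ)) R) g ζ - g ζ‖ with hB
  have hBl : Tendsto B atTop (𝓝 0) := tend_L1 hF hg hgi
  set G : ℝ := ∫ ζ, (2 * ‖g ζ‖) ^ 2 with hG
  refine ⟨fun R => ENNReal.ofReal ((B R ^ 2 * G) ^ ((1 : ℝ) / 4)), ?_, fun R => ?_⟩
  · have h1 : Tendsto (fun R => (B R ^ 2 * G) ^ ((1 : ℝ) / 4)) atTop (𝓝 0) := by
      have h2 : Tendsto (fun R => B R ^ 2 * G) atTop (𝓝 0) := by
        have := (hBl.pow 2).mul_const G
        simpa using this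
      have h3 := h2.rpow_const (p := (1 : ℝ) / 4) (Or.inr (by norm_num))
      have h4 : (0 : ℝ) ^ ((1 : ℝ) / 4) = 0 := Real.zero_rpow (by norm_num)
      rwa [h4] at h3
    have := ENNReal.tendsto_ofReal h1
    simpa using this
  · set φ : ℂ → ℂ := fun ζ => cut (bd (-(R : ℤ)) R) g ζ - g ζ with hφ
    have hcc := cutcc hF hg (-(R : ℤ)) R
    have hφc : Continuous φ := hcc.1.sub hg
    have hci : Integrable (cut (bd (-(R : ℤ)) R) g) := hcc.1.integrable_of_hasCompactSupport hcc.2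
    have hφi : Integrable φ := hci.sub hgi
    have hφb : ∀ ζ, ‖φ ζ‖ ≤ 2 * ‖g ζ‖ := by
      intro ζ
      rw [hφ]
      refine (norm_sub_le _ _).trans ?_
      unfold cut
      rw [norm_mul, Complex.norm_real, Real.norm_eq_abs]
      have h2 := mul_le_mul_of_nonneg_right (bd_abs hF (-(R : ℤ)) R ζ) (norm_nonneg (g ζ))
      linarith
    have hg2i : Integrable (fun ζ => (2 * ‖g ζ‖) ^ 2) := by
      have := (memLp_two_iff_integrable_sq_norm hg.aestronglyMeasurable).1 hg2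
      have h2 := this.const_mul 4
      refine h2.congr (Eventually.of_forall fun ζ => ?_)
      simp only
      ring
    have hφ2i : Integrable (fun ζ => ‖φ ζ‖ ^ 2) := by
      refine hg2i.mono' (hφc.norm.pow 2).aestronglyMeasurable (Eventually.of_forall fun ζ => ?_)
      rw [Real.norm_of_nonneg (by positivity)]
      exact pow_le_pow_left₀ (norm_nonneg _) (hφb ζ) 2
    have hφ2 : MemLp φ 2 volume :=
      (memLp_two_iff_integrable_sq_norm hφc.aestronglyMeasurable).2 hφ2i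
    obtain ⟨hd2, hdeq⟩ := hL φ hφi hφ2
    have hd2i : Integrable (fun x => ‖iF φ x‖ ^ 2) :=
      (memLp_two_iff_integrable_sq_norm hd2.aestronglyMeasurable).1 hd2
    have hb : ∀ x, ‖iF φ x‖ ≤ B R := fun x => norm_iF_le φ x
    have hB0 : 0 ≤ B R := integral_nonneg fun _ => norm_nonneg _
    have hpt : ∀ x, ‖iF φ x‖ ^ 4 ≤ B R ^ 2 * ‖iF φ x‖ ^ 2 := by
      intro x
      have h1 : ‖iF φ x‖ ^ 2 ≤ B R ^ 2 := pow_le_pow_left₀ (norm_nonneg _) (hb x) 2
      have h2 : 0 ≤ ‖iF φ x‖ ^ 2 := by positivity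
      nlinarith
    have hd4i : Integrable (fun x => ‖iF φ x‖ ^ 4) := by
      refine (hd2i.const_mul (B R ^ 2)).mono' ?_ (Eventually.of_forall fun x => ?_)
      · exact (hd2.aestronglyMeasurable.norm.pow 4)
      · rw [Real.norm_of_nonneg (by positivity)]
        exact hpt x
    rw [eLp_four hd2.aestronglyMeasurable hd4i]
    refine ENNReal.ofReal_le_ofReal (Real.rpow_le_rpow (integral_nonneg fun _ => by positivity) ?_
      (by norm_num))
    calc ∫ x, ‖iF φ x‖ ^ 4 ≤ ∫ x, B R ^ 2 * ‖iF φ x‖ ^ 2 :=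
          integral_mono hd4i (hd2i.const_mul _) hpt
      _ = B R ^ 2 * ∫ ζ, ‖φ ζ‖ ^ 2 := by rw [integral_const_mul, hdeq]
      _ ≤ B R ^ 2 * G := by
          refine mul_le_mul_of_nonneg_left ?_ (by positivity)
          exact integral_mono hφ2i hg2i fun ζ => pow_le_pow_left₀ (norm_nonneg _) (hφb ζ) 2

end F4Fin

open F4Fin in
theorem final4 (hM : StmtMain4) (hR : StmtRatio4) (hB : StmtBase) (hF : StmtFac) (hL : StmtL2) :
    StmtFinal4 := by
  intro ε hε
  obtain ⟨n₁, hn₁⟩ := hM ε hε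
  have hgam : 0 < gam := by
    unfold gam
    exact div_pos (Real.Gamma_pos_of_pos (by norm_num)) (Real.Gamma_pos_of_pos (by norm_num))
  have hpos : ∀ᶠ n : ℕ in atTop, 0 < ratio n 4 / Real.sqrt n := Filter.Tendsto.eventually_const_lt hgam hR
  have hpow : ∀ᶠ n : ℕ in atTop, gam ^ 4 < (ratio n 4 / Real.sqrt n) ^ 4 * (1 + ε) := by
    have h1 : Tendsto (fun n : ℕ => (ratio n 4 / Real.sqrt n) ^ 4 * (1 + ε)) atTop
        (𝓝 (gam ^ 4 * (1 + ε))) := (hR.pow 4).mul_const _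
    have h2 : gam ^ 4 < gam ^ 4 * (1 + ε) := by
      have : 0 < gam ^ 4 := by positivity
      nlinarith
    exact Filter.Tendsto.eventually_const_lt h2 h1
  obtain ⟨n₂, hn₂⟩ := eventually_atTop.1 (hpos.and hpow)
  refine ⟨max (max n₁ n₂) 1, fun n hn f => ?_⟩
  have hnn1 : n₁ ≤ n := (le_max_left _ _).trans ((le_max_left _ _).trans hn)
  have hnn2 : n₂ ≤ n := (le_max_right _ _).trans ((le_max_left _ _).trans hn)
  have hnn3 : 1 ≤ n := (le_max_right _ _).trans hn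
  obtain ⟨hp1, hp2⟩ := hn₂ n hnn2
  have hsq : 0 < Real.sqrt n := Real.sqrt_pos.2 (by exact_mod_cast hnn3)
  have hrat : 0 < ratio n 4 := by
    have := mul_pos hp1 hsq
    rwa [div_mul_cancel₀ _ hsq.ne'] at this
  set K : ℝ := (1 + ε) * ratio n 4 with hK
  have hK0 : 0 < K := by positivity
  have hKK : (1 + ε) * gam ^ 4 * n ^ 2 ≤ K ^ 4 := by
    have h1 : (ratio n 4 / Real.sqrt n) ^ 4 * (n : ℝ) ^ 2 = ratio n 4 ^ 4 := by
      have : (n : ℝ) ^ 2 = Real.sqrt n ^ 4 := by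
        have h2 : Real.sqrt n ^ 2 = n := Real.sq_sqrt (Nat.cast_nonneg n)
        calc (n : ℝ) ^ 2 = (Real.sqrt n ^ 2) ^ 2 := by rw [h2]
          _ = _ := by ring
      rw [this, div_pow, div_mul_cancel₀]
      positivity
    have h2 : gam ^ 4 * (n : ℝ) ^ 2 ≤ (1 + ε) * ratio n 4 ^ 4 := by
      have := mul_le_mul_of_nonneg_right hp2.le (by positivity : (0 : ℝ) ≤ (n : ℝ) ^ 2)
      calc gam ^ 4 * (n : ℝ) ^ 2 ≤ _ := this
        _ = (1 + ε) * ((ratio n 4 / Real.sqrt n) ^ 4 * (n : ℝ) ^ 2) := by ring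
        _ = _ := by rw [h1]
    have h3 : (1 + ε) ^ 2 ≤ (1 + ε) ^ 4 := pow_le_pow_right₀ (by linarith) (by norm_num)
    calc (1 + ε) * gam ^ 4 * n ^ 2 = (1 + ε) * (gam ^ 4 * n ^ 2) := by ring
      _ ≤ (1 + ε) * ((1 + ε) * ratio n 4 ^ 4) := mul_le_mul_of_nonneg_left h2 (by positivity)
      _ = (1 + ε) ^ 2 * ratio n 4 ^ 4 := by ring
      _ ≤ (1 + ε) ^ 4 * ratio n 4 ^ 4 := mul_le_mul_of_nonneg_right h3 (by positivity)
      _ = K ^ 4 := by rw [hK]; ring
  -- the transform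
  set g : ℂ → ℂ := 𝓕 (⇑f) with hg
  have hgS : g = ⇑(𝓕 f : 𝓢(ℂ, ℂ)) := by rw [hg, ← SchwartzMap.fourier_coe]
  have hgc : Continuous g := by rw [hgS]; exact (𝓕 f : 𝓢(ℂ, ℂ)).continuous
  have hgi : Integrable g := by rw [hgS]; exact (𝓕 f : 𝓢(ℂ, ℂ)).integrable
  have hg2 : MemLp g 2 volume := by rw [hgS]; exact (𝓕 f : 𝓢(ℂ, ℂ)).memLp 2
  obtain ⟨e, he0, heR⟩ := err4 hL hF hgc hgi hg2
  have hle : ∀ R : ℕ, eLpNorm (iF (mg n (cut (bd (-(R : ℤ)) R) g))) 4 volume ≤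
      ENNReal.ofReal K * (eLpNorm f 4 volume + e R) := by
    intro R
    set h := cut (bd (-(R : ℤ)) R) g with hh
    have hcc : CC h := cutcc hF hgc _ _
    have hz0 : Z0 h := bd_z0 hF g R
    have hmcc : CC (mg n h) := (hF.2.2.2.2.2.1 h n hnn3 hcc hz0).1
    have hb1 := hB.1 _ hcc
    have hb2 := hB.1 _ hmcc
    have h1 : eLpNorm (iF (mg n h)) 4 volume ≤ ENNReal.ofReal K * eLpNorm (iF h) 4 volume := by
      rw [eLp_four hb1.1.aestronglyMeasurable hb1.2.2.2.1,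
        eLp_four hb2.1.aestronglyMeasurable hb2.2.2.2.1, ← ENNReal.ofReal_mul hK0.le]
      refine ENNReal.ofReal_le_ofReal ?_
      have h2 : ∫ x, ‖iF (mg n h) x‖ ^ 4 ≤ K ^ 4 * ∫ x, ‖iF h x‖ ^ 4 := by
        have h3 := hn₁ n hnn1 h hcc hz0
        unfold N4 at h3
        refine h3.trans (mul_le_mul_of_nonneg_right hKK (integral_nonneg fun _ => by positivity))
      calc (∫ x, ‖iF (mg n h) x‖ ^ 4) ^ ((1 : ℝ) / 4)
          ≤ (K ^ 4 * ∫ x, ‖iF h x‖ ^ 4) ^ ((1 : ℝ) / 4) :=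
            Real.rpow_le_rpow (integral_nonneg fun _ => by positivity) h2 (by norm_num)
        _ = (K ^ 4) ^ ((1 : ℝ) / 4) * (∫ x, ‖iF h x‖ ^ 4) ^ ((1 : ℝ) / 4) :=
            Real.mul_rpow (by positivity) (integral_nonneg fun _ => by positivity)
        _ = K * (∫ x, ‖iF h x‖ ^ 4) ^ ((1 : ℝ) / 4) := by
            congr 1
            have h5 : (1 : ℝ) / 4 = ((4 : ℕ) : ℝ)⁻¹ := by norm_num
            rw [h5, Real.pow_rpow_inv_natCast hK0.le (by norm_num)]
    have h6 : eLpNorm (iF h) 4 volume ≤ eLpNorm f 4 volume + e R := by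
      have h7 : iF h = (fun x => f x) + iF (fun ζ => h ζ - g ζ) := by
        ext x
        rw [Pi.add_apply, iF_sub (hcc.1.integrable_of_hasCompactSupport hcc.2) hgi, f_iF f x]
        ring
      have hm : AEStronglyMeasurable (iF (fun ζ => h ζ - g ζ)) volume := by
        have h8 : iF (fun ζ => h ζ - g ζ) = fun x => iF h x - f x := by
          ext x
          rw [iF_sub (hcc.1.integrable_of_hasCompactSupport hcc.2) hgi, f_iF f x]
        rw [h8]
        exact (hb1.1.sub f.continuous).aestronglyMeasurable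
      rw [h7]
      refine (eLpNorm_add_le f.continuous.aestronglyMeasurable hm (by norm_num)).trans ?_
      exact add_le_add le_rfl (heR R)
    exact h1.trans (mul_le_mul_right h6 _)
  have hfat : eLpNorm (Tn n f) 4 volume ≤
      atTop.liminf fun R : ℕ => eLpNorm (iF (mg n (cut (bd (-(R : ℤ)) R) g))) 4 volume := by
    refine Lp.eLpNorm_lim_le_liminf_eLpNorm (fun R => ?_) _ (Eventually.of_forall fun x => ?_)
    · have hcc : CC (cut (bd (-(R : ℤ)) R) g) := cutcc hF hgc _ _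
      have hmcc := (hF.2.2.2.2.2.1 _ n hnn3 hcc (bd_z0 hF g R)).1
      exact (hB.1 _ hmcc).1.aestronglyMeasurable
    · rw [Tn_iF]
      exact tend_iF hF n hgc hgi x
  refine hfat.trans ?_
  have hlim : Tendsto (fun R : ℕ => ENNReal.ofReal K * (eLpNorm f 4 volume + e R)) atTop
      (𝓝 (ENNReal.ofReal K * (eLpNorm f 4 volume + 0))) := by
    refine ENNReal.Tendsto.const_mul (tendsto_const_nhds.add he0) (Or.inr ENNReal.ofReal_ne_top)
  rw [add_zero] at hlim
  rw [← hlim.liminf_eq]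
  exact liminf_le_liminf (Eventually.of_forall hle)

end Pool.Agent.Lib.MP_dd244f_an.Four
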