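import Pool.Agent.Lib.MP_dd244f_an.Four.Basic

/-!
Gaussian averages of separated frequencies.
-/

set_option autoImplicit false

namespace Pool.Agent.Lib.MP_dd244f_an.Four

open MeasureTheory Filter Topology Finset
open Pool.Agent.Lib.MP_dd244f_an.Joint (st ct Mst)

namespace GTAux

/-- the cutoff `1 - ct c`, complex valued -/
noncomputable def ph (c : ℝ) (z : ℂ) : ℂ := ((1 - ct c z : ℝ) : ℂ)

theorem ct_scale (c : ℝ) (z : ℂ) : ct c z = ct 1 (c⁻¹ • z) := by
  unfold ct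
  congr 1
  rw [Complex.real_smul, Complex.normSq_mul, Complex.normSq_ofReal]
  rw [one_pow, div_one, div_eq_inv_mul, sq, mul_inv]

theorem ph_scale (c : ℝ) : ph c = fun z => ph 1 (c⁻¹ • z) := by
  funext z
  unfold ph
  rw [ct_scale]

theorem ct_contDiff (c : ℝ) : ContDiff ℝ 2 (ct c) := by
  unfold ct
  have h1 : ContDiff ℝ 2 (fun ζ : ℂ => Complex.normSq ζ / c ^ 2) := by
    have h2 : (fun ζ : ℂ => Complex.normSq ζ / c ^ 2) = fun ζ : ℂ => ‖ζ‖ ^ 2 / c ^ 2 := by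
      funext ζ
      rw [Complex.normSq_eq_norm_sq]
    rw [h2]
    exact (contDiff_norm_sq ℝ).div_const _
  exact (Joint.st_contDiff (k := 2)).comp h1

theorem ph_contDiff (c : ℝ) : ContDiff ℝ 2 (ph c) := by
  unfold ph
  exact Complex.ofRealCLM.contDiff.comp (contDiff_const.sub (ct_contDiff c))

theorem ct_zero {c : ℝ} (hc : 0 < c) {z : ℂ} (h : ‖z‖ ≤ c) : ct c z = 0 := by
  unfold ct
  apply Joint.st_zero
  rw [Complex.normSq_eq_norm_sq, div_le_one (by positivity)]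
  gcongr

theorem ct_one {c : ℝ} (hc : 0 < c) {z : ℂ} (h : 2 * c ^ 2 ≤ ‖z‖ ^ 2) : ct c z = 1 := by
  unfold ct
  apply Joint.st_one
  rwa [Complex.normSq_eq_norm_sq, le_div_iff₀ (by positivity)]

theorem ph_cs {c : ℝ} (hc : 0 < c) : HasCompactSupport (ph c) := by
  apply HasCompactSupport.intro (isCompact_closedBall (0 : ℂ) (2 * c))
  intro z hz
  rw [Metric.mem_closedBall, dist_zero_right, not_le] at hz
  unfold ph
  rw [ct_one hc]
  · simp
  · nlinarith

theorem ph_norm_le (c : ℝ) (z : ℂ) : ‖ph c z‖ ≤ 1 := by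
  unfold ph ct
  rw [Complex.norm_real, Real.norm_eq_abs, abs_of_nonneg]
  · linarith [Joint.st_nonneg (Complex.normSq z / c ^ 2)]
  · linarith [Joint.st_le_one (Complex.normSq z / c ^ 2)]

theorem one_sub_ph (c : ℝ) (z : ℂ) : 1 - ph c z = ((ct c z : ℝ) : ℂ) := by
  unfold ph
  push_cast
  ring

theorem cont_lap {f : ℂ → ℂ} (hf : ContDiff ℝ 2 f) : Continuous (lap f) := by
  have h1 : ContDiff ℝ 1 (fderiv ℝ f) := hf.fderiv_right (by norm_num)
  have h2 : ∀ v : ℂ, Continuous fun δ => fderiv ℝ (fun z => fderiv ℝ f z v) δ v := by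
    intro v
    have h3 : ContDiff ℝ 1 fun z => fderiv ℝ f z v := h1.clm_apply contDiff_const
    exact (h3.continuous_fderiv (by norm_num)).clm_apply continuous_const
  unfold lap
  exact (h2 1).add (h2 Complex.I)

theorem cs_lap {f : ℂ → ℂ} (hf : HasCompactSupport f) : HasCompactSupport (lap f) := by
  unfold lap
  have h : ∀ v : ℂ, HasCompactSupport fun δ => fderiv ℝ (fun z => fderiv ℝ f z v) δ v := fun v =>
    (hf.fderiv_apply (𝕜 := ℝ) v).fderiv_apply (𝕜 := ℝ) v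
  exact (h 1).add (h Complex.I)

theorem exists_C1 : ∃ C : ℝ, 0 ≤ C ∧ ∀ z, ‖fderiv ℝ (ph 1) z‖ ≤ C ∧ ‖lap (ph 1) z‖ ≤ C := by
  have hs := ph_cs one_pos
  have hc := ph_contDiff 1
  obtain ⟨A, hA⟩ := (hc.continuous_fderiv (by norm_num)).bounded_above_of_compact_support
    (hs.fderiv (𝕜 := ℝ))
  obtain ⟨B, hB⟩ := (cont_lap hc).bounded_above_of_compact_support (cs_lap hs)
  refine ⟨max 0 (max A B), le_max_left _ _, fun z => ⟨?_, ?_⟩⟩
  · exact (hA z).trans ((le_max_left _ _).trans (le_max_right _ _))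
  · exact (hB z).trans ((le_max_right _ _).trans (le_max_right _ _))

theorem lap_scale (f : ℂ → ℂ) (k : ℝ) (δ : ℂ) :
    lap (fun z => f (k • z)) δ = (k ^ 2) • lap f (k • δ) := by
  have h1 : ∀ z, fderiv ℝ (fun z => f (k • z)) z = k • fderiv ℝ f (k • z) := fun z =>
    fderiv_comp_smul (f := f) (x := z) k
  have h2 : ∀ v : ℂ, fderiv ℝ (fun z => fderiv ℝ (fun z => f (k • z)) z v) δ v =
      (k ^ 2) • fderiv ℝ (fun z => fderiv ℝ f z v) (k • δ) v := by
    intro v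
    have h3 : (fun z => fderiv ℝ (fun z => f (k • z)) z v) =
        (fun z => (fun w => k • fderiv ℝ f w v) (k • z)) := by
      funext z
      rw [h1]
      rfl
    rw [h3, fderiv_comp_smul (f := fun w => k • fderiv ℝ f w v) (x := δ) k]
    have h4 : fderiv ℝ (fun w => k • fderiv ℝ f w v) (k • δ) =
        k • fderiv ℝ (fun w => fderiv ℝ f w v) (k • δ) := by
      exact congrFun (fderiv_const_smul_field (𝕜 := ℝ) (f := fun w => fderiv ℝ f w v) k) (k • δ)
    rw [h4, _root_.smul_apply, _root_.smul_apply, smul_smul, sq]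
  unfold lap
  rw [h2, h2, smul_add]

theorem ph_fderiv {C : ℝ} (hC : ∀ z, ‖fderiv ℝ (ph 1) z‖ ≤ C ∧ ‖lap (ph 1) z‖ ≤ C) {c : ℝ}
    (hc : 0 < c) (z : ℂ) : ‖fderiv ℝ (ph c) z‖ ≤ C / c ∧ ‖lap (ph c) z‖ ≤ C / c ^ 2 := by
  rw [ph_scale c]
  constructor
  · have : fderiv ℝ (fun z => ph 1 (c⁻¹ • z)) z = c⁻¹ • fderiv ℝ (ph 1) (c⁻¹ • z) :=
      fderiv_comp_smul (f := ph 1) (x := z) c⁻¹
    rw [this, norm_smul, norm_inv, Real.norm_of_nonneg hc.le, div_eq_inv_mul]
    exact mul_le_mul_of_nonneg_left (hC _).1 (by positivity)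
  · rw [lap_scale, norm_smul, norm_pow, norm_inv, Real.norm_of_nonneg hc.le, inv_pow,
      div_eq_inv_mul]
    exact mul_le_mul_of_nonneg_left (hC _).2 (by positivity)

/-- the Gaussian -/
noncomputable def Ga (r : ℝ) (z : ℂ) : ℂ := ((Real.exp (-(r * ‖z‖ ^ 2)) : ℝ) : ℂ)

theorem Ga_contDiff (r : ℝ) : ContDiff ℝ 2 (Ga r) := by
  unfold Ga
  refine Complex.ofRealCLM.contDiff.comp (Real.contDiff_exp.comp ?_)
  exact (contDiff_const.mul (contDiff_norm_sq ℝ)).neg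

theorem Ga_norm (r : ℝ) (z : ℂ) : ‖Ga r z‖ = Real.exp (-(r * ‖z‖ ^ 2)) := by
  unfold Ga
  rw [Complex.norm_real, Real.norm_eq_abs, Real.abs_exp]

end GTAux

open GTAux in
theorem gt (hB : StmtBilPt) (hL : StmtLap) : StmtGT := by
  obtain ⟨C₁, hC₁0, hC₁⟩ := exists_C1
  set C₂ : ℝ := 6 + (C₁ + 2 * C₁ ^ 2) + 16 * C₁ with hC₂
  have hC₂0 : 0 < C₂ := by positivity
  have hpi := Real.pi_pos
  have hpi3 := Real.pi_gt_three
  refine ⟨C₂ ^ 2 * Real.pi, by positivity, ?_⟩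
  intro σ ρ g h θ hσ hσρ hg hh hsep
  have hρ : 0 < ρ := by
    by_contra hneg
    push Not at hneg
    nlinarith
  obtain ⟨hpt, hOm0, -⟩ := hB σ g h hσ hg hh
  -- radius of the support of `g`
  obtain ⟨R₀, hR₀⟩ : ∃ R₀ : ℝ, ∀ ζ, g ζ ≠ 0 → ‖ζ‖ ≤ R₀ := by
    obtain ⟨R₀, hR₀⟩ := hg.2.isCompact.isBounded.exists_norm_le
    exact ⟨R₀, fun ζ hζ => hR₀ ζ (subset_tsupport g hζ)⟩
  set R : ℝ := max ρ (R₀ + ‖θ‖) with hR
  have hRρ : ρ ≤ R := le_max_left _ _
  have hRpos : 0 < R := lt_of_lt_of_le hρ hRρ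
  set c : ℝ := ρ / Real.sqrt 2 with hcd
  have hs2 : 0 < Real.sqrt 2 := by positivity
  have hs2' : Real.sqrt 2 ^ 2 = 2 := Real.sq_sqrt (by norm_num)
  have hc : 0 < c := by positivity
  have hc2 : 2 * c ^ 2 = ρ ^ 2 := by
    rw [hcd, div_pow, hs2']
    ring
  have hcR : c ≤ R := by
    refine le_trans ?_ hRρ
    rw [hcd, div_le_iff₀ hs2]
    have : 1 ≤ Real.sqrt 2 := by
      rw [Real.one_le_sqrt]
      norm_num
    nlinarith
  -- the symbol
  set r : ℝ := 2 * Real.pi * σ ^ 2 with hr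
  have hr0 : 0 < r := by positivity
  set χ : ℂ → ℂ := fun z => (1 - ph c z) * ph R z with hχ
  set a : ℂ → ℂ := fun z => Ga r z * χ z with ha
  have h1c : ContDiff ℝ 2 (fun z => 1 - ph c z) := contDiff_const.sub (ph_contDiff c)
  have hχc : ContDiff ℝ 2 χ := h1c.mul (ph_contDiff R)
  have hac : ContDiff ℝ 2 a := (Ga_contDiff r).mul hχc
  have has : HasCompactSupport a := (ph_cs hRpos).mul_left.mul_left
  -- bounds for the cutoff
  have e1 : ∀ z, ‖1 - ph c z‖ ≤ 1 := by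
    intro z
    rw [one_sub_ph, Complex.norm_real, Real.norm_eq_abs, abs_of_nonneg]
    · exact Joint.st_le_one _
    · exact Joint.st_nonneg _
  have e2 : ∀ z, fderiv ℝ (fun z => 1 - ph c z) z = -fderiv ℝ (ph c) z := by
    intro z
    rw [fderiv_const_sub]
  have e3 : ∀ z, lap (fun z => 1 - ph c z) z = -lap (ph c) z := by
    intro z
    unfold lap
    simp only [fderiv_const_sub, _root_.neg_apply]
    have : ∀ v : ℂ, fderiv ℝ (fun z => -(fderiv ℝ (ph c) z v)) z =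
        -fderiv ℝ (fun z => fderiv ℝ (ph c) z v) z := fun v => fderiv_fun_neg
    rw [this, this]
    simp only [_root_.neg_apply]
    ring
  have b1 : ∀ z, ‖χ z‖ ≤ 1 := by
    intro z
    simp only [hχ]
    rw [norm_mul]
    exact mul_le_one₀ (e1 z) (norm_nonneg _) (ph_norm_le R z)
  have hRc : C₁ / R ≤ C₁ / c := by gcongr
  have hRc2 : C₁ / R ^ 2 ≤ C₁ / c ^ 2 := by gcongr
  have b2 : ∀ z, ‖fderiv ℝ χ z‖ ≤ 2 * (C₁ / c) := by
    intro z
    have h0 := (hL.1 _ _ h1c (ph_contDiff R) z).2.1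
    refine h0.trans ?_
    rw [e2, norm_neg]
    have k1 := (ph_fderiv hC₁ hc z).1
    have k2 := (ph_fderiv hC₁ hRpos z).1
    have := mul_le_mul (e1 z) (k2.trans hRc) (norm_nonneg _) zero_le_one
    have := mul_le_mul (ph_norm_le R z) k1 (norm_nonneg _) zero_le_one
    linarith
  have b3 : ∀ z, ‖lap χ z‖ ≤ 2 * (C₁ / c ^ 2) + 4 * (C₁ / c) * (C₁ / c) := by
    intro z
    have h0 := (hL.1 _ _ h1c (ph_contDiff R) z).2.2
    refine h0.trans ?_
    rw [e2, norm_neg, e3, norm_neg]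
    have k1 := ph_fderiv hC₁ hc z
    have k2 := ph_fderiv hC₁ hRpos z
    have m1 := mul_le_mul (e1 z) (k2.2.trans hRc2) (norm_nonneg _) zero_le_one
    have m2 := mul_le_mul (ph_norm_le R z) k1.2 (norm_nonneg _) zero_le_one
    have m3 : 4 * ‖fderiv ℝ (ph c) z‖ * ‖fderiv ℝ (ph R) z‖ ≤ 4 * (C₁ / c) * (C₁ / c) := by
      have := mul_le_mul k1.1 (k2.1.trans hRc) (norm_nonneg _) (by positivity)
      linarith
    linarith
  have hcσ : 1 / c ≤ 2 * σ := by
    rw [hcd, one_div_div, div_le_iff₀ hρ]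
    have : Real.sqrt 2 ≤ 2 := by
      rw [Real.sqrt_le_left (by norm_num)]
      norm_num
    nlinarith
  have hcσ2 : 1 / c ^ 2 ≤ 2 * σ ^ 2 := by
    have : c ^ 2 = ρ ^ 2 / 2 := by linarith
    rw [this, one_div_div, div_le_iff₀ (by positivity)]
    have : 1 ≤ (σ * ρ) ^ 2 := one_le_pow₀ hσρ
    nlinarith
  -- pointwise bound
  set b : ℂ → ℂ := fun δ => a δ - lap a δ / ((4 * Real.pi ^ 2 * σ ^ 2 : ℝ) : ℂ) with hb
  have pt : ∀ δ, ‖b δ‖ ^ 2 ≤ C₂ ^ 2 * Real.exp (-(σ ^ 2 * ρ ^ 2)) *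
      Real.exp (-(σ ^ 2) * ‖δ‖ ^ 2) := by
    intro δ
    rcases lt_or_ge ‖δ‖ c with hδ | hδ
    · -- `a` vanishes near `δ`
      have hev : a =ᶠ[𝓝 δ] fun _ => 0 := by
        filter_upwards [(isOpen_lt continuous_norm continuous_const).mem_nhds hδ] with z hz
        have hz' : ct c z = 0 := ct_zero hc (le_of_lt hz)
        simp only [ha, hχ]
        rw [one_sub_ph, hz']
        simp
      have hl : lap a δ = 0 := by
        have h2 : ∀ v : ℂ, fderiv ℝ (fun z => fderiv ℝ a z v) δ = 0 := by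
          intro v
          have h3 : (fun z => fderiv ℝ a z v) =ᶠ[𝓝 δ] fun _ => 0 := by
            filter_upwards [hev.fderiv (𝕜 := ℝ)] with z hz
            rw [hz]
            simp
          rw [h3.fderiv_eq]
          simp
        unfold lap
        rw [h2, h2]
        simp
      have hb0 : b δ = 0 := by
        simp only [hb]
        rw [hev.eq_of_nhds, hl]
        simp
      rw [hb0, norm_zero, zero_pow two_ne_zero]
      positivity
    · set G := Real.exp (-(r * ‖δ‖ ^ 2)) with hG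
      have hG0 : 0 < G := Real.exp_pos _
      have hGn : ‖Ga r δ‖ = G := Ga_norm r δ
      obtain ⟨hg1, hg2⟩ := hL.2.2.1 r δ hr0
      have hg1' : ‖lap (Ga r) δ‖ ≤ (4 * r ^ 2 * ‖δ‖ ^ 2 + 4 * r) * G := by
        have : lap (Ga r) δ = (((4 * r ^ 2 * ‖δ‖ ^ 2 - 4 * r) *
          Real.exp (-(r * ‖δ‖ ^ 2)) : ℝ) : ℂ) := hg1
        rw [this, Complex.norm_real, norm_mul, Real.norm_eq_abs, Real.norm_eq_abs, Real.abs_exp]
        refine mul_le_mul_of_nonneg_right ?_ hG0.le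
        rw [abs_le]
        constructor <;> nlinarith [sq_nonneg (r * ‖δ‖)]
      have hg2' : ‖fderiv ℝ (Ga r) δ‖ ≤ 2 * r * ‖δ‖ * G := hg2
      have hprod := (hL.1 _ _ (Ga_contDiff r) hχc δ).2.2
      have hlapa : ‖lap a δ‖ ≤ G * (2 * (C₁ / c ^ 2) + 4 * (C₁ / c) * (C₁ / c)) +
          (4 * r ^ 2 * ‖δ‖ ^ 2 + 4 * r) * G + 4 * (2 * r * ‖δ‖ * G) * (2 * (C₁ / c)) := by
        refine hprod.trans ?_
        rw [hGn]
        have m1 := mul_le_mul_of_nonneg_left (b3 δ) hG0.le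
        have m2 : ‖χ δ‖ * ‖lap (Ga r) δ‖ ≤ (4 * r ^ 2 * ‖δ‖ ^ 2 + 4 * r) * G := by
          have := mul_le_mul (b1 δ) hg1' (norm_nonneg _) zero_le_one
          linarith
        have m3 : 4 * ‖fderiv ℝ (Ga r) δ‖ * ‖fderiv ℝ χ δ‖ ≤
            4 * (2 * r * ‖δ‖ * G) * (2 * (C₁ / c)) := by
          have := mul_le_mul hg2' (b2 δ) (norm_nonneg _) (by positivity)
          linarith
        linarith
      set x := σ * ‖δ‖ with hx
      have hx0 : 0 ≤ x := by positivity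
      have hbn : ‖b δ‖ ≤ C₂ * (1 + x ^ 2) * G := by
        have h0 : ‖b δ‖ ≤ ‖a δ‖ + ‖lap a δ‖ / (4 * Real.pi ^ 2 * σ ^ 2) := by
          simp only [hb]
          refine (norm_sub_le _ _).trans (le_of_eq ?_)
          rw [norm_div, Complex.norm_real, Real.norm_of_nonneg (by positivity)]
        have h1 : ‖a δ‖ ≤ G := by
          simp only [ha]
          rw [norm_mul, hGn]
          have := mul_le_mul_of_nonneg_left (b1 δ) hG0.le
          linarith
        have hD : 0 < 4 * Real.pi ^ 2 * σ ^ 2 := by positivity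
        have hlapa' : ‖lap a δ‖ ≤ (4 * Real.pi ^ 2 * σ ^ 2) *
            (((C₁ + 2 * C₁ ^ 2) + 4 * x ^ 2 + 1 + 16 * C₁ * x) * G) := by
          refine hlapa.trans ?_
          have t1 : 2 * (C₁ / c ^ 2) + 4 * (C₁ / c) * (C₁ / c) ≤
              (4 * Real.pi ^ 2 * σ ^ 2) * (C₁ + 2 * C₁ ^ 2) := by
            have s1 : 2 * (C₁ / c ^ 2) + 4 * (C₁ / c) * (C₁ / c) =
                (2 * C₁ + 4 * C₁ ^ 2) * (1 / c ^ 2) := by
              field_simp
            rw [s1]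
            calc (2 * C₁ + 4 * C₁ ^ 2) * (1 / c ^ 2) ≤ (2 * C₁ + 4 * C₁ ^ 2) * (2 * σ ^ 2) := by
                  gcongr
              _ = (4 * σ ^ 2) * (C₁ + 2 * C₁ ^ 2) := by ring
              _ ≤ (4 * Real.pi ^ 2 * σ ^ 2) * (C₁ + 2 * C₁ ^ 2) := by
                  gcongr
                  nlinarith
          have t2 : 4 * r ^ 2 * ‖δ‖ ^ 2 + 4 * r ≤
              (4 * Real.pi ^ 2 * σ ^ 2) * (4 * x ^ 2 + 1) := by
            rw [hr, hx]
            have : 4 * (2 * Real.pi * σ ^ 2) ^ 2 * ‖δ‖ ^ 2 + 4 * (2 * Real.pi * σ ^ 2) =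
                (4 * Real.pi ^ 2 * σ ^ 2) * (4 * (σ * ‖δ‖) ^ 2) + 8 * Real.pi * σ ^ 2 := by ring
            rw [this]
            have : 8 * Real.pi * σ ^ 2 ≤ 4 * Real.pi ^ 2 * σ ^ 2 := by
              have : 8 * Real.pi ≤ 4 * Real.pi ^ 2 := by nlinarith
              gcongr
            linarith
          have t3 : 4 * (2 * r * ‖δ‖) * (2 * (C₁ / c)) ≤
              (4 * Real.pi ^ 2 * σ ^ 2) * (16 * C₁ * x) := by
            have s1 : 4 * (2 * r * ‖δ‖) * (2 * (C₁ / c)) =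
                (16 * r * ‖δ‖ * C₁) * (1 / c) := by ring
            rw [s1]
            calc (16 * r * ‖δ‖ * C₁) * (1 / c) ≤ (16 * r * ‖δ‖ * C₁) * (2 * σ) := by gcongr
              _ = (4 * Real.pi * σ ^ 2) * (16 * C₁ * (σ * ‖δ‖)) := by rw [hr]; ring
              _ ≤ (4 * Real.pi ^ 2 * σ ^ 2) * (16 * C₁ * (σ * ‖δ‖)) := by
                  gcongr
                  nlinarith
          have u1 := mul_le_mul_of_nonneg_left t1 hG0.le
          have u2 := mul_le_mul_of_nonneg_left t2 hG0.le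
          have u3 := mul_le_mul_of_nonneg_left t3 hG0.le
          linarith
        have h2 : ‖lap a δ‖ / (4 * Real.pi ^ 2 * σ ^ 2) ≤
            (((C₁ + 2 * C₁ ^ 2) + 4 * x ^ 2 + 1 + 16 * C₁ * x) * G) := by
          rw [div_le_iff₀ hD]
          linarith
        have h3 : 1 + ((C₁ + 2 * C₁ ^ 2) + 4 * x ^ 2 + 1 + 16 * C₁ * x) ≤ C₂ * (1 + x ^ 2) := by
          have hx1 : x ≤ 1 + x ^ 2 := by nlinarith [sq_nonneg (x - 1)]
          have hx2 : 0 ≤ x ^ 2 := sq_nonneg x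
          have := mul_le_mul_of_nonneg_left hx1 hC₁0
          rw [hC₂]
          nlinarith [mul_nonneg hC₁0 hx2, mul_nonneg (sq_nonneg C₁) hx2]
        calc ‖b δ‖ ≤ G + ((C₁ + 2 * C₁ ^ 2) + 4 * x ^ 2 + 1 + 16 * C₁ * x) * G := by linarith
          _ = (1 + ((C₁ + 2 * C₁ ^ 2) + 4 * x ^ 2 + 1 + 16 * C₁ * x)) * G := by ring
          _ ≤ _ := by gcongr
      have h4 : (1 + x ^ 2) ≤ Real.exp (x ^ 2) := by
        have := Real.add_one_le_exp (x ^ 2)
        linarith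
      have h5 : ‖b δ‖ ≤ C₂ * (Real.exp (x ^ 2) * G) := by
        refine hbn.trans ?_
        rw [mul_assoc]
        gcongr
      have h6 : ‖b δ‖ ^ 2 ≤ C₂ ^ 2 * (Real.exp (x ^ 2) * G) ^ 2 := by
        have := pow_le_pow_left₀ (norm_nonneg _) h5 2
        rwa [mul_pow] at this
      refine h6.trans ?_
      rw [mul_assoc]
      refine mul_le_mul_of_nonneg_left ?_ (by positivity)
      rw [hG, ← Real.exp_add, ← Real.exp_nat_mul, ← Real.exp_add]
      apply Real.exp_le_exp.2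
      have h7 : σ ^ 2 * ρ ^ 2 ≤ 2 * x ^ 2 := by
        rw [hx, mul_pow, ← hc2]
        have : c ^ 2 ≤ ‖δ‖ ^ 2 := by gcongr
        nlinarith [sq_nonneg σ]
      rw [hr]
      push_cast
      have h8 : σ ^ 2 * ‖δ‖ ^ 2 = x ^ 2 := by rw [hx]; ring
      have h9 : 0 ≤ x ^ 2 := sq_nonneg x
      nlinarith
  -- integral
  have hint : Integrable (fun δ : ℂ => C₂ ^ 2 * Real.exp (-(σ ^ 2 * ρ ^ 2)) *
      Real.exp (-(σ ^ 2) * ‖δ‖ ^ 2)) := by
    have h0 : Integrable (fun θ : ℂ => Real.exp (-(σ ^ 2) * ‖θ‖ ^ 2)) :=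
      GaussianFourier.integrable_cexp_neg_mul_sq_norm_add (V := ℂ) (b := ((σ ^ 2 : ℝ) : ℂ))
        (by rw [Complex.ofReal_re]; positivity) 0 0 |>.norm.congr
        (Eventually.of_forall fun θ => by
          simp only [Complex.norm_exp]
          congr 1
          have : (-((σ ^ 2 : ℝ) : ℂ) * (‖θ‖ : ℂ) ^ 2 + 0 * ((inner ℝ (0 : ℂ) θ : ℝ) : ℂ)) =
            ((-(σ ^ 2) * ‖θ‖ ^ 2 : ℝ) : ℂ) := by push_cast; ring
          rw [this, Complex.ofReal_re])
    exact h0.const_mul _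
  have hval : ∫ δ : ℂ, C₂ ^ 2 * Real.exp (-(σ ^ 2 * ρ ^ 2)) * Real.exp (-(σ ^ 2) * ‖δ‖ ^ 2) =
      C₂ ^ 2 * Real.exp (-(σ ^ 2 * ρ ^ 2)) * (Real.pi / σ ^ 2) := by
    rw [integral_const_mul]
    congr 1
    have := GaussianFourier.integral_rexp_neg_mul_sq_norm (V := ℂ) (b := σ ^ 2) (by positivity)
    rw [this, Complex.finrank_real_complex]
    norm_num
  have hI : ∫ δ, ‖b δ‖ ^ 2 ≤ C₂ ^ 2 * Real.exp (-(σ ^ 2 * ρ ^ 2)) * (Real.pi / σ ^ 2) := by
    rw [← hval]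
    exact integral_mono_of_nonneg (Eventually.of_forall fun δ => by positivity) hint
      (Eventually.of_forall pt)
  -- `As` is the bilinear form with symbol `a`
  have hAs : As σ g h θ = bil a g h θ := by
    unfold As bil
    congr 1
    ext δ
    by_cases hz : g (θ / 2 + δ) * h (θ / 2 - δ) = 0
    · rw [hz]
      simp
    · have hg' : g (θ / 2 + δ) ≠ 0 := left_ne_zero_of_mul hz
      have hh' : h (θ / 2 - δ) ≠ 0 := right_ne_zero_of_mul hz
      have hd := hsep δ hg' hh'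
      have k1 : ct c δ = 1 := by
        apply ct_one hc
        rw [hc2]
        gcongr
      have k2 : ct R δ = 0 := by
        apply ct_zero hRpos
        have h1 := hR₀ _ hg'
        have h2 : ‖δ‖ ≤ ‖θ / 2 + δ‖ + ‖θ / 2‖ := by
          have : δ = (θ / 2 + δ) - θ / 2 := by ring
          calc ‖δ‖ = ‖(θ / 2 + δ) - θ / 2‖ := by rw [← this]
            _ ≤ _ := norm_sub_le _ _
        have h3 : ‖θ / 2‖ ≤ ‖θ‖ := by
          rw [norm_div, Complex.norm_ofNat]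
          linarith [norm_nonneg θ]
        exact (h2.trans (by linarith)).trans (le_max_right _ _)
      have k3 : a δ = (Real.exp (-(2 * Real.pi * σ ^ 2 * ‖δ‖ ^ 2)) : ℂ) := by
        simp only [ha, hχ]
        rw [one_sub_ph, k1]
        unfold ph Ga
        rw [k2]
        simp only [hr]
        push_cast
        ring
      rw [k3]
  rw [hAs]
  refine (hpt θ a hac has).trans ?_
  have := mul_le_mul_of_nonneg_right hI (hOm0 θ)
  refine this.trans (le_of_eq ?_)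
  ring

end Pool.Agent.Lib.MP_dd244f_an.Four
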