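import Pool.Agent.Lib.MP_dd244f_an.Four.Basic

/-!
Full operator, `p = 4`: the sharp Hardy-Littlewood-Paley inequality in the plane.
-/

set_option autoImplicit false

namespace Pool.Agent.Lib.MP_dd244f_an.Four

open MeasureTheory Filter Topology
open scoped ENNReal Convolution

namespace HLPx

/-! ### Step 1: the square of the transform is the transform of the self-convolution -/

lemma iF_conv {h : ℂ → ℂ} (hh : Integrable h) (x : ℂ) :
    iF (h ⋆[ContinuousLinearMap.mul ℝ ℂ, volume] h) x = iF h x ^ 2 := by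
  have hf : Integrable (fun ζ => ch x ζ * h ζ) :=
    hh.bdd_mul (c := 1) (continuous_ch x).aestronglyMeasurable
      (Eventually.of_forall fun ζ => (norm_ch x ζ).le)
  have h1 := integral_convolution (μ := volume) (ν := volume) (ContinuousLinearMap.mul ℝ ℂ) hf hf
  rw [ContinuousLinearMap.mul_apply'] at h1
  have h2 : ∀ ζ, ((fun ζ => ch x ζ * h ζ) ⋆[ContinuousLinearMap.mul ℝ ℂ, volume]
      (fun ζ => ch x ζ * h ζ)) ζ = ch x ζ * (h ⋆[ContinuousLinearMap.mul ℝ ℂ, volume] h) ζ := by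
    intro ζ
    rw [convolution_def, convolution_def, ← integral_const_mul]
    congr 1
    ext t
    simp only [ContinuousLinearMap.mul_apply']
    have e : ch x ζ = ch x t * ch x (ζ - t) := by
      rw [← ch_add_right]; congr 1; ring
    rw [e]
    ring
  unfold iF
  rw [pow_two, ← h1]
  exact integral_congr_ae (Eventually.of_forall fun ζ => (h2 ζ).symm)

lemma enorm_conv_le (h : ℂ → ℂ) (η : ℂ) :
    ‖(h ⋆[ContinuousLinearMap.mul ℝ ℂ, volume] h) η‖ₑ ≤ ∫⁻ ζ, ‖h ζ‖ₑ * ‖h (η - ζ)‖ₑ := by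
  rw [convolution_def]
  refine (enorm_integral_le_lintegral_enorm _).trans (le_of_eq ?_)
  congr 1
  ext t
  rw [ContinuousLinearMap.mul_apply', enorm_mul]

lemma lint_sq {F : ℂ → ℂ} (h : MemLp F 2 volume) :
    ∫⁻ x, ‖F x‖ₑ ^ 2 = ENNReal.ofReal (∫ x, ‖F x‖ ^ 2) := by
  have h1 : Integrable (fun x => ‖F x‖ ^ 2) := (memLp_two_iff_integrable_sq_norm h.1).1 h
  rw [ofReal_integral_eq_lintegral_ofReal h1 (Eventually.of_forall fun x => by positivity)]
  congr 1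
  ext x
  rw [ENNReal.ofReal_pow (norm_nonneg _), ofReal_norm]

lemma step1 (hL : StmtL2) {h : ℂ → ℂ} (hh : Integrable h) :
    ∫⁻ x, ‖iF h x‖ₑ ^ 4 ≤ ∫⁻ η, (∫⁻ ζ, ‖h ζ‖ₑ * ‖h (η - ζ)‖ₑ) ^ 2 := by
  set k := h ⋆[ContinuousLinearMap.mul ℝ ℂ, volume] h with hk
  have hki : Integrable k := hh.integrable_convolution (ContinuousLinearMap.mul ℝ ℂ) hh
  by_cases hfin : ∫⁻ η, (∫⁻ ζ, ‖h ζ‖ₑ * ‖h (η - ζ)‖ₑ) ^ 2 = ∞
  · rw [hfin]
    exact le_top
  have h1 : ∫⁻ η, ‖k η‖ₑ ^ 2 ≤ ∫⁻ η, (∫⁻ ζ, ‖h ζ‖ₑ * ‖h (η - ζ)‖ₑ) ^ 2 := by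
    apply lintegral_mono
    intro η
    exact pow_le_pow_left' (enorm_conv_le h η) 2
  have hk2 : MemLp k 2 volume := by
    refine ⟨hki.1, ?_⟩
    rw [eLpNorm_lt_top_iff_lintegral_rpow_enorm_lt_top two_ne_zero ENNReal.ofNat_ne_top]
    simp only [ENNReal.toReal_ofNat, ENNReal.rpow_ofNat]
    exact h1.trans_lt (lt_top_iff_ne_top.2 hfin)
  obtain ⟨h2, h3⟩ := hL k hki hk2
  calc ∫⁻ x, ‖iF h x‖ₑ ^ 4 = ∫⁻ x, ‖iF k x‖ₑ ^ 2 := by
        congr 1
        ext x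
        rw [hk, iF_conv hh, enorm_pow, ← pow_mul]
    _ = ∫⁻ η, ‖k η‖ₑ ^ 2 := by rw [lint_sq h2, h3, ← lint_sq hk2]
    _ ≤ _ := h1

/-! ### Power weights -/

/-- the weight `|ζ|^s` -/
noncomputable def pw (s : ℝ) (ζ : ℂ) : ℝ≥0∞ := ENNReal.ofReal (‖ζ‖ ^ s)

lemma pw_meas (s : ℝ) : Measurable (pw s) := by
  unfold pw
  fun_prop

lemma pw_mul {s t : ℝ} {ζ : ℂ} (h : ζ ≠ 0) : pw s ζ * pw t ζ = pw (s + t) ζ := by
  unfold pw
  rw [← ENNReal.ofReal_mul (by positivity), ← Real.rpow_add (norm_pos_iff.2 h)]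

lemma pw_neg (s : ℝ) (ζ : ℂ) : pw s (-ζ) = pw s ζ := by
  unfold pw
  rw [norm_neg]

lemma ae_ne (c : ℂ) : ∀ᵐ ζ : ℂ, ζ ≠ c := compl_mem_ae_iff.2 (measure_singleton c)

lemma ae_ne' (η : ℂ) : ∀ᵐ ζ : ℂ, η - ζ ≠ 0 := by
  filter_upwards [ae_ne η] with ζ hζ
  exact sub_ne_zero.2 hζ.symm

lemma riesz1 (hR : StmtRiesz) {η : ℂ} (hη : η ≠ 0) :
    ∫⁻ ζ, pw (-(3 / 2)) ζ * pw (-1) (η - ζ) =
      ENNReal.ofReal (Real.pi * gam ^ 2) * pw (-(1 / 2)) η := by
  obtain ⟨h1, h2, -, -⟩ := hR η hη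
  have h3 := ofReal_integral_eq_lintegral_ofReal h1 (Eventually.of_forall fun x => by positivity)
  rw [h2, ENNReal.ofReal_mul (by positivity)] at h3
  unfold pw
  rw [h3]
  congr 1
  ext ζ
  rw [ENNReal.ofReal_mul (by positivity)]

lemma riesz2 (hR : StmtRiesz) {η : ℂ} (hη : η ≠ 0) :
    ∫⁻ ζ, pw (-(3 / 2)) ζ * pw (-(3 / 2)) (η - ζ) =
      ENNReal.ofReal (Real.pi * gam ^ 2) * pw (-1) η := by
  obtain ⟨-, -, h1, h2⟩ := hR η hη
  have h3 := ofReal_integral_eq_lintegral_ofReal h1 (Eventually.of_forall fun x => by positivity)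
  rw [h2, ENNReal.ofReal_mul (by positivity)] at h3
  unfold pw
  rw [h3]
  congr 1
  ext ζ
  rw [ENNReal.ofReal_mul (by positivity)]

/-- Cauchy-Schwarz -/
lemma cs {f g : ℂ → ℝ≥0∞} (hf : AEMeasurable f) (hg : AEMeasurable g) :
    (∫⁻ x, f x * g x) ^ 2 ≤ (∫⁻ x, f x ^ 2) * ∫⁻ x, g x ^ 2 := by
  have h := ENNReal.lintegral_mul_le_Lp_mul_Lq volume Real.HolderConjugate.two_two hf hg
  have h2 := pow_le_pow_left' h 2
  refine h2.trans (le_of_eq ?_)
  rw [mul_pow, ← ENNReal.rpow_natCast, ← ENNReal.rpow_natCast, ← ENNReal.rpow_mul,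
    ← ENNReal.rpow_mul]
  norm_num

/-- arithmetic-geometric mean -/
lemma amgm (x y : ℝ≥0∞) : 2 * (x * y) ≤ x ^ 2 + y ^ 2 := by
  by_cases hx : x = ∞
  · rw [hx]
    simp
  by_cases hy : y = ∞
  · rw [hy]
    simp
  lift x to NNReal using hx
  lift y to NNReal using hy
  have := two_mul_le_add_sq x y
  rw [mul_assoc] at this
  exact_mod_cast this

/-! ### Step 2 -/

/-- the density -/
noncomputable def XX (u : ℂ → ℝ≥0∞) (ζ : ℂ) : ℝ≥0∞ := pw (3 / 2) ζ * u ζ ^ 2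

lemma XX_meas {u : ℂ → ℝ≥0∞} (hu : Measurable u) : Measurable (XX u) :=
  (pw_meas _).mul (hu.pow_const 2)

lemma point1 (hR : StmtRiesz) {u : ℂ → ℝ≥0∞} (hu : Measurable u) {η : ℂ} (hη : η ≠ 0) :
    (∫⁻ ζ, u ζ * u (η - ζ)) ^ 2 ≤
      ENNReal.ofReal (Real.pi * gam ^ 2) * pw (-1) η * ∫⁻ ζ, XX u ζ * XX u (η - ζ) := by
  have hsub : Measurable (fun ζ : ℂ => η - ζ) := measurable_const.sub measurable_id
  have h1 : ∫⁻ ζ, u ζ * u (η - ζ) = ∫⁻ ζ, (pw (-(3 / 4)) ζ * pw (-(3 / 4)) (η - ζ)) *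
      (pw (3 / 4) ζ * pw (3 / 4) (η - ζ) * (u ζ * u (η - ζ))) := by
    apply lintegral_congr_ae
    filter_upwards [ae_ne 0, ae_ne' η] with ζ h3 h4
    have e1 := pw_mul (s := -(3 / 4)) (t := 3 / 4) h3
    have e2 := pw_mul (s := -(3 / 4)) (t := 3 / 4) h4
    have e3 : ∀ ζ : ℂ, pw (-(3 / 4) + 3 / 4) ζ = 1 := by
      intro ζ
      unfold pw
      rw [neg_add_cancel, Real.rpow_zero, ENNReal.ofReal_one]
    rw [e3] at e1 e2
    calc u ζ * u (η - ζ) = (pw (-(3 / 4)) ζ * pw (3 / 4) ζ) *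
          (pw (-(3 / 4)) (η - ζ) * pw (3 / 4) (η - ζ)) * (u ζ * u (η - ζ)) := by
          rw [e1, e2, one_mul, one_mul]
      _ = _ := by ring
  rw [h1]
  refine (cs ?_ ?_).trans (le_of_eq ?_)
  · exact ((pw_meas _).mul ((pw_meas _).comp hsub)).aemeasurable
  · exact (((pw_meas _).mul ((pw_meas _).comp hsub)).mul
      (hu.mul (hu.comp hsub))).aemeasurable
  · congr 1
    · rw [← riesz2 hR hη]
      apply lintegral_congr_ae
      filter_upwards [ae_ne 0, ae_ne' η] with ζ h3 h4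
      rw [mul_pow, pow_two, pow_two, pw_mul h3, pw_mul h4]
      norm_num
    · apply lintegral_congr_ae
      filter_upwards [ae_ne 0, ae_ne' η] with ζ h3 h4
      have e1 := pw_mul (s := 3 / 4) (t := 3 / 4) h3
      have e2 := pw_mul (s := 3 / 4) (t := 3 / 4) h4
      norm_num at e1 e2
      unfold XX
      rw [← e1, ← e2]
      ring

lemma riesz1' (hR : StmtRiesz) {ζ : ℂ} (hζ : ζ ≠ 0) :
    ∫⁻ z, pw (-(3 / 2)) z * pw (-1) (z + ζ) =
      ENNReal.ofReal (Real.pi * gam ^ 2) * pw (-(1 / 2)) ζ := by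
  rw [← riesz1 hR hζ, ← lintegral_neg_eq_self]
  congr 1
  ext z
  rw [pw_neg, neg_add_eq_sub]

lemma step2 (hR : StmtRiesz) {u : ℂ → ℝ≥0∞} (hu : Measurable u) :
    ∫⁻ η, (∫⁻ ζ, u ζ * u (η - ζ)) ^ 2 ≤
      ENNReal.ofReal (Real.pi ^ 2 * gam ^ 4) * ∫⁻ ξ, u ξ ^ 4 * ‖ξ‖ₑ ^ 4 := by
  set c : ℝ≥0∞ := ENNReal.ofReal (Real.pi * gam ^ 2) with hc
  have hcc : ENNReal.ofReal (Real.pi ^ 2 * gam ^ 4) = c * c := by
    rw [hc, ← ENNReal.ofReal_mul (by positivity)]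
    congr 1
    ring
  set P : ℂ → ℝ≥0∞ := fun ζ => u ζ ^ 4 * pw (9 / 2) ζ with hP
  have hPm : Measurable P := (hu.pow_const 4).mul (pw_meas _)
  have hXm := XX_meas hu
  -- the double integral
  set T : ℝ≥0∞ := ∫⁻ ζ, ∫⁻ z, pw (-1) (z + ζ) * (XX u ζ * XX u z) with hT
  set T' : ℝ≥0∞ := ∫⁻ ζ, ∫⁻ z, pw (-1) (z + ζ) * (P ζ * pw (-(3 / 2)) z) with hT'
  have h1 : ∫⁻ η, (∫⁻ ζ, u ζ * u (η - ζ)) ^ 2 ≤ c * T := by
    calc ∫⁻ η, (∫⁻ ζ, u ζ * u (η - ζ)) ^ 2
        ≤ ∫⁻ η, c * pw (-1) η * ∫⁻ ζ, XX u ζ * XX u (η - ζ) := by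
          apply lintegral_mono_ae
          filter_upwards [ae_ne 0] with η hη
          exact point1 hR hu hη
      _ = ∫⁻ η, c * ∫⁻ ζ, pw (-1) η * (XX u ζ * XX u (η - ζ)) := by
          congr 1
          ext η
          rw [mul_assoc, lintegral_const_mul]
          exact hXm.mul (hXm.comp (measurable_const.sub measurable_id))
      _ = c * ∫⁻ η, ∫⁻ ζ, pw (-1) η * (XX u ζ * XX u (η - ζ)) := by
          rw [lintegral_const_mul]
          apply Measurable.lintegral_prod_right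
          exact ((pw_meas _).comp measurable_fst).mul ((hXm.comp measurable_snd).mul
            (hXm.comp (measurable_fst.sub measurable_snd)))
      _ = c * ∫⁻ ζ, ∫⁻ η, pw (-1) η * (XX u ζ * XX u (η - ζ)) := by
          rw [lintegral_lintegral_swap]
          exact (((pw_meas _).comp measurable_fst).mul ((hXm.comp measurable_snd).mul
            (hXm.comp (measurable_fst.sub measurable_snd)))).aemeasurable
      _ = c * T := by
          rw [hT]
          congr 2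
          ext ζ
          rw [← lintegral_add_right_eq_self _ ζ]
          congr 1
          ext z
          rw [add_sub_cancel_right]
  -- measurability of the integrands
  have hadd : Measurable (fun z : ℂ × ℂ => z.2 + z.1) := measurable_snd.add measurable_fst
  have hm1 : Measurable (fun z : ℂ × ℂ => pw (-1) (z.2 + z.1) * (P z.1 * pw (-(3 / 2)) z.2)) :=
    ((pw_meas _).comp hadd).mul ((hPm.comp measurable_fst).mul ((pw_meas _).comp measurable_snd))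
  have hm2 : Measurable (fun z : ℂ × ℂ => pw (-1) (z.2 + z.1) * (P z.2 * pw (-(3 / 2)) z.1)) :=
    ((pw_meas _).comp hadd).mul ((hPm.comp measurable_snd).mul ((pw_meas _).comp measurable_fst))
  have hm3 : Measurable (fun z : ℂ × ℂ => pw (-1) (z.2 + z.1) * (XX u z.1 * XX u z.2)) :=
    ((pw_meas _).comp hadd).mul ((hXm.comp measurable_fst).mul (hXm.comp measurable_snd))
  have hm1s : ∀ ζ : ℂ, Measurable (fun z : ℂ => pw (-1) (z + ζ) * (P ζ * pw (-(3 / 2)) z)) :=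
    fun ζ => ((pw_meas _).comp (measurable_id.add measurable_const)).mul
      ((pw_meas _).const_mul _)
  have hm3s : ∀ ζ : ℂ, Measurable (fun z : ℂ => pw (-1) (z + ζ) * (XX u ζ * XX u z)) :=
    fun ζ => ((pw_meas _).comp (measurable_id.add measurable_const)).mul (hXm.const_mul _)
  have hm1i : Measurable (fun ζ : ℂ => ∫⁻ z, pw (-1) (z + ζ) * (P ζ * pw (-(3 / 2)) z)) :=
    hm1.lintegral_prod_right'
  have hm3i : Measurable (fun ζ : ℂ => ∫⁻ z, pw (-1) (z + ζ) * (XX u ζ * XX u z)) :=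
    hm3.lintegral_prod_right'
  have h2 : 2 * T ≤ T' + T' := by
    have e1 : ∫⁻ ζ, ∫⁻ z, pw (-1) (z + ζ) * (P z * pw (-(3 / 2)) ζ) = T' := by
      rw [hT', lintegral_lintegral_swap hm2.aemeasurable]
      congr 1
      ext z
      congr 1
      ext ζ
      rw [add_comm]
    calc 2 * T = ∫⁻ ζ, ∫⁻ z, 2 * (pw (-1) (z + ζ) * (XX u ζ * XX u z)) := by
          rw [hT, ← lintegral_const_mul _ hm3i]
          congr 1
          ext ζ
          rw [lintegral_const_mul _ (hm3s ζ)]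
      _ ≤ ∫⁻ ζ, ∫⁻ z, (pw (-1) (z + ζ) * (P ζ * pw (-(3 / 2)) z) +
            pw (-1) (z + ζ) * (P z * pw (-(3 / 2)) ζ)) := by
          apply lintegral_mono_ae
          filter_upwards [ae_ne 0] with ζ hζ
          apply lintegral_mono_ae
          filter_upwards [ae_ne 0] with z hz
          rw [← mul_add, mul_left_comm]
          gcongr
          have a1 := pw_mul (s := 9 / 4) (t := 9 / 4) hζ
          have a2 := pw_mul (s := 9 / 4) (t := 9 / 4) hz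
          have a3 := pw_mul (s := -(3 / 4)) (t := -(3 / 4)) hζ
          have a4 := pw_mul (s := -(3 / 4)) (t := -(3 / 4)) hz
          have a5 := pw_mul (s := 9 / 4) (t := -(3 / 4)) hζ
          have a6 := pw_mul (s := 9 / 4) (t := -(3 / 4)) hz
          norm_num at a1 a2 a3 a4 a5 a6
          have a7 := amgm (u ζ ^ 2 * (pw (9 / 4) ζ * pw (-(3 / 4)) z))
            (u z ^ 2 * (pw (9 / 4) z * pw (-(3 / 4)) ζ))
          refine le_trans (le_of_eq ?_) (a7.trans (le_of_eq ?_))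
          · unfold XX
            rw [← a5, ← a6]
            ring
          · simp only [hP]
            rw [← a1, ← a2, ← a3, ← a4]
            ring
      _ = ∫⁻ ζ, ((∫⁻ z, pw (-1) (z + ζ) * (P ζ * pw (-(3 / 2)) z)) +
            ∫⁻ z, pw (-1) (z + ζ) * (P z * pw (-(3 / 2)) ζ)) := by
          congr 1
          ext ζ
          rw [lintegral_add_left (hm1s ζ)]
      _ = T' + T' := by
          rw [lintegral_add_left hm1i, e1]
  have h3 : T ≤ T' := by
    rw [← two_mul] at h2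
    exact (ENNReal.mul_le_mul_iff_right two_ne_zero ENNReal.ofNat_ne_top).1 h2
  have h4 : T' = c * ∫⁻ ξ, u ξ ^ 4 * ‖ξ‖ₑ ^ 4 := by
    rw [hT', ← lintegral_const_mul]
    · apply lintegral_congr_ae
      filter_upwards [ae_ne 0] with ζ hζ
      have e1 : ∫⁻ z, pw (-1) (z + ζ) * (P ζ * pw (-(3 / 2)) z) =
          P ζ * ∫⁻ z, pw (-(3 / 2)) z * pw (-1) (z + ζ) := by
        rw [← lintegral_const_mul]
        · congr 1
          ext z
          ring
        · exact (pw_meas _).mul ((pw_meas _).comp (measurable_id.add measurable_const))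
      rw [e1, riesz1' hR hζ, ← hc]
      have e2 := pw_mul (s := 9 / 2) (t := -(1 / 2)) hζ
      have e3 : pw (9 / 2 + -(1 / 2)) ζ = ‖ζ‖ₑ ^ 4 := by
        unfold pw
        have : (9 / 2 + -(1 / 2) : ℝ) = ((4 : ℕ) : ℝ) := by norm_num
        rw [this, Real.rpow_natCast, ENNReal.ofReal_pow (norm_nonneg _), ofReal_norm]
      rw [e3] at e2
      simp only [hP]
      rw [← e2]
      ring
    · exact (hu.pow_const 4).mul (measurable_enorm.pow_const 4)
  calc ∫⁻ η, (∫⁻ ζ, u ζ * u (η - ζ)) ^ 2 ≤ c * T := h1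
    _ ≤ c * T' := by gcongr
    _ = _ := by rw [h4, hcc, mul_assoc]

end HLPx

open HLPx

/-- (HLP) -/
theorem hlp (hR : StmtRiesz) (hL : StmtL2) : StmtHLP := by
  intro h hh
  obtain ⟨h', hm, hae⟩ := hh.1
  have hh' : Integrable h' := hh.congr hae
  have e1 : ∀ x, iF h x = iF h' x := by
    intro x
    unfold iF
    apply integral_congr_ae
    filter_upwards [hae] with ζ hζ
    rw [hζ]
  have e2 : ∫⁻ ξ, ‖h ξ‖ₑ ^ 4 * ‖ξ‖ₑ ^ 4 = ∫⁻ ξ, ‖h' ξ‖ₑ ^ 4 * ‖ξ‖ₑ ^ 4 := by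
    apply lintegral_congr_ae
    filter_upwards [hae] with ζ hζ
    rw [hζ]
  simp only [e1]
  rw [e2]
  exact (step1 hL hh').trans (step2 hR hm.enorm)

end Pool.Agent.Lib.MP_dd244f_an.Four
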