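import Pool.Agent.Lib.MP_dd244f_an.Four.Basic

/-!
Full operator, `p = 4`: Plancherel for `L^1 ∩ L^2`.
-/

set_option autoImplicit false

namespace Pool.Agent.Lib.MP_dd244f_an.Four

open MeasureTheory Filter Topology FourierTransform
open scoped SchwartzMap ContDiff RealInnerProductSpace

theorem ch_eq_fourierChar (x ζ : ℂ) : ch x ζ = (Real.fourierChar ⟪ζ, x⟫ : ℂ) := by
  rw [Real.fourierChar_apply]
  unfold ch
  congr 1
  have : ⟪ζ, x⟫ = x.re * ζ.re + x.im * ζ.im := by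
    simp [Complex.inner, Complex.mul_re]
  rw [this]
  push_cast
  ring

theorem iF_eq_inv (g : ℂ → ℂ) (x : ℂ) : iF g x = 𝓕⁻ g x := by
  rw [Real.fourierInv_eq]
  unfold iF
  congr 1
  ext ζ
  rw [ch_eq_fourierChar, Circle.smul_def, smul_eq_mul]

theorem iF_eq (g : ℂ → ℂ) (x : ℂ) : iF g x = 𝓕 g (-x) := by
  rw [iF_eq_inv, Real.fourierInv_eq_fourier_neg]

theorem iF_continuous {φ : ℂ → ℂ} (h : Integrable φ) : Continuous (iF φ) := by
  have h1 : Continuous (𝓕 φ) :=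
    VectorFourier.fourierIntegral_continuous Real.continuous_fourierChar
      (by exact continuous_inner) h
  have h2 : iF φ = fun x => 𝓕 φ (-x) := by ext x; exact iF_eq φ x
  rw [h2]
  exact h1.comp continuous_neg

theorem norm_iF_le (φ : ℂ → ℂ) (x : ℂ) : ‖iF φ x‖ ≤ ∫ ζ, ‖φ ζ‖ := by
  unfold iF
  refine (norm_integral_le_integral_norm _).trans (le_of_eq ?_)
  congr 1
  ext ζ
  rw [norm_mul, norm_ch, one_mul]

/-- The integral Fourier transform and the `L^2` Fourier transform agree. -/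
theorem fourier_ae_eq {φ : ℂ → ℂ} (h1 : Integrable φ) (h2 : MemLp φ 2 volume) :
    𝓕 φ =ᵐ[volume] ((𝓕 (h2.toLp φ) : Lp ℂ 2 (volume : Measure ℂ)) : ℂ → ℂ) := by
  have hc : Continuous (𝓕 φ) :=
    VectorFourier.fourierIntegral_continuous Real.continuous_fourierChar
      (by exact continuous_inner) h1
  refine ae_eq_of_integral_contDiff_smul_eq hc.locallyIntegrable
    ((Lp.memLp _).locallyIntegrable (by norm_num)) fun g hg1 hg2 => ?_
  have hgc : HasCompactSupport (fun x => (g x : ℂ)) := hg2.comp_left (g := fun x : ℝ => (x : ℂ))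
    (by simp)
  have hgd : ContDiff ℝ ∞ (fun x => (g x : ℂ)) := Complex.ofRealCLM.contDiff.comp hg1
  set G : 𝓢(ℂ, ℂ) := hgc.toSchwartzMap hgd with hG
  have hGx : ∀ x, G x = (g x : ℂ) := fun x => rfl
  have e1 : ∀ f : ℂ → ℂ, ∫ x, g x • f x = ∫ x, G x • f x := by
    intro f
    congr 1
  rw [e1, e1]
  have e2 : ∫ x, G x • (𝓕 (h2.toLp φ) : Lp ℂ 2 (volume : Measure ℂ)) x = ∫ x, (𝓕 G) x • φ x := by
    have e3 := MeasureTheory.Lp.fourier_toTemperedDistribution_eq (h2.toLp φ)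
    have e4 := congrArg (fun T : 𝓢'(ℂ, ℂ) => T G) e3
    simp only [TemperedDistribution.fourier_apply, Lp.toTemperedDistribution_apply] at e4
    rw [← e4]
    refine integral_congr_ae ?_
    filter_upwards [h2.coeFn_toLp] with x hx
    rw [hx]
  rw [e2]
  have e5 := VectorFourier.integral_fourierIntegral_smul_eq_flip (μ := (volume : Measure ℂ))
    (ν := (volume : Measure ℂ)) (L := innerₗ ℂ) Real.continuous_fourierChar
    (by exact continuous_inner) G.integrable h1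
  have e6 : ∀ ξ, VectorFourier.fourierIntegral Real.fourierChar (volume : Measure ℂ)
      (innerₗ ℂ).flip φ ξ = 𝓕 φ ξ := by
    intro ξ
    rw [flip_innerₗ]
    rfl
  have e7 : ∀ ξ, VectorFourier.fourierIntegral Real.fourierChar (volume : Measure ℂ)
      (innerₗ ℂ) (G : ℂ → ℂ) ξ = (𝓕 G) ξ := by
    intro ξ
    rw [SchwartzMap.fourier_coe]
    rfl
  simp only [e6, e7] at e5
  exact e5.symm

theorem fourier_memLp {φ : ℂ → ℂ} (h1 : Integrable φ) (h2 : MemLp φ 2 volume) :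
    MemLp (𝓕 φ) 2 volume :=
  (memLp_congr_ae (fourier_ae_eq h1 h2)).2 (Lp.memLp _)

/-- Plancherel, inner product version -/
theorem fourier_inner {φ ψ : ℂ → ℂ} (h1 : Integrable φ) (h2 : MemLp φ 2 volume)
    (h3 : Integrable ψ) (h4 : MemLp ψ 2 volume) :
    ∫ x, 𝓕 φ x * starRingEnd ℂ (𝓕 ψ x) = ∫ ζ, φ ζ * starRingEnd ℂ (ψ ζ) := by
  have e1 := MeasureTheory.Lp.inner_fourier_eq (h4.toLp ψ) (h2.toLp φ)
  rw [L2.inner_def, L2.inner_def] at e1
  have e2 : ∫ x, inner ℂ ((𝓕 (h4.toLp ψ) : Lp ℂ 2 (volume : Measure ℂ)) x)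
      ((𝓕 (h2.toLp φ) : Lp ℂ 2 (volume : Measure ℂ)) x)
      = ∫ x, 𝓕 φ x * starRingEnd ℂ (𝓕 ψ x) := by
    refine integral_congr_ae ?_
    filter_upwards [fourier_ae_eq h1 h2, fourier_ae_eq h3 h4] with x hx hx'
    rw [hx, hx', RCLike.inner_apply]
  have e3 : ∫ x, inner ℂ ((h4.toLp ψ) x) ((h2.toLp φ) x)
      = ∫ ζ, φ ζ * starRingEnd ℂ (ψ ζ) := by
    refine integral_congr_ae ?_
    filter_upwards [h2.coeFn_toLp, h4.coeFn_toLp] with x hx hx'
    rw [hx, hx', RCLike.inner_apply]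
  rw [← e2, ← e3]
  exact e1

theorem iF_memLp {φ : ℂ → ℂ} (h1 : Integrable φ) (h2 : MemLp φ 2 volume) :
    MemLp (iF φ) 2 volume := by
  have h := (fourier_memLp h1 h2).comp_measurePreserving (Measure.measurePreserving_neg volume)
  refine (memLp_congr_ae ?_).1 h
  exact Eventually.of_forall fun x => (iF_eq φ x).symm

theorem iF_inner {φ ψ : ℂ → ℂ} (h1 : Integrable φ) (h2 : MemLp φ 2 volume)
    (h3 : Integrable ψ) (h4 : MemLp ψ 2 volume) :
    Integrable (fun x => iF φ x * starRingEnd ℂ (iF ψ x)) ∧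
    ∫ x, iF φ x * starRingEnd ℂ (iF ψ x) = ∫ ζ, φ ζ * starRingEnd ℂ (ψ ζ) := by
  constructor
  · have h5 : MemLp (fun x => starRingEnd ℂ (iF ψ x)) 2 volume := (iF_memLp h3 h4).star
    exact (iF_memLp h1 h2).integrable_mul h5
  · rw [← fourier_inner h1 h2 h3 h4, ← integral_neg_eq_self (fun x => 𝓕 φ x * _)]
    simp only [iF_eq]

theorem integral_norm_sq_eq {φ : ℂ → ℂ} : ((∫ x, ‖φ x‖ ^ 2 : ℝ) : ℂ)
    = ∫ x, φ x * starRingEnd ℂ (φ x) := by
  rw [← integral_complex_ofReal]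
  congr 1
  ext x
  rw [Complex.mul_conj, Complex.normSq_eq_norm_sq]

/-- Plancherel for `L^1 ∩ L^2` -/
theorem l2 : StmtL2 := by
  intro φ h1 h2
  refine ⟨iF_memLp h1 h2, ?_⟩
  have h3 := (iF_inner h1 h2 h1 h2).2
  rw [← integral_norm_sq_eq, ← integral_norm_sq_eq] at h3
  exact_mod_cast h3

end Pool.Agent.Lib.MP_dd244f_an.Four
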