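import Pool.Agent.Lib.MP_dd244f_an.Four.Stmts

/-!
Full operator, `p = 4`: the Riesz composition formula in the plane.
-/

set_option autoImplicit false

namespace Pool.Agent.Lib.MP_dd244f_an.Four

open MeasureTheory Filter Topology Finset
open scoped ENNReal

/-- the Gamma integral -/
theorem gint {s r : ℝ} (hs : 0 < s) (hr : 0 < r) :
    ∫⁻ t in Set.Ioi (0 : ℝ), ENNReal.ofReal (t ^ (s - 1) * Real.exp (-(r * t)))
      = ENNReal.ofReal (Real.Gamma s * r ^ (-s)) := by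
  have h1 := Real.integral_rpow_mul_exp_neg_mul_Ioi hs hr
  have h2 : (1 / r) ^ s * Real.Gamma s = Real.Gamma s * r ^ (-s) := by
    rw [one_div, Real.inv_rpow hr.le, Real.rpow_neg hr.le, mul_comm]
  rw [h2] at h1
  have h3 : 0 < Real.Gamma s * r ^ (-s) :=
    mul_pos (Real.Gamma_pos_of_pos hs) (Real.rpow_pos_of_pos hr _)
  have h4 : Integrable (fun t : ℝ => t ^ (s - 1) * Real.exp (-(r * t)))
      (volume.restrict (Set.Ioi 0)) := by
    refine Integrable.of_integral_ne_zero ?_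
    rw [h1]
    exact h3.ne'
  rw [← h1, ofReal_integral_eq_lintegral_ofReal h4]
  filter_upwards [ae_restrict_mem measurableSet_Ioi] with t ht
  exact mul_nonneg (Real.rpow_nonneg (le_of_lt ht) _) (Real.exp_pos _).le

/-- the Gaussian integral -/
theorem gauss0 {b : ℝ} (hb : 0 < b) :
    ∫⁻ ζ : ℂ, ENNReal.ofReal (Real.exp (-(b * ‖ζ‖ ^ 2))) = ENNReal.ofReal (Real.pi / b) := by
  have h1 := GaussianFourier.integral_rexp_neg_mul_sq_norm (V := ℂ) hb
  rw [Complex.finrank_real_complex] at h1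
  norm_num at h1
  have h3 : 0 < Real.pi / b := by positivity
  have h5 : ∫ ζ : ℂ, Real.exp (-(b * ‖ζ‖ ^ 2)) = Real.pi / b := by
    rw [← h1]
  have h4 : Integrable (fun ζ : ℂ => Real.exp (-(b * ‖ζ‖ ^ 2))) volume := by
    refine Integrable.of_integral_ne_zero ?_
    rw [h5]
    exact h3.ne'
  rw [← h5, ofReal_integral_eq_lintegral_ofReal h4]
  exact Eventually.of_forall fun _ => (Real.exp_pos _).le

theorem gauss {s t : ℝ} (hs : 0 < s) (ht : 0 < t) (η : ℂ) :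
    ∫⁻ ζ : ℂ, ENNReal.ofReal (Real.exp (-(‖ζ‖ ^ 2 * s)) * Real.exp (-(‖η - ζ‖ ^ 2 * t)))
      = ENNReal.ofReal (Real.pi / (s + t) * Real.exp (-(s * t / (s + t) * ‖η‖ ^ 2))) := by
  have hst : 0 < s + t := by linarith
  have h1 : ∀ ζ : ℂ, Real.exp (-(‖ζ‖ ^ 2 * s)) * Real.exp (-(‖η - ζ‖ ^ 2 * t))
      = Real.exp (-(s * t / (s + t) * ‖η‖ ^ 2)) *
        Real.exp (-((s + t) * ‖ζ - ((t / (s + t) : ℝ) : ℂ) * η‖ ^ 2)) := by
    intro ζ
    rw [← Real.exp_add, ← Real.exp_add]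
    congr 1
    simp only [← Complex.normSq_eq_norm_sq, Complex.normSq_apply, Complex.sub_re, Complex.sub_im,
      Complex.mul_re, Complex.mul_im, Complex.ofReal_re, Complex.ofReal_im]
    field_simp
    ring
  simp only [h1]
  have h2 : ∀ ζ : ℂ, ENNReal.ofReal (Real.exp (-(s * t / (s + t) * ‖η‖ ^ 2)) *
        Real.exp (-((s + t) * ‖ζ - ((t / (s + t) : ℝ) : ℂ) * η‖ ^ 2)))
      = ENNReal.ofReal (Real.exp (-(s * t / (s + t) * ‖η‖ ^ 2))) *
        ENNReal.ofReal (Real.exp (-((s + t) * ‖ζ - ((t / (s + t) : ℝ) : ℂ) * η‖ ^ 2))) :=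
    fun ζ => ENNReal.ofReal_mul (Real.exp_pos _).le
  simp only [h2]
  rw [lintegral_const_mul' _ _ ENNReal.ofReal_ne_top,
    lintegral_sub_right_eq_self (fun ζ : ℂ => ENNReal.ofReal (Real.exp (-((s + t) * ‖ζ‖ ^ 2)))),
    gauss0 hst, ← ENNReal.ofReal_mul (Real.exp_pos _).le, mul_comm]

/-- dilation of the half line -/
theorem dil {s : ℝ} (hs : 0 < s) (g : ℝ → ℝ≥0∞) :
    ∫⁻ t in Set.Ioi (0 : ℝ), g t = ENNReal.ofReal s * ∫⁻ v in Set.Ioi (0 : ℝ), g (s * v) := by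
  have h1 : (fun v : ℝ => s * v) '' Set.Ioi 0 = Set.Ioi 0 := by
    ext x
    constructor
    · rintro ⟨v, hv, rfl⟩
      exact mul_pos hs hv
    · intro hx
      exact ⟨x / s, div_pos hx hs, by field_simp⟩
  have h2 := lintegral_image_eq_lintegral_abs_deriv_mul (s := Set.Ioi (0 : ℝ))
    (f := fun v => s * v) (f' := fun _ => s) measurableSet_Ioi
    (fun x _ => by simpa using ((hasDerivAt_id x).const_mul s).hasDerivWithinAt)
    (fun a _ b _ hab => mul_left_cancel₀ hs.ne' hab) g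
  rw [h1] at h2
  rw [h2, lintegral_const_mul' _ _ ENNReal.ofReal_ne_top, abs_of_pos hs]

/-- the Beta integral on the half line -/
theorem beta_int {α β : ℝ} (hα : 0 < α) (hβ : 0 < β) (hα1 : α < 1) (hβ1 : β < 1) :
    ENNReal.ofReal (Real.Gamma (2 - α - β)) *
      ∫⁻ v in Set.Ioi (0 : ℝ), ENNReal.ofReal (v ^ (-α) * (1 + v) ^ (-(2 - α - β)))
      = ENNReal.ofReal (Real.Gamma (1 - α) * Real.Gamma (1 - β)) := by
  have hγ : 0 < 2 - α - β := by linarith
  have h1 : ∀ v ∈ Set.Ioi (0 : ℝ), ENNReal.ofReal (Real.Gamma (2 - α - β)) *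
      ENNReal.ofReal (v ^ (-α) * (1 + v) ^ (-(2 - α - β)))
      = ∫⁻ w in Set.Ioi (0 : ℝ), ENNReal.ofReal (v ^ (-α) * (w ^ (2 - α - β - 1) *
          Real.exp (-((1 + v) * w)))) := by
    intro v hv
    have hv0 : (0 : ℝ) < v := hv
    have h2 : ∀ w : ℝ, ENNReal.ofReal (v ^ (-α) * (w ^ (2 - α - β - 1) *
          Real.exp (-((1 + v) * w)))) = ENNReal.ofReal (v ^ (-α)) *
          ENNReal.ofReal (w ^ (2 - α - β - 1) * Real.exp (-((1 + v) * w))) := fun w =>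
      ENNReal.ofReal_mul (Real.rpow_nonneg hv0.le _)
    simp only [h2]
    rw [lintegral_const_mul' _ _ ENNReal.ofReal_ne_top, gint hγ (by linarith),
      ← ENNReal.ofReal_mul (Real.rpow_nonneg hv0.le _),
      ← ENNReal.ofReal_mul (Real.Gamma_pos_of_pos hγ).le]
    congr 1
    ring
  rw [← lintegral_const_mul' _ _ ENNReal.ofReal_ne_top, setLIntegral_congr_fun measurableSet_Ioi h1,
    lintegral_lintegral_swap]
  · have h3 : ∀ w ∈ Set.Ioi (0 : ℝ), ∫⁻ v in Set.Ioi (0 : ℝ), ENNReal.ofReal (v ^ (-α) *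
        (w ^ (2 - α - β - 1) * Real.exp (-((1 + v) * w))))
        = ENNReal.ofReal (Real.Gamma (1 - α)) *
          ENNReal.ofReal (w ^ (1 - β - 1) * Real.exp (-(1 * w))) := by
      intro w hw
      have hw0 : (0 : ℝ) < w := hw
      have h4 : ∀ v : ℝ, ENNReal.ofReal (v ^ (-α) *
        (w ^ (2 - α - β - 1) * Real.exp (-((1 + v) * w))))
        = ENNReal.ofReal (w ^ (2 - α - β - 1) * Real.exp (-w)) *
          ENNReal.ofReal (v ^ (1 - α - 1) * Real.exp (-(w * v))) := by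
        intro v
        rw [← ENNReal.ofReal_mul (mul_nonneg (Real.rpow_nonneg hw0.le _) (Real.exp_pos _).le)]
        congr 1
        have h5 : Real.exp (-((1 + v) * w)) = Real.exp (-w) * Real.exp (-(w * v)) := by
          rw [← Real.exp_add]
          congr 1
          ring
        rw [h5, show 1 - α - 1 = -α by ring]
        ring
      simp only [h4]
      rw [lintegral_const_mul' _ _ ENNReal.ofReal_ne_top, gint (by linarith) hw0,
        ← ENNReal.ofReal_mul (mul_nonneg (Real.rpow_nonneg hw0.le _) (Real.exp_pos _).le),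
        ← ENNReal.ofReal_mul (Real.Gamma_pos_of_pos (by linarith)).le]
      congr 1
      have h6 : w ^ (1 - β - 1) = w ^ (2 - α - β - 1) * w ^ (-(1 - α)) := by
        rw [← Real.rpow_add hw0]
        congr 1
        ring
      rw [h6, one_mul]
      ring
    rw [setLIntegral_congr_fun measurableSet_Ioi h3, lintegral_const_mul' _ _ ENNReal.ofReal_ne_top,
      gint (by linarith) one_pos, ← ENNReal.ofReal_mul (Real.Gamma_pos_of_pos (by linarith)).le]
    simp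
  · refine Measurable.aemeasurable ?_
    fun_prop

/-- the Riesz composition formula in the plane -/
theorem riesz_gen {α β : ℝ} (hα : 0 < α) (hβ : 0 < β) (hα1 : α < 1) (hβ1 : β < 1)
    (hαβ : 1 < α + β) {η : ℂ} (hη : η ≠ 0) :
    ENNReal.ofReal (Real.Gamma α * Real.Gamma β * Real.Gamma (2 - α - β)) *
      ∫⁻ ζ : ℂ, ENNReal.ofReal (‖ζ‖ ^ (-(2 * α)) * ‖η - ζ‖ ^ (-(2 * β)))
      = ENNReal.ofReal (Real.pi * Real.Gamma (α + β - 1) * (‖η‖ ^ 2) ^ (-(α + β - 1)) *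
        (Real.Gamma (1 - α) * Real.Gamma (1 - β))) := by
  have hR : 0 < ‖η‖ ^ 2 := by
    have := norm_pos_iff.mpr hη
    positivity
  have hΓα := Real.Gamma_pos_of_pos hα
  have hΓβ := Real.Gamma_pos_of_pos hβ
  have hΓγ : 0 < Real.Gamma (2 - α - β) := Real.Gamma_pos_of_pos (by linarith)
  have hΓδ : 0 < Real.Gamma (α + β - 1) := Real.Gamma_pos_of_pos (by linarith)
  -- step 1
  have e1 : ENNReal.ofReal (Real.Gamma α * Real.Gamma β) *
      ∫⁻ ζ : ℂ, ENNReal.ofReal (‖ζ‖ ^ (-(2 * α)) * ‖η - ζ‖ ^ (-(2 * β)))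
      = ∫⁻ ζ : ℂ, ∫⁻ s in Set.Ioi (0 : ℝ), ∫⁻ t in Set.Ioi (0 : ℝ),
        ENNReal.ofReal (s ^ (α - 1) * t ^ (β - 1)) *
        ENNReal.ofReal (Real.exp (-(‖ζ‖ ^ 2 * s)) * Real.exp (-(‖η - ζ‖ ^ 2 * t))) := by
    rw [← lintegral_const_mul' _ _ ENNReal.ofReal_ne_top]
    refine lintegral_congr_ae ?_
    have hz : ∀ᵐ ζ : ℂ, ζ ≠ 0 := by
      simp [ae_iff, measure_singleton]
    have hz' : ∀ᵐ ζ : ℂ, ζ ≠ η := by
      simp [ae_iff, measure_singleton]
    filter_upwards [hz, hz'] with ζ h0 h1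
    have n0 : 0 < ‖ζ‖ := norm_pos_iff.mpr h0
    have n1 : 0 < ‖η - ζ‖ := norm_pos_iff.mpr (sub_ne_zero.mpr (Ne.symm h1))
    have p0 : ‖ζ‖ ^ (-(2 * α)) = (‖ζ‖ ^ 2) ^ (-α) := by
      rw [← Real.rpow_natCast, ← Real.rpow_mul n0.le]
      congr 1
      push_cast
      ring
    have p1 : ‖η - ζ‖ ^ (-(2 * β)) = (‖η - ζ‖ ^ 2) ^ (-β) := by
      rw [← Real.rpow_natCast, ← Real.rpow_mul n1.le]
      congr 1
      push_cast
      ring
    have q0 := gint hα (show 0 < ‖ζ‖ ^ 2 by positivity)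
    have q1 := gint hβ (show 0 < ‖η - ζ‖ ^ 2 by positivity)
    have r1 : ∀ s ∈ Set.Ioi (0 : ℝ), ∫⁻ t in Set.Ioi (0 : ℝ),
        ENNReal.ofReal (s ^ (α - 1) * t ^ (β - 1)) *
        ENNReal.ofReal (Real.exp (-(‖ζ‖ ^ 2 * s)) * Real.exp (-(‖η - ζ‖ ^ 2 * t)))
        = ENNReal.ofReal (s ^ (α - 1) * Real.exp (-(‖ζ‖ ^ 2 * s))) *
          ENNReal.ofReal (Real.Gamma β * (‖η - ζ‖ ^ 2) ^ (-β)) := by
      intro s hs
      have hs0 : (0 : ℝ) < s := hs
      rw [← q1, ← lintegral_const_mul' _ _ ENNReal.ofReal_ne_top]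
      refine setLIntegral_congr_fun measurableSet_Ioi fun t ht => ?_
      have ht0 : (0 : ℝ) < t := ht
      rw [← ENNReal.ofReal_mul (by positivity), ← ENNReal.ofReal_mul (by positivity)]
      congr 1
      ring
    rw [setLIntegral_congr_fun measurableSet_Ioi r1, lintegral_mul_const' _ _ ENNReal.ofReal_ne_top,
      q0, p0, p1, ← ENNReal.ofReal_mul (by positivity), ← ENNReal.ofReal_mul (by positivity)]
    congr 1
    ring
  -- step 2: integrate the Gaussians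
  have e2 : ∫⁻ ζ : ℂ, ∫⁻ s in Set.Ioi (0 : ℝ), ∫⁻ t in Set.Ioi (0 : ℝ),
        ENNReal.ofReal (s ^ (α - 1) * t ^ (β - 1)) *
        ENNReal.ofReal (Real.exp (-(‖ζ‖ ^ 2 * s)) * Real.exp (-(‖η - ζ‖ ^ 2 * t)))
      = ∫⁻ s in Set.Ioi (0 : ℝ), ∫⁻ t in Set.Ioi (0 : ℝ),
        ENNReal.ofReal (s ^ (α - 1) * t ^ (β - 1) *
          (Real.pi / (s + t) * Real.exp (-(s * t / (s + t) * ‖η‖ ^ 2)))) := by
    rw [lintegral_lintegral_swap]
    · refine setLIntegral_congr_fun measurableSet_Ioi fun s hs => ?_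
      have hs0 : (0 : ℝ) < s := hs
      rw [lintegral_lintegral_swap]
      · refine setLIntegral_congr_fun measurableSet_Ioi fun t ht => ?_
        have ht0 : (0 : ℝ) < t := ht
        rw [lintegral_const_mul' _ _ ENNReal.ofReal_ne_top, gauss hs0 ht0,
          ← ENNReal.ofReal_mul (by positivity)]
      · refine Measurable.aemeasurable ?_
        fun_prop
    · refine Measurable.aemeasurable ?_
      refine Measurable.lintegral_prod_right' (f := fun x : (ℂ × ℝ) × ℝ =>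
        ENNReal.ofReal (x.1.2 ^ (α - 1) * x.2 ^ (β - 1)) *
        ENNReal.ofReal (Real.exp (-(‖x.1.1‖ ^ 2 * x.1.2)) *
          Real.exp (-(‖η - x.1.1‖ ^ 2 * x.2)))) ?_
      fun_prop
  -- step 3: substitution and the Gamma integral
  have e3 : ∫⁻ s in Set.Ioi (0 : ℝ), ∫⁻ t in Set.Ioi (0 : ℝ),
        ENNReal.ofReal (s ^ (α - 1) * t ^ (β - 1) *
          (Real.pi / (s + t) * Real.exp (-(s * t / (s + t) * ‖η‖ ^ 2))))
      = ∫⁻ v in Set.Ioi (0 : ℝ), ∫⁻ s in Set.Ioi (0 : ℝ),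
        ENNReal.ofReal (Real.pi * v ^ (β - 1) / (1 + v)) *
          ENNReal.ofReal (s ^ (α + β - 1 - 1) * Real.exp (-(v / (1 + v) * ‖η‖ ^ 2 * s))) := by
    symm
    rw [lintegral_lintegral_swap]
    · refine setLIntegral_congr_fun measurableSet_Ioi fun s hs => ?_
      have hs0 : (0 : ℝ) < s := hs
      symm
      rw [dil hs0, ← lintegral_const_mul' _ _ ENNReal.ofReal_ne_top]
      refine setLIntegral_congr_fun measurableSet_Ioi fun v hv => ?_
      have hv0 : (0 : ℝ) < v := hv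
      rw [← ENNReal.ofReal_mul hs0.le, ← ENNReal.ofReal_mul (by positivity)]
      congr 1
      have h1 : s * (s * v) / (s + s * v) * ‖η‖ ^ 2 = v / (1 + v) * ‖η‖ ^ 2 * s := by
        field_simp
      have h2 : s ^ (α + β - 1 - 1) = s ^ (α - 1) * s ^ (β - 1) := by
        rw [← Real.rpow_add hs0]
        congr 1
        ring
      rw [h1, h2, Real.mul_rpow hs0.le hv0.le]
      field_simp
    · refine Measurable.aemeasurable ?_
      fun_prop
  have e4 : ∫⁻ v in Set.Ioi (0 : ℝ), ∫⁻ s in Set.Ioi (0 : ℝ),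
        ENNReal.ofReal (Real.pi * v ^ (β - 1) / (1 + v)) *
          ENNReal.ofReal (s ^ (α + β - 1 - 1) * Real.exp (-(v / (1 + v) * ‖η‖ ^ 2 * s)))
      = ENNReal.ofReal (Real.pi * Real.Gamma (α + β - 1) * (‖η‖ ^ 2) ^ (-(α + β - 1))) *
        ∫⁻ v in Set.Ioi (0 : ℝ), ENNReal.ofReal (v ^ (-α) * (1 + v) ^ (-(2 - α - β))) := by
    rw [← lintegral_const_mul' _ _ ENNReal.ofReal_ne_top]
    refine setLIntegral_congr_fun measurableSet_Ioi fun v hv => ?_
    have hv0 : (0 : ℝ) < v := hv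
    have hv1 : (0 : ℝ) < 1 + v := by linarith
    rw [lintegral_const_mul' _ _ ENNReal.ofReal_ne_top, gint (by linarith) (by positivity),
      ← ENNReal.ofReal_mul (by positivity), ← ENNReal.ofReal_mul (by positivity)]
    congr 1
    have h1 : (v / (1 + v) * ‖η‖ ^ 2) ^ (-(α + β - 1))
        = v ^ (-(α + β - 1)) * (1 + v) ^ (α + β - 1) * (‖η‖ ^ 2) ^ (-(α + β - 1)) := by
      rw [Real.mul_rpow (by positivity) hR.le, Real.div_rpow hv0.le hv1.le,
        Real.rpow_neg hv1.le, div_inv_eq_mul]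
    have h2 : v ^ (-α) = v ^ (β - 1) * v ^ (-(α + β - 1)) := by
      rw [← Real.rpow_add hv0]
      congr 1
      ring
    have h3 : (1 + v) ^ (-(2 - α - β)) = (1 + v) ^ (α + β - 1) / (1 + v) := by
      rw [show -(2 - α - β) = (α + β - 1) - 1 by ring, Real.rpow_sub hv1, Real.rpow_one]
    rw [h1, h2, h3]
    field_simp
  have e5 := beta_int hα hβ hα1 hβ1
  rw [ENNReal.ofReal_mul (by positivity), mul_comm (ENNReal.ofReal (Real.Gamma α * Real.Gamma β)),
    mul_assoc, e1, e2, e3, e4, mul_left_comm, e5, ← ENNReal.ofReal_mul (by positivity)]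

/-- the composition formula as an integral -/
theorem riesz_int {α β : ℝ} (hα : 0 < α) (hβ : 0 < β) (hα1 : α < 1) (hβ1 : β < 1)
    (hαβ : 1 < α + β) {η : ℂ} (hη : η ≠ 0) {c : ℝ}
    (hc : Real.Gamma α * Real.Gamma β * Real.Gamma (2 - α - β) * c
      = Real.pi * Real.Gamma (α + β - 1) * (Real.Gamma (1 - α) * Real.Gamma (1 - β))) :
    Integrable (fun ζ : ℂ => ‖ζ‖ ^ (-(2 * α)) * ‖η - ζ‖ ^ (-(2 * β))) ∧
      ∫ ζ : ℂ, ‖ζ‖ ^ (-(2 * α)) * ‖η - ζ‖ ^ (-(2 * β)) = c * (‖η‖ ^ 2) ^ (-(α + β - 1)) := by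
  have hR : 0 < ‖η‖ ^ 2 := by
    have := norm_pos_iff.mpr hη
    positivity
  have hΓα := Real.Gamma_pos_of_pos hα
  have hΓβ := Real.Gamma_pos_of_pos hβ
  have hΓγ : 0 < Real.Gamma (2 - α - β) := Real.Gamma_pos_of_pos (by linarith)
  have hΓδ : 0 < Real.Gamma (α + β - 1) := Real.Gamma_pos_of_pos (by linarith)
  have hΓ1 : 0 < Real.Gamma (1 - α) := Real.Gamma_pos_of_pos (by linarith)
  have hΓ2 : 0 < Real.Gamma (1 - β) := Real.Gamma_pos_of_pos (by linarith)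
  have hK : 0 < Real.Gamma α * Real.Gamma β * Real.Gamma (2 - α - β) := by positivity
  have hc0 : 0 < c := by
    by_contra h
    push Not at h
    have h1 : Real.Gamma α * Real.Gamma β * Real.Gamma (2 - α - β) * c ≤ 0 :=
      mul_nonpos_of_nonneg_of_nonpos hK.le h
    rw [hc] at h1
    have h2 : 0 < Real.pi * Real.Gamma (α + β - 1) * (Real.Gamma (1 - α) * Real.Gamma (1 - β)) := by
      positivity
    linarith
  have h := riesz_gen hα hβ hα1 hβ1 hαβ hη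
  have h1 : ∫⁻ ζ : ℂ, ENNReal.ofReal (‖ζ‖ ^ (-(2 * α)) * ‖η - ζ‖ ^ (-(2 * β)))
      = ENNReal.ofReal (c * (‖η‖ ^ 2) ^ (-(α + β - 1))) := by
    have h2 : Real.pi * Real.Gamma (α + β - 1) * (‖η‖ ^ 2) ^ (-(α + β - 1)) *
        (Real.Gamma (1 - α) * Real.Gamma (1 - β))
        = (Real.Gamma α * Real.Gamma β * Real.Gamma (2 - α - β)) *
          (c * (‖η‖ ^ 2) ^ (-(α + β - 1))) := by
      linear_combination (-(‖η‖ ^ 2) ^ (-(α + β - 1))) * hc
    rw [h2, ENNReal.ofReal_mul hK.le] at h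
    exact (ENNReal.mul_right_inj (by simpa using hK) ENNReal.ofReal_ne_top).mp h
  have hnn : ∀ ζ : ℂ, 0 ≤ ‖ζ‖ ^ (-(2 * α)) * ‖η - ζ‖ ^ (-(2 * β)) := fun ζ => by positivity
  have hm : Measurable (fun ζ : ℂ => ‖ζ‖ ^ (-(2 * α)) * ‖η - ζ‖ ^ (-(2 * β))) := by fun_prop
  have hI : Integrable (fun ζ : ℂ => ‖ζ‖ ^ (-(2 * α)) * ‖η - ζ‖ ^ (-(2 * β))) := by
    refine ⟨hm.aestronglyMeasurable, ?_⟩
    rw [hasFiniteIntegral_iff_ofReal (Eventually.of_forall hnn), h1]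
    exact ENNReal.ofReal_lt_top
  refine ⟨hI, ?_⟩
  have h3 := ofReal_integral_eq_lintegral_ofReal hI (Eventually.of_forall hnn)
  rw [h1] at h3
  exact (ENNReal.ofReal_eq_ofReal_iff (integral_nonneg hnn) (by positivity)).mp h3

theorem riesz : StmtRiesz := by
  intro η hη
  have hn : 0 < ‖η‖ := norm_pos_iff.mpr hη
  have g1 : Real.Gamma (1 / 4) ≠ 0 := (Real.Gamma_pos_of_pos (by norm_num)).ne'
  have g2 : Real.Gamma (3 / 4) ≠ 0 := (Real.Gamma_pos_of_pos (by norm_num)).ne'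
  have g3 : Real.Gamma (1 / 2) ≠ 0 := (Real.Gamma_pos_of_pos (by norm_num)).ne'
  have A := riesz_int (α := 3 / 4) (β := 1 / 2) (by norm_num) (by norm_num) (by norm_num)
    (by norm_num) (by norm_num) hη (c := Real.pi * gam ^ 2) (by
      norm_num
      unfold gam
      field_simp)
  have B := riesz_int (α := 3 / 4) (β := 3 / 4) (by norm_num) (by norm_num) (by norm_num)
    (by norm_num) (by norm_num) hη (c := Real.pi * gam ^ 2) (by
      norm_num
      unfold gam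
      field_simp)
  have p1 : (‖η‖ ^ 2) ^ (-((3 : ℝ) / 4 + 1 / 2 - 1)) = ‖η‖ ^ (-(1 / 2) : ℝ) := by
    rw [← Real.rpow_natCast, ← Real.rpow_mul hn.le]
    norm_num
  have p2 : (‖η‖ ^ 2) ^ (-((3 : ℝ) / 4 + 3 / 4 - 1)) = ‖η‖ ^ (-1 : ℝ) := by
    rw [← Real.rpow_natCast, ← Real.rpow_mul hn.le]
    norm_num
  rw [p1] at A
  rw [p2] at B
  have q1 : (-(2 * (3 / 4)) : ℝ) = -(3 / 2) := by norm_num
  have q2 : (-(2 * (1 / 2)) : ℝ) = -1 := by norm_num
  rw [q1, q2] at A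
  rw [q1] at B
  exact ⟨A.1, A.2, B.1, B.2⟩

end Pool.Agent.Lib.MP_dd244f_an.Four
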