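import Pool.Agent.Lib.MP_dd244f_an.Four.Basic

/-!
Full operator, `p = 4`: pointwise domination of the low passes and of the shells
by averages with the kernel `KK`.
-/

set_option autoImplicit false

namespace Pool.Agent.Lib.MP_dd244f_an.Four

open MeasureTheory Filter Topology Finset

namespace LPKAux

/-- weighted Cauchy-Schwarz -/
theorem cs_weight (w : ℂ → ℝ) (F : ℂ → ℝ) (m : ℝ) (hm : 0 < m) (hw : Integrable w)
    (hwm : ∫ y, w y = m) (hw0 : ∀ y, 0 ≤ w y) (hFc : Continuous F) (B : ℝ) (hB : ∀ y, |F y| ≤ B) :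
    (∫ y, w y * F y) ^ 2 ≤ m * ∫ y, w y * F y ^ 2 := by
  have hi1 : Integrable (fun y => w y * F y) := by
    refine hw.mul_bdd (c := B) hFc.aestronglyMeasurable ?_
    exact Eventually.of_forall fun y => by simpa using hB y
  have hi2 : Integrable (fun y => w y * F y ^ 2) := by
    refine hw.mul_bdd (c := B ^ 2) (hFc.pow 2).aestronglyMeasurable ?_
    refine Eventually.of_forall fun y => ?_
    have h1 := hB y
    have h2 : |F y| ^ 2 ≤ B ^ 2 := pow_le_pow_left₀ (abs_nonneg _) h1 2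
    rw [Real.norm_eq_abs, abs_pow]
    exact h2
  set t : ℝ := (∫ y, w y * F y) / m with ht
  have h0 : 0 ≤ ∫ y, w y * (F y - t) ^ 2 :=
    integral_nonneg fun y => mul_nonneg (hw0 y) (sq_nonneg _)
  have h1 : ∫ y, w y * (F y - t) ^ 2
      = (∫ y, w y * F y ^ 2) - 2 * t * (∫ y, w y * F y) + t ^ 2 * m := by
    have e : ∀ y, w y * (F y - t) ^ 2
        = (w y * F y ^ 2 - (2 * t) * (w y * F y)) + t ^ 2 * w y := fun y => by ring
    simp only [e]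
    rw [integral_add, integral_sub, integral_const_mul, integral_const_mul, hwm]
    · exact hi2
    · exact hi1.const_mul _
    · exact hi2.sub (hi1.const_mul _)
    · exact hw.const_mul _
  rw [h1] at h0
  have h2 : t * m = ∫ y, w y * F y := by rw [ht]; field_simp
  rw [← h2] at h0 ⊢
  nlinarith

theorem kk_nonneg (ρ : ℝ) (x : ℂ) : 0 ≤ KK ρ x := by unfold KK; positivity

theorem kk_quarter (ρ : ℝ) (hρ : 0 < ρ) (x : ℂ) : KK (ρ / 4) x ≤ 16 * KK ρ x := by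
  unfold KK
  have h1 : 0 < (ρ / 4) ^ 2 + ‖x‖ ^ 2 := by positivity
  have h2 : 0 < ρ ^ 2 + ‖x‖ ^ 2 := by positivity
  rw [← mul_div_assoc, div_le_div_iff₀ (by positivity) (by positivity)]
  have h3 : ρ ^ 2 + ‖x‖ ^ 2 ≤ 16 * ((ρ / 4) ^ 2 + ‖x‖ ^ 2) := by nlinarith [sq_nonneg ‖x‖]
  have h4 : (ρ ^ 2 + ‖x‖ ^ 2) ^ 2 ≤ (16 * ((ρ / 4) ^ 2 + ‖x‖ ^ 2)) ^ 2 :=
    pow_le_pow_left₀ h2.le h3 2
  nlinarith [sq_nonneg ρ]

/-- kernel bound -/
theorem ker_le (C : ℝ) (hC : 0 < C) (k : ℂ → ℂ) (hk : ∀ x, ‖k x‖ ≤ C / (1 + ‖x‖ ^ 2) ^ 4)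
    (a : ℤ) (z : ℂ) :
    ‖(((4 : ℝ) ^ a : ℝ) : ℂ) * k (((2 : ℝ) ^ a : ℝ) * z)‖ ≤ C * KK ((2 : ℝ) ^ (-a)) z := by
  have h2 : 0 < (2 : ℝ) ^ a := by positivity
  have h4 : (4 : ℝ) ^ a = ((2 : ℝ) ^ a) ^ 2 := by
    rw [show (4 : ℝ) = 2 * 2 by norm_num, mul_zpow, sq]
  have h5 : (2 : ℝ) ^ (-a) = ((2 : ℝ) ^ a)⁻¹ := zpow_neg _ _
  set s := (2 : ℝ) ^ a with hs
  rw [norm_mul, Complex.norm_real, Real.norm_eq_abs, abs_of_nonneg (by positivity), h4, h5]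
  have h6 := hk ((s : ℂ) * z)
  rw [norm_mul, Complex.norm_real, Real.norm_eq_abs, abs_of_pos h2] at h6
  have h7 : C / (1 + (s * ‖z‖) ^ 2) ^ 4 ≤ C / (1 + (s * ‖z‖) ^ 2) ^ 2 := by
    apply div_le_div_of_nonneg_left hC.le (by positivity)
    apply pow_le_pow_right₀ _ (by norm_num)
    nlinarith [sq_nonneg (s * ‖z‖)]
  have h8 : C * KK s⁻¹ z = s ^ 2 * (C / (1 + (s * ‖z‖) ^ 2) ^ 2) := by
    unfold KK
    have : 0 < s⁻¹ ^ 2 + ‖z‖ ^ 2 := by positivity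
    have h9 : s⁻¹ ^ 2 + ‖z‖ ^ 2 = (1 + (s * ‖z‖) ^ 2) / s ^ 2 := by
      field_simp
    rw [h9]
    field_simp
  rw [h8]
  exact mul_le_mul_of_nonneg_left (h6.trans h7) (by positivity)

/-- the domination for one kernel -/
theorem dom (hK : StmtKK) (hB : StmtBase) (C : ℝ) (hC : 0 < C) (k : ℂ → ℂ)
    (hk : ∀ x, ‖k x‖ ≤ C / (1 + ‖x‖ ^ 2) ^ 4) (a : ℤ) (g : ℂ → ℂ) (hg : CC g) (x : ℂ) :
    ‖∫ y, (((4 : ℝ) ^ a : ℝ) : ℂ) * k (((2 : ℝ) ^ a : ℝ) * (x - y)) * iF g y‖ ^ 2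
      ≤ (C ^ 2 * Real.pi) * ∫ y, KK ((2 : ℝ) ^ (-a)) (x - y) * ‖iF g y‖ ^ 2 := by
  have hρ : 0 < (2 : ℝ) ^ (-a) := by positivity
  obtain ⟨hKi, hKv, -⟩ := hK.1 _ hρ
  obtain ⟨hc, ⟨B, hBd⟩, -⟩ := hB.1 g hg
  have hw : Integrable (fun y => KK ((2 : ℝ) ^ (-a)) (x - y)) := hKi.comp_sub_left x
  have hwm : ∫ y, KK ((2 : ℝ) ^ (-a)) (x - y) = Real.pi := by
    rw [integral_sub_left_eq_self (fun y => KK ((2 : ℝ) ^ (-a)) y) volume x, hKv]
  have h1 := cs_weight (fun y => KK ((2 : ℝ) ^ (-a)) (x - y)) (fun y => ‖iF g y‖) Real.pi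
    Real.pi_pos hw hwm (fun y => kk_nonneg _ _) hc.norm B (fun y => by simpa using hBd y)
  have hi1 : Integrable (fun y => KK ((2 : ℝ) ^ (-a)) (x - y) * ‖iF g y‖) := by
    refine hw.mul_bdd (c := B) hc.norm.aestronglyMeasurable ?_
    exact Eventually.of_forall fun y => by simpa using hBd y
  have h2 : ‖∫ y, (((4 : ℝ) ^ a : ℝ) : ℂ) * k (((2 : ℝ) ^ a : ℝ) * (x - y)) * iF g y‖
      ≤ ∫ y, C * (KK ((2 : ℝ) ^ (-a)) (x - y) * ‖iF g y‖) := by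
    refine norm_integral_le_of_norm_le (hi1.const_mul C) (Eventually.of_forall fun y => ?_)
    rw [norm_mul, ← mul_assoc]
    exact mul_le_mul_of_nonneg_right (ker_le C hC k hk a (x - y)) (norm_nonneg _)
  rw [integral_const_mul] at h2
  have h3 : 0 ≤ ∫ y, KK ((2 : ℝ) ^ (-a)) (x - y) * ‖iF g y‖ :=
    integral_nonneg fun y => mul_nonneg (kk_nonneg _ _) (norm_nonneg _)
  calc ‖∫ y, (((4 : ℝ) ^ a : ℝ) : ℂ) * k (((2 : ℝ) ^ a : ℝ) * (x - y)) * iF g y‖ ^ 2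
      ≤ (C * ∫ y, KK ((2 : ℝ) ^ (-a)) (x - y) * ‖iF g y‖) ^ 2 :=
        pow_le_pow_left₀ (norm_nonneg _) h2 2
    _ = C ^ 2 * (∫ y, KK ((2 : ℝ) ^ (-a)) (x - y) * ‖iF g y‖) ^ 2 := by ring
    _ ≤ C ^ 2 * (Real.pi * ∫ y, KK ((2 : ℝ) ^ (-a)) (x - y) * ‖iF g y‖ ^ 2) :=
        mul_le_mul_of_nonneg_left h1 (by positivity)
    _ = _ := by ring

end LPKAux

open LPKAux

theorem lpk (hKer : StmtKer) (hK : StmtKK) (hF : StmtFac) (hB : StmtBase) : StmtLPK := by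
  obtain ⟨C, kl, ks, hC, hklc, hksc, hkl, hks, hrep⟩ := hKer
  refine ⟨(C ^ 2 * Real.pi) * 16, by positivity, fun a g hg x => ?_⟩
  have hpi := Real.pi_pos
  have hint : ∀ h : ℂ → ℂ, CC h → ∀ ρ : ℝ, 0 < ρ →
      Integrable (fun y => KK ρ (x - y) * ‖iF h y‖ ^ 2) := by
    intro h hh ρ hρ
    obtain ⟨hKi, -, -⟩ := hK.1 _ hρ
    obtain ⟨hc, ⟨B, hBd⟩, -⟩ := hB.1 h hh
    refine (hKi.comp_sub_left x).mul_bdd (c := B ^ 2) (hc.norm.pow 2).aestronglyMeasurable ?_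
    refine Eventually.of_forall fun y => ?_
    rw [norm_pow, norm_norm]
    exact pow_le_pow_left₀ (norm_nonneg _) (hBd y) 2
  have hpos : ∀ h : ℂ → ℂ, ∀ ρ : ℝ, 0 ≤ ∫ y, KK ρ (x - y) * ‖iF h y‖ ^ 2 := fun h ρ =>
    integral_nonneg fun y => mul_nonneg (kk_nonneg _ _) (by positivity)
  have hle : C ^ 2 * Real.pi ≤ (C ^ 2 * Real.pi) * 16 := by nlinarith [mul_pos (pow_pos hC 2) hpi]
  refine ⟨?_, ?_, ?_⟩
  · rw [(hrep a g hg x).1]
    exact (dom hK hB C hC kl hkl a g hg x).trans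
      (mul_le_mul_of_nonneg_right hle (hpos _ _))
  · rw [(hrep a g hg x).2]
    exact (dom hK hB C hC ks hks a g hg x).trans
      (mul_le_mul_of_nonneg_right hle (hpos _ _))
  · have hcs : CC (cut (sh a) g) := (hF.2.2.2.2.1 g a a hg).2.2
    have e : cut (sh a) g = cut (lo (a + 2)) (cut (sh a) g) := by
      ext ζ
      by_cases h : ‖ζ‖ ≤ (2 : ℝ) ^ (a + 2)
      · unfold cut
        rw [hF.2.1 (a + 2) ζ h]
        simp
      · have h' : (2 : ℝ) ^ (a + 2) < ‖ζ‖ := not_le.mp h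
        have h2 : 0 < (2 : ℝ) ^ a := by positivity
        have h3 : (2 : ℝ) ^ (a + 2) = 4 * (2 : ℝ) ^ a := by
          rw [zpow_add₀ (by norm_num)]; norm_num; ring
        have h4 : (2 : ℝ) ^ (a + 1) = 2 * (2 : ℝ) ^ a := by
          rw [zpow_add₀ (by norm_num)]; norm_num; ring
        have h5 : sh a ζ = 0 := by
          unfold sh bd
          rw [hF.2.2.1 a ζ, hF.2.2.1 (a + 1) ζ]
          · simp
          · rw [h4]; rw [h3] at h'; nlinarith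
          · rw [h3] at h'; nlinarith
        unfold cut
        rw [h5]
        simp
    have h1 := dom hK hB C hC kl hkl (a + 2) (cut (sh a) g) hcs x
    rw [← (hrep (a + 2) (cut (sh a) g) hcs x).1, ← e] at h1
    refine h1.trans ?_
    unfold qa
    rw [mul_assoc, mul_assoc, mul_assoc]
    refine mul_le_mul_of_nonneg_left (mul_le_mul_of_nonneg_left ?_ hpi.le) (by positivity)
    rw [← integral_const_mul]
    refine integral_mono (hint _ hcs _ (by positivity))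
      ((hint _ hcs _ (by positivity)).const_mul 16) fun y => ?_
    have hq : (2 : ℝ) ^ (-(a + 2)) = (2 : ℝ) ^ (-a) / 4 := by
      rw [neg_add, zpow_add₀ (by norm_num)]; norm_num; ring
    rw [hq]
    show KK ((2 : ℝ) ^ (-a) / 4) (x - y) * ‖iF (cut (sh a) g) y‖ ^ 2
      ≤ 16 * (KK ((2 : ℝ) ^ (-a)) (x - y) * ‖iF (cut (sh a) g) y‖ ^ 2)
    rw [← mul_assoc]
    exact mul_le_mul_of_nonneg_right (kk_quarter _ (by positivity) _) (by positivity)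

end Pool.Agent.Lib.MP_dd244f_an.Four
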