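import Pool.Agent.Lib.MP_dd244f_an.Four.Basic

/-!
Full operator, `p = 4`: the pointwise bilinear estimate (module BilPt).
-/

set_option autoImplicit false

namespace Pool.Agent.Lib.MP_dd244f_an.Four

open MeasureTheory Filter Topology Finset

/-! ### integration by parts -/

theorem fderiv_ch (x ζ w : ℂ) :
    fderiv ℝ (ch x) ζ w
      = (2 * (Real.pi : ℂ) * Complex.I * ((x.re * w.re + x.im * w.im : ℝ) : ℂ)) * ch x ζ := by
  have h1 : HasFDerivAt (fun ζ : ℂ => (x.re * ζ.re + x.im * ζ.im : ℝ))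
      (x.re • Complex.reCLM + x.im • Complex.imCLM) ζ :=
    (Complex.reCLM.hasFDerivAt.const_mul x.re).add (Complex.imCLM.hasFDerivAt.const_mul x.im)
  have h2 : HasFDerivAt (fun ζ : ℂ => ((x.re * ζ.re + x.im * ζ.im : ℝ) : ℂ))
      (Complex.ofRealCLM.comp (x.re • Complex.reCLM + x.im • Complex.imCLM)) ζ :=
    Complex.ofRealCLM.hasFDerivAt.comp ζ h1
  have h3 := (h2.const_mul (2 * (Real.pi : ℂ) * Complex.I)).cexp
  have h4 : fderiv ℝ (ch x) ζ = _ := h3.fderiv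
  rw [h4]
  simp only [smul_apply, ContinuousLinearMap.comp_apply,
    add_apply, Complex.reCLM_apply, Complex.imCLM_apply,
    Complex.ofRealCLM_apply, smul_eq_mul]
  unfold ch
  ring

theorem differentiable_ch (x : ℂ) : Differentiable ℝ (ch x) := by
  unfold ch
  have h1 : Differentiable ℝ (fun ζ : ℂ => (x.re * ζ.re + x.im * ζ.im : ℝ)) := by
    intro ζ
    exact ((Complex.reCLM.hasFDerivAt.const_mul x.re).add
      (Complex.imCLM.hasFDerivAt.const_mul x.im)).differentiableAt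
  have h2 : Differentiable ℝ (fun ζ : ℂ => ((x.re * ζ.re + x.im * ζ.im : ℝ) : ℂ)) :=
    Complex.ofRealCLM.differentiable.comp h1
  exact (h2.const_mul _).cexp

theorem CC.integrable {g : ℂ → ℂ} (hg : CC g) : Integrable g :=
  hg.1.integrable_of_hasCompactSupport hg.2

theorem CC.integrable_mul {g φ : ℂ → ℂ} (hg : CC g) (hφ : Continuous φ) :
    Integrable (fun ζ => φ ζ * g ζ) :=
  (hφ.mul hg.1).integrable_of_hasCompactSupport (hg.2.mul_left)

theorem iF_fderiv {f : ℂ → ℂ} (hf : ContDiff ℝ 1 f) (hs : HasCompactSupport f) (x w : ℂ) :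
    iF (fun ζ => fderiv ℝ f ζ w) x
      = -(2 * (Real.pi : ℂ) * Complex.I * ((x.re * w.re + x.im * w.im : ℝ) : ℂ)) * iF f x := by
  have hc : Continuous (fun ζ => fderiv ℝ f ζ w) :=
    (hf.continuous_fderiv (by simp)).clm_apply continuous_const
  have hs' : HasCompactSupport (fun ζ => fderiv ℝ f ζ w) :=
    (hs.fderiv (𝕜 := ℝ)).comp_left (g := fun L : ℂ →L[ℝ] ℂ => L w) (by simp)
  unfold iF
  rw [integral_mul_fderiv_eq_neg_fderiv_mul_of_integrable]
  · simp_rw [fderiv_ch]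
    rw [neg_mul, ← integral_const_mul]
    congr 2
    ext ζ
    ring
  · have : Integrable (fun ζ => (2 * (Real.pi : ℂ) * Complex.I
        * ((x.re * w.re + x.im * w.im : ℝ) : ℂ)) * (ch x ζ * f ζ)) :=
      (CC.integrable_mul ⟨hf.continuous, hs⟩ (continuous_ch x)).const_mul _
    refine this.congr (Filter.Eventually.of_forall fun ζ => ?_)
    simp only [fderiv_ch]
    ring
  · exact CC.integrable_mul ⟨hc, hs'⟩ (continuous_ch x)
  · exact CC.integrable_mul ⟨hf.continuous, hs⟩ (continuous_ch x)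
  · intro ζ _
    exact differentiable_ch x ζ
  · intro ζ _
    exact (hf.differentiable (by simp)) ζ

theorem contDiff_fderiv_apply {a : ℂ → ℂ} (ha : ContDiff ℝ 2 a) (w : ℂ) :
    ContDiff ℝ 1 (fun z => fderiv ℝ a z w) := by
  have : ContDiff ℝ 1 (fderiv ℝ a) := ha.fderiv_right (by norm_num)
  exact this.clm_apply contDiff_const

theorem hasCompactSupport_fderiv_apply {a : ℂ → ℂ} (ha : HasCompactSupport a) (w : ℂ) :
    HasCompactSupport (fun z => fderiv ℝ a z w) :=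
  (ha.fderiv (𝕜 := ℝ)).comp_left (g := fun L : ℂ →L[ℝ] ℂ => L w) (by simp)

theorem lap_cc {a : ℂ → ℂ} (ha : ContDiff ℝ 2 a) (hs : HasCompactSupport a) : CC (lap a) := by
  have hc : ∀ w : ℂ, Continuous (fun δ => fderiv ℝ (fun z => fderiv ℝ a z w) δ w) := fun w =>
    ((contDiff_fderiv_apply ha w).continuous_fderiv (by simp)).clm_apply continuous_const
  have hs' : ∀ w : ℂ, HasCompactSupport (fun δ => fderiv ℝ (fun z => fderiv ℝ a z w) δ w) :=
    fun w => hasCompactSupport_fderiv_apply (hasCompactSupport_fderiv_apply hs w) w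
  exact ⟨(hc 1).add (hc Complex.I), (hs' 1).add (hs' Complex.I)⟩

theorem iF_lap {a : ℂ → ℂ} (ha : ContDiff ℝ 2 a) (hs : HasCompactSupport a) (x : ℂ) :
    iF (lap a) x = -((4 * Real.pi ^ 2 * ‖x‖ ^ 2 : ℝ) : ℂ) * iF a x := by
  have hc : ∀ w : ℂ, Continuous (fun δ => fderiv ℝ (fun z => fderiv ℝ a z w) δ w) := fun w =>
    ((contDiff_fderiv_apply ha w).continuous_fderiv (by simp)).clm_apply continuous_const
  have hs' : ∀ w : ℂ, HasCompactSupport (fun δ => fderiv ℝ (fun z => fderiv ℝ a z w) δ w) :=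
    fun w => hasCompactSupport_fderiv_apply (hasCompactSupport_fderiv_apply hs w) w
  have h1 : iF (lap a) x = iF (fun δ => fderiv ℝ (fun z => fderiv ℝ a z 1) δ 1) x
      + iF (fun δ => fderiv ℝ (fun z => fderiv ℝ a z Complex.I) δ Complex.I) x := by
    unfold iF lap
    rw [← integral_add]
    · congr 1; ext ζ; ring
    · exact CC.integrable_mul ⟨hc 1, hs' 1⟩ (continuous_ch x)
    · exact CC.integrable_mul ⟨hc Complex.I, hs' Complex.I⟩ (continuous_ch x)
  have h2 : ∀ w : ℂ, iF (fun δ => fderiv ℝ (fun z => fderiv ℝ a z w) δ w) x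
      = (2 * (Real.pi : ℂ) * Complex.I * ((x.re * w.re + x.im * w.im : ℝ) : ℂ)) ^ 2 * iF a x := by
    intro w
    rw [iF_fderiv (contDiff_fderiv_apply ha w) (hasCompactSupport_fderiv_apply hs w),
      iF_fderiv (ha.of_le (by norm_num)) hs]
    ring
  rw [h1, h2, h2]
  have h3 : (‖x‖ ^ 2 : ℝ) = x.re ^ 2 + x.im ^ 2 := by
    rw [← Complex.normSq_eq_norm_sq, Complex.normSq_apply]; ring
  rw [h3]
  simp only [Complex.one_re, Complex.one_im, Complex.I_re, Complex.I_im, mul_one, mul_zero,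
    add_zero, zero_add]
  push_cast
  linear_combination (4 * (Real.pi : ℂ) ^ 2 * ((x.re : ℂ) ^ 2 + (x.im : ℂ) ^ 2) * iF a x)
    * Complex.I_sq

/-- the modified symbol -/
noncomputable def bb (N : ℝ) (a : ℂ → ℂ) (δ : ℂ) : ℂ :=
  a δ - lap a δ / (4 * Real.pi ^ 2 * N ^ 2 : ℝ)

theorem bb_cc (N : ℝ) {a : ℂ → ℂ} (ha : ContDiff ℝ 2 a) (hs : HasCompactSupport a) :
    CC (bb N a) := by
  have h1 := lap_cc ha hs
  refine ⟨?_, ?_⟩
  · unfold bb
    have := h1.1; have := ha.continuous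
    fun_prop
  · have h2 : HasCompactSupport (fun δ => lap a δ / (4 * Real.pi ^ 2 * N ^ 2 : ℝ)) := by
      have : HasCompactSupport (fun δ => lap a δ * ((4 * Real.pi ^ 2 * N ^ 2 : ℝ) : ℂ)⁻¹) :=
        h1.2.mul_right
      simpa only [div_eq_mul_inv] using this
    have h3 : HasCompactSupport (fun δ => -(lap a δ / (4 * Real.pi ^ 2 * N ^ 2 : ℝ))) := by
      exact h2.comp_left (g := fun z => -z) (by simp)
    have h4 := hs.add h3
    have h5 : bb N a = a + fun δ => -(lap a δ / (4 * Real.pi ^ 2 * N ^ 2 : ℝ)) := by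
      ext δ; simp [bb, sub_eq_add_neg]
    rw [h5]; exact h4

theorem iF_bb {N : ℝ} (hN : 0 < N) {a : ℂ → ℂ} (ha : ContDiff ℝ 2 a) (hs : HasCompactSupport a)
    (x : ℂ) : iF (bb N a) x = ((1 + ‖x‖ ^ 2 / N ^ 2 : ℝ) : ℂ) * iF a x := by
  have h1 : iF (bb N a) x = iF a x - iF (lap a) x * ((4 * Real.pi ^ 2 * N ^ 2 : ℝ) : ℂ)⁻¹ := by
    unfold iF bb
    rw [← integral_mul_const, ← integral_sub]
    · congr 1; ext ζ; ring
    · exact CC.integrable_mul ⟨ha.continuous, hs⟩ (continuous_ch x)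
    · exact (CC.integrable_mul (lap_cc ha hs) (continuous_ch x)).mul_const _
  rw [h1, iF_lap ha hs]
  have hp : (Real.pi : ℂ) ≠ 0 := by exact_mod_cast Real.pi_ne_zero
  have hn : (N : ℂ) ≠ 0 := by exact_mod_cast hN.ne'
  push_cast
  field_simp
  ring

/-! ### the pointwise estimate -/

/-- the local product -/
noncomputable def psi (g h : ℂ → ℂ) (θ δ : ℂ) : ℂ := g (θ / 2 + δ) * h (θ / 2 - δ)

theorem psi_cc {g h : ℂ → ℂ} (hg : CC g) (hh : CC h) (θ : ℂ) : CC (psi g h θ) := by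
  refine ⟨?_, ?_⟩
  · have := hg.1; have := hh.1; unfold psi; fun_prop
  · have h1 : HasCompactSupport (fun δ => g (θ / 2 + δ)) :=
      hg.2.comp_homeomorph (Homeomorph.addLeft (θ / 2))
    exact h1.mul_right

theorem bil_ch_eq_iF (g h : ℂ → ℂ) (v θ : ℂ) :
    bil (fun δ => ch v δ) g h θ = iF (psi g h θ) v := rfl

theorem star_cc {g : ℂ → ℂ} (hg : CC g) : CC (fun δ => starRingEnd ℂ (g δ)) :=
  ⟨Complex.continuous_conj.comp hg.1, hg.2.comp_left (g := starRingEnd ℂ) (by simp)⟩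

theorem cauchy_schwarz {f g : ℂ → ℝ} (hf : Continuous f) (hg : Continuous g)
    (hf2 : Integrable (fun x => f x ^ 2)) (hg2 : Integrable (fun x => g x ^ 2)) :
    (∫ x, f x * g x) ^ 2 ≤ (∫ x, f x ^ 2) * ∫ x, g x ^ 2 := by
  have hf' : MemLp f 2 volume := (memLp_two_iff_integrable_sq hf.aestronglyMeasurable).2 hf2
  have hg' : MemLp g 2 volume := (memLp_two_iff_integrable_sq hg.aestronglyMeasurable).2 hg2
  have h1 := integral_mul_norm_le_Lp_mul_Lq (μ := (volume : Measure ℂ)) (f := f) (g := g)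
    (p := 2) (q := 2) Real.HolderConjugate.two_two (by simpa using hf') (by simpa using hg')
  have e1 : ∀ F : ℂ → ℝ, (∫ a, ‖F a‖ ^ (2 : ℝ)) = ∫ a, F a ^ 2 := by
    intro F
    congr 1
    ext a
    rw [Real.rpow_two, Real.norm_eq_abs, sq_abs]
  rw [e1 f, e1 g] at h1
  have hA : 0 ≤ ∫ x, f x ^ 2 := integral_nonneg fun _ => sq_nonneg _
  have hB : 0 ≤ ∫ x, g x ^ 2 := integral_nonneg fun _ => sq_nonneg _
  have h2 : |∫ x, f x * g x| ≤ ∫ a, ‖f a‖ * ‖g a‖ := by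
    calc |∫ x, f x * g x| ≤ ∫ x, |f x * g x| := abs_integral_le_integral_abs
      _ = _ := by congr 1; ext a; rw [abs_mul]; rfl
  have h3 := h2.trans h1
  have h4 : |∫ x, f x * g x| ^ 2 ≤
      ((∫ x, f x ^ 2) ^ (1 / (2 : ℝ)) * (∫ x, g x ^ 2) ^ (1 / (2 : ℝ))) ^ 2 :=
    pow_le_pow_left₀ (abs_nonneg _) h3 2
  rw [sq_abs] at h4
  refine h4.trans (le_of_eq ?_)
  rw [mul_pow, ← Real.sqrt_eq_rpow, ← Real.sqrt_eq_rpow, Real.sq_sqrt hA, Real.sq_sqrt hB]

theorem wt_pos (N : ℝ) (v : ℂ) : 1 ≤ 1 + ‖v‖ ^ 2 / N ^ 2 := by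
  have : 0 ≤ ‖v‖ ^ 2 / N ^ 2 := by positivity
  linarith

theorem bilPt_one (hB : StmtBase) {N : ℝ} (hN : 0 < N) {g h : ℂ → ℂ} (hg : CC g) (hh : CC h)
    (θ : ℂ) {a : ℂ → ℂ} (ha : ContDiff ℝ 2 a) (hs : HasCompactSupport a) :
    ‖bil a g h θ‖ ^ 2 ≤ (∫ δ, ‖bb N a δ‖ ^ 2) * Om N g h θ := by
  have hac : CC a := ⟨ha.continuous, hs⟩
  have hψ : CC (psi g h θ) := psi_cc hg hh θ
  have hψ' : CC (fun δ => starRingEnd ℂ (psi g h θ δ)) := star_cc hψ
  obtain ⟨hB1, hB2, hB3, hB4, hB5, hB6⟩ := hB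
  obtain ⟨hi, he⟩ := hB6 _ _ hac hψ'
  have e1 : bil a g h θ = ∫ ζ, a ζ * starRingEnd ℂ (starRingEnd ℂ (psi g h θ ζ)) := by
    simp only [Complex.conj_conj]; rfl
  have e2 : ∀ x, starRingEnd ℂ (iF (fun δ => starRingEnd ℂ (psi g h θ δ)) x)
      = iF (psi g h θ) (-x) := by
    intro x
    rw [hB4]
    simp only [Complex.conj_conj]
    unfold iF
    rw [← integral_neg_eq_self]
    congr 1
    ext ζ
    simp only [neg_neg, ch_neg_left]
  rw [← he] at e1
  simp only [e2] at e1 hi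
  -- norms
  have hcψ : Continuous (iF (psi g h θ)) := (hB1 _ hψ).1
  have hca : Continuous (iF (bb N a)) := (hB1 _ (bb_cc N ha hs)).1
  obtain ⟨-, -, hIb, -, hPb⟩ := hB1 _ (bb_cc N ha hs)
  have hIψ := (hB1 _ hψ).2.2.1
  let u : ℂ → ℝ := fun x => ‖iF (bb N a) x‖
  let w : ℂ → ℝ := fun x => ‖iF (psi g h θ) (-x)‖ / (1 + ‖x‖ ^ 2 / N ^ 2)
  have hcu : Continuous u := hca.norm
  have hcw : Continuous w := by
    refine Continuous.div (hcψ.comp continuous_neg).norm (by fun_prop) ?_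
    intro x
    exact (lt_of_lt_of_le one_pos (wt_pos N x)).ne'
  have hu2 : Integrable (fun x => u x ^ 2) := hIb
  have hw2 : Integrable (fun x => w x ^ 2) := by
    refine Integrable.mono' (g := fun x => ‖iF (psi g h θ) (-x)‖ ^ 2) hIψ.comp_neg
      (by fun_prop) (Filter.Eventually.of_forall fun x => ?_)
    have h1 := wt_pos N x
    simp only [w]
    rw [Real.norm_of_nonneg (by positivity), div_pow]
    apply div_le_self (by positivity)
    exact one_le_pow₀ h1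
  have key : ‖bil a g h θ‖ ≤ ∫ x, u x * w x := by
    rw [e1]
    refine (norm_integral_le_integral_norm _).trans (le_of_eq ?_)
    congr 1
    ext x
    have h1 := wt_pos N x
    simp only [u, w]
    rw [iF_bb hN ha hs, norm_mul, norm_mul, Complex.norm_real,
      Real.norm_of_nonneg (by linarith)]
    field_simp
  calc ‖bil a g h θ‖ ^ 2 ≤ (∫ x, u x * w x) ^ 2 := pow_le_pow_left₀ (norm_nonneg _) key 2
    _ ≤ (∫ x, u x ^ 2) * ∫ x, w x ^ 2 := cauchy_schwarz hcu hcw hu2 hw2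
    _ = _ := by
      congr 1
      unfold Om
      rw [← integral_neg_eq_self]
      congr 1
      ext x
      simp only [w, norm_neg, neg_neg, div_pow]
      rfl

/-! ### integration over `θ` -/

/-- the integrand -/
noncomputable def FF (N : ℝ) (g h : ℂ → ℂ) (z : ℂ × ℂ) : ℝ :=
  ‖bil (fun δ => ch z.2 δ) g h z.1‖ ^ 2 / (1 + ‖z.2‖ ^ 2 / N ^ 2) ^ 2

theorem FF_nonneg (N : ℝ) (g h : ℂ → ℂ) (z : ℂ × ℂ) : 0 ≤ FF N g h z := by
  unfold FF; positivity

theorem FF_meas (N : ℝ) {g h : ℂ → ℂ} (hg : CC g) (hh : CC h) :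
    StronglyMeasurable (FF N g h) := by
  have h1 : StronglyMeasurable (fun z : ℂ × ℂ => bil (fun δ => ch z.2 δ) g h z.1) := by
    unfold bil
    have h2 : Continuous (fun z : (ℂ × ℂ) × ℂ =>
        ch z.1.2 z.2 * (g (z.1.1 / 2 + z.2) * h (z.1.1 / 2 - z.2))) := by
      have := hg.1; have := hh.1
      unfold ch
      fun_prop
    exact h2.stronglyMeasurable.integral_prod_right
  have h2 : Measurable (FF N g h) := by
    have := h1.measurable
    unfold FF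
    fun_prop
  exact h2.stronglyMeasurable

theorem chg_cc {g : ℂ → ℂ} (hg : CC g) (y : ℂ) : CC (fun ζ => ch y ζ * g ζ) :=
  ⟨(continuous_ch y).mul hg.1, hg.2.mul_left⟩

theorem FF_slice (hB : StmtBase) (N : ℝ) {g h : ℂ → ℂ} (hg : CC g) (hh : CC h) (v : ℂ) :
    Integrable (fun θ => FF N g h (θ, v)) ∧
    ∫ θ, FF N g h (θ, v) = (∫ x, ‖iF g x‖ ^ 2 * ‖iF h (x - v)‖ ^ 2)
      / (1 + ‖v‖ ^ 2 / N ^ 2) ^ 2 := by
  obtain ⟨hc, -, hN⟩ := hB.2.1 _ _ (chg_cc hg (v / 2)) (chg_cc hh (-(v / 2)))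
  unfold FF
  simp only [bil_ch]
  constructor
  · refine Integrable.div_const ?_ _
    have h1 : Continuous (fun θ => ‖bil (fun _ => 1) (fun ζ => ch (v / 2) ζ * g ζ)
        (fun ζ => ch (-(v / 2)) ζ * h ζ) θ‖ ^ 2) := hc.1.norm.pow 2
    exact h1.integrable_of_hasCompactSupport
      (hc.2.comp_left (g := fun z : ℂ => ‖z‖ ^ 2) (by simp))
  · rw [integral_div, ← hN]
    congr 1
    unfold N22
    simp only [hB.2.2.1]
    rw [← integral_add_right_eq_self (fun x => ‖iF g x‖ ^ 2 * ‖iF h (x - v)‖ ^ 2) (v / 2)]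
    congr 1
    ext x
    congr 4
    ring

theorem wt_eq {N : ℝ} (hN : 0 < N) (v : ℂ) (t : ℝ) :
    t / (1 + ‖v‖ ^ 2 / N ^ 2) ^ 2 = N ^ 2 * (KK N v * t) := by
  unfold KK
  have h1 : 0 < N ^ 2 + ‖v‖ ^ 2 := by positivity
  field_simp

theorem GG_int (hB : StmtBase) (hK : StmtKK) {N : ℝ} (hN : 0 < N) {g h : ℂ → ℂ} (hg : CC g)
    (hh : CC h) : Integrable (fun z : ℂ × ℂ => KK N z.1 * (‖iF g z.2‖ ^ 2
      * ‖iF h (z.2 - z.1)‖ ^ 2)) := by
  obtain ⟨hgc, -, hgi, -, -⟩ := hB.1 _ hg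
  obtain ⟨hhc, ⟨B, hBd⟩, -, -, -⟩ := hB.1 _ hh
  obtain ⟨hKi, -, hKp⟩ := hK.1 N hN
  have h1 : Integrable (fun z : ℂ × ℂ => (B ^ 2 * KK N z.1) * ‖iF g z.2‖ ^ 2) :=
    (hKi.const_mul (B ^ 2)).mul_prod hgi
  refine h1.mono' ?_ (Filter.Eventually.of_forall fun z => ?_)
  · have hKc : Continuous (KK N) := by
      unfold KK
      refine Continuous.div continuous_const (by fun_prop) fun x => ?_
      positivity
    have : Continuous (fun z : ℂ × ℂ => KK N z.1 * (‖iF g z.2‖ ^ 2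
      * ‖iF h (z.2 - z.1)‖ ^ 2)) := by fun_prop
    exact this.aestronglyMeasurable
  · have hk := (hKp z.1).1.le
    rw [Real.norm_of_nonneg (by positivity)]
    have h2 : ‖iF h (z.2 - z.1)‖ ^ 2 ≤ B ^ 2 := pow_le_pow_left₀ (norm_nonneg _) (hBd _) 2
    calc KK N z.1 * (‖iF g z.2‖ ^ 2 * ‖iF h (z.2 - z.1)‖ ^ 2)
        ≤ KK N z.1 * (‖iF g z.2‖ ^ 2 * B ^ 2) := by gcongr
      _ = _ := by ring

theorem FF_int (hB : StmtBase) (hK : StmtKK) {N : ℝ} (hN : 0 < N) {g h : ℂ → ℂ} (hg : CC g)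
    (hh : CC h) : Integrable (FF N g h) (volume.prod volume) := by
  refine (integrable_prod_iff' (FF_meas N hg hh).aestronglyMeasurable).2 ⟨?_, ?_⟩
  · exact Filter.Eventually.of_forall fun v => (FF_slice hB N hg hh v).1
  · have h1 := (GG_int hB hK hN hg hh).integral_prod_left
    refine (h1.const_mul (N ^ 2)).congr (Filter.Eventually.of_forall fun v => ?_)
    simp only [Real.norm_of_nonneg (FF_nonneg N g h _)]
    rw [(FF_slice hB N hg hh v).2, wt_eq hN]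
    simp only [integral_const_mul]

theorem KK_symm (N : ℝ) (x : ℂ) : KK N (-x) = KK N x := by unfold KK; rw [norm_neg]

theorem Om_int (hB : StmtBase) (hK : StmtKK) {N : ℝ} (hN : 0 < N) {g h : ℂ → ℂ} (hg : CC g)
    (hh : CC h) : ∫ θ, Om N g h θ
      = N ^ 2 * ∫ v, KK N v * ∫ x, ‖iF g x‖ ^ 2 * ‖iF h (x - v)‖ ^ 2 := by
  have h1 : ∫ θ, Om N g h θ = ∫ θ, ∫ v, FF N g h (θ, v) := rfl
  rw [h1, integral_integral_swap (f := fun θ v => FF N g h (θ, v)) (FF_int hB hK hN hg hh),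
    ← integral_const_mul]
  congr 1
  ext v
  rw [(FF_slice hB N hg hh v).2, wt_eq hN]

theorem Om_int' (hB : StmtBase) (hK : StmtKK) {N : ℝ} (hN : 0 < N) {g h : ℂ → ℂ} (hg : CC g)
    (hh : CC h) : ∫ θ, Om N g h θ
      = N ^ 2 * ∫ x, ‖iF g x‖ ^ 2 * ∫ y, KK N (x - y) * ‖iF h y‖ ^ 2 := by
  rw [Om_int hB hK hN hg hh]
  congr 1
  simp only [← integral_const_mul]
  rw [integral_integral_swap (f := fun v x => KK N v * (‖iF g x‖ ^ 2 * ‖iF h (x - v)‖ ^ 2))
    (GG_int hB hK hN hg hh)]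
  congr 1
  ext x
  rw [← integral_sub_left_eq_self _ volume x]
  congr 1
  ext y
  rw [sub_sub_cancel]
  ring

/-- (BilPt) -/
theorem bilPt (hB : StmtBase) (hK : StmtKK) : StmtBilPt := by
  intro N g h hN hg hh
  refine ⟨?_, ?_, ?_, Om_int' hB hK hN hg hh, ?_⟩
  · intro θ a ha hs
    exact bilPt_one hB hN hg hh θ ha hs
  · intro θ
    exact integral_nonneg fun v => by positivity
  · exact (FF_int hB hK hN hg hh).integral_prod_left
  · rw [Om_int hB hK hN hg hh]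
    obtain ⟨hgc, -, hgi, hg4, -⟩ := hB.1 _ hg
    obtain ⟨hhc, ⟨B, hBd⟩, hhi, hh4, -⟩ := hB.1 _ hh
    obtain ⟨hKi, hKπ, hKp⟩ := hK.1 N hN
    have h1 : ∀ v, ∫ x, ‖iF g x‖ ^ 2 * ‖iF h (x - v)‖ ^ 2
        ≤ Real.sqrt (N4 g) * Real.sqrt (N4 h) := by
      intro v
      have h2 : Integrable (fun x => ‖iF h (x - v)‖ ^ 4) := hh4.comp_sub_right v
      have h3 := cauchy_schwarz (f := fun x => ‖iF g x‖ ^ 2) (g := fun x => ‖iF h (x - v)‖ ^ 2)
        (by fun_prop) (by fun_prop) (by simpa only [← pow_mul] using hg4)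
        (by simpa only [← pow_mul] using h2)
      simp only [← pow_mul] at h3
      have h4 : ∫ x, ‖iF h (x - v)‖ ^ (2 * 2) = N4 h := by
        unfold N4
        exact integral_sub_right_eq_self (μ := volume) (fun x => ‖iF h x‖ ^ 4) v
      have h5 : ∫ x, ‖iF g x‖ ^ (2 * 2) = N4 g := rfl
      rw [h4, h5] at h3
      rw [← Real.sqrt_mul (n4_nonneg g)]
      exact Real.le_sqrt_of_sq_le h3
    have h6 : ∫ v, KK N v * ∫ x, ‖iF g x‖ ^ 2 * ‖iF h (x - v)‖ ^ 2
        ≤ ∫ v, KK N v * (Real.sqrt (N4 g) * Real.sqrt (N4 h)) := by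
      refine integral_mono_of_nonneg (Filter.Eventually.of_forall fun v => ?_)
        (hKi.mul_const _) (Filter.Eventually.of_forall fun v => ?_)
      · have hk := (hKp v).1.le
        have : 0 ≤ ∫ x, ‖iF g x‖ ^ 2 * ‖iF h (x - v)‖ ^ 2 :=
          integral_nonneg fun _ => by positivity
        exact mul_nonneg hk this
      · exact mul_le_mul_of_nonneg_left (h1 v) (hKp v).1.le
    rw [integral_mul_const, hKπ] at h6
    calc _ ≤ N ^ 2 * (Real.pi * (Real.sqrt (N4 g) * Real.sqrt (N4 h))) :=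
          mul_le_mul_of_nonneg_left h6 (by positivity)
      _ = _ := by ring

end Pool.Agent.Lib.MP_dd244f_an.Four
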