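import Pool.Agent.Lib.MP_dd244f_an.Four.Basic

/-!
Full operator, `p = 4`: (TailHigh) the high frequencies are negligible at the block frequencies.
-/

set_option autoImplicit false

namespace Pool.Agent.Lib.MP_dd244f_an.Four

open MeasureTheory Filter Topology Finset

namespace TH

theorem int_as {σ : ℝ} {g h : ℂ → ℂ} (hg : CC g) (hh : CC h) (θ : ℂ) :
    Integrable (fun δ : ℂ => (Real.exp (-(2 * Real.pi * σ ^ 2 * ‖δ‖ ^ 2)) : ℂ) *
      (g (θ / 2 + δ) * h (θ / 2 - δ))) := by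
  have h1 := hg.1
  have h2 := hh.1
  refine Continuous.integrable_of_hasCompactSupport (by fun_prop) ?_
  refine HasCompactSupport.mul_left (HasCompactSupport.mul_right ?_)
  exact hg.2.comp_homeomorph (Homeomorph.addLeft (θ / 2))

theorem lo_top (hF : StmtFac) {g : ℂ → ℂ} (hg : CC g) : ∃ T : ℤ, ∀ i, T ≤ i → cut (lo i) g = g := by
  obtain ⟨R, hR⟩ := hg.2.isCompact.isBounded.exists_norm_le
  obtain ⟨k, hk⟩ := pow_unbounded_of_one_lt R (one_lt_two)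
  refine ⟨k, fun i hi => ?_⟩
  ext ζ
  unfold cut
  by_cases h0 : g ζ = 0
  · rw [h0, mul_zero]
  · have h1 : ζ ∈ tsupport g := subset_tsupport g h0
    have h2 : ‖ζ‖ ≤ (2 : ℝ) ^ i := by
      calc ‖ζ‖ ≤ R := hR ζ h1
        _ ≤ (2 : ℝ) ^ k := hk.le
        _ = (2 : ℝ) ^ (k : ℤ) := by rw [zpow_natCast]
        _ ≤ (2 : ℝ) ^ i := zpow_le_zpow_right₀ one_le_two hi
    rw [hF.2.1 i ζ h2]
    simp

/-- separation of the shells -/
theorem lo_sep (hF : StmtFac) {i : ℤ} {ζ η : ℂ} (h : ‖ζ + η‖ ≤ (2 : ℝ) ^ (i - 2)) :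
    (lo (i + 1) ζ - lo i ζ) * lo (i - 1) η = 0 := by
  rcases le_or_gt ‖ζ‖ ((2 : ℝ) ^ i) with h1 | h1
  · rw [hF.2.1 i ζ h1, hF.2.1 (i + 1) ζ (h1.trans (zpow_le_zpow_right₀ one_le_two (by omega)))]
    simp
  · have e1 : (2 : ℝ) ^ (i - 2) = (2 : ℝ) ^ i / 4 := by
      rw [zpow_sub₀ two_ne_zero]; norm_num
    have e2 : (2 : ℝ) ^ (i - 1) = (2 : ℝ) ^ i / 2 := by
      rw [zpow_sub₀ two_ne_zero]; norm_num
    have h2 : ‖ζ‖ ≤ ‖ζ + η‖ + ‖η‖ := by
      calc ‖ζ‖ = ‖(ζ + η) - η‖ := by ring_nf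
        _ ≤ _ := norm_sub_le _ _
    have h3 : 3 / 4 * (2 : ℝ) ^ i ≤ ‖η‖ := by rw [e1] at h; linarith
    have h4 : 0 < (2 : ℝ) ^ i := by positivity
    have h5 : lo (i - 1) η = 0 := by
      apply hF.2.2.1
      rw [e2]
      nlinarith
    rw [h5, mul_zero]

theorem as_step (hF : StmtFac) {σ : ℝ} {g : ℂ → ℂ} (hg : CC g) (i : ℤ) {θ : ℂ}
    (h : ‖θ‖ ≤ (2 : ℝ) ^ (i - 2)) :
    As σ (cut (lo (i + 1)) g) (cut (lo (i + 1)) g) θ - As σ (cut (lo i) g) (cut (lo i) g) θ =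
      2 * As σ (cut (sh i) g) (cut (sh (i - 1)) g) θ + As σ (cut (sh i) g) (cut (sh i) g) θ := by
  have hc := fun a => (hF.2.2.2.2.1 g a a hg).1
  have hs := fun a => (hF.2.2.2.2.1 g a a hg).2.2
  have e : 2 * As σ (cut (sh i) g) (cut (sh (i - 1)) g) θ =
      As σ (cut (sh i) g) (cut (sh (i - 1)) g) θ + As σ (cut (sh (i - 1)) g) (cut (sh i) g) θ := by
    rw [as_symm σ (cut (sh (i - 1)) g) (cut (sh i) g) θ]; ring
  rw [e]
  unfold As bil
  have i1 := int_as (σ := σ) (hc (i + 1)) (hc (i + 1)) θ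
  have i2 := int_as (σ := σ) (hc i) (hc i) θ
  have i3 := int_as (σ := σ) (hs i) (hs (i - 1)) θ
  have i4 := int_as (σ := σ) (hs (i - 1)) (hs i) θ
  have i5 := int_as (σ := σ) (hs i) (hs i) θ
  rw [← integral_sub i1 i2, ← integral_add i3 i4]
  refine Eq.trans ?_ (integral_add (i3.add i4) i5)
  congr 1
  ext δ
  have a1 := lo_sep hF (i := i) (ζ := θ / 2 + δ) (η := θ / 2 - δ) (by rwa [show θ / 2 + δ + (θ / 2 - δ) = θ by ring])
  have a2 := lo_sep hF (i := i) (ζ := θ / 2 - δ) (η := θ / 2 + δ) (by rwa [show θ / 2 - δ + (θ / 2 + δ) = θ by ring])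
  have b1 : ((lo (i + 1) (θ / 2 + δ) : ℂ) - lo i (θ / 2 + δ)) * lo (i - 1) (θ / 2 - δ) = 0 := by
    exact_mod_cast a1
  have b2 : ((lo (i + 1) (θ / 2 - δ) : ℂ) - lo i (θ / 2 - δ)) * lo (i - 1) (θ / 2 + δ) = 0 := by
    exact_mod_cast a2
  simp only [cut, sh, bd, sub_add_cancel]
  push_cast
  linear_combination (Complex.exp (-(2 * (Real.pi : ℂ) * (σ : ℂ) ^ 2 * (‖δ‖ : ℂ) ^ 2)) *
    g (θ / 2 + δ) * g (θ / 2 - δ)) * (b1 + b2)

theorem as_tele (hF : StmtFac) {σ : ℝ} {g : ℂ → ℂ} (hg : CC g) (N : ℤ) {θ : ℂ}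
    (h : ‖θ‖ ≤ (2 : ℝ) ^ (N - 2)) (K : ℕ) :
    As σ (cut (lo (N + K)) g) (cut (lo (N + K)) g) θ - As σ (cut (lo N) g) (cut (lo N) g) θ =
      ∑ k ∈ Finset.range K, (2 * As σ (cut (sh (N + k)) g) (cut (sh (N + k - 1)) g) θ +
        As σ (cut (sh (N + k)) g) (cut (sh (N + k)) g) θ) := by
  induction K with
  | zero => simp
  | succ K ih =>
    rw [Finset.sum_range_succ, ← ih, ← as_step hF hg (N + K) (h.trans
      (zpow_le_zpow_right₀ one_le_two (by omega)))]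
    push_cast
    rw [← add_assoc]
    ring

theorem cs (K : ℕ) (t : ℕ → ℂ) :
    ‖∑ k ∈ Finset.range K, t k‖ ^ 2 ≤ 2 * ∑ k ∈ Finset.range K, (2 : ℝ) ^ k * ‖t k‖ ^ 2 := by
  calc ‖∑ k ∈ Finset.range K, t k‖ ^ 2 ≤ (∑ k ∈ Finset.range K, ‖t k‖) ^ 2 := by
        gcongr
        exact norm_sum_le _ _
    _ ≤ (∑ k ∈ Finset.range K, (1 / 2 : ℝ) ^ k) * ∑ k ∈ Finset.range K, (2 : ℝ) ^ k * ‖t k‖ ^ 2 := by
        refine Finset.sum_sq_le_sum_mul_sum_of_sq_le_mul _ (fun k _ => by positivity)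
          (fun k _ => by positivity) fun k _ => ?_
        rw [← mul_assoc, ← mul_pow]
        norm_num
    _ ≤ _ := by
        gcongr
        exact sum_geometric_two_le K

theorem kk_nonneg (ρ : ℝ) (x : ℂ) : 0 ≤ KK ρ x := by unfold KK; positivity

theorem kk_cont {ρ : ℝ} (hρ : 0 < ρ) : Continuous (KK ρ) := by
  unfold KK
  refine Continuous.div (by fun_prop) (by fun_prop) fun x => ?_
  positivity

theorem qa_nonneg (a : ℤ) (g : ℂ → ℂ) (x : ℂ) : 0 ≤ qa a g x :=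
  integral_nonneg fun y => mul_nonneg (kk_nonneg _ _) (by positivity)

/-- the energy of one pair of shells -/
theorem om_int (hBP : StmtBilPt) (hK : StmtKK) (hF : StmtFac) (hB : StmtBase)
    {CL : ℝ} (hCL : 0 < CL)
    (hL : ∀ (a : ℤ) (g : ℂ → ℂ), CC g → ∀ x, ‖iF (cut (sh a) g) x‖ ^ 2 ≤ CL * qa a g x)
    {g : ℂ → ℂ} (hg : CC g) (hq : ∀ a, Integrable (fun x => qa a g x ^ 2))
    {σ : ℝ} (hσ : 0 < σ) (i j : ℤ) (h1 : 1 ≤ σ * (2 : ℝ) ^ j) :
    ∫ θ, Om σ (cut (sh i) g) (cut (sh j) g) θ ≤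
      σ ^ 2 * (CL * (σ * (2 : ℝ) ^ j) ^ 2 *
        (((∫ x, qa i g x ^ 2) + ∫ x, qa j g x ^ 2) / 2)) := by
  have hs := fun a => (hF.2.2.2.2.1 g a a hg).2.2
  rw [(hBP σ _ _ hσ (hs i) (hs j)).2.2.2.1]
  refine mul_le_mul_of_nonneg_left ?_ (by positivity)
  have hρ : (0 : ℝ) < (2 : ℝ) ^ (-j) := by positivity
  have hσj : σ = (σ * (2 : ℝ) ^ j) * (2 : ℝ) ^ (-j) := by
    rw [mul_assoc, ← zpow_add₀ two_ne_zero]; simp
  have hint : ∀ x, Integrable (fun y => KK ((2 : ℝ) ^ (-j)) (x - y) * ‖iF (cut (sh j) g) y‖ ^ 2) := by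
    intro x
    refine Integrable.bdd_mul ((hB.1 _ (hs j)).2.2.1)
      (((kk_cont hρ).comp (continuous_const.sub continuous_id)).aestronglyMeasurable)
      (c := 1 / ((2 : ℝ) ^ (-j)) ^ 2) (Eventually.of_forall fun y => ?_)
    rw [Real.norm_of_nonneg (kk_nonneg _ _)]
    exact ((hK.1 _ hρ).2.2 _).2
  have hin : ∀ x, (∫ y, KK σ (x - y) * ‖iF (cut (sh j) g) y‖ ^ 2) ≤
      (σ * (2 : ℝ) ^ j) ^ 2 * qa j g x := by
    intro x
    unfold qa
    rw [← integral_const_mul]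
    refine integral_mono_of_nonneg (Eventually.of_forall fun y =>
      mul_nonneg (kk_nonneg _ _) (by positivity)) ((hint x).const_mul _)
      (Eventually.of_forall fun y => ?_)
    have h2 := hK.2.2.2 ((2 : ℝ) ^ (-j)) (σ * (2 : ℝ) ^ j) hρ h1 (x - y)
    rw [← hσj] at h2
    calc KK σ (x - y) * ‖iF (cut (sh j) g) y‖ ^ 2 ≤
        ((σ * (2 : ℝ) ^ j) ^ 2 * KK ((2 : ℝ) ^ (-j)) (x - y)) * ‖iF (cut (sh j) g) y‖ ^ 2 := by
          gcongr
      _ = _ := by ring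
  have e : CL * (σ * (2 : ℝ) ^ j) ^ 2 * (((∫ x, qa i g x ^ 2) + ∫ x, qa j g x ^ 2) / 2) =
      ∫ x, CL * (σ * (2 : ℝ) ^ j) ^ 2 * ((qa i g x ^ 2 + qa j g x ^ 2) / 2) := by
    rw [integral_const_mul, integral_div, integral_add (hq i) (hq j)]
  rw [e]
  refine integral_mono_of_nonneg (Eventually.of_forall fun x =>
      mul_nonneg (by positivity) (integral_nonneg fun y =>
        mul_nonneg (kk_nonneg _ _) (by positivity)))
    ((((hq i).add (hq j)).div_const 2).const_mul _) (Eventually.of_forall fun x => ?_)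
  have h3 := hL i g hg x
  have h4 := hin x
  have h5 := qa_nonneg i g x
  have h6 := qa_nonneg j g x
  calc ‖iF (cut (sh i) g) x‖ ^ 2 * ∫ y, KK σ (x - y) * ‖iF (cut (sh j) g) y‖ ^ 2
      ≤ (CL * qa i g x) * ((σ * (2 : ℝ) ^ j) ^ 2 * qa j g x) := by
        refine mul_le_mul h3 h4 (integral_nonneg fun y =>
          mul_nonneg (kk_nonneg _ _) (by positivity)) (by positivity)
    _ = CL * (σ * (2 : ℝ) ^ j) ^ 2 * (qa i g x * qa j g x) := by ring
    _ ≤ CL * (σ * (2 : ℝ) ^ j) ^ 2 * ((qa i g x ^ 2 + qa j g x ^ 2) / 2) := by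
        gcongr
        nlinarith [sq_nonneg (qa i g x - qa j g x)]

theorem exp_bound {u : ℝ} (hu : 0 < u) : Real.exp (-(u ^ 2 / 4)) * u ^ 2 ≤ 384 / u ^ 4 := by
  have h0 : 0 ≤ u ^ 2 / 4 := by positivity
  have h1 : (u ^ 2 / 4) ^ 3 / 6 ≤ Real.exp (u ^ 2 / 4) := by
    have := Real.pow_div_factorial_le_exp (u ^ 2 / 4) h0 3
    simpa [Nat.factorial] using this
  rw [Real.exp_neg, le_div_iff₀ (by positivity), inv_mul_eq_div, div_mul_eq_mul_div,
    div_le_iff₀ (Real.exp_pos _)]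
  calc u ^ 2 * u ^ 4 = 384 * ((u ^ 2 / 4) ^ 3 / 6) := by ring
    _ ≤ _ := by gcongr

/-- one block -/
theorem block (hG : ∃ C, 0 < C ∧ ∀ (σ ρ : ℝ) (g h : ℂ → ℂ) (θ : ℂ), 0 < σ → 1 ≤ σ * ρ →
      CC g → CC h → (∀ δ, g (θ / 2 + δ) ≠ 0 → h (θ / 2 - δ) ≠ 0 → ρ ≤ ‖δ‖) →
      ‖As σ g h θ‖ ^ 2 ≤ C * Real.exp (-(σ ^ 2 * ρ ^ 2)) / σ ^ 2 * Om σ g h θ)
    (hBP : StmtBilPt) (hK : StmtKK) (hF : StmtFac) (hB : StmtBase) (hL : StmtLPK) :
    ∃ C, 0 < C ∧ ∀ (g : ℂ → ℂ), CC g → (∀ a, Integrable (fun x => qa a g x ^ 2)) →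
      ∀ (N : ℤ) (K : ℕ) (σ : ℝ), 2 ≤ σ * (2 : ℝ) ^ N → ∀ J : Set ℂ, MeasurableSet J →
      (∀ θ ∈ J, ‖θ‖ ≤ (2 : ℝ) ^ (N - 2)) →
      ∫ θ in J, ‖As σ (cut (lo (N + K)) g) (cut (lo (N + K)) g) θ -
          As σ (cut (lo N) g) (cut (lo N) g) θ‖ ^ 2 ≤
        C / (σ * (2 : ℝ) ^ N) ^ 4 * ∑ k ∈ Finset.range K, (1 / 2 : ℝ) ^ k *
          ((∫ x, qa (N + k) g x ^ 2) + ∫ x, qa (N + k - 1) g x ^ 2) := by
  obtain ⟨CG, hCG, hG⟩ := hG
  obtain ⟨CL, hCL, hL⟩ := hL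
  refine ⟨4608 * CG * CL, by positivity, fun g hg hq N K σ hσN J hJ hJN => ?_⟩
  have hs := fun a => (hF.2.2.2.2.1 g a a hg).2.2
  have hN0 : (0 : ℝ) < (2 : ℝ) ^ N := by positivity
  have hσ : 0 < σ := by
    by_contra hcon
    push Not at hcon
    have : σ * (2 : ℝ) ^ N ≤ 0 := mul_nonpos_of_nonpos_of_nonneg hcon hN0.le
    linarith
  have hi1 : ∀ k : ℕ, (2 : ℝ) ^ (N + (k : ℤ)) = (2 : ℝ) ^ N * 2 ^ k := by
    intro k
    rw [zpow_add₀ two_ne_zero, zpow_natCast]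
  have hi2 : ∀ k : ℕ, (2 : ℝ) ^ (N + (k : ℤ) - 1) = (2 : ℝ) ^ N * 2 ^ k / 2 := by
    intro k
    rw [zpow_sub₀ two_ne_zero, hi1, zpow_one]
  have h2k : ∀ k : ℕ, (1 : ℝ) ≤ 2 ^ k := fun k => one_le_pow₀ one_le_two
  -- Gaussian tails
  have hA : ∀ (k : ℕ) (j : ℤ), ∀ θ ∈ J,
      ‖As σ (cut (sh (N + k)) g) (cut (sh j) g) θ‖ ^ 2 ≤
        CG * Real.exp (-((σ * (2 : ℝ) ^ N * 2 ^ k) ^ 2 / 4)) / σ ^ 2 *
          Om σ (cut (sh (N + k)) g) (cut (sh j) g) θ := by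
    intro k j θ hθ
    have h1 := hG σ ((2 : ℝ) ^ N * 2 ^ k / 2) (cut (sh (N + k)) g) (cut (sh j) g) θ hσ ?_
      (hs _) (hs _) ?_
    · have e : σ ^ 2 * ((2 : ℝ) ^ N * 2 ^ k / 2) ^ 2 = (σ * (2 : ℝ) ^ N * 2 ^ k) ^ 2 / 4 := by ring
      rwa [e] at h1
    · have := h2k k
      nlinarith
    · intro δ hδ _
      have h2 : sh (N + k) (θ / 2 + δ) ≠ 0 := by
        intro h0
        apply hδ
        unfold cut
        rw [h0]
        simp
      have h3 : (2 : ℝ) ^ (N + (k : ℤ)) ≤ ‖θ / 2 + δ‖ := by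
        by_contra hcon
        push Not at hcon
        apply h2
        unfold sh bd
        rw [hF.2.1 _ _ hcon.le, hF.2.1 _ _ (hcon.le.trans
          (zpow_le_zpow_right₀ one_le_two (by omega)))]
        simp
      have h4 : ‖θ / 2 + δ‖ ≤ ‖θ‖ / 2 + ‖δ‖ := by
        calc _ ≤ ‖θ / 2‖ + ‖δ‖ := norm_add_le _ _
          _ = _ := by rw [norm_div]; simp
      have h5 := hJN θ hθ
      have h6 : (2 : ℝ) ^ (N - 2) = (2 : ℝ) ^ N / 4 := by
        rw [zpow_sub₀ two_ne_zero]; norm_num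
      rw [hi1] at h3
      have := h2k k
      rw [h6] at h5
      nlinarith
  -- pointwise bound
  set R : ℂ → ℝ := fun θ => ∑ k ∈ Finset.range K, 2 * (2 : ℝ) ^ k *
    (CG * Real.exp (-((σ * (2 : ℝ) ^ N * 2 ^ k) ^ 2 / 4)) / σ ^ 2) *
      (8 * Om σ (cut (sh (N + k)) g) (cut (sh (N + k - 1)) g) θ +
        2 * Om σ (cut (sh (N + k)) g) (cut (sh (N + k)) g) θ) with hR
  have hOi : ∀ i j, Integrable (Om σ (cut (sh i) g) (cut (sh j) g)) :=
    fun i j => (hBP σ _ _ hσ (hs i) (hs j)).2.2.1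
  have hO0 : ∀ i j θ, 0 ≤ Om σ (cut (sh i) g) (cut (sh j) g) θ :=
    fun i j => (hBP σ _ _ hσ (hs i) (hs j)).2.1
  have hRi : Integrable R := by
    rw [hR]
    refine integrable_finsetSum _ fun k _ => ?_
    exact (((hOi _ _).const_mul 8).add ((hOi _ _).const_mul 2)).const_mul _
  have hR0 : ∀ θ, 0 ≤ R θ := by
    intro θ
    refine Finset.sum_nonneg fun k _ => ?_
    have h1 := hO0 (N + k) (N + k - 1) θ
    have h2 := hO0 (N + k) (N + k) θ
    positivity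
  have hpt : ∀ θ ∈ J, ‖As σ (cut (lo (N + K)) g) (cut (lo (N + K)) g) θ -
          As σ (cut (lo N) g) (cut (lo N) g) θ‖ ^ 2 ≤ R θ := by
    intro θ hθ
    rw [as_tele hF hg N (hJN θ hθ) K]
    refine (cs K _).trans ?_
    rw [hR, Finset.mul_sum]
    refine Finset.sum_le_sum fun k _ => ?_
    have h1 := hA k (N + k - 1) θ hθ
    have h2 := hA k (N + k) θ hθ
    have h3 : ∀ z w : ℂ, ‖2 * z + w‖ ^ 2 ≤ 8 * ‖z‖ ^ 2 + 2 * ‖w‖ ^ 2 := by
      intro z w
      have h4 : ‖2 * z + w‖ ≤ 2 * ‖z‖ + ‖w‖ := by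
        refine (norm_add_le _ _).trans ?_
        rw [norm_mul]
        simp
      calc ‖2 * z + w‖ ^ 2 ≤ (2 * ‖z‖ + ‖w‖) ^ 2 := by gcongr
        _ ≤ _ := by nlinarith [sq_nonneg (2 * ‖z‖ - ‖w‖)]
    calc 2 * ((2 : ℝ) ^ k * ‖2 * As σ (cut (sh (N + k)) g) (cut (sh (N + k - 1)) g) θ +
            As σ (cut (sh (N + k)) g) (cut (sh (N + k)) g) θ‖ ^ 2)
        ≤ 2 * ((2 : ℝ) ^ k * (8 * ‖As σ (cut (sh (N + k)) g) (cut (sh (N + k - 1)) g) θ‖ ^ 2 +
            2 * ‖As σ (cut (sh (N + k)) g) (cut (sh (N + k)) g) θ‖ ^ 2)) := by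
          gcongr
          exact h3 _ _
      _ ≤ 2 * ((2 : ℝ) ^ k * (8 * (CG * Real.exp (-((σ * (2 : ℝ) ^ N * 2 ^ k) ^ 2 / 4)) / σ ^ 2 *
            Om σ (cut (sh (N + k)) g) (cut (sh (N + k - 1)) g) θ) +
            2 * (CG * Real.exp (-((σ * (2 : ℝ) ^ N * 2 ^ k) ^ 2 / 4)) / σ ^ 2 *
              Om σ (cut (sh (N + k)) g) (cut (sh (N + k)) g) θ))) := by
          gcongr
      _ = _ := by ring
  have hX0 : ∀ a, 0 ≤ ∫ x, qa a g x ^ 2 := fun a => integral_nonneg fun x => by positivity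
  calc ∫ θ in J, ‖As σ (cut (lo (N + K)) g) (cut (lo (N + K)) g) θ -
          As σ (cut (lo N) g) (cut (lo N) g) θ‖ ^ 2 ≤ ∫ θ in J, R θ := by
        refine integral_mono_of_nonneg (Eventually.of_forall fun θ => by positivity)
          hRi.integrableOn ?_
        exact ae_restrict_of_forall_mem hJ hpt
    _ ≤ ∫ θ, R θ := setIntegral_le_integral hRi (Eventually.of_forall hR0)
    _ = ∑ k ∈ Finset.range K, 2 * (2 : ℝ) ^ k *
          (CG * Real.exp (-((σ * (2 : ℝ) ^ N * 2 ^ k) ^ 2 / 4)) / σ ^ 2) *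
          (8 * (∫ θ, Om σ (cut (sh (N + k)) g) (cut (sh (N + k - 1)) g) θ) +
          2 * ∫ θ, Om σ (cut (sh (N + k)) g) (cut (sh (N + k)) g) θ) := by
        simp only [hR]
        rw [integral_finsetSum _ (fun k _ => by
          exact (((hOi _ _).const_mul 8).add ((hOi _ _).const_mul 2)).const_mul _)]
        refine Finset.sum_congr rfl fun k _ => ?_
        rw [integral_const_mul, integral_add ((hOi _ _).const_mul 8) ((hOi _ _).const_mul 2),
          integral_const_mul, integral_const_mul]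
    _ ≤ _ := by
        rw [Finset.mul_sum]
        refine Finset.sum_le_sum fun k _ => ?_
        have hk := h2k k
        have hu1 : 1 ≤ σ * (2 : ℝ) ^ (N + (k : ℤ) - 1) := by
          rw [hi2]
          nlinarith
        have hu2 : 1 ≤ σ * (2 : ℝ) ^ (N + (k : ℤ)) := by
          rw [hi1]
          nlinarith
        have o1 := om_int hBP hK hF hB hCL (fun a g hg x => (hL a g hg x).2.2) hg hq hσ
          (N + k) (N + k - 1) hu1
        have o2 := om_int hBP hK hF hB hCL (fun a g hg x => (hL a g hg x).2.2) hg hq hσ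
          (N + k) (N + k) hu2
        rw [hi2] at o1
        rw [hi1] at o2
        set u : ℝ := σ * (2 : ℝ) ^ N * 2 ^ k with hu
        have hu0 : 0 < u := by positivity
        set Xa := ∫ x, qa (N + k) g x ^ 2 with hXa
        set Xb := ∫ x, qa (N + k - 1) g x ^ 2 with hXb
        have hXa0 : 0 ≤ Xa := hX0 _
        have hXb0 : 0 ≤ Xb := hX0 _
        have e1 : σ * ((2 : ℝ) ^ N * 2 ^ k / 2) = u / 2 := by rw [hu]; ring
        have e2 : σ * ((2 : ℝ) ^ N * 2 ^ k) = u := by rw [hu]; ring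
        rw [e1] at o1
        rw [e2] at o2
        have o3 : 8 * (∫ θ, Om σ (cut (sh (N + k)) g) (cut (sh (N + k - 1)) g) θ) +
            2 * (∫ θ, Om σ (cut (sh (N + k)) g) (cut (sh (N + k)) g) θ) ≤
            σ ^ 2 * (CL * u ^ 2 * (6 * (Xa + Xb))) := by
          have h7 : 0 ≤ σ ^ 2 * (CL * u ^ 2) := by positivity
          nlinarith [mul_nonneg h7 hXa0, mul_nonneg h7 hXb0]
        have hexp := exp_bound hu0
        have hu4 : u ^ 4 = (σ * (2 : ℝ) ^ N) ^ 4 * 16 ^ k := by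
          rw [hu, mul_pow, ← pow_mul, mul_comm k 4, pow_mul]
          norm_num
        calc 2 * (2 : ℝ) ^ k * (CG * Real.exp (-(u ^ 2 / 4)) / σ ^ 2) *
              (8 * (∫ θ, Om σ (cut (sh (N + k)) g) (cut (sh (N + k - 1)) g) θ) +
                2 * ∫ θ, Om σ (cut (sh (N + k)) g) (cut (sh (N + k)) g) θ)
            ≤ 2 * (2 : ℝ) ^ k * (CG * Real.exp (-(u ^ 2 / 4)) / σ ^ 2) *
              (σ ^ 2 * (CL * u ^ 2 * (6 * (Xa + Xb)))) := by gcongr
          _ = 12 * CG * CL * (2 : ℝ) ^ k * (Xa + Xb) * (Real.exp (-(u ^ 2 / 4)) * u ^ 2) := by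
              field_simp
              ring
          _ ≤ 12 * CG * CL * (2 : ℝ) ^ k * (Xa + Xb) * (384 / u ^ 4) := by gcongr
          _ = 4608 * CG * CL / (σ * (2 : ℝ) ^ N) ^ 4 * ((2 : ℝ) ^ k / 16 ^ k * (Xa + Xb)) := by
              rw [hu4]
              field_simp
              ring
          _ ≤ 4608 * CG * CL / (σ * (2 : ℝ) ^ N) ^ 4 * ((1 / 2 : ℝ) ^ k * (Xa + Xb)) := by
              have hkk : (2 : ℝ) ^ k / 16 ^ k ≤ (1 / 2) ^ k := by
                rw [← div_pow]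
                exact pow_le_pow_left₀ (by norm_num) (by norm_num) k
              gcongr

end TH

open TH in
/-- (TailHigh) the high frequencies are negligible at the block frequencies -/
theorem tailHigh (hG : StmtGT) (hBP : StmtBilPt) (hK : StmtKK) (hS : StmtSq) (hL : StmtLPK)
    (hF : StmtFac) (hB : StmtBase) : StmtTailHigh := by
  obtain ⟨C, hC, hblock⟩ := block hG hBP hK hF hB hL
  obtain ⟨CS, hCS, hS⟩ := hS
  intro Q L m ε hQ hm hLm hε
  have hQ0 : 0 < Q := by linarith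
  obtain ⟨n₀, hn₀⟩ := exists_nat_gt (max (4 * Q ^ 2) (4 * C * CS * Q ^ 4 / ε))
  refine ⟨n₀, fun n hn g hg c Bs => ?_⟩
  have hn1 : max (4 * Q ^ 2) (4 * C * CS * Q ^ 4 / ε) < (n : ℝ) :=
    hn₀.trans_le (by exact_mod_cast hn)
  have hn2 : 4 * Q ^ 2 < (n : ℝ) := (le_max_left _ _).trans_lt hn1
  have hn3 : 4 * C * CS * Q ^ 4 / ε < (n : ℝ) := (le_max_right _ _).trans_lt hn1
  have hn4 : (1 : ℝ) ≤ n := by nlinarith
  have hq : ∀ a, Integrable (fun x => qa a g x ^ 2) := by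
    intro a
    have := (hS {a} g hg).1
    simpa using this
  obtain ⟨T, hT⟩ := lo_top hF hg
  set K : ℕ := ∑ b ∈ Bs, (T - (c + b * L + L)).toNat with hKdef
  have hK : ∀ b ∈ Bs, T ≤ c + b * L + L + K := by
    intro b hb
    have h1 : (T - (c + b * L + L)).toNat ≤ K :=
      Finset.single_le_sum (f := fun b : ℤ => (T - (c + b * L + L)).toNat) (fun _ _ => Nat.zero_le _) hb
    have h2 : T - (c + b * L + L) ≤ ((T - (c + b * L + L)).toNat : ℤ) := Int.self_le_toNat _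
    have h3 : (((T - (c + b * L + L)).toNat : ℕ) : ℤ) ≤ (K : ℤ) := by exact_mod_cast h1
    linarith
  -- the block
  have hb : ∀ b ∈ Bs, ∫ θ in Jset (c + b * L) L m, ‖As (win n Q (c + b * L) L) g g θ
      - As (win n Q (c + b * L) L) (cut (lo (c + b * L + L)) g) (cut (lo (c + b * L + L)) g) θ‖ ^ 2
      ≤ C * Q ^ 4 / n ^ 2 * ∑ k ∈ Finset.range K, (1 / 2 : ℝ) ^ k *
          ((∫ x, qa (c + b * L + L + k) g x ^ 2) + ∫ x, qa (c + b * L + L + k - 1) g x ^ 2) := by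
    intro b hb
    have hwin : win n Q (c + b * L) L * (2 : ℝ) ^ (c + b * L + (L : ℤ)) = Real.sqrt n / Q := by
      unfold win
      have : (2 : ℝ) ^ (c + b * L + (L : ℤ)) ≠ 0 := by positivity
      field_simp
    have hsq : 2 ≤ Real.sqrt n / Q := by
      rw [le_div_iff₀ hQ0]
      apply Real.le_sqrt_of_sq_le
      nlinarith
    have hJm : MeasurableSet (Jset (c + b * L) L m) := by
      unfold Jset
      exact (measurableSet_le measurable_const measurable_norm).inter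
        (measurableSet_le measurable_norm measurable_const)
    have h1 := hblock g hg hq (c + b * L + L) K (win n Q (c + b * L) L) (by rw [hwin]; exact hsq)
      (Jset (c + b * L) L m) hJm ?_
    · rw [hT _ (hK b hb), hwin] at h1
      have e : C / (Real.sqrt n / Q) ^ 4 = C * Q ^ 4 / n ^ 2 := by
        have h2 : Real.sqrt (n : ℝ) ^ 4 = (n : ℝ) ^ 2 := by
          rw [show (4 : ℕ) = 2 * 2 from rfl, pow_mul, Real.sq_sqrt (by positivity)]
        rw [div_pow, h2]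
        field_simp
      rwa [e] at h1
    · intro θ hθ
      refine hθ.2.trans (zpow_le_zpow_right₀ one_le_two ?_)
      have : (4 : ℤ) ≤ m := by exact_mod_cast hm
      linarith
  -- sum over the blocks
  have hLpos : 0 < (L : ℤ) := by
    have : 0 < L := by omega
    exact_mod_cast this
  have hsum : ∀ k' : ℤ, ∑ b ∈ Bs, (∫ x, qa (c + b * L + L + k') g x ^ 2) ≤ CS * N4 g := by
    intro k'
    set f : ℤ → ℤ := fun b => c + b * L + L + k' with hf
    have hinj : Function.Injective f := by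
      intro a b hab
      have h1 : a * (L : ℤ) = b * L := by
        simp only [hf] at hab
        linarith
      exact mul_right_cancel₀ hLpos.ne' h1
    have h1 : ∑ b ∈ Bs, (∫ x, qa (c + b * L + L + k') g x ^ 2) =
        ∑ i ∈ Bs.image f, ∫ x, qa i g x ^ 2 := by
      rw [Finset.sum_image (fun a _ b _ hab => hinj hab)]
    rw [h1, ← integral_finsetSum _ (fun i _ => hq i)]
    refine le_trans ?_ (hS (Bs.image f) g hg).2
    refine integral_mono_of_nonneg (Eventually.of_forall fun x =>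
      Finset.sum_nonneg fun i _ => by positivity) (hS (Bs.image f) g hg).1
      (Eventually.of_forall fun x => ?_)
    have h2 : ∀ (s : Finset ℤ) (y : ℤ → ℝ), (∀ i, 0 ≤ y i) →
        ∑ i ∈ s, y i ^ 2 ≤ (∑ i ∈ s, y i) ^ 2 := by
      intro s y hy
      rw [sq, Finset.sum_mul]
      refine Finset.sum_le_sum fun i hi => ?_
      rw [sq]
      exact mul_le_mul_of_nonneg_left (Finset.single_le_sum (fun j _ => hy j) hi) (hy i)
    exact h2 _ _ fun i => qa_nonneg i g x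
  have hN4 := n4_nonneg g
  calc _ ≤ ∑ b ∈ Bs, C * Q ^ 4 / n ^ 2 * ∑ k ∈ Finset.range K, (1 / 2 : ℝ) ^ k *
          ((∫ x, qa (c + b * L + L + k) g x ^ 2) + ∫ x, qa (c + b * L + L + k - 1) g x ^ 2) :=
        Finset.sum_le_sum hb
    _ = C * Q ^ 4 / n ^ 2 * ∑ k ∈ Finset.range K, (1 / 2 : ℝ) ^ k *
          ((∑ b ∈ Bs, ∫ x, qa (c + b * L + L + k) g x ^ 2) +
            ∑ b ∈ Bs, ∫ x, qa (c + b * L + L + k - 1) g x ^ 2) := by
        rw [← Finset.mul_sum, Finset.sum_comm]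
        congr 1
        refine Finset.sum_congr rfl fun k _ => ?_
        rw [← Finset.mul_sum, Finset.sum_add_distrib]
    _ ≤ C * Q ^ 4 / n ^ 2 * ∑ k ∈ Finset.range K, (1 / 2 : ℝ) ^ k * (CS * N4 g + CS * N4 g) := by
        gcongr with k hk
        · exact hsum k
        · have := hsum ((k : ℤ) - 1)
          refine le_trans (le_of_eq ?_) this
          refine Finset.sum_congr rfl fun b _ => ?_
          rw [add_sub_assoc]
    _ = C * Q ^ 4 / n ^ 2 * ((∑ k ∈ Finset.range K, (1 / 2 : ℝ) ^ k) * (2 * CS * N4 g)) := by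
        rw [← Finset.sum_mul]
        ring
    _ ≤ C * Q ^ 4 / n ^ 2 * (2 * (2 * CS * N4 g)) := by
        gcongr
        exact sum_geometric_two_le K
    _ = (4 * C * CS * Q ^ 4) / n ^ 2 * N4 g := by ring
    _ ≤ ε * N4 g := by
        gcongr
        rw [div_le_iff₀ (by positivity)]
        rw [div_lt_iff₀ hε] at hn3
        nlinarith [mul_pos hε (by positivity : (0 : ℝ) < n)]

end Pool.Agent.Lib.MP_dd244f_an.Four
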