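import Pool.Agent.Lib.MP_dd244f_an.Four.Basic

/-!
Full operator, `p = 4`: the interaction of a shell with low frequencies (module Top).
-/

set_option autoImplicit false

namespace Pool.Agent.Lib.MP_dd244f_an.Four

open MeasureTheory Filter Topology Finset

namespace TopAux

/-- real inner product -/
noncomputable def ip (z w : ℂ) : ℝ := (z * starRingEnd ℂ w).re

theorem nsq_add (z w : ℂ) : ‖z + w‖ ^ 2 = ‖z‖ ^ 2 + 2 * ip z w + ‖w‖ ^ 2 := by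
  simp only [← Complex.normSq_eq_norm_sq]
  rw [Complex.normSq_add]
  unfold ip
  ring

theorem ip_add_left (z w u : ℂ) : ip (z + w) u = ip z u + ip w u := by
  unfold ip
  rw [add_mul, Complex.add_re]

theorem ip_add_right (z w u : ℂ) : ip u (z + w) = ip u z + ip u w := by
  unfold ip
  rw [map_add, mul_add, Complex.add_re]

theorem abs_ip (z w : ℂ) : |ip z w| ≤ ‖z‖ * ‖w‖ := by
  unfold ip
  refine (Complex.abs_re_le_norm _).trans ?_
  rw [norm_mul, RCLike.norm_conj]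

theorem lemQ (E V : ℂ) : |‖E + V‖ ^ 4 - ‖E‖ ^ 4 - 4 * ‖E‖ ^ 2 * ip E V|
    ≤ 6 * (‖V‖ ^ 2 * (‖E‖ + ‖V‖) ^ 2) := by
  have h1 := nsq_add E V
  have h2 := abs_le.1 (abs_ip E V)
  have e : ‖E + V‖ ^ 4 - ‖E‖ ^ 4 - 4 * ‖E‖ ^ 2 * ip E V
      = 2 * ‖E‖ ^ 2 * ‖V‖ ^ 2 + (2 * ip E V + ‖V‖ ^ 2) ^ 2 := by
    have : ‖E + V‖ ^ 4 = (‖E + V‖ ^ 2) ^ 2 := by ring
    rw [this, h1]; ring
  have hE := norm_nonneg E
  have hV := norm_nonneg V
  rw [e, abs_of_nonneg (by positivity)]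
  have h3 : (2 * ip E V + ‖V‖ ^ 2) ^ 2 ≤ (2 * (‖E‖ * ‖V‖) + ‖V‖ ^ 2) ^ 2 := by
    apply sq_le_sq'
    · nlinarith [h2.1, h2.2, sq_nonneg ‖V‖]
    · linarith [h2.2]
  have h4 : 2 * ‖E‖ ^ 2 * ‖V‖ ^ 2 + (2 * (‖E‖ * ‖V‖) + ‖V‖ ^ 2) ^ 2
      ≤ 6 * (‖V‖ ^ 2 * (‖E‖ + ‖V‖) ^ 2) := by
    have : 6 * (‖V‖ ^ 2 * (‖E‖ + ‖V‖) ^ 2) - (2 * ‖E‖ ^ 2 * ‖V‖ ^ 2
        + (2 * (‖E‖ * ‖V‖) + ‖V‖ ^ 2) ^ 2) = 8 * ‖E‖ * ‖V‖ ^ 3 + 5 * ‖V‖ ^ 4 := by ring
    have h5 : 0 ≤ 8 * ‖E‖ * ‖V‖ ^ 3 + 5 * ‖V‖ ^ 4 := by positivity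
    linarith
  linarith

theorem lemD (A Bl Bh H : ℂ) :
    |‖A + (Bl + Bh) + H‖ ^ 4 - ‖A + (Bl + Bh)‖ ^ 4 - ‖(Bl + Bh) + H‖ ^ 4 + ‖Bl + Bh‖ ^ 4
      - (4 * ‖A + Bl‖ ^ 2 * ip (A + Bl) H - 4 * ‖Bl‖ ^ 2 * ip Bl H)|
    ≤ 40 * (‖A‖ * ‖H‖ * ((‖Bh‖ + ‖H‖) * (‖A‖ + ‖Bl‖ + ‖Bh‖ + ‖H‖))) := by
  have hAL := abs_ip A Bl
  have hAB := abs_ip A Bh
  have hAH := abs_ip A H
  have hLB := abs_ip Bl Bh
  have hLH := abs_ip Bl H
  have hBH := abs_ip Bh H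
  have e1 : ‖A + (Bl + Bh) + H‖ ^ 2 = ‖A‖ ^ 2 + ‖Bl‖ ^ 2 + ‖Bh‖ ^ 2 + ‖H‖ ^ 2
      + 2 * (ip A Bl + ip A Bh + ip A H + ip Bl Bh + ip Bl H + ip Bh H) := by
    rw [nsq_add, nsq_add, nsq_add]
    simp only [ip_add_left, ip_add_right]
    ring
  have e2 : ‖A + (Bl + Bh)‖ ^ 2 = ‖A‖ ^ 2 + ‖Bl‖ ^ 2 + ‖Bh‖ ^ 2
      + 2 * (ip A Bl + ip A Bh + ip Bl Bh) := by
    rw [nsq_add, nsq_add]
    simp only [ip_add_right]
    ring
  have e3 : ‖(Bl + Bh) + H‖ ^ 2 = ‖Bl‖ ^ 2 + ‖Bh‖ ^ 2 + ‖H‖ ^ 2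
      + 2 * (ip Bl Bh + ip Bl H + ip Bh H) := by
    rw [nsq_add, nsq_add]
    simp only [ip_add_left]
    ring
  have e4 : ‖Bl + Bh‖ ^ 2 = ‖Bl‖ ^ 2 + ‖Bh‖ ^ 2 + 2 * ip Bl Bh := by
    rw [nsq_add]; ring
  have e5 : ‖A + Bl‖ ^ 2 = ‖A‖ ^ 2 + ‖Bl‖ ^ 2 + 2 * ip A Bl := by
    rw [nsq_add]; ring
  have e6 : ip (A + Bl) H = ip A H + ip Bl H := ip_add_left _ _ _
  have f1 : ‖A + (Bl + Bh) + H‖ ^ 4 = (‖A + (Bl + Bh) + H‖ ^ 2) ^ 2 := by ring
  have f2 : ‖A + (Bl + Bh)‖ ^ 4 = (‖A + (Bl + Bh)‖ ^ 2) ^ 2 := by ring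
  have f3 : ‖(Bl + Bh) + H‖ ^ 4 = (‖(Bl + Bh) + H‖ ^ 2) ^ 2 := by ring
  have f4 : ‖Bl + Bh‖ ^ 4 = (‖Bl + Bh‖ ^ 2) ^ 2 := by ring
  rw [f1, f2, f3, f4, e1, e2, e3, e4, e5, e6]
  have ha := norm_nonneg A
  have hl := norm_nonneg Bl
  have hb := norm_nonneg Bh
  have hh := norm_nonneg H
  generalize ip A Bl = x1 at *
  generalize ip A Bh = x2 at *
  generalize ip A H = x3 at *
  generalize ip Bl Bh = x4 at *
  generalize ip Bl H = x5 at *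
  generalize ip Bh H = x6 at *
  generalize ‖A‖ = a at *
  generalize ‖Bl‖ = l at *
  generalize ‖Bh‖ = b at *
  generalize ‖H‖ = h at *
  clear e1 e2 e3 e4 e5 e6 f1 f2 f3 f4
  have key : (a ^ 2 + l ^ 2 + b ^ 2 + h ^ 2 + 2 * (x1 + x2 + x3 + x4 + x5 + x6)) ^ 2
      - (a ^ 2 + l ^ 2 + b ^ 2 + 2 * (x1 + x2 + x4)) ^ 2
      - (l ^ 2 + b ^ 2 + h ^ 2 + 2 * (x4 + x5 + x6)) ^ 2 + (l ^ 2 + b ^ 2 + 2 * x4) ^ 2
      - (4 * (a ^ 2 + l ^ 2 + 2 * x1) * (x3 + x5) - 4 * l ^ 2 * x5)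
      = 2 * (a ^ 2 + 2 * x1) * (h ^ 2 + 2 * x6) + 4 * x2 * (h ^ 2 + 2 * x5 + 2 * x6)
        + 4 * x3 ^ 2 + 4 * x3 * (b ^ 2 + 2 * (x4 + x2) + (h ^ 2 + 2 * x5 + 2 * x6)) := by
    ring
  rw [key]
  have b1 : |2 * (a ^ 2 + 2 * x1) * (h ^ 2 + 2 * x6)| ≤
      2 * (a ^ 2 + 2 * (a * l)) * (h ^ 2 + 2 * (b * h)) := by
    rw [abs_mul, abs_mul, abs_two]
    have c1 : |a ^ 2 + 2 * x1| ≤ a ^ 2 + 2 * (a * l) := by
      refine (abs_add_le _ _).trans ?_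
      rw [abs_mul, abs_two, abs_of_nonneg (sq_nonneg a)]
      linarith
    have c2 : |h ^ 2 + 2 * x6| ≤ h ^ 2 + 2 * (b * h) := by
      refine (abs_add_le _ _).trans ?_
      rw [abs_mul, abs_two, abs_of_nonneg (sq_nonneg h)]
      linarith
    gcongr
  have cr : |h ^ 2 + 2 * x5 + 2 * x6| ≤ h ^ 2 + 2 * (l * h) + 2 * (b * h) := by
    refine (abs_add_le _ _).trans ?_
    have := abs_add_le (h ^ 2) (2 * x5)
    rw [abs_of_nonneg (sq_nonneg h)] at this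
    rw [abs_mul, abs_two] at this ⊢
    linarith
  have b2 : |4 * x2 * (h ^ 2 + 2 * x5 + 2 * x6)| ≤
      4 * (a * b) * (h ^ 2 + 2 * (l * h) + 2 * (b * h)) := by
    rw [abs_mul, abs_mul, abs_of_pos (by norm_num : (0:ℝ) < 4)]
    gcongr
  have b3 : |4 * x3 ^ 2| ≤ 4 * (a * h) ^ 2 := by
    rw [abs_of_nonneg (by positivity)]
    have : x3 ^ 2 ≤ (a * h) ^ 2 := by
      rw [← sq_abs]
      gcongr
    linarith
  have b4 : |4 * x3 * (b ^ 2 + 2 * (x4 + x2) + (h ^ 2 + 2 * x5 + 2 * x6))| ≤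
      4 * (a * h) * (b ^ 2 + 2 * (l * b + a * b) + (h ^ 2 + 2 * (l * h) + 2 * (b * h))) := by
    rw [abs_mul, abs_mul, abs_of_pos (by norm_num : (0:ℝ) < 4)]
    have c1 : |b ^ 2 + 2 * (x4 + x2) + (h ^ 2 + 2 * x5 + 2 * x6)| ≤
        b ^ 2 + 2 * (l * b + a * b) + (h ^ 2 + 2 * (l * h) + 2 * (b * h)) := by
      refine (abs_add_le _ _).trans ?_
      have c2 := abs_add_le (b ^ 2) (2 * (x4 + x2))
      have c3 := abs_add_le x4 x2
      rw [abs_of_nonneg (sq_nonneg b), abs_mul, abs_two] at c2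
      linarith
    gcongr
  have t1 := abs_add_le (2 * (a ^ 2 + 2 * x1) * (h ^ 2 + 2 * x6) + 4 * x2 * (h ^ 2 + 2 * x5 + 2 * x6)
        + 4 * x3 ^ 2) (4 * x3 * (b ^ 2 + 2 * (x4 + x2) + (h ^ 2 + 2 * x5 + 2 * x6)))
  have t2 := abs_add_le (2 * (a ^ 2 + 2 * x1) * (h ^ 2 + 2 * x6)
    + 4 * x2 * (h ^ 2 + 2 * x5 + 2 * x6)) (4 * x3 ^ 2)
  have t3 := abs_add_le (2 * (a ^ 2 + 2 * x1) * (h ^ 2 + 2 * x6))
    (4 * x2 * (h ^ 2 + 2 * x5 + 2 * x6))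
  have fin : 2 * (a ^ 2 + 2 * (a * l)) * (h ^ 2 + 2 * (b * h))
      + 4 * (a * b) * (h ^ 2 + 2 * (l * h) + 2 * (b * h)) + 4 * (a * h) ^ 2
      + 4 * (a * h) * (b ^ 2 + 2 * (l * b + a * b) + (h ^ 2 + 2 * (l * h) + 2 * (b * h)))
      ≤ 40 * (a * h * ((b + h) * (a + l + b + h))) := by
    rw [← sub_nonneg]
    ring_nf
    positivity
  linarith

/-- quadruple products -/
theorem prod4_le (x y z w : ℝ) :
    x * y * z * w ≤ x ^ 4 + y ^ 4 + z ^ 4 + w ^ 4 := by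
  have h1 : x * y * (z * w) ≤ ((x * y) ^ 2 + (z * w) ^ 2) / 2 := by nlinarith [sq_nonneg (x * y - z * w)]
  have h2 : (x * y) ^ 2 ≤ (x ^ 4 + y ^ 4) / 2 := by nlinarith [sq_nonneg (x ^ 2 - y ^ 2)]
  have h3 : (z * w) ^ 2 ≤ (z ^ 4 + w ^ 4) / 2 := by nlinarith [sq_nonneg (z ^ 2 - w ^ 2)]
  have h4 : 0 ≤ x ^ 4 := by positivity
  have h5 : 0 ≤ y ^ 4 := by positivity
  have h6 : 0 ≤ z ^ 4 := by positivity
  have h7 : 0 ≤ w ^ 4 := by positivity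
  nlinarith

/-- continuous with integrable fourth power -/
def Q (F : ℂ → ℂ) : Prop := Continuous F ∧ Integrable (fun x => ‖F x‖ ^ 4)

theorem Q.add {F G : ℂ → ℂ} (hF : Q F) (hG : Q G) : Q (fun x => F x + G x) := by
  refine ⟨hF.1.add hG.1, ?_⟩
  refine ((hF.2.add hG.2).const_mul 8).mono'
    ((hF.1.add hG.1).norm.pow 4).aestronglyMeasurable (Eventually.of_forall fun x => ?_)
  simp only [Pi.add_apply]
  rw [Real.norm_of_nonneg (by positivity)]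
  have h1 : ‖F x + G x‖ ≤ ‖F x‖ + ‖G x‖ := norm_add_le _ _
  have h2 : ‖F x + G x‖ ^ 4 ≤ (‖F x‖ + ‖G x‖) ^ 4 := by gcongr
  have h3 := add_pow_le (norm_nonneg (F x)) (norm_nonneg (G x)) 4
  norm_num at h3
  linarith

theorem Q.int4 {F G H K : ℂ → ℂ} (hF : Q F) (hG : Q G) (hH : Q H) (hK : Q K) :
    Integrable (fun x => ‖F x‖ * ‖G x‖ * ‖H x‖ * ‖K x‖) := by
  refine (((hF.2.add hG.2).add hH.2).add hK.2).mono'
    (((hF.1.norm.mul hG.1.norm).mul hH.1.norm).mul hK.1.norm).aestronglyMeasurable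
    (Eventually.of_forall fun x => ?_)
  simp only [Pi.add_apply]
  rw [Real.norm_of_nonneg (by positivity)]
  exact prod4_le _ _ _ _

theorem Q.int22 {F G : ℂ → ℂ} (hF : Q F) (hG : Q G) :
    Integrable (fun x => ‖F x‖ ^ 2 * ‖G x‖ ^ 2) := by
  refine (hF.int4 hF hG hG).congr (Eventually.of_forall fun x => ?_)
  simp only
  ring

theorem csI {f g : ℂ → ℝ} (hf : Continuous f) (hg : Continuous g) (hf0 : ∀ x, 0 ≤ f x)
    (hg0 : ∀ x, 0 ≤ g x)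
    (hf2 : Integrable fun x => f x ^ 2) (hg2 : Integrable fun x => g x ^ 2) :
    ∫ x, f x * g x ≤ Real.sqrt (∫ x, f x ^ 2) * Real.sqrt (∫ x, g x ^ 2) := by
  have h := integral_mul_le_Lp_mul_Lq_of_nonneg (μ := (volume : Measure ℂ)) (p := 2) (q := 2)
    Real.HolderConjugate.two_two (f := f) (g := g)
    (Eventually.of_forall hf0) (Eventually.of_forall hg0)
    (by
      have := (memLp_two_iff_integrable_sq hf.aestronglyMeasurable).2 hf2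
      simpa using this)
    (by
      have := (memLp_two_iff_integrable_sq hg.aestronglyMeasurable).2 hg2
      simpa using this)
  simpa [Real.sqrt_eq_rpow] using h


/-- support of a convolution -/
theorem bil_supp {g h : ℂ → ℂ} {r1 r2 : ℝ} (hg : ∀ ζ, g ζ ≠ 0 → ‖ζ‖ ≤ r1)
    (hh : ∀ ζ, h ζ ≠ 0 → ‖ζ‖ ≤ r2) :
    ∀ θ, bil (fun _ => 1) g h θ ≠ 0 → ‖θ‖ ≤ r1 + r2 := by
  intro θ hθ
  by_contra hc
  apply hθ
  unfold bil
  have : (fun δ => (1:ℂ) * (g (θ / 2 + δ) * h (θ / 2 - δ))) = fun _ => 0 := by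
    ext δ
    by_cases h1 : g (θ / 2 + δ) = 0
    · simp [h1]
    by_cases h2 : h (θ / 2 - δ) = 0
    · simp [h2]
    exfalso
    apply hc
    have e : θ = (θ / 2 + δ) + (θ / 2 - δ) := by ring
    calc ‖θ‖ = ‖(θ / 2 + δ) + (θ / 2 - δ)‖ := by rw [← e]
      _ ≤ _ := (norm_add_le _ _).trans (add_le_add (hg _ h1) (hh _ h2))
  rw [this]
  simp

theorem van (hB : StmtBase) {e h : ℂ → ℂ} (he : CC e) (hh : CC h) {r : ℝ}
    (h1 : ∀ ζ, e ζ ≠ 0 → ‖ζ‖ ≤ r) (h2 : ∀ ζ, h ζ ≠ 0 → 3 * r < ‖ζ‖) :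
    Integrable (fun x => ‖iF e x‖ ^ 2 * ip (iF e x) (iF h x)) ∧
      ∫ x, ‖iF e x‖ ^ 2 * ip (iF e x) (iF h x) = 0 := by
  obtain ⟨es, hes⟩ : ∃ es : ℂ → ℂ, es = fun ζ => starRingEnd ℂ (e (-ζ)) := ⟨_, rfl⟩
  have hesC : CC es := by
    refine ⟨?_, ?_⟩
    · rw [hes]
      exact Complex.continuous_conj.comp (he.1.comp continuous_neg)
    · have h3 : HasCompactSupport (fun ζ => e (-ζ)) := he.2.comp_homeomorph (Homeomorph.neg ℂ)
      rw [hes]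
      exact h3.comp_left (g := starRingEnd ℂ) (by simp)
  have hes1 : ∀ ζ, es ζ ≠ 0 → ‖ζ‖ ≤ r := by
    intro ζ hζ
    have := h1 (-ζ) (by
      intro h0
      apply hζ
      rw [hes]
      simp [h0])
    simpa using this
  obtain ⟨c1, p1, -⟩ := hB.2.1 e e he he
  obtain ⟨c2, p2, -⟩ := hB.2.1 _ es c1 hesC
  obtain ⟨i6, v6⟩ := hB.2.2.2.2.2 _ h c2 hh
  have z : ∫ ζ, bil (fun _ => 1) (bil (fun _ => 1) e e) es ζ * starRingEnd ℂ (h ζ) = 0 := by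
    have : (fun ζ => bil (fun _ => 1) (bil (fun _ => 1) e e) es ζ * starRingEnd ℂ (h ζ))
        = fun _ => 0 := by
      ext ζ
      by_cases h3 : h ζ = 0
      · simp [h3]
      by_cases h4 : bil (fun _ => 1) (bil (fun _ => 1) e e) es ζ = 0
      · simp [h4]
      exfalso
      have h5 := bil_supp (bil_supp h1 h1) hes1 ζ h4
      have h6 := h2 ζ h3
      linarith
    rw [this]
    simp
  rw [z] at v6
  have pt : ∀ x, ‖iF e x‖ ^ 2 * ip (iF e x) (iF h x) =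
      (iF (bil (fun _ => 1) (bil (fun _ => 1) e e) es) x * starRingEnd ℂ (iF h x)).re := by
    intro x
    have h3 : iF es x = starRingEnd ℂ (iF e x) := by rw [hes, hB.2.2.2.1 e x]
    rw [← p2, ← p1, h3]
    have h4 : iF e x * iF e x * starRingEnd ℂ (iF e x) * starRingEnd ℂ (iF h x)
        = ((‖iF e x‖ ^ 2 : ℝ) : ℂ) * (iF e x * starRingEnd ℂ (iF h x)) := by
      have h5 : iF e x * starRingEnd ℂ (iF e x) = ((‖iF e x‖ ^ 2 : ℝ) : ℂ) := by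
        rw [Complex.mul_conj, Complex.normSq_eq_norm_sq]
      linear_combination (iF e x * starRingEnd ℂ (iF h x)) * h5
    rw [h4, Complex.re_ofReal_mul]
    rfl
  have e1 : (fun x => ‖iF e x‖ ^ 2 * ip (iF e x) (iF h x)) = fun x =>
      (iF (bil (fun _ => 1) (bil (fun _ => 1) e e) es) x * starRingEnd ℂ (iF h x)).re := by
    ext x; exact pt x
  rw [e1]
  refine ⟨i6.re, ?_⟩
  have := integral_re i6
  simp only [RCLike.re_eq_complex_re] at this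
  rw [this, v6]
  simp

section
variable (hB : StmtBase) (hF : StmtFac) {G : ℂ → ℂ} (hG : CC G)
include hB hF hG

theorem lo_bd (i j : ℤ) (x : ℂ) :
    iF (cut (lo i) G) x + iF (cut (bd i j) G) x = iF (cut (lo j) G) x := by
  rw [← hB.2.2.2.2.1 _ _ (hF.2.2.2.2.1 G i j hG).1 (hF.2.2.2.2.1 G i j hG).2.1]
  congr 1
  ext ζ
  simp only [cut, bd]
  push_cast
  ring

theorem bd_bd (i j k : ℤ) (x : ℂ) :
    iF (cut (bd i j) G) x + iF (cut (bd j k) G) x = iF (cut (bd i k) G) x := by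
  rw [← hB.2.2.2.2.1 _ _ (hF.2.2.2.2.1 G i j hG).2.1 (hF.2.2.2.2.1 G j k hG).2.1]
  congr 1
  ext ζ
  simp only [cut, bd]
  push_cast
  ring

omit hB hF hG in
theorem bd_refl (i : ℤ) (x : ℂ) : iF (cut (bd i i) G) x = 0 := by
  have : cut (bd i i) G = fun _ => 0 := by
    ext ζ
    simp [cut, bd]
  rw [this]
  simp [iF]

omit hB hF hG in
theorem sh_eq (i : ℤ) : cut (sh i) G = cut (bd i (i + 1)) G := rfl

theorem bd_norm (i : ℤ) (k : ℕ) (x : ℂ) :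
    ‖iF (cut (bd i (i + k)) G) x‖ ≤ ∑ m ∈ Finset.range k, ‖iF (cut (sh (i + m)) G) x‖ := by
  induction k with
  | zero => simp [bd_refl]
  | succ k ih =>
    rw [Finset.sum_range_succ, ← bd_bd hB hF hG i (i + k) (i + (k + 1 : ℕ)) x]
    refine (norm_add_le _ _).trans (add_le_add ih ?_)
    rw [sh_eq]
    push_cast
    rw [add_assoc]

theorem bd_U (a i j : ℤ) (h1 : a - 3 ≤ i) (h2 : i ≤ j) (h3 : j ≤ a + 1) (x : ℂ) :
    ‖iF (cut (bd i j) G) x‖ ≤ ∑ m ∈ Finset.Icc (a - 3) a, ‖iF (cut (sh m) G) x‖ := by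
  obtain ⟨k, rfl⟩ : ∃ k : ℕ, j = i + k := ⟨(j - i).toNat, by omega⟩
  refine (bd_norm hB hF hG i k x).trans ?_
  have e : ∑ m ∈ Finset.range k, ‖iF (cut (sh (i + m)) G) x‖
      = ∑ m ∈ (Finset.range k).image (fun m : ℕ => i + (m : ℤ)), ‖iF (cut (sh m) G) x‖ := by
    rw [Finset.sum_image]
    intro p _ q _ h
    simpa using h
  rw [e]
  refine Finset.sum_le_sum_of_subset_of_nonneg ?_ (fun _ _ _ => norm_nonneg _)
  intro m hm
  simp only [Finset.mem_image, Finset.mem_range, Finset.mem_Icc] at hm ⊢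
  obtain ⟨p, hp, rfl⟩ := hm
  constructor <;> omega

omit hF hG in
theorem qcc {g : ℂ → ℂ} (hg : CC g) : Q (iF g) := ⟨(hB.1 g hg).1, (hB.1 g hg).2.2.2.1⟩

/-- pointwise quantities -/
noncomputable def UU (G : ℂ → ℂ) (a : ℤ) (x : ℂ) : ℝ :=
  ∑ m ∈ Finset.Icc (a - 3) a, ‖iF (cut (sh m) G) x‖

noncomputable def yy (G : ℂ → ℂ) (a : ℤ) (d : ℕ) (x : ℂ) : ℝ :=
  ∑ i ∈ Finset.Icc (a - 3) a, (‖iF (cut (sh i) G) x‖ ^ 4
    + ‖iF (cut (sh i) G) x‖ ^ 2 * ‖iF (cut (lo i) G) x‖ ^ 2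
    + ‖iF (cut (sh i) G) x‖ ^ 2 * ‖iF (cut (lo (a - d)) G) x‖ ^ 2)

theorem yy_int (a : ℤ) (d : ℕ) : Integrable (yy G a d) ∧ ∫ x, yy G a d x = Ya a d G := by
  have q1 : ∀ i, Q (iF (cut (sh i) G)) := fun i => qcc hB (hF.2.2.2.2.1 G i i hG).2.2
  have q2 : ∀ i, Q (iF (cut (lo i) G)) := fun i => qcc hB (hF.2.2.2.2.1 G i i hG).1
  have hI : ∀ i ∈ Finset.Icc (a - 3) a, Integrable (fun x => (‖iF (cut (sh i) G) x‖ ^ 4
    + ‖iF (cut (sh i) G) x‖ ^ 2 * ‖iF (cut (lo i) G) x‖ ^ 2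
    + ‖iF (cut (sh i) G) x‖ ^ 2 * ‖iF (cut (lo (a - d)) G) x‖ ^ 2)) := fun i _ =>
    ((q1 i).2.add ((q1 i).int22 (q2 i))).add ((q1 i).int22 (q2 (a - d)))
  constructor
  · exact integrable_finsetSum _ hI
  · unfold yy Ya
    rw [integral_finsetSum _ hI]
    refine Finset.sum_congr rfl fun i _ => ?_
    rw [integral_add, integral_add]
    · rfl
    · exact (q1 i).2
    · exact (q1 i).int22 (q2 i)
    · exact (q1 i).2.add ((q1 i).int22 (q2 i))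
    · exact (q1 i).int22 (q2 (a - d))

omit hB hF hG in
theorem UU_nonneg (a : ℤ) (x : ℂ) : 0 ≤ UU G a x := Finset.sum_nonneg fun _ _ => norm_nonneg _

omit hB hF hG in
theorem card_Icc4 (a : ℤ) : (Finset.Icc (a - 3) a).card = 4 := by
  rw [Int.card_Icc]
  omega

omit hB hF hG in
theorem U2 (a : ℤ) (x : ℂ) : UU G a x ^ 2 ≤ 4 * ∑ m ∈ Finset.Icc (a - 3) a,
    ‖iF (cut (sh m) G) x‖ ^ 2 := by
  have := sq_sum_le_card_mul_sum_sq (s := Finset.Icc (a - 3) a)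
    (f := fun m => ‖iF (cut (sh m) G) x‖)
  rw [card_Icc4] at this
  exact_mod_cast this

omit hB hF hG in
theorem U4 (a : ℤ) (x : ℂ) : UU G a x ^ 4 ≤ 64 * ∑ m ∈ Finset.Icc (a - 3) a,
    ‖iF (cut (sh m) G) x‖ ^ 4 := by
  have h1 := U2 (G := G) a x
  have h2 := sq_sum_le_card_mul_sum_sq (s := Finset.Icc (a - 3) a)
    (f := fun m => ‖iF (cut (sh m) G) x‖ ^ 2)
  rw [card_Icc4] at h2
  have h3 : ∑ m ∈ Finset.Icc (a - 3) a, (‖iF (cut (sh m) G) x‖ ^ 2) ^ 2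
      = ∑ m ∈ Finset.Icc (a - 3) a, ‖iF (cut (sh m) G) x‖ ^ 4 :=
    Finset.sum_congr rfl fun _ _ => by ring
  rw [h3] at h2
  push_cast at h2
  have h4 : UU G a x ^ 4 = (UU G a x ^ 2) ^ 2 := by ring
  rw [h4]
  have h5 : (UU G a x ^ 2) ^ 2 ≤ (4 * ∑ m ∈ Finset.Icc (a - 3) a,
    ‖iF (cut (sh m) G) x‖ ^ 2) ^ 2 := by gcongr
  nlinarith

/-- `U ^ 2 e ^ 2` -/
theorem Ue (a : ℤ) (x : ℂ) : UU G a x ^ 2 * ‖iF (cut (lo (a - 3)) G) x‖ ^ 2 ≤
    8 * (∑ i ∈ Finset.Icc (a - 3) a, ‖iF (cut (sh i) G) x‖ ^ 2 * ‖iF (cut (lo i) G) x‖ ^ 2)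
      + 512 * ∑ i ∈ Finset.Icc (a - 3) a, ‖iF (cut (sh i) G) x‖ ^ 4 := by
  have h1 := U2 (G := G) a x
  have h4 := U4 (G := G) a x
  have hU := UU_nonneg (G := G) a x
  set e := ‖iF (cut (lo (a - 3)) G) x‖ with he
  have he0 : 0 ≤ e := norm_nonneg _
  have h2 : ∀ i ∈ Finset.Icc (a - 3) a, ‖iF (cut (sh i) G) x‖ ^ 2 * e ^ 2 ≤
      2 * (‖iF (cut (sh i) G) x‖ ^ 2 * ‖iF (cut (lo i) G) x‖ ^ 2)
        + 2 * UU G a x ^ 2 * ‖iF (cut (sh i) G) x‖ ^ 2 := by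
    intro i hi
    rw [Finset.mem_Icc] at hi
    have h5 : e ≤ ‖iF (cut (lo i) G) x‖ + UU G a x := by
      have h6 := lo_bd hB hF hG (a - 3) i x
      have h7 : iF (cut (lo (a - 3)) G) x
          = iF (cut (lo i) G) x - iF (cut (bd (a - 3) i) G) x := by
        rw [← h6]; ring
      rw [he, h7]
      exact (norm_sub_le _ _).trans (add_le_add le_rfl
        (bd_U hB hF hG a (a - 3) i le_rfl hi.1 (by omega) x))
    have h8 : e ^ 2 ≤ 2 * ‖iF (cut (lo i) G) x‖ ^ 2 + 2 * UU G a x ^ 2 := by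
      have : e ^ 2 ≤ (‖iF (cut (lo i) G) x‖ + UU G a x) ^ 2 := by gcongr
      nlinarith [sq_nonneg (‖iF (cut (lo i) G) x‖ - UU G a x)]
    have h9 := mul_le_mul_of_nonneg_left h8 (sq_nonneg ‖iF (cut (sh i) G) x‖)
    nlinarith
  have h3 := Finset.sum_le_sum h2
  rw [← Finset.sum_mul, Finset.sum_add_distrib, ← Finset.mul_sum, ← Finset.mul_sum] at h3
  have h5 : ∑ i ∈ Finset.Icc (a - 3) a, ‖iF (cut (sh i) G) x‖ ^ 2 ≤ UU G a x ^ 2 := by
    have : ∀ i ∈ Finset.Icc (a - 3) a, ‖iF (cut (sh i) G) x‖ ^ 2 ≤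
        UU G a x * ‖iF (cut (sh i) G) x‖ := by
      intro i hi
      rw [sq]
      exact mul_le_mul_of_nonneg_right
        (Finset.single_le_sum (f := fun m => ‖iF (cut (sh m) G) x‖)
          (fun _ _ => norm_nonneg _) hi) (norm_nonneg _)
    have h6 := Finset.sum_le_sum this
    rw [← Finset.mul_sum] at h6
    calc _ ≤ _ := h6
      _ = UU G a x ^ 2 := by rw [sq]; rfl
  have h6 : UU G a x ^ 2 * e ^ 2 ≤ 4 * ((∑ i ∈ Finset.Icc (a - 3) a,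
      ‖iF (cut (sh i) G) x‖ ^ 2) * e ^ 2) := by
    have := mul_le_mul_of_nonneg_right h1 (sq_nonneg e)
    linarith
  have h7 : 2 * UU G a x ^ 2 * ∑ i ∈ Finset.Icc (a - 3) a, ‖iF (cut (sh i) G) x‖ ^ 2
      ≤ 2 * UU G a x ^ 4 := by
    have := mul_le_mul_of_nonneg_left h5 (by positivity : 0 ≤ 2 * UU G a x ^ 2)
    calc _ ≤ _ := this
      _ = _ := by ring
  linarith

/-- main pointwise estimates -/
theorem pt1 (a : ℤ) (d : ℕ) (x : ℂ) :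
    UU G a x ^ 2 * (‖iF (cut (lo (a - 3)) G) x‖ + UU G a x) ^ 2 ≤ 1200 * yy G a d x ∧
    UU G a x ^ 2 * (‖iF (cut (lo (a - d)) G) x‖ ^ 2 + ‖iF (cut (lo (a - 3)) G) x‖ ^ 2
      + UU G a x ^ 2) ≤ 1200 * yy G a d x := by
  have h1 := Ue hB hF hG a x
  have h2 := U2 (G := G) a x
  have h4 := U4 (G := G) a x
  have hU := UU_nonneg (G := G) a x
  have hA : UU G a x ^ 2 * ‖iF (cut (lo (a - d)) G) x‖ ^ 2 ≤
      4 * ∑ i ∈ Finset.Icc (a - 3) a, ‖iF (cut (sh i) G) x‖ ^ 2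
        * ‖iF (cut (lo (a - d)) G) x‖ ^ 2 := by
    rw [← Finset.sum_mul]
    have := mul_le_mul_of_nonneg_right h2 (sq_nonneg ‖iF (cut (lo (a - d)) G) x‖)
    linarith
  have hy : yy G a d x = (∑ i ∈ Finset.Icc (a - 3) a, ‖iF (cut (sh i) G) x‖ ^ 4)
      + (∑ i ∈ Finset.Icc (a - 3) a, ‖iF (cut (sh i) G) x‖ ^ 2 * ‖iF (cut (lo i) G) x‖ ^ 2)
      + ∑ i ∈ Finset.Icc (a - 3) a, ‖iF (cut (sh i) G) x‖ ^ 2
        * ‖iF (cut (lo (a - d)) G) x‖ ^ 2 := by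
    unfold yy
    rw [Finset.sum_add_distrib, Finset.sum_add_distrib]
  have p1 : 0 ≤ ∑ i ∈ Finset.Icc (a - 3) a, ‖iF (cut (sh i) G) x‖ ^ 4 :=
    Finset.sum_nonneg fun _ _ => by positivity
  have p2 : 0 ≤ ∑ i ∈ Finset.Icc (a - 3) a,
      ‖iF (cut (sh i) G) x‖ ^ 2 * ‖iF (cut (lo i) G) x‖ ^ 2 :=
    Finset.sum_nonneg fun _ _ => by positivity
  have p3 : 0 ≤ ∑ i ∈ Finset.Icc (a - 3) a, ‖iF (cut (sh i) G) x‖ ^ 2
        * ‖iF (cut (lo (a - d)) G) x‖ ^ 2 :=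
    Finset.sum_nonneg fun _ _ => by positivity
  constructor
  · have h5 : UU G a x ^ 2 * (‖iF (cut (lo (a - 3)) G) x‖ + UU G a x) ^ 2 ≤
        2 * (UU G a x ^ 2 * ‖iF (cut (lo (a - 3)) G) x‖ ^ 2) + 2 * UU G a x ^ 4 := by
      have : (‖iF (cut (lo (a - 3)) G) x‖ + UU G a x) ^ 2 ≤
          2 * ‖iF (cut (lo (a - 3)) G) x‖ ^ 2 + 2 * UU G a x ^ 2 := by
        nlinarith [sq_nonneg (‖iF (cut (lo (a - 3)) G) x‖ - UU G a x)]
      have := mul_le_mul_of_nonneg_left this (sq_nonneg (UU G a x))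
      calc _ ≤ _ := this
        _ = _ := by ring
    rw [hy]
    linarith
  · have h5 : UU G a x ^ 2 * (‖iF (cut (lo (a - d)) G) x‖ ^ 2 + ‖iF (cut (lo (a - 3)) G) x‖ ^ 2
      + UU G a x ^ 2) = UU G a x ^ 2 * ‖iF (cut (lo (a - d)) G) x‖ ^ 2
        + UU G a x ^ 2 * ‖iF (cut (lo (a - 3)) G) x‖ ^ 2 + UU G a x ^ 4 := by ring
    rw [h5, hy]
    linarith

end

end TopAux

open TopAux

theorem top4 (hB : StmtBase) (hF : StmtFac) : StmtTop := by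
  refine ⟨20000, by norm_num, ?_⟩
  intro a d G hG
  have qs : ∀ i, Q (iF (cut (sh i) G)) := fun i => qcc hB (hF.2.2.2.2.1 G i i hG).2.2
  have ql : ∀ i, Q (iF (cut (lo i) G)) := fun i => qcc hB (hF.2.2.2.2.1 G i i hG).1
  have qb : ∀ i j, Q (iF (cut (bd i j) G)) := fun i j => qcc hB (hF.2.2.2.2.1 G i j hG).2.1
  obtain ⟨yi, yv⟩ := yy_int hB hF hG a d
  have Ya0 : 0 ≤ Ya a d G := by
    rw [← yv]
    exact integral_nonneg fun x => Finset.sum_nonneg fun _ _ => by positivity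
  have pw : (0:ℝ) < (2:ℝ) ^ a := by positivity
  -- frequency supports
  have s3 : ∀ ζ, ζ ∈ Function.support (cut (sh a) G) → (2:ℝ) ^ a < ‖ζ‖ := by
    intro ζ hζ
    by_contra hc
    push Not at hc
    apply hζ
    have l1 := hF.2.1 a ζ hc
    have l2 := hF.2.1 (a + 1) ζ (hc.trans (zpow_le_zpow_right₀ (by norm_num) (by omega)))
    simp [cut, sh, bd, l1, l2]
  have slo : ∀ j, j ≤ a - 3 → ∀ ζ, 9 * ‖ζ‖ ^ 2 ≥ ((2:ℝ) ^ a) ^ 2 → lo j ζ = 0 := by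
    intro j hj ζ hζ
    apply hF.2.2.1
    have h1 : (2:ℝ) ^ j ≤ (2:ℝ) ^ (a - 3) := zpow_le_zpow_right₀ (by norm_num) hj
    have h2 : (2:ℝ) ^ (a - 3) = (2:ℝ) ^ a / 8 := by
      rw [zpow_sub₀ (by norm_num)]
      norm_num
    rw [h2] at h1
    have h3 : (0:ℝ) < (2:ℝ) ^ j := by positivity
    nlinarith
  have sE : ∀ e : ℂ → ℂ, (∀ ζ, 9 * ‖ζ‖ ^ 2 ≥ ((2:ℝ) ^ a) ^ 2 → e ζ = 0) → CC e →
      Integrable (fun x => ‖iF e x‖ ^ 2 * ip (iF e x) (iF (cut (sh a) G) x)) ∧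
      ∫ x, ‖iF e x‖ ^ 2 * ip (iF e x) (iF (cut (sh a) G) x) = 0 := by
    intro e he hC
    refine van hB hC (hF.2.2.2.2.1 G a a hG).2.2 (r := (2:ℝ) ^ a / 3) ?_ ?_
    · intro ζ hζ
      by_contra hc
      push Not at hc
      apply hζ
      apply he
      nlinarith
    · intro ζ hζ
      have := s3 ζ hζ
      linarith
  -- names
  obtain ⟨vE, vE0⟩ := sE (cut (lo (a - 3)) G) (fun ζ h => by
    simp [cut, slo (a - 3) le_rfl ζ h]) (hF.2.2.2.2.1 G (a - 3) a hG).1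
  have eDd : Dd a d G = ∫ x, (‖iF (cut (lo (a + 1)) G) x‖ ^ 4 - ‖iF (cut (lo a) G) x‖ ^ 4
      - ‖iF (cut (bd (a - d) (a + 1)) G) x‖ ^ 4 + ‖iF (cut (bd (a - d) a) G) x‖ ^ 4) := by
    unfold Dd N4
    rw [integral_add, integral_sub, integral_sub]
    · ring
    · exact (ql _).2
    · exact (ql _).2
    · exact (ql _).2.sub (ql _).2
    · exact (qb _ _).2
    · exact ((ql _).2.sub (ql _).2).sub (qb _ _).2
    · exact (qb _ _).2
  have iDd : Integrable (fun x => (‖iF (cut (lo (a + 1)) G) x‖ ^ 4 - ‖iF (cut (lo a) G) x‖ ^ 4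
      - ‖iF (cut (bd (a - d) (a + 1)) G) x‖ ^ 4 + ‖iF (cut (bd (a - d) a) G) x‖ ^ 4)) :=
    (((ql _).2.sub (ql _).2).sub (qb _ _).2).add (qb _ _).2
  constructor
  · intro hd
    have pt : ∀ x, ‖(‖iF (cut (lo (a + 1)) G) x‖ ^ 4 - ‖iF (cut (lo a) G) x‖ ^ 4
        - ‖iF (cut (bd (a - d) (a + 1)) G) x‖ ^ 4 + ‖iF (cut (bd (a - d) a) G) x‖ ^ 4)
        - 4 * (‖iF (cut (lo (a - 3)) G) x‖ ^ 2 * ip (iF (cut (lo (a - 3)) G) x)
            (iF (cut (sh a) G) x))‖ ≤ 20000 * yy G a d x := by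
      intro x
      have k1 := lemQ (iF (cut (lo (a - 3)) G) x) (iF (cut (bd (a - 3) (a + 1)) G) x)
      have k2 := lemQ (iF (cut (lo (a - 3)) G) x) (iF (cut (bd (a - 3) a) G) x)
      rw [lo_bd hB hF hG] at k1 k2
      have k3 : ip (iF (cut (lo (a - 3)) G) x) (iF (cut (bd (a - 3) (a + 1)) G) x)
          = ip (iF (cut (lo (a - 3)) G) x) (iF (cut (bd (a - 3) a) G) x)
            + ip (iF (cut (lo (a - 3)) G) x) (iF (cut (sh a) G) x) := by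
        rw [← bd_bd hB hF hG (a - 3) a (a + 1), ip_add_right]
        rfl
      rw [k3] at k1
      have u1 := bd_U hB hF hG a (a - 3) (a + 1) le_rfl (by omega) le_rfl x
      have u2 := bd_U hB hF hG a (a - 3) a le_rfl (by omega) (by omega) x
      have u3 := bd_U hB hF hG a (a - d) (a + 1) (by omega) (by omega) le_rfl x
      have u4 := bd_U hB hF hG a (a - d) a (by omega) (by omega) (by omega) x
      have p := (pt1 hB hF hG a d x).1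
      change _ ≤ UU G a x at u1 u2 u3 u4
      have hU := UU_nonneg (G := G) a x
      have n1 := norm_nonneg (iF (cut (bd (a - 3) (a + 1)) G) x)
      have n2 := norm_nonneg (iF (cut (bd (a - 3) a) G) x)
      have n3 := norm_nonneg (iF (cut (bd (a - d) (a + 1)) G) x)
      have n4 := norm_nonneg (iF (cut (bd (a - d) a) G) x)
      have nE := norm_nonneg (iF (cut (lo (a - 3)) G) x)
      have c1 : 6 * (‖iF (cut (bd (a - 3) (a + 1)) G) x‖ ^ 2 * (‖iF (cut (lo (a - 3)) G) x‖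
          + ‖iF (cut (bd (a - 3) (a + 1)) G) x‖) ^ 2)
          ≤ 6 * (UU G a x ^ 2 * (‖iF (cut (lo (a - 3)) G) x‖ + UU G a x) ^ 2) := by
        gcongr
      have c2 : 6 * (‖iF (cut (bd (a - 3) a) G) x‖ ^ 2 * (‖iF (cut (lo (a - 3)) G) x‖
          + ‖iF (cut (bd (a - 3) a) G) x‖) ^ 2)
          ≤ 6 * (UU G a x ^ 2 * (‖iF (cut (lo (a - 3)) G) x‖ + UU G a x) ^ 2) := by
        gcongr
      have c3 : ‖iF (cut (bd (a - d) (a + 1)) G) x‖ ^ 4 ≤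
          UU G a x ^ 2 * (‖iF (cut (lo (a - 3)) G) x‖ + UU G a x) ^ 2 := by
        have : ‖iF (cut (bd (a - d) (a + 1)) G) x‖ ^ 4 ≤ UU G a x ^ 4 := by gcongr
        have h2 : UU G a x ^ 4 ≤ UU G a x ^ 2 * (‖iF (cut (lo (a - 3)) G) x‖ + UU G a x) ^ 2 := by
          have : UU G a x ^ 4 = UU G a x ^ 2 * (0 + UU G a x) ^ 2 := by ring
          rw [this]
          gcongr
        linarith
      have c4 : ‖iF (cut (bd (a - d) a) G) x‖ ^ 4 ≤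
          UU G a x ^ 2 * (‖iF (cut (lo (a - 3)) G) x‖ + UU G a x) ^ 2 := by
        have : ‖iF (cut (bd (a - d) a) G) x‖ ^ 4 ≤ UU G a x ^ 4 := by gcongr
        have h2 : UU G a x ^ 4 ≤ UU G a x ^ 2 * (‖iF (cut (lo (a - 3)) G) x‖ + UU G a x) ^ 2 := by
          have : UU G a x ^ 4 = UU G a x ^ 2 * (0 + UU G a x) ^ 2 := by ring
          rw [this]
          gcongr
        linarith
      have c5 : 0 ≤ ‖iF (cut (bd (a - d) (a + 1)) G) x‖ ^ 4 := by positivity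
      have c6 : 0 ≤ ‖iF (cut (bd (a - d) a) G) x‖ ^ 4 := by positivity
      rw [Real.norm_eq_abs, abs_le]
      rw [abs_le] at k1 k2
      constructor <;> nlinarith [k1.1, k1.2, k2.1, k2.2]
    have h1 : Dd a d G = ∫ x, ((‖iF (cut (lo (a + 1)) G) x‖ ^ 4 - ‖iF (cut (lo a) G) x‖ ^ 4
        - ‖iF (cut (bd (a - d) (a + 1)) G) x‖ ^ 4 + ‖iF (cut (bd (a - d) a) G) x‖ ^ 4)
        - 4 * (‖iF (cut (lo (a - 3)) G) x‖ ^ 2 * ip (iF (cut (lo (a - 3)) G) x)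
            (iF (cut (sh a) G) x))) := by
      rw [integral_sub iDd (vE.const_mul 4), integral_const_mul, vE0, eDd]
      ring
    rw [h1, ← Real.norm_eq_abs]
    refine (norm_integral_le_of_norm_le (yi.const_mul 20000) (Eventually.of_forall pt)).trans ?_
    rw [integral_const_mul, yv]
  · intro hd
    obtain ⟨vB, vB0⟩ := sE (cut (bd (a - d) (a - 3)) G) (fun ζ h => by
      simp [cut, bd, slo (a - 3) le_rfl ζ h, slo (a - d) (by omega) ζ h])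
      (hF.2.2.2.2.1 G (a - d) (a - 3) hG).2.1
    have pt : ∀ x, ‖(‖iF (cut (lo (a + 1)) G) x‖ ^ 4 - ‖iF (cut (lo a) G) x‖ ^ 4
        - ‖iF (cut (bd (a - d) (a + 1)) G) x‖ ^ 4 + ‖iF (cut (bd (a - d) a) G) x‖ ^ 4)
        - (4 * (‖iF (cut (lo (a - 3)) G) x‖ ^ 2 * ip (iF (cut (lo (a - 3)) G) x)
            (iF (cut (sh a) G) x))
          - 4 * (‖iF (cut (bd (a - d) (a - 3)) G) x‖ ^ 2 * ip (iF (cut (bd (a - d) (a - 3)) G) x)
            (iF (cut (sh a) G) x)))‖ ≤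
        40 * ((‖iF (cut (lo (a - d)) G) x‖ * ‖iF (cut (sh a) G) x‖) *
          (2 * UU G a x * (2 * ‖iF (cut (lo (a - d)) G) x‖ + ‖iF (cut (lo (a - 3)) G) x‖
            + 2 * UU G a x))) := by
      intro x
      have k := lemD (iF (cut (lo (a - d)) G) x) (iF (cut (bd (a - d) (a - 3)) G) x)
        (iF (cut (bd (a - 3) a) G) x) (iF (cut (sh a) G) x)
      rw [bd_bd hB hF hG, lo_bd hB hF hG, lo_bd hB hF hG, sh_eq, lo_bd hB hF hG,
        bd_bd hB hF hG] at k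
      rw [Real.norm_eq_abs]
      have u2 := bd_U hB hF hG a (a - 3) a le_rfl (by omega) (by omega) x
      have u3 := bd_U hB hF hG a a (a + 1) (by omega) (by omega) le_rfl x
      change _ ≤ UU G a x at u2 u3
      have hl : ‖iF (cut (bd (a - d) (a - 3)) G) x‖ ≤ ‖iF (cut (lo (a - 3)) G) x‖
          + ‖iF (cut (lo (a - d)) G) x‖ := by
        have : iF (cut (bd (a - d) (a - 3)) G) x = iF (cut (lo (a - 3)) G) x
          - iF (cut (lo (a - d)) G) x := by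
          rw [← lo_bd hB hF hG (a - d) (a - 3) x]; ring
        rw [this]
        exact norm_sub_le _ _
      have hU := UU_nonneg (G := G) a x
      have e1 : 40 * (‖iF (cut (lo (a - d)) G) x‖ * ‖iF (cut (bd a (a + 1)) G) x‖ *
          ((‖iF (cut (bd (a - 3) a) G) x‖ + ‖iF (cut (bd a (a + 1)) G) x‖) *
          (‖iF (cut (lo (a - d)) G) x‖ + ‖iF (cut (bd (a - d) (a - 3)) G) x‖
            + ‖iF (cut (bd (a - 3) a) G) x‖ + ‖iF (cut (bd a (a + 1)) G) x‖))) ≤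
          40 * ((‖iF (cut (lo (a - d)) G) x‖ * ‖iF (cut (bd a (a + 1)) G) x‖) *
          (2 * UU G a x * (2 * ‖iF (cut (lo (a - d)) G) x‖ + ‖iF (cut (lo (a - 3)) G) x‖
            + 2 * UU G a x))) := by
        have h1 : ‖iF (cut (bd (a - 3) a) G) x‖ + ‖iF (cut (bd a (a + 1)) G) x‖
            ≤ 2 * UU G a x := by linarith
        have h2 : ‖iF (cut (lo (a - d)) G) x‖ + ‖iF (cut (bd (a - d) (a - 3)) G) x‖
            + ‖iF (cut (bd (a - 3) a) G) x‖ + ‖iF (cut (bd a (a + 1)) G) x‖ ≤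
            2 * ‖iF (cut (lo (a - d)) G) x‖ + ‖iF (cut (lo (a - 3)) G) x‖
            + 2 * UU G a x := by linarith
        gcongr
      refine le_trans (le_of_eq ?_) (k.trans e1)
      congr 1
      simp only [sh_eq]
      ring
    have h1 : Dd a d G = ∫ x, ((‖iF (cut (lo (a + 1)) G) x‖ ^ 4 - ‖iF (cut (lo a) G) x‖ ^ 4
        - ‖iF (cut (bd (a - d) (a + 1)) G) x‖ ^ 4 + ‖iF (cut (bd (a - d) a) G) x‖ ^ 4)
        - (4 * (‖iF (cut (lo (a - 3)) G) x‖ ^ 2 * ip (iF (cut (lo (a - 3)) G) x)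
            (iF (cut (sh a) G) x))
          - 4 * (‖iF (cut (bd (a - d) (a - 3)) G) x‖ ^ 2 * ip (iF (cut (bd (a - d) (a - 3)) G) x)
            (iF (cut (sh a) G) x)))) := by
      have iv : Integrable (fun x =>
          4 * (‖iF (cut (lo (a - 3)) G) x‖ ^ 2 * ip (iF (cut (lo (a - 3)) G) x)
            (iF (cut (sh a) G) x))
          - 4 * (‖iF (cut (bd (a - d) (a - 3)) G) x‖ ^ 2 * ip (iF (cut (bd (a - d) (a - 3)) G) x)
            (iF (cut (sh a) G) x))) := (vE.const_mul 4).sub (vB.const_mul 4)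
      rw [integral_sub iDd iv,
        integral_sub (vE.const_mul 4) (vB.const_mul 4), integral_const_mul, integral_const_mul,
        vE0, vB0, eDd]
      ring
    -- Cauchy-Schwarz
    have cU : Continuous (UU G a) := by
      unfold UU
      exact continuous_finsetSum _ fun i _ => (qs i).1.norm
    set f : ℂ → ℝ := fun x => ‖iF (cut (lo (a - d)) G) x‖ * ‖iF (cut (sh a) G) x‖ with hf
    set g : ℂ → ℝ := fun x => 2 * UU G a x * (2 * ‖iF (cut (lo (a - d)) G) x‖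
      + ‖iF (cut (lo (a - 3)) G) x‖ + 2 * UU G a x) with hg
    have cf : Continuous f := (ql _).1.norm.mul (qs _).1.norm
    have cg : Continuous g := by
      rw [hg]
      have c1 := (ql (a - d)).1
      have c2 := (ql (a - 3)).1
      fun_prop
    have f0 : ∀ x, 0 ≤ f x := fun x => by positivity
    have g0 : ∀ x, 0 ≤ g x := fun x => by
      have := UU_nonneg (G := G) a x
      positivity
    have f2 : Integrable fun x => f x ^ 2 := by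
      refine ((ql (a - d)).int22 (qs a)).congr (Eventually.of_forall fun x => ?_)
      simp only [hf]
      ring
    have g2b : ∀ x, g x ^ 2 ≤ 48 * 1200 * yy G a d x := by
      intro x
      have p := (pt1 hB hF hG a d x).2
      simp only [hg]
      have h2 : (2 * ‖iF (cut (lo (a - d)) G) x‖
          + ‖iF (cut (lo (a - 3)) G) x‖ + 2 * UU G a x) ^ 2 ≤
          12 * (‖iF (cut (lo (a - d)) G) x‖ ^ 2 + ‖iF (cut (lo (a - 3)) G) x‖ ^ 2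
            + UU G a x ^ 2) := by
        nlinarith [sq_nonneg (2 * ‖iF (cut (lo (a - d)) G) x‖ - ‖iF (cut (lo (a - 3)) G) x‖),
          sq_nonneg (2 * ‖iF (cut (lo (a - d)) G) x‖ - 2 * UU G a x),
          sq_nonneg (‖iF (cut (lo (a - 3)) G) x‖ - 2 * UU G a x),
          sq_nonneg ‖iF (cut (lo (a - 3)) G) x‖]
      have h3 := mul_le_mul_of_nonneg_left h2 (sq_nonneg (2 * UU G a x))
      nlinarith
    have g2 : Integrable fun x => g x ^ 2 := by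
      refine (yi.const_mul (48 * 1200)).mono' (cg.pow 2).aestronglyMeasurable
        (Eventually.of_forall fun x => ?_)
      rw [Real.norm_of_nonneg (sq_nonneg _)]
      exact g2b x
    have cs := csI cf cg f0 g0 f2 g2
    have ifg : Integrable fun x => f x * g x := by
      refine (f2.add g2).mono' (cf.mul cg).aestronglyMeasurable (Eventually.of_forall fun x => ?_)
      rw [Real.norm_of_nonneg (mul_nonneg (f0 x) (g0 x))]
      simp only [Pi.add_apply]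
      nlinarith [sq_nonneg (f x - g x), sq_nonneg (f x), sq_nonneg (g x)]
    have b1 : |Dd a d G| ≤ 40 * ∫ x, f x * g x := by
      rw [h1, ← Real.norm_eq_abs, ← integral_const_mul]
      exact norm_integral_le_of_norm_le (ifg.const_mul 40) (Eventually.of_forall pt)
    have b2 : ∫ x, f x ^ 2 = N22 (cut (sh a) G) (cut (lo (a - d)) G) := by
      unfold N22
      congr 1
      ext x
      simp only [hf]
      ring
    have b3 : ∫ x, g x ^ 2 ≤ 48 * 1200 * Ya a d G := by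
      rw [← yv, ← integral_const_mul]
      exact integral_mono g2 (yi.const_mul _) g2b
    have b4 : Real.sqrt (∫ x, g x ^ 2) ≤ 240 * Real.sqrt (Ya a d G) := by
      refine (Real.sqrt_le_sqrt b3).trans ?_
      rw [Real.sqrt_mul (by norm_num)]
      have : Real.sqrt (48 * 1200) = 240 := by
        rw [show (48 * 1200 : ℝ) = 240 ^ 2 by norm_num]
        exact Real.sqrt_sq (by norm_num)
      rw [this]
    rw [b2] at cs
    have s1 := Real.sqrt_nonneg (N22 (cut (sh a) G) (cut (lo (a - d)) G))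
    have s2 := Real.sqrt_nonneg (Ya a d G)
    calc |Dd a d G| ≤ 40 * ∫ x, f x * g x := b1
      _ ≤ 40 * (Real.sqrt (N22 (cut (sh a) G) (cut (lo (a - d)) G))
          * (240 * Real.sqrt (Ya a d G))) := by
        have := mul_le_mul_of_nonneg_left b4 s1
        linarith
      _ ≤ 20000 * (Real.sqrt (N22 (cut (sh a) G) (cut (lo (a - d)) G))
          * Real.sqrt (Ya a d G)) := by
        nlinarith [mul_nonneg s1 s2]

end Pool.Agent.Lib.MP_dd244f_an.Four
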