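import Pool.Agent.Lib.MP_dd244f_an.Four.Base
import Pool.Agent.Lib.MP_dd244f_an.Joint.All

/-!
Full operator, `p = 4`: the a priori bound.
-/

set_option autoImplicit false

namespace Pool.Agent.Lib.MP_dd244f_an.Four

open MeasureTheory Filter Topology FourierTransform Convolution Metric
open scoped SchwartzMap ContDiff ENNReal
open Pool.Agent.Lib.MP_dd244f_an.Joint (ratio)

/-- bump functions that shrink to a point -/
noncomputable def bump (j : ℕ) : ContDiffBump (0 : ℂ) where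
  rIn := 1 / (2 * ((j : ℝ) + 1))
  rOut := 1 / ((j : ℝ) + 1)
  rIn_pos := by positivity
  rIn_lt_rOut := by
    apply one_div_lt_one_div_of_lt (by positivity)
    have : (0 : ℝ) ≤ j := Nat.cast_nonneg j
    linarith

theorem bump_rOut_le (j : ℕ) : (bump j).rOut ≤ 1 := by
  show 1 / ((j : ℝ) + 1) ≤ 1
  rw [div_le_one (by positivity)]
  have : (0 : ℝ) ≤ j := Nat.cast_nonneg j
  linarith

theorem bump_rOut_tendsto : Tendsto (fun j => (bump j).rOut) atTop (𝓝 0) :=
  tendsto_one_div_add_atTop_nhds_zero_nat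

/-- mollification -/
noncomputable def moll (j : ℕ) (g : ℂ → ℂ) : ℂ → ℂ :=
  ((bump j).normed volume ⋆[ContinuousLinearMap.lsmul ℝ ℝ, volume] g : ℂ → ℂ)

theorem moll_contDiff (j : ℕ) {g : ℂ → ℂ} (hg : CC g) : ContDiff ℝ ∞ (moll j g) :=
  (bump j).hasCompactSupport_normed.contDiff_convolution_left _ (bump j).contDiff_normed
    hg.1.locallyIntegrable

theorem moll_cc (j : ℕ) {g : ℂ → ℂ} (hg : CC g) : CC (moll j g) :=
  ⟨(moll_contDiff j hg).continuous,
    HasCompactSupport.convolution _ (bump j).hasCompactSupport_normed hg.2⟩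

theorem moll_eq (j : ℕ) (g : ℂ → ℂ) :
    moll j g = bil (fun _ => 1) (fun t => ((bump j).normed volume t : ℂ)) g := by
  rw [bil_one_eq]
  ext x
  unfold moll
  rw [convolution_def, convolution_def]
  congr 1

theorem bumpc_cc (j : ℕ) : CC (fun t => ((bump j).normed volume t : ℂ)) :=
  ⟨Complex.continuous_ofReal.comp (bump j).continuous_normed,
    (bump j).hasCompactSupport_normed.comp_left (g := fun x : ℝ => (x : ℂ)) (by simp)⟩

theorem norm_iF_moll_le (j : ℕ) {g : ℂ → ℂ} (hg : CC g) (x : ℂ) :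
    ‖iF (moll j g) x‖ ≤ ‖iF g x‖ := by
  rw [moll_eq, ← iF_mul (bumpc_cc j) hg, norm_mul]
  refine mul_le_of_le_one_left (norm_nonneg _) ((norm_iF_le _ _).trans ?_)
  have : ∀ t, ‖((bump j).normed volume t : ℂ)‖ = (bump j).normed volume t := fun t => by
    rw [Complex.norm_real, Real.norm_of_nonneg ((bump j).nonneg_normed t)]
  simp only [this]
  rw [(bump j).integral_normed]

theorem mm_measurable (n : ℕ) : Measurable (mm n) := symbol_measurable n

theorem norm_mm_le (n : ℕ) (ζ : ℂ) : ‖mm n ζ‖ ≤ 1 := symbol_bound n ζ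

theorem moll_bound {g : ℂ → ℂ} (hg : CC g) : ∃ b : ℂ → ℝ, Integrable b ∧
    ∀ j ζ, ‖moll j g ζ‖ ≤ b ζ := by
  obtain ⟨M, hM⟩ := hg.1.bounded_above_of_compact_support hg.2
  obtain ⟨R, hR⟩ := hg.2.isCompact.isBounded.subset_closedBall (0 : ℂ)
  have hg0 : ∀ ζ, R < ‖ζ‖ → g ζ = 0 := by
    intro ζ hζ
    by_contra h
    have h1 := hR (subset_tsupport g h)
    rw [mem_closedBall, dist_zero_right] at h1
    linarith
  have hM0 : 0 ≤ M := (norm_nonneg _).trans (hM 0)
  refine ⟨(closedBall (0 : ℂ) (R + 1)).indicator fun _ => 3 * M, ?_, fun j ζ => ?_⟩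
  · rw [integrable_indicator_iff measurableSet_closedBall]
    exact integrableOn_const (isCompact_closedBall _ _).measure_lt_top.ne
  · by_cases hζ : ζ ∈ closedBall (0 : ℂ) (R + 1)
    · rw [Set.indicator_of_mem hζ]
      have h1 : dist (moll j g ζ) (g ζ) ≤ 2 * M := by
        refine (bump j).dist_normed_convolution_le hg.1.aestronglyMeasurable fun x _ => ?_
        rw [dist_eq_norm]
        refine (norm_sub_le _ _).trans ?_
        linarith [hM x, hM ζ]
      rw [dist_eq_norm] at h1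
      have h2 : ‖moll j g ζ‖ ≤ ‖moll j g ζ - g ζ‖ + ‖g ζ‖ := by
        simpa using norm_add_le (moll j g ζ - g ζ) (g ζ)
      linarith [hM ζ]
    · rw [Set.indicator_of_notMem hζ]
      rw [mem_closedBall, dist_zero_right, not_le] at hζ
      have h0 : g ζ = 0 := hg0 ζ (by linarith)
      have h1 : dist (moll j g ζ) (g ζ) ≤ 0 := by
        refine (bump j).dist_normed_convolution_le hg.1.aestronglyMeasurable fun x hx => ?_
        rw [mem_ball, dist_eq_norm] at hx
        have h2 : ‖ζ‖ ≤ ‖x‖ + ‖x - ζ‖ := by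
          have := norm_sub_le x (x - ζ)
          simpa using this
        have h3 := bump_rOut_le j
        rw [h0, hg0 x (by linarith), dist_self]
      rw [h0, dist_zero_right] at h1
      exact h1

/-- pointwise convergence of the transforms -/
theorem tendsto_iF_mg_moll (n : ℕ) {g : ℂ → ℂ} (hg : CC g) (x : ℂ) :
    Tendsto (fun j => iF (mg n (moll j g)) x) atTop (𝓝 (iF (mg n g) x)) := by
  obtain ⟨b, hb, hb'⟩ := moll_bound hg
  unfold iF
  refine tendsto_integral_of_dominated_convergence b (fun j => ?_) hb (fun j => ?_) ?_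
  · refine (continuous_ch x).aestronglyMeasurable.mul ?_
    exact (mm_measurable n).aestronglyMeasurable.mul (moll_cc j hg).1.aestronglyMeasurable
  · refine Eventually.of_forall fun ζ => ?_
    rw [norm_mul, norm_ch, one_mul]
    unfold mg
    rw [norm_mul]
    exact (mul_le_of_le_one_left (norm_nonneg _) (norm_mm_le n ζ)).trans (hb' j ζ)
  · refine Eventually.of_forall fun ζ => ?_
    refine Tendsto.const_mul _ ?_
    unfold mg
    refine Tendsto.const_mul _ ?_
    exact ContDiffBump.convolution_tendsto_right_of_continuous bump_rOut_tendsto hg.1 ζ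

/-- the bound for smooth functions -/
theorem apr_smooth {n : ℕ} {C : ℝ≥0∞} (h : ∀ f : 𝓢(ℂ, ℂ), eLpNorm (Tn n f) 4 volume ≤
    C * eLpNorm f 4 volume) {G : ℂ → ℂ} (hG : CC G) (hGs : ContDiff ℝ ∞ G) :
    eLpNorm (iF (mg n G)) 4 volume ≤ C * eLpNorm (iF G) 4 volume := by
  set S : 𝓢(ℂ, ℂ) := hG.2.toSchwartzMap hGs with hS
  have hSG : (S : ℂ → ℂ) = G := rfl
  have h1 := h (𝓕⁻ S)
  have e1 : ((𝓕⁻ S : 𝓢(ℂ, ℂ)) : ℂ → ℂ) = iF G := by
    ext x
    rw [SchwartzMap.fourierInv_coe, hSG, iF_eq_inv]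
  have e2 : Tn n ((𝓕⁻ S : 𝓢(ℂ, ℂ)) : ℂ → ℂ) = iF (mg n G) := by
    have e3 : (fun ξ : ℂ => (starRingEnd ℂ ξ / ξ) ^ n * 𝓕 ((𝓕⁻ S : 𝓢(ℂ, ℂ)) : ℂ → ℂ) ξ)
        = mg n G := by
      funext ξ
      rw [← SchwartzMap.fourier_coe]
      simp only [FourierTransform.fourier_fourierInv_eq]
      rfl
    ext x
    rw [Tn_eq, iF_eq_inv, e3]
  rw [e2, e1] at h1
  exact h1

theorem apr_cc {n : ℕ} {C : ℝ≥0∞} (h : ∀ f : 𝓢(ℂ, ℂ), eLpNorm (Tn n f) 4 volume ≤
    C * eLpNorm f 4 volume) {g : ℂ → ℂ} (hg : CC g) :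
    eLpNorm (iF (mg n g)) 4 volume ≤ C * eLpNorm (iF g) 4 volume := by
  have hb : ∀ j, eLpNorm (iF (mg n (moll j g))) 4 volume ≤ C * eLpNorm (iF g) 4 volume := by
    intro j
    refine (apr_smooth h (moll_cc j hg) (moll_contDiff j hg)).trans ?_
    gcongr
    exact eLpNorm_mono fun x => norm_iF_moll_le j hg x
  have hmeas : ∀ j, AEStronglyMeasurable (iF (mg n (moll j g))) volume := by
    intro j
    refine (iF_continuous ?_).aestronglyMeasurable
    exact (moll_cc j hg).integrable.bdd_mul (mm_measurable n).aestronglyMeasurable (c := 1)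
      (Eventually.of_forall (norm_mm_le n))
  refine (Lp.eLpNorm_lim_le_liminf_eLpNorm hmeas _
    (Eventually.of_forall (tendsto_iF_mg_moll n hg))).trans ?_
  refine (liminf_le_liminf (Eventually.of_forall hb)).trans ?_
  simp

theorem n4_eq {g : ℂ → ℂ} (hg : CC g) : ENNReal.ofReal (N4 g) = eLpNorm (iF g) 4 volume ^ 4 := by
  have h1 := eLpNorm_nnreal_pow_eq_lintegral (f := iF g) (μ := (volume : Measure ℂ))
    (p := (4 : NNReal)) (by norm_num)
  have e1 : ((4 : NNReal) : ℝ≥0∞) = 4 := by norm_num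
  have e2 : ((4 : NNReal) : ℝ) = (4 : ℕ) := by norm_num
  rw [e1, e2, ENNReal.rpow_natCast] at h1
  rw [h1]
  unfold N4
  rw [ofReal_integral_eq_lintegral_ofReal (iF_four_integrable hg)
    (Eventually.of_forall fun x => by positivity)]
  congr 1
  ext x
  rw [ENNReal.rpow_natCast, ENNReal.ofReal_pow (norm_nonneg _), ofReal_norm]

/-- the a priori bound -/
theorem apr (hR : StmtRatio4) (_hB : StmtBase) (hF : StmtFac) : StmtApr := by
  obtain ⟨n₀, hn₀⟩ := Joint.all_final2
  have hgam : ∀ᶠ n : ℕ in atTop, ratio n 4 / Real.sqrt n ≤ gam + 1 :=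
    hR.eventually_le_const (by linarith)
  obtain ⟨n₁, hn₁⟩ := eventually_atTop.1 hgam
  have hgam0 : 0 ≤ gam := by
    unfold gam
    have h1 : 0 < Real.Gamma (1 / 4) := Real.Gamma_pos_of_pos (by norm_num)
    have h2 : 0 < Real.Gamma (3 / 4) := Real.Gamma_pos_of_pos (by norm_num)
    positivity
  refine ⟨max 1 ((6 / 5 * (gam + 1)) ^ 4), max (max n₀ n₁) 1, le_max_left _ _, le_max_right _ _,
    fun n hn g hg hg0 => ?_⟩
  have hn0 : n₀ ≤ n := (le_max_left _ _).trans ((le_max_left _ _).trans hn)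
  have hn1 : n₁ ≤ n := (le_max_right _ _).trans ((le_max_left _ _).trans hn)
  have hn2 : 1 ≤ n := (le_max_right _ _).trans hn
  have hnpos : (0 : ℝ) < n := by exact_mod_cast hn2
  have hr : 6 / 5 * ratio n 4 ≤ 6 / 5 * (gam + 1) * Real.sqrt n := by
    have h1 := hn₁ n hn1
    rw [div_le_iff₀ (Real.sqrt_pos.2 hnpos)] at h1
    linarith
  have hE : ENNReal.ofReal (4 : ℝ) = 4 := by norm_num
  have h4 : ∀ f : 𝓢(ℂ, ℂ), eLpNorm (Tn n f) 4 volume ≤
      ENNReal.ofReal (6 / 5 * ratio n 4) * eLpNorm f 4 volume := by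
    intro f
    have := hn₀ n hn0 4 (by norm_num) f
    rwa [hE] at this
  have hmg : CC (mg n g) := (hF.2.2.2.2.2.1 g n hn2 hg hg0).1
  have h5 := apr_cc h4 hg
  have h6 : ENNReal.ofReal (N4 (mg n g)) ≤
      ENNReal.ofReal ((6 / 5 * (gam + 1)) ^ 4 * n ^ 2 * N4 g) := by
    rw [n4_eq hmg, ENNReal.ofReal_mul (by positivity), n4_eq hg]
    calc eLpNorm (iF (mg n g)) 4 volume ^ 4
        ≤ (ENNReal.ofReal (6 / 5 * ratio n 4) * eLpNorm (iF g) 4 volume) ^ 4 := by gcongr
      _ ≤ (ENNReal.ofReal (6 / 5 * (gam + 1) * Real.sqrt n) * eLpNorm (iF g) 4 volume) ^ 4 := by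
          gcongr
      _ = _ := by
          rw [mul_pow, ← ENNReal.ofReal_pow (by positivity)]
          congr 2
          rw [mul_pow]
          congr 1
          have : Real.sqrt n ^ 4 = (Real.sqrt n ^ 2) ^ 2 := by ring
          rw [this, Real.sq_sqrt hnpos.le]
  have hN0 : 0 ≤ N4 g := n4_nonneg g
  have h7 := (ENNReal.ofReal_le_ofReal_iff (by positivity)).1 h6
  refine h7.trans ?_
  gcongr
  exact le_max_right _ _

end Pool.Agent.Lib.MP_dd244f_an.Four
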