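import Pool.Agent.Lib.MP_dd244f_an.Four.Basic

/-!
Module F4-Bdry: the boundary shells of a block.
-/

set_option autoImplicit false

namespace Pool.Agent.Lib.MP_dd244f_an.Four

open MeasureTheory Finset

private theorem step_iF (hB : StmtBase) (hF : StmtFac) {G : ℂ → ℂ} (hG : CC G) (a b : ℤ) (x : ℂ) :
    iF (cut (bd a b) G) x = iF (cut (bd (a + 1) (b - 1)) G) x
      + (iF (cut (sh a) G) x + iF (cut (sh (b - 1)) G) x) := by
  have hadd := hB.2.2.2.2.1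
  have hcc := hF.2.2.2.2.1 G
  have h1 : CC (cut (sh a) G) := (hcc a a hG).2.2
  have h2 : CC (cut (sh (b - 1)) G) := (hcc (b - 1) a hG).2.2
  have h3 : CC (cut (bd (a + 1) (b - 1)) G) := (hcc (a + 1) (b - 1) hG).2.1
  have h4 : CC (fun ζ => cut (sh a) G ζ + cut (sh (b - 1)) G ζ) := by
    refine ⟨h1.1.add h2.1, ?_⟩
    exact h1.2.add h2.2
  rw [← hadd _ _ h1 h2 x, ← hadd _ _ h3 h4 x]
  congr 1
  ext ζ
  unfold cut sh bd
  have e : b - 1 + 1 = b := by ring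
  rw [e]
  push_cast
  ring

private theorem sum_iF (hB : StmtBase) (hF : StmtFac) {G : ℂ → ℂ} (hG : CC G) (s t : ℤ) (x : ℂ)
    (m : ℕ) :
    iF (cut (bd s t) G) x = iF (cut (bd (s + m) (t - m)) G) x
      + ∑ i ∈ Finset.range m, (iF (cut (sh (s + i)) G) x + iF (cut (sh (t - 1 - i)) G) x) := by
  induction m with
  | zero => simp
  | succ m ih =>
    rw [ih, Finset.sum_range_succ, step_iF hB hF hG (s + m) (t - m) x]
    have e1 : s + (m : ℤ) + 1 = s + ((m + 1 : ℕ) : ℤ) := by push_cast; ring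
    have e2 : t - (m : ℤ) - 1 = t - ((m + 1 : ℕ) : ℤ) := by push_cast; ring
    have e3 : t - (m : ℤ) - 1 = t - 1 - (m : ℤ) := by ring
    rw [e1, e2, ← e2, e3]
    ring

private theorem four_ineq {ε : ℝ} (hε : 0 < ε) : ∃ C : ℝ, 0 < C ∧ ∀ a b : ℝ, 0 ≤ a → 0 ≤ b →
    (a + b) ^ 4 ≤ (1 + ε) * a ^ 4 + C * b ^ 4 := by
  set δ := min 1 (ε / 7) with hδ
  have hδ0 : 0 < δ := lt_min one_pos (by positivity)
  have hδ1 : δ ≤ 1 := min_le_left _ _
  have hδ2 : 7 * δ ≤ ε := by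
    have := min_le_right 1 (ε / 7)
    rw [← hδ] at this
    linarith
  refine ⟨(1 + 1 / δ) ^ 3, by positivity, fun a b ha hb => ?_⟩
  have key : ∀ u v : ℝ, (u + v) ^ 2 ≤ (1 + δ) * u ^ 2 + (1 + 1 / δ) * v ^ 2 := by
    intro u v
    have h1 : 0 ≤ (δ * u - v) ^ 2 / δ := by positivity
    have h2 : (δ * u - v) ^ 2 / δ = δ * u ^ 2 - 2 * u * v + 1 / δ * v ^ 2 := by
      field_simp
      ring
    nlinarith [h1, h2]
  have h1 := key a b
  have h2 : 0 ≤ (a + b) ^ 2 := by positivity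
  have h3 : (a + b) ^ 4 ≤ ((1 + δ) * a ^ 2 + (1 + 1 / δ) * b ^ 2) ^ 2 := by
    have : (a + b) ^ 4 = ((a + b) ^ 2) ^ 2 := by ring
    rw [this]
    exact pow_le_pow_left₀ h2 h1 2
  have h4 := key ((1 + δ) * a ^ 2) ((1 + 1 / δ) * b ^ 2)
  have h5 : (1 + δ) ^ 3 ≤ 1 + ε := by nlinarith [mul_pos hδ0 hδ0, mul_pos (mul_pos hδ0 hδ0) hδ0]
  have h6 : (1 + δ) ^ 3 * a ^ 4 ≤ (1 + ε) * a ^ 4 := mul_le_mul_of_nonneg_right h5 (by positivity)
  calc (a + b) ^ 4 ≤ _ := h3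
    _ ≤ _ := h4
    _ = (1 + δ) ^ 3 * a ^ 4 + (1 + 1 / δ) ^ 3 * b ^ 4 := by ring
    _ ≤ _ := by linarith

private theorem sum_four (m : ℕ) (u v : ℕ → ℝ) (hu : ∀ i, 0 ≤ u i) (hv : ∀ i, 0 ≤ v i) :
    (∑ i ∈ Finset.range m, (u i + v i)) ^ 4 ≤
      8 * (m : ℝ) ^ 3 * ∑ i ∈ Finset.range m, (u i ^ 4 + v i ^ 4) := by
  have h1 : (∑ i ∈ Finset.range m, (u i + v i)) ^ 2 ≤
      m * ∑ i ∈ Finset.range m, (u i + v i) ^ 2 := by
    have := sq_sum_le_card_mul_sum_sq (s := Finset.range m) (f := fun i => u i + v i)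
    simpa using this
  have h2 : (∑ i ∈ Finset.range m, (u i + v i) ^ 2) ^ 2 ≤
      m * ∑ i ∈ Finset.range m, ((u i + v i) ^ 2) ^ 2 := by
    have := sq_sum_le_card_mul_sum_sq (s := Finset.range m) (f := fun i => (u i + v i) ^ 2)
    simpa using this
  have h3 : ∑ i ∈ Finset.range m, ((u i + v i) ^ 2) ^ 2 ≤
      ∑ i ∈ Finset.range m, 8 * (u i ^ 4 + v i ^ 4) := by
    refine Finset.sum_le_sum fun i _ => ?_
    have a1 : (u i + v i) ^ 2 ≤ 2 * (u i ^ 2 + v i ^ 2) := by nlinarith [sq_nonneg (u i - v i)]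
    have a2 : ((u i + v i) ^ 2) ^ 2 ≤ (2 * (u i ^ 2 + v i ^ 2)) ^ 2 :=
      pow_le_pow_left₀ (by positivity) a1 2
    nlinarith [sq_nonneg (u i ^ 2 - v i ^ 2)]
  rw [← Finset.mul_sum] at h3
  have h0 : 0 ≤ ∑ i ∈ Finset.range m, (u i + v i) :=
    Finset.sum_nonneg fun i _ => add_nonneg (hu i) (hv i)
  calc (∑ i ∈ Finset.range m, (u i + v i)) ^ 4 = ((∑ i ∈ Finset.range m, (u i + v i)) ^ 2) ^ 2 := by
        ring
    _ ≤ (m * ∑ i ∈ Finset.range m, (u i + v i) ^ 2) ^ 2 := pow_le_pow_left₀ (by positivity) h1 2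
    _ = (m : ℝ) ^ 2 * (∑ i ∈ Finset.range m, (u i + v i) ^ 2) ^ 2 := by ring
    _ ≤ (m : ℝ) ^ 2 * (m * (8 * ∑ i ∈ Finset.range m, (u i ^ 4 + v i ^ 4))) := by
        refine mul_le_mul_of_nonneg_left ?_ (by positivity)
        exact h2.trans (mul_le_mul_of_nonneg_left h3 (by positivity))
    _ = _ := by ring

theorem bdry (hB : StmtBase) (hF : StmtFac) : StmtBdry := by
  intro ε hε
  obtain ⟨C, hC, hC4⟩ := four_ineq hε
  refine ⟨8 * C, by positivity, fun m L s G hmL hG => ?_⟩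
  have hcc := hF.2.2.2.2.1 G
  have hint : ∀ a b : ℤ, Integrable (fun x => ‖iF (cut (bd a b) G) x‖ ^ 4) := fun a b =>
    (hB.1 _ (hcc a b hG).2.1).2.2.2.1
  have hints : ∀ a : ℤ, Integrable (fun x => ‖iF (cut (sh a) G) x‖ ^ 4) := fun a =>
    (hB.1 _ (hcc a a hG).2.2).2.2.2.1
  have e2 : (s : ℤ) + L - m = (s + L) - m := by ring
  have hpt : ∀ x, ‖iF (cut (bd s (s + L)) G) x‖ ^ 4 ≤
      (1 + ε) * ‖iF (cut (bd (s + m) (s + L - m)) G) x‖ ^ 4
        + 8 * C * (m : ℝ) ^ 3 * ∑ i ∈ Finset.range m,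
          (‖iF (cut (sh (s + i)) G) x‖ ^ 4 + ‖iF (cut (sh (s + L - 1 - i)) G) x‖ ^ 4) := by
    intro x
    rw [sum_iF hB hF hG s (s + L) x m]
    have h1 : ‖∑ i ∈ Finset.range m, (iF (cut (sh (s + i)) G) x + iF (cut (sh (s + L - 1 - i)) G) x)‖
        ≤ ∑ i ∈ Finset.range m, (‖iF (cut (sh (s + i)) G) x‖ + ‖iF (cut (sh (s + L - 1 - i)) G) x‖) := by
      refine (norm_sum_le _ _).trans ?_
      exact Finset.sum_le_sum fun i _ => norm_add_le _ _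
    set X := iF (cut (bd (s + m) (s + L - m)) G) x
    set Y := ∑ i ∈ Finset.range m, (iF (cut (sh (s + i)) G) x + iF (cut (sh (s + L - 1 - i)) G) x)
    calc ‖X + Y‖ ^ 4 ≤ (‖X‖ + ‖Y‖) ^ 4 := pow_le_pow_left₀ (norm_nonneg _) (norm_add_le _ _) 4
      _ ≤ (1 + ε) * ‖X‖ ^ 4 + C * ‖Y‖ ^ 4 := hC4 _ _ (norm_nonneg _) (norm_nonneg _)
      _ ≤ (1 + ε) * ‖X‖ ^ 4 + C * (8 * (m : ℝ) ^ 3 * ∑ i ∈ Finset.range m,
          (‖iF (cut (sh (s + i)) G) x‖ ^ 4 + ‖iF (cut (sh (s + L - 1 - i)) G) x‖ ^ 4)) := by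
          have h2 : ‖Y‖ ^ 4 ≤ _ := (pow_le_pow_left₀ (norm_nonneg _) h1 4).trans
            (sum_four m (fun i => ‖iF (cut (sh (s + i)) G) x‖)
              (fun i => ‖iF (cut (sh (s + L - 1 - i)) G) x‖) (fun i => norm_nonneg _)
              (fun i => norm_nonneg _))
          have := mul_le_mul_of_nonneg_left h2 hC.le
          linarith
      _ = _ := by ring
  have hsum : Integrable (fun x => ∑ i ∈ Finset.range m,
      (‖iF (cut (sh (s + i)) G) x‖ ^ 4 + ‖iF (cut (sh (s + L - 1 - i)) G) x‖ ^ 4)) :=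
    integrable_finsetSum _ fun i _ => (hints _).add (hints _)
  unfold N4
  calc ∫ x, ‖iF (cut (bd s (s + L)) G) x‖ ^ 4
      ≤ ∫ x, ((1 + ε) * ‖iF (cut (bd (s + m) (s + L - m)) G) x‖ ^ 4
        + 8 * C * (m : ℝ) ^ 3 * ∑ i ∈ Finset.range m,
          (‖iF (cut (sh (s + i)) G) x‖ ^ 4 + ‖iF (cut (sh (s + L - 1 - i)) G) x‖ ^ 4)) := by
        refine integral_mono (hint _ _) ?_ hpt
        exact ((hint _ _).const_mul _).add (hsum.const_mul _)
    _ = _ := by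
        have hadd : ∀ i ∈ Finset.range m, Integrable (fun x => ‖iF (cut (sh (s + i)) G) x‖ ^ 4
            + ‖iF (cut (sh (s + L - 1 - i)) G) x‖ ^ 4) := fun i _ => (hints _).add (hints _)
        rw [integral_add ((hint _ _).const_mul _) (hsum.const_mul _), integral_const_mul,
          integral_const_mul, integral_finsetSum _ hadd]
        congr 2
        refine Finset.sum_congr rfl fun i _ => ?_
        rw [integral_add (hints _) (hints _)]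

end Pool.Agent.Lib.MP_dd244f_an.Four
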