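import Pool.Agent.Lib.MP_dd244f_an.Four.Strip

/-!
Full operator, `p = 4`: the sharp inequality for one block.
-/

set_option autoImplicit false

namespace Pool.Agent.Lib.MP_dd244f_an.Four

open MeasureTheory Filter Topology Finset

theorem jset_closed (s : ℤ) (L m : ℕ) : IsClosed (Jset s L m) := by
  unfold Jset
  apply IsClosed.inter
  · exact isClosed_le continuous_const continuous_norm
  · exact isClosed_le continuous_norm continuous_const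

theorem wr_nonneg {r : ℝ} (θ : ℂ) : 0 ≤ Wr r θ := by
  unfold Wr
  have := Real.pi_pos
  positivity

theorem wr_scale {r : ℝ} {θ q : ℂ} {c : ℝ} (hc : 1 ≤ c) (h : ‖θ‖ ≤ c * ‖q‖) :
    Wr r θ ≤ c ^ 4 * Wr r q := by
  unfold Wr
  have hpi := Real.pi_pos
  have h0 : (0 : ℝ) ≤ ‖θ‖ := norm_nonneg _
  have h1 : ‖θ‖ ^ 4 ≤ c ^ 4 * ‖q‖ ^ 4 := by
    rw [← mul_pow]; exact pow_le_pow_left₀ h0 h 4
  have h2 : ‖θ‖ ^ 2 ≤ c ^ 4 * ‖q‖ ^ 2 := by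
    have h3 : ‖θ‖ ^ 2 ≤ c ^ 2 * ‖q‖ ^ 2 := by
      rw [← mul_pow]; exact pow_le_pow_left₀ h0 h 2
    have h4 : c ^ 2 ≤ c ^ 4 := pow_le_pow_right₀ hc (by norm_num)
    nlinarith [sq_nonneg ‖q‖]
  have h3 : (1 : ℝ) ≤ c ^ 4 := one_le_pow₀ hc
  have a1 : r ^ 4 * ‖θ‖ ^ 4 ≤ r ^ 4 * (c ^ 4 * ‖q‖ ^ 4) :=
    mul_le_mul_of_nonneg_left h1 (by positivity)
  have a2 : 4 / Real.pi * r ^ 2 * ‖θ‖ ^ 2 ≤ 4 / Real.pi * r ^ 2 * (c ^ 4 * ‖q‖ ^ 2) :=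
    mul_le_mul_of_nonneg_left h2 (by positivity)
  have a3 : 2 / Real.pi ^ 2 ≤ c ^ 4 * (2 / Real.pi ^ 2) := by
    have : (0 : ℝ) ≤ 2 / Real.pi ^ 2 := by positivity
    nlinarith
  calc _ ≤ r ^ 4 * (c ^ 4 * ‖q‖ ^ 4) + 4 / Real.pi * r ^ 2 * (c ^ 4 * ‖q‖ ^ 2)
        + c ^ 4 * (2 / Real.pi ^ 2) := by linarith
    _ = _ := by ring

/-- the weight is at most `n ^ 2` on the relevant frequencies -/
theorem wr_le {n : ℕ} (hn : 1 ≤ n) {M : ℝ} (hM : 1 ≤ M) {s : ℤ} {L m : ℕ} (hm : 4 ≤ m) {θ : ℂ}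
    (hθ : ‖θ‖ ≤ (2 : ℝ) ^ (s + L - m + 2)) : Wr (win n M s L) θ ≤ n ^ 2 := by
  have hn' : (1 : ℝ) ≤ n := by exact_mod_cast hn
  have hsq : Real.sqrt n ^ 2 = n := Real.sq_sqrt (by positivity)
  have h2 : (0 : ℝ) < (2 : ℝ) ^ (s + L) := by positivity
  have hr0 : 0 ≤ win n M s L := by unfold win; positivity
  -- r |θ| ≤ √n / 4
  have hx : win n M s L * ‖θ‖ ≤ Real.sqrt n / 4 := by
    have e1 : ‖θ‖ ≤ (2 : ℝ) ^ (s + L) / 4 := by
      refine hθ.trans ?_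
      have : (2 : ℝ) ^ (s + L) / 4 = (2 : ℝ) ^ (s + L - 2) := by
        rw [zpow_sub₀ (by norm_num)]; norm_num
      rw [this]
      apply zpow_le_zpow_right₀ (by norm_num)
      have : (4 : ℤ) ≤ m := by exact_mod_cast hm
      linarith
    calc win n M s L * ‖θ‖ ≤ win n M s L * ((2 : ℝ) ^ (s + L) / 4) :=
          mul_le_mul_of_nonneg_left e1 hr0
      _ = Real.sqrt n / M / 4 := by
          unfold win
          field_simp
      _ ≤ Real.sqrt n / 4 := by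
          apply div_le_div_of_nonneg_right _ (by norm_num)
          exact div_le_self (Real.sqrt_nonneg _) hM
  have hx0 : 0 ≤ win n M s L * ‖θ‖ := mul_nonneg hr0 (norm_nonneg _)
  set x := win n M s L * ‖θ‖ with hxdef
  have hW : Wr (win n M s L) θ = x ^ 4 + 4 / Real.pi * x ^ 2 + 2 / Real.pi ^ 2 := by
    unfold Wr; rw [hxdef]; ring
  have hx2 : x ^ 2 ≤ n / 16 := by
    calc x ^ 2 ≤ (Real.sqrt n / 4) ^ 2 := pow_le_pow_left₀ hx0 hx 2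
      _ = n / 16 := by rw [div_pow, hsq]; norm_num
  have hx4 : x ^ 4 ≤ n ^ 2 / 256 := by
    calc x ^ 4 = (x ^ 2) ^ 2 := by ring
      _ ≤ ((n : ℝ) / 16) ^ 2 := pow_le_pow_left₀ (by positivity) hx2 2
      _ = (n : ℝ) ^ 2 / 256 := by ring
  have hpi : (3 : ℝ) < Real.pi := Real.pi_gt_three
  have p1 : 4 / Real.pi ≤ 4 / 3 := by
    apply div_le_div_of_nonneg_left (by norm_num) (by norm_num) hpi.le
  have p2 : 2 / Real.pi ^ 2 ≤ 2 / 9 := by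
    apply div_le_div_of_nonneg_left (by norm_num) (by norm_num)
    nlinarith
  rw [hW]
  have q1 : 4 / Real.pi * x ^ 2 ≤ 4 / 3 * (n / 16) :=
    mul_le_mul p1 hx2 (by positivity) (by norm_num)
  nlinarith [mul_le_mul hn' hn' (by norm_num) (by positivity)]

private theorem aux1 {a b : ℝ} (ha : 1 ≤ a) (hb : 1 < b) : 1 ≤ a * b := by nlinarith

private theorem aux2 {l e t x : ℝ} (h : l ≤ e * t) (ht : 16 * t ≤ x) (he : 0 < e) :
    l ≤ e / 16 * x := by nlinarith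

private theorem aux3 {e : ℝ} (he : 0 < e) (he1 : e ≤ 1) : 1 / (1 - e / 16) ≤ 1 + e / 15 := by
  rw [div_le_iff₀ (by linarith)]
  nlinarith

private theorem aux4 {e c : ℝ} (he : 0 < e) (he1 : e ≤ 1) (hc : c ≤ 1 + e / 3) :
    (1 + e) * c ≤ 1 + 2 * e := by nlinarith

private theorem aux5 {e e₁ e₃ : ℝ} (h1 : 0 < e₁) (h2 : e₁ ≤ 1 / 4) (h3 : e₁ ≤ e / 4)
    (h4 : 0 < e₃) (h5 : e₃ ≤ e₁ / 2) : (1 + 2 * e₃) * (1 + e₁) ≤ 1 + e := by nlinarith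

private theorem aux6 {e₂ e₃ : ℝ} (h2 : 0 < e₂) (h3 : 0 < e₃) (h4 : e₃ ≤ 1) :
    (1 + 2 * e₃) * (e₂ / 8) + e₂ / 4 ≤ e₂ := by nlinarith

theorem block (hSyn : StmtSyn) (hB1 : StmtBlk1) (hBA : StmtBlkAvg) (hBP : StmtBilPt)
    (hF : StmtFac) (hB : StmtBase) : StmtBlock := by
  intro ε hε
  have hpi := Real.pi_pos
  have hgam : 0 < gam := by
    unfold gam
    exact div_pos (Real.Gamma_pos_of_pos (by norm_num)) (Real.Gamma_pos_of_pos (by norm_num))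
  set ε₁ : ℝ := min ε 1 / 4 with hε₁
  have hε₁0 : 0 < ε₁ := by positivity
  have hε₁1 : ε₁ ≤ 1 / 4 := by
    have := min_le_right ε 1; linarith
  have hε₁ε : ε₁ ≤ ε / 4 := by
    have := min_le_left ε 1; linarith
  obtain ⟨M, M₂, hM, hM₂, hBA⟩ := hBA ε₁ hε₁0
  refine ⟨M * M₂, 4, aux1 hM hM₂, le_rfl, ?_⟩
  intro m hm L hL ε₂ hε₂
  -- choice of ε₃
  set C₀ : ℝ := Real.pi ^ 2 * gam ^ 4 / 16 with hC₀
  have hC₀0 : 0 < C₀ := by positivity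
  set ε₃ : ℝ := min (ε₁ / 2) (ε₂ / (8 * C₀ * Real.pi)) with hε₃
  have hε₃0 : 0 < ε₃ := by positivity
  have hε₃a : ε₃ ≤ ε₁ / 2 := min_le_left _ _
  have hε₃b : ε₃ * (8 * C₀ * Real.pi) ≤ ε₂ := by
    have := min_le_right (ε₁ / 2) (ε₂ / (8 * C₀ * Real.pi))
    rw [← hε₃] at this
    rwa [le_div_iff₀ (by positivity)] at this
  have hε₃1 : ε₃ ≤ 1 := by linarith
  obtain ⟨η, n₁, hη0, hη1, hηε, hB1⟩ := hB1 M L m ε₃ hM hm hL hε₃0
  set ε₄ : ℝ := ε₂ / (8 * C₀) with hε₄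
  have hε₄0 : 0 < ε₄ := by positivity
  obtain ⟨n₂, hBA⟩ := hBA m L hm hL η ε₄ hη0 hη1 hε₄0
  refine ⟨max 1 (max n₁ n₂), le_max_left _ _, ?_⟩
  intro n hn s g hg
  have hn1 : 1 ≤ n := (le_max_left _ _).trans hn
  have hnn1 : n ≥ n₁ := ((le_max_left _ _).trans (le_max_right _ _)).trans hn
  have hnn2 : n ≥ n₂ := ((le_max_right _ _).trans (le_max_right _ _)).trans hn
  have hn' : (1 : ℝ) ≤ n := by exact_mod_cast hn1
  have hgb : CC (cut (bd s (s + L)) g) := (hF.2.2.2.2.1 g _ _ hg).2.1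
  have hG : CC (cut (bd (s + m) (s + L - m)) (mg n g)) := hF.2.2.2.2.2.2 g n _ _ hg
  obtain ⟨hJ1, hlow, hhigh⟩ := hB1 n hnn1 s g hg
  obtain ⟨hInt, hAvg⟩ := hBA n hnn2 s _ hgb
  set gb := cut (bd s (s + L)) g with hgbdef
  set G := cut (bd (s + m) (s + L - m)) (mg n g) with hGdef
  set r := win n M s L with hr
  have hr0 : 0 < r := by
    rw [hr]; unfold win
    have : (0:ℝ) < n := by linarith
    positivity
  obtain ⟨-, hOm0, hOmi, -, hOmle⟩ := hBP r gb gb hr0 hgb hgb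
  have hOmle' : ∫ θ, Om r gb gb θ ≤ Real.pi * r ^ 2 * N4 gb := by
    refine hOmle.trans (le_of_eq ?_)
    rw [Real.mul_self_sqrt (n4_nonneg _)]
  have hsyn := hSyn r G hr0 hG
  have hAcc : CC (As r G G) := as_cc hB hG hG
  have hWcont : Continuous (Wr r) := by unfold Wr; fun_prop
  -- integrability
  have hWA : Integrable (fun θ => Wr r θ * ‖As r G G θ‖ ^ 2) := by
    apply Continuous.integrable_of_hasCompactSupport
    · have := hAcc.1; fun_prop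
    · apply HasCompactSupport.mul_left
      exact hAcc.2.comp_left (g := fun z => ‖z‖ ^ 2) (by simp)
  set J := Jset s L m with hJdef
  have hJm : MeasurableSet J := (jset_closed s L m).measurableSet
  set l : ℝ := η * (2 : ℝ) ^ s with hl
  have hl0 : 0 < l := by positivity
  have h2m : (16 : ℝ) * (2 : ℝ) ^ s ≤ (2 : ℝ) ^ (s + m) := by
    have : (16 : ℝ) * (2 : ℝ) ^ s = (2 : ℝ) ^ (s + 4) := by
      rw [zpow_add₀ (by norm_num)]; norm_num; ring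
    rw [this]
    apply zpow_le_zpow_right₀ (by norm_num)
    have : (4 : ℤ) ≤ m := by exact_mod_cast hm
    linarith
  have hmL : (2 : ℝ) ^ (s + m) ≤ (2 : ℝ) ^ (s + L - m + 2) := by
    apply zpow_le_zpow_right₀ (by norm_num)
    have : (2 : ℤ) * m < L := by exact_mod_cast hL
    linarith
  -- step 1 : split
  have hp1 : ∀ θ, Wr r θ * ‖As r G G θ‖ ^ 2 ≤
      J.indicator (fun θ => Wr r θ * ‖As r G G θ‖ ^ 2) θ + n ^ 2 * (ε₃ / r ^ 2 * Om r gb gb θ) := by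
    intro θ
    have hOm' := hOm0 θ
    have h3 : 0 ≤ (n : ℝ) ^ 2 * (ε₃ / r ^ 2 * Om r gb gb θ) := by positivity
    by_cases h1 : θ ∈ J
    · rw [Set.indicator_of_mem h1]; linarith
    · rw [Set.indicator_of_notMem h1, zero_add]
      by_cases h2 : ‖θ‖ < (2 : ℝ) ^ (s + m)
      · have hW : Wr r θ ≤ n ^ 2 := wr_le hn1 hM hm (h2.le.trans hmL)
        exact mul_le_mul hW (hlow θ h2) (by positivity) (by positivity)
      · have h4 : (2 : ℝ) ^ (s + L - m + 2) < ‖θ‖ := by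
          by_contra h5
          exact h1 ⟨not_lt.mp h2, not_lt.mp h5⟩
        rw [hhigh θ h4]
        simpa using h3
  have hi1 : ∫ θ, Wr r θ * ‖As r G G θ‖ ^ 2 ≤
      (∫ θ in J, Wr r θ * ‖As r G G θ‖ ^ 2) + n ^ 2 * (ε₃ / r ^ 2 * ∫ θ, Om r gb gb θ) := by
    rw [← integral_indicator hJm, ← integral_const_mul, ← integral_const_mul, ← integral_add
      (hWA.indicator hJm) ((hOmi.const_mul _).const_mul _)]
    exact integral_mono hWA ((hWA.indicator hJm).add ((hOmi.const_mul _).const_mul _)) hp1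
  -- step 2 : strip
  obtain ⟨hs1, hs2⟩ := strip_int J hJm l hl0 _ hWA.integrableOn
  obtain ⟨hs3, hs4⟩ := strip_int J hJm l hl0 _ hOmi.integrableOn
  set S : Set (ℂ × ℂ) := {z | z.1 ∈ J ∧ ‖z.2 - z.1‖ ≤ l} with hS
  have hSm : MeasurableSet S := strip_meas J hJm l
  set K : ℂ × ℂ → ℝ := fun z => bd (s + m) (s + L - m) (z.2 / 2) ^ 4 * Wr r z.2 *
      ‖bil (cs n r z.2) gb gb z.1‖ ^ 2 with hK
  set c : ℝ := 1 / (1 - ε₃ / 16) with hc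
  have hc1 : 1 ≤ c := by
    rw [hc, le_div_iff₀ (by linarith)]; linarith
  have hp2 : ∀ z ∈ S, Wr r z.1 * ‖As r G G z.1‖ ^ 2 ≤
      (1 + ε₃) * c ^ 4 * K z + n ^ 2 * (ε₃ / r ^ 2) * Om r gb gb z.1 := by
    intro z hz
    obtain ⟨h1, h2⟩ := hz
    have hb := hJ1 z.1 h1 z.2 h2
    have hW0 : 0 ≤ Wr r z.1 := wr_nonneg _
    have hW : Wr r z.1 ≤ n ^ 2 := wr_le hn1 hM hm h1.2
    have hθq : ‖z.1‖ ≤ c * ‖z.2‖ := by
      have e1 : ‖z.1‖ ≤ ‖z.2‖ + l := by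
        have := norm_sub_norm_le z.1 z.2
        rw [norm_sub_rev] at this
        linarith
      have e2 : l ≤ ε₃ / 16 * ‖z.1‖ := by
        have : (16 : ℝ) * (2 : ℝ) ^ s ≤ ‖z.1‖ := h2m.trans h1.1
        have h5 : l ≤ ε₃ * (2 : ℝ) ^ s := mul_le_mul_of_nonneg_right hηε (by positivity)
        exact aux2 h5 this hε₃0
      rw [hc, one_div, ← div_eq_inv_mul, le_div_iff₀ (by linarith)]
      linarith
    have hW' : Wr r z.1 ≤ c ^ 4 * Wr r z.2 := wr_scale hc1 hθq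
    have h3 : 0 ≤ bd (s + m) (s + L - m) (z.2 / 2) ^ 4 * ‖bil (cs n r z.2) gb gb z.1‖ ^ 2 := by
      positivity
    have h4 : 0 ≤ ε₃ / r ^ 2 * Om r gb gb z.1 := mul_nonneg (by positivity) (hOm0 _)
    calc Wr r z.1 * ‖As r G G z.1‖ ^ 2
        ≤ Wr r z.1 * ((1 + ε₃) * (bd (s + m) (s + L - m) (z.2 / 2) ^ 4 *
            ‖bil (cs n r z.2) gb gb z.1‖ ^ 2) + ε₃ / r ^ 2 * Om r gb gb z.1) :=
          mul_le_mul_of_nonneg_left hb hW0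
      _ = Wr r z.1 * ((1 + ε₃) * (bd (s + m) (s + L - m) (z.2 / 2) ^ 4 *
            ‖bil (cs n r z.2) gb gb z.1‖ ^ 2)) + Wr r z.1 * (ε₃ / r ^ 2 * Om r gb gb z.1) := by ring
      _ ≤ (c ^ 4 * Wr r z.2) * ((1 + ε₃) * (bd (s + m) (s + L - m) (z.2 / 2) ^ 4 *
            ‖bil (cs n r z.2) gb gb z.1‖ ^ 2)) + n ^ 2 * (ε₃ / r ^ 2 * Om r gb gb z.1) := by
          apply add_le_add
          · exact mul_le_mul_of_nonneg_right hW' (by positivity)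
          · exact mul_le_mul_of_nonneg_right hW h4
      _ = _ := by rw [hK]; ring
  have hi2 : (∫ z in S, Wr r z.1 * ‖As r G G z.1‖ ^ 2) ≤
      (1 + ε₃) * c ^ 4 * (∫ z in S, K z) + n ^ 2 * (ε₃ / r ^ 2) * ∫ z in S, Om r gb gb z.1 := by
    rw [← integral_const_mul, ← integral_const_mul, ← integral_add
      (hInt.const_mul _) (hs3.const_mul _)]
    exact setIntegral_mono_on hs1 ((hInt.const_mul _).add (hs3.const_mul _)) hSm hp2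
  have hpl : 0 < Real.pi * l ^ 2 := by positivity
  have hi3 : (∫ θ in J, Wr r θ * ‖As r G G θ‖ ^ 2) ≤
      (1 + ε₃) * c ^ 4 * ((∫ z in S, K z) / (Real.pi * l ^ 2))
        + n ^ 2 * (ε₃ / r ^ 2) * ∫ θ in J, Om r gb gb θ := by
    rw [hs2, hs4] at hi2
    have : Real.pi * l ^ 2 * (∫ θ in J, Wr r θ * ‖As r G G θ‖ ^ 2) ≤
        Real.pi * l ^ 2 * ((1 + ε₃) * c ^ 4 * ((∫ z in S, K z) / (Real.pi * l ^ 2))
        + n ^ 2 * (ε₃ / r ^ 2) * ∫ θ in J, Om r gb gb θ) := by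
      refine hi2.trans (le_of_eq ?_)
      field_simp
    exact le_of_mul_le_mul_left this hpl
  have hOmJ : ∫ θ in J, Om r gb gb θ ≤ ∫ θ, Om r gb gb θ :=
    setIntegral_le_integral hOmi (Eventually.of_forall hOm0)
  have hN4 : 0 ≤ N4 gb := n4_nonneg _
  have herr : (n : ℝ) ^ 2 * (ε₃ / r ^ 2) * (∫ θ, Om r gb gb θ) ≤ n ^ 2 * ε₃ * Real.pi * N4 gb := by
    calc (n : ℝ) ^ 2 * (ε₃ / r ^ 2) * (∫ θ, Om r gb gb θ)
        ≤ (n : ℝ) ^ 2 * (ε₃ / r ^ 2) * (Real.pi * r ^ 2 * N4 gb) :=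
          mul_le_mul_of_nonneg_left hOmle' (by positivity)
      _ = n ^ 2 * ε₃ * Real.pi * N4 gb := by field_simp
  have herrJ : (n : ℝ) ^ 2 * (ε₃ / r ^ 2) * (∫ θ in J, Om r gb gb θ) ≤
      n ^ 2 * ε₃ * Real.pi * N4 gb :=
    (mul_le_mul_of_nonneg_left hOmJ (by positivity)).trans herr
  set X : ℝ := ∫ θ in J, ‖As (win n (M * M₂) s L) gb gb θ‖ ^ 2 with hX
  have hX0 : 0 ≤ X := integral_nonneg fun _ => by positivity
  have hAvg' : (∫ z in S, K z) / (Real.pi * l ^ 2) ≤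
      (1 + ε₁) * (16 / Real.pi ^ 2 * n ^ 2) * X + ε₄ * n ^ 2 * N4 gb := hAvg
  have hc4 : (1 + ε₃) * c ^ 4 ≤ 1 + 2 * ε₃ := by
    have h1 : c ≤ 1 + ε₃ / 15 := aux3 hε₃0 hε₃1
    have h2 : c ^ 4 ≤ (1 + ε₃ / 15) ^ 4 := pow_le_pow_left₀ (by linarith) h1 4
    have h3 : (1 + ε₃ / 15) ^ 4 ≤ 1 + ε₃ / 3 := by
      have e1 : ε₃ ^ 2 ≤ ε₃ := by
        rw [sq]; exact mul_le_of_le_one_right hε₃0.le hε₃1
      have e2 : ε₃ ^ 3 ≤ ε₃ := by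
        have : ε₃ ^ 3 = ε₃ ^ 2 * ε₃ := by ring
        rw [this]; exact (mul_le_of_le_one_right (by positivity) hε₃1).trans e1
      have e3 : ε₃ ^ 4 ≤ ε₃ := by
        have : ε₃ ^ 4 = ε₃ ^ 3 * ε₃ := by ring
        rw [this]; exact (mul_le_of_le_one_right (by positivity) hε₃1).trans e2
      have e4 : (1 + ε₃ / 15) ^ 4 = 1 + 4 / 15 * ε₃ + 6 / 225 * ε₃ ^ 2 + 4 / 3375 * ε₃ ^ 3
          + 1 / 50625 * ε₃ ^ 4 := by ring
      rw [e4]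
      linarith
    have h4 : c ^ 4 ≤ 1 + ε₃ / 3 := h2.trans h3
    exact aux4 hε₃0 hε₃1 h4
  have hc40 : 0 ≤ (1 + ε₃) * c ^ 4 := by positivity
  -- total
  have htot : ∫ θ, Wr r θ * ‖As r G G θ‖ ^ 2 ≤
      (1 + 2 * ε₃) * ((1 + ε₁) * (16 / Real.pi ^ 2 * n ^ 2) * X + ε₄ * n ^ 2 * N4 gb)
        + 2 * (n ^ 2 * ε₃ * Real.pi * N4 gb) := by
    have h1 : (n : ℝ) ^ 2 * (ε₃ / r ^ 2 * ∫ θ, Om r gb gb θ)
        = (n : ℝ) ^ 2 * (ε₃ / r ^ 2) * ∫ θ, Om r gb gb θ := by ring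
    rw [h1] at hi1
    have h2 : (1 + ε₃) * c ^ 4 * ((∫ z in S, K z) / (Real.pi * l ^ 2)) ≤
        (1 + 2 * ε₃) * ((1 + ε₁) * (16 / Real.pi ^ 2 * n ^ 2) * X + ε₄ * n ^ 2 * N4 gb) := by
      refine (mul_le_mul_of_nonneg_left hAvg' hc40).trans ?_
      exact mul_le_mul_of_nonneg_right hc4 (by positivity)
    linarith
  have hfin : N4 G ≤ C₀ * ((1 + 2 * ε₃) * ((1 + ε₁) * (16 / Real.pi ^ 2 * n ^ 2) * X
      + ε₄ * n ^ 2 * N4 gb) + 2 * (n ^ 2 * ε₃ * Real.pi * N4 gb)) := by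
    refine hsyn.trans ?_
    exact mul_le_mul_of_nonneg_left htot hC₀0.le
  refine hfin.trans ?_
  have hmain : C₀ * ((1 + 2 * ε₃) * ((1 + ε₁) * (16 / Real.pi ^ 2 * n ^ 2) * X))
      = ((1 + 2 * ε₃) * (1 + ε₁)) * (gam ^ 4 * n ^ 2 * X) := by
    rw [hC₀]
    field_simp
  have hA0 : 0 ≤ gam ^ 4 * n ^ 2 * X := by positivity
  have hB0 : 0 ≤ (n : ℝ) ^ 2 * N4 gb := by positivity
  have hcoef : (1 + 2 * ε₃) * (1 + ε₁) ≤ 1 + ε := aux5 hε₁0 hε₁1 hε₁ε hε₃0 hε₃a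
  have hcoef2 : C₀ * ((1 + 2 * ε₃) * ε₄) + C₀ * (2 * ε₃ * Real.pi) ≤ ε₂ := by
    have e1 : C₀ * ε₄ = ε₂ / 8 := by rw [hε₄]; field_simp
    have e2 : C₀ * (2 * ε₃ * Real.pi) ≤ ε₂ / 4 := by
      have : C₀ * (2 * ε₃ * Real.pi) = ε₃ * (8 * C₀ * Real.pi) / 4 := by ring
      rw [this]
      exact div_le_div_of_nonneg_right hε₃b (by norm_num)
    have e3 : C₀ * ((1 + 2 * ε₃) * ε₄) = (1 + 2 * ε₃) * (ε₂ / 8) := by rw [← e1]; ring
    rw [e3]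
    exact (add_le_add le_rfl e2).trans (aux6 hε₂ hε₃0 hε₃1)
  calc C₀ * ((1 + 2 * ε₃) * ((1 + ε₁) * (16 / Real.pi ^ 2 * n ^ 2) * X
      + ε₄ * n ^ 2 * N4 gb) + 2 * (n ^ 2 * ε₃ * Real.pi * N4 gb))
      = ((1 + 2 * ε₃) * (1 + ε₁)) * (gam ^ 4 * n ^ 2 * X)
        + (C₀ * ((1 + 2 * ε₃) * ε₄) + C₀ * (2 * ε₃ * Real.pi)) * (n ^ 2 * N4 gb) := by
        rw [← hmain]; ring
    _ ≤ (1 + ε) * (gam ^ 4 * n ^ 2 * X) + ε₂ * (n ^ 2 * N4 gb) := by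
        apply add_le_add
        · exact mul_le_mul_of_nonneg_right hcoef hA0
        · exact mul_le_mul_of_nonneg_right hcoef2 hB0
    _ = _ := by ring

end Pool.Agent.Lib.MP_dd244f_an.Four
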