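import Pool.Agent.Lib.MP_dd244f_an.Four.Stmts

/-!
Full operator, `p = 4`: module (R), low frequencies of `|T^n f|^2 - |f|^2` on one shell.
-/

set_option autoImplicit false

namespace Pool.Agent.Lib.MP_dd244f_an.Four

open MeasureTheory Filter Topology Finset

namespace R

/-- the Hermitian reflection -/
noncomputable def rf (g : ℂ → ℂ) (ζ : ℂ) : ℂ := starRingEnd ℂ (g (-ζ))

theorem rf_cc {g : ℂ → ℂ} (hg : CC g) : CC (rf g) := by
  refine ⟨?_, ?_⟩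
  · unfold rf
    exact Complex.continuous_conj.comp (hg.1.comp continuous_neg)
  · have h1 : HasCompactSupport (g ∘ (Homeomorph.neg ℂ)) := hg.2.comp_homeomorph _
    exact h1.comp_left (g := starRingEnd ℂ) (map_zero _)

theorem n4_rf (hB : StmtBase) (g : ℂ → ℂ) : N4 (rf g) = N4 g := by
  unfold N4
  congr 1
  ext x
  have := hB.2.2.2.1 g x
  have h2 : iF (rf g) x = starRingEnd ℂ (iF g x) := by rw [this]; rfl
  rw [h2, RCLike.norm_conj]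

theorem lap_congr {f g : ℂ → ℂ} {δ : ℂ} (h : f =ᶠ[𝓝 δ] g) : lap f δ = lap g δ := by
  have h1 : fderiv ℝ f =ᶠ[𝓝 δ] fderiv ℝ g := h.fderiv
  unfold lap
  have h2 : (fun z => fderiv ℝ f z 1) =ᶠ[𝓝 δ] (fun z => fderiv ℝ g z 1) := by
    filter_upwards [h1] with z hz
    rw [hz]
  have h3 : (fun z => fderiv ℝ f z Complex.I) =ᶠ[𝓝 δ] (fun z => fderiv ℝ g z Complex.I) := by
    filter_upwards [h1] with z hz
    rw [hz]
  rw [h2.fderiv_eq, h3.fderiv_eq]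

theorem lap_zero (δ : ℂ) : lap (fun _ => 0) δ = 0 := by
  unfold lap
  simp

theorem lap_sub_const (f : ℂ → ℂ) (c : ℂ) (δ : ℂ) : lap (fun z => f z - c) δ = lap f δ := by
  unfold lap
  simp only [fderiv_sub_const]

theorem abs_bd_le (hF : StmtFac) (a b : ℤ) (ζ : ℂ) : |bd a b ζ| ≤ 1 := by
  have h1 := hF.1 a ζ
  have h2 := hF.1 b ζ
  unfold bd
  rw [abs_le]
  constructor <;> linarith [h1.1, h1.2, h2.1, h2.2]

theorem bd_one (hF : StmtFac) {a b : ℤ} {ζ : ℂ} (h1 : 2 * ((2 : ℝ) ^ a) ^ 2 ≤ ‖ζ‖ ^ 2)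
    (h2 : ‖ζ‖ ≤ (2 : ℝ) ^ b) : bd a b ζ = 1 := by
  unfold bd
  rw [hF.2.1 b ζ h2, hF.2.2.1 a ζ h1]
  ring

theorem bd_zero_small (hF : StmtFac) {a b : ℤ} (hab : a ≤ b) {ζ : ℂ} (h : ‖ζ‖ ≤ (2 : ℝ) ^ a) :
    bd a b ζ = 0 := by
  unfold bd
  have : ‖ζ‖ ≤ (2 : ℝ) ^ b := h.trans (zpow_le_zpow_right₀ (by norm_num) hab)
  rw [hF.2.1 b ζ this, hF.2.1 a ζ h]
  ring

theorem bd_zero_large (hF : StmtFac) {a b : ℤ} (hab : a ≤ b) {ζ : ℂ}
    (h : 2 * ((2 : ℝ) ^ b) ^ 2 ≤ ‖ζ‖ ^ 2) : bd a b ζ = 0 := by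
  unfold bd
  have h0 : (2 : ℝ) ^ a ≤ (2 : ℝ) ^ b := zpow_le_zpow_right₀ (by norm_num) hab
  have h1 : (0 : ℝ) < (2 : ℝ) ^ a := by positivity
  have : 2 * ((2 : ℝ) ^ a) ^ 2 ≤ ‖ζ‖ ^ 2 := by
    refine le_trans ?_ h
    gcongr
  rw [hF.2.2.1 b ζ h, hF.2.2.1 a ζ this]
  ring

/-- the cut-off -/
noncomputable def X (a : ℤ) (ζ : ℂ) : ℂ := (bd (a - 1) (a + 2) ζ : ℂ)

/-- the cut-off symbol -/
noncomputable def Y (n : ℕ) (a : ℤ) (ζ : ℂ) : ℂ := (bd (a - 2) (a + 3) ζ : ℂ) * mm n ζ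

noncomputable def P (a : ℤ) (θ δ : ℂ) : ℂ := X a (θ / 2 + δ) * X a (-(θ / 2) + δ)

noncomputable def U (n : ℕ) (a : ℤ) (θ δ : ℂ) : ℂ :=
  Y n a (θ / 2 + δ) * starRingEnd ℂ (Y n a (-(θ / 2) + δ))

noncomputable def asym (n : ℕ) (a : ℤ) (θ δ : ℂ) : ℂ := P a θ δ * (U n a θ δ - 1)

theorem z1 (a : ℤ) : (2 : ℝ) ^ (a - 1) = 2 ^ a / 2 := by
  rw [zpow_sub₀ (by norm_num)]; norm_num

theorem z2 (a : ℤ) : (2 : ℝ) ^ (a - 2) = 2 ^ a / 4 := by
  rw [zpow_sub₀ (by norm_num)]; norm_num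

theorem z3 (a : ℤ) : (2 : ℝ) ^ (a + 2) = 4 * 2 ^ a := by
  rw [zpow_add₀ (by norm_num)]; norm_num; ring

theorem z4 (a : ℤ) : (2 : ℝ) ^ (a + 3) = 8 * 2 ^ a := by
  rw [zpow_add₀ (by norm_num)]; norm_num; ring

section
variable (hL : StmtLap) (hM2 : StmtMM2) (hF : StmtFac) {C : ℝ} (hC : 0 < C)
  (hM : ∀ (n : ℕ) (a b : ℤ), a < b →
    ContDiff ℝ 2 (fun ζ => (bd a b ζ : ℂ) * mm n ζ) ∧
    HasCompactSupport (fun ζ => (bd a b ζ : ℂ) * mm n ζ) ∧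
    ∀ ζ, ‖fderiv ℝ (fun ζ => (bd a b ζ : ℂ) * mm n ζ) ζ‖ ≤ C * (n + 1) / (2 : ℝ) ^ a ∧
      ‖lap (fun ζ => (bd a b ζ : ℂ) * mm n ζ) ζ‖ ≤ C * (n + 1) ^ 2 / ((2 : ℝ) ^ a) ^ 2)

include hC hM in
theorem X_facts (a : ℤ) : ContDiff ℝ 2 (X a) ∧ HasCompactSupport (X a) ∧
    ∀ ζ, ‖fderiv ℝ (X a) ζ‖ ≤ 2 * C / 2 ^ a ∧ ‖lap (X a) ζ‖ ≤ 4 * C / (2 ^ a) ^ 2 := by
  obtain ⟨h1, h2, h3⟩ := hM 0 (a - 1) (a + 2) (by omega)
  have e : (fun ζ => (bd (a - 1) (a + 2) ζ : ℂ) * mm 0 ζ) = X a := by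
    ext ζ; simp [X, mm]
  rw [e] at h1 h2 h3
  refine ⟨h1, h2, fun ζ => ?_⟩
  obtain ⟨h4, h5⟩ := h3 ζ
  have hk : (0 : ℝ) < 2 ^ a := by positivity
  rw [z1] at h4 h5
  refine ⟨h4.trans (le_of_eq ?_), h5.trans (le_of_eq ?_)⟩
  · field_simp
    push_cast
    ring
  · field_simp
    push_cast
    ring

include hF in
theorem norm_X_le (a : ℤ) (ζ : ℂ) : ‖X a ζ‖ ≤ 1 := by
  unfold X
  rw [Complex.norm_real, Real.norm_eq_abs]
  exact abs_bd_le hF _ _ _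

include hM in
theorem Y_contDiff (n : ℕ) (a : ℤ) : ContDiff ℝ 2 (Y n a) := (hM n (a - 2) (a + 3) (by omega)).1

include hC hM in
theorem P_contDiff (a : ℤ) (θ : ℂ) : ContDiff ℝ 2 (P a θ) := by
  have h := (X_facts hC hM a).1
  unfold P
  exact (h.comp (contDiff_const.add contDiff_id)).mul (h.comp (contDiff_const.add contDiff_id))

include hM in
theorem U_contDiff (n : ℕ) (a : ℤ) (θ : ℂ) : ContDiff ℝ 2 (U n a θ) := by
  have h := Y_contDiff hM n a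
  unfold U
  refine (h.comp (contDiff_const.add contDiff_id)).mul ?_
  exact Complex.conjCLE.contDiff.comp (h.comp (contDiff_const.add contDiff_id))

include hC hM in
theorem asym_contDiff (n : ℕ) (a : ℤ) (θ : ℂ) : ContDiff ℝ 2 (asym n a θ) := by
  unfold asym
  exact (P_contDiff hC hM a θ).mul ((U_contDiff hM n a θ).sub contDiff_const)

/-- the set outside of which everything vanishes -/
def good (a : ℤ) (θ δ : ℂ) : Prop :=
  (2 : ℝ) ^ a / 2 ≤ ‖θ / 2 + δ‖ ∧ (2 : ℝ) ^ a / 2 ≤ ‖-(θ / 2) + δ‖ ∧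
    ‖θ / 2 + δ‖ ^ 2 ≤ 32 * (2 ^ a) ^ 2 ∧ ‖-(θ / 2) + δ‖ ^ 2 ≤ 32 * (2 ^ a) ^ 2

include hF in
theorem X_zero {a : ℤ} {ζ : ℂ} (h : ‖ζ‖ ≤ 2 ^ a / 2 ∨ 32 * (2 ^ a) ^ 2 ≤ ‖ζ‖ ^ 2) : X a ζ = 0 := by
  unfold X
  rcases h with h | h
  · rw [bd_zero_small hF (by omega) (by rw [z1]; exact h)]; simp
  · rw [bd_zero_large hF (by omega) (by rw [z3]; linarith)]; simp

include hF in
theorem P_zero_of_not_good {a : ℤ} {θ δ : ℂ} (h : ¬ good a θ δ) : P a θ =ᶠ[𝓝 δ] fun _ => 0 := by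
  unfold good at h
  have c1 : Continuous fun z : ℂ => ‖θ / 2 + z‖ := by fun_prop
  have c2 : Continuous fun z : ℂ => ‖-(θ / 2) + z‖ := by fun_prop
  have c3 : Continuous fun z : ℂ => ‖θ / 2 + z‖ ^ 2 := by fun_prop
  have c4 : Continuous fun z : ℂ => ‖-(θ / 2) + z‖ ^ 2 := by fun_prop
  by_cases h1 : (2 : ℝ) ^ a / 2 ≤ ‖θ / 2 + δ‖
  · by_cases h2 : (2 : ℝ) ^ a / 2 ≤ ‖-(θ / 2) + δ‖
    · by_cases h3 : ‖θ / 2 + δ‖ ^ 2 ≤ 32 * (2 ^ a) ^ 2
      · have h4 : 32 * (2 ^ a) ^ 2 < ‖-(θ / 2) + δ‖ ^ 2 := by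
          by_contra h4
          exact h ⟨h1, h2, h3, not_lt.mp h4⟩
        have := c4.continuousAt.eventually (lt_mem_nhds h4)
        filter_upwards [this] with z hz
        unfold P
        rw [X_zero hF (Or.inr hz.le), mul_zero]
      · have h4 := not_le.mp h3
        have := c3.continuousAt.eventually (lt_mem_nhds h4)
        filter_upwards [this] with z hz
        unfold P
        rw [X_zero hF (Or.inr hz.le), zero_mul]
    · have h4 := not_le.mp h2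
      have := c2.continuousAt.eventually (gt_mem_nhds h4)
      filter_upwards [this] with z hz
      unfold P
      rw [X_zero hF (ζ := -(θ / 2) + z) (Or.inl (le_of_lt hz)), mul_zero]
  · have h4 := not_le.mp h1
    have := c1.continuousAt.eventually (gt_mem_nhds h4)
    filter_upwards [this] with z hz
    unfold P
    rw [X_zero hF (ζ := θ / 2 + z) (Or.inl (le_of_lt hz)), zero_mul]

include hF in
theorem Y_eq {n : ℕ} {a : ℤ} {ζ : ℂ} (h1 : (2 ^ a) ^ 2 / 8 ≤ ‖ζ‖ ^ 2) (h2 : ‖ζ‖ ^ 2 ≤ 64 * (2 ^ a) ^ 2) :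
    Y n a ζ = mm n ζ := by
  have hk : (0 : ℝ) < 2 ^ a := by positivity
  unfold Y
  rw [bd_one hF (by rw [z2]; linarith) (by
    rw [z4]
    have : ‖ζ‖ ^ 2 ≤ (8 * 2 ^ a) ^ 2 := by linarith
    exact le_of_sq_le_sq this (by positivity))]
  simp

include hF in
theorem U_eq_of_good {n : ℕ} {a : ℤ} {θ δ : ℂ} (h : good a θ δ) : U n a θ =ᶠ[𝓝 δ] E1 n θ := by
  have hk : (0 : ℝ) < 2 ^ a := by positivity
  obtain ⟨h1, h2, h3, h4⟩ := h
  have c3 : Continuous fun z : ℂ => ‖θ / 2 + z‖ ^ 2 := by fun_prop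
  have c4 : Continuous fun z : ℂ => ‖-(θ / 2) + z‖ ^ 2 := by fun_prop
  have h5 : (2 ^ a) ^ 2 / 8 < ‖θ / 2 + δ‖ ^ 2 := by nlinarith
  have h6 : (2 ^ a) ^ 2 / 8 < ‖-(θ / 2) + δ‖ ^ 2 := by nlinarith
  have h7 : ‖θ / 2 + δ‖ ^ 2 < 64 * (2 ^ a) ^ 2 := by nlinarith
  have h8 : ‖-(θ / 2) + δ‖ ^ 2 < 64 * (2 ^ a) ^ 2 := by nlinarith
  filter_upwards [c3.continuousAt.eventually (lt_mem_nhds h5),
    c4.continuousAt.eventually (lt_mem_nhds h6), c3.continuousAt.eventually (gt_mem_nhds h7),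
    c4.continuousAt.eventually (gt_mem_nhds h8)] with z g1 g2 g3 g4
  unfold U E1
  rw [Y_eq hF (le_of_lt g1) (le_of_lt g3), Y_eq hF (le_of_lt g2) (le_of_lt g4)]
  have e1 : θ / 2 + z = z + θ / 2 := by ring
  have e2 : -(θ / 2) + z = z - θ / 2 := by ring
  rw [e1, e2]

theorem good_norm {a : ℤ} {θ δ : ℂ} (h : good a θ δ) : ‖δ‖ ≤ 6 * 2 ^ a := by
  have hk : (0 : ℝ) < 2 ^ a := by positivity
  obtain ⟨h1, h2, h3, h4⟩ := h
  have h5 : ‖θ / 2 + δ‖ ≤ 6 * 2 ^ a := by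
    refine le_of_sq_le_sq ?_ (by positivity)
    nlinarith
  have h6 : ‖-(θ / 2) + δ‖ ≤ 6 * 2 ^ a := by
    refine le_of_sq_le_sq ?_ (by positivity)
    nlinarith
  have e : δ = ((θ / 2 + δ) + (-(θ / 2) + δ)) / 2 := by ring
  rw [e, norm_div]
  have := norm_add_le (θ / 2 + δ) (-(θ / 2) + δ)
  have h7 : ‖(2 : ℂ)‖ = 2 := by norm_num
  rw [h7]
  linarith

include hF in
theorem asym_zero {n : ℕ} {a : ℤ} {θ δ : ℂ} (h : ¬ good a θ δ) : asym n a θ δ = 0 ∧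
    lap (asym n a θ) δ = 0 := by
  have h1 : asym n a θ =ᶠ[𝓝 δ] fun _ => 0 := by
    filter_upwards [P_zero_of_not_good hF h] with z hz
    unfold asym
    rw [hz, zero_mul]
  exact ⟨h1.eq_of_nhds, by rw [lap_congr h1, lap_zero]⟩

include hF in
theorem asym_compact (n : ℕ) (a : ℤ) (θ : ℂ) : HasCompactSupport (asym n a θ) := by
  refine HasCompactSupport.intro (isCompact_closedBall (0 : ℂ) (6 * 2 ^ a)) fun δ hδ => ?_
  refine (asym_zero hF fun h => hδ ?_).1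
  rw [mem_closedBall_zero_iff]
  exact good_norm h

include hL hC hM hF in
theorem P_bounds (a : ℤ) (θ δ : ℂ) : ‖P a θ δ‖ ≤ 1 ∧ ‖fderiv ℝ (P a θ) δ‖ ≤ 4 * C / 2 ^ a ∧
    ‖lap (P a θ) δ‖ ≤ (8 * C + 16 * C ^ 2) / (2 ^ a) ^ 2 := by
  have hk : (0 : ℝ) < 2 ^ a := by positivity
  obtain ⟨hX1, hX2, hX3⟩ := X_facts hC hM a
  have hf1 : ContDiff ℝ 2 (fun z => X a (θ / 2 + z)) := hX1.comp (contDiff_const.add contDiff_id)
  have hf2 : ContDiff ℝ 2 (fun z => X a (-(θ / 2) + z)) := hX1.comp (contDiff_const.add contDiff_id)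
  obtain ⟨h1, h2, h3⟩ := hL.1 _ _ hf1 hf2 δ
  obtain ⟨t1, -, t3, -⟩ := hL.2.1 (X a) (θ / 2) δ hX1
  obtain ⟨s1, -, s3, -⟩ := hL.2.1 (X a) (-(θ / 2)) δ hX1
  rw [t3, s3] at h2 h3
  rw [t1, s1] at h3
  have n1 := norm_X_le hF a (θ / 2 + δ)
  have n2 := norm_X_le hF a (-(θ / 2) + δ)
  obtain ⟨b1, b2⟩ := hX3 (θ / 2 + δ)
  obtain ⟨b3, b4⟩ := hX3 (-(θ / 2) + δ)
  refine ⟨?_, ?_, ?_⟩
  · unfold P
    rw [norm_mul]
    exact mul_le_one₀ n1 (norm_nonneg _) n2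
  · have : fderiv ℝ (P a θ) δ = fderiv ℝ (fun z => X a (θ / 2 + z) * X a (-(θ / 2) + z)) δ := rfl
    rw [this]
    refine h2.trans ?_
    have e1 : ‖X a (θ / 2 + δ)‖ * ‖fderiv ℝ (X a) (-(θ / 2) + δ)‖ ≤ 1 * (2 * C / 2 ^ a) := by gcongr
    have e2 : ‖X a (-(θ / 2) + δ)‖ * ‖fderiv ℝ (X a) (θ / 2 + δ)‖ ≤ 1 * (2 * C / 2 ^ a) := by gcongr
    have e3 : 1 * (2 * C / 2 ^ a) + 1 * (2 * C / 2 ^ a) = 4 * C / (2 : ℝ) ^ a := by ring
    linarith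
  · have : lap (P a θ) δ = lap (fun z => X a (θ / 2 + z) * X a (-(θ / 2) + z)) δ := rfl
    rw [this]
    refine h3.trans ?_
    have e1 : ‖X a (θ / 2 + δ)‖ * ‖lap (X a) (-(θ / 2) + δ)‖ ≤ 1 * (4 * C / (2 ^ a) ^ 2) := by gcongr
    have e2 : ‖X a (-(θ / 2) + δ)‖ * ‖lap (X a) (θ / 2 + δ)‖ ≤ 1 * (4 * C / (2 ^ a) ^ 2) := by gcongr
    have e4 : 4 * ‖fderiv ℝ (X a) (θ / 2 + δ)‖ * ‖fderiv ℝ (X a) (-(θ / 2) + δ)‖
        ≤ 4 * (2 * C / 2 ^ a) * (2 * C / 2 ^ a) := by gcongr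
    have e3 : 1 * (4 * C / (2 ^ a) ^ 2) + 1 * (4 * C / (2 ^ a) ^ 2)
        + 4 * (2 * C / 2 ^ a) * (2 * C / 2 ^ a) = (8 * C + 16 * C ^ 2) / ((2 : ℝ) ^ a) ^ 2 := by
      field_simp
      ring
    linarith

include hL hM2 hC hM hF in
theorem asym_bounds (n : ℕ) (a : ℤ) (ρ : ℝ) (θ : ℂ) (hθ : ‖θ‖ ≤ ρ) (δ : ℂ) :
    ‖asym n a θ δ‖ ≤ min 2 (4 * (n * ρ / 2 ^ a)) ∧
    ‖lap (asym n a θ) δ‖ ≤
      (64 + 160 * C + 64 * C ^ 2) * (n * ρ / 2 ^ a + (n * ρ / 2 ^ a) ^ 2) / (2 ^ a) ^ 2 := by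
  have hk : (0 : ℝ) < 2 ^ a := by positivity
  have hρ : 0 ≤ ρ := (norm_nonneg θ).trans hθ
  set lam : ℝ := n * ρ / 2 ^ a with hlam
  have hl0 : 0 ≤ lam := by positivity
  by_cases h : good a θ δ
  · have hg := h
    obtain ⟨h1, h2, h3, h4⟩ := h
    have hk2 : (0 : ℝ) < 2 ^ a / 2 := by positivity
    have f2 : ‖θ / 2 - δ‖ = ‖-(θ / 2) + δ‖ := by
      rw [← norm_neg]; congr 1; ring
    have z1 : θ / 2 + δ ≠ 0 := by
      intro hz; rw [hz, norm_zero] at h1; linarith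
    have z2 : θ / 2 - δ ≠ 0 := by
      intro hz; rw [← f2, hz, norm_zero] at h2; linarith
    obtain ⟨-, -, m1, -, m2, m3, -, -, -, m4⟩ := hM2 n θ δ z1 z2
    rw [f2] at m2 m3 m4
    have hUE := U_eq_of_good (n := n) hF hg
    have hU0 : U n a θ δ = E1 n θ δ := hUE.eq_of_nhds
    have hU1 : fderiv ℝ (U n a θ) δ = fderiv ℝ (E1 n θ) δ := hUE.fderiv_eq
    have hU2 : lap (U n a θ) δ = lap (E1 n θ) δ := lap_congr hUE
    obtain ⟨p1, p2, p3⟩ := P_bounds hL hF hC hM a θ δ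
    have hprod : (2 ^ a) ^ 2 / 4 ≤ ‖θ / 2 + δ‖ * ‖-(θ / 2) + δ‖ := by
      have : (2 : ℝ) ^ a / 2 * (2 ^ a / 2) ≤ ‖θ / 2 + δ‖ * ‖-(θ / 2) + δ‖ := by gcongr
      calc _ = (2 : ℝ) ^ a / 2 * (2 ^ a / 2) := by ring
        _ ≤ _ := this
    have v1 : ‖fderiv ℝ (E1 n θ) δ‖ ≤ 8 * lam / 2 ^ a := by
      refine m2.trans ?_
      calc 2 * n * ‖θ‖ / (‖θ / 2 + δ‖ * ‖-(θ / 2) + δ‖) ≤ 2 * n * ρ / ((2 ^ a) ^ 2 / 4) := by gcongr
        _ = 8 * lam / 2 ^ a := by rw [hlam]; field_simp; ring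
    have v2 : ‖lap (E1 n θ) δ‖ ≤ 64 * lam ^ 2 / (2 ^ a) ^ 2 := by
      refine m3.trans ?_
      calc 4 * (n : ℝ) ^ 2 * ‖θ‖ ^ 2 / (‖θ / 2 + δ‖ * ‖-(θ / 2) + δ‖) ^ 2
          ≤ 4 * n ^ 2 * ρ ^ 2 / ((2 ^ a) ^ 2 / 4) ^ 2 := by gcongr
        _ = 64 * lam ^ 2 / (2 ^ a) ^ 2 := by rw [hlam]; field_simp; ring
    have v3 : ‖E1 n θ δ - 1‖ ≤ 4 * lam := by
      refine m4.trans ?_
      have : (2 : ℝ) ^ a / 2 ≤ min ‖θ / 2 + δ‖ ‖-(θ / 2) + δ‖ := le_min h1 h2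
      calc 2 * n * ‖θ‖ / min ‖θ / 2 + δ‖ ‖-(θ / 2) + δ‖ ≤ 2 * n * ρ / (2 ^ a / 2) := by gcongr
        _ = 4 * lam := by rw [hlam]; field_simp; ring
    have v4 : ‖E1 n θ δ - 1‖ ≤ 2 := by
      refine (norm_sub_le _ _).trans ?_
      rw [m1, norm_one]; norm_num
    refine ⟨?_, ?_⟩
    · unfold asym
      rw [norm_mul, hU0]
      calc _ ≤ 1 * ‖E1 n θ δ - 1‖ := by gcongr
        _ = ‖E1 n θ δ - 1‖ := one_mul _
        _ ≤ _ := le_min v4 v3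
    · have hV : ContDiff ℝ 2 (fun z => U n a θ z - 1) := (U_contDiff hM n a θ).sub contDiff_const
      obtain ⟨-, -, g3⟩ := hL.1 _ _ (P_contDiff hC hM a θ) hV δ
      have e0 : lap (asym n a θ) δ = lap (fun z => P a θ z * (U n a θ z - 1)) δ := rfl
      rw [e0]
      refine g3.trans ?_
      rw [lap_sub_const, hU2, fderiv_sub_const, hU1, hU0]
      have w1 : ‖P a θ δ‖ * ‖lap (E1 n θ) δ‖ ≤ 1 * (64 * lam ^ 2 / (2 ^ a) ^ 2) := by gcongr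
      have w2 : ‖E1 n θ δ - 1‖ * ‖lap (P a θ) δ‖ ≤
          4 * lam * ((8 * C + 16 * C ^ 2) / (2 ^ a) ^ 2) := by gcongr
      have w3 : 4 * ‖fderiv ℝ (P a θ) δ‖ * ‖fderiv ℝ (E1 n θ) δ‖ ≤
          4 * (4 * C / 2 ^ a) * (8 * lam / 2 ^ a) := by gcongr
      have w4 : 1 * (64 * lam ^ 2 / (2 ^ a) ^ 2) + 4 * lam * ((8 * C + 16 * C ^ 2) / (2 ^ a) ^ 2)
          + 4 * (4 * C / 2 ^ a) * (8 * lam / 2 ^ a)
          = (64 * lam ^ 2 + lam * (160 * C + 64 * C ^ 2)) / ((2 : ℝ) ^ a) ^ 2 := by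
        field_simp
        ring
      refine (add_le_add (add_le_add w1 w2) w3).trans ?_
      rw [w4]
      gcongr
      nlinarith [mul_nonneg hl0 hC.le, mul_nonneg hl0 (sq_nonneg C), sq_nonneg lam,
        mul_nonneg (sq_nonneg lam) hC.le, mul_nonneg (sq_nonneg lam) (sq_nonneg C)]
  · obtain ⟨e1, e2⟩ := asym_zero (n := n) hF h
    rw [e1, e2, norm_zero]
    refine ⟨le_min (by norm_num) (by positivity), by positivity⟩

end

end R

open R in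
theorem rr (hB : StmtBilPt) (hL : StmtLap) (hM : StmtMM) (hM2 : StmtMM2) (hF : StmtFac)
    (hBa : StmtBase) : StmtR := by
  obtain ⟨C, hC, hM⟩ := hM
  set C1 : ℝ := 64 + 160 * C + 64 * C ^ 2 with hC1
  have hC1p : 0 < C1 := by positivity
  refine ⟨(4 + C1) ^ 2 * (36 * Real.pi ^ 2), by positivity, ?_⟩
  intro n a ρ g hn hρ hg hsupp
  have hk : (0 : ℝ) < 2 ^ a := by positivity
  set lam : ℝ := n * ρ / 2 ^ a with hlam
  have hl0 : 0 ≤ lam := by positivity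
  set mx : ℝ := max 1 lam with hmx
  have hmx1 : 1 ≤ mx := le_max_left _ _
  have hmxl : lam ≤ mx := le_max_right _ _
  have hmx0 : 0 < mx := by linarith
  set N : ℝ := mx / 2 ^ a with hN
  have hN0 : 0 < N := by positivity
  have hh : CC (rf g) := rf_cc hg
  obtain ⟨q1, q2, q3, -, q5⟩ := hB N g (rf g) hN0 hg hh
  rw [n4_rf hBa] at q5
  have hn4 : 0 ≤ N4 g := integral_nonneg fun _ => by positivity
  rw [Real.mul_self_sqrt hn4] at q5
  -- the bound for the symbol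
  have hsym : ∀ θ : ℂ, ‖θ‖ ≤ ρ → ∫ δ, ‖asym n a θ δ
      - lap (asym n a θ) δ / (4 * Real.pi ^ 2 * N ^ 2 : ℝ)‖ ^ 2 ≤
      ((4 + C1) * (lam / mx)) ^ 2 * (36 * (2 ^ a) ^ 2 * Real.pi) := by
    intro θ hθ
    have hpt : ∀ δ, ‖asym n a θ δ - lap (asym n a θ) δ / (4 * Real.pi ^ 2 * N ^ 2 : ℝ)‖ ^ 2 ≤
        (Metric.closedBall (0 : ℂ) (6 * 2 ^ a)).indicator
          (fun _ => ((4 + C1) * (lam / mx)) ^ 2) δ := by
      intro δ
      by_cases hδ : δ ∈ Metric.closedBall (0 : ℂ) (6 * 2 ^ a)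
      · rw [Set.indicator_of_mem hδ]
        obtain ⟨b1, b2⟩ := asym_bounds hL hM2 hF hC hM n a ρ θ hθ δ
        rw [← hlam] at b1 b2
        rw [← hC1] at b2
        have c1 : ‖asym n a θ δ‖ ≤ 4 * (lam / mx) := by
          refine b1.trans ?_
          rcases le_total lam 1 with h | h
          · have : mx = 1 := max_eq_left h
            rw [this, div_one]
            exact min_le_right _ _
          · have : mx = lam := max_eq_right h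
            rw [this, div_self (by linarith)]
            exact (min_le_left _ _).trans (by norm_num)
        have hpi : 1 ≤ 2 * Real.pi ^ 2 := by nlinarith [Real.pi_gt_three]
        have c2 : ‖lap (asym n a θ) δ / (4 * Real.pi ^ 2 * N ^ 2 : ℝ)‖ ≤ C1 * (lam / mx) := by
          rw [norm_div, Complex.norm_real, Real.norm_eq_abs,
            abs_of_pos (by positivity : 0 < 4 * Real.pi ^ 2 * N ^ 2), div_le_iff₀ (by positivity)]
          refine b2.trans ?_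
          rw [hN]
          have e1 : C1 * (lam / mx) * (4 * Real.pi ^ 2 * (mx / 2 ^ a) ^ 2)
              = C1 * (4 * Real.pi ^ 2 * (lam * mx)) / (2 ^ a) ^ 2 := by
            field_simp
          rw [e1]
          gcongr
          have e2 : lam + lam ^ 2 ≤ 2 * (lam * mx) := by nlinarith
          nlinarith [mul_nonneg hl0 hmx0.le]
        have c3 : ‖asym n a θ δ - lap (asym n a θ) δ / (4 * Real.pi ^ 2 * N ^ 2 : ℝ)‖
            ≤ (4 + C1) * (lam / mx) := by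
          refine (norm_sub_le _ _).trans ?_
          linarith
        gcongr
      · rw [Set.indicator_of_notMem hδ]
        have hng : ¬ good a θ δ := fun h => hδ (by
          rw [mem_closedBall_zero_iff]; exact good_norm h)
        obtain ⟨e1, e2⟩ := asym_zero (n := n) hF hng
        rw [e1, e2]
        simp
    have hint : Integrable ((Metric.closedBall (0 : ℂ) (6 * 2 ^ a)).indicator
          (fun _ => ((4 + C1) * (lam / mx)) ^ 2)) := by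
      rw [integrable_indicator_iff measurableSet_closedBall]
      exact continuousOn_const.integrableOn_compact (isCompact_closedBall _ _)
    refine (integral_mono_of_nonneg (Eventually.of_forall fun δ => by positivity) hint
      (Eventually.of_forall hpt)).trans ?_
    rw [integral_indicator measurableSet_closedBall, setIntegral_const, smul_eq_mul, mul_comm]
    gcongr
    rw [Measure.real, Complex.volume_closedBall]
    rw [ENNReal.toReal_mul, ENNReal.toReal_pow, ENNReal.toReal_ofReal (by positivity)]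
    simp only [ENNReal.coe_toReal, NNReal.coe_real_pi]
    apply le_of_eq
    ring
  -- comparison
  have hcmp : ∀ θ ∈ Metric.closedBall (0 : ℂ) ρ,
      ‖∫ δ, (E1 n θ δ - 1) * (g (δ + θ / 2) * starRingEnd ℂ (g (δ - θ / 2)))‖ ^ 2 ≤
      ((4 + C1) * (lam / mx)) ^ 2 * (36 * (2 ^ a) ^ 2 * Real.pi) * Om N g (rf g) θ := by
    intro θ hθ
    rw [mem_closedBall_zero_iff] at hθ
    have e : ∫ δ, (E1 n θ δ - 1) * (g (δ + θ / 2) * starRingEnd ℂ (g (δ - θ / 2)))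
        = bil (asym n a θ) g (rf g) θ := by
      unfold bil
      congr 1
      ext δ
      have r1 : rf g (θ / 2 - δ) = starRingEnd ℂ (g (δ - θ / 2)) := by
        unfold rf; congr 2; ring
      have r2 : θ / 2 + δ = δ + θ / 2 := by ring
      rw [r1, r2]
      by_cases g1 : g (δ + θ / 2) = 0
      · rw [g1]; simp
      by_cases g2 : g (δ - θ / 2) = 0
      · rw [g2]; simp
      congr 1
      obtain ⟨s1, s2⟩ := hsupp _ g1
      obtain ⟨s3, s4⟩ := hsupp _ g2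
      rw [z3] at s2 s4
      have r3 : -(θ / 2) + δ = δ - θ / 2 := by ring
      have x1 : X a (δ + θ / 2) = 1 := by
        unfold X
        rw [bd_one hF (by rw [R.z1]; nlinarith) (by rw [z3]; exact s2)]; simp
      have x2 : X a (δ - θ / 2) = 1 := by
        unfold X
        rw [bd_one hF (by rw [R.z1]; nlinarith) (by rw [z3]; exact s4)]; simp
      have y1 : Y n a (δ + θ / 2) = mm n (δ + θ / 2) := Y_eq hF (by nlinarith) (by nlinarith)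
      have y2 : Y n a (δ - θ / 2) = mm n (δ - θ / 2) := Y_eq hF (by nlinarith) (by nlinarith)
      unfold asym P U E1
      rw [r2, r3, x1, x2, y1, y2]
      ring
    rw [e]
    refine (q1 θ _ (asym_contDiff hC hM n a θ) (asym_compact hF n a θ)).trans ?_
    exact mul_le_mul_of_nonneg_right (hsym θ hθ) (q2 θ)
  have hfin : ∫ θ in Metric.closedBall (0 : ℂ) ρ,
      ‖∫ δ, (E1 n θ δ - 1) * (g (δ + θ / 2) * starRingEnd ℂ (g (δ - θ / 2)))‖ ^ 2 ≤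
      ∫ θ in Metric.closedBall (0 : ℂ) ρ,
        ((4 + C1) * (lam / mx)) ^ 2 * (36 * (2 ^ a) ^ 2 * Real.pi) * Om N g (rf g) θ := by
    refine integral_mono_of_nonneg (Eventually.of_forall fun δ => by positivity)
      (q3.integrableOn.const_mul _) ?_
    filter_upwards [ae_restrict_mem measurableSet_closedBall] with θ hθ
    exact hcmp θ hθ
  refine hfin.trans ?_
  rw [integral_const_mul]
  have hO : ∫ θ in Metric.closedBall (0 : ℂ) ρ, Om N g (rf g) θ ≤ ∫ θ, Om N g (rf g) θ :=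
    setIntegral_le_integral q3 (Eventually.of_forall q2)
  calc ((4 + C1) * (lam / mx)) ^ 2 * (36 * (2 ^ a) ^ 2 * Real.pi) *
        ∫ θ in Metric.closedBall (0 : ℂ) ρ, Om N g (rf g) θ
      ≤ ((4 + C1) * (lam / mx)) ^ 2 * (36 * (2 ^ a) ^ 2 * Real.pi) *
        (Real.pi * N ^ 2 * N4 g) := by
        gcongr
        exact hO.trans q5
    _ = (4 + C1) ^ 2 * (36 * Real.pi ^ 2) * lam ^ 2 * N4 g := by
        rw [hN]
        field_simp
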