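import Pool.Agent.Lib.MP_dd244f_an.Four.Basic
import Pool.Agent.Lib.MP_dd244f_an.Four.R

/-!
Full operator, `p = 4`: module (Dec), the interaction of separated scales decays.
-/

set_option autoImplicit false

namespace Pool.Agent.Lib.MP_dd244f_an.Four

open MeasureTheory Filter Topology Finset

namespace Dec

open R (rf rf_cc z1 z3 z4 bd_zero_small bd_zero_large)

theorem csSet {f g : ℂ → ℝ} (S : Set ℂ) (hf0 : ∀ x, 0 ≤ f x) (hg0 : ∀ x, 0 ≤ g x)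
    (hfc : Continuous f) (hgc : Continuous g)
    (hf : Integrable (fun x => f x ^ 2)) (hg : Integrable (fun x => g x ^ 2)) :
    ∫ x in S, f x * g x ≤ Real.sqrt (∫ x in S, f x ^ 2) * Real.sqrt (∫ x, g x ^ 2) := by
  have h := integral_mul_le_Lp_mul_Lq_of_nonneg (μ := (volume : Measure ℂ).restrict S) (p := 2)
    (q := 2) (Real.HolderConjugate.two_two) (f := f) (g := g) (Filter.Eventually.of_forall hf0)
    (Filter.Eventually.of_forall hg0)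
    (by
      rw [ENNReal.ofReal_ofNat]
      exact (memLp_two_iff_integrable_sq hfc.aestronglyMeasurable).2 hf.integrableOn)
    (by
      rw [ENNReal.ofReal_ofNat]
      exact (memLp_two_iff_integrable_sq hgc.aestronglyMeasurable).2 hg.integrableOn)
  simp only [Real.rpow_ofNat] at h
  rw [← Real.sqrt_eq_rpow, ← Real.sqrt_eq_rpow] at h
  refine h.trans ?_
  exact mul_le_mul_of_nonneg_left (Real.sqrt_le_sqrt
    (setIntegral_le_integral hg (Eventually.of_forall fun x => sq_nonneg (g x))))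
    (Real.sqrt_nonneg _)

theorem tele (S : ℤ → ℝ) (c0 c : ℤ) (h : c0 ≤ c) :
    ∑ i ∈ Finset.Ico c0 c, (S (i + 1) - S i) = S c - S c0 := by
  induction c, h using Int.leInduction with
  | base => simp
  | succ c hc ih =>
    have : Finset.Ico c0 (c + 1) = insert c (Finset.Ico c0 c) := by
      ext i; simp; omega
    rw [this, Finset.sum_insert (by simp), ih]
    ring

theorem geo (T : Finset ℤ) (d : ℤ) (h : ∀ s ∈ T, d + 1 ≤ s) :
    ∑ s ∈ T, (2 : ℝ) ^ (-s) ≤ 2 ^ (-d) := by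
  have h1 : ∀ s ∈ T, (2 : ℝ) ^ (-s) = 2 ^ (-(d + 1)) * (1 / 2) ^ (s - (d + 1)).toNat := by
    intro s hs
    have h2 := h s hs
    have : (1 / 2 : ℝ) ^ (s - (d + 1)).toNat = 2 ^ (-((s - (d + 1)).toNat : ℤ)) := by
      rw [zpow_neg, zpow_natCast, one_div, inv_pow]
    rw [this, ← zpow_add₀ (by norm_num)]
    congr 1
    rw [Int.toNat_of_nonneg (by omega)]
    ring
  rw [Finset.sum_congr rfl h1, ← Finset.mul_sum]
  have h3 : ∑ s ∈ T, (1 / 2 : ℝ) ^ (s - (d + 1)).toNat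
      = ∑ j ∈ T.image (fun s => (s - (d + 1)).toNat), (1 / 2 : ℝ) ^ j := by
    rw [Finset.sum_image]
    intro x hx y hy hxy
    have := h x hx
    have := h y hy
    simp only at hxy
    omega
  rw [h3]
  have h4 : ∑ j ∈ T.image (fun s => (s - (d + 1)).toNat), (1 / 2 : ℝ) ^ j ≤ 2 :=
    (summable_geometric_two.sum_le_tsum _ (fun i _ => by positivity)).trans_eq tsum_geometric_two
  have h5 : (2 : ℝ) ^ (-(d + 1)) * 2 = 2 ^ (-d) := by
    rw [← zpow_add_one₀ (by norm_num)]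
    congr 1
    ring
  rw [← h5]
  gcongr

theorem schur (A : Finset ℤ) (d c0 : ℤ) (x y : ℤ → ℝ) (X Y : ℝ)
    (hX : ∑ a ∈ A, x a ^ 2 ≤ X) (hY : ∀ S : Finset ℤ, ∑ c ∈ S, y c ^ 2 ≤ Y) :
    ∑ a ∈ A, ∑ c ∈ Finset.Ico c0 (a - d), (2 : ℝ) ^ (c - a) * x a * y c
      ≤ 2 ^ (-d) * (Real.sqrt X * Real.sqrt Y) := by
  have hX0 : 0 ≤ X := le_trans (Finset.sum_nonneg fun _ _ => by positivity) hX
  have hY0 : 0 ≤ Y := le_trans (Finset.sum_nonneg fun _ _ => by positivity) (hY ∅)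
  rw [Finset.sum_sigma']
  refine le_of_sq_le_sq ?_ (by positivity)
  have hcs := Finset.sum_sq_le_sum_mul_sum_of_sq_le_mul
    (A.sigma fun a => Finset.Ico c0 (a - d))
    (r := fun p => (2 : ℝ) ^ (p.2 - p.1) * x p.1 * y p.2)
    (f := fun p => (2 : ℝ) ^ (p.2 - p.1) * x p.1 ^ 2)
    (g := fun p => (2 : ℝ) ^ (p.2 - p.1) * y p.2 ^ 2)
    (fun p _ => by positivity) (fun p _ => by positivity) (fun p _ => le_of_eq (by ring))
  refine hcs.trans ?_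
  have e1 : ∑ p ∈ A.sigma fun a => Finset.Ico c0 (a - d), (2 : ℝ) ^ (p.2 - p.1) * x p.1 ^ 2
      ≤ 2 ^ (-d) * X := by
    rw [← Finset.sum_sigma' A (fun a => Finset.Ico c0 (a - d))
      (fun a c => (2 : ℝ) ^ (c - a) * x a ^ 2)]
    have : ∀ a ∈ A, ∑ c ∈ Finset.Ico c0 (a - d), (2 : ℝ) ^ (c - a) * x a ^ 2
        ≤ 2 ^ (-d) * x a ^ 2 := by
      intro a _
      rw [← Finset.sum_mul]
      have h1 : ∑ c ∈ Finset.Ico c0 (a - d), (2 : ℝ) ^ (c - a)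
          = ∑ s ∈ (Finset.Ico c0 (a - d)).image (fun c => a - c), (2 : ℝ) ^ (-s) := by
        rw [Finset.sum_image (by intro u _ v _ huv; simp only at huv; omega)]
        refine Finset.sum_congr rfl fun c _ => ?_
        congr 1
        ring
      rw [h1]
      gcongr
      refine geo _ d fun s hs => ?_
      simp only [Finset.mem_image, Finset.mem_Ico] at hs
      obtain ⟨c, hc, rfl⟩ := hs
      omega
    refine (Finset.sum_le_sum this).trans ?_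
    rw [← Finset.mul_sum]
    gcongr
  have e2 : ∑ p ∈ A.sigma fun a => Finset.Ico c0 (a - d), (2 : ℝ) ^ (p.2 - p.1) * y p.2 ^ 2
      ≤ 2 ^ (-d) * Y := by
    rw [← Finset.sum_sigma' A (fun a => Finset.Ico c0 (a - d))
      (fun a c => (2 : ℝ) ^ (c - a) * y c ^ 2)]
    obtain ⟨c1, hc1⟩ := (A.image (fun a => a - d)).exists_le
    rw [Finset.sum_comm' (t' := Finset.Ico c0 c1) (s' := fun c => A.filter (fun a => c < a - d))]
    · have : ∀ c ∈ Finset.Ico c0 c1, ∑ a ∈ A.filter (fun a => c < a - d), (2 : ℝ) ^ (c - a) * y c ^ 2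
          ≤ 2 ^ (-d) * y c ^ 2 := by
        intro c _
        rw [← Finset.sum_mul]
        have h1 : ∑ a ∈ A.filter (fun a => c < a - d), (2 : ℝ) ^ (c - a)
            = ∑ s ∈ (A.filter (fun a => c < a - d)).image (fun a => a - c), (2 : ℝ) ^ (-s) := by
          rw [Finset.sum_image (by intro u _ v _ huv; simp only at huv; omega)]
          refine Finset.sum_congr rfl fun c _ => ?_
          congr 1
          ring
        rw [h1]
        gcongr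
        refine geo _ d fun s hs => ?_
        simp only [Finset.mem_image, Finset.mem_filter] at hs
        obtain ⟨a, ha, rfl⟩ := hs
        omega
      refine (Finset.sum_le_sum this).trans ?_
      rw [← Finset.mul_sum]
      gcongr
      exact hY _
    · intro a c
      simp only [Finset.mem_Ico, Finset.mem_filter]
      constructor
      · rintro ⟨h1, h2, h3⟩
        have := hc1 (a - d) (Finset.mem_image_of_mem _ h1)
        exact ⟨⟨h1, h3⟩, h2, by omega⟩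
      · rintro ⟨⟨h1, h3⟩, h2, h4⟩
        exact ⟨h1, h2, h3⟩
  have e3 : (2 ^ (-d) * (Real.sqrt X * Real.sqrt Y)) ^ 2 = (2 ^ (-d) * X) * (2 ^ (-d) * Y) := by
    have s1 := Real.sq_sqrt hX0
    have s2 := Real.sq_sqrt hY0
    calc _ = (2 ^ (-d) : ℝ) ^ 2 * (Real.sqrt X ^ 2 * Real.sqrt Y ^ 2) := by ring
      _ = _ := by rw [s1, s2]; ring
  rw [e3]
  refine mul_le_mul e1 e2 (Finset.sum_nonneg fun _ _ => by positivity) (by positivity)

/-- the transform of `|iF u| ^ 2` -/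
noncomputable def hb (u : ℂ → ℂ) : ℂ → ℂ := bil (fun _ => 1) u (rf u)

theorem hb_cc (hB : StmtBase) {u : ℂ → ℂ} (hu : CC u) : CC (hb u) :=
  (hB.2.1 u (rf u) hu (rf_cc hu)).1

theorem iF_rf (hB : StmtBase) (u : ℂ → ℂ) (x : ℂ) : iF (rf u) x = starRingEnd ℂ (iF u x) := by
  rw [hB.2.2.2.1 u x]; rfl

theorem iF_hb (hB : StmtBase) {u : ℂ → ℂ} (hu : CC u) (x : ℂ) :
    iF (hb u) x = ((‖iF u x‖ ^ 2 : ℝ) : ℂ) := by
  unfold hb
  rw [← (hB.2.1 u (rf u) hu (rf_cc hu)).2.1 x, iF_rf hB, Complex.mul_conj,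
    Complex.normSq_eq_norm_sq]

theorem cc_sub {u v : ℂ → ℂ} (hu : CC u) (hv : CC v) : CC (fun ζ => u ζ - v ζ) :=
  ⟨hu.1.sub hv.1, hu.2.sub hv.2⟩

theorem iF_sub (hB : StmtBase) {u v : ℂ → ℂ} (hu : CC u) (hv : CC v) (x : ℂ) :
    iF (fun ζ => u ζ - v ζ) x = iF u x - iF v x := by
  have h := hB.2.2.2.2.1 (fun ζ => u ζ - v ζ) v (cc_sub hu hv) hv x
  have e : (fun ζ => (fun ζ => u ζ - v ζ) ζ + v ζ) = u := by
    ext ζ; simp
  rw [e] at h
  rw [h]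
  ring

theorem int22 (hB : StmtBase) {u v : ℂ → ℂ} (hu : CC u) (hv : CC v) :
    Integrable (fun x => ‖iF u x‖ ^ 2 * ‖iF v x‖ ^ 2) := by
  have h := (hB.2.2.2.2.2 (hb u) (hb v) (hb_cc hB hu) (hb_cc hB hv)).1
  have h2 := h.re
  refine h2.congr (Eventually.of_forall fun x => ?_)
  simp only [iF_hb hB hu, iF_hb hB hv, Complex.conj_ofReal, ← Complex.ofReal_mul]
  exact Complex.ofReal_re _

theorem intg {u v : ℂ → ℂ} (hu : CC u) (hv : CC v) (θ : ℂ) :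
    Integrable (fun δ => (1 : ℂ) * (u (θ / 2 + δ) * v (θ / 2 - δ))) := by
  have h1 := hu.1
  have h2 := hv.1
  refine Continuous.integrable_of_hasCompactSupport (by fun_prop) ?_
  have h3 : HasCompactSupport (fun δ => u (θ / 2 + δ)) :=
    hu.2.comp_homeomorph (Homeomorph.addLeft (θ / 2))
  exact (h3.mul_right).mul_left

/-- the transform of `|F_a| ^ 2 - |f_a| ^ 2` -/
noncomputable def ra (n : ℕ) (a : ℤ) (g : ℂ → ℂ) (θ : ℂ) : ℂ :=
  hb (cut (sh a) (mg n g)) θ - hb (cut (sh a) g) θ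

theorem cut_mg (n : ℕ) (a : ℤ) (g : ℂ → ℂ) (ζ : ℂ) :
    cut (sh a) (mg n g) ζ = mm n ζ * cut (sh a) g ζ := by
  unfold cut mg; ring

theorem ra_eq {n : ℕ} {a : ℤ} {g : ℂ → ℂ} (h1 : CC (cut (sh a) (mg n g)))
    (h2 : CC (cut (sh a) g)) (θ : ℂ) :
    ra n a g θ = ∫ δ, (E1 n θ δ - 1) *
      (cut (sh a) g (δ + θ / 2) * starRingEnd ℂ (cut (sh a) g (δ - θ / 2))) := by
  unfold ra hb bil
  rw [← integral_sub (intg h1 (rf_cc h1) θ) (intg h2 (rf_cc h2) θ)]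
  congr 1
  ext δ
  have r1 : ∀ u : ℂ → ℂ, rf u (θ / 2 - δ) = starRingEnd ℂ (u (δ - θ / 2)) := by
    intro u; unfold rf; congr 2; ring
  have r2 : θ / 2 + δ = δ + θ / 2 := by ring
  rw [r1, r1, r2, cut_mg, cut_mg, map_mul]
  unfold E1
  ring

theorem hb_zero {u : ℂ → ℂ} {B : ℝ} (hu : ∀ ζ, u ζ ≠ 0 → ‖ζ‖ ≤ B) {θ : ℂ} (h : 2 * B < ‖θ‖) :
    hb u θ = 0 := by
  unfold hb bil
  have : (fun δ => (1 : ℂ) * (u (θ / 2 + δ) * rf u (θ / 2 - δ))) = fun _ => 0 := by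
    ext δ
    by_cases h1 : u (θ / 2 + δ) = 0
    · rw [h1]; simp
    by_cases h2 : u (-(θ / 2 - δ)) = 0
    · unfold rf; rw [h2]; simp
    exfalso
    have h3 := hu _ h1
    have h4 := hu _ h2
    rw [norm_neg] at h4
    have e : θ = (θ / 2 + δ) + (θ / 2 - δ) := by ring
    have h5 := norm_add_le (θ / 2 + δ) (θ / 2 - δ)
    rw [← e] at h5
    linarith
  rw [this, integral_zero]

theorem lo_supp (hF : StmtFac) (c : ℤ) (ζ : ℂ) (h : lo c ζ ≠ 0) : ‖ζ‖ ≤ 2 * 2 ^ c := by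
  by_contra hc
  push Not at hc
  have hk : (0 : ℝ) < 2 ^ c := by positivity
  exact h (hF.2.2.1 c ζ (by nlinarith))

/-- the transform of `|F_{<c+1}| ^ 2 - |F_{<c}| ^ 2` -/
noncomputable def kc (c : ℤ) (G : ℂ → ℂ) (θ : ℂ) : ℂ :=
  hb (cut (lo (c + 1)) G) θ - hb (cut (lo c) G) θ

theorem cut_lo_supp (hF : StmtFac) (c : ℤ) (G : ℂ → ℂ) (ζ : ℂ) (h : cut (lo c) G ζ ≠ 0) :
    ‖ζ‖ ≤ 2 * 2 ^ c := by
  refine lo_supp hF c ζ fun h0 => h ?_
  unfold cut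
  rw [h0]; simp

theorem kc_zero (hF : StmtFac) (c : ℤ) (G : ℂ → ℂ) {θ : ℂ} (h : (2 : ℝ) ^ (c + 3) < ‖θ‖) :
    kc c G θ = 0 := by
  have hk : (0 : ℝ) < 2 ^ c := by positivity
  rw [z4] at h
  unfold kc
  rw [hb_zero (cut_lo_supp hF (c + 1) G) (by
    rw [zpow_add_one₀ (by norm_num)]; linarith),
    hb_zero (cut_lo_supp hF c G) (by linarith)]
  ring

theorem sh_supp (hF : StmtFac) (a : ℤ) (g : ℂ → ℂ) (ζ : ℂ) (h : cut (sh a) g ζ ≠ 0) :
    (2 : ℝ) ^ a ≤ ‖ζ‖ ∧ ‖ζ‖ ≤ 2 ^ (a + 2) := by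
  have hk : (0 : ℝ) < 2 ^ a := by positivity
  have h0 : sh a ζ ≠ 0 := fun h0 => h (by unfold cut; rw [h0]; simp)
  constructor
  · by_contra hc
    push Not at hc
    exact h0 (bd_zero_small hF (by omega) hc.le)
  · by_contra hc
    push Not at hc
    rw [z3] at hc
    refine h0 (bd_zero_large hF (by omega) ?_)
    rw [zpow_add_one₀ (by norm_num)]
    nlinarith

/-- `|F_a| ^ 2 - |f_a| ^ 2` -/
noncomputable def Rr (n : ℕ) (a : ℤ) (g : ℂ → ℂ) (x : ℂ) : ℝ :=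
  ‖iF (cut (sh a) (mg n g)) x‖ ^ 2 - ‖iF (cut (sh a) g) x‖ ^ 2

/-- `|F_{<c+1}| ^ 2 - |F_{<c}| ^ 2` -/
noncomputable def Dr (c : ℤ) (G : ℂ → ℂ) (x : ℂ) : ℝ :=
  ‖iF (cut (lo (c + 1)) G) x‖ ^ 2 - ‖iF (cut (lo c) G) x‖ ^ 2

section
variable (hB : StmtBase) (hF : StmtFac) {CR : ℝ} (hCR : 0 < CR)
  (hR : ∀ (n : ℕ) (a : ℤ) (ρ : ℝ) (g : ℂ → ℂ), 1 ≤ n → 0 < ρ → CC g →
  (∀ ζ, g ζ ≠ 0 → (2 : ℝ) ^ a ≤ ‖ζ‖ ∧ ‖ζ‖ ≤ (2 : ℝ) ^ (a + 2)) →
  ∫ θ in Metric.closedBall (0 : ℂ) ρ,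
    ‖∫ δ, (E1 n θ δ - 1) * (g (δ + θ / 2) * starRingEnd ℂ (g (δ - θ / 2)))‖ ^ 2
      ≤ CR * (n * ρ / (2 : ℝ) ^ a) ^ 2 * N4 g)

include hB hF in
theorem cc_facts {n : ℕ} (hn : 1 ≤ n) {g : ℂ → ℂ} (hg : CC g) (hg0 : Z0 g) (a : ℤ) :
    CC (cut (sh a) (mg n g)) ∧ CC (cut (sh a) g) ∧ CC (cut (lo a) (mg n g)) ∧
    CC (ra n a g) ∧ CC (kc a (mg n g)) ∧ (∀ x, iF (ra n a g) x = (Rr n a g x : ℂ)) ∧
    (∀ x, iF (kc a (mg n g)) x = (Dr a (mg n g) x : ℂ)) := by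
  have hG := (hF.2.2.2.2.2.1 g n hn hg hg0).1
  have h1 := (hF.2.2.2.2.1 (mg n g) a a hG).2.2
  have h2 := (hF.2.2.2.2.1 g a a hg).2.2
  have h3 := (hF.2.2.2.2.1 (mg n g) a a hG).1
  have h4 := (hF.2.2.2.2.1 (mg n g) (a + 1) a hG).1
  refine ⟨h1, h2, h3, cc_sub (hb_cc hB h1) (hb_cc hB h2), cc_sub (hb_cc hB h4) (hb_cc hB h3),
    fun x => ?_, fun x => ?_⟩
  · have : ra n a g = fun θ => hb (cut (sh a) (mg n g)) θ - hb (cut (sh a) g) θ := rfl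
    rw [this, iF_sub hB (hb_cc hB h1) (hb_cc hB h2), iF_hb hB h1, iF_hb hB h2, Rr]
    push_cast
    ring
  · have : kc a (mg n g) = fun θ => hb (cut (lo (a + 1)) (mg n g)) θ - hb (cut (lo a) (mg n g)) θ :=
      rfl
    rw [this, iF_sub hB (hb_cc hB h4) (hb_cc hB h3), iF_hb hB h4, iF_hb hB h3, Dr]
    push_cast
    ring

include hB hF in
theorem int_RD {n : ℕ} (hn : 1 ≤ n) {g : ℂ → ℂ} (hg : CC g) (hg0 : Z0 g) (a c : ℤ) :
    Integrable (fun x => Rr n a g x * Dr c (mg n g) x) ∧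
    ((∫ x, Rr n a g x * Dr c (mg n g) x : ℝ) : ℂ)
      = ∫ θ, ra n a g θ * starRingEnd ℂ (kc c (mg n g) θ) := by
  obtain ⟨-, -, -, h4, -, h6, -⟩ := cc_facts hB hF hn hg hg0 a
  obtain ⟨-, -, -, -, k5, -, k7⟩ := cc_facts hB hF hn hg hg0 c
  obtain ⟨p1, p2⟩ := hB.2.2.2.2.2 (ra n a g) (kc c (mg n g)) h4 k5
  have e : (fun x => iF (ra n a g) x * starRingEnd ℂ (iF (kc c (mg n g)) x))
      = fun x => ((Rr n a g x * Dr c (mg n g) x : ℝ) : ℂ) := by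
    ext x
    rw [h6, k7, Complex.conj_ofReal]
    push_cast
    ring
  rw [e] at p1 p2
  refine ⟨?_, ?_⟩
  · have := p1.re
    exact this
  · rw [← p2]
    exact integral_complex_ofReal.symm

include hB hF in
theorem int_Dsq {n : ℕ} (hn : 1 ≤ n) {g : ℂ → ℂ} (hg : CC g) (hg0 : Z0 g) (c : ℤ) :
    ∫ θ, ‖kc c (mg n g) θ‖ ^ 2 = ∫ x, Dr c (mg n g) x ^ 2 := by
  obtain ⟨-, -, -, -, k5, -, k7⟩ := cc_facts hB hF hn hg hg0 c
  rw [← (hB.1 _ k5).2.2.2.2]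
  congr 1
  ext x
  rw [k7, Complex.norm_real, Real.norm_eq_abs, sq_abs]

include hB hF hCR hR in
theorem inter {n : ℕ} (hn : 1 ≤ n) {g : ℂ → ℂ} (hg : CC g) (hg0 : Z0 g) (a c : ℤ) :
    ∫ x, Rr n a g x * Dr c (mg n g) x ≤
      8 * Real.sqrt CR * n * (2 ^ (c - a) * Real.sqrt (N4 (cut (sh a) g))
        * Real.sqrt (∫ x, Dr c (mg n g) x ^ 2)) := by
  obtain ⟨h1, h2, -, h4, -, h6, -⟩ := cc_facts hB hF hn hg hg0 a
  obtain ⟨-, -, -, -, k5, -, k7⟩ := cc_facts hB hF hn hg hg0 c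
  obtain ⟨p1, p2⟩ := int_RD hB hF hn hg hg0 a c
  set S := Metric.closedBall (0 : ℂ) (2 ^ (c + 3)) with hS
  have e1 : ∫ x, Rr n a g x * Dr c (mg n g) x ≤
      ∫ θ, ‖ra n a g θ‖ * ‖kc c (mg n g) θ‖ := by
    calc ∫ x, Rr n a g x * Dr c (mg n g) x ≤ |∫ x, Rr n a g x * Dr c (mg n g) x| := le_abs_self _
      _ = ‖((∫ x, Rr n a g x * Dr c (mg n g) x : ℝ) : ℂ)‖ := by
          rw [Complex.norm_real, Real.norm_eq_abs]
      _ = ‖∫ θ, ra n a g θ * starRingEnd ℂ (kc c (mg n g) θ)‖ := by rw [p2]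
      _ ≤ ∫ θ, ‖ra n a g θ * starRingEnd ℂ (kc c (mg n g) θ)‖ := norm_integral_le_integral_norm _
      _ = _ := by
          congr 1
          ext θ
          rw [norm_mul, RCLike.norm_conj]
  have e2 : ∫ θ, ‖ra n a g θ‖ * ‖kc c (mg n g) θ‖ = ∫ θ in S, ‖ra n a g θ‖ * ‖kc c (mg n g) θ‖ := by
    symm
    apply setIntegral_eq_integral_of_forall_compl_eq_zero
    intro θ hθ
    have : (2 : ℝ) ^ (c + 3) < ‖θ‖ := by
      by_contra hc
      exact hθ (by rw [hS, mem_closedBall_zero_iff]; exact not_lt.mp hc)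
    rw [kc_zero hF c _ this]
    simp
  have isq : ∀ u : ℂ → ℂ, CC u → Integrable (fun θ => ‖u θ‖ ^ 2) := by
    intro u hu
    refine Continuous.integrable_of_hasCompactSupport (by
      have := hu.1
      fun_prop) ?_
    have := hu.2.norm
    exact this.comp_left (g := fun t : ℝ => t ^ 2) (by simp)
  have e3 := csSet S (f := fun θ => ‖ra n a g θ‖) (g := fun θ => ‖kc c (mg n g) θ‖)
    (fun _ => norm_nonneg _) (fun _ => norm_nonneg _) h4.1.norm k5.1.norm (isq _ h4) (isq _ k5)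
  have e4 := hR n a (2 ^ (c + 3)) (cut (sh a) g) hn (by positivity) h2 (sh_supp hF a g)
  have e5 : ∫ θ in S, ‖ra n a g θ‖ ^ 2 ≤ CR * (n * 2 ^ (c + 3) / (2 : ℝ) ^ a) ^ 2
      * N4 (cut (sh a) g) := by
    refine le_trans (le_of_eq ?_) e4
    congr 1
    ext θ
    rw [ra_eq h1 h2]
  rw [int_Dsq hB hF hn hg hg0] at e3
  refine e1.trans (e2.le.trans (e3.trans ?_))
  have e6 : Real.sqrt (CR * (n * 2 ^ (c + 3) / (2 : ℝ) ^ a) ^ 2 * N4 (cut (sh a) g))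
      = 8 * Real.sqrt CR * n * (2 ^ (c - a) * Real.sqrt (N4 (cut (sh a) g))) := by
    rw [Real.sqrt_mul (by positivity), Real.sqrt_mul hCR.le, Real.sqrt_sq (by positivity), z4,
      zpow_sub₀ (by norm_num)]
    ring
  calc Real.sqrt (∫ θ in S, ‖ra n a g θ‖ ^ 2) * Real.sqrt (∫ x, Dr c (mg n g) x ^ 2)
      ≤ Real.sqrt (CR * (n * 2 ^ (c + 3) / (2 : ℝ) ^ a) ^ 2 * N4 (cut (sh a) g))
        * Real.sqrt (∫ x, Dr c (mg n g) x ^ 2) := by gcongr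
    _ = _ := by rw [e6]; ring

include hB hF in
theorem Dsq_le {n : ℕ} (hn : 1 ≤ n) {g : ℂ → ℂ} (hg : CC g) (hg0 : Z0 g) (c : ℤ) :
    ∫ x, Dr c (mg n g) x ^ 2 ≤ 2 * N4 (cut (sh c) (mg n g))
      + 8 * N22 (cut (sh c) (mg n g)) (cut (lo c) (mg n g)) := by
  obtain ⟨h1, -, h3, -, -, -, -⟩ := cc_facts hB hF hn hg hg0 c
  have hi1 := (hB.1 _ h1).2.2.2.1
  have hi2 := int22 hB h1 h3
  unfold N4 N22
  rw [← integral_const_mul, ← integral_const_mul, ← integral_add (hi1.const_mul _) (hi2.const_mul _)]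
  refine integral_mono_of_nonneg (Eventually.of_forall fun x => by positivity)
    ((hi1.const_mul _).add (hi2.const_mul _)) (Eventually.of_forall fun x => ?_)
  simp only [Dr]
  have e : cut (lo (c + 1)) (mg n g) = fun ζ => cut (sh c) (mg n g) ζ + cut (lo c) (mg n g) ζ := by
    ext ζ
    unfold cut sh bd
    push_cast
    ring
  rw [e, hB.2.2.2.2.1 _ _ h1 h3]
  set P := iF (cut (sh c) (mg n g)) x
  set Q := iF (cut (lo c) (mg n g)) x
  have t1 : ‖P + Q‖ ≤ ‖P‖ + ‖Q‖ := norm_add_le _ _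
  have t2 : ‖Q‖ ≤ ‖P + Q‖ + ‖P‖ := by
    have := norm_sub_le (P + Q) P
    rwa [add_sub_cancel_left] at this
  have p0 := norm_nonneg P
  have q0 := norm_nonneg Q
  have r0 := norm_nonneg (P + Q)
  have t3 : |‖P + Q‖ ^ 2 - ‖Q‖ ^ 2| ≤ ‖P‖ ^ 2 + 2 * ‖Q‖ * ‖P‖ := by
    rw [abs_le]
    constructor
    · rcases le_total ‖P‖ ‖Q‖ with h | h
      · have : (‖Q‖ - ‖P‖) ^ 2 ≤ ‖P + Q‖ ^ 2 := by
          apply pow_le_pow_left₀ <;> linarith
        nlinarith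
      · nlinarith [sq_nonneg ‖P + Q‖]
    · have : ‖P + Q‖ ^ 2 ≤ (‖P‖ + ‖Q‖) ^ 2 := by gcongr
      nlinarith
  have t4 : (‖P + Q‖ ^ 2 - ‖Q‖ ^ 2) ^ 2 ≤ (‖P‖ ^ 2 + 2 * ‖Q‖ * ‖P‖) ^ 2 := by
    rw [← sq_abs]
    gcongr
  refine t4.trans ?_
  nlinarith [sq_nonneg (‖P‖ ^ 2 - 2 * ‖Q‖ * ‖P‖)]

end

end Dec

open Dec R in
theorem dec (hR : StmtR) (hP : StmtPP) (hB : StmtBase) (hF : StmtFac) : StmtDec := by
  obtain ⟨CR, hCR, hR⟩ := hR
  obtain ⟨CP, hCP, hP⟩ := hP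
  refine ⟨CP + 8 * Real.sqrt CR * (Real.sqrt CP * Real.sqrt (10 * CP)), by positivity, ?_⟩
  intro n g hn hg hg0 A d
  have hG := (hF.2.2.2.2.2.1 g n hn hg hg0).1
  have hG0 := (hF.2.2.2.2.2.1 g n hn hg hg0).2
  set G := mg n g with hGdef
  -- a scale below which `G` vanishes
  obtain ⟨c0, hc0⟩ : ∃ c0 : ℤ, ∀ c ≤ c0, ∀ ζ, cut (lo c) G ζ = 0 := by
    obtain ⟨ε, hε, hball⟩ := Metric.eventually_nhds_iff.mp hG0
    obtain ⟨k, hk⟩ := exists_pow_lt_of_lt_one (show 0 < ε / 2 by positivity)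
      (show (1 / 2 : ℝ) < 1 by norm_num)
    refine ⟨-(k : ℤ), fun c hc ζ => ?_⟩
    by_contra h
    have h1 := cut_lo_supp hF c G ζ h
    have h2 : (2 : ℝ) ^ c ≤ 2 ^ (-(k : ℤ)) := zpow_le_zpow_right₀ (by norm_num) hc
    have h3 : (2 : ℝ) ^ (-(k : ℤ)) = (1 / 2) ^ k := by
      rw [zpow_neg, zpow_natCast, one_div, inv_pow]
    apply h
    unfold cut
    rw [hball (by rw [dist_zero_right]; linarith), mul_zero]
  have hn4g : 0 ≤ N4 g := n4_nonneg g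
  have hn4G : 0 ≤ N4 G := n4_nonneg G
  -- the sum of squares of `y`
  have hY : ∀ S : Finset ℤ, ∑ c ∈ S, Real.sqrt (∫ x, Dr c G x ^ 2) ^ 2 ≤ 10 * CP * N4 G := by
    intro S
    obtain ⟨-, -, q3, q4⟩ := hP S (fun c => c) G G hG hG
    rw [Real.mul_self_sqrt hn4G] at q3
    have : ∀ c ∈ S, Real.sqrt (∫ x, Dr c G x ^ 2) ^ 2 ≤ 2 * N4 (cut (sh c) G)
        + 8 * N22 (cut (sh c) G) (cut (lo c) G) := by
      intro c _
      rw [Real.sq_sqrt (integral_nonneg fun _ => by positivity)]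
      exact Dsq_le hB hF hn hg hg0 c
    refine (Finset.sum_le_sum this).trans ?_
    rw [Finset.sum_add_distrib, ← Finset.mul_sum, ← Finset.mul_sum]
    linarith
  have hX : ∑ a ∈ A, Real.sqrt (N4 (cut (sh a) g)) ^ 2 ≤ CP * N4 g := by
    obtain ⟨-, -, -, q4⟩ := hP A (fun c => c) g g hg hg
    refine le_trans (le_of_eq (Finset.sum_congr rfl fun a _ => ?_)) q4
    exact Real.sq_sqrt (n4_nonneg _)
  have hsch := schur A d c0 (fun a => Real.sqrt (N4 (cut (sh a) g)))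
    (fun c => Real.sqrt (∫ x, Dr c G x ^ 2)) (CP * N4 g) (10 * CP * N4 G) hX hY
  -- one scale
  have hone : ∀ a ∈ A, N22 (cut (sh a) G) (cut (lo (a - d)) G) ≤
      N22 (cut (sh a) g) (cut (lo (a - d)) G) + 8 * Real.sqrt CR * n *
        ∑ c ∈ Finset.Ico c0 (a - d), (2 ^ (c - a) * Real.sqrt (N4 (cut (sh a) g))
        * Real.sqrt (∫ x, Dr c G x ^ 2)) := by
    intro a _
    obtain ⟨h1, h2, -, -, -, -, -⟩ := cc_facts hB hF hn hg hg0 a
    obtain ⟨-, -, h3, -, -, -, -⟩ := cc_facts hB hF hn hg hg0 (a - d)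
    have i1 := int22 hB h1 h3
    have i2 := int22 hB h2 h3
    have e1 : N22 (cut (sh a) G) (cut (lo (a - d)) G) =
      N22 (cut (sh a) g) (cut (lo (a - d)) G) + ∫ x, Rr n a g x * ‖iF (cut (lo (a - d)) G) x‖ ^ 2 := by
      have : ∫ x, Rr n a g x * ‖iF (cut (lo (a - d)) G) x‖ ^ 2
          = N22 (cut (sh a) G) (cut (lo (a - d)) G) - N22 (cut (sh a) g) (cut (lo (a - d)) G) := by
        unfold N22
        rw [← integral_sub i1 i2]
        congr 1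
        ext x
        unfold Rr
        ring
      rw [this]
      ring
    rw [e1]
    have hzero : ∀ c ≤ c0, ∀ x, ‖iF (cut (lo c) G) x‖ ^ 2 = 0 := by
      intro c hc x
      have : cut (lo c) G = fun _ => 0 := by
        ext ζ; exact hc0 c hc ζ
      rw [this]
      unfold iF
      simp
    have e2 : ∀ x, ‖iF (cut (lo (a - d)) G) x‖ ^ 2 = ∑ c ∈ Finset.Ico c0 (a - d), Dr c G x := by
      intro x
      rcases le_total c0 (a - d) with h | h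
      · have := tele (fun c => ‖iF (cut (lo c) G) x‖ ^ 2) c0 (a - d) h
        simp only [hzero c0 le_rfl x, sub_zero] at this
        rw [← this]
        rfl
      · rw [Finset.Ico_eq_empty (by omega), Finset.sum_empty, hzero _ h]
    have e3 : ∫ x, Rr n a g x * ‖iF (cut (lo (a - d)) G) x‖ ^ 2
        = ∑ c ∈ Finset.Ico c0 (a - d), ∫ x, Rr n a g x * Dr c G x := by
      rw [← integral_finsetSum _ fun c _ => (int_RD hB hF hn hg hg0 a c).1]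
      congr 1
      ext x
      rw [e2, Finset.mul_sum]
    rw [e3, Finset.mul_sum]
    gcongr with c _
    exact inter hB hF hCR hR hn hg hg0 a c
  obtain ⟨-, -, q3, -⟩ := hP A (fun a => a - d) g G hg hG
  refine (Finset.sum_le_sum hone).trans ?_
  rw [Finset.sum_add_distrib, ← Finset.mul_sum]
  have e4 : Real.sqrt (CP * N4 g) * Real.sqrt (10 * CP * N4 G)
      = (Real.sqrt CP * Real.sqrt (10 * CP)) * (Real.sqrt (N4 g) * Real.sqrt (N4 G)) := by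
    rw [Real.sqrt_mul hCP.le, Real.sqrt_mul (by positivity)]
    ring
  rw [e4] at hsch
  have hW : 0 ≤ Real.sqrt (N4 g) * Real.sqrt (N4 G) := by positivity
  set W := Real.sqrt (N4 g) * Real.sqrt (N4 G) with hWdef
  have e5 : 8 * Real.sqrt CR * n * ∑ a ∈ A, ∑ c ∈ Finset.Ico c0 (a - d),
      (2 ^ (c - a) * Real.sqrt (N4 (cut (sh a) g)) * Real.sqrt (∫ x, Dr c G x ^ 2))
      ≤ 8 * Real.sqrt CR * n * (2 ^ (-(d : ℤ)) * (Real.sqrt CP * Real.sqrt (10 * CP) * W)) := by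
    gcongr
  have hd : (0 : ℝ) < 2 ^ (-(d : ℤ)) := by positivity
  calc _ ≤ CP * W + 8 * Real.sqrt CR * n * (2 ^ (-(d : ℤ)) *
        (Real.sqrt CP * Real.sqrt (10 * CP) * W)) := add_le_add q3 e5
    _ ≤ _ := by
      have k1 : 0 ≤ CP * (n * 2 ^ (-(d : ℤ))) * W := by positivity
      have k2 : 0 ≤ 8 * Real.sqrt CR * (Real.sqrt CP * Real.sqrt (10 * CP)) * W := by positivity
      nlinarith
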