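import Pool.Agent.Lib.MP_dd244f_an.Four.ErrA

/-!
(Err) the error symbol is small: choice of the parameters.
-/

set_option autoImplicit false

namespace Pool.Agent.Lib.MP_dd244f_an.Four

open MeasureTheory Filter Topology

namespace ErrM

/-- choice of `X0` and `w` -/
lemma params {C Λ ε : ℝ} (hC : 0 < C) (hΛ : 0 < Λ) (hε : 0 < ε) : ∃ X0 w : ℝ, 1 ≤ X0 ∧
    Kf C Λ ≤ ε * (X0 - 1) ∧ 0 < w ∧ w ≤ ε ∧ w ≤ 1 / 2 ∧ X0 * w ≤ 1 ∧
    64 * Λ * X0 ^ 4 * w ≤ 1 ∧ 2 * Kn C Λ X0 * w ≤ ε * Real.exp (-(X0 ^ 2)) := by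
  have K0 : 0 < Kf C Λ := by
    unfold Kf
    positivity
  obtain ⟨X0, hX0⟩ : ∃ X0 : ℝ, X0 = 1 + Kf C Λ / ε := ⟨_, rfl⟩
  have h0 : 0 < Kf C Λ / ε := by positivity
  have hX : 1 ≤ X0 := by linarith
  have X00 : 0 < X0 := by linarith
  have K1 : 0 < Kn C Λ X0 := by
    unfold Kn
    positivity
  have hexp : 0 < Real.exp (-(X0 ^ 2)) := Real.exp_pos _
  refine ⟨X0, min (min ε (1 / 2)) (min (1 / X0) (min (1 / (64 * Λ * X0 ^ 4))
    (ε * Real.exp (-(X0 ^ 2)) / (2 * Kn C Λ X0)))), hX, ?_, ?_, ?_, ?_, ?_, ?_, ?_⟩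
  · rw [hX0]
    have : ε * (1 + Kf C Λ / ε - 1) = Kf C Λ := by field_simp; ring
    rw [this]
  · exact lt_min (lt_min hε (by norm_num)) (lt_min (by positivity) (lt_min (by positivity)
      (by positivity)))
  · exact (min_le_left _ _).trans (min_le_left _ _)
  · exact (min_le_left _ _).trans (min_le_right _ _)
  · refine (mul_le_mul_of_nonneg_left ((min_le_right _ _).trans (min_le_left _ _))
      X00.le).trans (le_of_eq ?_)
    field_simp
  · refine (mul_le_mul_of_nonneg_left ((min_le_right _ _).trans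
      ((min_le_right _ _).trans (min_le_left _ _))) (by positivity)).trans (le_of_eq ?_)
    field_simp
  · refine (mul_le_mul_of_nonneg_left ((min_le_right _ _).trans
      ((min_le_right _ _).trans (min_le_right _ _))) (by positivity)).trans (le_of_eq ?_)
    field_simp

/-- relations between the parameters -/
lemma P0_of {M : ℝ} (hM : 0 < M) (L : ℕ) (s : ℤ) {n : ℕ} (hn : 0 < (n : ℝ)) :
    P0 (M ^ 2 * ((2 : ℝ) ^ L) ^ 2) (M * (2 : ℝ) ^ L / Real.sqrt n) (win n M s L)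
      ((2 : ℝ) ^ s) n := by
  have hsq : 0 < Real.sqrt n := Real.sqrt_pos.2 hn
  have hsq2 : Real.sqrt n ^ 2 = n := Real.sq_sqrt hn.le
  have S0 : 0 < (2 : ℝ) ^ s := by positivity
  have hrS : win n M s L * (2 : ℝ) ^ s = Real.sqrt n / (M * (2 : ℝ) ^ L) := by
    unfold win
    rw [zpow_add₀ (by norm_num : (2 : ℝ) ≠ 0), zpow_natCast]
    field_simp
  refine ⟨?_, S0, by positivity, by positivity, ?_, ?_⟩
  · unfold win
    positivity
  · have : M ^ 2 * ((2 : ℝ) ^ L) ^ 2 * win n M s L ^ 2 * ((2 : ℝ) ^ s) ^ 2 =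
        M ^ 2 * ((2 : ℝ) ^ L) ^ 2 * (win n M s L * (2 : ℝ) ^ s) ^ 2 := by ring
    rw [this, hrS, div_pow, hsq2]
    field_simp
  · rw [mul_assoc, hrS]
    field_simp

end ErrM

open ErrM in
/-- (Err) -/
theorem err (hL : StmtLap) (hM : StmtMM) (hM2 : StmtMM2) (hF : StmtFac) : StmtErr := by
  intro M L m ε hM1 hm hLm hε
  obtain ⟨C, hC, hMM⟩ := hM
  have hM0 : 0 < M := lt_of_lt_of_le one_pos hM1
  have Λ0 : 0 < M ^ 2 * ((2 : ℝ) ^ L) ^ 2 := by positivity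
  obtain ⟨X0, w, hX, hK, w0, w1, w2, w3, w4, w5⟩ := params hC Λ0 hε
  refine ⟨w, ⌈(M * (2 : ℝ) ^ L / w) ^ 2⌉₊ + 1, w0, by linarith, w1, ?_⟩
  intro n hn s θ q hθ hq
  have hn1 : (M * (2 : ℝ) ^ L / w) ^ 2 ≤ n := by
    have h1 : ⌈(M * (2 : ℝ) ^ L / w) ^ 2⌉₊ ≤ n := by omega
    exact (Nat.le_ceil _).trans (by exact_mod_cast h1)
  have hn0 : (0 : ℝ) < n := by
    have : 0 < n := by omega
    exact_mod_cast this
  have hsq : 0 < Real.sqrt n := Real.sqrt_pos.2 hn0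
  have hsq3 : M * (2 : ℝ) ^ L / w ≤ Real.sqrt n := Real.le_sqrt_of_sq_le hn1
  have hp := P0_of hM0 L s hn0
  have hτw : M * (2 : ℝ) ^ L / Real.sqrt n ≤ w := by
    rw [div_le_iff₀ hsq]
    rw [div_le_iff₀ w0] at hsq3
    linarith
  have hab : s + m < s + L - m := by
    have : (2 * m : ℤ) < L := by exact_mod_cast hLm
    linarith
  have hpow : (2 : ℝ) ^ (s + (m : ℤ)) = (2 : ℝ) ^ s * 2 ^ m := by
    rw [zpow_add₀ (by norm_num : (2 : ℝ) ≠ 0), zpow_natCast]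
  have hpow' : (2 : ℝ) ^ (s - 1) = (2 : ℝ) ^ s / 2 := by
    rw [zpow_sub₀ (by norm_num : (2 : ℝ) ≠ 0), zpow_one]
  have h16 : (16 : ℝ) ≤ 2 ^ m := by
    calc (16 : ℝ) = 2 ^ 4 := by norm_num
      _ ≤ 2 ^ m := pow_le_pow_right₀ (by norm_num) hm
  obtain ⟨b1, -, b3⟩ := bd_jet hMM hab
  obtain ⟨d1, d2, d3⟩ := bd_jet hMM (show s - 1 < s + L + 1 by
    have : (0 : ℤ) ≤ L := Int.natCast_nonneg L
    linarith)
  have hθ1 := hθ.1
  generalize M ^ 2 * ((2 : ℝ) ^ L) ^ 2 = Λ at *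
  generalize M * (2 : ℝ) ^ L / Real.sqrt n = τ at *
  generalize win n M s L = r at *
  generalize (2 : ℝ) ^ s = S at *
  have S0 := hp.S0
  have r0 := hp.r0
  have hSi : 1 / S = τ * r := by
    rw [div_eq_iff S0.ne', hp.hτ]
  have haS : S ≤ (2 : ℝ) ^ (s + (m : ℤ)) := by
    rw [hpow]
    nlinarith
  have hκ : BH (s + m) (s + L - m) (C * τ * r) (C * τ ^ 2 * r ^ 2) := by
    refine ⟨b1, fun ζ => (b3 ζ).1.trans ?_, fun ζ => (b3 ζ).2.trans ?_⟩
    · calc C / (2 : ℝ) ^ (s + (m : ℤ)) ≤ C / S := div_le_div_of_nonneg_left hC.le S0 haS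
        _ = C * (1 / S) := by ring
        _ = C * τ * r := by rw [hSi]; ring
    · calc C / ((2 : ℝ) ^ (s + (m : ℤ))) ^ 2 ≤ C / S ^ 2 :=
            div_le_div_of_nonneg_left hC.le (by positivity) (pow_le_pow_left₀ S0.le haS 2)
        _ = C * (1 / S) ^ 2 := by ring
        _ = C * τ ^ 2 * r ^ 2 := by rw [hSi]; ring
  have hχ : BH (s - 1) (s + L + 1) (2 * C * τ * r) (4 * C * τ ^ 2 * r ^ 2) := by
    refine ⟨d1, fun ζ => (d3 ζ).1.trans (le_of_eq ?_), fun ζ => (d3 ζ).2.trans (le_of_eq ?_)⟩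
    · rw [hpow']
      calc C / (S / 2) = 2 * C * (1 / S) := by ring
        _ = _ := by rw [hSi]; ring
    · rw [hpow']
      calc C / (S / 2) ^ 2 = 4 * C * (1 / S) ^ 2 := by ring
        _ = _ := by rw [hSi]; ring
  have hθ16 : 16 * S ≤ ‖θ‖ := by
    refine le_trans ?_ hθ1
    rw [hpow]
    nlinarith
  have hqS : 15 * S ≤ ‖q‖ := by
    have h1 := norm_sub_norm_le θ q
    rw [norm_sub_rev] at h1
    nlinarith
  have hq0 : q ≠ 0 := norm_pos_iff.1 (lt_of_lt_of_le (by positivity) hqS)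
  have hEs : Es n r s L m θ q = Sy n r (s + m) (s + L - m) (s - 1) (s + L + 1) θ q :=
    Es_eq n r s L m θ hq0
  have hc := fun δ => core hL hM2 hF hC hp hab.le haS hκ hχ hθ16 hε hX hK w0 hτw w2 w3 w4 w5
    hq δ
  rw [hEs]
  refine ⟨contDiff_iff_contDiffAt.2 fun δ => (hc δ).1, ?_, fun δ => (hc δ).2⟩
  have h1 : HasCompactSupport (fun z => (bd (s - 1) (s + L + 1) (θ / 2 + z) : ℂ)) :=
    d2.comp_homeomorph (Homeomorph.addLeft (θ / 2))
  have h2 : HasCompactSupport (KKp (s - 1) (s + L + 1) θ) := h1.mul_right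
  exact h2.mul_right

end Pool.Agent.Lib.MP_dd244f_an.Four
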