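import Pool.Agent.Lib.MP_dd244f_an.Four.Stmts

/-!
The energy decreases under opposite translations.
-/

set_option autoImplicit false

namespace Pool.Agent.Lib.MP_dd244f_an.Four

open MeasureTheory Filter Topology Finset

namespace HoldAux

theorem cont_ch (y : ℂ) : Continuous (fun ζ : ℂ => ch y ζ) := by
  unfold ch
  fun_prop

theorem cc_mul {g w : ℂ → ℂ} (hg : CC g) (hw : Continuous w) : CC (fun ζ => w ζ * g ζ) :=
  ⟨hw.mul hg.1, hg.2.mul_left⟩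

theorem cont_gauss (σ : ℝ) (ξ : ℂ) :
    Continuous (fun ζ : ℂ => (Real.exp (-(Real.pi * σ ^ 2 * ‖ζ - ξ‖ ^ 2)) : ℂ)) := by
  fun_prop

end HoldAux

open HoldAux in
theorem hold (hP : StmtPS) (hB : StmtBase) : StmtHold := by
  intro σ g y ξ hg
  have e2 : ∀ θ : ℂ, θ - ξ = θ - 2 * (ξ / 2) := fun θ => by ring
  simp only [e2]
  rw [← hP σ _ _ (ξ / 2) (cc_mul hg (cont_ch y)) (cc_mul hg (cont_ch (-y))),
    ← hP σ g g (ξ / 2) hg hg]
  set G : ℂ → ℂ := fun ζ =>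
    (Real.exp (-(Real.pi * σ ^ 2 * ‖ζ - ξ / 2‖ ^ 2)) : ℂ) * g ζ with hG
  have hGc : CC G := cc_mul hg (cont_gauss σ (ξ / 2))
  obtain ⟨hcont, -, -, h4, -⟩ := hB.1 G hGc
  have hsh : ∀ w z, iF (fun ζ => (Real.exp (-(Real.pi * σ ^ 2 * ‖ζ - ξ / 2‖ ^ 2)) : ℂ) *
      (ch w ζ * g ζ)) z = iF G (z + w) := by
    intro w z
    rw [← hB.2.2.1 G z w]
    congr 1
    funext ζ
    simp only [hG]
    ring
  simp only [hsh]
  have i1 : Integrable (fun z => ‖iF G (z + y)‖ ^ 4) := h4.comp_add_right y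
  have i2 : Integrable (fun z => ‖iF G (z + -y)‖ ^ 4) := h4.comp_add_right (-y)
  have hle : ∀ z, ‖iF G (z + y)‖ ^ 2 * ‖iF G (z + -y)‖ ^ 2 ≤
      1 / 2 * ‖iF G (z + y)‖ ^ 4 + 1 / 2 * ‖iF G (z + -y)‖ ^ 4 := by
    intro z
    nlinarith [sq_nonneg (‖iF G (z + y)‖ ^ 2 - ‖iF G (z + -y)‖ ^ 2)]
  calc ∫ z, ‖iF G (z + y)‖ ^ 2 * ‖iF G (z + -y)‖ ^ 2
      ≤ ∫ z, (1 / 2 * ‖iF G (z + y)‖ ^ 4 + 1 / 2 * ‖iF G (z + -y)‖ ^ 4) := by
        refine integral_mono_of_nonneg (Eventually.of_forall fun z => by positivity)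
          ((i1.const_mul _).add (i2.const_mul _)) (Eventually.of_forall hle)
    _ = 1 / 2 * (∫ z, ‖iF G (z + y)‖ ^ 4) + 1 / 2 * ∫ z, ‖iF G (z + -y)‖ ^ 4 := by
        rw [integral_add (i1.const_mul _) (i2.const_mul _), integral_const_mul,
          integral_const_mul]
    _ = ∫ z, ‖iF G z‖ ^ 4 := by
        rw [integral_add_right_eq_self (fun z => ‖iF G z‖ ^ 4) y,
          integral_add_right_eq_self (fun z => ‖iF G z‖ ^ 4) (-y)]
        ring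
    _ = ∫ z, ‖iF G z‖ ^ 2 * ‖iF G z‖ ^ 2 := by
        refine integral_congr_ae (Eventually.of_forall fun z => ?_)
        simp only
        ring

end Pool.Agent.Lib.MP_dd244f_an.Four
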