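import Pool.Agent.Lib.MP_dd244f_an.Four.Stmts

/-!
Full operator, `p = 4`: calculus of the Laplacian.
-/

set_option autoImplicit false

namespace Pool.Agent.Lib.MP_dd244f_an.Four

open MeasureTheory Filter Topology Finset

theorem lap_of {a : ℂ → ℂ} {δ : ℂ} {u v : ℂ → ℂ} {Lu Lv : ℂ →L[ℝ] ℂ}
    (h1 : (fun z => fderiv ℝ a z 1) =ᶠ[𝓝 δ] u)
    (h2 : (fun z => fderiv ℝ a z Complex.I) =ᶠ[𝓝 δ] v)
    (hu : HasFDerivAt u Lu δ) (hv : HasFDerivAt v Lv δ) :
    lap a δ = Lu 1 + Lv Complex.I := by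
  unfold lap
  rw [h1.fderiv_eq, h2.fderiv_eq, hu.fderiv, hv.fderiv]

theorem diff_fderiv_apply {f : ℂ → ℂ} (hf : ContDiff ℝ 2 f) (v : ℂ) :
    Differentiable ℝ (fun z => fderiv ℝ f z v) := by
  have h : ContDiff ℝ 1 (fderiv ℝ f) := hf.fderiv_right (by norm_num)
  exact (h.differentiable (by norm_num)).clm_apply (differentiable_const v)

theorem lap_mul {f g : ℂ → ℂ} (hf : ContDiff ℝ 2 f) (hg : ContDiff ℝ 2 g) (δ : ℂ) :
    lap (fun z => f z * g z) δ = f δ * lap g δ + g δ * lap f δ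
      + 2 * (fderiv ℝ f δ 1 * fderiv ℝ g δ 1
        + fderiv ℝ f δ Complex.I * fderiv ℝ g δ Complex.I) := by
  have hdf : Differentiable ℝ f := hf.differentiable (by norm_num)
  have hdg : Differentiable ℝ g := hg.differentiable (by norm_num)
  have key : ∀ v : ℂ, (fun z => fderiv ℝ (fun z => f z * g z) z v)
      = fun z => f z * fderiv ℝ g z v + g z * fderiv ℝ f z v := by
    intro v
    ext z
    rw [fderiv_fun_mul (hdf z) (hdg z)]
    simp
  have key2 : ∀ v : ℂ, HasFDerivAt (fun z => f z * fderiv ℝ g z v + g z * fderiv ℝ f z v)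
      ((f δ • fderiv ℝ (fun z => fderiv ℝ g z v) δ + fderiv ℝ g δ v • fderiv ℝ f δ)
        + (g δ • fderiv ℝ (fun z => fderiv ℝ f z v) δ + fderiv ℝ f δ v • fderiv ℝ g δ)) δ := by
    intro v
    exact ((hdf δ).hasFDerivAt.fun_mul (diff_fderiv_apply hg v δ).hasFDerivAt).fun_add
      ((hdg δ).hasFDerivAt.fun_mul (diff_fderiv_apply hf v δ).hasFDerivAt)
  rw [lap_of (Eventually.of_forall (fun z => congrFun (key 1) z))
    (Eventually.of_forall (fun z => congrFun (key Complex.I) z)) (key2 1) (key2 Complex.I)]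
  unfold lap
  simp only [add_apply, smul_apply, smul_eq_mul]
  ring

theorem norm_fderiv_mul {f g : ℂ → ℂ} (hf : ContDiff ℝ 2 f) (hg : ContDiff ℝ 2 g) (δ : ℂ) :
    ‖fderiv ℝ (fun z => f z * g z) δ‖ ≤ ‖f δ‖ * ‖fderiv ℝ g δ‖ + ‖g δ‖ * ‖fderiv ℝ f δ‖ := by
  have hdf : Differentiable ℝ f := hf.differentiable (by norm_num)
  have hdg : Differentiable ℝ g := hg.differentiable (by norm_num)
  rw [fderiv_fun_mul (hdf δ) (hdg δ)]
  refine (norm_add_le _ _).trans ?_
  rw [norm_smul, norm_smul]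

theorem norm_lap_mul {f g : ℂ → ℂ} (hf : ContDiff ℝ 2 f) (hg : ContDiff ℝ 2 g) (δ : ℂ) :
    ‖lap (fun z => f z * g z) δ‖ ≤
      ‖f δ‖ * ‖lap g δ‖ + ‖g δ‖ * ‖lap f δ‖ + 4 * ‖fderiv ℝ f δ‖ * ‖fderiv ℝ g δ‖ := by
  rw [lap_mul hf hg]
  have h1 : ∀ (L : ℂ →L[ℝ] ℂ), ‖L 1‖ ≤ ‖L‖ := by
    intro L
    simpa using L.le_opNorm 1
  have h2 : ∀ (L : ℂ →L[ℝ] ℂ), ‖L Complex.I‖ ≤ ‖L‖ := by
    intro L
    simpa using L.le_opNorm Complex.I
  have h3 : ‖fderiv ℝ f δ 1 * fderiv ℝ g δ 1‖ ≤ ‖fderiv ℝ f δ‖ * ‖fderiv ℝ g δ‖ := by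
    rw [norm_mul]
    exact mul_le_mul (h1 _) (h1 _) (norm_nonneg _) (norm_nonneg _)
  have h4 : ‖fderiv ℝ f δ Complex.I * fderiv ℝ g δ Complex.I‖
      ≤ ‖fderiv ℝ f δ‖ * ‖fderiv ℝ g δ‖ := by
    rw [norm_mul]
    exact mul_le_mul (h2 _) (h2 _) (norm_nonneg _) (norm_nonneg _)
  have h5 : ‖(2 : ℂ) * (fderiv ℝ f δ 1 * fderiv ℝ g δ 1
        + fderiv ℝ f δ Complex.I * fderiv ℝ g δ Complex.I)‖
      ≤ 4 * ‖fderiv ℝ f δ‖ * ‖fderiv ℝ g δ‖ := by
    rw [norm_mul]
    have := norm_add_le (fderiv ℝ f δ 1 * fderiv ℝ g δ 1)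
      (fderiv ℝ f δ Complex.I * fderiv ℝ g δ Complex.I)
    have h6 : ‖(2 : ℂ)‖ = 2 := by simp
    rw [h6]
    nlinarith
  calc _ ≤ ‖f δ * lap g δ + g δ * lap f δ‖ + _ := norm_add_le _ _
    _ ≤ ‖f δ * lap g δ‖ + ‖g δ * lap f δ‖ + _ := by
        gcongr
        exact norm_add_le _ _
    _ ≤ _ := by
        rw [norm_mul, norm_mul]
        linarith

/-- the reflected function -/
theorem fderiv_reflect {f : ℂ → ℂ} {θ z : ℂ} (hf : DifferentiableAt ℝ f (θ - z)) :
    fderiv ℝ (fun z => f (θ - z)) z = -fderiv ℝ f (θ - z) := by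
  have h1 : HasFDerivAt (fun z : ℂ => θ - z) (-(ContinuousLinearMap.id ℝ ℂ)) z :=
    (hasFDerivAt_id z).const_sub θ
  have h2 : HasFDerivAt (fun z => f (θ - z))
      ((fderiv ℝ f (θ - z)).comp (-(ContinuousLinearMap.id ℝ ℂ))) z :=
    hf.hasFDerivAt.comp z h1
  rw [h2.fderiv]
  ext v <;> simp

/-- the Laplacian of `exp (c φ)` with `φ` real -/
theorem lap_exp {c : ℂ} {φ : ℂ → ℝ} {L : ℂ → (ℂ →L[ℝ] ℝ)} {δ : ℂ} {P Q : ℂ →L[ℝ] ℝ}
    (hL : ∀ᶠ z in 𝓝 δ, HasFDerivAt φ (L z) z)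
    (hP : HasFDerivAt (fun z => L z 1) P δ) (hQ : HasFDerivAt (fun z => L z Complex.I) Q δ) :
    lap (fun z => Complex.exp (c * (φ z : ℂ))) δ
      = (c * ((P 1 + Q Complex.I : ℝ) : ℂ) + c ^ 2 * ((L δ 1 ^ 2 + L δ Complex.I ^ 2 : ℝ) : ℂ))
        * Complex.exp (c * (φ δ : ℂ)) := by
  have h0 : ∀ z, HasFDerivAt φ (L z) z → HasFDerivAt (fun z => Complex.exp (c * (φ z : ℂ)))
      (Complex.exp (c * (φ z : ℂ)) • (c • Complex.ofRealCLM.comp (L z))) z := by
    intro z hz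
    have h1 : HasFDerivAt (fun z => (φ z : ℂ)) (Complex.ofRealCLM.comp (L z)) z :=
      (Complex.ofRealCLM.hasFDerivAt).comp z hz
    exact (h1.const_mul c).cexp
  have h1 : ∀ v : ℂ, (fun z => fderiv ℝ (fun z => Complex.exp (c * (φ z : ℂ))) z v)
      =ᶠ[𝓝 δ] fun z => Complex.exp (c * (φ z : ℂ)) * (c * (L z v : ℂ)) := by
    intro v
    filter_upwards [hL] with z hz
    rw [(h0 z hz).fderiv]
    simp
  have h2 : ∀ (v : ℂ) (W : ℂ →L[ℝ] ℝ), HasFDerivAt (fun z => L z v) W δ →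
      HasFDerivAt (fun z => Complex.exp (c * (φ z : ℂ)) * (c * (L z v : ℂ)))
      (Complex.exp (c * (φ δ : ℂ)) • (c • Complex.ofRealCLM.comp W)
        + (c * (L δ v : ℂ)) • (Complex.exp (c * (φ δ : ℂ)) • (c • Complex.ofRealCLM.comp (L δ))))
      δ := by
    intro v W hW
    have h3 : HasFDerivAt (fun z => ((L z v : ℝ) : ℂ)) (Complex.ofRealCLM.comp W) δ :=
      (Complex.ofRealCLM.hasFDerivAt).comp δ hW
    exact (h0 δ hL.self_of_nhds).fun_mul (h3.const_mul c)
  rw [lap_of (h1 1) (h1 Complex.I) (h2 1 P hP) (h2 Complex.I Q hQ)]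
  simp only [add_apply, smul_apply, smul_eq_mul,
    ContinuousLinearMap.comp_apply, Complex.ofRealCLM_apply]
  push_cast
  ring

theorem fderiv_exp {c : ℂ} {φ : ℂ → ℝ} {L : ℂ →L[ℝ] ℝ} {z : ℂ} (hz : HasFDerivAt φ L z) :
    ‖fderiv ℝ (fun z => Complex.exp (c * (φ z : ℂ))) z‖
      ≤ ‖Complex.exp (c * (φ z : ℂ))‖ * (‖c‖ * ‖L‖) := by
  have h1 : HasFDerivAt (fun z => (φ z : ℂ)) (Complex.ofRealCLM.comp L) z :=
    (Complex.ofRealCLM.hasFDerivAt).comp z hz
  have h2 := (h1.const_mul c).cexp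
  rw [h2.fderiv, norm_smul, norm_smul]
  have h3 : ‖Complex.ofRealCLM.comp L‖ ≤ ‖L‖ := by
    refine (ContinuousLinearMap.opNorm_comp_le _ _).trans ?_
    rw [Complex.ofRealCLM_norm, one_mul]
  gcongr

theorem gauss_hasFDerivAt (r : ℝ) (z : ℂ) :
    HasFDerivAt (fun z : ℂ => -(r * ‖z‖ ^ 2))
      (-((2 * r * z.re) • Complex.reCLM + (2 * r * z.im) • Complex.imCLM)) z := by
  have h1 : HasFDerivAt (fun z : ℂ => z.re) Complex.reCLM z := Complex.reCLM.hasFDerivAt
  have h2 : HasFDerivAt (fun z : ℂ => z.im) Complex.imCLM z := Complex.imCLM.hasFDerivAt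
  have h3 := (((h1.fun_mul h1).fun_add (h2.fun_mul h2)).const_mul r).fun_neg
  have h4 : (fun z : ℂ => -(r * ‖z‖ ^ 2)) = fun z : ℂ => -(r * (z.re * z.re + z.im * z.im)) := by
    ext w
    rw [← Complex.normSq_eq_norm_sq, Complex.normSq_apply]
  rw [h4]
  refine h3.congr_fderiv ?_
  ext v <;> simp <;> ring

theorem lapc : StmtLap := by
  refine ⟨?_, ?_, ?_, ?_⟩
  · intro f g hf hg δ
    exact ⟨lap_mul hf hg δ, norm_fderiv_mul hf hg δ, norm_lap_mul hf hg δ⟩
  · intro f θ δ hf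
    have hd : Differentiable ℝ f := hf.differentiable (by norm_num)
    refine ⟨?_, ?_, ?_, ?_⟩
    · unfold lap
      have h1 : ∀ v : ℂ, (fun z => fderiv ℝ (fun z => f (θ + z)) z v)
          = fun z => (fun w => fderiv ℝ f w v) (θ + z) := by
        intro v
        ext z
        rw [fderiv_comp_add_left]
      rw [h1, h1, fderiv_comp_add_left (f := fun w => fderiv ℝ f w 1) θ,
        fderiv_comp_add_left (f := fun w => fderiv ℝ f w Complex.I) θ]
    · unfold lap
      have h1 : ∀ v : ℂ, (fun z => fderiv ℝ (fun z => f (θ - z)) z v)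
          = fun z => -((fun w => fderiv ℝ f w v) (θ - z)) := by
        intro v
        ext z
        rw [fderiv_reflect (hd _)]
        simp
      have h2 : ∀ v : ℂ, fderiv ℝ (fun z => -((fun w => fderiv ℝ f w v) (θ - z))) δ
          = fderiv ℝ (fun w => fderiv ℝ f w v) (θ - δ) := by
        intro v
        rw [fderiv_fun_neg, fderiv_reflect (diff_fderiv_apply hf v _), neg_neg]
      rw [h1, h1, h2, h2]
    · rw [fderiv_comp_add_left]
    · rw [fderiv_reflect (hd _), norm_neg]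
  · intro r δ hr
    have h0 : (fun z : ℂ => ((Real.exp (-(r * ‖z‖ ^ 2)) : ℝ) : ℂ))
        = fun z : ℂ => Complex.exp (1 * ((-(r * ‖z‖ ^ 2) : ℝ) : ℂ)) := by
      ext z
      rw [one_mul, Complex.ofReal_exp]
    rw [h0]
    refine ⟨?_, ?_⟩
    · have hP : HasFDerivAt (fun z : ℂ => (-((2 * r * z.re) • Complex.reCLM
          + (2 * r * z.im) • Complex.imCLM) : ℂ →L[ℝ] ℝ) 1) ((-(2 * r)) • Complex.reCLM) δ := by
        have h1 : HasFDerivAt (fun z : ℂ => z.re) Complex.reCLM δ := Complex.reCLM.hasFDerivAt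
        have h2 := h1.const_mul (-(2 * r))
        refine h2.congr_of_eventuallyEq (Eventually.of_forall ?_)
        intro z
        simp
      have hQ : HasFDerivAt (fun z : ℂ => (-((2 * r * z.re) • Complex.reCLM
          + (2 * r * z.im) • Complex.imCLM) : ℂ →L[ℝ] ℝ) Complex.I)
          ((-(2 * r)) • Complex.imCLM) δ := by
        have h1 : HasFDerivAt (fun z : ℂ => z.im) Complex.imCLM δ := Complex.imCLM.hasFDerivAt
        have h2 := h1.const_mul (-(2 * r))
        refine h2.congr_of_eventuallyEq (Eventually.of_forall ?_)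
        intro z
        simp
      rw [lap_exp (Eventually.of_forall (fun z => gauss_hasFDerivAt r z)) hP hQ]
      simp only [one_pow, one_mul, ← Complex.ofReal_add, ← Complex.ofReal_exp,
        ← Complex.ofReal_mul]
      congr 2
      have h5 : ‖δ‖ ^ 2 = δ.re ^ 2 + δ.im ^ 2 := by
        rw [← Complex.normSq_eq_norm_sq, Complex.normSq_apply]; ring
      rw [h5]
      simp
      ring
    · refine (fderiv_exp (gauss_hasFDerivAt r δ)).trans ?_
      have h6 : ‖(-((2 * r * δ.re) • Complex.reCLM + (2 * r * δ.im) • Complex.imCLM)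
          : ℂ →L[ℝ] ℝ)‖ ≤ 2 * r * ‖δ‖ := by
        refine ContinuousLinearMap.opNorm_le_bound _ (by positivity) ?_
        intro v
        have h7 : ((-((2 * r * δ.re) • Complex.reCLM + (2 * r * δ.im) • Complex.imCLM)
          : ℂ →L[ℝ] ℝ) v) = -(2 * r * (δ.re * v.re + δ.im * v.im)) := by
          simp; ring
        rw [h7, norm_neg, norm_mul, Real.norm_of_nonneg (by positivity : (0 : ℝ) ≤ 2 * r),
          mul_assoc (2 * r)]
        gcongr
        rw [Real.norm_eq_abs]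
        apply abs_le_of_sq_le_sq
        · rw [mul_pow, ← Complex.normSq_eq_norm_sq, ← Complex.normSq_eq_norm_sq,
            Complex.normSq_apply, Complex.normSq_apply]
          nlinarith [sq_nonneg (δ.re * v.im - δ.im * v.re)]
        · positivity
      rw [one_mul, ← Complex.ofReal_exp, Complex.norm_real, norm_one, one_mul,
        Real.norm_of_nonneg (Real.exp_nonneg _), mul_comm]
      gcongr
  · intro H δ hH
    have hev : ∀ᶠ z in 𝓝 δ, AnalyticAt ℂ H z := hH.eventually_analyticAt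
    have h0 : ∀ z, AnalyticAt ℂ H z → HasFDerivAt (fun z => (H z).im)
        (Complex.imCLM.comp ((ContinuousLinearMap.toSpanSingleton ℂ (deriv H z)).restrictScalars ℝ))
        z := by
      intro z hz
      have h1 : HasFDerivAt H ((ContinuousLinearMap.toSpanSingleton ℂ (deriv H z)).restrictScalars ℝ)
          z := (hz.differentiableAt.hasDerivAt.hasFDerivAt).restrictScalars ℝ
      exact (Complex.imCLM.hasFDerivAt).comp z h1
    have hd : HasFDerivAt (deriv H) ((ContinuousLinearMap.toSpanSingleton ℂ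
        (deriv (deriv H) δ)).restrictScalars ℝ) δ :=
      (hH.deriv.differentiableAt.hasDerivAt.hasFDerivAt).restrictScalars ℝ
    have hP : HasFDerivAt (fun z => (Complex.imCLM.comp ((ContinuousLinearMap.toSpanSingleton ℂ
        (deriv H z)).restrictScalars ℝ)) 1)
        (Complex.imCLM.comp ((ContinuousLinearMap.toSpanSingleton ℂ
        (deriv (deriv H) δ)).restrictScalars ℝ)) δ := by
      refine ((Complex.imCLM.hasFDerivAt).comp δ hd).congr_of_eventuallyEq
        (Eventually.of_forall ?_)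
      intro z
      simp
    have hQ : HasFDerivAt (fun z => (Complex.imCLM.comp ((ContinuousLinearMap.toSpanSingleton ℂ
        (deriv H z)).restrictScalars ℝ)) Complex.I)
        (Complex.reCLM.comp ((ContinuousLinearMap.toSpanSingleton ℂ
        (deriv (deriv H) δ)).restrictScalars ℝ)) δ := by
      refine ((Complex.reCLM.hasFDerivAt).comp δ hd).congr_of_eventuallyEq
        (Eventually.of_forall ?_)
      intro z
      simp
    refine ⟨?_, ?_⟩
    · rw [lap_exp (hev.mono h0) hP hQ]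
      have h5 : ‖deriv H δ‖ ^ 2 = (deriv H δ).re ^ 2 + (deriv H δ).im ^ 2 := by
        rw [← Complex.normSq_eq_norm_sq, Complex.normSq_apply]; ring
      rw [h5]
      simp
      ring
    · refine (fderiv_exp (h0 δ hH)).trans ?_
      have h6 : ‖Complex.exp (Complex.I * ((H δ).im : ℂ))‖ = 1 := by
        rw [mul_comm]
        exact Complex.norm_exp_ofReal_mul_I _
      rw [h6, one_mul, Complex.norm_I, one_mul]
      refine (ContinuousLinearMap.opNorm_comp_le _ _).trans ?_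
      rw [Complex.imCLM_norm, one_mul]
      refine ContinuousLinearMap.opNorm_le_bound _ (norm_nonneg _) ?_
      intro v
      simp [mul_comm]

end Pool.Agent.Lib.MP_dd244f_an.Four
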