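import Pool.Agent.Lib.MP_dd244f_an.Four.Basic

/-!
Full operator, `p = 4`: weighted almost orthogonality.
-/

set_option autoImplicit false

namespace Pool.Agent.Lib.MP_dd244f_an.Four

open MeasureTheory Filter Topology Finset

namespace LocL2

open scoped Convolution

lemma continuous_KK {ρ : ℝ} (hρ : 0 < ρ) : Continuous (KK ρ) := by
  unfold KK
  refine Continuous.div (by fun_prop) (by fun_prop) fun x => ?_
  positivity

/-- multiplication of an integrable function by a continuous bounded function -/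
lemma integrable_mul_bdd {F : Type} [NormedRing F] [NormedAlgebra ℝ F]
    {f g : ℂ → F} (hf : Integrable f) (hg : AEStronglyMeasurable g volume) {B : ℝ}
    (hB : ∀ x, ‖g x‖ ≤ B) : Integrable (fun x => f x * g x) := by
  refine Integrable.mono' (hf.norm.mul_const B) (hf.aestronglyMeasurable.mul hg)
    (Eventually.of_forall fun x => ?_)
  exact (norm_mul_le _ _).trans (mul_le_mul_of_nonneg_left (hB x) (norm_nonneg _))

section KK

variable (hK : StmtKK) {τ : ℝ} (hτ : 0 < τ) {φ : ℂ → ℝ} (hc : Continuous φ) {B : ℝ}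
  (hB : ∀ x, ‖φ x‖ ≤ B)

include hK hτ in
lemma int_KK_sub (x : ℂ) : Integrable (fun y => KK τ (x - y)) :=
  (hK.1 τ hτ).1.comp_sub_left x

include hK hτ in
lemma integral_KK_sub (x : ℂ) : ∫ y, KK τ (x - y) = Real.pi := by
  rw [integral_sub_left_eq_self (KK τ) volume x]
  exact (hK.1 τ hτ).2.1

include hK hτ hc hB in
lemma cs_KK (x : ℂ) : (∫ y, KK τ (x - y) * φ y) ^ 2 ≤ Real.pi * ∫ y, KK τ (x - y) * φ y ^ 2 := by
  have h1 := int_KK_sub hK hτ x
  have h2 : Integrable (fun y => KK τ (x - y) * φ y) :=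
    integrable_mul_bdd h1 hc.aestronglyMeasurable hB
  have h3 : Integrable (fun y => KK τ (x - y) * φ y ^ 2) := by
    refine integrable_mul_bdd (B := B ^ 2) h1 (hc.pow 2).aestronglyMeasurable fun y => ?_
    rw [norm_pow]
    exact pow_le_pow_left₀ (norm_nonneg _) (hB y) 2
  set b := ∫ y, KK τ (x - y) * φ y with hb
  set A := ∫ y, KK τ (x - y) * φ y ^ 2 with hA
  have hpi := Real.pi_pos
  have h4 : 0 ≤ ∫ y, KK τ (x - y) * (φ y - b / Real.pi) ^ 2 :=
    integral_nonneg fun y => mul_nonneg ((hK.1 τ hτ).2.2 _).1.le (sq_nonneg _)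
  have h5 : ∫ y, KK τ (x - y) * (φ y - b / Real.pi) ^ 2 =
      A - 2 * (b / Real.pi) * b + (b / Real.pi) ^ 2 * Real.pi := by
    have e : ∀ y, KK τ (x - y) * (φ y - b / Real.pi) ^ 2 =
        KK τ (x - y) * φ y ^ 2 - 2 * (b / Real.pi) * (KK τ (x - y) * φ y) +
          (b / Real.pi) ^ 2 * KK τ (x - y) := fun y => by ring
    simp_rw [e]
    have h6 : Integrable (fun y => KK τ (x - y) * φ y ^ 2 -
        2 * (b / Real.pi) * (KK τ (x - y) * φ y)) := h3.sub (h2.const_mul _)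
    rw [integral_add h6 (h1.const_mul _),
      integral_sub h3 (h2.const_mul _), integral_const_mul, integral_const_mul,
      integral_KK_sub hK hτ x]
  rw [h5] at h4
  have h6 : A - 2 * (b / Real.pi) * b + (b / Real.pi) ^ 2 * Real.pi = A - b ^ 2 / Real.pi := by
    field_simp
    ring
  rw [h6] at h4
  have h7 : b ^ 2 / Real.pi ≤ A := by linarith
  rw [div_le_iff₀ hpi] at h7
  linarith

include hK hτ in
/-- the transform of a nonnegative integrable function by `KK` -/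
lemma conv_int (ψ : ℂ → ℝ) (hψ : Integrable ψ) :
    Integrable (fun x => ∫ y, KK τ (x - y) * ψ y) ∧
      ∫ x, ∫ y, KK τ (x - y) * ψ y = Real.pi * ∫ y, ψ y := by
  have e : (fun x => ∫ y, KK τ (x - y) * ψ y) =
      (ψ ⋆[ContinuousLinearMap.mul ℝ ℝ, volume] KK τ) := by
    ext x
    rw [convolution_def]
    refine integral_congr_ae (Eventually.of_forall fun y => ?_)
    simp [mul_comm]
  rw [e]
  refine ⟨hψ.integrable_convolution _ (hK.1 τ hτ).1, ?_⟩
  have := integral_convolution (μ := (volume : Measure ℂ)) (ν := (volume : Measure ℂ))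
    (ContinuousLinearMap.mul ℝ ℝ) hψ (hK.1 τ hτ).1
  rw [this, (hK.1 τ hτ).2.1]
  simp [mul_comm]

lemma meas_conv (k : ℂ → ℝ) (hk : Continuous k) (hc : Continuous φ) :
    AEStronglyMeasurable (fun x => ∫ y, k (x - y) * φ y) volume := by
  have h : Continuous (fun z : ℂ × ℂ => k (z.1 - z.2) * φ z.2) := by fun_prop
  exact (h.stronglyMeasurable.integral_prod_right' (ν := (volume : Measure ℂ))).aestronglyMeasurable

include hK hτ hc hB in
lemma l2_KK (h2 : Integrable (fun x => φ x ^ 2)) :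
    Integrable (fun x => (∫ y, KK τ (x - y) * φ y) ^ 2) ∧
      ∫ x, (∫ y, KK τ (x - y) * φ y) ^ 2 ≤ Real.pi ^ 2 * ∫ x, φ x ^ 2 := by
  have h := conv_int hK hτ _ h2
  have hi : Integrable (fun x => (∫ y, KK τ (x - y) * φ y) ^ 2) := by
    refine Integrable.mono' (h.1.const_mul Real.pi)
      ((meas_conv _ (continuous_KK hτ) hc).pow 2) (Eventually.of_forall fun x => ?_)
    rw [Real.norm_eq_abs, abs_of_nonneg (sq_nonneg _)]
    exact cs_KK hK hτ hc hB x
  refine ⟨hi, ?_⟩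
  calc ∫ x, (∫ y, KK τ (x - y) * φ y) ^ 2
      ≤ ∫ x, Real.pi * ∫ y, KK τ (x - y) * φ y ^ 2 :=
        integral_mono hi (h.1.const_mul _) fun x => cs_KK hK hτ hc hB x
    _ = Real.pi ^ 2 * ∫ x, φ x ^ 2 := by
        rw [integral_const_mul, h.2]; ring

end KK

/-! ### the kernel -/

/-- a continuous kernel dominated by `KK` -/
structure Ker (C τ : ℝ) (k : ℂ → ℂ) : Prop where
  cont : Continuous k
  bound : ∀ x, ‖k x‖ ≤ C * KK τ x

section Ker

variable (hK : StmtKK) {C τ : ℝ} (hC : 0 < C) (hτ : 0 < τ) {k : ℂ → ℂ} (hk : Ker C τ k)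

include hK hτ hk in
lemma Ker.integrable : Integrable k := by
  refine Integrable.mono' ((hK.1 τ hτ).1.const_mul C) hk.cont.aestronglyMeasurable
    (Eventually.of_forall hk.bound)

variable {φ : ℂ → ℂ} (hc : Continuous φ) {B : ℝ} (hB : ∀ x, ‖φ x‖ ≤ B) (h1 : Integrable φ)
  (h2 : Integrable (fun x => ‖φ x‖ ^ 2))

include hK hτ hk hc hB in
lemma norm_conv_le (x : ℂ) :
    ‖∫ y, k (x - y) * φ y‖ ≤ C * ∫ y, KK τ (x - y) * ‖φ y‖ := by
  rw [← integral_const_mul]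
  refine norm_integral_le_of_norm_le ?_ (Eventually.of_forall fun y => ?_)
  · exact (integrable_mul_bdd (int_KK_sub hK hτ x) hc.norm.aestronglyMeasurable
      (fun y => by simpa using hB y)).const_mul C
  · rw [norm_mul, ← mul_assoc]
    exact mul_le_mul_of_nonneg_right (hk.bound _) (norm_nonneg _)

include hk hc in
lemma meas_convC : AEStronglyMeasurable (fun x => ∫ y, k (x - y) * φ y) volume := by
  have hkc := hk.cont
  have h : Continuous (fun z : ℂ × ℂ => k (z.1 - z.2) * φ z.2) := by fun_prop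
  exact (h.stronglyMeasurable.integral_prod_right' (ν := (volume : Measure ℂ))).aestronglyMeasurable

lemma convC_eq (x : ℂ) : ∫ y, k (x - y) * φ y =
    (φ ⋆[ContinuousLinearMap.mul ℝ ℂ, volume] k) x := by
  rw [convolution_def]
  refine integral_congr_ae (Eventually.of_forall fun y => ?_)
  simp [mul_comm]

include hK hC hτ hk hc hB h1 h2 in
lemma conv_l1l2 : Integrable (fun x => ∫ y, k (x - y) * φ y) ∧
    MemLp (fun x => ∫ y, k (x - y) * φ y) 2 volume := by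
  constructor
  · have e : (fun x => ∫ y, k (x - y) * φ y) =
        (φ ⋆[ContinuousLinearMap.mul ℝ ℂ, volume] k) := funext fun x => convC_eq x
    rw [e]
    exact h1.integrable_convolution _ (hk.integrable hK hτ)
  · rw [memLp_two_iff_integrable_sq_norm (meas_convC hk hc)]
    have h := l2_KK hK hτ hc.norm (fun y => by simpa using hB y) h2
    refine Integrable.mono' (h.1.const_mul (C ^ 2)) ((meas_convC hk hc).norm.pow 2)
      (Eventually.of_forall fun x => ?_)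
    rw [Real.norm_eq_abs, abs_of_nonneg (sq_nonneg _), ← mul_pow]
    exact pow_le_pow_left₀ (norm_nonneg _) (norm_conv_le hK hτ hk hc hB x) 2

include hK hτ hk hc h1 in
/-- the transform of a convolution -/
lemma iF_conv (ξ : ℂ) : iF (fun x => ∫ y, k (x - y) * φ y) ξ = iF φ ξ * iF k ξ := by
  have hki := hk.integrable hK hτ
  have hki' : Integrable (fun x => ch ξ x * k x) := by
    have := integrable_mul_bdd (B := 1) hki (continuous_ch ξ).aestronglyMeasurable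
      (fun x => (norm_ch ξ x).le)
    simpa [mul_comm] using this
  have h1' : Integrable (fun x => ch ξ x * φ x) := by
    have := integrable_mul_bdd (B := 1) h1 (continuous_ch ξ).aestronglyMeasurable
      (fun x => (norm_ch ξ x).le)
    simpa [mul_comm] using this
  have := integral_convolution (μ := (volume : Measure ℂ)) (ν := (volume : Measure ℂ))
    (ContinuousLinearMap.mul ℝ ℂ) h1' hki'
  rw [iF, iF, iF]
  rw [ContinuousLinearMap.mul_apply'] at this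
  rw [← this]
  refine integral_congr_ae (Eventually.of_forall fun x => ?_)
  simp only
  rw [← integral_const_mul, convolution_def]
  refine integral_congr_ae (Eventually.of_forall fun y => ?_)
  simp only [ContinuousLinearMap.mul_apply']
  have : ch ξ x = ch ξ y * ch ξ (x - y) := by rw [← ch_add_right]; congr 1; ring
  rw [this]; ring

include hK hτ hk in
/-- the transform of the kernel of a multiplier -/
lemma iF_kernel (hBa : StmtBase) (χ : ℂ → ℝ) (hχ : Continuous χ)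
    (h : ∀ g, CC g → iF (cut χ g) 0 = ∫ y, k (0 - y) * iF g y) (ξ : ℂ) :
    iF k ξ = (χ (-ξ) : ℂ) := by
  have hki := hk.integrable hK hτ
  have hkc := hk.cont
  -- the Fourier transform of the kernel is continuous
  have hcont : Continuous (fun ζ => iF k (-ζ)) := by
    unfold iF
    refine continuous_of_dominated (bound := fun y => ‖k y‖) (fun ζ => ?_) (fun ζ => ?_) hki.norm
      (Eventually.of_forall fun y => ?_)
    · exact ((continuous_ch _).mul hkc).aestronglyMeasurable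
    · refine Eventually.of_forall fun y => ?_
      rw [norm_mul, norm_ch, one_mul]
    · have h1 : Continuous (fun ζ : ℂ => ch (-ζ) y) := by
        unfold ch; fun_prop
      exact h1.mul continuous_const
  have hD : Continuous (fun ζ => (χ ζ : ℂ) - iF k (-ζ)) := by
    have : Continuous (fun ζ => (χ ζ : ℂ)) := Complex.continuous_ofReal.comp hχ
    exact this.sub hcont
  have hae : ∀ᵐ ζ ∂(volume : Measure ℂ), (χ ζ : ℂ) - iF k (-ζ) = 0 := by
    refine ae_eq_zero_of_integral_contDiff_smul_eq_zero hD.locallyIntegrable fun g hg hgs => ?_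
    have hgc : CC (fun ζ => (g ζ : ℂ)) :=
      ⟨Complex.continuous_ofReal.comp hg.continuous, hgs.comp_left (g := fun r : ℝ => (r : ℂ)) rfl⟩
    have hgi : Integrable (fun ζ => (g ζ : ℂ)) := hgc.1.integrable_of_hasCompactSupport hgc.2
    have h1 := h _ hgc
    have h2 : iF (cut χ (fun ζ => (g ζ : ℂ))) 0 = ∫ ζ, (g ζ : ℂ) * (χ ζ : ℂ) := by
      unfold iF cut
      refine integral_congr_ae (Eventually.of_forall fun ζ => ?_)
      simp only [ch_zero_left]
      ring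
    have h3 : ∫ y, k (0 - y) * iF (fun ζ => (g ζ : ℂ)) y = ∫ ζ, (g ζ : ℂ) * iF k (-ζ) := by
      have h4 : ∀ y, k (0 - y) * iF (fun ζ => (g ζ : ℂ)) y =
          ∫ ζ, k (0 - y) * (ch y ζ * (g ζ : ℂ)) := fun y => by
        rw [iF, integral_const_mul]
      simp_rw [h4]
      rw [integral_integral_swap]
      · refine integral_congr_ae (Eventually.of_forall fun ζ => ?_)
        simp only
        have h5 : ∀ y, k (0 - y) * (ch y ζ * (g ζ : ℂ)) =
            (g ζ : ℂ) * (fun z => ch (-ζ) z * k z) (0 - y) := fun y => by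
          simp only [zero_sub]
          have : ch y ζ = ch (-ζ) (-y) := by
            rw [ch_comm (-ζ), ch_comm y ζ, ch_neg_left, ch_comm]
            simp
          rw [this]; ring
        simp_rw [h5]
        rw [integral_const_mul, integral_sub_left_eq_self (fun z => ch (-ζ) z * k z) volume 0, iF]
      · have h6 : Integrable (fun z : ℂ × ℂ => k (0 - z.1) * (g z.2 : ℂ))
            ((volume : Measure ℂ).prod volume) := (hki.comp_sub_left 0).mul_prod hgi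
        have h7 := h6.norm
        refine Integrable.mono' h7 ?_ (Eventually.of_forall fun z => ?_)
        · have hc2 := continuous_ch2
          have hgc' := hgc.1
          have : Continuous (Function.uncurry fun (y ζ : ℂ) => k (0 - y) * (ch y ζ * (g ζ : ℂ))) := by
            unfold Function.uncurry
            fun_prop
          exact this.aestronglyMeasurable
        · simp only [Function.uncurry, norm_mul, norm_ch, one_mul]
          exact le_rfl
    rw [h2, h3] at h1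
    have h8 : ∀ ζ, g ζ • ((χ ζ : ℂ) - iF k (-ζ)) =
        (g ζ : ℂ) * (χ ζ : ℂ) - (g ζ : ℂ) * iF k (-ζ) := fun ζ => by
      rw [Complex.real_smul]; ring
    simp_rw [h8]
    rw [integral_sub, h1, sub_self]
    · exact (hgc.1.mul (Complex.continuous_ofReal.comp hχ)).integrable_of_hasCompactSupport
        hgc.2.mul_right
    · exact (hgc.1.mul hcont).integrable_of_hasCompactSupport hgc.2.mul_right
  have hzero : (fun ζ => (χ ζ : ℂ) - iF k (-ζ)) = fun _ => 0 :=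
    (Continuous.ae_eq_iff_eq volume hD continuous_const).1 hae
  have := congrFun hzero (-ξ)
  simp only [neg_neg] at this
  exact (sub_eq_zero.1 this).symm

end Ker

/-! ### the shells -/

lemma sh_bounds (hF : StmtFac) (b : ℤ) (ζ : ℂ) : 0 ≤ sh b ζ ∧ sh b ζ ≤ 1 := by
  obtain ⟨h1, h2, h3, -⟩ := hF
  have hp : (0 : ℝ) < (2 : ℝ) ^ b := by positivity
  have e : (2 : ℝ) ^ (b + 1) = 2 * (2 : ℝ) ^ b := by rw [zpow_add₀ (by norm_num)]; ring
  unfold sh bd
  constructor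
  · rcases le_total ‖ζ‖ ((2 : ℝ) ^ (b + 1)) with h | h
    · rw [h2 (b + 1) ζ h]
      linarith [(h1 b ζ).2]
    · rw [h3 b ζ]
      · linarith [(h1 (b + 1) ζ).1]
      · rw [e] at h
        nlinarith
  · linarith [(h1 b ζ).1, (h1 (b + 1) ζ).2]

lemma subset_image (A : Finset ℤ) (a : ℤ) (h : ∀ b ∈ A, a ≤ b) :
    ∃ k : ℕ, A ⊆ (Finset.range k).image (fun i : ℕ => a + (i : ℤ)) := by
  obtain ⟨M, hM⟩ := A.bddAbove
  refine ⟨(M - a + 1).toNat, fun b hb => ?_⟩
  have h1 := h b hb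
  have h2 : b ≤ M := hM hb
  rw [Finset.mem_image]
  refine ⟨(b - a).toNat, ?_, ?_⟩
  · rw [Finset.mem_range]; omega
  · omega

lemma sum_le_range (A : Finset ℤ) (a : ℤ) (h : ∀ b ∈ A, a ≤ b) (f : ℤ → ℝ) (hf : ∀ b, 0 ≤ f b) :
    ∃ k : ℕ, ∑ b ∈ A, f b ≤ ∑ i ∈ Finset.range k, f (a + i) := by
  obtain ⟨k, hk⟩ := subset_image A a h
  refine ⟨k, (Finset.sum_le_sum_of_subset_of_nonneg hk fun b _ _ => hf b).trans ?_⟩
  rw [Finset.sum_image]
  intro i _ j _ hij
  have : (i : ℤ) = j := by simpa using hij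
  exact_mod_cast this

lemma sum_sh_sq_le (hF : StmtFac) (A : Finset ℤ) (ζ : ℂ) : ∑ b ∈ A, sh b ζ ^ 2 ≤ 1 := by
  obtain ⟨m, hm⟩ := A.bddBelow
  obtain ⟨k, hk⟩ := sum_le_range A m (fun b hb => hm hb) (fun b => sh b ζ)
    (fun b => (sh_bounds hF b ζ).1)
  calc ∑ b ∈ A, sh b ζ ^ 2 ≤ ∑ b ∈ A, sh b ζ := by
        refine Finset.sum_le_sum fun b _ => ?_
        have := sh_bounds hF b ζ
        nlinarith
    _ ≤ ∑ i ∈ Finset.range k, sh (m + i) ζ := hk
    _ = bd m (m + k) ζ := sum_sh m k ζ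
    _ ≤ 1 := by
        unfold bd
        linarith [(hF.1 m ζ).1, (hF.1 (m + k) ζ).2]

lemma sum_geom_le (A : Finset ℤ) (a : ℤ) (h : ∀ b ∈ A, a ≤ b) :
    ∑ b ∈ A, ((2 : ℝ) ^ (a - b)) ^ 2 ≤ 2 := by
  obtain ⟨k, hk⟩ := sum_le_range A a h (fun b => ((2 : ℝ) ^ (a - b)) ^ 2) (fun b => by positivity)
  refine hk.trans ?_
  have e : ∀ i : ℕ, ((2 : ℝ) ^ (a - (a + (i : ℤ)))) ^ 2 = (1 / 4 : ℝ) ^ i := by
    intro i
    have : a - (a + (i : ℤ)) = -(i : ℤ) := by ring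
    rw [this, zpow_neg, zpow_natCast, inv_pow, ← pow_mul, mul_comm i 2, pow_mul, one_div, inv_pow]
    norm_num
  simp_rw [e]
  have h1 : ∑ i ∈ Finset.range k, (1 / 4 : ℝ) ^ i ≤ ∑' i : ℕ, (1 / 4 : ℝ) ^ i :=
    (summable_geometric_of_lt_one (by norm_num) (by norm_num)).sum_le_tsum _
      (fun i _ => by positivity)
  rw [tsum_geometric_of_lt_one (by norm_num) (by norm_num)] at h1
  norm_num at h1 ⊢
  linarith

/-! ### one weight -/

/-- the square root of `KK ρ` -/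
noncomputable def uu (ρ : ℝ) (x : ℂ) : ℝ := ρ / (ρ ^ 2 + ‖x‖ ^ 2)

lemma uu_sq (ρ : ℝ) (x : ℂ) : uu ρ x ^ 2 = KK ρ x := by
  unfold uu KK
  rw [div_pow]

lemma uu_pos {ρ : ℝ} (hρ : 0 < ρ) (x : ℂ) : 0 < uu ρ x := by
  unfold uu
  positivity

lemma uu_le {ρ : ℝ} (hρ : 0 < ρ) (x : ℂ) : uu ρ x ≤ 1 / ρ := by
  unfold uu
  rw [div_le_div_iff₀ (by positivity) hρ]
  nlinarith [sq_nonneg ‖x‖]

lemma continuous_uu {ρ : ℝ} (hρ : 0 < ρ) : Continuous (uu ρ) := by
  unfold uu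
  refine Continuous.div (by fun_prop) (by fun_prop) fun x => ?_
  positivity

lemma uu_sub_le {ρ : ℝ} (hρ : 0 < ρ) (x y : ℂ) :
    |uu ρ x - uu ρ y| ≤ (‖x - y‖ / ρ + ‖x - y‖ ^ 2 / ρ ^ 2) * uu ρ y := by
  set h := ‖x - y‖ with hh
  have h0 : 0 ≤ h := norm_nonneg _
  have hy1 : ‖y‖ ≤ ‖x‖ + h := by
    have := norm_sub_norm_le y x
    rw [norm_sub_rev] at this
    linarith
  have hx1 : ‖x‖ ≤ ‖y‖ + h := by
    have := norm_sub_norm_le x y
    linarith
  have hx0 := norm_nonneg x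
  have hy0 := norm_nonneg y
  have e : uu ρ x - uu ρ y = uu ρ y * ((‖y‖ ^ 2 - ‖x‖ ^ 2) / (ρ ^ 2 + ‖x‖ ^ 2)) := by
    unfold uu
    field_simp
    ring
  rw [e, abs_mul, abs_of_pos (uu_pos hρ y), mul_comm]
  refine mul_le_mul_of_nonneg_right ?_ (uu_pos hρ y).le
  rw [abs_div, abs_of_pos (by positivity : 0 < ρ ^ 2 + ‖x‖ ^ 2)]
  rw [div_add_div _ _ hρ.ne' (by positivity), div_le_div_iff₀ (by positivity) (by positivity)]
  have h1 : |‖y‖ ^ 2 - ‖x‖ ^ 2| ≤ h * (2 * ‖x‖ + h) := by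
    rw [abs_le]
    constructor
    · nlinarith
    · nlinarith
  have h2 : 2 * ‖x‖ * ρ ≤ ρ ^ 2 + ‖x‖ ^ 2 := by nlinarith [sq_nonneg (ρ - ‖x‖)]
  have h3 : h * (2 * ‖x‖ + h) * (ρ * ρ ^ 2) ≤
      (h * ρ ^ 2 + ρ * h ^ 2) * (ρ ^ 2 + ‖x‖ ^ 2) := by
    have h4 : h * ρ ^ 2 * (2 * ‖x‖ * ρ) ≤ h * ρ ^ 2 * (ρ ^ 2 + ‖x‖ ^ 2) :=
      mul_le_mul_of_nonneg_left h2 (by positivity)
    have h5 : ρ * h ^ 2 * ρ ^ 2 ≤ ρ * h ^ 2 * (ρ ^ 2 + ‖x‖ ^ 2) :=
      mul_le_mul_of_nonneg_left (by nlinarith [sq_nonneg ‖x‖]) (by positivity)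
    nlinarith
  calc |‖y‖ ^ 2 - ‖x‖ ^ 2| * (ρ * ρ ^ 2) ≤ h * (2 * ‖x‖ + h) * (ρ * ρ ^ 2) :=
        mul_le_mul_of_nonneg_right h1 (by positivity)
    _ ≤ _ := h3

/-- the kernel of the shell `b` -/
noncomputable def kb (ks : ℂ → ℂ) (b : ℤ) (x : ℂ) : ℂ :=
  (((4 : ℝ) ^ b : ℝ) : ℂ) * ks (((2 : ℝ) ^ b : ℝ) * x)

lemma KK_two (b : ℤ) (x : ℂ) :
    KK ((2 : ℝ) ^ (-b)) x = (4 : ℝ) ^ b / (1 + ((2 : ℝ) ^ b * ‖x‖) ^ 2) ^ 2 := by
  unfold KK
  have e : (4 : ℝ) ^ b = ((2 : ℝ) ^ b) ^ 2 := by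
    rw [← zpow_natCast, ← zpow_mul, mul_comm, zpow_mul]; norm_num
  have hp : (2 : ℝ) ^ b ≠ 0 := by positivity
  rw [zpow_neg, e]
  field_simp

lemma kb_bounds {C : ℝ} (hC : 0 < C) {ks : ℂ → ℂ} (bs : ∀ x, ‖ks x‖ ≤ C / (1 + ‖x‖ ^ 2) ^ 4)
    (b : ℤ) (x : ℂ) :
    ‖kb ks b x‖ ≤ C * KK ((2 : ℝ) ^ (-b)) x ∧
    ∀ a : ℤ, a ≤ b → ‖kb ks b x‖ * (‖x‖ / (2 : ℝ) ^ (-a) + ‖x‖ ^ 2 / ((2 : ℝ) ^ (-a)) ^ 2) ≤
      (2 * C * (2 : ℝ) ^ (a - b)) * KK ((2 : ℝ) ^ (-b)) x := by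
  have hp : (0 : ℝ) < (2 : ℝ) ^ b := by positivity
  have h4 : (0 : ℝ) < (4 : ℝ) ^ b := by positivity
  have hn : ‖((((2 : ℝ) ^ b : ℝ) : ℂ)) * x‖ = (2 : ℝ) ^ b * ‖x‖ := by
    rw [norm_mul, Complex.norm_real, Real.norm_eq_abs, abs_of_pos hp]
  set t := (2 : ℝ) ^ b * ‖x‖ with ht
  have ht0 : 0 ≤ t := by positivity
  have h1 : ‖kb ks b x‖ ≤ (4 : ℝ) ^ b * (C / (1 + t ^ 2) ^ 4) := by
    unfold kb
    rw [norm_mul, Complex.norm_real, Real.norm_eq_abs, abs_of_pos h4]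
    refine mul_le_mul_of_nonneg_left ?_ h4.le
    have := bs ((((2 : ℝ) ^ b : ℝ) : ℂ) * x)
    rwa [hn] at this
  have hK : KK ((2 : ℝ) ^ (-b)) x = (4 : ℝ) ^ b / (1 + t ^ 2) ^ 2 := KK_two b x
  have hT : 1 ≤ 1 + t ^ 2 := by nlinarith
  constructor
  · refine h1.trans ?_
    rw [hK]
    rw [← mul_div_assoc, ← mul_div_assoc, div_le_div_iff₀ (by positivity) (by positivity)]
    have : (1 + t ^ 2) ^ 2 ≤ (1 + t ^ 2) ^ 4 := pow_le_pow_right₀ hT (by norm_num)
    calc (4 : ℝ) ^ b * C * (1 + t ^ 2) ^ 2 ≤ (4 : ℝ) ^ b * C * (1 + t ^ 2) ^ 4 :=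
          mul_le_mul_of_nonneg_left this (by positivity)
      _ = C * (4 : ℝ) ^ b * (1 + t ^ 2) ^ 4 := by ring
  · intro a hab
    set s := (2 : ℝ) ^ (a - b) with hs
    have hs0 : 0 < s := by positivity
    have hs1 : s ≤ 1 := zpow_le_one_of_nonpos₀ (by norm_num) (by omega)
    have e1 : ‖x‖ / (2 : ℝ) ^ (-a) = s * t := by
      rw [ht, hs, zpow_neg, div_inv_eq_mul, zpow_sub₀ (by norm_num)]
      field_simp
    have e2 : ‖x‖ ^ 2 / ((2 : ℝ) ^ (-a)) ^ 2 = (s * t) ^ 2 := by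
      rw [← e1, div_pow]
    rw [e1, e2, hK]
    have h5 : s * t + (s * t) ^ 2 ≤ s * (2 * (1 + t ^ 2)) := by
      have h6 : (s * t) ^ 2 ≤ s * t ^ 2 := by
        have : s * s ≤ s * 1 := mul_le_mul_of_nonneg_left hs1 hs0.le
        nlinarith [sq_nonneg t]
      nlinarith [sq_nonneg (t - 1), mul_nonneg hs0.le (sq_nonneg (t - 1))]
    calc ‖kb ks b x‖ * (s * t + (s * t) ^ 2)
        ≤ ((4 : ℝ) ^ b * (C / (1 + t ^ 2) ^ 4)) * (s * (2 * (1 + t ^ 2))) :=
          mul_le_mul h1 h5 (by positivity) (by positivity)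
      _ = 2 * C * s * ((4 : ℝ) ^ b / (1 + t ^ 2) ^ 3) := by
          field_simp
      _ ≤ 2 * C * s * ((4 : ℝ) ^ b / (1 + t ^ 2) ^ 2) := by
          refine mul_le_mul_of_nonneg_left ?_ (by positivity)
          refine div_le_div_of_nonneg_left h4.le (by positivity) ?_
          exact pow_le_pow_right₀ hT (by norm_num)

lemma integrable_KK_mul {ρ : ℝ} (hρ : 0 < ρ) (hK : StmtKK) {F : ℂ → ℝ}
    (hF : Integrable F) (y : ℂ) : Integrable (fun x => KK ρ (x - y) * F x) := by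
  have h := integrable_mul_bdd (B := 1 / ρ ^ 2) hF
    (g := fun x => KK ρ (x - y)) ((continuous_KK hρ).comp (by fun_prop)).aestronglyMeasurable
    (fun x => by
      have := (hK.1 ρ hρ).2.2 (x - y)
      rw [Real.norm_eq_abs, abs_of_pos this.1]
      exact this.2)
  simpa [mul_comm] using h

lemma single (hKer : StmtKer) (hK : StmtKK) (hB : StmtBase) (hL : StmtL2) (hF : StmtFac) :
    ∃ C, 0 < C ∧ ∀ (a : ℤ) (A : Finset ℤ), (∀ b ∈ A, a ≤ b) → ∀ g, CC g →
      ∑ b ∈ A, ∫ x, KK ((2 : ℝ) ^ (-a)) x * ‖iF (cut (sh b) g) x‖ ^ 2 ≤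
        C * ∫ x, KK ((2 : ℝ) ^ (-a)) x * ‖iF g x‖ ^ 2 := by
  obtain ⟨C, kl, ks, hC, -, hks, -, bs, hker⟩ := hKer
  refine ⟨2 + 16 * C ^ 2 * Real.pi ^ 2, by positivity, fun a A hA g hg => ?_⟩
  set ρ : ℝ := (2 : ℝ) ^ (-a) with hρdef
  have hρ : 0 < ρ := by positivity
  obtain ⟨hfc, ⟨B0, hfB⟩, hf2, -, -⟩ := hB.1 g hg
  have hB0 : 0 ≤ B0 := (norm_nonneg _).trans (hfB 0)
  set f := iF g with hf
  set φ : ℂ → ℂ := fun x => (uu ρ x : ℂ) * f x with hφ
  have huc : Continuous (fun x => (uu ρ x : ℂ)) := Complex.continuous_ofReal.comp (continuous_uu hρ)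
  have hφc : Continuous φ := huc.mul hfc
  have hφn : ∀ x, ‖φ x‖ = uu ρ x * ‖f x‖ := fun x => by
    rw [hφ]
    simp only [norm_mul, Complex.norm_real, Real.norm_eq_abs, abs_of_pos (uu_pos hρ x)]
  have hφB : ∀ x, ‖φ x‖ ≤ 1 / ρ * B0 := fun x => by
    rw [hφn]
    exact mul_le_mul (uu_le hρ x) (hfB x) (norm_nonneg _) (by positivity)
  have hφ2e : ∀ x, ‖φ x‖ ^ 2 = KK ρ x * ‖f x‖ ^ 2 := fun x => by
    rw [hφn, mul_pow, uu_sq]
  have hφ2 : Integrable (fun x => ‖φ x‖ ^ 2) := by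
    simp_rw [hφ2e]
    simpa using integrable_KK_mul hρ hK hf2 0
  have hφ1 : Integrable φ := by
    refine Integrable.mono' ((hK.1 ρ hρ).1.add hf2) hφc.aestronglyMeasurable
      (Eventually.of_forall fun x => ?_)
    rw [hφn, Pi.add_apply, ← uu_sq]
    nlinarith [sq_nonneg (uu ρ x - ‖f x‖), sq_nonneg (uu ρ x), sq_nonneg ‖f x‖]
  have hφM : MemLp φ 2 volume := by
    rw [memLp_two_iff_integrable_sq_norm hφc.aestronglyMeasurable]
    exact hφ2
  set I : ℝ := ∫ x, ‖φ x‖ ^ 2 with hI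
  have hI0 : 0 ≤ I := integral_nonneg fun x => sq_nonneg _
  obtain ⟨hL1, hL2⟩ := hL φ hφ1 hφM
  have hL1' : Integrable (fun x => ‖iF φ x‖ ^ 2) :=
    (memLp_two_iff_integrable_sq_norm hL1.1).1 hL1
  -- one shell
  have hone : ∀ b ∈ A, ∫ x, KK ρ x * ‖iF (cut (sh b) g) x‖ ^ 2 ≤
      2 * (∫ ξ, ‖iF φ ξ‖ ^ 2 * sh b (-ξ) ^ 2) +
        2 * ((2 * C * (2 : ℝ) ^ (a - b)) ^ 2 * (Real.pi ^ 2 * I)) := by
    intro b hb
    have hab := hA b hb
    set τ : ℝ := (2 : ℝ) ^ (-b) with hτdef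
    have hτ : 0 < τ := by positivity
    have hkbc : Continuous (kb ks b) := by
      unfold kb; fun_prop
    have hk : Ker C τ (kb ks b) := ⟨hkbc, fun x => (kb_bounds hC bs b x).1⟩
    have hki := hk.integrable hK hτ
    set m : ℂ → ℂ := fun x => ∫ y, kb ks b (x - y) * φ y with hm
    set K2 : ℂ → ℝ := fun x => ∫ y, KK τ (x - y) * ‖φ y‖ with hK2
    obtain ⟨hm1, hmM⟩ := conv_l1l2 hK hC hτ hk hφc hφB hφ1 hφ2
    have hm2 : Integrable (fun x => ‖m x‖ ^ 2) := (memLp_two_iff_integrable_sq_norm hmM.1).1 hmM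
    have hKl2 := l2_KK hK hτ hφc.norm (fun y => by simpa using hφB y) hφ2
    -- the transform of `m`
    have hmF : ∀ ξ, iF m ξ = iF φ ξ * (sh b (-ξ) : ℂ) := fun ξ => by
      rw [hm, iF_conv hK hτ hk hφc hφ1 ξ]
      congr 1
      refine iF_kernel hK hτ hk hB (sh b) ?_ (fun g' hg' => ?_) ξ
      · unfold sh bd
        exact ((hF.2.2.2.1 (b + 1) 0).continuous).sub ((hF.2.2.2.1 b 0).continuous)
      · exact ((hker b g' hg' 0).2)
    have hmI : ∫ x, ‖m x‖ ^ 2 = ∫ ξ, ‖iF φ ξ‖ ^ 2 * sh b (-ξ) ^ 2 := by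
      rw [← (hL m hm1 hmM).2]
      refine integral_congr_ae (Eventually.of_forall fun ξ => ?_)
      simp only
      rw [hmF, norm_mul, mul_pow, Complex.norm_real, Real.norm_eq_abs, sq_abs]
    -- the decomposition
    have hdec : ∀ x, (uu ρ x : ℂ) * iF (cut (sh b) g) x =
        m x + ∫ y, kb ks b (x - y) * (((uu ρ x - uu ρ y : ℝ) : ℂ) * f y) := fun x => by
      rw [(hker b g hg x).2, ← integral_const_mul, hm]
      simp only
      rw [← integral_add]
      · refine integral_congr_ae (Eventually.of_forall fun y => ?_)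
        simp only [hφ, kb]
        push_cast
        ring
      · exact integrable_mul_bdd (hki.comp_sub_left x) hφc.aestronglyMeasurable hφB
      · refine integrable_mul_bdd (hki.comp_sub_left x) (B := 2 / ρ * B0) ?_ (fun y => ?_)
        · exact ((Complex.continuous_ofReal.comp
            (continuous_const.sub (continuous_uu hρ))).mul hfc).aestronglyMeasurable
        · rw [norm_mul, Complex.norm_real, Real.norm_eq_abs]
          refine mul_le_mul ?_ (hfB y) (norm_nonneg _) (by positivity)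
          have h1 := uu_le hρ x
          have h2 := uu_le hρ y
          have h3 := uu_pos hρ x
          have h4 := uu_pos hρ y
          have e : 2 / ρ = 1 / ρ + 1 / ρ := by ring
          rw [e, abs_le]
          constructor <;> linarith
    have hcb : ∀ x, ‖∫ y, kb ks b (x - y) * (((uu ρ x - uu ρ y : ℝ) : ℂ) * f y)‖ ≤
        (2 * C * (2 : ℝ) ^ (a - b)) * K2 x := fun x => by
      rw [hK2, ← integral_const_mul]
      refine norm_integral_le_of_norm_le ?_ (Eventually.of_forall fun y => ?_)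
      · exact (integrable_mul_bdd (int_KK_sub hK hτ x) hφc.norm.aestronglyMeasurable
          (fun y => by simpa using hφB y)).const_mul _
      · rw [norm_mul, norm_mul, Complex.norm_real, Real.norm_eq_abs]
        have h1 := uu_sub_le hρ x y
        have h2 := (kb_bounds hC bs b (x - y)).2 a hab
        calc ‖kb ks b (x - y)‖ * (|uu ρ x - uu ρ y| * ‖f y‖)
            ≤ ‖kb ks b (x - y)‖ * (((‖x - y‖ / ρ + ‖x - y‖ ^ 2 / ρ ^ 2) * uu ρ y) * ‖f y‖) :=
              mul_le_mul_of_nonneg_left (mul_le_mul_of_nonneg_right h1 (norm_nonneg _))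
                (norm_nonneg _)
          _ = (‖kb ks b (x - y)‖ * (‖x - y‖ / ρ + ‖x - y‖ ^ 2 / ρ ^ 2)) * ‖φ y‖ := by
              rw [hφn]; ring
          _ ≤ ((2 * C * (2 : ℝ) ^ (a - b)) * KK τ (x - y)) * ‖φ y‖ :=
              mul_le_mul_of_nonneg_right h2 (norm_nonneg _)
          _ = _ := by ring
    have hpt : ∀ x, KK ρ x * ‖iF (cut (sh b) g) x‖ ^ 2 ≤
        2 * ‖m x‖ ^ 2 + 2 * ((2 * C * (2 : ℝ) ^ (a - b)) ^ 2 * K2 x ^ 2) := fun x => by
      have h1 : KK ρ x * ‖iF (cut (sh b) g) x‖ ^ 2 = ‖(uu ρ x : ℂ) * iF (cut (sh b) g) x‖ ^ 2 := by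
        rw [norm_mul, mul_pow, Complex.norm_real, Real.norm_eq_abs, sq_abs, uu_sq]
      rw [h1, hdec]
      set c := ∫ y, kb ks b (x - y) * (((uu ρ x - uu ρ y : ℝ) : ℂ) * f y)
      have h2 : ‖m x + c‖ ≤ ‖m x‖ + ‖c‖ := norm_add_le _ _
      have h3 : ‖c‖ ^ 2 ≤ (2 * C * (2 : ℝ) ^ (a - b)) ^ 2 * K2 x ^ 2 := by
        rw [← mul_pow]
        exact pow_le_pow_left₀ (norm_nonneg _) (hcb x) 2
      have h4 : ‖m x + c‖ ^ 2 ≤ (‖m x‖ + ‖c‖) ^ 2 := pow_le_pow_left₀ (norm_nonneg _) h2 2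
      nlinarith [sq_nonneg (‖m x‖ - ‖c‖)]
    obtain ⟨-, -, hfb2, -, -⟩ := hB.1 _ ((hF.2.2.2.2.1 g b b hg).2.2)
    have hint1 : Integrable (fun x => KK ρ x * ‖iF (cut (sh b) g) x‖ ^ 2) := by
      simpa using integrable_KK_mul hρ hK hfb2 0
    calc ∫ x, KK ρ x * ‖iF (cut (sh b) g) x‖ ^ 2
        ≤ ∫ x, (2 * ‖m x‖ ^ 2 + 2 * ((2 * C * (2 : ℝ) ^ (a - b)) ^ 2 * K2 x ^ 2)) :=
          integral_mono hint1 ((hm2.const_mul 2).add ((hKl2.1.const_mul _).const_mul 2)) hpt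
      _ = 2 * (∫ x, ‖m x‖ ^ 2) +
          2 * ((2 * C * (2 : ℝ) ^ (a - b)) ^ 2 * ∫ x, K2 x ^ 2) := by
          rw [integral_add (hm2.const_mul 2) ((hKl2.1.const_mul _).const_mul 2),
            integral_const_mul, integral_const_mul, integral_const_mul]
      _ ≤ _ := by
          rw [hmI]
          have h5 : (2 * C * (2 : ℝ) ^ (a - b)) ^ 2 * ∫ x, K2 x ^ 2 ≤
              (2 * C * (2 : ℝ) ^ (a - b)) ^ 2 * (Real.pi ^ 2 * I) :=
            mul_le_mul_of_nonneg_left hKl2.2 (by positivity)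
          linarith
  refine (Finset.sum_le_sum hone).trans ?_
  rw [Finset.sum_add_distrib, ← Finset.mul_sum, ← Finset.mul_sum]
  have hs1 : ∑ b ∈ A, ∫ ξ, ‖iF φ ξ‖ ^ 2 * sh b (-ξ) ^ 2 ≤ I := by
    have hint : ∀ b ∈ A, Integrable (fun ξ => ‖iF φ ξ‖ ^ 2 * sh b (-ξ) ^ 2) := fun b _ => by
      refine integrable_mul_bdd (B := 1) hL1' ?_ (fun ξ => ?_)
      · have : Continuous (sh b) := by
          unfold sh bd
          exact ((hF.2.2.2.1 (b + 1) 0).continuous).sub ((hF.2.2.2.1 b 0).continuous)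
        exact ((this.comp continuous_neg).pow 2).aestronglyMeasurable
      · have := sh_bounds hF b (-ξ)
        rw [Real.norm_eq_abs, abs_of_nonneg (sq_nonneg _)]
        nlinarith
    rw [← integral_finsetSum _ hint, hI, ← hL2]
    refine integral_mono (integrable_finsetSum _ hint) hL1' fun ξ => ?_
    simp only
    rw [← Finset.mul_sum]
    have := sum_sh_sq_le hF A (-ξ)
    have h0 := sq_nonneg ‖iF φ ξ‖
    nlinarith
  have hs2 : ∑ b ∈ A, (2 * C * (2 : ℝ) ^ (a - b)) ^ 2 * (Real.pi ^ 2 * I) ≤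
      8 * C ^ 2 * Real.pi ^ 2 * I := by
    rw [← Finset.sum_mul]
    have e : ∑ b ∈ A, (2 * C * (2 : ℝ) ^ (a - b)) ^ 2 = 4 * C ^ 2 * ∑ b ∈ A,
        ((2 : ℝ) ^ (a - b)) ^ 2 := by
      rw [Finset.mul_sum]
      refine Finset.sum_congr rfl fun b _ => ?_
      ring
    rw [e]
    have := sum_geom_le A a hA
    have h6 : 0 ≤ Real.pi ^ 2 * I := by positivity
    calc 4 * C ^ 2 * (∑ b ∈ A, ((2 : ℝ) ^ (a - b)) ^ 2) * (Real.pi ^ 2 * I)
        ≤ 4 * C ^ 2 * 2 * (Real.pi ^ 2 * I) := by gcongr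
      _ = _ := by ring
  have hII : I = ∫ x, KK ρ x * ‖f x‖ ^ 2 := by
    rw [hI]
    exact integral_congr_ae (Eventually.of_forall hφ2e)
  rw [← hII]
  nlinarith

/-- Fubini for the superposition of the weights -/
lemma super (hK : StmtKK) {ρ : ℝ} (hρ : 0 < ρ) (w : ℂ → ℝ) (hw : Continuous w)
    (hwi : Integrable w) (F : ℂ → ℝ) (hFc : Continuous F) (hFi : Integrable F) :
    Integrable (fun y => w y * ∫ x, KK ρ (x - y) * F x) ∧
    ∫ x, (∫ y, KK ρ (x - y) * w y) * F x = ∫ y, w y * ∫ x, KK ρ (x - y) * F x := by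
  have hKc := continuous_KK hρ
  have h1 : Integrable (fun z : ℂ × ℂ => F z.1 * w z.2) ((volume : Measure ℂ).prod volume) :=
    hFi.mul_prod hwi
  have h2 : Integrable (fun z : ℂ × ℂ => KK ρ (z.1 - z.2) * w z.2 * F z.1)
      ((volume : Measure ℂ).prod volume) := by
    refine Integrable.mono' (h1.norm.const_mul (1 / ρ ^ 2)) ?_ (Eventually.of_forall fun z => ?_)
    · have : Continuous (fun z : ℂ × ℂ => KK ρ (z.1 - z.2) * w z.2 * F z.1) := by fun_prop
      exact this.aestronglyMeasurable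
    · have := (hK.1 ρ hρ).2.2 (z.1 - z.2)
      rw [norm_mul, norm_mul, norm_mul, Real.norm_eq_abs (KK ρ _), abs_of_pos this.1]
      have h3 : 0 ≤ ‖w z.2‖ * ‖F z.1‖ := by positivity
      calc KK ρ (z.1 - z.2) * ‖w z.2‖ * ‖F z.1‖ = KK ρ (z.1 - z.2) * (‖w z.2‖ * ‖F z.1‖) := by ring
        _ ≤ 1 / ρ ^ 2 * (‖w z.2‖ * ‖F z.1‖) := mul_le_mul_of_nonneg_right this.2 h3
        _ = _ := by ring
  have e1 : ∀ x, (∫ y, KK ρ (x - y) * w y) * F x = ∫ y, KK ρ (x - y) * w y * F x := fun x => by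
    rw [integral_mul_const]
  have e2 : ∀ y, w y * ∫ x, KK ρ (x - y) * F x = ∫ x, KK ρ (x - y) * w y * F x := fun y => by
    rw [← integral_const_mul]
    refine integral_congr_ae (Eventually.of_forall fun x => ?_)
    simp only
    ring
  constructor
  · simp_rw [e2]
    exact h2.integral_prod_right
  · simp_rw [e1, e2]
    exact integral_integral_swap h2

end LocL2

open LocL2 in
/-- (LocL2) local `L^2` orthogonality -/
theorem locL2 (hKer : StmtKer) (hK : StmtKK) (hB : StmtBase) (hL : StmtL2) (hF : StmtFac) :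
    StmtLocL2 := by
  obtain ⟨C, hC, h⟩ := single hKer hK hB hL hF
  refine ⟨C, hC, fun a A hA g w hg hw hw0 hwi => ?_⟩
  set ρ : ℝ := (2 : ℝ) ^ (-a) with hρdef
  have hρ : 0 < ρ := by positivity
  obtain ⟨hfc, -, hf2, -, -⟩ := hB.1 g hg
  have hS := super hK hρ w hw hwi (fun x => ‖iF g x‖ ^ 2) (hfc.norm.pow 2) hf2
  have hSb : ∀ b, Integrable (fun y => w y * ∫ x, KK ρ (x - y) * ‖iF (cut (sh b) g) x‖ ^ 2) ∧
      ∫ x, (∫ y, KK ρ (x - y) * w y) * ‖iF (cut (sh b) g) x‖ ^ 2 =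
        ∫ y, w y * ∫ x, KK ρ (x - y) * ‖iF (cut (sh b) g) x‖ ^ 2 := fun b => by
    obtain ⟨hbc, -, hb2, -, -⟩ := hB.1 _ ((hF.2.2.2.2.1 g b b hg).2.2)
    exact super hK hρ w hw hwi (fun x => ‖iF (cut (sh b) g) x‖ ^ 2) (hbc.norm.pow 2) hb2
  have hpt : ∀ y, ∑ b ∈ A, ∫ x, KK ρ (x - y) * ‖iF (cut (sh b) g) x‖ ^ 2 ≤
      C * ∫ x, KK ρ (x - y) * ‖iF g x‖ ^ 2 := fun y => by
    have hcc : CC (fun ζ => ch y ζ * g ζ) := ⟨(continuous_ch y).mul hg.1, hg.2.mul_left⟩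
    have h1 := h a A hA _ hcc
    have e1 : ∀ b, ∫ x, KK ρ x * ‖iF (cut (sh b) (fun ζ => ch y ζ * g ζ)) x‖ ^ 2 =
        ∫ x, KK ρ (x - y) * ‖iF (cut (sh b) g) x‖ ^ 2 := fun b => by
      have e2 : cut (sh b) (fun ζ => ch y ζ * g ζ) = fun ζ => ch y ζ * cut (sh b) g ζ := by
        ext ζ; unfold cut; ring
      simp_rw [e2, hB.2.2.1]
      rw [← integral_add_right_eq_self (fun x => KK ρ (x - y) * ‖iF (cut (sh b) g) x‖ ^ 2) y]
      refine integral_congr_ae (Eventually.of_forall fun x => ?_)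
      simp
    have e3 : ∫ x, KK ρ x * ‖iF (fun ζ => ch y ζ * g ζ) x‖ ^ 2 =
        ∫ x, KK ρ (x - y) * ‖iF g x‖ ^ 2 := by
      simp_rw [hB.2.2.1]
      rw [← integral_add_right_eq_self (fun x => KK ρ (x - y) * ‖iF g x‖ ^ 2) y]
      refine integral_congr_ae (Eventually.of_forall fun x => ?_)
      simp
    rw [← hρdef] at h1
    simp_rw [e1, e3] at h1
    exact h1
  calc ∑ b ∈ A, ∫ x, (∫ y, KK ρ (x - y) * w y) * ‖iF (cut (sh b) g) x‖ ^ 2
      = ∑ b ∈ A, ∫ y, w y * ∫ x, KK ρ (x - y) * ‖iF (cut (sh b) g) x‖ ^ 2 :=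
        Finset.sum_congr rfl fun b _ => (hSb b).2
    _ = ∫ y, ∑ b ∈ A, w y * ∫ x, KK ρ (x - y) * ‖iF (cut (sh b) g) x‖ ^ 2 :=
        (integral_finsetSum _ fun b _ => (hSb b).1).symm
    _ ≤ ∫ y, C * (w y * ∫ x, KK ρ (x - y) * ‖iF g x‖ ^ 2) := by
        refine integral_mono (integrable_finsetSum _ fun b _ => (hSb b).1) (hS.1.const_mul C)
          fun y => ?_
        simp only
        rw [← Finset.mul_sum]
        calc w y * ∑ b ∈ A, ∫ x, KK ρ (x - y) * ‖iF (cut (sh b) g) x‖ ^ 2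
            ≤ w y * (C * ∫ x, KK ρ (x - y) * ‖iF g x‖ ^ 2) :=
              mul_le_mul_of_nonneg_left (hpt y) (hw0 y)
          _ = _ := by ring
    _ = C * ∫ x, (∫ y, KK ρ (x - y) * w y) * ‖iF g x‖ ^ 2 := by
        rw [integral_const_mul, hS.2]

end Pool.Agent.Lib.MP_dd244f_an.Four
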