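import Pool.Agent.Lib.MP_dd244f_an.Four.Stmts

/-!
Full operator, `p = 4`: derivative bounds of the symbol, cut off near `0`.
-/

set_option autoImplicit false

namespace Pool.Agent.Lib.MP_dd244f_an.Four

open MeasureTheory Filter Topology Finset
open Pool.Agent.Lib.MP_dd244f_an.Joint (st ct Mst)

namespace MMAux

/-- directional derivative -/
noncomputable def dv (v : ℂ) (f : ℂ → ℂ) (z : ℂ) : ℂ := fderiv ℝ f z v

theorem lap_eq (f : ℂ → ℂ) (z : ℂ) :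
    lap f z = dv 1 (dv 1 f) z + dv Complex.I (dv Complex.I f) z := rfl

theorem dv_congr {f g : ℂ → ℂ} {z : ℂ} (h : f =ᶠ[𝓝 z] g) (v : ℂ) : dv v f z = dv v g z := by
  unfold dv
  rw [h.fderiv_eq]

theorem dv_eventually {f g : ℂ → ℂ} {z : ℂ} (h : f =ᶠ[𝓝 z] g) (v : ℂ) :
    dv v f =ᶠ[𝓝 z] dv v g := by
  have := h.fderiv (𝕜 := ℝ)
  filter_upwards [this] with w hw
  unfold dv
  rw [hw]

theorem lap_congr {f g : ℂ → ℂ} {z : ℂ} (h : f =ᶠ[𝓝 z] g) : lap f z = lap g z := by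
  rw [lap_eq, lap_eq, dv_congr (dv_eventually h 1), dv_congr (dv_eventually h Complex.I)]

theorem diff_dv {f : ℂ → ℂ} {z : ℂ} (hf : ContDiffAt ℝ 2 f z) (v : ℂ) :
    DifferentiableAt ℝ (dv v f) z := by
  have h1 : ContDiffAt ℝ 1 (fderiv ℝ f) z := hf.fderiv_right (m := 1) (by norm_num)
  have h2 : DifferentiableAt ℝ (fderiv ℝ f) z := h1.differentiableAt (by norm_num)
  exact h2.clm_apply (differentiableAt_const v)

theorem ev_diff {f : ℂ → ℂ} {z : ℂ} (hf : ContDiffAt ℝ 2 f z) :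
    ∀ᶠ w in 𝓝 z, DifferentiableAt ℝ f w := by
  filter_upwards [hf.eventually (by norm_num)] with w hw
  exact hw.differentiableAt (by norm_num)

theorem dv_mul {f g : ℂ → ℂ} {z : ℂ} (hf : DifferentiableAt ℝ f z) (hg : DifferentiableAt ℝ g z)
    (v : ℂ) : dv v (fun w => f w * g w) z = f z * dv v g z + g z * dv v f z := by
  unfold dv
  rw [show (fun w => f w * g w) = f * g from rfl, fderiv_mul hf hg]
  simp

theorem dv_add {f g : ℂ → ℂ} {z : ℂ} (hf : DifferentiableAt ℝ f z) (hg : DifferentiableAt ℝ g z)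
    (v : ℂ) : dv v (fun w => f w + g w) z = dv v f z + dv v g z := by
  unfold dv
  rw [show (fun w => f w + g w) = f + g from rfl, fderiv_add hf hg]
  simp

theorem dv_sub {f g : ℂ → ℂ} {z : ℂ} (hf : DifferentiableAt ℝ f z) (hg : DifferentiableAt ℝ g z)
    (v : ℂ) : dv v (fun w => f w - g w) z = dv v f z - dv v g z := by
  unfold dv
  rw [show (fun w => f w - g w) = f - g from rfl, fderiv_sub hf hg]
  simp

theorem dv_dv_mul {f g : ℂ → ℂ} {z : ℂ} (hf : ContDiffAt ℝ 2 f z) (hg : ContDiffAt ℝ 2 g z)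
    (v : ℂ) : dv v (dv v (fun w => f w * g w)) z =
      f z * dv v (dv v g) z + g z * dv v (dv v f) z + 2 * (dv v f z * dv v g z) := by
  have h1 : dv v (fun w => f w * g w) =ᶠ[𝓝 z] fun w => f w * dv v g w + g w * dv v f w := by
    filter_upwards [ev_diff hf, ev_diff hg] with w h1 h2
    exact dv_mul h1 h2 v
  have hf1 := hf.differentiableAt (by norm_num)
  have hg1 := hg.differentiableAt (by norm_num)
  have h2 : DifferentiableAt ℝ (fun w => f w * dv v g w) z := hf1.mul (diff_dv hg v)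
  have h3 : DifferentiableAt ℝ (fun w => g w * dv v f w) z := hg1.mul (diff_dv hf v)
  rw [dv_congr h1, dv_add h2 h3, dv_mul hf1 (diff_dv hg v), dv_mul hg1 (diff_dv hf v)]
  ring

theorem lap_mul {f g : ℂ → ℂ} {z : ℂ} (hf : ContDiffAt ℝ 2 f z) (hg : ContDiffAt ℝ 2 g z) :
    lap (fun w => f w * g w) z = f z * lap g z + g z * lap f z
      + 2 * (dv 1 f z * dv 1 g z + dv Complex.I f z * dv Complex.I g z) := by
  rw [lap_eq, lap_eq, lap_eq, dv_dv_mul hf hg, dv_dv_mul hf hg]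
  ring

theorem dv_le {f : ℂ → ℂ} {z v : ℂ} (hv : ‖v‖ = 1) : ‖dv v f z‖ ≤ ‖fderiv ℝ f z‖ := by
  have := (fderiv ℝ f z).le_opNorm v
  rwa [hv, mul_one] at this

theorem norm_lap_mul {f g : ℂ → ℂ} {z : ℂ} (hf : ContDiffAt ℝ 2 f z) (hg : ContDiffAt ℝ 2 g z) :
    ‖lap (fun w => f w * g w) z‖ ≤
      ‖f z‖ * ‖lap g z‖ + ‖g z‖ * ‖lap f z‖ + 4 * ‖fderiv ℝ f z‖ * ‖fderiv ℝ g z‖ := by
  rw [lap_mul hf hg]
  have h1 : ‖dv 1 f z * dv 1 g z‖ ≤ ‖fderiv ℝ f z‖ * ‖fderiv ℝ g z‖ := by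
    rw [norm_mul]
    exact mul_le_mul (dv_le (by simp)) (dv_le (by simp)) (norm_nonneg _) (norm_nonneg _)
  have h2 : ‖dv Complex.I f z * dv Complex.I g z‖ ≤ ‖fderiv ℝ f z‖ * ‖fderiv ℝ g z‖ := by
    rw [norm_mul]
    exact mul_le_mul (dv_le (by simp)) (dv_le (by simp)) (norm_nonneg _) (norm_nonneg _)
  have h3 : ‖2 * (dv 1 f z * dv 1 g z + dv Complex.I f z * dv Complex.I g z)‖ ≤
      4 * ‖fderiv ℝ f z‖ * ‖fderiv ℝ g z‖ := by
    rw [norm_mul]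
    have := norm_add_le (dv 1 f z * dv 1 g z) (dv Complex.I f z * dv Complex.I g z)
    have h4 : ‖(2 : ℂ)‖ = 2 := by simp
    rw [h4]
    linarith
  calc _ ≤ ‖f z * lap g z + g z * lap f z‖ + _ := norm_add_le _ _
    _ ≤ (‖f z * lap g z‖ + ‖g z * lap f z‖) + _ := by gcongr; exact norm_add_le _ _
    _ ≤ _ := by rw [norm_mul, norm_mul]; gcongr

theorem norm_fderiv_mul {f g : ℂ → ℂ} {z : ℂ} (hf : DifferentiableAt ℝ f z)
    (hg : DifferentiableAt ℝ g z) :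
    ‖fderiv ℝ (fun w => f w * g w) z‖ ≤ ‖f z‖ * ‖fderiv ℝ g z‖ + ‖g z‖ * ‖fderiv ℝ f z‖ := by
  rw [show (fun w => f w * g w) = f * g from rfl, fderiv_mul hf hg]
  refine (norm_add_le _ _).trans ?_
  rw [norm_smul, norm_smul]

/-! ### The symbol -/

theorem dv_conj (v z : ℂ) : dv v (fun w => starRingEnd ℂ w) z = starRingEnd ℂ v := by
  unfold dv
  have h1 : HasFDerivAt (𝕜 := ℝ) (fun w : ℂ => starRingEnd ℂ w) (Complex.conjCLE : ℂ →L[ℝ] ℂ) z :=
    (Complex.conjCLE : ℂ →L[ℝ] ℂ).hasFDerivAt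
  rw [h1.fderiv]
  rfl

theorem dv_inv (v : ℂ) {z : ℂ} (hz : z ≠ 0) : dv v (fun w => w⁻¹) z = -v / z ^ 2 := by
  unfold dv
  have := (hasDerivAt_inv hz).hasFDerivAt.restrictScalars ℝ
  rw [this.fderiv]
  simp
  field_simp

theorem cd_conj (z : ℂ) : ContDiffAt ℝ 2 (fun w : ℂ => starRingEnd ℂ w) z :=
  (Complex.conjCLE : ℂ →L[ℝ] ℂ).contDiff.contDiffAt

theorem cd_inv {z : ℂ} (hz : z ≠ 0) : ContDiffAt ℝ 2 (fun w : ℂ => w⁻¹) z :=
  contDiffAt_id.inv hz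

theorem cd_mm (n : ℕ) {z : ℂ} (hz : z ≠ 0) : ContDiffAt ℝ 2 (mm n) z := by
  have : mm n = fun w => (starRingEnd ℂ w * w⁻¹) ^ n := by
    ext w; rw [mm, div_eq_mul_inv]
  rw [this]
  exact ((cd_conj z).mul (cd_inv hz)).pow n

/-- logarithmic derivative -/
noncomputable def ld (v z : ℂ) : ℂ := starRingEnd ℂ v * (starRingEnd ℂ z)⁻¹ - v * z⁻¹

theorem dv_q (v : ℂ) {z : ℂ} (hz : z ≠ 0) :
    dv v (fun w => starRingEnd ℂ w * w⁻¹) z = starRingEnd ℂ z * z⁻¹ * ld v z := by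
  have hc : starRingEnd ℂ z ≠ 0 := by rwa [Ne, map_eq_zero]
  rw [dv_mul ((cd_conj z).differentiableAt (by norm_num))
    ((cd_inv hz).differentiableAt (by norm_num)), dv_conj, dv_inv v hz]
  unfold ld
  field_simp
  ring

theorem dv_mm (n : ℕ) (v : ℂ) {z : ℂ} (hz : z ≠ 0) : dv v (mm n) z = n * mm n z * ld v z := by
  induction n with
  | zero =>
    have : mm 0 = fun _ => 1 := by ext w; simp [mm]
    rw [this]
    simp [dv]
  | succ n ih =>
    have : mm (n + 1) = fun w => mm n w * (starRingEnd ℂ w * w⁻¹) := by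
      ext w; rw [mm, mm, pow_succ, div_eq_mul_inv]
    have hq : ContDiffAt ℝ 2 (fun w : ℂ => starRingEnd ℂ w * w⁻¹) z := (cd_conj z).mul (cd_inv hz)
    rw [this, dv_mul ((cd_mm n hz).differentiableAt (by norm_num))
      (hq.differentiableAt (by norm_num)), dv_q v hz, ih]
    push_cast
    ring

theorem norm_mm (n : ℕ) {z : ℂ} (hz : z ≠ 0) : ‖mm n z‖ = 1 := by
  unfold mm
  rw [norm_pow, norm_div, RCLike.norm_conj, div_self (norm_ne_zero_iff.2 hz), one_pow]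

theorem norm_ld (v : ℂ) {z : ℂ} : ‖ld v z‖ ≤ 2 * ‖v‖ / ‖z‖ := by
  unfold ld
  refine (norm_sub_le _ _).trans ?_
  rw [norm_mul, norm_mul, norm_inv, norm_inv, RCLike.norm_conj, RCLike.norm_conj]
  apply le_of_eq
  ring

theorem fderiv_le_of_dv {f : ℂ → ℂ} {z : ℂ} {M : ℝ} (hM : 0 ≤ M) (h : ∀ v, ‖dv v f z‖ ≤ M * ‖v‖) :
    ‖fderiv ℝ f z‖ ≤ M := (fderiv ℝ f z).opNorm_le_bound hM h

theorem fderiv_mm (n : ℕ) {z : ℂ} (hz : z ≠ 0) : ‖fderiv ℝ (mm n) z‖ ≤ 2 * n / ‖z‖ := by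
  refine fderiv_le_of_dv (by positivity) fun v => ?_
  rw [dv_mm n v hz, norm_mul, norm_mul, norm_mm n hz, mul_one]
  have := norm_ld v (z := z)
  calc ‖(n : ℂ)‖ * ‖ld v z‖ ≤ n * (2 * ‖v‖ / ‖z‖) := by
        rw [Complex.norm_natCast]; gcongr
    _ = 2 * n / ‖z‖ * ‖v‖ := by ring

theorem cd_ld (v : ℂ) {z : ℂ} (hz : z ≠ 0) : ContDiffAt ℝ 2 (ld v) z := by
  have hc : starRingEnd ℂ z ≠ 0 := by rwa [Ne, map_eq_zero]
  exact (contDiffAt_const.mul ((cd_conj z).inv hc)).sub (contDiffAt_const.mul (cd_inv hz))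

theorem dv_cinv (v : ℂ) {z : ℂ} (hz : z ≠ 0) :
    dv v (fun w => (starRingEnd ℂ w)⁻¹) z = -starRingEnd ℂ v / starRingEnd ℂ z ^ 2 := by
  have hc : starRingEnd ℂ z ≠ 0 := by rwa [Ne, map_eq_zero]
  have h1 : DifferentiableAt ℝ (fun w : ℂ => starRingEnd ℂ w) z :=
    (cd_conj z).differentiableAt (by norm_num)
  have h2 : DifferentiableAt ℝ (fun w : ℂ => (starRingEnd ℂ w)⁻¹) z :=
    ((cd_conj z).inv hc).differentiableAt (by norm_num)
  have h3 := dv_mul h1 h2 v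
  have h4 : (fun w : ℂ => starRingEnd ℂ w * (starRingEnd ℂ w)⁻¹) =ᶠ[𝓝 z] fun _ => 1 := by
    filter_upwards [isOpen_ne.mem_nhds hz] with w hw
    exact mul_inv_cancel₀ (by rwa [Ne, map_eq_zero])
  rw [dv_congr h4, dv_conj] at h3
  have h5 : dv v (fun _ => (1 : ℂ)) z = 0 := by simp [dv]
  rw [h5] at h3
  rw [eq_div_iff (pow_ne_zero 2 hc)]
  have h6 : (starRingEnd ℂ z)⁻¹ * starRingEnd ℂ z = 1 := inv_mul_cancel₀ hc
  linear_combination (-starRingEnd ℂ z) * h3 - (starRingEnd ℂ v) * h6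

theorem dv_ld (v : ℂ) {z : ℂ} (hz : z ≠ 0) :
    dv v (ld v) z = -(starRingEnd ℂ v) ^ 2 / starRingEnd ℂ z ^ 2 + v ^ 2 / z ^ 2 := by
  have hc : starRingEnd ℂ z ≠ 0 := by rwa [Ne, map_eq_zero]
  have h1 : DifferentiableAt ℝ (fun w : ℂ => (starRingEnd ℂ w)⁻¹) z :=
    ((cd_conj z).inv hc).differentiableAt (by norm_num)
  have h2 : DifferentiableAt ℝ (fun w : ℂ => w⁻¹) z := (cd_inv hz).differentiableAt (by norm_num)
  have h3 : ∀ c : ℂ, dv v (fun _ => c) z = 0 := fun c => by simp [dv]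
  have e : ld v = fun w => starRingEnd ℂ v * (starRingEnd ℂ w)⁻¹ - v * w⁻¹ := rfl
  have h4 : DifferentiableAt ℝ (fun w : ℂ => starRingEnd ℂ v * (starRingEnd ℂ w)⁻¹) z :=
    (differentiableAt_const _).mul h1
  have h5 : DifferentiableAt ℝ (fun w : ℂ => v * w⁻¹) z := (differentiableAt_const _).mul h2
  rw [e, dv_sub h4 h5, dv_mul (differentiableAt_const _) h1, dv_mul (differentiableAt_const _) h2,
    dv_cinv v hz, dv_inv v hz, h3, h3]
  ring

theorem dv_dv_mm (n : ℕ) (v : ℂ) {z : ℂ} (hz : z ≠ 0) : dv v (dv v (mm n)) z =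
    n * mm n z * (n * ld v z ^ 2 - (starRingEnd ℂ v) ^ 2 / starRingEnd ℂ z ^ 2 + v ^ 2 / z ^ 2) := by
  have h1 : dv v (mm n) =ᶠ[𝓝 z] fun w => (n * mm n w) * ld v w := by
    filter_upwards [isOpen_ne.mem_nhds hz] with w hw
    exact dv_mm n v hw
  have h2 : DifferentiableAt ℝ (mm n) z := (cd_mm n hz).differentiableAt (by norm_num)
  have h3 : DifferentiableAt ℝ (fun w => (n : ℂ) * mm n w) z := (differentiableAt_const _).mul h2
  have h4 : DifferentiableAt ℝ (ld v) z := (cd_ld v hz).differentiableAt (by norm_num)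
  have h5 : dv v (fun _ => (n : ℂ)) z = 0 := by simp [dv]
  rw [dv_congr h1, dv_mul h3 h4, dv_mul (differentiableAt_const _) h2, dv_mm n v hz, dv_ld v hz, h5]
  ring

theorem lap_mm (n : ℕ) {z : ℂ} (hz : z ≠ 0) :
    lap (mm n) z = -(4 * n ^ 2 * (z * starRingEnd ℂ z)⁻¹) * mm n z := by
  have hc : starRingEnd ℂ z ≠ 0 := by rwa [Ne, map_eq_zero]
  rw [lap_eq, dv_dv_mm n _ hz, dv_dv_mm n _ hz]
  unfold ld
  simp only [map_one, Complex.conj_I]
  have hI : Complex.I ^ 2 = -1 := Complex.I_sq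
  field_simp
  linear_combination (n * mm n z) * (n * (starRingEnd ℂ z + z) ^ 2 -
    z ^ 2 + starRingEnd ℂ z ^ 2) * hI

theorem norm_lap_mm (n : ℕ) {z : ℂ} (hz : z ≠ 0) : ‖lap (mm n) z‖ = 4 * n ^ 2 / ‖z‖ ^ 2 := by
  rw [lap_mm n hz, norm_mul, norm_mm n hz, mul_one, norm_neg, norm_mul, norm_mul, norm_inv,
    norm_mul, RCLike.norm_conj, norm_pow, Complex.norm_natCast]
  have h4 : ‖(4 : ℂ)‖ = 4 := by simp
  rw [h4]
  ring

/-! ### The cutoff -/

/-- the low pass as a complex function -/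
noncomputable def Lo (a : ℤ) (ζ : ℂ) : ℂ := (lo a ζ : ℂ)

theorem Lo_scale (a : ℤ) (ζ : ℂ) : Lo a ζ = Lo 0 (((2 : ℝ) ^ a)⁻¹ • ζ) := by
  unfold Lo lo ct
  congr 3
  rw [Complex.real_smul, Complex.normSq_mul, Complex.normSq_ofReal]
  have : (2 : ℝ) ^ a ≠ 0 := by positivity
  field_simp

theorem cd_Lo (hF : StmtFac) (a : ℤ) : ContDiff ℝ 2 (Lo a) := by
  have h := hF.2.2.2.1 a 2
  exact Complex.ofRealCLM.contDiff.comp h

theorem supp_Lo (hF : StmtFac) (a : ℤ) : HasCompactSupport (Lo a) := by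
  refine HasCompactSupport.intro (isCompact_closedBall (0 : ℂ) (2 * (2 : ℝ) ^ a)) fun ζ hζ => ?_
  rw [mem_closedBall_zero_iff, not_le] at hζ
  unfold Lo
  rw [hF.2.2.1 a ζ, Complex.ofReal_zero]
  have h1 : (0 : ℝ) < (2 : ℝ) ^ a := by positivity
  nlinarith

theorem dv_scale {f : ℂ → ℂ} (hf : Differentiable ℝ f) (c : ℝ) (v z : ℂ) :
    dv v (fun w => f (c • w)) z = (c : ℂ) * dv v f (c • z) := by
  unfold dv
  have h1 : HasFDerivAt (𝕜 := ℝ) (fun w : ℂ => c • w) (c • ContinuousLinearMap.id ℝ ℂ) z :=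
    (c • ContinuousLinearMap.id ℝ ℂ).hasFDerivAt
  have h2 : HasFDerivAt (𝕜 := ℝ) f (fderiv ℝ f (c • z)) (c • z) := (hf _).hasFDerivAt
  have h3 := h2.comp z h1
  have h4 : HasFDerivAt (𝕜 := ℝ) (fun w : ℂ => f (c • w)) _ z := h3
  rw [h4.fderiv]
  simp

theorem dv_dv_scale {f : ℂ → ℂ} (hf : ContDiff ℝ 2 f) (c : ℝ) (v z : ℂ) :
    dv v (dv v (fun w => f (c • w))) z = (c : ℂ) ^ 2 * dv v (dv v f) (c • z) := by
  have h1 : dv v (fun w => f (c • w)) = fun w => (c : ℂ) * dv v f (c • w) := by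
    ext w
    exact dv_scale (hf.differentiable (by norm_num)) c v w
  have h2 : Differentiable ℝ (dv v f) := fun w => diff_dv hf.contDiffAt v
  have h3 : DifferentiableAt ℝ (fun w => dv v f (c • w)) z :=
    (h2 _).comp z (differentiableAt_id.const_smul c)
  rw [h1, dv_mul (differentiableAt_const _) h3, dv_scale h2]
  have h5 : dv v (fun _ => (c : ℂ)) z = 0 := by simp [dv]
  rw [h5]
  ring

theorem dv_Lo (hF : StmtFac) (a : ℤ) (v z : ℂ) :
    dv v (Lo a) z = (((2 : ℝ) ^ a)⁻¹ : ℝ) * dv v (Lo 0) (((2 : ℝ) ^ a)⁻¹ • z) := by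
  have : Lo a = fun w => Lo 0 (((2 : ℝ) ^ a)⁻¹ • w) := funext (Lo_scale a)
  conv_lhs => rw [this]
  rw [dv_scale ((cd_Lo hF 0).differentiable (by norm_num))]

theorem lap_Lo (hF : StmtFac) (a : ℤ) (z : ℂ) :
    lap (Lo a) z = ((((2 : ℝ) ^ a)⁻¹ : ℝ) : ℂ) ^ 2 * lap (Lo 0) (((2 : ℝ) ^ a)⁻¹ • z) := by
  have : Lo a = fun w => Lo 0 (((2 : ℝ) ^ a)⁻¹ • w) := funext (Lo_scale a)
  conv_lhs => rw [this]
  rw [lap_eq, lap_eq, dv_dv_scale (cd_Lo hF 0), dv_dv_scale (cd_Lo hF 0)]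
  ring

/-- the first and second derivatives of the low passes -/
theorem exists_bound (hF : StmtFac) : ∃ K : ℝ, 0 ≤ K ∧ ∀ (a : ℤ) (z : ℂ),
    ‖fderiv ℝ (Lo a) z‖ ≤ K / (2 : ℝ) ^ a ∧ ‖lap (Lo a) z‖ ≤ K / ((2 : ℝ) ^ a) ^ 2 := by
  have hc := cd_Lo hF 0
  have hs := supp_Lo hF 0
  have h1 : Continuous (fderiv ℝ (Lo 0)) := hc.continuous_fderiv (by norm_num)
  obtain ⟨K1, hK1⟩ := h1.bounded_above_of_compact_support (hs.fderiv ℝ)
  have h2 : ∀ v, ContDiff ℝ 1 (dv v (Lo 0)) := fun v =>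
    (hc.fderiv_right (m := 1) (by norm_num)).clm_apply contDiff_const
  have h3 : ∀ v, Continuous (dv v (dv v (Lo 0))) := fun v =>
    ((h2 v).continuous_fderiv (by norm_num)).clm_apply continuous_const
  have h4 : ∀ v, HasCompactSupport (dv v (dv v (Lo 0))) := fun v =>
    (hs.fderiv_apply (𝕜 := ℝ) v).fderiv_apply (𝕜 := ℝ) v
  obtain ⟨K2, hK2⟩ := (h3 1).bounded_above_of_compact_support (h4 1)
  obtain ⟨K3, hK3⟩ := (h3 Complex.I).bounded_above_of_compact_support (h4 Complex.I)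
  have p1 := (norm_nonneg _).trans (hK1 0)
  have p2 := (norm_nonneg _).trans (hK2 0)
  have p3 := (norm_nonneg _).trans (hK3 0)
  refine ⟨K1 + (K2 + K3), by linarith, fun a z => ?_⟩
  have ha : (0 : ℝ) < (2 : ℝ) ^ a := by positivity
  constructor
  · refine fderiv_le_of_dv (by positivity) fun v => ?_
    rw [dv_Lo hF, norm_mul, Complex.norm_real, Real.norm_of_nonneg (by positivity)]
    have h5 : ‖dv v (Lo 0) (((2 : ℝ) ^ a)⁻¹ • z)‖ ≤ K1 * ‖v‖ :=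
      ((fderiv ℝ (Lo 0) _).le_opNorm v).trans (by gcongr; exact hK1 _)
    calc ((2 : ℝ) ^ a)⁻¹ * ‖dv v (Lo 0) (((2 : ℝ) ^ a)⁻¹ • z)‖
        ≤ ((2 : ℝ) ^ a)⁻¹ * (K1 * ‖v‖) := by gcongr
      _ ≤ ((2 : ℝ) ^ a)⁻¹ * ((K1 + (K2 + K3)) * ‖v‖) := by gcongr; linarith
      _ = (K1 + (K2 + K3)) / (2 : ℝ) ^ a * ‖v‖ := by ring
  · rw [lap_Lo hF, norm_mul, norm_pow, Complex.norm_real, Real.norm_of_nonneg (by positivity)]
    have h5 : ‖lap (Lo 0) (((2 : ℝ) ^ a)⁻¹ • z)‖ ≤ K2 + K3 := by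
      rw [lap_eq]
      exact (norm_add_le _ _).trans (add_le_add (hK2 _) (hK3 _))
    calc ((2 : ℝ) ^ a)⁻¹ ^ 2 * ‖lap (Lo 0) (((2 : ℝ) ^ a)⁻¹ • z)‖
        ≤ ((2 : ℝ) ^ a)⁻¹ ^ 2 * (K2 + K3) := by gcongr
      _ ≤ ((2 : ℝ) ^ a)⁻¹ ^ 2 * (K1 + (K2 + K3)) :=
          mul_le_mul_of_nonneg_left (by linarith) (by positivity)
      _ = (K1 + (K2 + K3)) / ((2 : ℝ) ^ a) ^ 2 := by ring

/-- the band pass as a complex function -/
noncomputable def Bd (a b : ℤ) (ζ : ℂ) : ℂ := Lo b ζ - Lo a ζ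

theorem Bd_eq (a b : ℤ) (ζ : ℂ) : (bd a b ζ : ℂ) = Bd a b ζ := by
  unfold Bd bd Lo
  push_cast
  ring

theorem zero_of_lt (hF : StmtFac) {a b : ℤ} (hab : a < b) {ζ : ℂ} (h : ‖ζ‖ < (2 : ℝ) ^ a) :
    Bd a b ζ = 0 := by
  rw [← Bd_eq]
  unfold bd
  have h1 : (2 : ℝ) ^ a ≤ (2 : ℝ) ^ b := zpow_le_zpow_right₀ (by norm_num) hab.le
  rw [hF.2.1 a ζ h.le, hF.2.1 b ζ (h.le.trans h1), sub_self, Complex.ofReal_zero]

theorem norm_Bd (hF : StmtFac) (a b : ℤ) (ζ : ℂ) : ‖Bd a b ζ‖ ≤ 1 := by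
  rw [← Bd_eq, Complex.norm_real, Real.norm_eq_abs, abs_le]
  have h1 := hF.1 a ζ
  have h2 := hF.1 b ζ
  unfold bd
  constructor <;> linarith [h1.1, h1.2, h2.1, h2.2]

end MMAux

open MMAux

theorem mmc (_ : StmtLap) (hF : StmtFac) : StmtMM := by
  obtain ⟨K, hK0, hK⟩ := exists_bound hF
  refine ⟨4 + 18 * K, by linarith, fun n a b hab => ?_⟩
  have ha : (0 : ℝ) < (2 : ℝ) ^ a := by positivity
  have hb : (0 : ℝ) < (2 : ℝ) ^ b := by positivity
  have hle : (2 : ℝ) ^ a ≤ (2 : ℝ) ^ b := zpow_le_zpow_right₀ (by norm_num) hab.le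
  have hfun : (fun ζ => (bd a b ζ : ℂ) * mm n ζ) = fun ζ => Bd a b ζ * mm n ζ := by
    ext ζ; rw [Bd_eq]
  rw [hfun]
  have hBd : ContDiff ℝ 2 (Bd a b) := (cd_Lo hF b).sub (cd_Lo hF a)
  have hnear : ∀ z : ℂ, ‖z‖ < (2 : ℝ) ^ a → (fun ζ => Bd a b ζ * mm n ζ) =ᶠ[𝓝 z] fun _ => 0 := by
    intro z hz
    have : IsOpen {w : ℂ | ‖w‖ < (2 : ℝ) ^ a} := isOpen_lt continuous_norm continuous_const
    filter_upwards [this.mem_nhds hz] with w hw
    rw [zero_of_lt hF hab hw, zero_mul]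
  refine ⟨?_, ?_, fun z => ?_⟩
  · rw [contDiff_iff_contDiffAt]
    intro z
    by_cases hz : z = 0
    · exact (contDiffAt_const (c := (0 : ℂ))).congr_of_eventuallyEq (hnear z (by simpa [hz] using ha))
    · exact hBd.contDiffAt.mul (cd_mm n hz)
  · have h1 : HasCompactSupport (Bd a b) := by
      have := (supp_Lo hF b).sub (supp_Lo hF a)
      exact this
    exact h1.mul_right
  · rcases lt_or_ge ‖z‖ ((2 : ℝ) ^ a) with hz | hz
    · have h0 := hnear z hz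
      have e1 : fderiv ℝ (fun ζ => Bd a b ζ * mm n ζ) z = 0 := by
        rw [h0.fderiv_eq]
        simp
      have e2 : lap (fun ζ => Bd a b ζ * mm n ζ) z = 0 := by
        rw [lap_congr h0]
        simp [lap]
      rw [e1, e2, norm_zero, norm_zero]
      constructor <;> positivity
    · have hz0 : z ≠ 0 := by
        rintro rfl
        rw [norm_zero] at hz
        linarith
      have hzp : 0 < ‖z‖ := norm_pos_iff.2 hz0
      have g1 : ‖fderiv ℝ (Bd a b) z‖ ≤ 2 * K / (2 : ℝ) ^ a := by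
        have : fderiv ℝ (Bd a b) z = fderiv ℝ (Lo b) z - fderiv ℝ (Lo a) z := by
          rw [show Bd a b = Lo b - Lo a from rfl,
            fderiv_sub ((cd_Lo hF b).differentiable (by norm_num) _)
              ((cd_Lo hF a).differentiable (by norm_num) _)]
        rw [this]
        refine (norm_sub_le _ _).trans ?_
        have h1 := (hK b z).1
        have h2 := (hK a z).1
        have h3 : K / (2 : ℝ) ^ b ≤ K / (2 : ℝ) ^ a := by gcongr
        have h4 : 2 * K / (2 : ℝ) ^ a = K / (2 : ℝ) ^ a + K / (2 : ℝ) ^ a := by ring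
        linarith
      have g2 : ‖lap (Bd a b) z‖ ≤ 2 * K / ((2 : ℝ) ^ a) ^ 2 := by
        have : lap (Bd a b) z = lap (Lo b) z - lap (Lo a) z := by
          have e : ∀ v, dv v (Bd a b) = fun w => dv v (Lo b) w - dv v (Lo a) w := fun v =>
            funext fun w => dv_sub ((cd_Lo hF b).differentiable (by norm_num) _)
              ((cd_Lo hF a).differentiable (by norm_num) _) v
          have e' : ∀ v, dv v (dv v (Bd a b)) z = dv v (dv v (Lo b)) z - dv v (dv v (Lo a)) z := by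
            intro v
            rw [e v]
            exact dv_sub (diff_dv (cd_Lo hF b).contDiffAt v) (diff_dv (cd_Lo hF a).contDiffAt v) v
          rw [lap_eq, lap_eq, lap_eq, e', e']
          ring
        rw [this]
        refine (norm_sub_le _ _).trans ?_
        have h1 := (hK b z).2
        have h2 := (hK a z).2
        have h3 : K / ((2 : ℝ) ^ b) ^ 2 ≤ K / ((2 : ℝ) ^ a) ^ 2 := by gcongr
        have h4 : 2 * K / ((2 : ℝ) ^ a) ^ 2 = K / ((2 : ℝ) ^ a) ^ 2 + K / ((2 : ℝ) ^ a) ^ 2 := by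
          ring
        linarith
      have g3 : ‖fderiv ℝ (mm n) z‖ ≤ 2 * n / (2 : ℝ) ^ a :=
        (fderiv_mm n hz0).trans (by gcongr)
      have g4 : ‖lap (mm n) z‖ ≤ 4 * n ^ 2 / ((2 : ℝ) ^ a) ^ 2 := by
        rw [norm_lap_mm n hz0]
        gcongr
      have g5 := norm_mm n hz0
      have g6 := norm_Bd hF a b z
      have hn : (0 : ℝ) ≤ n := Nat.cast_nonneg n
      constructor
      · refine (norm_fderiv_mul (hBd.differentiable (by norm_num) _)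
          ((cd_mm n hz0).differentiableAt (by norm_num))).trans ?_
        rw [g5, one_mul]
        calc ‖Bd a b z‖ * ‖fderiv ℝ (mm n) z‖ + ‖fderiv ℝ (Bd a b) z‖
            ≤ 1 * (2 * n / (2 : ℝ) ^ a) + 2 * K / (2 : ℝ) ^ a := by gcongr
          _ = (2 * n + 2 * K) / (2 : ℝ) ^ a := by ring
          _ ≤ (4 + 18 * K) * (n + 1) / (2 : ℝ) ^ a := by
              gcongr
              nlinarith [mul_nonneg hK0 hn]
      · refine (norm_lap_mul hBd.contDiffAt (cd_mm n hz0)).trans ?_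
        rw [g5, one_mul]
        calc ‖Bd a b z‖ * ‖lap (mm n) z‖ + ‖lap (Bd a b) z‖
              + 4 * ‖fderiv ℝ (Bd a b) z‖ * ‖fderiv ℝ (mm n) z‖
            ≤ 1 * (4 * n ^ 2 / ((2 : ℝ) ^ a) ^ 2) + 2 * K / ((2 : ℝ) ^ a) ^ 2
              + 4 * (2 * K / (2 : ℝ) ^ a) * (2 * n / (2 : ℝ) ^ a) := by gcongr
          _ = (4 * n ^ 2 + 2 * K + 16 * K * n) / ((2 : ℝ) ^ a) ^ 2 := by
              field_simp
              ring
          _ ≤ (4 + 18 * K) * (n + 1) ^ 2 / ((2 : ℝ) ^ a) ^ 2 := by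
              gcongr
              nlinarith [mul_nonneg hK0 hn, mul_nonneg hK0 (mul_nonneg hn hn), mul_nonneg hn hn]

end Pool.Agent.Lib.MP_dd244f_an.Four
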