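import Pool.Agent.Lib.MP_dd244f_an.Four.Stmts

/-!
Full operator, `p = 4`: local derivatives of the products of two values of the symbol.
-/

set_option autoImplicit false

namespace Pool.Agent.Lib.MP_dd244f_an.Four

open MeasureTheory Filter Topology

namespace MM2Aux

/-- the symbol of a holomorphic function without zero is locally a pure phase -/
theorem loc {Q : ℂ → ℂ} {δ : ℂ} (hQ : AnalyticAt ℂ Q δ) (h0 : Q δ ≠ 0) (n : ℕ) :
    ∃ H : ℂ → ℂ, AnalyticAt ℂ H δ ∧ deriv H δ = -(2 * n) * (deriv Q δ / Q δ) ∧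
      (fun z => (starRingEnd ℂ (Q z) / Q z) ^ n) =ᶠ[𝓝 δ]
        fun z => Complex.exp (Complex.I * ((H z).im : ℂ)) := by
  have h1 : Q δ / Q δ = 1 := div_self h0
  have hsl : Q δ / Q δ ∈ Complex.slitPlane := by
    rw [h1]
    exact Complex.one_mem_slitPlane
  set c : ℂ := (starRingEnd ℂ (Q δ) / Q δ) ^ n with hc
  have hcn : ‖c‖ = 1 := by
    rw [hc, norm_pow, norm_div, RCLike.norm_conj, div_self (norm_ne_zero_iff.2 h0), one_pow]
  set L : ℂ → ℂ := fun z => Complex.log (Q z / Q δ) with hL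
  have hLa : AnalyticAt ℂ L δ := (hQ.div analyticAt_const h0).clog hsl
  have hLd : HasDerivAt L (deriv Q δ / Q δ) δ := by
    have h2 := (hQ.differentiableAt.hasDerivAt.div_const (Q δ)).clog hsl
    rw [h1, div_one] at h2
    exact h2
  refine ⟨fun z => -(2 * n) * L z + Complex.I * (Complex.arg c : ℂ), ?_, ?_, ?_⟩
  · exact (analyticAt_const.mul hLa).add analyticAt_const
  · exact ((hLd.const_mul (-(2 * n : ℂ))).add_const _).deriv
  · filter_upwards [hQ.continuousAt.eventually_ne h0] with z hz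
    have hz' : Q z / Q δ ≠ 0 := div_ne_zero hz h0
    have hexp : Q z = Q δ * Complex.exp (L z) := by
      rw [hL]
      simp only
      rw [Complex.exp_log hz']
      field_simp
    have hconj : starRingEnd ℂ (Q z) = starRingEnd ℂ (Q δ) * Complex.exp (starRingEnd ℂ (L z)) := by
      conv_lhs => rw [hexp]
      rw [map_mul, Complex.exp_conj]
    have hratio : starRingEnd ℂ (Q z) / Q z =
        (starRingEnd ℂ (Q δ) / Q δ) * Complex.exp (-(2 * ((L z).im : ℂ)) * Complex.I) := by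
      have h3 : -(2 * ((L z).im : ℂ)) * Complex.I = starRingEnd ℂ (L z) - L z := by
        have := Complex.sub_conj (L z)
        push_cast at this
        linear_combination this
      rw [h3, Complex.exp_sub, hconj]
      conv_lhs => rw [hexp]
      rw [mul_div_mul_comm]
    have him : ((-(2 * n) * L z + Complex.I * (Complex.arg c : ℂ)).im : ℝ) =
        -(2 * n) * (L z).im + Complex.arg c := by
      simp [Complex.add_im, Complex.mul_im]
    rw [hratio, mul_pow, ← hc, him, ← Complex.exp_nat_mul]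
    have hcexp : c = Complex.exp (Complex.arg c * Complex.I) := by
      have := Complex.norm_mul_exp_arg_mul_I c
      rw [hcn, Complex.ofReal_one, one_mul] at this
      exact this.symm
    conv_lhs => rw [hcexp]
    rw [← Complex.exp_add]
    congr 1
    push_cast
    ring

theorem contDiffAt_aux {Q : ℂ → ℂ} {δ : ℂ} (hQ : AnalyticAt ℂ Q δ) (h0 : Q δ ≠ 0) (n : ℕ) :
    ContDiffAt ℝ 2 (fun z => (starRingEnd ℂ (Q z) / Q z) ^ n) δ := by
  have h1 : ContDiffAt ℝ 2 Q δ := (hQ.contDiffAt (n := 2)).restrict_scalars ℝ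
  have h2 : ContDiffAt ℝ 2 (fun z => starRingEnd ℂ (Q z)) δ :=
    Complex.conjCLE.contDiff.contDiffAt.comp δ h1
  have h3 : ContDiffAt ℝ 2 (fun z => starRingEnd ℂ (Q z) / Q z) δ := by
    simp only [div_eq_mul_inv]
    exact h2.mul (h1.inv h0)
  exact h3.pow n

theorem lap_congr {f g : ℂ → ℂ} {δ : ℂ} (h : f =ᶠ[𝓝 δ] g) : lap f δ = lap g δ := by
  have h1 : ∀ w : ℂ, (fun z => fderiv ℝ f z w) =ᶠ[𝓝 δ] fun z => fderiv ℝ g z w := by
    intro w
    filter_upwards [h.fderiv (𝕜 := ℝ)] with z hz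
    rw [hz]
  unfold lap
  rw [(h1 1).fderiv_eq, (h1 Complex.I).fderiv_eq]

/-- the derivatives of the symbol of a holomorphic function -/
theorem symb (hLap : StmtLap) {Q : ℂ → ℂ} {δ : ℂ} (hQ : AnalyticAt ℂ Q δ) (h0 : Q δ ≠ 0)
    (n : ℕ) {F : ℂ → ℂ} (hF : F =ᶠ[𝓝 δ] fun z => (starRingEnd ℂ (Q z) / Q z) ^ n) :
    ContDiffAt ℝ 2 F δ ∧ ‖F δ‖ = 1 ∧
      ‖fderiv ℝ F δ‖ ≤ 2 * n * ‖deriv Q δ / Q δ‖ ∧
      ‖lap F δ‖ ≤ (2 * n * ‖deriv Q δ / Q δ‖) ^ 2 := by
  obtain ⟨H, hH, hHd, hHe⟩ := loc hQ h0 n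
  have hFe := hF.trans hHe
  obtain ⟨hl1, hl2⟩ := hLap.2.2.2 H δ hH
  have hn : ‖deriv H δ‖ = 2 * n * ‖deriv Q δ / Q δ‖ := by
    rw [hHd, norm_mul, norm_neg, norm_mul]
    simp
  have he : ∀ x : ℝ, ‖Complex.exp (Complex.I * (x : ℂ))‖ = 1 := by
    intro x
    rw [mul_comm]
    exact Complex.norm_exp_ofReal_mul_I x
  refine ⟨(contDiffAt_aux hQ h0 n).congr_of_eventuallyEq hF, ?_, ?_, ?_⟩
  · rw [hFe.eq_of_nhds, he]
  · rw [hFe.fderiv_eq, ← hn]
    exact hl2
  · rw [lap_congr hFe, hl1, norm_mul, norm_neg, he, mul_one, Complex.norm_real, Real.norm_eq_abs,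
      abs_of_nonneg (sq_nonneg _), hn]

theorem pow_sub_one_le {z : ℂ} (hz : ‖z‖ = 1) (n : ℕ) : ‖z ^ n - 1‖ ≤ n * ‖z - 1‖ := by
  induction n with
  | zero => simp
  | succ n ih =>
    have h1 : z ^ (n + 1) - 1 = z * (z ^ n - 1) + (z - 1) := by ring
    rw [h1]
    refine (norm_add_le _ _).trans ?_
    rw [norm_mul, hz, one_mul]
    push_cast
    linarith

end MM2Aux

open MM2Aux in
theorem mm2 (hL : StmtLap) : StmtMM2 := by
  intro n θ δ h1 h2
  have h3 : δ + θ / 2 ≠ 0 := by rwa [add_comm]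
  have h4 : δ - θ / 2 ≠ 0 := by
    intro h
    apply h2
    linear_combination -h
  have hn3 : ‖δ + θ / 2‖ = ‖θ / 2 + δ‖ := by rw [add_comm]
  have hn4 : ‖δ - θ / 2‖ = ‖θ / 2 - δ‖ := by rw [← norm_neg, neg_sub]
  -- the first product
  have hQ1 : AnalyticAt ℂ (fun z : ℂ => (z + θ / 2) / (z - θ / 2)) δ :=
    (analyticAt_id.add analyticAt_const).div (analyticAt_id.sub analyticAt_const) h4
  have hQ1d : deriv (fun z : ℂ => (z + θ / 2) / (z - θ / 2)) δ / ((δ + θ / 2) / (δ - θ / 2)) =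
      -θ / ((δ + θ / 2) * (δ - θ / 2)) := by
    have hd : HasDerivAt (fun z : ℂ => (z + θ / 2) / (z - θ / 2))
        ((1 * (δ - θ / 2) - (δ + θ / 2) * 1) / (δ - θ / 2) ^ 2) δ :=
      ((hasDerivAt_id δ).add_const _).div ((hasDerivAt_id δ).sub_const _) h4
    rw [hd.deriv]
    field_simp
    ring
  have hF1 : E1 n θ = fun z => (starRingEnd ℂ ((z + θ / 2) / (z - θ / 2)) /
      ((z + θ / 2) / (z - θ / 2))) ^ n := by
    funext z
    unfold E1 mm
    rw [map_pow, map_div₀, map_div₀, Complex.conj_conj, ← mul_pow]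
    congr 1
    rw [div_div_div_eq, div_mul_div_comm, mul_comm (z + θ / 2)]
  obtain ⟨a1, a2, a3, a4⟩ := symb hL hQ1 (div_ne_zero h3 h4) n (F := E1 n θ) (by rw [hF1])
  rw [hQ1d] at a3 a4
  have hr1 : ‖-θ / ((δ + θ / 2) * (δ - θ / 2))‖ = ‖θ‖ / (‖θ / 2 + δ‖ * ‖θ / 2 - δ‖) := by
    rw [norm_div, norm_neg, norm_mul, hn3, hn4]
  rw [hr1] at a3 a4
  -- the second product
  have hQ2 : AnalyticAt ℂ (fun z : ℂ => (θ / 2 + z) * (θ / 2 - z)) δ :=
    (analyticAt_const.add analyticAt_id).mul (analyticAt_const.sub analyticAt_id)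
  have hQ2d : deriv (fun z : ℂ => (θ / 2 + z) * (θ / 2 - z)) δ / ((θ / 2 + δ) * (θ / 2 - δ)) =
      -(2 * δ) / ((θ / 2 + δ) * (θ / 2 - δ)) := by
    have hd : HasDerivAt (fun z : ℂ => (θ / 2 + z) * (θ / 2 - z))
        (1 * (θ / 2 - δ) + (θ / 2 + δ) * (-1)) δ :=
      ((hasDerivAt_id δ).const_add _).mul ((hasDerivAt_id δ).const_sub _)
    rw [hd.deriv]
    congr 1
    ring
  have hF2 : E2 n θ = fun z => (starRingEnd ℂ ((θ / 2 + z) * (θ / 2 - z)) /
      ((θ / 2 + z) * (θ / 2 - z))) ^ n := by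
    funext z
    unfold E2 mm
    rw [map_mul, ← mul_pow, div_mul_div_comm]
  obtain ⟨b1, b2, b3, b4⟩ := symb hL hQ2 (mul_ne_zero h1 h2) n (F := E2 n θ) (by rw [hF2])
  rw [hQ2d] at b3 b4
  have hr2 : ‖-(2 * δ) / ((θ / 2 + δ) * (θ / 2 - δ))‖ =
      2 * ‖δ‖ / (‖θ / 2 + δ‖ * ‖θ / 2 - δ‖) := by
    rw [norm_div, norm_neg, norm_mul, norm_mul]
    simp
  rw [hr2] at b3 b4
  refine ⟨a1, b1, a2, b2, ?_, ?_, ?_, ?_, ?_, ?_⟩
  · refine a3.trans (le_of_eq ?_)
    ring
  · refine a4.trans (le_of_eq ?_)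
    ring
  · refine b3.trans (le_of_eq ?_)
    ring
  · refine b4.trans (le_of_eq ?_)
    ring
  · intro hδ
    have hθ : θ ≠ 0 := by
      intro h
      rw [h, norm_zero] at hδ
      linarith [norm_nonneg δ]
    have hθn : 0 < ‖θ‖ := norm_pos_iff.2 hθ
    set u : ℂ := 1 - 4 * δ ^ 2 / θ ^ 2 with hu
    have hu0 : u ≠ 0 := by
      intro h
      have h5 : 4 * δ ^ 2 / θ ^ 2 = 1 := by
        rw [hu] at h
        linear_combination -h
      have h6 : ‖4 * δ ^ 2 / θ ^ 2‖ = 1 := by rw [h5, norm_one]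
      rw [norm_div, norm_mul, norm_pow, norm_pow, div_eq_iff (by positivity)] at h6
      have h7 : ‖(4 : ℂ)‖ = 4 := by simp
      rw [h7] at h6
      nlinarith [norm_nonneg δ]
    have hw : (θ / 2 + δ) * (θ / 2 - δ) = (θ / 2) ^ 2 * u := by
      rw [hu]
      field_simp
      ring
    have hθ2 : θ / 2 ≠ 0 := div_ne_zero hθ two_ne_zero
    have h8 : E2 n θ δ / mm n (θ / 2) ^ 2 = (starRingEnd ℂ u / u) ^ n := by
      rw [congrFun hF2 δ]
      rw [hw, map_mul, map_pow, mul_div_mul_comm, mul_pow]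
      unfold mm
      rw [← pow_mul, mul_comm n 2, pow_mul, div_pow (starRingEnd ℂ (θ / 2)) (θ / 2) 2,
        mul_div_assoc, mul_comm, div_mul_cancel₀]
      refine pow_ne_zero _ (div_ne_zero (pow_ne_zero _ ?_) (pow_ne_zero _ hθ2))
      exact (map_ne_zero _).2 hθ2
    rw [h8]
    have h9 : starRingEnd ℂ u / u = Complex.exp (-(2 * ((Complex.log u).im : ℂ)) * Complex.I) := by
      have h10 : -(2 * ((Complex.log u).im : ℂ)) * Complex.I =
          starRingEnd ℂ (Complex.log u) - Complex.log u := by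
        have := Complex.sub_conj (Complex.log u)
        push_cast at this
        linear_combination this
      rw [h10, Complex.exp_sub, Complex.exp_conj, Complex.exp_log hu0]
    have him : ((-(2 * n) * Complex.log u).im : ℝ) = -(2 * n) * (Complex.log u).im := by
      simp [Complex.mul_im]
    rw [h9, ← Complex.exp_nat_mul, him]
    congr 1
    push_cast
    ring
  · set a : ℂ := δ + θ / 2 with ha
    set b : ℂ := δ - θ / 2 with hb
    have hab : a = b + θ := by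
      rw [ha, hb]
      ring
    have hE : E1 n θ δ = (starRingEnd ℂ (a / b) / (a / b)) ^ n := congrFun hF1 δ
    have hz : ‖starRingEnd ℂ (a / b) / (a / b)‖ = 1 := by
      rw [norm_div, RCLike.norm_conj, div_self (norm_ne_zero_iff.2 (div_ne_zero h3 h4))]
    have hz1 : starRingEnd ℂ (a / b) / (a / b) - 1 =
        (starRingEnd ℂ θ * b - θ * starRingEnd ℂ b) / (a * starRingEnd ℂ b) := by
      have hbc : starRingEnd ℂ b ≠ 0 := (map_ne_zero _).2 h4
      rw [map_div₀]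
      rw [div_div_div_eq, div_sub_one (mul_ne_zero hbc h3), mul_comm (starRingEnd ℂ b) a]
      congr 1
      rw [hab, map_add]
      ring
    have hz2 : ‖starRingEnd ℂ (a / b) / (a / b) - 1‖ ≤ 2 * ‖θ‖ / ‖a‖ := by
      rw [hz1, norm_div, norm_mul, RCLike.norm_conj]
      have hbn : 0 < ‖b‖ := norm_pos_iff.2 h4
      have han : 0 < ‖a‖ := norm_pos_iff.2 h3
      rw [div_le_div_iff₀ (by positivity) han]
      have h11 : ‖starRingEnd ℂ θ * b - θ * starRingEnd ℂ b‖ ≤ 2 * ‖θ‖ * ‖b‖ := by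
        refine (norm_sub_le _ _).trans ?_
        rw [norm_mul, norm_mul, RCLike.norm_conj, RCLike.norm_conj]
        linarith
      nlinarith
    rw [hE]
    refine (pow_sub_one_le hz n).trans ?_
    have hmin : min ‖θ / 2 + δ‖ ‖θ / 2 - δ‖ ≤ ‖a‖ := by
      rw [ha, hn3]
      exact min_le_left _ _
    have hminp : 0 < min ‖θ / 2 + δ‖ ‖θ / 2 - δ‖ :=
      lt_min (norm_pos_iff.2 h1) (norm_pos_iff.2 h2)
    calc (n : ℝ) * ‖starRingEnd ℂ (a / b) / (a / b) - 1‖ ≤ n * (2 * ‖θ‖ / ‖a‖) :=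
          mul_le_mul_of_nonneg_left hz2 (Nat.cast_nonneg n)
      _ = 2 * n * ‖θ‖ / ‖a‖ := by ring
      _ ≤ 2 * n * ‖θ‖ / min ‖θ / 2 + δ‖ ‖θ / 2 - δ‖ :=
          div_le_div_of_nonneg_left (by positivity) hminp hmin

end Pool.Agent.Lib.MP_dd244f_an.Four
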