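import Pool.Agent.Lib.MP_dd244f_an.Four.Basic

/-!
Full operator, `p = 4`: the main inequality for compactly supported Fourier transforms.
-/

set_option autoImplicit false

namespace Pool.Agent.Lib.MP_dd244f_an.Four

open MeasureTheory Filter Topology Finset

theorem iF_block (hB : StmtBase) (hF : StmtFac) {g : ℂ → ℂ} (hg : CC g) (s : ℤ) (k : ℕ) (x : ℂ) :
    iF (cut (bd s (s + k)) g) x = ∑ i ∈ Finset.range k, iF (cut (sh (s + i)) g) x := by
  induction k with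
  | zero =>
    simp only [Nat.cast_zero, add_zero, Finset.range_zero, Finset.sum_empty]
    unfold iF cut
    simp [bd_self]
  | succ k ih =>
    rw [Finset.sum_range_succ, ← ih]
    have hadd := hB.2.2.2.2.1 _ _ (hF.2.2.2.2.1 g s (s + k) hg).2.1
      (hF.2.2.2.2.1 g (s + k) s hg).2.2 x
    rw [← hadd]
    congr 1
    ext ζ
    unfold cut sh bd
    have e : (s : ℤ) + ((k + 1 : ℕ) : ℤ) = s + k + 1 := by push_cast; ring
    rw [e]
    push_cast
    ring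

theorem sum_pow_four (k : ℕ) (u : ℕ → ℝ) (hu : ∀ i, 0 ≤ u i) :
    (∑ i ∈ Finset.range k, u i) ^ 4 ≤ (k : ℝ) ^ 3 * ∑ i ∈ Finset.range k, u i ^ 4 := by
  have h1 : (∑ i ∈ Finset.range k, u i) ^ 2 ≤ k * ∑ i ∈ Finset.range k, u i ^ 2 := by
    have := sq_sum_le_card_mul_sum_sq (s := Finset.range k) (f := u)
    simpa using this
  have h2 : (∑ i ∈ Finset.range k, u i ^ 2) ^ 2 ≤ k * ∑ i ∈ Finset.range k, (u i ^ 2) ^ 2 := by
    have := sq_sum_le_card_mul_sum_sq (s := Finset.range k) (f := fun i => u i ^ 2)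
    simpa using this
  have h0 : 0 ≤ ∑ i ∈ Finset.range k, u i := Finset.sum_nonneg fun i _ => hu i
  calc (∑ i ∈ Finset.range k, u i) ^ 4 = ((∑ i ∈ Finset.range k, u i) ^ 2) ^ 2 := by ring
    _ ≤ (k * ∑ i ∈ Finset.range k, u i ^ 2) ^ 2 := pow_le_pow_left₀ (by positivity) h1 2
    _ = (k : ℝ) ^ 2 * (∑ i ∈ Finset.range k, u i ^ 2) ^ 2 := by ring
    _ ≤ (k : ℝ) ^ 2 * (k * ∑ i ∈ Finset.range k, (u i ^ 2) ^ 2) :=
        mul_le_mul_of_nonneg_left h2 (by positivity)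
    _ = (k : ℝ) ^ 3 * ∑ i ∈ Finset.range k, u i ^ 4 := by
        have : ∀ i, (u i ^ 2) ^ 2 = u i ^ 4 := fun i => by ring
        simp only [this]
        ring

theorem block_le (hB : StmtBase) (hF : StmtFac) {g : ℂ → ℂ} (hg : CC g) (s : ℤ) (k : ℕ) :
    N4 (cut (bd s (s + k)) g) ≤ (k : ℝ) ^ 3 * ∑ i ∈ Finset.range k, N4 (cut (sh (s + i)) g) := by
  have hint : ∀ i : ℤ, Integrable (fun x => ‖iF (cut (sh i) g) x‖ ^ 4) := fun i =>
    (hB.1 _ (hF.2.2.2.2.1 g i i hg).2.2).2.2.2.1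
  have hI := (hB.1 _ (hF.2.2.2.2.1 g s (s + k) hg).2.1).2.2.2.1
  unfold N4
  rw [← integral_finsetSum _ (fun i _ => hint _), ← integral_const_mul]
  refine integral_mono hI ((integrable_finsetSum _ (fun i _ => hint _)).const_mul _) fun x => ?_
  simp only
  rw [iF_block hB hF hg]
  refine (pow_le_pow_left₀ (norm_nonneg _) (norm_sum_le _ _) 4).trans ?_
  exact sum_pow_four k _ fun i => norm_nonneg _

theorem inj_aux (L : ℕ) (Bs : Finset ℤ) (c : ℤ) :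
    Set.InjOn (fun p : ℤ × ℕ => c + p.1 * (L : ℤ) + p.2)
      ((Bs ×ˢ Finset.range L : Finset (ℤ × ℕ)) : Set (ℤ × ℕ)) := by
  rintro ⟨b, t⟩ h ⟨b', t'⟩ h' he
  simp only [Finset.coe_product, Set.mem_prod, Finset.mem_coe, Finset.mem_range] at h h'
  simp only at he
  have e1 : (b - b') * (L : ℤ) = (t' : ℤ) - t := by linarith
  have hb : b - b' = 0 := by
    by_contra hne
    have h3 : (1 : ℤ) ≤ |b - b'| := Int.one_le_abs hne
    have h4 : |(b - b') * (L : ℤ)| = |b - b'| * L := by rw [abs_mul, Nat.abs_cast]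
    have h5 : |(t' : ℤ) - t| < L := by
      rw [abs_lt]; constructor <;> omega
    rw [e1] at h4
    have : (L : ℤ) ≤ |b - b'| * L := by nlinarith [Int.natCast_nonneg L]
    omega
  have hbb : b = b' := by omega
  rw [hb, zero_mul] at e1
  have : t = t' := by omega
  simp [this, hbb]

theorem sum_blocks_le (hB : StmtBase) (hF : StmtFac) {C : ℝ} (hP : ∀ (A : Finset ℤ) (g : ℂ → ℂ),
    CC g → ∑ a ∈ A, N4 (cut (sh a) g) ≤ C * N4 g) {g : ℂ → ℂ} (hg : CC g) (c : ℤ) (L : ℕ)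
    (Bs : Finset ℤ) :
    ∑ b ∈ Bs, N4 (cut (bd (c + b * L) (c + b * L + L)) g) ≤ (L : ℝ) ^ 3 * (C * N4 g) := by
  calc ∑ b ∈ Bs, N4 (cut (bd (c + b * L) (c + b * L + L)) g)
      ≤ ∑ b ∈ Bs, (L : ℝ) ^ 3 * ∑ i ∈ Finset.range L, N4 (cut (sh (c + b * L + i)) g) :=
        Finset.sum_le_sum fun b _ => block_le hB hF hg _ _
    _ = (L : ℝ) ^ 3 * ∑ b ∈ Bs, ∑ i ∈ Finset.range L, N4 (cut (sh (c + b * L + i)) g) := by
        rw [Finset.mul_sum]
    _ = (L : ℝ) ^ 3 * ∑ p ∈ Bs ×ˢ Finset.range L, N4 (cut (sh (c + p.1 * L + p.2)) g) := by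
        rw [Finset.sum_product]
    _ = (L : ℝ) ^ 3 * ∑ a ∈ (Bs ×ˢ Finset.range L).image
          (fun p : ℤ × ℕ => c + p.1 * (L : ℤ) + p.2), N4 (cut (sh a) g) := by
        rw [Finset.sum_image (inj_aux L Bs c)]
    _ ≤ _ := mul_le_mul_of_nonneg_left (hP _ g hg) (by positivity)

theorem exists_le_of_sum_le {L : ℕ} (hL : 1 ≤ L) (f : ℕ → ℝ) (K : ℝ)
    (h : ∑ t ∈ Finset.range L, f t ≤ L * K) : ∃ t ∈ Finset.range L, f t ≤ K := by
  by_contra hcon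
  push_neg at hcon
  have : ∑ t ∈ Finset.range L, K < ∑ t ∈ Finset.range L, f t :=
    Finset.sum_lt_sum_of_nonempty ⟨0, Finset.mem_range.2 hL⟩ hcon
  rw [Finset.sum_const, Finset.card_range, nsmul_eq_mul] at this
  linarith

theorem sq_split {δ : ℝ} (hδ : 0 < δ) (a b : ℂ) :
    ‖a‖ ^ 2 ≤ (1 + δ) * ‖b‖ ^ 2 + (1 + 1 / δ) * ‖b - a‖ ^ 2 := by
  have h1 : ‖a‖ ≤ ‖b‖ + ‖b - a‖ := by
    have := norm_sub_le b (b - a)
    simpa using this
  have h2 : ‖a‖ ^ 2 ≤ (‖b‖ + ‖b - a‖) ^ 2 := pow_le_pow_left₀ (norm_nonneg _) h1 2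
  have h3 : 0 ≤ (δ * ‖b‖ - ‖b - a‖) ^ 2 / δ := by positivity
  have h4 : (δ * ‖b‖ - ‖b - a‖) ^ 2 / δ
      = δ * ‖b‖ ^ 2 - 2 * ‖b‖ * ‖b - a‖ + 1 / δ * ‖b - a‖ ^ 2 := by
    field_simp
    ring
  nlinarith [h2, h3, h4]

/-- the pass from the blocks to the whole function (`c = -t`) -/
theorem inner_sum (hBlk : StmtBlock) (hEIJ : StmtEIJ) (hTail : StmtTail) (hPP : StmtPP)
    (hF : StmtFac) (hB : StmtBase) (δ : ℝ) (hδ : 0 < δ) (hδ1 : δ ≤ 1) :
    ∃ m : ℕ, 4 ≤ m ∧ ∀ L : ℕ, 2 * m < L → ∃ n₀ : ℕ, ∀ n ≥ n₀, ∀ g, CC g → ∀ (c : ℤ)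
      (Bs : Finset ℤ),
      ∑ b ∈ Bs, N4 (cut (bd (c + b * L + m) (c + b * L + L - m)) (mg n g)) ≤
        ((1 + 19 * δ) * gam ^ 4 + δ) * n ^ 2 * N4 g := by
  obtain ⟨Q, m₀, hQ, hm₀, hBlk⟩ := hBlk δ hδ
  obtain ⟨m₁, hEIJ⟩ := hEIJ δ hδ
  obtain ⟨CP, hCP, hPP⟩ := hPP
  have hP4 : ∀ (A : Finset ℤ) (g : ℂ → ℂ), CC g → ∑ a ∈ A, N4 (cut (sh a) g) ≤ CP * N4 g :=
    fun A g hg => (hPP A (fun a => a) g g hg hg).2.2.2
  refine ⟨max m₀ m₁, hm₀.trans (le_max_left _ _), ?_⟩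
  set m := max m₀ m₁ with hm
  have hm4 : 4 ≤ m := hm₀.trans (le_max_left _ _)
  intro L hL
  have hL0 : (0 : ℝ) < L := by
    have : 0 < L := by omega
    exact_mod_cast this
  obtain ⟨n₁, hn₁1, hBlk⟩ := hBlk m (le_max_left _ _) L hL (δ / ((L : ℝ) ^ 3 * CP)) (by positivity)
  obtain ⟨n₂, hEIJ⟩ := hEIJ m (le_max_right _ _) L hL Q hQ
  obtain ⟨n₃, hTail⟩ := hTail Q L m (δ / (1 + 1 / δ)) hQ hm4 hL (by positivity)
  refine ⟨max n₁ (max n₂ n₃), ?_⟩
  intro n hn g hg c Bs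
  have hn1 : n ≥ n₁ := (le_max_left _ _).trans hn
  have hn2 : n ≥ n₂ := ((le_max_left _ _).trans (le_max_right _ _)).trans hn
  have hn3 : n ≥ n₃ := ((le_max_right _ _).trans (le_max_right _ _)).trans hn
  have hE := hEIJ n hn2 g hg c Bs
  have hT := hTail n hn3 g hg c Bs
  have hN : 0 ≤ N4 g := n4_nonneg _
  -- each block
  have h1 : ∀ b ∈ Bs, N4 (cut (bd (c + b * L + m) (c + b * L + L - m)) (mg n g)) ≤
      (1 + δ) * gam ^ 4 * n ^ 2 *
        ((1 + δ) * (∫ θ in Jset (c + b * L) L m, ‖As (win n Q (c + b * L) L) g g θ‖ ^ 2)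
        + (1 + 1 / δ) * (∫ θ in Jset (c + b * L) L m, ‖As (win n Q (c + b * L) L) g g θ
          - As (win n Q (c + b * L) L) (cut (bd (c + b * L) (c + b * L + L)) g)
              (cut (bd (c + b * L) (c + b * L + L)) g) θ‖ ^ 2))
      + δ / ((L : ℝ) ^ 3 * CP) * n ^ 2 * N4 (cut (bd (c + b * L) (c + b * L + L)) g) := by
    intro b _
    have h := hBlk n hn1 (c + b * L) g hg
    refine h.trans ?_
    have hgam : 0 ≤ gam ^ 4 := by positivity
    set gb := cut (bd (c + b * L) (c + b * L + L)) g with hgb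
    have hgbc : CC gb := (hF.2.2.2.2.1 g _ _ hg).2.1
    set σ := win n Q (c + b * L) L
    have hcc1 : CC (As σ g g) := as_cc hB hg hg
    have hcc2 : CC (As σ gb gb) := as_cc hB hgbc hgbc
    have hi1 : Integrable (fun θ => ‖As σ g g θ‖ ^ 2) := by
      apply Continuous.integrable_of_hasCompactSupport
      · have := hcc1.1; fun_prop
      · exact hcc1.2.comp_left (g := fun z => ‖z‖ ^ 2) (by simp)
    have hi2 : Integrable (fun θ => ‖As σ gb gb θ‖ ^ 2) := by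
      apply Continuous.integrable_of_hasCompactSupport
      · have := hcc2.1; fun_prop
      · exact hcc2.2.comp_left (g := fun z => ‖z‖ ^ 2) (by simp)
    have hi3 : Integrable (fun θ => ‖As σ g g θ - As σ gb gb θ‖ ^ 2) := by
      apply Continuous.integrable_of_hasCompactSupport
      · have := hcc2.1; have := hcc1.1; fun_prop
      · have : HasCompactSupport (fun θ => As σ g g θ - As σ gb gb θ) := hcc1.2.sub hcc2.2
        exact this.comp_left (g := fun z => ‖z‖ ^ 2) (by simp)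
    have h2 : (∫ θ in Jset (c + b * L) L m, ‖As σ gb gb θ‖ ^ 2) ≤
        (1 + δ) * (∫ θ in Jset (c + b * L) L m, ‖As σ g g θ‖ ^ 2)
        + (1 + 1 / δ) * (∫ θ in Jset (c + b * L) L m, ‖As σ g g θ - As σ gb gb θ‖ ^ 2) := by
      rw [← integral_const_mul, ← integral_const_mul, ← integral_add
        (hi1.integrableOn.const_mul _) (hi3.integrableOn.const_mul _)]
      refine setIntegral_mono hi2.integrableOn
        ((hi1.integrableOn.const_mul _).add (hi3.integrableOn.const_mul _)) fun θ => ?_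
      exact sq_split hδ _ _
    have h3 := mul_le_mul_of_nonneg_left h2 (show 0 ≤ (1 + δ) * gam ^ 4 * n ^ 2 by positivity)
    linarith
  refine (Finset.sum_le_sum h1).trans ?_
  rw [Finset.sum_add_distrib, ← Finset.mul_sum, Finset.sum_add_distrib, ← Finset.mul_sum,
    ← Finset.mul_sum, ← Finset.mul_sum]
  have hS := sum_blocks_le hB hF hP4 hg c L Bs
  have e1 : (1 + 1 / δ) * (δ / (1 + 1 / δ) * N4 g) = δ * N4 g := by
    field_simp
  have hT' := mul_le_mul_of_nonneg_left hT (show 0 ≤ 1 + 1 / δ by positivity)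
  rw [e1] at hT'
  have hE' := mul_le_mul_of_nonneg_left hE (show 0 ≤ 1 + δ by positivity)
  have hS' := mul_le_mul_of_nonneg_left hS
    (show 0 ≤ δ / ((L : ℝ) ^ 3 * CP) * n ^ 2 by positivity)
  have e2 : δ / ((L : ℝ) ^ 3 * CP) * n ^ 2 * ((L : ℝ) ^ 3 * (CP * N4 g)) = δ * n ^ 2 * N4 g := by
    field_simp
  rw [e2] at hS'
  have hgam : 0 ≤ gam ^ 4 := by positivity
  have h4 : (1 + δ) * gam ^ 4 * n ^ 2 * ((1 + δ) * (∑ b ∈ Bs,
      ∫ θ in Jset (c + b * L) L m, ‖As (win n Q (c + b * L) L) g g θ‖ ^ 2)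
        + (1 + 1 / δ) * (∑ b ∈ Bs, ∫ θ in Jset (c + b * L) L m,
          ‖As (win n Q (c + b * L) L) g g θ
          - As (win n Q (c + b * L) L) (cut (bd (c + b * L) (c + b * L + L)) g)
              (cut (bd (c + b * L) (c + b * L + L)) g) θ‖ ^ 2))
      ≤ (1 + δ) * gam ^ 4 * n ^ 2 * ((1 + δ) * ((1 + δ) * N4 g) + δ * N4 g) :=
    mul_le_mul_of_nonneg_left (add_le_add hE' hT') (by positivity)
  have h5 : (1 + δ) * gam ^ 4 * n ^ 2 * ((1 + δ) * ((1 + δ) * N4 g) + δ * N4 g)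
      ≤ (1 + 19 * δ) * gam ^ 4 * n ^ 2 * N4 g := by
    have e3 : (1 + δ) * gam ^ 4 * n ^ 2 * ((1 + δ) * ((1 + δ) * N4 g) + δ * N4 g)
      = ((1 + δ) * ((1 + δ) * (1 + δ) + δ)) * (gam ^ 4 * n ^ 2 * N4 g) := by ring
    have e4 : (1 + 19 * δ) * gam ^ 4 * n ^ 2 * N4 g
      = (1 + 19 * δ) * (gam ^ 4 * n ^ 2 * N4 g) := by ring
    rw [e3, e4]
    apply mul_le_mul_of_nonneg_right _ (by positivity)
    have d2 : δ ^ 2 ≤ δ := by rw [sq]; exact mul_le_of_le_one_right hδ.le hδ1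
    have d3 : δ ^ 3 ≤ δ := by
      have : δ ^ 3 = δ ^ 2 * δ := by ring
      rw [this]; exact (mul_le_of_le_one_right (by positivity) hδ1).trans d2
    have : (1 + δ) * ((1 + δ) * (1 + δ) + δ) = 1 + 4 * δ + 4 * δ ^ 2 + δ ^ 3 := by ring
    rw [this]
    linarith
  calc _ ≤ (1 + 19 * δ) * gam ^ 4 * n ^ 2 * N4 g + δ * n ^ 2 * N4 g :=
        add_le_add (h4.trans h5) hS'
    _ = _ := by ring

theorem main4 (hAvg : StmtAvg) (hApr : StmtApr) (hPP : StmtPP) (hBlk : StmtBlock)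
    (hEIJ : StmtEIJ) (hTail : StmtTail) (hBd : StmtBdry) (hSh : StmtShift)
    (hF : StmtFac) (hB : StmtBase) : StmtMain4 := by
  intro ε hε
  have hgam : 0 < gam := by
    unfold gam
    exact div_pos (Real.Gamma_pos_of_pos (by norm_num)) (Real.Gamma_pos_of_pos (by norm_num))
  set Γ : ℝ := gam ^ 4 with hΓ
  have hΓ0 : 0 < Γ := by positivity
  set δ : ℝ := min 1 (ε * Γ / (58 * Γ + 4)) with hδdef
  have hδ : 0 < δ := lt_min one_pos (by positivity)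
  have hδ1 : δ ≤ 1 := min_le_left _ _
  have hδ2 : δ * (58 * Γ + 4) ≤ ε * Γ := by
    have := min_le_right 1 (ε * Γ / (58 * Γ + 4))
    rw [← hδdef] at this
    rwa [le_div_iff₀ (by positivity)] at this
  obtain ⟨m, hm4, hin⟩ := inner_sum hBlk hEIJ hTail hPP hF hB δ hδ hδ1
  obtain ⟨CA, hCA, hAvg⟩ := hAvg
  obtain ⟨B, nA, hB1, hnA, hApr⟩ := hApr
  obtain ⟨CP, hCP, hPP⟩ := hPP
  have hP4 : ∀ (A : Finset ℤ) (g : ℂ → ℂ), CC g → ∑ a ∈ A, N4 (cut (sh a) g) ≤ CP * N4 g :=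
    fun A g hg => (hPP A (fun a => a) g g hg hg).2.2.2
  obtain ⟨CD, hCD, hBd⟩ := hBd δ hδ
  have hm0 : (0 : ℝ) < m := by
    have : 0 < m := by omega
    exact_mod_cast this
  -- choice of L
  set W : ℝ := 2 * CA * B + CD * (m : ℝ) ^ 3 * (2 * m * (CP * B)) with hW
  have hB0 : 0 < B := by linarith
  have hW0 : 0 < W := by positivity
  obtain ⟨L₀, hL₀⟩ := exists_nat_gt (W / δ)
  set L := max L₀ (2 * m + 1) with hLdef
  have hL2 : 2 * m < L := by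
    have := le_max_right L₀ (2 * m + 1); omega
  have hLW : W ≤ L * δ := by
    have h1 : (L₀ : ℝ) ≤ L := by exact_mod_cast le_max_left _ _
    have h2 : W / δ ≤ L := hL₀.le.trans h1
    rwa [div_le_iff₀ hδ] at h2
  have hL1 : 1 ≤ L := by omega
  obtain ⟨n₁, hin⟩ := hin L hL2
  refine ⟨max (max nA n₁) (L ^ 2), ?_⟩
  intro n hn g hg hZ
  have hnnA : n ≥ nA := ((le_max_left _ _).trans (le_max_left _ _)).trans hn
  have hnn1 : n ≥ n₁ := ((le_max_right _ _).trans (le_max_left _ _)).trans hn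
  have hnL : L ^ 2 ≤ n := (le_max_right _ _).trans hn
  have hn1 : 1 ≤ n := hnA.trans hnnA
  have hn0 : (0 : ℝ) < n := by
    have : 0 < n := by omega
    exact_mod_cast this
  have hLn : (L : ℝ) / Real.sqrt n ≤ 1 := by
    rw [div_le_one (by positivity)]
    apply Real.le_sqrt_of_sq_le
    exact_mod_cast hnL
  have hG : CC (mg n g) ∧ Z0 (mg n g) := hF.2.2.2.2.2.1 g n hn1 hg hZ
  have hApr' := hApr n hnnA g hg hZ
  have hN : 0 ≤ N4 g := n4_nonneg _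
  -- support
  obtain ⟨R, hR⟩ : ∃ R : ℕ, Sup R g := by
    obtain ⟨r₁, hr₁0, hr₁⟩ := Metric.eventually_nhds_iff_ball.1 hZ
    obtain ⟨r₂, hr₂⟩ := hg.2.isCompact.isBounded.subset_closedBall (0 : ℂ)
    obtain ⟨R₁, hR₁⟩ := exists_pow_lt_of_lt_one hr₁0 (by norm_num : (1 / 2 : ℝ) < 1)
    obtain ⟨R₂, hR₂⟩ := pow_unbounded_of_one_lt r₂ (by norm_num : (1 : ℝ) < 2)
    refine ⟨max R₁ R₂, fun ζ hζ => ⟨?_, ?_⟩⟩
    · have h1 : r₁ ≤ ‖ζ‖ := by
        by_contra h2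
        push_neg at h2
        exact hζ (hr₁ ζ (by simpa using h2))
      refine le_trans ?_ h1
      refine le_trans ?_ hR₁.le
      rw [zpow_neg, zpow_natCast, one_div, inv_pow]
      apply inv_anti₀ (by positivity)
      exact pow_le_pow_right₀ (by norm_num) (le_max_left _ _)
    · have h1 : ζ ∈ Metric.closedBall (0 : ℂ) r₂ := hr₂ (subset_tsupport _ hζ)
      rw [mem_closedBall_zero_iff] at h1
      rw [zpow_natCast]
      refine h1.trans (hR₂.le.trans ?_)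
      exact pow_le_pow_right₀ (by norm_num) (le_max_right _ _)
  set I : Finset ℤ := Finset.Icc (-((R : ℤ) + 4)) (R + 4) with hI
  set G := mg n g with hGdef
  have hGS : ∀ ζ, G ζ ≠ 0 → (2 : ℝ) ^ (-(R : ℤ)) ≤ ‖ζ‖ ∧ ‖ζ‖ ≤ (2 : ℝ) ^ (R : ℤ) := by
    intro ζ hζ
    apply hR
    intro h
    apply hζ
    rw [hGdef]; unfold mg; rw [h, mul_zero]
  -- averaging
  have hA := hAvg n B R L g hn1 hB1 hL1 hg hR hApr'
  set x : ℤ → ℝ := fun i => N4 (cut (sh i) G) with hx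
  have hx0 : ∀ i, 0 ≤ x i := fun i => n4_nonneg _
  have hcutz : ∀ i : ℤ, (∀ ζ, G ζ ≠ 0 → sh i ζ = 0) → x i = 0 := by
    intro i hi
    have : cut (sh i) G = fun _ => 0 := by
      ext ζ
      unfold cut
      by_cases h : G ζ = 0
      · rw [h, mul_zero]
      · rw [hi ζ h]; simp
    rw [hx]
    simp only
    rw [this]
    unfold N4 iF
    simp
  have hlo1 := hF.2.1
  have hlo0 := hF.2.2.1
  have hxlow : ∀ i, i < -((R + 2 : ℕ) : ℤ) → x i = 0 := by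
    intro i hi
    apply hcutz
    intro ζ hζ
    have h1 := (hGS ζ hζ).1
    have h2 : ∀ j : ℤ, j ≤ i + 1 → lo j ζ = 0 := by
      intro j hj
      apply hlo0
      have h3 : (2 : ℝ) ^ j ≤ (2 : ℝ) ^ (-(R : ℤ) - 1) := by
        apply zpow_le_zpow_right₀ (by norm_num)
        push_cast at hi
        linarith
      have h4 : (2 : ℝ) * (2 : ℝ) ^ (-(R : ℤ) - 1) = (2 : ℝ) ^ (-(R : ℤ)) := by
        rw [zpow_sub₀ (by norm_num)]; norm_num; ring
      have h5 : 0 < (2 : ℝ) ^ j := by positivity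
      have h6 : 2 * (2 : ℝ) ^ j ≤ ‖ζ‖ := by linarith
      nlinarith
    unfold sh bd
    rw [h2 _ le_rfl, h2 _ (by linarith)]
    ring
  have hxhigh : ∀ i, ((R + 2 : ℕ) : ℤ) < i → x i = 0 := by
    intro i hi
    apply hcutz
    intro ζ hζ
    have h1 := (hGS ζ hζ).2
    have h2 : ∀ j : ℤ, i ≤ j → lo j ζ = 1 := by
      intro j hj
      apply hlo1
      refine h1.trans ?_
      apply zpow_le_zpow_right₀ (by norm_num)
      push_cast at hi
      linarith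
    unfold sh bd
    rw [h2 _ le_rfl, h2 _ (by linarith)]
    ring
  have hS := hSh m L (R + 2) x hL2 hx0 hxlow hxhigh I
  have hS2 : ∑ i ∈ Finset.Icc (-((R + 2 : ℕ) : ℤ)) ((R + 2 : ℕ) : ℤ), x i ≤ CP * N4 G :=
    hP4 _ G hG.1
  set X : ℕ → ℝ := fun t => N4 G - ∑ b ∈ I, N4 (cut (bd (b * L - t) ((b + 1) * L - t)) G)
    with hXdef
  set Y : ℕ → ℝ := fun t => ∑ b ∈ I, ∑ i ∈ Finset.range m,
      (x (b * L - t + i) + x ((b + 1) * L - t - 1 - i)) with hYdef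
  have hsum : ∑ t ∈ Finset.range L, (X t + CD * (m : ℝ) ^ 3 * Y t) ≤
      L * (δ * n ^ 2 * N4 g) := by
    rw [Finset.sum_add_distrib, ← Finset.mul_sum]
    have h1 : ∑ t ∈ Finset.range L, X t ≤ 2 * CA * B * (n ^ 2 * N4 g) := by
      refine hA.trans ?_
      have : CA * B * (1 + L / Real.sqrt n) * n ^ 2 * N4 g
        = (1 + L / Real.sqrt n) * (CA * B * (n ^ 2 * N4 g)) := by ring
      rw [this]
      have h2 : (1 + L / Real.sqrt n) ≤ 2 := by linarith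
      have h3 : 0 ≤ CA * B * (n ^ 2 * N4 g) := by positivity
      nlinarith
    have h2 : ∑ t ∈ Finset.range L, Y t ≤ 2 * m * (CP * B) * (n ^ 2 * N4 g) := by
      refine hS.trans ?_
      have h3 : CP * N4 G ≤ CP * (B * n ^ 2 * N4 g) := mul_le_mul_of_nonneg_left hApr' hCP.le
      have h4 : (0 : ℝ) ≤ 2 * m := by positivity
      calc 2 * (m : ℝ) * ∑ i ∈ Finset.Icc (-((R + 2 : ℕ) : ℤ)) ((R + 2 : ℕ) : ℤ), x i
          ≤ 2 * m * (CP * (B * n ^ 2 * N4 g)) :=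
            mul_le_mul_of_nonneg_left (hS2.trans h3) h4
        _ = _ := by ring
    have h3 := mul_le_mul_of_nonneg_left h2 (show 0 ≤ CD * (m : ℝ) ^ 3 by positivity)
    have h4 : 0 ≤ (n : ℝ) ^ 2 * N4 g := by positivity
    calc _ ≤ 2 * CA * B * (n ^ 2 * N4 g)
          + CD * (m : ℝ) ^ 3 * (2 * m * (CP * B) * (n ^ 2 * N4 g)) := add_le_add h1 h3
      _ = W * (n ^ 2 * N4 g) := by rw [hW]; ring
      _ ≤ L * δ * (n ^ 2 * N4 g) := mul_le_mul_of_nonneg_right hLW h4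
      _ = _ := by ring
  obtain ⟨t, -, ht⟩ := exists_le_of_sum_le hL1 _ _ hsum
  have hin' := hin n hnn1 g hg (-(t : ℤ)) I
  -- blocks
  have hblk : ∑ b ∈ I, N4 (cut (bd (b * L - t) ((b + 1) * L - t)) G) ≤
      (1 + δ) * (∑ b ∈ I, N4 (cut (bd (-(t : ℤ) + b * L + m) (-(t : ℤ) + b * L + L - m)) G))
        + CD * (m : ℝ) ^ 3 * Y t := by
    rw [hYdef]
    simp only
    rw [Finset.mul_sum, Finset.mul_sum, ← Finset.sum_add_distrib]
    refine Finset.sum_le_sum fun b _ => ?_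
    have h := hBd m L (b * L - t) G hL2 hG.1
    have e1 : ((b : ℤ) + 1) * L - t = b * L - t + L := by ring
    have e2 : -(t : ℤ) + b * L = b * L - t := by ring
    rw [e1, e2]
    exact h
  have hfin : N4 G = X t + ∑ b ∈ I, N4 (cut (bd (b * L - t) ((b + 1) * L - t)) G) := by
    rw [hXdef]; simp only; ring
  have h1 : N4 G ≤ δ * n ^ 2 * N4 g + (1 + δ) * (((1 + 19 * δ) * Γ + δ) * n ^ 2 * N4 g) := by
    have h2 := mul_le_mul_of_nonneg_left hin' (show 0 ≤ 1 + δ by positivity)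
    linarith
  refine h1.trans ?_
  have e1 : δ * n ^ 2 * N4 g + (1 + δ) * (((1 + 19 * δ) * Γ + δ) * n ^ 2 * N4 g)
      = (δ + (1 + δ) * ((1 + 19 * δ) * Γ + δ)) * (n ^ 2 * N4 g) := by ring
  have e2 : (1 + ε) * Γ * n ^ 2 * N4 g = ((1 + ε) * Γ) * (n ^ 2 * N4 g) := by ring
  rw [e1, e2]
  apply mul_le_mul_of_nonneg_right _ (by positivity)
  have d2 : δ ^ 2 ≤ δ := by rw [sq]; exact mul_le_of_le_one_right hδ.le hδ1
  have e3 : δ + (1 + δ) * ((1 + 19 * δ) * Γ + δ)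
      = Γ + 20 * δ * Γ + 19 * (δ ^ 2 * Γ) + 2 * δ + δ ^ 2 := by ring
  rw [e3]
  have d3 : δ ^ 2 * Γ ≤ δ * Γ := mul_le_mul_of_nonneg_right d2 hΓ0.le
  have d4 : δ * (58 * Γ + 4) = 58 * (δ * Γ) + 4 * δ := by ring
  have d5 : 0 ≤ δ * Γ := by positivity
  have d6 : (1 + ε) * Γ = Γ + ε * Γ := by ring
  rw [d6]
  have d7 : 20 * δ * Γ = 20 * (δ * Γ) := by ring
  rw [d7]
  linarith

end Pool.Agent.Lib.MP_dd244f_an.Four
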