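import Pool.Agent.Lib.MP_dd244f_an.Four.Basic

/-!
Full operator, `p = 4`: the maximal inequality (linearisation and duality).
-/

set_option autoImplicit false

namespace Pool.Agent.Lib.MP_dd244f_an.Four

open MeasureTheory Filter Topology Finset

/-- linearisation of a maximum -/
theorem max_lin (A : Finset ℤ) (u : ℤ → ℂ → ℝ) (hu : ∀ a, Measurable (u a))
    (h0 : ∀ a x, 0 ≤ u a x) : ∃ (M : ℂ → ℝ) (ψ : ℤ → ℂ → ℝ), Measurable M ∧
      (∀ a, Measurable (ψ a)) ∧ (∀ x, 0 ≤ M x) ∧ (∀ a ∈ A, ∀ x, u a x ≤ M x) ∧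
      (∀ a x, 0 ≤ ψ a x) ∧ (∀ x, ∑ a ∈ A, ψ a x ≤ 1) ∧
      ∀ x, M x = ∑ a ∈ A, ψ a x * u a x := by
  classical
  induction A using Finset.induction_on with
  | empty =>
    exact ⟨fun _ => 0, fun _ _ => 0, measurable_const, fun _ => measurable_const,
      fun _ => le_rfl, fun a ha => absurd ha (Finset.notMem_empty a), fun _ _ => le_rfl,
      fun x => by simp, fun x => by simp⟩
  | insert a s ha ih =>
    obtain ⟨M, ψ, hM, hψ, hM0, hMu, hψ0, hψ1, hMs⟩ := ih
    have hset : MeasurableSet {x | M x ≤ u a x} := measurableSet_le hM (hu a)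
    refine ⟨fun x => max (M x) (u a x),
      fun b x => if b = a then (if M x ≤ u a x then 1 else 0)
        else (if M x ≤ u a x then 0 else ψ b x), hM.max (hu a), ?_, ?_, ?_, ?_, ?_, ?_⟩
    · intro b
      by_cases hb : b = a
      · simp only [hb, if_true]
        exact Measurable.ite hset measurable_const measurable_const
      · simp only [hb, if_false]
        exact Measurable.ite hset measurable_const (hψ b)
    · intro x
      exact (hM0 x).trans (le_max_left _ _)
    · intro b hb x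
      rcases Finset.mem_insert.mp hb with rfl | hb
      · exact le_max_right _ _
      · exact (hMu b hb x).trans (le_max_left _ _)
    · intro b x
      dsimp only
      split_ifs
      · exact zero_le_one
      · exact le_rfl
      · exact le_rfl
      · exact hψ0 b x
    · intro x
      rw [Finset.sum_insert ha]
      have h1 : ∑ b ∈ s, (if b = a then (if M x ≤ u a x then (1 : ℝ) else 0)
          else (if M x ≤ u a x then 0 else ψ b x)) =
          ∑ b ∈ s, (if M x ≤ u a x then 0 else ψ b x) :=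
        Finset.sum_congr rfl fun b hb => by
          rw [if_neg (by rintro rfl; exact ha hb)]
      rw [h1]
      by_cases h : M x ≤ u a x
      · simp [h]
      · simp only [h, if_true, if_false, zero_add]
        exact hψ1 x
    · intro x
      rw [Finset.sum_insert ha]
      have h1 : ∑ b ∈ s, (if b = a then (if M x ≤ u a x then (1 : ℝ) else 0)
          else (if M x ≤ u a x then 0 else ψ b x)) * u b x =
          ∑ b ∈ s, (if M x ≤ u a x then 0 else ψ b x) * u b x :=
        Finset.sum_congr rfl fun b hb => by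
          rw [if_neg (by rintro rfl; exact ha hb)]
      rw [h1]
      by_cases h : M x ≤ u a x
      · simp [h]
      · simp only [h, if_true, if_false, zero_mul, zero_add]
        rw [← hMs x]
        exact max_eq_left (not_le.mp h).le

/-- Cauchy-Schwarz for integrals -/
theorem cs_int {S F : ℂ → ℝ} (h1 : Integrable (fun x => S x ^ 2))
    (h2 : Integrable (fun x => F x ^ 2)) (h3 : Integrable (fun x => S x * F x)) :
    (∫ x, S x * F x) ^ 2 ≤ (∫ x, S x ^ 2) * ∫ x, F x ^ 2 := by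
  have h : ∀ t : ℝ, 0 ≤ (∫ x, S x ^ 2) * (t * t) + (-2 * ∫ x, S x * F x) * t
      + ∫ x, F x ^ 2 := by
    intro t
    have h4 : ∫ x, (t * S x - F x) ^ 2 = (∫ x, S x ^ 2) * (t * t)
        + (-2 * ∫ x, S x * F x) * t + ∫ x, F x ^ 2 := by
      have h5 : (fun x => (t * S x - F x) ^ 2) =
          fun x => (t ^ 2 * S x ^ 2 + (-2 * t) * (S x * F x)) + F x ^ 2 := by
        ext x; ring
      have h7 : Integrable (fun x => t ^ 2 * S x ^ 2) := h1.const_mul _
      have h8 : Integrable (fun x => (-2 * t) * (S x * F x)) := h3.const_mul _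
      have h9 : Integrable (fun x => t ^ 2 * S x ^ 2 + (-2 * t) * (S x * F x)) := h7.add h8
      rw [h5, integral_add h9 h2, integral_add h7 h8, integral_const_mul, integral_const_mul]
      ring
    rw [← h4]
    exact integral_nonneg fun x => by positivity
  have h6 := discrim_le_zero h
  unfold discrim at h6
  nlinarith

theorem kk_cont {ρ : ℝ} (hρ : 0 < ρ) : Continuous (KK ρ) := by
  unfold KK
  refine Continuous.div continuous_const (by fun_prop) fun x => ?_
  positivity

theorem kk_neg (ρ : ℝ) (x : ℂ) : KK ρ (-x) = KK ρ x := by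
  unfold KK
  rw [norm_neg]

/-- Fubini for the averaging kernels -/
theorem kk_fubini (hK : StmtKK) {ρ : ℝ} (hρ : 0 < ρ) {φ F : ℂ → ℝ} (hφ : Integrable φ)
    (hF : Integrable F) :
    Integrable (fun x => φ x * ∫ y, KK ρ (x - y) * F y) ∧
    Integrable (fun y => (∫ x, KK ρ (y - x) * φ x) * F y) ∧
    ∫ x, φ x * ∫ y, KK ρ (x - y) * F y = ∫ y, (∫ x, KK ρ (y - x) * φ x) * F y := by
  have hbd : ∀ x, ‖KK ρ x‖ ≤ 1 / ρ ^ 2 := by
    intro x
    obtain ⟨h1, h2⟩ := ((hK.1 ρ hρ).2.2 x)
    rw [Real.norm_of_nonneg h1.le]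
    exact h2
  have hint : Integrable (fun z : ℂ × ℂ => KK ρ (z.1 - z.2) * (φ z.1 * F z.2))
      (volume.prod volume) := by
    refine Integrable.bdd_mul (c := 1 / ρ ^ 2) (hφ.mul_prod hF) ?_ ?_
    · exact ((kk_cont hρ).comp (continuous_fst.sub continuous_snd)).aestronglyMeasurable
    · exact ae_of_all _ fun z => hbd _
  have e1 : ∀ x, φ x * ∫ y, KK ρ (x - y) * F y = ∫ y, KK ρ (x - y) * (φ x * F y) := by
    intro x
    rw [← integral_const_mul]
    congr 1
    ext y
    ring
  have e2 : ∀ y, (∫ x, KK ρ (y - x) * φ x) * F y = ∫ x, KK ρ (x - y) * (φ x * F y) := by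
    intro y
    rw [← integral_mul_const]
    congr 1
    ext x
    rw [← kk_neg ρ (x - y), neg_sub]
    ring
  refine ⟨?_, ?_, ?_⟩
  · simp only [e1]
    exact hint.integral_prod_left
  · simp only [e2]
    exact hint.integral_prod_right
  · simp only [e1, e2]
    exact integral_integral_swap hint

theorem max4 (hD : StmtDD) (hP : StmtLPK) (hK : StmtKK) (hB : StmtBase) (hF : StmtFac) :
    StmtMax := by
  obtain ⟨C1, hC1, hD⟩ := hD
  obtain ⟨C2, hC2, hP⟩ := hP
  refine ⟨C2 ^ 2 * C1, by positivity, ?_⟩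
  intro A g hg
  have hcut : ∀ a, CC (cut (lo a) g) := fun a => (hF.2.2.2.2.1 g a a hg).1
  have hu : ∀ a, Continuous (fun x => ‖iF (cut (lo a) g) x‖ ^ 2) := fun a =>
    ((hB.1 _ (hcut a)).1.norm.pow 2)
  have hu1 : ∀ a, Integrable (fun x => ‖iF (cut (lo a) g) x‖ ^ 2) := fun a =>
    (hB.1 _ (hcut a)).2.2.1
  have hu2 : ∀ a, Integrable (fun x => (‖iF (cut (lo a) g) x‖ ^ 2) ^ 2) := fun a => by
    have := (hB.1 _ (hcut a)).2.2.2.1
    refine this.congr (ae_of_all _ fun x => ?_)
    dsimp only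
    ring
  obtain ⟨M, ψ, hM, hψ, hM0, hMu, hψ0, hψ1, hMs⟩ := max_lin A
    (fun a x => ‖iF (cut (lo a) g) x‖ ^ 2) (fun a => (hu a).measurable) (fun a x => by positivity)
  have hψle : ∀ a ∈ A, ∀ x, ψ a x ≤ 1 := fun a ha x =>
    (Finset.single_le_sum (f := fun a => ψ a x) (fun b _ => hψ0 b x) ha).trans (hψ1 x)
  have hMle : ∀ x, M x ≤ ∑ a ∈ A, ‖iF (cut (lo a) g) x‖ ^ 2 := by
    intro x
    rw [hMs x]
    refine Finset.sum_le_sum fun a ha => ?_
    have h1 := hψle a ha x
    have h2 : 0 ≤ ‖iF (cut (lo a) g) x‖ ^ 2 := by positivity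
    nlinarith
  have hMint : Integrable M := by
    refine Integrable.mono' (integrable_finsetSum A fun a _ => hu1 a)
      hM.aestronglyMeasurable (ae_of_all _ fun x => ?_)
    rw [Real.norm_of_nonneg (hM0 x)]
    exact hMle x
  have hM2 : Integrable (fun x => M x ^ 2) := by
    refine Integrable.mono' ((integrable_finsetSum A fun a _ => hu2 a).const_mul (A.card : ℝ))
      (hM.pow_const 2).aestronglyMeasurable (ae_of_all _ fun x => ?_)
    rw [Real.norm_of_nonneg (by positivity)]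
    calc M x ^ 2 ≤ (∑ a ∈ A, ‖iF (cut (lo a) g) x‖ ^ 2) ^ 2 :=
          pow_le_pow_left₀ (hM0 x) (hMle x) 2
      _ ≤ (A.card : ℝ) * ∑ a ∈ A, (‖iF (cut (lo a) g) x‖ ^ 2) ^ 2 := by
          exact sq_sum_le_card_mul_sum_sq
  refine ⟨M, hM, hM0, hMu, hM2, ?_⟩
  -- the dual functions
  set φ : ℤ → ℂ → ℝ := fun a x => ψ a x * M x with hφdef
  have hφm : ∀ a, Measurable (φ a) := fun a => (hψ a).mul hM
  have hφ0 : ∀ a x, 0 ≤ φ a x := fun a x => mul_nonneg (hψ0 a x) (hM0 x)
  have hφle : ∀ a ∈ A, ∀ x, φ a x ≤ M x := fun a ha x => by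
    have := hψle a ha x
    have := hM0 x
    show ψ a x * M x ≤ M x
    nlinarith
  have hφint : ∀ a ∈ A, Integrable (φ a) := fun a ha =>
    Integrable.mono' hMint (hφm a).aestronglyMeasurable (ae_of_all _ fun x => by
      rw [Real.norm_of_nonneg (hφ0 a x)]
      exact hφle a ha x)
  have hφL2 : ∀ a ∈ A, MemLp (φ a) 2 volume := fun a ha => by
    rw [memLp_two_iff_integrable_sq (hφm a).aestronglyMeasurable]
    exact Integrable.mono' hM2 ((hφm a).pow_const 2).aestronglyMeasurable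
      (ae_of_all _ fun x => by
        rw [Real.norm_of_nonneg (by positivity)]
        exact pow_le_pow_left₀ (hφ0 a x) (hφle a ha x) 2)
  obtain ⟨hS2, hSle⟩ := hD A φ fun a ha => ⟨hφ0 a, hφL2 a ha⟩
  set F : ℂ → ℝ := fun x => ‖iF g x‖ ^ 2 with hFdef
  have hFint : Integrable F := (hB.1 g hg).2.2.1
  have hF2 : Integrable (fun x => F x ^ 2) := by
    refine ((hB.1 g hg).2.2.2.1).congr (ae_of_all _ fun x => ?_)
    simp only [hFdef]
    ring
  have hN4 : N4 g = ∫ x, F x ^ 2 := by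
    unfold N4
    congr 1
    ext x
    simp only [hFdef]
    ring
  have hρ : ∀ a : ℤ, (0 : ℝ) < (2 : ℝ) ^ (-a) := fun a => by positivity
  have hfub := fun a (ha : a ∈ A) => kk_fubini hK (hρ a) (hφint a ha) hFint
  have hSF : Integrable (fun y => (∑ a ∈ A, ∫ x, KK ((2 : ℝ) ^ (-a)) (y - x) * φ a x) * F y) := by
    simp only [Finset.sum_mul]
    exact integrable_finsetSum A fun a ha => (hfub a ha).2.1
  -- the chain of inequalities
  have h1 : ∫ x, M x ^ 2 ≤
      C2 * ∫ y, (∑ a ∈ A, ∫ x, KK ((2 : ℝ) ^ (-a)) (y - x) * φ a x) * F y := by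
    have h2 : ∀ a ∈ A, Integrable (fun x => φ a x * ‖iF (cut (lo a) g) x‖ ^ 2) := fun a ha => by
      refine Integrable.mono' (((hfub a ha).1).const_mul C2)
        ((hφm a).mul (hu a).measurable).aestronglyMeasurable (ae_of_all _ fun x => ?_)
      rw [Real.norm_of_nonneg (mul_nonneg (hφ0 a x) (by positivity))]
      have := (hP a g hg x).1
      calc φ a x * ‖iF (cut (lo a) g) x‖ ^ 2
          ≤ φ a x * (C2 * ∫ y, KK ((2 : ℝ) ^ (-a)) (x - y) * ‖iF g y‖ ^ 2) :=
            mul_le_mul_of_nonneg_left this (hφ0 a x)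
        _ = C2 * (φ a x * ∫ y, KK ((2 : ℝ) ^ (-a)) (x - y) * F y) := by
            simp only [hFdef]; ring
    calc ∫ x, M x ^ 2 = ∫ x, ∑ a ∈ A, φ a x * ‖iF (cut (lo a) g) x‖ ^ 2 := by
          congr 1
          ext x
          have h3 : ∑ a ∈ A, φ a x * ‖iF (cut (lo a) g) x‖ ^ 2 =
              M x * ∑ a ∈ A, ψ a x * ‖iF (cut (lo a) g) x‖ ^ 2 := by
            rw [Finset.mul_sum]
            refine Finset.sum_congr rfl fun a _ => ?_
            simp only [hφdef]
            ring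
          rw [h3, ← hMs x]
          ring
      _ = ∑ a ∈ A, ∫ x, φ a x * ‖iF (cut (lo a) g) x‖ ^ 2 := integral_finsetSum A h2
      _ ≤ ∑ a ∈ A, C2 * ∫ y, (∫ x, KK ((2 : ℝ) ^ (-a)) (y - x) * φ a x) * F y := by
          refine Finset.sum_le_sum fun a ha => ?_
          rw [← (hfub a ha).2.2, ← integral_const_mul]
          refine integral_mono (h2 a ha) (((hfub a ha).1).const_mul C2) fun x => ?_
          have := (hP a g hg x).1
          calc φ a x * ‖iF (cut (lo a) g) x‖ ^ 2
              ≤ φ a x * (C2 * ∫ y, KK ((2 : ℝ) ^ (-a)) (x - y) * ‖iF g y‖ ^ 2) :=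
                mul_le_mul_of_nonneg_left this (hφ0 a x)
            _ = C2 * (φ a x * ∫ y, KK ((2 : ℝ) ^ (-a)) (x - y) * F y) := by
                simp only [hFdef]; ring
      _ = C2 * ∫ y, (∑ a ∈ A, ∫ x, KK ((2 : ℝ) ^ (-a)) (y - x) * φ a x) * F y := by
          rw [← Finset.mul_sum]
          congr 1
          simp only [Finset.sum_mul]
          exact (integral_finsetSum A fun a ha => (hfub a ha).2.1).symm
  have h2 := cs_int hS2 hF2 hSF
  have h3 : ∫ x, (∑ a ∈ A, φ a x) ^ 2 ≤ ∫ x, M x ^ 2 := by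
    have h4 : ∀ x, ∑ a ∈ A, φ a x ≤ M x := fun x => by
      have : ∑ a ∈ A, φ a x = (∑ a ∈ A, ψ a x) * M x := by
        rw [Finset.sum_mul]
      rw [this]
      have := hψ1 x
      have := hM0 x
      nlinarith
    refine integral_mono_of_nonneg (ae_of_all _ fun x => by positivity) hM2
      (ae_of_all _ fun x => ?_)
    exact pow_le_pow_left₀ (Finset.sum_nonneg fun a _ => hφ0 a x) (h4 x) 2
  set I := ∫ x, M x ^ 2 with hI
  set J := ∫ y, (∑ a ∈ A, ∫ x, KK ((2 : ℝ) ^ (-a)) (y - x) * φ a x) * F y with hJ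
  have hI0 : 0 ≤ I := integral_nonneg fun x => by positivity
  have hN0 : 0 ≤ N4 g := n4_nonneg g
  rw [← hN4] at h2
  have h5 : J ^ 2 ≤ C1 * I * N4 g := by
    refine h2.trans (mul_le_mul_of_nonneg_right ?_ hN0)
    exact hSle.trans (mul_le_mul_of_nonneg_left h3 hC1.le)
  have h6 : I ^ 2 ≤ C2 ^ 2 * C1 * N4 g * I := by
    have h7 : I ^ 2 ≤ (C2 * J) ^ 2 := pow_le_pow_left₀ hI0 h1 2
    calc I ^ 2 ≤ (C2 * J) ^ 2 := h7
      _ = C2 ^ 2 * J ^ 2 := by ring
      _ ≤ C2 ^ 2 * (C1 * I * N4 g) := mul_le_mul_of_nonneg_left h5 (by positivity)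
      _ = C2 ^ 2 * C1 * N4 g * I := by ring
  rcases hI0.eq_or_lt with h8 | h8
  · rw [← h8]
    positivity
  · have h9 : I * I ≤ (C2 ^ 2 * C1 * N4 g) * I := by
      rw [← sq]
      exact h6
    exact le_of_mul_le_mul_right h9 h8

end Pool.Agent.Lib.MP_dd244f_an.Four
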