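import Pool.Agent.Lib.MP_dd244f_an.Four.Basic

/-!
Module F4-PP: paraproduct bounds (supremum times sum).
-/

set_option autoImplicit false

namespace Pool.Agent.Lib.MP_dd244f_an.Four

open MeasureTheory Finset

private theorem csIneq {f g : ℂ → ℝ} (hf0 : ∀ x, 0 ≤ f x) (hg0 : ∀ x, 0 ≤ g x)
    (hfm : AEStronglyMeasurable f volume) (hgm : AEStronglyMeasurable g volume)
    (hf : Integrable (fun x => f x ^ 2)) (hg : Integrable (fun x => g x ^ 2)) :
    ∫ x, f x * g x ≤ Real.sqrt (∫ x, f x ^ 2) * Real.sqrt (∫ x, g x ^ 2) := by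
  have h := integral_mul_le_Lp_mul_Lq_of_nonneg (μ := (volume : Measure ℂ)) (p := 2) (q := 2)
    (Real.HolderConjugate.two_two) (f := f) (g := g) (Filter.Eventually.of_forall hf0)
    (Filter.Eventually.of_forall hg0)
    (by
      rw [ENNReal.ofReal_ofNat]
      exact (memLp_two_iff_integrable_sq hfm).2 hf)
    (by
      rw [ENNReal.ofReal_ofNat]
      exact (memLp_two_iff_integrable_sq hgm).2 hg)
  simp only [Real.rpow_ofNat] at h
  rw [Real.sqrt_eq_rpow, Real.sqrt_eq_rpow]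
  exact h

private theorem KK_nonneg (ρ : ℝ) (x : ℂ) : 0 ≤ KK ρ x := by unfold KK; positivity

private theorem qa_nonneg (a : ℤ) (g : ℂ → ℂ) (x : ℂ) : 0 ≤ qa a g x :=
  integral_nonneg fun y => mul_nonneg (KK_nonneg _ _) (by positivity)

private theorem qa_aesm (hS : StmtSq) (a : ℤ) {g : ℂ → ℂ} (hg : CC g) :
    Integrable (fun x => qa a g x ^ 2) ∧ AEStronglyMeasurable (qa a g) volume := by
  obtain ⟨C, _, hC⟩ := hS
  have h1 := (hC {a} g hg).1
  simp only [Finset.sum_singleton] at h1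
  refine ⟨h1, ?_⟩
  have h2 := (Real.continuous_sqrt.comp_aestronglyMeasurable h1.aestronglyMeasurable)
  refine h2.congr (Filter.Eventually.of_forall fun x => ?_)
  exact Real.sqrt_sq (qa_nonneg a g x)

theorem pp (hS : StmtSq) (hM : StmtMax) (hP : StmtLPK) (hB : StmtBase) (hF : StmtFac) : StmtPP := by
  have hSq := hS
  obtain ⟨C₁, hC₁, hS'⟩ := hS
  obtain ⟨C₂, hC₂, hM'⟩ := hM
  obtain ⟨C₃, hC₃, hP'⟩ := hP
  set K := Real.sqrt C₁ * Real.sqrt C₂ with hKdef
  have hK : 0 < K := mul_pos (Real.sqrt_pos.2 hC₁) (Real.sqrt_pos.2 hC₂)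
  refine ⟨K + C₃ * K + C₃ ^ 2 * C₁, by positivity, fun A τ g h hg hh => ?_⟩
  obtain ⟨M, hMm, hM0, hMle, hMi, hMb⟩ := hM' (A.image τ) h hh
  have hN1 := n4_nonneg g
  have hN2 := n4_nonneg h
  have hlocc : ∀ a : ℤ, CC (cut (lo a) h) := fun a => (hF.2.2.2.2.1 h a a hh).1
  have hshcc : ∀ a : ℤ, CC (cut (sh a) g) := fun a => (hF.2.2.2.2.1 g a a hg).2.2
  have hlom : ∀ a : ℤ, Continuous (fun x => ‖iF (cut (lo a) h) x‖ ^ 2) := fun a =>
    ((hB.1 _ (hlocc a)).1.norm.pow 2)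
  have hshm : ∀ a : ℤ, Continuous (fun x => ‖iF (cut (sh a) g) x‖) := fun a =>
    ((hB.1 _ (hshcc a)).1.norm)
  have hle : ∀ a ∈ A, ∀ x, ‖iF (cut (lo (τ a)) h) x‖ ^ 2 ≤ M x := fun a ha x =>
    hMle (τ a) (Finset.mem_image_of_mem τ ha) x
  -- the integrability
  have hqM : ∀ a, Integrable (fun x => qa a g x * M x) := by
    intro a
    obtain ⟨i1, i2⟩ := qa_aesm hSq a hg
    refine Integrable.mono' (i1.add hMi) (i2.mul hMm.aestronglyMeasurable)
      (Filter.Eventually.of_forall fun x => ?_)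
    rw [Real.norm_eq_abs, abs_of_nonneg (mul_nonneg (qa_nonneg _ _ _) (hM0 x))]
    simp only [Pi.add_apply]
    nlinarith [sq_nonneg (qa a g x - M x), sq_nonneg (qa a g x), sq_nonneg (M x)]
  have hint : ∀ a ∈ A, Integrable (fun x => qa a g x * ‖iF (cut (lo (τ a)) h) x‖ ^ 2) := by
    intro a ha
    obtain ⟨i1, i2⟩ := qa_aesm hSq a hg
    refine Integrable.mono' (hqM a) (i2.mul (hlom _).aestronglyMeasurable)
      (Filter.Eventually.of_forall fun x => ?_)
    rw [Real.norm_eq_abs, abs_of_nonneg (mul_nonneg (qa_nonneg _ _ _) (by positivity))]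
    exact mul_le_mul_of_nonneg_left (hle a ha x) (qa_nonneg _ _ _)
  have hSint := hS' A g hg
  have hSm : AEStronglyMeasurable (fun x => ∑ a ∈ A, qa a g x) volume := by
    refine Finset.aestronglyMeasurable_fun_sum A fun a _ => (qa_aesm hSq a hg).2
  have hS0 : ∀ x, 0 ≤ ∑ a ∈ A, qa a g x := fun x => Finset.sum_nonneg fun a _ => qa_nonneg a g x
  have h2 : ∑ a ∈ A, ∫ x, qa a g x * ‖iF (cut (lo (τ a)) h) x‖ ^ 2
      ≤ K * (Real.sqrt (N4 g) * Real.sqrt (N4 h)) := by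
    calc ∑ a ∈ A, ∫ x, qa a g x * ‖iF (cut (lo (τ a)) h) x‖ ^ 2
        ≤ ∑ a ∈ A, ∫ x, qa a g x * M x := by
          refine Finset.sum_le_sum fun a ha => ?_
          refine integral_mono (hint a ha) (hqM a) fun x => ?_
          exact mul_le_mul_of_nonneg_left (hle a ha x) (qa_nonneg _ _ _)
      _ = ∫ x, (∑ a ∈ A, qa a g x) * M x := by
          rw [← integral_finsetSum A fun a _ => hqM a]
          congr 1
          ext x
          rw [Finset.sum_mul]
      _ ≤ Real.sqrt (∫ x, (∑ a ∈ A, qa a g x) ^ 2) * Real.sqrt (∫ x, M x ^ 2) :=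
          csIneq hS0 hM0 hSm hMm.aestronglyMeasurable hSint.1 hMi
      _ ≤ Real.sqrt (C₁ * N4 g) * Real.sqrt (C₂ * N4 h) := by
          refine mul_le_mul (Real.sqrt_le_sqrt hSint.2) (Real.sqrt_le_sqrt hMb)
            (Real.sqrt_nonneg _) (Real.sqrt_nonneg _)
      _ = K * (Real.sqrt (N4 g) * Real.sqrt (N4 h)) := by
          rw [Real.sqrt_mul hC₁.le, Real.sqrt_mul hC₂.le, hKdef]
          ring
  have hNN : 0 ≤ Real.sqrt (N4 g) * Real.sqrt (N4 h) := by positivity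
  refine ⟨hint, ?_, ?_, ?_⟩
  · refine h2.trans (mul_le_mul_of_nonneg_right ?_ hNN)
    have : 0 ≤ C₃ * K + C₃ ^ 2 * C₁ := by positivity
    linarith
  · have h3 : ∑ a ∈ A, N22 (cut (sh a) g) (cut (lo (τ a)) h) ≤
        C₃ * ∑ a ∈ A, ∫ x, qa a g x * ‖iF (cut (lo (τ a)) h) x‖ ^ 2 := by
      rw [Finset.mul_sum]
      refine Finset.sum_le_sum fun a ha => ?_
      unfold N22
      rw [← integral_const_mul]
      refine integral_mono_of_nonneg (Filter.Eventually.of_forall fun x => by positivity)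
        ((hint a ha).const_mul _) (Filter.Eventually.of_forall fun x => ?_)
      have := (hP' a g hg x).2.2
      have h4 := mul_le_mul_of_nonneg_right this (sq_nonneg ‖iF (cut (lo (τ a)) h) x‖)
      calc _ ≤ _ := h4
        _ = _ := by ring
    have h4 : C₃ * ∑ a ∈ A, ∫ x, qa a g x * ‖iF (cut (lo (τ a)) h) x‖ ^ 2
        ≤ C₃ * (K * (Real.sqrt (N4 g) * Real.sqrt (N4 h))) := mul_le_mul_of_nonneg_left h2 hC₃.le
    have h5 : 0 ≤ K + C₃ ^ 2 * C₁ := by positivity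
    nlinarith [mul_nonneg h5 hNN]
  · have h3 : ∑ a ∈ A, N4 (cut (sh a) g) ≤ C₃ ^ 2 * ∑ a ∈ A, ∫ x, qa a g x ^ 2 := by
      rw [Finset.mul_sum]
      refine Finset.sum_le_sum fun a ha => ?_
      unfold N4
      rw [← integral_const_mul]
      refine integral_mono_of_nonneg (Filter.Eventually.of_forall fun x => by positivity)
        ((qa_aesm hSq a hg).1.const_mul _) (Filter.Eventually.of_forall fun x => ?_)
      have := (hP' a g hg x).2.2
      have h4 : (‖iF (cut (sh a) g) x‖ ^ 2) ^ 2 ≤ (C₃ * qa a g x) ^ 2 :=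
        pow_le_pow_left₀ (by positivity) this 2
      calc ‖iF (cut (sh a) g) x‖ ^ 4 = (‖iF (cut (sh a) g) x‖ ^ 2) ^ 2 := by ring
        _ ≤ _ := h4
        _ = _ := by ring
    have h4 : ∑ a ∈ A, ∫ x, qa a g x ^ 2 ≤ ∫ x, (∑ a ∈ A, qa a g x) ^ 2 := by
      rw [← integral_finsetSum A fun a _ => (qa_aesm hSq a hg).1]
      refine integral_mono (integrable_finsetSum A fun a _ => (qa_aesm hSq a hg).1) hSint.1
        fun x => ?_
      exact Finset.sum_sq_le_sq_sum_of_nonneg fun a _ => qa_nonneg a g x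
    have h5 := h4.trans hSint.2
    have h6 : C₃ ^ 2 * ∑ a ∈ A, ∫ x, qa a g x ^ 2 ≤ C₃ ^ 2 * (C₁ * N4 g) :=
      mul_le_mul_of_nonneg_left h5 (by positivity)
    have h7 : 0 ≤ K + C₃ * K := by positivity
    nlinarith [mul_nonneg h7 hN1]

end Pool.Agent.Lib.MP_dd244f_an.Four
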