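import Pool.Agent.Lib.MP_dd244f_an.Four.Stmts

/-!
The phase space identity.
-/

set_option autoImplicit false

namespace Pool.Agent.Lib.MP_dd244f_an.Four

open MeasureTheory Filter Topology Finset

namespace PSAux

/-- multiplication by a continuous function -/
theorem cc_mul {g w : ℂ → ℂ} (hg : CC g) (hw : Continuous w) : CC (fun ζ => w ζ * g ζ) :=
  ⟨hw.mul hg.1, hg.2.mul_left⟩

theorem cont_gauss (σ : ℝ) (ξ : ℂ) :
    Continuous (fun ζ : ℂ => (Real.exp (-(Real.pi * σ ^ 2 * ‖ζ - ξ‖ ^ 2)) : ℂ)) := by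
  fun_prop

/-- parallelogram identity -/
theorem par (θ δ ξ : ℂ) :
    ‖θ / 2 + δ - ξ‖ ^ 2 + ‖θ / 2 - δ - ξ‖ ^ 2 = 2 * ‖θ / 2 - ξ‖ ^ 2 + 2 * ‖δ‖ ^ 2 := by
  rw [← Complex.normSq_eq_norm_sq, ← Complex.normSq_eq_norm_sq, ← Complex.normSq_eq_norm_sq,
    ← Complex.normSq_eq_norm_sq]
  simp only [Complex.normSq_apply, Complex.add_re, Complex.sub_re, Complex.add_im, Complex.sub_im]
  ring

theorem bil_gauss (σ : ℝ) (g h : ℂ → ℂ) (ξ θ : ℂ) :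
    bil (fun _ => 1)
      (fun ζ => (Real.exp (-(Real.pi * σ ^ 2 * ‖ζ - ξ‖ ^ 2)) : ℂ) * g ζ)
      (fun ζ => (Real.exp (-(Real.pi * σ ^ 2 * ‖ζ - ξ‖ ^ 2)) : ℂ) * h ζ) θ
      = (Real.exp (-(2 * Real.pi * σ ^ 2 * ‖θ / 2 - ξ‖ ^ 2)) : ℂ) * As σ g h θ := by
  unfold As bil
  rw [← integral_const_mul]
  refine integral_congr_ae (Eventually.of_forall fun δ => ?_)
  have h1 : (Real.exp (-(Real.pi * σ ^ 2 * ‖θ / 2 + δ - ξ‖ ^ 2)) : ℂ) *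
      (Real.exp (-(Real.pi * σ ^ 2 * ‖θ / 2 - δ - ξ‖ ^ 2)) : ℂ) =
      (Real.exp (-(2 * Real.pi * σ ^ 2 * ‖θ / 2 - ξ‖ ^ 2)) : ℂ) *
      (Real.exp (-(2 * Real.pi * σ ^ 2 * ‖δ‖ ^ 2)) : ℂ) := by
    rw [← Complex.ofReal_mul, ← Complex.ofReal_mul, ← Real.exp_add, ← Real.exp_add]
    congr 2
    have := par θ δ ξ
    linear_combination (-(Real.pi * σ ^ 2)) * this
  show 1 * ((Real.exp (-(Real.pi * σ ^ 2 * ‖θ / 2 + δ - ξ‖ ^ 2)) : ℂ) * g (θ / 2 + δ) *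
      ((Real.exp (-(Real.pi * σ ^ 2 * ‖θ / 2 - δ - ξ‖ ^ 2)) : ℂ) * h (θ / 2 - δ))) =
    (Real.exp (-(2 * Real.pi * σ ^ 2 * ‖θ / 2 - ξ‖ ^ 2)) : ℂ) *
      ((Real.exp (-(2 * Real.pi * σ ^ 2 * ‖δ‖ ^ 2)) : ℂ) * (g (θ / 2 + δ) * h (θ / 2 - δ)))
  linear_combination (g (θ / 2 + δ) * h (θ / 2 - δ)) * h1

end PSAux

open PSAux in
theorem ps (hB : StmtBase) : StmtPS := by
  intro σ g h ξ hg hh
  have hg' := cc_mul hg (cont_gauss σ ξ)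
  have hh' := cc_mul hh (cont_gauss σ ξ)
  have h1 := (hB.2.1 _ _ hg' hh').2.2
  unfold N22 at h1
  rw [h1]
  refine integral_congr_ae (Eventually.of_forall fun θ => ?_)
  simp only
  rw [bil_gauss, norm_mul, mul_pow, Complex.norm_real, Real.norm_eq_abs, Real.abs_exp]
  congr 1
  rw [← Real.exp_nat_mul]
  congr 1
  have h2 : θ - 2 * ξ = 2 * (θ / 2 - ξ) := by ring
  rw [h2, norm_mul, Complex.norm_ofNat]
  push_cast
  ring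

end Pool.Agent.Lib.MP_dd244f_an.Four
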