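import Pool.Agent.Lib.MP_dd244f_an.Four.Stmts

/-!
Full operator, `p = 4`: the limit of the conjectured constant divided by `√n`.
-/

set_option autoImplicit false

namespace Pool.Agent.Lib.MP_dd244f_an.Four

open MeasureTheory Filter Topology Finset
open Pool.Agent.Lib.MP_dd244f_an.Joint (ratio)

theorem asc_prod (n : ℕ) (x : ℝ) :
    (ascPochhammer ℝ n).eval x = ∏ j ∈ Finset.range n, (x + j) := by
  induction n with
  | zero => simp
  | succ n ih =>
    rw [ascPochhammer_succ_eval, ih, Finset.prod_range_succ]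

theorem ratio4 : StmtRatio4 := by
  unfold StmtRatio4
  rw [← tendsto_add_atTop_iff_nat 1]
  have h1 := Real.GammaSeq_tendsto_Gamma (1 / 4)
  have h2 := Real.GammaSeq_tendsto_Gamma (3 / 4)
  have h3 : Real.Gamma (3 / 4) ≠ 0 := (Real.Gamma_pos_of_pos (by norm_num)).ne'
  have h4 := h1.div h2 h3
  have h5 : Tendsto (fun n : ℕ => Real.sqrt ((n : ℝ) / ((n : ℝ) + 1))) atTop (𝓝 1) := by
    have := (Real.continuous_sqrt.tendsto 1).comp (tendsto_natCast_div_add_atTop (1 : ℝ))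
    rw [Real.sqrt_one] at this
    exact this
  have h6 := h4.mul h5
  rw [mul_one] at h6
  refine h6.congr' ?_
  filter_upwards [eventually_gt_atTop 0] with n hn
  have hn0 : (0 : ℝ) < n := by exact_mod_cast hn
  simp only [Pi.div_apply, Real.GammaSeq, ratio]
  rw [asc_prod, asc_prod, Real.sqrt_div hn0.le]
  have h7 : ∏ j ∈ Finset.range (n + 1), ((3 : ℝ) / 4 + j) ≠ 0 :=
    Finset.prod_ne_zero_iff.mpr fun j _ => by positivity
  have h8 : ∏ j ∈ Finset.range (n + 1), ((1 : ℝ) / 4 + j) ≠ 0 :=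
    Finset.prod_ne_zero_iff.mpr fun j _ => by positivity
  have h9 : (n.factorial : ℝ) ≠ 0 := by exact_mod_cast n.factorial_ne_zero
  have h10 : (n : ℝ) ^ (3 / 4 : ℝ) = (n : ℝ) ^ (1 / 4 : ℝ) * Real.sqrt n := by
    rw [Real.sqrt_eq_rpow, ← Real.rpow_add hn0]
    norm_num
  have h11 : (n : ℝ) ^ (1 / 4 : ℝ) ≠ 0 := (Real.rpow_pos_of_pos hn0 _).ne'
  have h12 : Real.sqrt n ≠ 0 := (Real.sqrt_pos.mpr hn0).ne'
  have h13 : Real.sqrt ((n : ℝ) + 1) ≠ 0 := (Real.sqrt_pos.mpr (by linarith)).ne'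
  have h14 : (1 : ℝ) - 1 / 4 = 3 / 4 := by norm_num
  push_cast
  rw [h10, h14]
  field_simp

end Pool.Agent.Lib.MP_dd244f_an.Four
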