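import Pool.Agent.Lib.MP_dd244f_an.Four.Stmts

/-!
Module F4-Shift: averaging the boundaries of the blocks over the shifts.
-/

set_option autoImplicit false

namespace Pool.Agent.Lib.MP_dd244f_an.Four

open Finset

private theorem sum_le_Icc (N : ℕ) (x : ℤ → ℝ) (h0 : ∀ i, 0 ≤ x i) (h1 : ∀ i, i < -(N : ℤ) → x i = 0)
    (h2 : ∀ i, (N : ℤ) < i → x i = 0) (T : Finset ℤ) :
    ∑ j ∈ T, x j ≤ ∑ j ∈ Finset.Icc (-(N : ℤ)) N, x j := by
  have h3 : ∑ j ∈ T, x j = ∑ j ∈ T.filter (fun j => j ∈ Finset.Icc (-(N : ℤ)) N), x j := by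
    rw [Finset.sum_filter]
    refine Finset.sum_congr rfl fun j _ => ?_
    by_cases hj : j ∈ Finset.Icc (-(N : ℤ)) N
    · simp [hj]
    · rw [if_neg hj]
      rw [Finset.mem_Icc, not_and_or, not_le, not_le] at hj
      rcases hj with hj | hj
      · exact h1 j hj
      · exact h2 j hj
  rw [h3]
  refine Finset.sum_le_sum_of_subset_of_nonneg ?_ fun j _ _ => h0 j
  intro j hj
  exact (Finset.mem_filter.1 hj).2

private theorem sum_inj_le (N L : ℕ) (x : ℤ → ℝ) (h0 : ∀ i, 0 ≤ x i)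
    (h1 : ∀ i, i < -(N : ℤ) → x i = 0) (h2 : ∀ i, (N : ℤ) < i → x i = 0) (Bs : Finset ℤ)
    (s : ℤ) :
    ∑ t ∈ Finset.range L, ∑ b ∈ Bs, x (b * L - t + s) ≤ ∑ j ∈ Finset.Icc (-(N : ℤ)) N, x j := by
  rw [← Finset.sum_product']
  have hinj : Set.InjOn (fun p : ℕ × ℤ => p.2 * (L : ℤ) - p.1 + s)
      ((Finset.range L ×ˢ Bs : Finset (ℕ × ℤ)) : Set (ℕ × ℤ)) := by
    rintro ⟨t, b⟩ h ⟨t', b'⟩ h' he
    simp only [Finset.coe_product, Set.mem_prod, Finset.mem_coe, Finset.mem_range] at h h'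
    simp only at he
    have e1 : (b - b') * (L : ℤ) = (t : ℤ) - t' := by linarith
    have hb : b - b' = 0 := by
      by_contra hne
      have h3 : (1 : ℤ) ≤ |b - b'| := Int.one_le_abs hne
      have h4 : |(b - b') * (L : ℤ)| = |b - b'| * L := by rw [abs_mul, Nat.abs_cast]
      have h5 : |(t : ℤ) - t'| < L := by
        rw [abs_lt]; constructor <;> omega
      rw [e1] at h4
      have : (L : ℤ) ≤ |b - b'| * L := by nlinarith [Int.natCast_nonneg L]
      omega
    have hbb : b = b' := by omega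
    rw [hb, zero_mul] at e1
    have : t = t' := by omega
    simp [this, hbb]
  have := Finset.sum_image (f := x) hinj
  rw [← this]
  exact sum_le_Icc N x h0 h1 h2 _

theorem shift : StmtShift := by
  intro m L N x hmL h0 h1 h2 Bs
  set S := ∑ j ∈ Finset.Icc (-(N : ℤ)) N, x j with hS
  have e : ∑ t ∈ Finset.range L, ∑ b ∈ Bs, ∑ i ∈ Finset.range m,
      (x (b * L - t + i) + x ((b + 1) * L - t - 1 - i))
      = ∑ i ∈ Finset.range m, (∑ t ∈ Finset.range L, ∑ b ∈ Bs, x (b * L - t + (i : ℤ))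
        + ∑ t ∈ Finset.range L, ∑ b ∈ Bs, x (b * L - t + ((L : ℤ) - 1 - i))) := by
    have e1 : ∀ t : ℕ, ∑ b ∈ Bs, ∑ i ∈ Finset.range m,
        (x (b * L - t + i) + x ((b + 1) * L - t - 1 - i))
        = ∑ i ∈ Finset.range m, (∑ b ∈ Bs, x (b * L - t + (i : ℤ))
          + ∑ b ∈ Bs, x (b * L - t + ((L : ℤ) - 1 - i))) := by
      intro t
      rw [Finset.sum_comm]
      refine Finset.sum_congr rfl fun i _ => ?_
      rw [Finset.sum_add_distrib]
      congr 1
      refine Finset.sum_congr rfl fun b _ => ?_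
      congr 1
      ring
    rw [Finset.sum_congr rfl fun t _ => e1 t, Finset.sum_comm]
    refine Finset.sum_congr rfl fun i _ => ?_
    rw [Finset.sum_add_distrib]
  rw [e]
  calc ∑ i ∈ Finset.range m, (∑ t ∈ Finset.range L, ∑ b ∈ Bs, x (b * L - t + (i : ℤ))
        + ∑ t ∈ Finset.range L, ∑ b ∈ Bs, x (b * L - t + ((L : ℤ) - 1 - i)))
      ≤ ∑ _i ∈ Finset.range m, (S + S) := by
        refine Finset.sum_le_sum fun i _ => ?_
        exact add_le_add (sum_inj_le N L x h0 h1 h2 Bs _) (sum_inj_le N L x h0 h1 h2 Bs _)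
    _ = 2 * m * S := by
        rw [Finset.sum_const, Finset.card_range, nsmul_eq_mul]; ring

end Pool.Agent.Lib.MP_dd244f_an.Four
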