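import Pool.Agent.Lib.MP_dd244f_an.Four.Stmts

/-!
Full operator, `p = 4`: the square function inequality.
-/

set_option autoImplicit false

namespace Pool.Agent.Lib.MP_dd244f_an.Four

open MeasureTheory Filter Topology

theorem sum_sq_le_ordered (A : Finset ℤ) (F : ℤ → ℝ) (h : ∀ a, 0 ≤ F a) :
    (∑ a ∈ A, F a) ^ 2 ≤ 2 * ∑ a ∈ A, ∑ b ∈ A.filter (fun b => a ≤ b), F a * F b := by
  have h1 : (∑ a ∈ A, F a) ^ 2 = ∑ a ∈ A, ∑ b ∈ A, F a * F b := by
    rw [sq, Finset.sum_mul_sum]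
  have h2 : ∑ a ∈ A, ∑ b ∈ A, F a * F b ≤ ∑ a ∈ A, ∑ b ∈ A,
      ((if a ≤ b then F a * F b else 0) + (if b ≤ a then F b * F a else 0)) := by
    refine Finset.sum_le_sum fun a _ => Finset.sum_le_sum fun b _ => ?_
    have h3 := mul_nonneg (h a) (h b)
    rcases le_total a b with h4 | h4
    · rw [if_pos h4]
      split_ifs
      · linarith [mul_comm (F a) (F b)]
      · linarith
    · rw [if_pos h4]
      split_ifs
      · linarith [mul_comm (F a) (F b)]
      · linarith [mul_comm (F a) (F b)]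
  have h3 : ∑ a ∈ A, ∑ b ∈ A,
      ((if a ≤ b then F a * F b else 0) + (if b ≤ a then F b * F a else 0))
      = 2 * ∑ a ∈ A, ∑ b ∈ A.filter (fun b => a ≤ b), F a * F b := by
    have h4 : ∑ a ∈ A, ∑ b ∈ A, (if b ≤ a then F b * F a else 0)
        = ∑ a ∈ A, ∑ b ∈ A, (if a ≤ b then F a * F b else 0) := Finset.sum_comm
    simp only [Finset.sum_add_distrib, h4]
    simp only [Finset.sum_filter]
    ring
  rw [h1]
  exact h2.trans h3.le

/-- the square function inequality -/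
theorem sq4 (hL : StmtLocL2) (_hK : StmtKK) (hP : StmtLPK) (hD : StmtDD) (hB : StmtBase)
    (hF : StmtFac) : StmtSq := by
  obtain ⟨CL, hCL, hL⟩ := hL
  obtain ⟨CP, hCP, hP⟩ := hP
  obtain ⟨CD, hCD, hD⟩ := hD
  refine ⟨4 * CP ^ 2 * CL ^ 2 * CD ^ 2, by positivity, fun A g hg => ?_⟩
  have hcut : ∀ a, CC (cut (sh a) g) := fun a => (hF.2.2.2.2.1 g a a hg).2.2
  set F : ℤ → ℂ → ℝ := fun a x => ‖iF (cut (sh a) g) x‖ ^ 2 with hFdef
  have hF0 : ∀ a x, 0 ≤ F a x := fun a x => by positivity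
  have hFc : ∀ a, Continuous (F a) := fun a => (hB.1 _ (hcut a)).1.norm.pow 2
  have hFi : ∀ a, Integrable (F a) := fun a => (hB.1 _ (hcut a)).2.2.1
  have hFm : ∀ a, MemLp (F a) 2 volume := fun a => by
    refine (memLp_two_iff_integrable_sq (hFc a).aestronglyMeasurable).2 ?_
    have h1 := (hB.1 _ (hcut a)).2.2.2.1
    refine h1.congr (Eventually.of_forall fun x => ?_)
    simp only [hFdef]
    ring
  have hQ0 : ∀ a x, 0 ≤ qa a g x := fun a x => by
    refine integral_nonneg fun y => ?_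
    have : 0 ≤ KK ((2 : ℝ) ^ (-a)) (x - y) := by unfold KK; positivity
    exact mul_nonneg this (hF0 a y)
  have hDA : ∀ A : Finset ℤ, Integrable (fun x => (∑ a ∈ A, qa a g x) ^ 2) ∧
      ∫ x, (∑ a ∈ A, qa a g x) ^ 2 ≤ CD * ∫ x, (∑ a ∈ A, F a x) ^ 2 := fun A =>
    hD A F (fun a _ => ⟨hF0 a, hFm a⟩)
  have hQm : ∀ a, MemLp (qa a g) 2 volume := by
    intro a
    have h1 := (hDA {a}).1
    simp only [Finset.sum_singleton] at h1
    have h2 : AEStronglyMeasurable (qa a g) volume := by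
      have h3 := Real.continuous_sqrt.comp_aestronglyMeasurable h1.aestronglyMeasurable
      refine h3.congr (Eventually.of_forall fun x => ?_)
      exact Real.sqrt_sq (hQ0 a x)
    exact (memLp_two_iff_integrable_sq h2).2 h1
  have hGc : Continuous (fun x => ‖iF g x‖ ^ 2) := (hB.1 _ hg).1.norm.pow 2
  have hG4 : Integrable (fun x => (‖iF g x‖ ^ 2) ^ 2) := by
    refine (hB.1 _ hg).2.2.2.1.congr (Eventually.of_forall fun x => ?_)
    simp only
    ring
  have hGm : MemLp (fun x => ‖iF g x‖ ^ 2) 2 volume :=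
    (memLp_two_iff_integrable_sq hGc.aestronglyMeasurable).2 hG4
  have hN4 : ∫ x, (‖iF g x‖ ^ 2) ^ 2 = N4 g := by
    unfold N4
    congr 1
    ext x
    ring
  have hFF : ∀ a b, Integrable (fun x => F a x * F b x) := fun a b => (hFm a).integrable_mul (hFm b)
  have hQF : ∀ a b, Integrable (fun x => qa a g x * F b x) := fun a b =>
    (hQm a).integrable_mul (hFm b)
  have hQG : ∀ a, Integrable (fun x => qa a g x * ‖iF g x‖ ^ 2) := fun a =>
    (hQm a).integrable_mul hGm
  set H2 := ∫ x, (∑ a ∈ A, F a x) ^ 2 with hH2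
  set X := ∫ x, (∑ a ∈ A, qa a g x) ^ 2 with hX
  have hXH : X ≤ CD * H2 := (hDA A).2
  -- the main chain
  have s1 : H2 ≤ 2 * ∑ a ∈ A, ∑ b ∈ A.filter (fun b => a ≤ b), ∫ x, F a x * F b x := by
    have e1 : 2 * ∑ a ∈ A, ∑ b ∈ A.filter (fun b => a ≤ b), ∫ x, F a x * F b x
        = ∫ x, 2 * ∑ a ∈ A, ∑ b ∈ A.filter (fun b => a ≤ b), F a x * F b x := by
      rw [integral_const_mul, integral_finsetSum]
      · congr 1
        refine Finset.sum_congr rfl fun a _ => ?_
        rw [integral_finsetSum]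
        exact fun b _ => hFF a b
      · exact fun a _ => integrable_finsetSum _ fun b _ => hFF a b
    rw [e1]
    refine integral_mono_of_nonneg (Eventually.of_forall fun x => sq_nonneg _) ?_
      (Eventually.of_forall fun x => sum_sq_le_ordered A (fun a => F a x) (fun a => hF0 a x))
    exact (integrable_finsetSum _ fun a _ => integrable_finsetSum _ fun b _ => hFF a b).const_mul 2
  have s2 : ∀ a b, ∫ x, F a x * F b x ≤ CP * ∫ x, qa a g x * F b x := by
    intro a b
    rw [← integral_const_mul]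
    refine integral_mono (hFF a b) ((hQF a b).const_mul CP) fun x => ?_
    have h1 := (hP a g hg x).2.2
    have h2 := mul_le_mul_of_nonneg_right h1 (hF0 b x)
    simp only
    linarith [mul_assoc CP (qa a g x) (F b x)]
  have s3 : ∀ a, ∑ b ∈ A.filter (fun b => a ≤ b), ∫ x, qa a g x * F b x ≤
      CL * ∫ x, qa a g x * ‖iF g x‖ ^ 2 := by
    intro a
    exact hL a (A.filter (fun b => a ≤ b)) (fun b hb => (Finset.mem_filter.1 hb).2) g (F a) hg
      (hFc a) (hF0 a) (hFi a)
  have s4 : H2 ≤ 2 * CP * CL * ∫ x, (∑ a ∈ A, qa a g x) * ‖iF g x‖ ^ 2 := by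
    calc H2 ≤ 2 * ∑ a ∈ A, ∑ b ∈ A.filter (fun b => a ≤ b), ∫ x, F a x * F b x := s1
      _ ≤ 2 * ∑ a ∈ A, ∑ b ∈ A.filter (fun b => a ≤ b), CP * ∫ x, qa a g x * F b x := by
          gcongr with a _ b _
          exact s2 a b
      _ = 2 * ∑ a ∈ A, CP * ∑ b ∈ A.filter (fun b => a ≤ b), ∫ x, qa a g x * F b x := by
          simp only [Finset.mul_sum]
      _ ≤ 2 * ∑ a ∈ A, CP * (CL * ∫ x, qa a g x * ‖iF g x‖ ^ 2) := by
          gcongr with a _
          exact s3 a
      _ = 2 * CP * CL * ∫ x, (∑ a ∈ A, qa a g x) * ‖iF g x‖ ^ 2 := by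
          simp only [Finset.sum_mul]
          rw [integral_finsetSum _ fun a _ => hQG a, Finset.mul_sum, Finset.mul_sum]
          refine Finset.sum_congr rfl fun a _ => ?_
          ring
  -- AM-GM
  set t : ℝ := 1 / (2 * CP * CL * CD) with ht
  have ht0 : 0 < t := by positivity
  have s5 : ∫ x, (∑ a ∈ A, qa a g x) * ‖iF g x‖ ^ 2 ≤ t / 2 * X + 1 / (2 * t) * N4 g := by
    rw [hX, ← hN4, ← integral_const_mul, ← integral_const_mul,
      ← integral_add ((hDA A).1.const_mul _) (hG4.const_mul _)]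
    refine integral_mono_of_nonneg (Eventually.of_forall fun x => ?_)
      (((hDA A).1.const_mul _).add (hG4.const_mul _)) (Eventually.of_forall fun x => ?_)
    · exact mul_nonneg (Finset.sum_nonneg fun a _ => hQ0 a x) (by positivity)
    · simp only
      generalize (∑ a ∈ A, qa a g x) = u
      generalize ‖iF g x‖ ^ 2 = v
      have h1 : 0 ≤ (t * u - v) ^ 2 / (2 * t) := by positivity
      have h2 : (t * u - v) ^ 2 / (2 * t) = t / 2 * u ^ 2 + 1 / (2 * t) * v ^ 2 - u * v := by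
        field_simp
        ring
      linarith
  have s6 : H2 ≤ H2 / 2 + 2 * CP ^ 2 * CL ^ 2 * CD * N4 g := by
    have e1 : 2 * CP * CL * (t / 2 * (CD * H2) + 1 / (2 * t) * N4 g)
        = H2 / 2 + 2 * CP ^ 2 * CL ^ 2 * CD * N4 g := by
      rw [ht]
      field_simp
    rw [← e1]
    refine s4.trans (mul_le_mul_of_nonneg_left ?_ (by positivity))
    refine s5.trans ?_
    have := mul_le_mul_of_nonneg_left hXH (by positivity : 0 ≤ t / 2)
    linarith
  refine ⟨(hDA A).1, ?_⟩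
  calc X ≤ CD * H2 := hXH
    _ ≤ CD * (4 * CP ^ 2 * CL ^ 2 * CD * N4 g) := by
        refine mul_le_mul_of_nonneg_left ?_ hCD.le
        linarith
    _ = 4 * CP ^ 2 * CL ^ 2 * CD ^ 2 * N4 g := by ring

end Pool.Agent.Lib.MP_dd244f_an.Four
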