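import Pool.Agent.Lib.MP_dd244f_an.Four.Stmts

/-!
Full operator, `p = 4`: small common lemmas.
-/

set_option autoImplicit false

namespace Pool.Agent.Lib.MP_dd244f_an.Four

open MeasureTheory Filter Topology Finset

/-- multiplication by a Gaussian -/
noncomputable def gs (σ : ℝ) (ξ : ℂ) (g : ℂ → ℂ) (ζ : ℂ) : ℂ :=
  (Real.exp (-(Real.pi * σ ^ 2 * ‖ζ - ξ‖ ^ 2)) : ℂ) * g ζ

theorem norm_sq_add_sq (θ δ ξ : ℂ) :
    ‖θ / 2 + δ - ξ‖ ^ 2 + ‖θ / 2 - δ - ξ‖ ^ 2 = 2 * ‖θ / 2 - ξ‖ ^ 2 + 2 * ‖δ‖ ^ 2 := by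
  simp only [← Complex.normSq_eq_norm_sq, Complex.normSq_apply, Complex.add_re, Complex.add_im,
    Complex.sub_re, Complex.sub_im]
  ring

theorem bil_gs (σ : ℝ) (ξ : ℂ) (g h : ℂ → ℂ) (θ : ℂ) :
    bil (fun _ => 1) (gs σ ξ g) (gs σ ξ h) θ
      = (Real.exp (-(2 * Real.pi * σ ^ 2 * ‖θ / 2 - ξ‖ ^ 2)) : ℂ) * As σ g h θ := by
  unfold As bil gs
  rw [← integral_const_mul]
  congr 1
  ext δ
  have h1 := norm_sq_add_sq θ δ ξ
  have h2 : ((Real.exp (-(Real.pi * σ ^ 2 * ‖θ / 2 + δ - ξ‖ ^ 2)) : ℝ) : ℂ)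
      * ((Real.exp (-(Real.pi * σ ^ 2 * ‖θ / 2 - δ - ξ‖ ^ 2)) : ℝ) : ℂ)
      = ((Real.exp (-(2 * Real.pi * σ ^ 2 * ‖θ / 2 - ξ‖ ^ 2)) : ℝ) : ℂ)
      * ((Real.exp (-(2 * Real.pi * σ ^ 2 * ‖δ‖ ^ 2)) : ℝ) : ℂ) := by
    rw [← Complex.ofReal_mul, ← Complex.ofReal_mul, ← Real.exp_add, ← Real.exp_add]
    congr 2
    have : Real.pi * σ ^ 2 * (‖θ / 2 + δ - ξ‖ ^ 2 + ‖θ / 2 - δ - ξ‖ ^ 2)
      = Real.pi * σ ^ 2 * (2 * ‖θ / 2 - ξ‖ ^ 2 + 2 * ‖δ‖ ^ 2) := by rw [h1]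
    linarith
  linear_combination (g (θ / 2 + δ) * h (θ / 2 - δ)) * h2

theorem gs_cc {σ : ℝ} {ξ : ℂ} {g : ℂ → ℂ} (hg : CC g) : CC (gs σ ξ g) := by
  refine ⟨?_, ?_⟩
  · have := hg.1
    unfold gs
    fun_prop
  · exact hg.2.mul_left

theorem as_eq (σ : ℝ) (g h : ℂ → ℂ) (θ : ℂ) :
    As σ g h θ = (Real.exp (2 * Real.pi * σ ^ 2 * ‖θ / 2‖ ^ 2) : ℂ)
      * bil (fun _ => 1) (gs σ 0 g) (gs σ 0 h) θ := by
  rw [bil_gs, ← mul_assoc, ← Complex.ofReal_mul, ← Real.exp_add, sub_zero]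
  simp

theorem as_cc (hB : StmtBase) {σ : ℝ} {g h : ℂ → ℂ} (hg : CC g) (hh : CC h) : CC (As σ g h) := by
  have h1 := ((hB.2.1 _ _ (gs_cc (σ := σ) (ξ := 0) hg) (gs_cc (σ := σ) (ξ := 0) hh)).1)
  have h2 : As σ g h = fun θ => (Real.exp (2 * Real.pi * σ ^ 2 * ‖θ / 2‖ ^ 2) : ℂ)
      * bil (fun _ => 1) (gs σ 0 g) (gs σ 0 h) θ := by
    ext θ; exact as_eq σ g h θ
  rw [h2]
  refine ⟨?_, h1.2.mul_left⟩
  have := h1.1
  fun_prop

theorem bil_symm (a : ℂ → ℂ) (ha : ∀ δ, a (-δ) = a δ) (g h : ℂ → ℂ) (θ : ℂ) :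
    bil a g h θ = bil a h g θ := by
  unfold bil
  rw [← integral_neg_eq_self]
  congr 1
  ext δ
  rw [ha]
  have e1 : θ / 2 + -δ = θ / 2 - δ := by ring
  have e2 : θ / 2 - -δ = θ / 2 + δ := by ring
  rw [e1, e2]
  ring

theorem as_symm (σ : ℝ) (g h : ℂ → ℂ) (θ : ℂ) : As σ g h θ = As σ h g θ :=
  bil_symm _ (fun δ => by simp) g h θ

theorem n4_nonneg (g : ℂ → ℂ) : 0 ≤ N4 g := integral_nonneg fun _ => by positivity

theorem n22_nonneg (g h : ℂ → ℂ) : 0 ≤ N22 g h := integral_nonneg fun _ => by positivity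

theorem norm_ch (x ζ : ℂ) : ‖ch x ζ‖ = 1 := by
  unfold ch
  have : (2 * (Real.pi : ℂ) * Complex.I * ((x.re * ζ.re + x.im * ζ.im : ℝ) : ℂ))
      = ((2 * Real.pi * (x.re * ζ.re + x.im * ζ.im) : ℝ) : ℂ) * Complex.I := by
    push_cast; ring
  rw [this]
  exact Complex.norm_exp_ofReal_mul_I _

theorem ch_add (x y ζ : ℂ) : ch (x + y) ζ = ch x ζ * ch y ζ := by
  unfold ch
  rw [← Complex.exp_add]
  congr 1
  simp only [Complex.add_re, Complex.add_im]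
  push_cast
  ring

theorem ch_add_right (x ζ η : ℂ) : ch x (ζ + η) = ch x ζ * ch x η := by
  unfold ch
  rw [← Complex.exp_add]
  congr 1
  simp only [Complex.add_re, Complex.add_im]
  push_cast
  ring

theorem ch_comm (x ζ : ℂ) : ch x ζ = ch ζ x := by
  unfold ch
  congr 3
  ring

theorem ch_neg_left (x ζ : ℂ) : ch (-x) ζ = ch x (-ζ) := by
  unfold ch
  congr 3
  simp

theorem conj_ch (x ζ : ℂ) : starRingEnd ℂ (ch x ζ) = ch (-x) ζ := by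
  unfold ch
  rw [← Complex.exp_conj]
  congr 1
  simp only [map_mul, Complex.conj_ofReal, Complex.conj_I, Complex.neg_re, Complex.neg_im]
  simp only [map_ofNat]
  push_cast
  ring

theorem ch_zero_left (ζ : ℂ) : ch 0 ζ = 1 := by unfold ch; simp

theorem ch_zero_right (x : ℂ) : ch x 0 = 1 := by unfold ch; simp

theorem continuous_ch (x : ℂ) : Continuous (ch x) := by
  unfold ch
  fun_prop

theorem continuous_ch2 : Continuous (fun z : ℂ × ℂ => ch z.1 z.2) := by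
  unfold ch
  fun_prop

/-- the bilinear form with a character as symbol -/
theorem bil_ch (v : ℂ) (g h : ℂ → ℂ) (θ : ℂ) :
    bil (fun δ => ch v δ) g h θ
      = bil (fun _ => 1) (fun ζ => ch (v / 2) ζ * g ζ) (fun ζ => ch (-(v / 2)) ζ * h ζ) θ := by
  unfold bil
  congr 1
  ext δ
  have : ch v δ = ch (v / 2) (θ / 2 + δ) * ch (-(v / 2)) (θ / 2 - δ) := by
    rw [ch_neg_left, ← ch_add_right (v / 2)]
    have e : θ / 2 + δ + -(θ / 2 - δ) = δ + δ := by ring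
    rw [e, ch_add_right, ← ch_add]
    congr 1
    ring
  simp only [this]
  ring

theorem bd_add (a b c : ℤ) (ζ : ℂ) : bd a b ζ + bd b c ζ = bd a c ζ := by
  unfold bd; ring

theorem bd_self (a : ℤ) (ζ : ℂ) : bd a a ζ = 0 := by unfold bd; ring

theorem sum_sh (a : ℤ) (k : ℕ) (ζ : ℂ) :
    ∑ i ∈ Finset.range k, sh (a + i) ζ = bd a (a + k) ζ := by
  induction k with
  | zero => simp [bd_self]
  | succ k ih =>
    rw [Finset.sum_range_succ, ih, sh, bd_add]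
    push_cast
    ring_nf

theorem cut_add (χ χ' : ℂ → ℝ) (g : ℂ → ℂ) (ζ : ℂ) :
    cut (fun ζ => χ ζ + χ' ζ) g ζ = cut χ g ζ + cut χ' g ζ := by
  unfold cut; push_cast; ring

end Pool.Agent.Lib.MP_dd244f_an.Four
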