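import Pool.Agent.Lib.MP_dd244f_an.Four.Stmts
import Pool.Agent.Lib.MP_dd244f_an.Four.Basic

/-!
Full operator, `p = 4`: only the frequencies of the block matter.
-/

set_option autoImplicit false

namespace Pool.Agent.Lib.MP_dd244f_an.Four

open MeasureTheory Filter Topology Finset

theorem bil_integrable {a g h : ℂ → ℂ} (ha : Continuous a) (hg : CC g) (hh : CC h) (θ : ℂ) :
    Integrable (fun δ => a δ * (g (θ / 2 + δ) * h (θ / 2 - δ))) := by
  have h1 : Continuous (fun δ => a δ * (g (θ / 2 + δ) * h (θ / 2 - δ))) := by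
    have := hg.1
    have := hh.1
    fun_prop
  refine h1.integrable_of_hasCompactSupport ?_
  have h2 : HasCompactSupport (fun δ => g (θ / 2 + δ)) :=
    hg.2.comp_homeomorph (Homeomorph.addLeft (θ / 2))
  exact (h2.mul_right).mul_left

theorem as_add_left {σ : ℝ} {g g1 g2 h : ℂ → ℂ} (hg1 : CC g1) (hg2 : CC g2) (hh : CC h)
    (h0 : ∀ ζ, g ζ = g1 ζ + g2 ζ) (θ : ℂ) : As σ g h θ = As σ g1 h θ + As σ g2 h θ := by
  unfold As bil
  have hc : Continuous (fun δ : ℂ => ((Real.exp (-(2 * Real.pi * σ ^ 2 * ‖δ‖ ^ 2)) : ℝ) : ℂ)) := by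
    fun_prop
  rw [← integral_add (bil_integrable hc hg1 hh θ) (bil_integrable hc hg2 hh θ)]
  congr 1
  ext δ
  rw [h0]
  ring

theorem as_low_zero (hF : StmtFac) {σ : ℝ} {g : ℂ → ℂ} {s : ℤ} {θ : ℂ}
    (hθ : 4 * (2 : ℝ) ^ s ≤ ‖θ‖) : As σ (cut (lo s) g) (cut (lo s) g) θ = 0 := by
  unfold As bil
  have h0 : (fun δ => ((Real.exp (-(2 * Real.pi * σ ^ 2 * ‖δ‖ ^ 2)) : ℝ) : ℂ) *
      (cut (lo s) g (θ / 2 + δ) * cut (lo s) g (θ / 2 - δ))) = fun _ => 0 := by
    ext δ
    have h2s : (0 : ℝ) < (2 : ℝ) ^ s := by positivity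
    have key : ∀ ζ : ℂ, 2 * (2 : ℝ) ^ s ≤ ‖ζ‖ → cut (lo s) g ζ = 0 := by
      intro ζ hζ
      have : lo s ζ = 0 := by
        apply hF.2.2.1
        nlinarith
      unfold cut
      rw [this]
      simp
    by_cases h1 : 2 * (2 : ℝ) ^ s ≤ ‖θ / 2 + δ‖
    · rw [key _ h1]; simp
    · by_cases h2 : 2 * (2 : ℝ) ^ s ≤ ‖θ / 2 - δ‖
      · rw [key _ h2]; simp
      · exfalso
        push Not at h1 h2
        have h3 : ‖θ‖ ≤ ‖θ / 2 + δ‖ + ‖θ / 2 - δ‖ := by
          have := norm_add_le (θ / 2 + δ) (θ / 2 - δ)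
          have e : θ / 2 + δ + (θ / 2 - δ) = θ := by ring
          rwa [e] at this
        linarith
  rw [h0]
  simp

theorem measurableSet_jset (s : ℤ) (L m : ℕ) : MeasurableSet (Jset s L m) := by
  have : IsClosed (Jset s L m) := by
    apply IsClosed.inter
    · exact isClosed_le continuous_const continuous_norm
    · exact isClosed_le continuous_norm continuous_const
  exact this.measurableSet

theorem tail_one (hF : StmtFac) (hB : StmtBase) {Q : ℝ} {L m n : ℕ} (hm : 4 ≤ m) {g : ℂ → ℂ}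
    (hg : CC g) (s : ℤ) :
    ∫ θ in Jset s L m, ‖As (win n Q s L) g g θ
      - As (win n Q s L) (cut (bd s (s + L)) g) (cut (bd s (s + L)) g) θ‖ ^ 2
    ≤ 2 * (∫ θ in Jset s L m, ‖As (win n Q s L) g g θ
        - As (win n Q s L) (cut (lo (s + L)) g) (cut (lo (s + L)) g) θ‖ ^ 2)
      + 8 * (∫ θ in Jset s L m, ‖As (win n Q s L)
        (cut (lo s) g) (cut (lo (s + L)) g) θ‖ ^ 2) := by
  set σ := win n Q s L with hσ
  have hl : CC (cut (lo s) g) := (hF.2.2.2.2.1 g s s hg).1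
  have hl' : CC (cut (lo (s + L)) g) := (hF.2.2.2.2.1 g (s + L) s hg).1
  have hb : CC (cut (bd s (s + L)) g) := (hF.2.2.2.2.1 g s (s + L) hg).2.1
  have hsum : ∀ ζ, cut (lo (s + L)) g ζ = cut (bd s (s + L)) g ζ + cut (lo s) g ζ := by
    intro ζ
    unfold cut bd
    push_cast
    ring
  have hint : ∀ u v : ℂ → ℂ, CC u → CC v →
      IntegrableOn (fun θ => ‖u θ - v θ‖ ^ 2) (Jset s L m) := by
    intro u v hu hv
    have hc : Continuous (fun θ => ‖u θ - v θ‖ ^ 2) := by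
      have := hu.1
      have := hv.1
      fun_prop
    have hcs : HasCompactSupport (fun θ => ‖u θ - v θ‖ ^ 2) := by
      have h1 : HasCompactSupport (fun θ => u θ - v θ) := hu.2.sub hv.2
      exact h1.comp_left (g := fun z : ℂ => ‖z‖ ^ 2) (by simp)
    exact (hc.integrable_of_hasCompactSupport hcs).integrableOn
  have hzero : CC (fun _ : ℂ => (0 : ℂ)) :=
    ⟨continuous_const, HasCompactSupport.zero⟩
  have i1 := hint _ _ (as_cc hB (σ := σ) hg hg) (as_cc hB (σ := σ) hb hb)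
  have i2 := hint _ _ (as_cc hB (σ := σ) hg hg) (as_cc hB (σ := σ) hl' hl')
  have i3 : IntegrableOn (fun θ => ‖As σ (cut (lo s) g) (cut (lo (s + L)) g) θ‖ ^ 2)
      (Jset s L m) := by
    have := hint _ _ (as_cc hB (σ := σ) hl hl') hzero
    simpa using this
  have hmain : ∫ θ in Jset s L m, ‖As σ g g θ
      - As σ (cut (bd s (s + L)) g) (cut (bd s (s + L)) g) θ‖ ^ 2
      ≤ ∫ θ in Jset s L m, (2 * ‖As σ g g θ
        - As σ (cut (lo (s + L)) g) (cut (lo (s + L)) g) θ‖ ^ 2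
        + 8 * ‖As σ (cut (lo s) g) (cut (lo (s + L)) g) θ‖ ^ 2) := by
    refine setIntegral_mono_on i1 ((i2.const_mul 2).add (i3.const_mul 8))
      (measurableSet_jset s L m) ?_
    intro θ hθ
    have hθ1 : 4 * (2 : ℝ) ^ s ≤ ‖θ‖ := by
      refine le_trans ?_ hθ.1
      rw [zpow_add₀ (by norm_num : (2 : ℝ) ≠ 0), mul_comm]
      gcongr
      have : (4 : ℝ) ≤ (2 : ℝ) ^ m := by
        calc (4 : ℝ) = 2 ^ 2 := by norm_num
          _ ≤ 2 ^ m := by
            apply pow_le_pow_right₀ (by norm_num)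
            omega
      simpa using this
    have hz := as_low_zero hF (σ := σ) (g := g) hθ1
    have e1 := as_add_left (σ := σ) hb hl hl' hsum θ
    have e2 := as_add_left (σ := σ) hb hl hb hsum θ
    have e3 := as_add_left (σ := σ) hb hl hl hsum θ
    have s1 := as_symm σ (cut (bd s (s + L)) g) (cut (lo (s + L)) g) θ
    have s2 := as_symm σ (cut (lo s) g) (cut (lo (s + L)) g) θ
    have s3 := as_symm σ (cut (lo s) g) (cut (bd s (s + L)) g) θ
    have hd : As σ g g θ - As σ (cut (bd s (s + L)) g) (cut (bd s (s + L)) g) θ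
        = (As σ g g θ - As σ (cut (lo (s + L)) g) (cut (lo (s + L)) g) θ)
          + 2 * As σ (cut (lo s) g) (cut (lo (s + L)) g) θ := by
      rw [e1, s1, e2, s2, s3, e3, hz]
      ring
    have hn := norm_add_le (As σ g g θ - As σ (cut (lo (s + L)) g) (cut (lo (s + L)) g) θ)
      (2 * As σ (cut (lo s) g) (cut (lo (s + L)) g) θ)
    rw [hd]
    rw [norm_mul] at hn
    have h6 : ‖(2 : ℂ)‖ = 2 := by simp
    rw [h6] at hn
    set x := ‖As σ g g θ - As σ (cut (lo (s + L)) g) (cut (lo (s + L)) g) θ‖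
    set y := ‖As σ (cut (lo s) g) (cut (lo (s + L)) g) θ‖
    have hx : 0 ≤ x := norm_nonneg _
    have hy : 0 ≤ y := norm_nonneg _
    calc _ ≤ (x + 2 * y) ^ 2 := by
          apply pow_le_pow_left₀ (norm_nonneg _) hn
      _ ≤ 2 * x ^ 2 + 8 * y ^ 2 := by nlinarith [sq_nonneg (x - 2 * y)]
  refine hmain.trans (le_of_eq ?_)
  rw [integral_add (i2.const_mul 2) (i3.const_mul 8), integral_const_mul, integral_const_mul]

theorem tail (hTL : StmtTailLow) (hTH : StmtTailHigh) (hF : StmtFac) (hB : StmtBase) :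
    StmtTail := by
  intro Q L m ε hQ hm hL hε
  obtain ⟨n1, hn1⟩ := hTL Q L m (ε / 16) hQ hm hL (by positivity)
  obtain ⟨n2, hn2⟩ := hTH Q L m (ε / 4) hQ hm hL (by positivity)
  refine ⟨max n1 n2, ?_⟩
  intro n hn g hg c Bs
  have h1 := hn1 n (le_trans (le_max_left _ _) hn) g hg c Bs
  have h2 := hn2 n (le_trans (le_max_right _ _) hn) g hg c Bs
  have h3 := Finset.sum_le_sum (fun b (_ : b ∈ Bs) =>
    tail_one hF hB (Q := Q) (L := L) (m := m) (n := n) hm hg (c + b * L))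
  refine h3.trans ?_
  rw [Finset.sum_add_distrib, ← Finset.mul_sum, ← Finset.mul_sum]
  linarith

end Pool.Agent.Lib.MP_dd244f_an.Four
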