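import Pool.Agent.Lib.MP_dd244f_an.Four.Basic

/-!
Full operator, `p = 4`: the interactions with the frequencies below the block (module TailLow).
-/

set_option autoImplicit false

namespace Pool.Agent.Lib.MP_dd244f_an.Four

open MeasureTheory Filter Topology Finset

namespace TL

theorem supp_lo (hF : StmtFac) {a : ℤ} {g : ℂ → ℂ} {ζ : ℂ} (h : cut (lo a) g ζ ≠ 0) :
    ‖ζ‖ < 3 / 2 * (2 : ℝ) ^ a := by
  have h1 : ‖ζ‖ ^ 2 < 2 * ((2 : ℝ) ^ a) ^ 2 := by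
    by_contra hc
    push Not at hc
    apply h
    unfold cut
    rw [hF.2.2.1 a ζ hc]
    simp
  have h2 : (0 : ℝ) < (2 : ℝ) ^ a := by positivity
  by_contra hc
  push Not at hc
  nlinarith [norm_nonneg ζ]

theorem zp_add (s : ℤ) (m : ℕ) : (2 : ℝ) ^ (s + m) = 2 ^ s * 2 ^ m := by
  rw [zpow_add₀ (by norm_num), zpow_natCast]

theorem zp_sub (s : ℤ) (m : ℕ) : (2 : ℝ) ^ (s + m - 2) = 2 ^ s * 2 ^ m / 4 := by
  rw [zpow_sub₀ (by norm_num), zp_add]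
  norm_num

theorem two_pow_ge {m : ℕ} (hm : 4 ≤ m) : (16 : ℝ) ≤ 2 ^ m := by
  calc (16 : ℝ) = 2 ^ 4 := by norm_num
    _ ≤ 2 ^ m := pow_le_pow_right₀ (by norm_num) hm

/-- geometry of the frequencies -/
theorem geo (hF : StmtFac) {s : ℤ} {L m : ℕ} (hm : 4 ≤ m) {g : ℂ → ℂ} {θ δ : ℂ}
    (hθ : θ ∈ Jset s L m) (h : cut (lo s) g (θ / 2 + δ) ≠ 0) :
    (2 : ℝ) ^ (s + m - 2) ≤ ‖δ‖ ∧ 2 * ((2 : ℝ) ^ (s + m - 2)) ^ 2 ≤ ‖θ / 2 - δ‖ ^ 2 := by
  have h1 := supp_lo hF h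
  have h2 := hθ.1
  have h3 := two_pow_ge hm
  have h4 : (0 : ℝ) < (2 : ℝ) ^ s := by positivity
  rw [zp_add] at h2
  rw [zp_sub]
  have h5 : ‖θ‖ ≤ ‖θ / 2 + δ‖ + ‖θ / 2 - δ‖ := by
    calc ‖θ‖ = ‖(θ / 2 + δ) + (θ / 2 - δ)‖ := by congr 1; ring
      _ ≤ _ := norm_add_le _ _
  have h6 : ‖θ‖ ≤ 2 * ‖θ / 2 + δ‖ + 2 * ‖δ‖ := by
    calc ‖θ‖ = ‖(2 : ℂ) * (θ / 2 + δ) + (-2 : ℂ) * δ‖ := by congr 1; ring
      _ ≤ ‖(2 : ℂ) * (θ / 2 + δ)‖ + ‖(-2 : ℂ) * δ‖ := norm_add_le _ _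
      _ = _ := by rw [norm_mul, norm_mul]; norm_num
  have h7 : 16 * (2 : ℝ) ^ s ≤ 2 ^ s * 2 ^ m := by nlinarith
  have h8 : 3 / 2 * ((2 : ℝ) ^ s * 2 ^ m / 4) ≤ ‖θ / 2 - δ‖ := by linarith
  refine ⟨by linarith, ?_⟩
  have h9 : (0 : ℝ) < (2 : ℝ) ^ s * 2 ^ m / 4 := by positivity
  nlinarith

theorem as_integrable (σ : ℝ) {g h : ℂ → ℂ} (hg : CC g) (hh : CC h) (θ : ℂ) :
    Integrable (fun δ => ((Real.exp (-(2 * Real.pi * σ ^ 2 * ‖δ‖ ^ 2)) : ℝ) : ℂ)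
      * (g (θ / 2 + δ) * h (θ / 2 - δ))) := by
  have h1 : HasCompactSupport (fun δ => g (θ / 2 + δ)) :=
    hg.2.comp_homeomorph (Homeomorph.addLeft (θ / 2))
  have h2 : HasCompactSupport (fun δ => ((Real.exp (-(2 * Real.pi * σ ^ 2 * ‖δ‖ ^ 2)) : ℝ) : ℂ)
      * (g (θ / 2 + δ) * h (θ / 2 - δ))) := (h1.mul_right).mul_left
  refine Continuous.integrable_of_hasCompactSupport ?_ h2
  have := hg.1; have := hh.1
  fun_prop

theorem as_split (hF : StmtFac) {s : ℤ} {L m : ℕ} (hm : 4 ≤ m) (hL : 2 * m < L) {g : ℂ → ℂ}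
    (hg : CC g) {θ : ℂ} (hθ : θ ∈ Jset s L m) (σ : ℝ) :
    As σ (cut (lo s) g) (cut (lo (s + L)) g) θ
      = ∑ i ∈ Finset.range (L + 2 - m), As σ (cut (lo s) g) (cut (sh (s + m - 2 + i)) g) θ := by
  unfold As bil
  rw [← integral_finsetSum]
  · congr 1
    ext δ
    by_cases h : cut (lo s) g (θ / 2 + δ) = 0
    · simp [h]
    · obtain ⟨-, h2⟩ := geo hF hm hθ h
      have h3 := hF.2.2.1 _ _ h2
      rw [← Finset.mul_sum, ← Finset.mul_sum]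
      congr 2
      unfold cut
      rw [← Finset.sum_mul]
      congr 1
      have h4 := sum_sh (s + m - 2) (L + 2 - m) (θ / 2 - δ)
      have h5 : s + m - 2 + ((L + 2 - m : ℕ) : ℤ) = s + L := by omega
      rw [h5] at h4
      rw [← Complex.ofReal_sum, h4]
      unfold bd
      rw [h3, sub_zero]
  · intro i _
    exact as_integrable σ ((hF.2.2.2.2.1 g s 0 hg).1) ((hF.2.2.2.2.1 g _ 0 hg).2.2) θ

/-- the decay rate -/
noncomputable def kap (Q : ℝ) (L m : ℕ) : ℝ := 2 ^ m / (4 * 2 ^ L * Q)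

theorem kap_pos {Q : ℝ} (hQ : 1 ≤ Q) (L m : ℕ) : 0 < kap Q L m := by
  have : 0 < Q := by linarith
  unfold kap; positivity

theorem win_pos {n : ℕ} (hn : 1 ≤ n) {Q : ℝ} (hQ : 1 ≤ Q) (s : ℤ) (L : ℕ) :
    0 < win n Q s L := by
  have : 0 < Q := by linarith
  have : (0 : ℝ) < n := by exact_mod_cast hn
  unfold win; positivity

theorem win_mul {n : ℕ} {Q : ℝ} (hQ : 1 ≤ Q) (s : ℤ) (L m : ℕ) :
    win n Q s L * (2 : ℝ) ^ (s + m - 2) = Real.sqrt n * kap Q L m := by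
  have : 0 < Q := by linarith
  unfold win kap
  rw [zp_sub, zp_add]
  field_simp

theorem jmeas (s : ℤ) (L m : ℕ) : MeasurableSet (Jset s L m) := by
  unfold Jset
  exact (measurableSet_le measurable_const measurable_norm).inter
    (measurableSet_le measurable_norm measurable_const)

theorem kk_cont {ρ : ℝ} (hρ : 0 < ρ) : Continuous (KK ρ) := by
  unfold KK
  refine Continuous.div continuous_const (by fun_prop) fun x => ?_
  positivity

theorem kk_int (hB : StmtBase) (hK : StmtKK) {ρ : ℝ} (hρ : 0 < ρ) {g : ℂ → ℂ} (hg : CC g)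
    (x : ℂ) : Integrable (fun y => KK ρ (x - y) * ‖iF g y‖ ^ 2) := by
  obtain ⟨hgc, -, hgi, -, -⟩ := hB.1 _ hg
  have hkc := kk_cont hρ
  refine (hgi.const_mul (1 / ρ ^ 2)).mono' (by fun_prop)
    (Filter.Eventually.of_forall fun y => ?_)
  have h1 := (hK.1 ρ hρ).2.2 (x - y)
  rw [Real.norm_of_nonneg (mul_nonneg h1.1.le (by positivity))]
  exact mul_le_mul_of_nonneg_right h1.2 (by positivity)

/-- one block -/
theorem block (hBP : StmtBilPt) (hK : StmtKK) (hP : StmtPP) (hF : StmtFac) (hB : StmtBase)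
    {C : ℝ} (hC : 0 < C)
    (hGT : ∀ (σ ρ : ℝ) (g h : ℂ → ℂ) (θ : ℂ), 0 < σ → 1 ≤ σ * ρ →
      CC g → CC h → (∀ δ, g (θ / 2 + δ) ≠ 0 → h (θ / 2 - δ) ≠ 0 → ρ ≤ ‖δ‖) →
      ‖As σ g h θ‖ ^ 2 ≤ C * Real.exp (-(σ ^ 2 * ρ ^ 2)) / σ ^ 2 * Om σ g h θ)
    {Q : ℝ} {L m : ℕ} (hQ : 1 ≤ Q) (hm : 4 ≤ m) (hL : 2 * m < L) {n : ℕ} (hn : 1 ≤ n)
    (hn1 : 1 ≤ Real.sqrt n * kap Q L m) {g : ℂ → ℂ} (hg : CC g) (s : ℤ) :
    ∫ θ in Jset s L m, ‖As (win n Q s L) (cut (lo s) g) (cut (lo (s + L)) g) θ‖ ^ 2 ≤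
      ((L + 2 - m : ℕ) : ℝ) * C * (n * Real.exp (-(n * kap Q L m ^ 2))) *
        ∑ i ∈ Finset.range (L + 2 - m),
          ∫ x, qa (s + m - 2 + i) g x * ‖iF (cut (lo s) g) x‖ ^ 2 := by
  set σ := win n Q s L with hσ
  have hσ0 : 0 < σ := win_pos hn hQ s L
  have hlo : CC (cut (lo s) g) := (hF.2.2.2.2.1 g s 0 hg).1
  have hsh : ∀ j, CC (cut (sh j) g) := fun j => (hF.2.2.2.2.1 g j 0 hg).2.2
  have hn0 : (0 : ℝ) ≤ n := by positivity
  have hsq : (σ * (2 : ℝ) ^ (s + m - 2)) ^ 2 = n * kap Q L m ^ 2 := by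
    rw [hσ, win_mul hQ, mul_pow, Real.sq_sqrt hn0]
  set E := Real.exp (-(n * kap Q L m ^ 2)) with hE
  have hE0 : 0 < E := Real.exp_pos _
  -- pointwise
  have hpt : ∀ θ ∈ Jset s L m, ‖As σ (cut (lo s) g) (cut (lo (s + L)) g) θ‖ ^ 2 ≤
      ((L + 2 - m : ℕ) : ℝ) * ∑ i ∈ Finset.range (L + 2 - m),
        (C * E / σ ^ 2 * Om σ (cut (lo s) g) (cut (sh (s + m - 2 + i)) g) θ) := by
    intro θ hθ
    rw [as_split hF hm hL hg hθ σ]
    have h1 : ‖∑ i ∈ Finset.range (L + 2 - m),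
        As σ (cut (lo s) g) (cut (sh (s + m - 2 + i)) g) θ‖ ^ 2
        ≤ (∑ i ∈ Finset.range (L + 2 - m),
          ‖As σ (cut (lo s) g) (cut (sh (s + m - 2 + i)) g) θ‖) ^ 2 :=
      pow_le_pow_left₀ (norm_nonneg _) (norm_sum_le _ _) 2
    refine h1.trans ?_
    refine (sq_sum_le_card_mul_sum_sq).trans ?_
    rw [Finset.card_range]
    refine mul_le_mul_of_nonneg_left (Finset.sum_le_sum fun i _ => ?_) (by positivity)
    have h2 := hGT σ ((2 : ℝ) ^ (s + m - 2)) (cut (lo s) g) (cut (sh (s + m - 2 + i)) g) θ hσ0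
      (by rw [hσ, win_mul hQ]; exact hn1) hlo (hsh _)
      (fun δ h _ => (geo hF hm hθ h).1)
    rw [← mul_pow, hsq] at h2
    exact h2
  -- integrate
  have hOmI : ∀ i : ℕ, Integrable (fun θ => C * E / σ ^ 2 *
      Om σ (cut (lo s) g) (cut (sh (s + m - 2 + i)) g) θ) := fun i =>
    ((hBP σ _ _ hσ0 hlo (hsh (s + m - 2 + i))).2.2.1).const_mul _
  have hOm0 : ∀ (i : ℕ) θ, 0 ≤ C * E / σ ^ 2 *
      Om σ (cut (lo s) g) (cut (sh (s + m - 2 + i)) g) θ := fun i θ =>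
    mul_nonneg (by positivity) ((hBP σ _ _ hσ0 hlo (hsh (s + m - 2 + i))).2.1 θ)
  have h1 : ∫ θ in Jset s L m, ‖As σ (cut (lo s) g) (cut (lo (s + L)) g) θ‖ ^ 2 ≤
      ∫ θ in Jset s L m, ((L + 2 - m : ℕ) : ℝ) * ∑ i ∈ Finset.range (L + 2 - m),
        (C * E / σ ^ 2 * Om σ (cut (lo s) g) (cut (sh (s + m - 2 + i)) g) θ) := by
    refine integral_mono_of_nonneg (Filter.Eventually.of_forall fun θ => by positivity)
      (((integrable_finsetSum _ fun i _ => hOmI i).const_mul _).integrableOn) ?_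
    exact (ae_restrict_iff' (jmeas s L m)).2 (Filter.Eventually.of_forall hpt)
  have h2 : ∫ θ in Jset s L m, ((L + 2 - m : ℕ) : ℝ) * ∑ i ∈ Finset.range (L + 2 - m),
        (C * E / σ ^ 2 * Om σ (cut (lo s) g) (cut (sh (s + m - 2 + i)) g) θ)
      ≤ ∫ θ, ((L + 2 - m : ℕ) : ℝ) * ∑ i ∈ Finset.range (L + 2 - m),
        (C * E / σ ^ 2 * Om σ (cut (lo s) g) (cut (sh (s + m - 2 + i)) g) θ) := by
    refine setIntegral_le_integral ((integrable_finsetSum _ fun i _ => hOmI i).const_mul _)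
      (Filter.Eventually.of_forall fun θ => ?_)
    exact mul_nonneg (by positivity) (Finset.sum_nonneg fun i _ => hOm0 i θ)
  refine h1.trans (h2.trans ?_)
  rw [integral_const_mul, integral_finsetSum _ (fun i _ => hOmI i), mul_assoc, mul_assoc]
  refine mul_le_mul_of_nonneg_left ?_ (by positivity)
  rw [Finset.mul_sum, Finset.mul_sum]
  refine Finset.sum_le_sum fun i hi => ?_
  rw [integral_const_mul, (hBP σ _ _ hσ0 hlo (hsh (s + m - 2 + i))).2.2.2.1]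
  -- comparison of the kernels
  set j : ℤ := s + m - 2 + i with hj
  have hj2 : (2 : ℝ) ^ j = (2 : ℝ) ^ (s + m - 2) * 2 ^ i := by
    rw [hj, zpow_add₀ (by norm_num), zpow_natCast]
  have hν : σ * (2 : ℝ) ^ j = Real.sqrt n * kap Q L m * 2 ^ i := by
    rw [hj2, ← mul_assoc, hσ, win_mul hQ]
  have hν1 : 1 ≤ σ * (2 : ℝ) ^ j := by
    rw [hν]
    have : (1 : ℝ) ≤ 2 ^ i := one_le_pow₀ (by norm_num)
    nlinarith
  have hν2 : (σ * (2 : ℝ) ^ j) ^ 2 ≤ n := by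
    rw [hν]
    have hk : kap Q L m * 2 ^ i ≤ 1 := by
      unfold kap
      have hQ0 : 0 < Q := by linarith
      rw [div_mul_eq_mul_div, div_le_one (by positivity), ← pow_add]
      have hi' := Finset.mem_range.1 hi
      have h3 : m + i ≤ L + 2 := by omega
      calc (2 : ℝ) ^ (m + i) ≤ 2 ^ (L + 2) := pow_le_pow_right₀ (by norm_num) h3
        _ = 4 * 2 ^ L * 1 := by rw [pow_add]; ring
        _ ≤ 4 * 2 ^ L * Q := by gcongr
    have hk0 : 0 ≤ kap Q L m * 2 ^ i := by have := kap_pos hQ L m; positivity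
    rw [mul_assoc, mul_pow, Real.sq_sqrt hn0]
    calc (n : ℝ) * (kap Q L m * 2 ^ i) ^ 2 ≤ n * 1 := by
          gcongr
          exact pow_le_one₀ hk0 hk
      _ = n := mul_one _
  have hρ : (0 : ℝ) < (2 : ℝ) ^ (-j) := by positivity
  have hσe : σ = (σ * (2 : ℝ) ^ j) * (2 : ℝ) ^ (-j) := by
    rw [mul_assoc, ← zpow_add₀ (by norm_num)]; simp
  have hker : ∀ x, KK σ x ≤ n * KK ((2 : ℝ) ^ (-j)) x := by
    intro x
    have h3 := hK.2.2.2 ((2 : ℝ) ^ (-j)) (σ * (2 : ℝ) ^ j) hρ hν1 x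
    rw [← hσe] at h3
    refine h3.trans (mul_le_mul_of_nonneg_right hν2 ?_)
    exact ((hK.1 _ hρ).2.2 x).1.le
  have hin : ∀ x, ∫ y, KK σ (x - y) * ‖iF (cut (sh j) g) y‖ ^ 2 ≤ n * qa j g x := by
    intro x
    unfold qa
    rw [← integral_const_mul]
    refine integral_mono (kk_int hB hK hσ0 (hsh j) x)
      ((kk_int hB hK hρ (hsh j) x).const_mul _) fun y => ?_
    have h3 := hker (x - y)
    have h4 : (0 : ℝ) ≤ ‖iF (cut (sh j) g) y‖ ^ 2 := by positivity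
    calc KK σ (x - y) * ‖iF (cut (sh j) g) y‖ ^ 2
        ≤ (n * KK ((2 : ℝ) ^ (-j)) (x - y)) * ‖iF (cut (sh j) g) y‖ ^ 2 :=
          mul_le_mul_of_nonneg_right h3 h4
      _ = _ := by ring
  have hout : ∫ x, ‖iF (cut (lo s) g) x‖ ^ 2 *
      ∫ y, KK σ (x - y) * ‖iF (cut (sh j) g) y‖ ^ 2
      ≤ ∫ x, n * (qa j g x * ‖iF (cut (lo s) g) x‖ ^ 2) := by
    obtain ⟨_, _, hPP⟩ := hP
    have hI := (hPP {j} (fun _ => s) g g hg hg).1 j (Finset.mem_singleton_self j)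
    refine integral_mono_of_nonneg (Filter.Eventually.of_forall fun x => ?_)
      (hI.const_mul _) (Filter.Eventually.of_forall fun x => ?_)
    · refine mul_nonneg (by positivity) (integral_nonneg fun y => ?_)
      exact mul_nonneg ((hK.1 _ hσ0).2.2 _).1.le (by positivity)
    · have h3 := hin x
      have h4 : (0 : ℝ) ≤ ‖iF (cut (lo s) g) x‖ ^ 2 := by positivity
      calc _ ≤ ‖iF (cut (lo s) g) x‖ ^ 2 * (n * qa j g x) := mul_le_mul_of_nonneg_left h3 h4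
        _ = _ := by ring
  rw [integral_const_mul] at hout
  calc C * E / σ ^ 2 * (σ ^ 2 * ∫ x, ‖iF (cut (lo s) g) x‖ ^ 2 *
        ∫ y, KK σ (x - y) * ‖iF (cut (sh j) g) y‖ ^ 2)
      = C * E * ∫ x, ‖iF (cut (lo s) g) x‖ ^ 2 *
        ∫ y, KK σ (x - y) * ‖iF (cut (sh j) g) y‖ ^ 2 := by
        field_simp
    _ ≤ C * E * (n * ∫ x, qa j g x * ‖iF (cut (lo s) g) x‖ ^ 2) :=
        mul_le_mul_of_nonneg_left hout (by positivity)
    _ = _ := by ring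

theorem lim {κ A ε : ℝ} (hκ : 0 < κ) (hε : 0 < ε) :
    ∀ᶠ n : ℕ in atTop, 1 ≤ n ∧ 1 ≤ Real.sqrt n * κ ∧
      A * (n * Real.exp (-(n * κ ^ 2))) ≤ ε := by
  have h1 : Tendsto (fun n : ℕ => (n : ℝ) * κ ^ 2) atTop atTop :=
    tendsto_natCast_atTop_atTop.atTop_mul_const (by positivity)
  have h2 := (Real.tendsto_pow_mul_exp_neg_atTop_nhds_zero 1).comp h1
  have h3 : Tendsto (fun n : ℕ => A * (n * Real.exp (-(n * κ ^ 2)))) atTop (𝓝 0) := by
    have h4 := h2.const_mul (A / κ ^ 2)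
    rw [mul_zero] at h4
    refine h4.congr fun n => ?_
    simp only [Function.comp, pow_one]
    field_simp
  have h5 : ∀ᶠ n : ℕ in atTop, 1 ≤ (n : ℝ) * κ ^ 2 := h1.eventually_ge_atTop 1
  filter_upwards [eventually_ge_atTop 1, h5, h3.eventually_le_const hε] with n ha hb hc
  refine ⟨ha, ?_, hc⟩
  have : (1 : ℝ) ≤ (Real.sqrt n * κ) ^ 2 := by
    rw [mul_pow, Real.sq_sqrt (by positivity)]; exact hb
  have h6 : 0 ≤ Real.sqrt n * κ := by positivity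
  nlinarith

end TL

/-- (TailLow) -/
theorem tailLow (hG : StmtGT) (hBP : StmtBilPt) (hK : StmtKK) (hP : StmtPP) (hF : StmtFac)
    (hB : StmtBase) : StmtTailLow := by
  intro Q L m ε hQ hm hL hε
  obtain ⟨C, hC, hGT⟩ := hG
  obtain ⟨C', hC', hPP⟩ := id hP
  set K : ℕ := L + 2 - m with hKd
  obtain ⟨n₀, hn₀⟩ := Filter.eventually_atTop.1
    (TL.lim (κ := TL.kap Q L m) (A := K * C * C') (TL.kap_pos hQ L m) hε)
  refine ⟨n₀, fun n hn g hg c Bs => ?_⟩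
  obtain ⟨hn1, hn2, hn3⟩ := hn₀ n hn
  have hblock := fun b : ℤ => TL.block hBP hK hP hF hB hC hGT hQ hm hL hn1 hn2 hg (c + b * L)
  have h1 := Finset.sum_le_sum (s := Bs) fun b _ => hblock b
  refine h1.trans ?_
  rw [← Finset.mul_sum]
  -- reindex
  let f : ℤ × ℕ → ℤ := fun p => c + p.1 * L + m - 2 + p.2
  let τ : ℤ → ℤ := fun a => c + ((a - c) / L) * L
  have hfτ : ∀ b : ℤ, ∀ i ∈ Finset.range K, (f (b, i) - c) / L = b := by
    intro b i hi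
    have hi' := Finset.mem_range.1 hi
    have hL0 : (0 : ℤ) < L := by omega
    have e1 : f (b, i) - c = ((m : ℤ) - 2 + i) + b * L := by simp only [f]; ring
    rw [e1, Int.add_mul_ediv_right _ _ hL0.ne', Int.ediv_eq_zero_of_lt (by omega) (by omega)]
    ring
  have h2 : ∑ b ∈ Bs, ∑ i ∈ Finset.range K,
      ∫ x, qa (c + b * L + m - 2 + i) g x * ‖iF (cut (lo (c + b * L)) g) x‖ ^ 2
      = ∑ a ∈ (Bs ×ˢ Finset.range K).image f, ∫ x, qa a g x * ‖iF (cut (lo (τ a)) g) x‖ ^ 2 := by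
    rw [Finset.sum_image, Finset.sum_product]
    · refine Finset.sum_congr rfl fun b _ => Finset.sum_congr rfl fun i hi => ?_
      have e1 : τ (f (b, i)) = c + b * L := by
        simp only [τ]; rw [hfτ b i hi]
      rw [e1]
    · rintro ⟨b, i⟩ hbi ⟨b', i'⟩ hbi' he
      have hi := (Finset.mem_product.1 hbi).2
      have hi' := (Finset.mem_product.1 hbi').2
      have e1 := hfτ b i hi
      have e2 := hfτ b' i' hi'
      rw [he, e2] at e1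
      subst e1
      simp only [f] at he
      have : i = i' := by omega
      rw [this]
  rw [h2]
  have h3 := (hPP ((Bs ×ˢ Finset.range K).image f) τ g g hg hg).2.1
  rw [Real.mul_self_sqrt (n4_nonneg g)] at h3
  calc _ ≤ (K : ℝ) * C * (n * Real.exp (-(n * TL.kap Q L m ^ 2))) * (C' * N4 g) :=
        mul_le_mul_of_nonneg_left h3 (by positivity)
    _ = (K * C * C' * (n * Real.exp (-(n * TL.kap Q L m ^ 2)))) * N4 g := by ring
    _ ≤ ε * N4 g := mul_le_mul_of_nonneg_right hn3 (n4_nonneg g)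

end Pool.Agent.Lib.MP_dd244f_an.Four
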