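import Pool.Agent.Lib.MP_dd244f_an.Four.Base
import Pool.Agent.Lib.MP_dd244f_an.Four.L2
import Pool.Agent.Lib.MP_dd244f_an.Four.Fac
import Pool.Agent.Lib.MP_dd244f_an.Four.Lap
import Pool.Agent.Lib.MP_dd244f_an.Four.MM
import Pool.Agent.Lib.MP_dd244f_an.Four.MM2
import Pool.Agent.Lib.MP_dd244f_an.Four.BilPt
import Pool.Agent.Lib.MP_dd244f_an.Four.KK
import Pool.Agent.Lib.MP_dd244f_an.Four.Ker
import Pool.Agent.Lib.MP_dd244f_an.Four.LPK
import Pool.Agent.Lib.MP_dd244f_an.Four.LocL2
import Pool.Agent.Lib.MP_dd244f_an.Four.DD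
import Pool.Agent.Lib.MP_dd244f_an.Four.Max
import Pool.Agent.Lib.MP_dd244f_an.Four.Sq
import Pool.Agent.Lib.MP_dd244f_an.Four.PP
import Pool.Agent.Lib.MP_dd244f_an.Four.R
import Pool.Agent.Lib.MP_dd244f_an.Four.Dec
import Pool.Agent.Lib.MP_dd244f_an.Four.Top
import Pool.Agent.Lib.MP_dd244f_an.Four.Avg
import Pool.Agent.Lib.MP_dd244f_an.Four.Apr
import Pool.Agent.Lib.MP_dd244f_an.Four.Riesz
import Pool.Agent.Lib.MP_dd244f_an.Four.HLP
import Pool.Agent.Lib.MP_dd244f_an.Four.PS
import Pool.Agent.Lib.MP_dd244f_an.Four.Syn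
import Pool.Agent.Lib.MP_dd244f_an.Four.CG
import Pool.Agent.Lib.MP_dd244f_an.Four.Hold
import Pool.Agent.Lib.MP_dd244f_an.Four.Chirp
import Pool.Agent.Lib.MP_dd244f_an.Four.EI
import Pool.Agent.Lib.MP_dd244f_an.Four.EIJ
import Pool.Agent.Lib.MP_dd244f_an.Four.GT
import Pool.Agent.Lib.MP_dd244f_an.Four.TailLow
import Pool.Agent.Lib.MP_dd244f_an.Four.TailHigh
import Pool.Agent.Lib.MP_dd244f_an.Four.Tail
import Pool.Agent.Lib.MP_dd244f_an.Four.Err
import Pool.Agent.Lib.MP_dd244f_an.Four.ErrLow
import Pool.Agent.Lib.MP_dd244f_an.Four.Blk1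
import Pool.Agent.Lib.MP_dd244f_an.Four.BlkAvg
import Pool.Agent.Lib.MP_dd244f_an.Four.Block
import Pool.Agent.Lib.MP_dd244f_an.Four.Bdry
import Pool.Agent.Lib.MP_dd244f_an.Four.Shift
import Pool.Agent.Lib.MP_dd244f_an.Four.Main4
import Pool.Agent.Lib.MP_dd244f_an.Four.Ratio4
import Pool.Agent.Lib.MP_dd244f_an.Four.Final4

/-!
Full operator, `p = 4`, `n → ∞`: the modules put together.
-/

set_option autoImplicit false

namespace Pool.Agent.Lib.MP_dd244f_an.Four

theorem all_lpk : StmtLPK := lpk ker kk fac base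
theorem all_bilPt : StmtBilPt := bilPt base kk
theorem all_locL2 : StmtLocL2 := locL2 ker kk base l2 fac
theorem all_dd : StmtDD := dd kk
theorem all_max : StmtMax := max4 all_dd all_lpk kk base fac
theorem all_sq : StmtSq := sq4 all_locL2 kk all_lpk all_dd base fac
theorem all_pp : StmtPP := pp all_sq all_max all_lpk base fac
theorem all_mm : StmtMM := mmc lapc fac
theorem all_mm2 : StmtMM2 := mm2 lapc
theorem all_r : StmtR := rr all_bilPt lapc all_mm all_mm2 fac base
theorem all_dec : StmtDec := dec all_r all_pp base fac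
theorem all_top : StmtTop := top4 base fac
theorem all_avg : StmtAvg := avg all_top all_dec all_pp fac
theorem all_hlp : StmtHLP := hlp riesz l2
theorem all_ps : StmtPS := ps base
theorem all_syn : StmtSyn := syn all_hlp all_ps base
theorem all_hold : StmtHold := hold all_ps base
theorem all_chirp : StmtChirp := chirp cg all_hold base
theorem all_ei : StmtEI := ei all_chirp all_hold all_ps base
theorem all_eij : StmtEIJ := eij base all_ei
theorem all_gt : StmtGT := gt all_bilPt lapc
theorem all_tailLow : StmtTailLow := tailLow all_gt all_bilPt kk all_pp fac base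
theorem all_tailHigh : StmtTailHigh := tailHigh all_gt all_bilPt kk all_sq all_lpk fac base
theorem all_tail : StmtTail := tail all_tailLow all_tailHigh fac base
theorem all_errLow : StmtErrLow := errLow lapc all_mm fac
theorem all_err : StmtErr := err lapc all_mm all_mm2 fac
theorem all_blk1 : StmtBlk1 := blk1 all_err all_errLow all_bilPt fac base
theorem all_blkAvg : StmtBlkAvg := blkAvg all_chirp cg fac base
theorem all_block : StmtBlock := block all_syn all_blk1 all_blkAvg all_bilPt fac base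
theorem all_apr : StmtApr := apr ratio4 base fac
theorem all_main4 : StmtMain4 :=
  main4 all_avg all_apr all_pp all_block all_eij all_tail (bdry base fac) shift fac base
theorem all_final4 : StmtFinal4 := final4 all_main4 ratio4 base fac l2

end Pool.Agent.Lib.MP_dd244f_an.Four
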