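import Pool.Agent.Lib.MP_dd244f_an.Four.Basic

/-!
(Syn): the windowed form of the sharp inequality.
-/

set_option autoImplicit false

namespace Pool.Agent.Lib.MP_dd244f_an.Four

open MeasureTheory Filter Topology Finset
open scoped ENNReal RealInnerProductSpace

namespace SynM

/-- real Gaussian -/
noncomputable def ga (r : ℝ) (η : ℂ) : ℝ := Real.exp (-(Real.pi * r ^ 2 * ‖η‖ ^ 2))

lemma ga_neg (r : ℝ) (η : ℂ) : ga r (-η) = ga r η := by
  unfold ga; rw [norm_neg]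

lemma ga_pos (r : ℝ) (η : ℂ) : 0 < ga r η := Real.exp_pos _

lemma continuous_ga (r : ℝ) : Continuous (ga r) := by
  unfold ga
  fun_prop

/-- the Fourier transform of the Gaussian -/
lemma ga_fourier {r : ℝ} (hr : 0 < r) (w : ℂ) :
    ∫ η : ℂ, ch w η * (ga r η : ℂ) =
      ((1 / r ^ 2 * Real.exp (-(Real.pi * ‖w‖ ^ 2 / r ^ 2)) : ℝ) : ℂ) := by
  have hb : 0 < ((Real.pi * r ^ 2 : ℝ) : ℂ).re := by
    rw [Complex.ofReal_re]; positivity
  have h := GaussianFourier.integral_cexp_neg_mul_sq_norm_add (V := ℂ) hb (2 * Real.pi * Complex.I) w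
  have e1 : ∀ v : ℂ, Complex.exp (-((Real.pi * r ^ 2 : ℝ) : ℂ) * (‖v‖ : ℂ) ^ 2 +
      2 * Real.pi * Complex.I * (⟪w, v⟫ : ℝ)) = ch w v * (ga r v : ℂ) := by
    intro v
    unfold ch ga
    rw [Complex.ofReal_exp, ← Complex.exp_add, Complex.inner]
    congr 1
    simp only [Complex.mul_re, Complex.conj_re, Complex.conj_im]
    push_cast
    ring
  simp only [e1] at h
  rw [h, Complex.finrank_real_complex]
  have hr' : (r : ℂ) ≠ 0 := by exact_mod_cast hr.ne'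
  have hpi : (Real.pi : ℂ) ≠ 0 := by exact_mod_cast Real.pi_ne_zero
  have e2 : (((2 : ℕ) : ℂ) / 2) = 1 := by norm_num
  have e3 : ((1 / r ^ 2 * Real.exp (-(Real.pi * ‖w‖ ^ 2 / r ^ 2)) : ℝ) : ℂ) =
      1 / (r : ℂ) ^ 2 * Complex.exp (-(Real.pi * (‖w‖ : ℂ) ^ 2 / (r : ℂ) ^ 2)) := by
    push_cast; rfl
  rw [e2, Complex.cpow_one, e3]
  congr 1
  · push_cast
    field_simp
  · congr 1
    push_cast
    rw [mul_pow, mul_pow, Complex.I_sq]
    field_simp
    ring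

lemma ga_integrable {r : ℝ} (hr : 0 < r) : Integrable (ga r) := by
  have h := GaussianFourier.integrable_cexp_neg_mul_sq_norm_add (V := ℂ)
    (b := ((Real.pi * r ^ 2 : ℝ) : ℂ)) (by rw [Complex.ofReal_re]; positivity) 0 0
  refine (h.norm).congr (Eventually.of_forall fun v => ?_)
  simp only [zero_mul, add_zero]
  unfold ga
  rw [Complex.norm_exp]
  congr 1
  rw [← Complex.ofReal_neg, ← Complex.ofReal_pow, ← Complex.ofReal_mul, Complex.ofReal_re]
  ring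

/-- the integrand on the product -/
lemma prod_integrable {r : ℝ} (hr : 0 < r) {g : ℂ → ℂ} (hg : CC g) :
    Integrable (fun p : ℂ × ℂ => (ga r (p.2 - p.1) : ℂ) * g p.2) (volume.prod volume) := by
  have hgi : Integrable g := hg.1.integrable_of_hasCompactSupport hg.2
  have h := hgi.convolution_integrand (ContinuousLinearMap.mul ℝ ℂ) (g := fun η => (ga r η : ℂ))
    ((ga_integrable hr).ofReal)
  refine h.congr (Eventually.of_forall fun p => ?_)
  simp only [ContinuousLinearMap.mul_apply']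
  rw [mul_comm]
  congr 2
  rw [← ga_neg]
  congr 1
  ring

/-- the integrand with unimodular factors -/
lemma prod_integrable' {r : ℝ} (hr : 0 < r) {g : ℂ → ℂ} (hg : CC g) (φ : ℂ × ℂ → ℂ)
    (hφ : Continuous φ) {B : ℝ} (hB : ∀ p, ‖φ p‖ ≤ B) :
    Integrable (fun p : ℂ × ℂ => φ p * ((ga r (p.2 - p.1) : ℂ) * g p.2)) (volume.prod volume) :=
  (prod_integrable hr hg).bdd_mul hφ.aestronglyMeasurable (Eventually.of_forall hB)

/-- the windowed transform -/
noncomputable def hz (r : ℝ) (g : ℂ → ℂ) (z ξ : ℂ) : ℂ :=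
  ((r ^ 2 : ℝ) : ℂ) * (ch (-z) ξ * iF (gs r ξ g) z)

lemma gs_eq (r : ℝ) (ξ : ℂ) (g : ℂ → ℂ) (ζ : ℂ) : gs r ξ g ζ = (ga r (ζ - ξ) : ℂ) * g ζ := rfl

lemma hz_eq (r : ℝ) (g : ℂ → ℂ) (z ξ : ℂ) : hz r g z ξ =
    ∫ ζ, (((r ^ 2 : ℝ) : ℂ) * (ch (-z) ξ * ch z ζ)) * ((ga r (ζ - ξ) : ℂ) * g ζ) := by
  unfold hz iF
  rw [← integral_const_mul, ← integral_const_mul]
  congr 1
  ext ζ
  rw [gs_eq]
  ring

lemma hz_integrable {r : ℝ} (hr : 0 < r) {g : ℂ → ℂ} (hg : CC g) (z : ℂ) :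
    Integrable (hz r g z) := by
  have h := prod_integrable' hr hg (fun p => ((r ^ 2 : ℝ) : ℂ) * (ch (-z) p.1 * ch z p.2))
    (by have := continuous_ch (-z); have := continuous_ch z; fun_prop) (B := r ^ 2) (by
      intro p
      rw [norm_mul, norm_mul, norm_ch, norm_ch, mul_one, mul_one, Complex.norm_real,
        Real.norm_eq_abs, abs_of_nonneg (by positivity)])
  have h2 := h.integral_prod_left
  refine h2.congr (Eventually.of_forall fun ξ => ?_)
  rw [hz_eq]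

/-- the window -/
lemma iF_hz {r : ℝ} (hr : 0 < r) {g : ℂ → ℂ} (hg : CC g) (z x : ℂ) :
    iF (hz r g z) x = (Real.exp (-(Real.pi * ‖x - z‖ ^ 2 / r ^ 2)) : ℂ) * iF g x := by
  have h1 : iF (hz r g z) x = ∫ ξ, ∫ ζ, (((r ^ 2 : ℝ) : ℂ) * (ch (x - z) ξ * ch z ζ)) *
      ((ga r (ζ - ξ) : ℂ) * g ζ) := by
    unfold iF
    congr 1
    ext ξ
    rw [hz_eq, ← integral_const_mul]
    congr 1
    ext ζ
    rw [sub_eq_add_neg x z, ch_add]
    ring
  have h := prod_integrable' hr hg (fun p => ((r ^ 2 : ℝ) : ℂ) * (ch (x - z) p.1 * ch z p.2))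
    (by have := continuous_ch (x - z); have := continuous_ch z; fun_prop) (B := r ^ 2) (by
      intro p
      rw [norm_mul, norm_mul, norm_ch, norm_ch, mul_one, mul_one, Complex.norm_real,
        Real.norm_eq_abs, abs_of_nonneg (by positivity)])
  rw [h1, integral_integral_swap h]
  unfold iF
  rw [← integral_const_mul]
  congr 1
  ext ζ
  have h2 : ∀ ξ, (((r ^ 2 : ℝ) : ℂ) * (ch (x - z) ξ * ch z ζ)) * ((ga r (ζ - ξ) : ℂ) * g ζ) =
      (((r ^ 2 : ℝ) : ℂ) * ch z ζ * g ζ) * (ch (x - z) ξ * (ga r (ζ - ξ) : ℂ)) := by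
    intro ξ; ring
  simp only [h2]
  rw [integral_const_mul]
  have h3 : ∫ ξ, ch (x - z) ξ * (ga r (ζ - ξ) : ℂ) =
      ch (x - z) ζ * ∫ η, ch (x - z) η * (ga r η : ℂ) := by
    rw [← integral_add_right_eq_self (fun ξ => ch (x - z) ξ * (ga r (ζ - ξ) : ℂ)) ζ,
      ← integral_const_mul]
    congr 1
    ext η
    rw [ch_add_right, show ζ - (η + ζ) = -η by ring, ga_neg]
    ring
  rw [h3, ga_fourier hr]
  have h4 : ch x ζ = ch z ζ * ch (x - z) ζ := by
    rw [← ch_add]; congr 1; ring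
  rw [h4]
  have hr' : (r : ℂ) ≠ 0 := by exact_mod_cast hr.ne'
  push_cast
  field_simp

/-! ### Gaussian moments -/

lemma mom_int {c : ℝ} (hc : 0 < c) (k : ℕ) :
    Integrable (fun x : ℝ => x ^ k * Real.exp (-(c * x ^ 2))) := by
  have h := integrable_rpow_mul_exp_neg_mul_sq hc (s := (k : ℝ))
    (by have : (0 : ℝ) ≤ k := Nat.cast_nonneg k; linarith)
  refine h.congr (Eventually.of_forall fun x => ?_)
  simp only [Real.rpow_natCast, neg_mul]

lemma mom_rec {c : ℝ} (hc : 0 < c) (k : ℕ) :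
    ∫ x : ℝ, x ^ (k + 2) * Real.exp (-(c * x ^ 2)) =
      (k + 1) / (2 * c) * ∫ x : ℝ, x ^ k * Real.exp (-(c * x ^ 2)) := by
  have h1 : ∀ x : ℝ, HasDerivAt (fun x : ℝ => x ^ (k + 1) * Real.exp (-(c * x ^ 2)))
      ((k + 1) * (x ^ k * Real.exp (-(c * x ^ 2))) -
        2 * c * (x ^ (k + 2) * Real.exp (-(c * x ^ 2)))) x := by
    intro x
    have a1 : HasDerivAt (fun x : ℝ => x ^ (k + 1)) (((k + 1 : ℕ) : ℝ) * x ^ k) x := by
      simpa using hasDerivAt_pow (k + 1) x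
    have a2 : HasDerivAt (fun x : ℝ => -(c * x ^ 2)) (-(c * (2 * x))) x := by
      have := ((hasDerivAt_pow 2 x).const_mul c).fun_neg
      simpa using this
    have a3 := a1.mul a2.exp
    refine a3.congr_deriv ?_
    push_cast
    ring
  have h2 := integral_eq_zero_of_hasDerivAt_of_integrable h1
    (((mom_int hc k).const_mul _).sub ((mom_int hc (k + 2)).const_mul _)) (mom_int hc (k + 1))
  rw [integral_sub ((mom_int hc k).const_mul _) ((mom_int hc (k + 2)).const_mul _),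
    integral_const_mul, integral_const_mul] at h2
  field_simp
  linarith

lemma mom_one (c : ℝ) : ∫ x : ℝ, x ^ 1 * Real.exp (-(c * x ^ 2)) = 0 := by
  have h1 : ∫ x : ℝ, x ^ 1 * Real.exp (-(c * x ^ 2)) =
      ∫ x : ℝ, (-x) ^ 1 * Real.exp (-(c * (-x) ^ 2)) :=
    (integral_neg_eq_self (fun x : ℝ => x ^ 1 * Real.exp (-(c * x ^ 2))) volume).symm
  have h2 : ∫ x : ℝ, (-x) ^ 1 * Real.exp (-(c * (-x) ^ 2)) =
      -∫ x : ℝ, x ^ 1 * Real.exp (-(c * x ^ 2)) := by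
    rw [← integral_neg]
    congr 1
    ext x
    rw [neg_sq]
    ring
  linarith

lemma mom_zero (c : ℝ) : ∫ x : ℝ, x ^ 0 * Real.exp (-(c * x ^ 2)) = Real.sqrt (Real.pi / c) := by
  rw [← integral_gaussian]
  congr 1
  ext x
  rw [pow_zero, one_mul, neg_mul]

lemma mom_two {c : ℝ} (hc : 0 < c) : ∫ x : ℝ, x ^ 2 * Real.exp (-(c * x ^ 2)) =
    Real.sqrt (Real.pi / c) / (2 * c) := by
  rw [mom_rec hc 0, mom_zero]
  push_cast
  ring

lemma mom_three {c : ℝ} (hc : 0 < c) : ∫ x : ℝ, x ^ 3 * Real.exp (-(c * x ^ 2)) = 0 := by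
  rw [mom_rec hc 1, mom_one c, mul_zero]

lemma mom_four {c : ℝ} (hc : 0 < c) : ∫ x : ℝ, x ^ 4 * Real.exp (-(c * x ^ 2)) =
    3 * Real.sqrt (Real.pi / c) / (4 * c ^ 2) := by
  rw [mom_rec hc 2, mom_two hc]
  push_cast
  field_simp
  norm_num

lemma shift_int {c : ℝ} (hc : 0 < c) (a : ℝ) (k : ℕ) :
    Integrable (fun x : ℝ => x ^ k * Real.exp (-(c * (x - a) ^ 2))) := by
  have h1 : Integrable (fun x : ℝ => (x + a) ^ k * Real.exp (-(c * x ^ 2))) := by
    simp only [add_pow, Finset.sum_mul]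
    refine integrable_finsetSum _ fun i _ => ?_
    refine ((mom_int hc i).const_mul (a ^ (k - i) * (k.choose i : ℝ))).congr
      (Eventually.of_forall fun x => ?_)
    simp only
    ring
  have h2 := h1.comp_sub_right a
  refine h2.congr (Eventually.of_forall fun x => ?_)
  simp only [sub_add_cancel]

lemma shift_eq {c : ℝ} (a : ℝ) (k : ℕ) :
    ∫ x : ℝ, x ^ k * Real.exp (-(c * (x - a) ^ 2)) =
      ∫ x : ℝ, (x + a) ^ k * Real.exp (-(c * x ^ 2)) := by
  rw [← integral_add_right_eq_self (fun x : ℝ => x ^ k * Real.exp (-(c * (x - a) ^ 2))) a]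
  congr 1
  ext x
  rw [add_sub_cancel_right]

lemma shift_zero {c : ℝ} (a : ℝ) :
    ∫ x : ℝ, x ^ 0 * Real.exp (-(c * (x - a) ^ 2)) = Real.sqrt (Real.pi / c) := by
  rw [shift_eq]
  simp only [pow_zero]
  have := mom_zero c
  simpa using this

lemma shift_two {c : ℝ} (hc : 0 < c) (a : ℝ) :
    ∫ x : ℝ, x ^ 2 * Real.exp (-(c * (x - a) ^ 2)) =
      Real.sqrt (Real.pi / c) * (a ^ 2 + 1 / (2 * c)) := by
  rw [shift_eq]
  have h1 : ∀ x : ℝ, (x + a) ^ 2 * Real.exp (-(c * x ^ 2)) =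
      x ^ 2 * Real.exp (-(c * x ^ 2)) + (2 * a) * (x ^ 1 * Real.exp (-(c * x ^ 2))) +
        a ^ 2 * (x ^ 0 * Real.exp (-(c * x ^ 2))) := by
    intro x; ring
  simp only [h1]
  have i0 := (mom_int hc 0).const_mul (a ^ 2)
  have i1 := (mom_int hc 1).const_mul (2 * a)
  have i2 := mom_int hc 2
  have j1 : Integrable (fun x : ℝ => x ^ 2 * Real.exp (-(c * x ^ 2)) +
      (2 * a) * (x ^ 1 * Real.exp (-(c * x ^ 2)))) := i2.add i1
  rw [integral_add j1 i0, integral_add i2 i1, integral_const_mul,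
    integral_const_mul, mom_two hc, mom_one c, mom_zero]
  ring

lemma shift_four {c : ℝ} (hc : 0 < c) (a : ℝ) :
    ∫ x : ℝ, x ^ 4 * Real.exp (-(c * (x - a) ^ 2)) =
      Real.sqrt (Real.pi / c) * (a ^ 4 + 3 * a ^ 2 / c + 3 / (4 * c ^ 2)) := by
  rw [shift_eq]
  have h1 : ∀ x : ℝ, (x + a) ^ 4 * Real.exp (-(c * x ^ 2)) =
      x ^ 4 * Real.exp (-(c * x ^ 2)) + (4 * a) * (x ^ 3 * Real.exp (-(c * x ^ 2))) +
        (6 * a ^ 2) * (x ^ 2 * Real.exp (-(c * x ^ 2))) +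
        (4 * a ^ 3) * (x ^ 1 * Real.exp (-(c * x ^ 2))) +
        a ^ 4 * (x ^ 0 * Real.exp (-(c * x ^ 2))) := by
    intro x; ring
  simp only [h1]
  have i0 := (mom_int hc 0).const_mul (a ^ 4)
  have i1 := (mom_int hc 1).const_mul (4 * a ^ 3)
  have i2 := (mom_int hc 2).const_mul (6 * a ^ 2)
  have i3 := (mom_int hc 3).const_mul (4 * a)
  have i4 := mom_int hc 4
  have j3 : Integrable (fun x : ℝ => x ^ 4 * Real.exp (-(c * x ^ 2)) +
      (4 * a) * (x ^ 3 * Real.exp (-(c * x ^ 2)))) := i4.add i3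
  have j2 : Integrable (fun x : ℝ => x ^ 4 * Real.exp (-(c * x ^ 2)) +
      (4 * a) * (x ^ 3 * Real.exp (-(c * x ^ 2))) +
        (6 * a ^ 2) * (x ^ 2 * Real.exp (-(c * x ^ 2)))) := j3.add i2
  have j1 : Integrable (fun x : ℝ => x ^ 4 * Real.exp (-(c * x ^ 2)) +
      (4 * a) * (x ^ 3 * Real.exp (-(c * x ^ 2))) +
        (6 * a ^ 2) * (x ^ 2 * Real.exp (-(c * x ^ 2))) +
        (4 * a ^ 3) * (x ^ 1 * Real.exp (-(c * x ^ 2)))) := j2.add i1
  rw [integral_add j1 i0, integral_add j2 i1,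
    integral_add j3 i2, integral_add i4 i3, integral_const_mul, integral_const_mul,
    integral_const_mul, integral_const_mul, mom_four hc, mom_three hc, mom_two hc, mom_one c,
    mom_zero]
  field_simp
  ring

/-- the fourth moment of a Gaussian in the plane -/
lemma plane_four {c : ℝ} (hc : 0 < c) (v : ℂ) :
    Integrable (fun ξ : ℂ => ‖ξ‖ ^ 4 * Real.exp (-(c * ‖ξ - v‖ ^ 2))) ∧
      ∫ ξ : ℂ, ‖ξ‖ ^ 4 * Real.exp (-(c * ‖ξ - v‖ ^ 2)) =
        Real.pi / c * (‖v‖ ^ 4 + 4 * ‖v‖ ^ 2 / c + 2 / c ^ 2) := by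
  set F : ℝ × ℝ → ℝ := fun p =>
    (p.1 ^ 4 * Real.exp (-(c * (p.1 - v.re) ^ 2))) * (p.2 ^ 0 * Real.exp (-(c * (p.2 - v.im) ^ 2))) +
    2 * ((p.1 ^ 2 * Real.exp (-(c * (p.1 - v.re) ^ 2))) *
      (p.2 ^ 2 * Real.exp (-(c * (p.2 - v.im) ^ 2)))) +
    (p.1 ^ 0 * Real.exp (-(c * (p.1 - v.re) ^ 2))) * (p.2 ^ 4 * Real.exp (-(c * (p.2 - v.im) ^ 2)))
    with hF
  have hm := Complex.volume_preserving_equiv_real_prod
  have hFe : ∀ ξ : ℂ, ‖ξ‖ ^ 4 * Real.exp (-(c * ‖ξ - v‖ ^ 2)) =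
      F (Complex.measurableEquivRealProd ξ) := by
    intro ξ
    have h1 : ‖ξ‖ ^ 4 = (ξ.re ^ 2 + ξ.im ^ 2) ^ 2 := by
      rw [show ‖ξ‖ ^ 4 = (‖ξ‖ ^ 2) ^ 2 by ring, ← Complex.normSq_eq_norm_sq, Complex.normSq_apply]
      ring
    have h2 : ‖ξ - v‖ ^ 2 = (ξ.re - v.re) ^ 2 + (ξ.im - v.im) ^ 2 := by
      rw [← Complex.normSq_eq_norm_sq, Complex.normSq_apply, Complex.sub_re, Complex.sub_im]
      ring
    rw [h1, h2]
    simp only [hF, Complex.measurableEquivRealProd_apply]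
    rw [show -(c * ((ξ.re - v.re) ^ 2 + (ξ.im - v.im) ^ 2)) =
      -(c * (ξ.re - v.re) ^ 2) + -(c * (ξ.im - v.im) ^ 2) by ring, Real.exp_add]
    ring
  have i1 := (shift_int hc v.re 4).mul_prod (shift_int hc v.im 0)
  have i2 := ((shift_int hc v.re 2).mul_prod (shift_int hc v.im 2)).const_mul 2
  have i3 := (shift_int hc v.re 0).mul_prod (shift_int hc v.im 4)
  have hFint : Integrable F (volume.prod volume) := (i1.add i2).add i3
  have hsq : Real.sqrt (Real.pi / c) * Real.sqrt (Real.pi / c) = Real.pi / c :=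
    Real.mul_self_sqrt (by positivity)
  have hFval : ∫ p, F p ∂(volume.prod volume) =
      Real.pi / c * (‖v‖ ^ 4 + 4 * ‖v‖ ^ 2 / c + 2 / c ^ 2) := by
    simp only [hF]
    have i12 : Integrable (fun p : ℝ × ℝ => (p.1 ^ 4 * Real.exp (-(c * (p.1 - v.re) ^ 2))) *
        (p.2 ^ 0 * Real.exp (-(c * (p.2 - v.im) ^ 2))) +
        2 * ((p.1 ^ 2 * Real.exp (-(c * (p.1 - v.re) ^ 2))) *
        (p.2 ^ 2 * Real.exp (-(c * (p.2 - v.im) ^ 2))))) (volume.prod volume) := i1.add i2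
    rw [integral_add i12 i3, integral_add i1 i2, integral_const_mul,
      integral_prod_mul (fun x : ℝ => x ^ 4 * Real.exp (-(c * (x - v.re) ^ 2)))
        (fun x : ℝ => x ^ 0 * Real.exp (-(c * (x - v.im) ^ 2))),
      integral_prod_mul (fun x : ℝ => x ^ 2 * Real.exp (-(c * (x - v.re) ^ 2)))
        (fun x : ℝ => x ^ 2 * Real.exp (-(c * (x - v.im) ^ 2))),
      integral_prod_mul (fun x : ℝ => x ^ 0 * Real.exp (-(c * (x - v.re) ^ 2)))
        (fun x : ℝ => x ^ 4 * Real.exp (-(c * (x - v.im) ^ 2))),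
      shift_four hc, shift_four hc, shift_two hc, shift_two hc, shift_zero, shift_zero]
    have h1 : ‖v‖ ^ 4 = (v.re ^ 2 + v.im ^ 2) ^ 2 := by
      rw [show ‖v‖ ^ 4 = (‖v‖ ^ 2) ^ 2 by ring, ← Complex.normSq_eq_norm_sq, Complex.normSq_apply]
      ring
    have h2 : ‖v‖ ^ 2 = v.re ^ 2 + v.im ^ 2 := by
      rw [← Complex.normSq_eq_norm_sq, Complex.normSq_apply]
      ring
    generalize Real.sqrt (Real.pi / c) = q at hsq ⊢
    rw [h1, h2, ← hsq]
    field_simp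
    ring
  constructor
  · simp only [hFe]
    exact hm.integrable_comp_of_integrable hFint
  · simp only [hFe]
    rw [hm.integral_comp' (g := F)]
    exact hFval

/-! ### Continuity -/

lemma cont_u {r : ℝ} {g : ℂ → ℂ} (hg : CC g) :
    Continuous (fun p : ℂ × ℂ => iF (gs r p.2 g) p.1) := by
  have h1 : (fun p : ℂ × ℂ => iF (gs r p.2 g) p.1) =
      fun p : ℂ × ℂ => ∫ ζ in tsupport g, ch p.1 ζ * gs r p.2 g ζ := by
    ext p
    unfold iF
    refine (setIntegral_eq_integral_of_forall_compl_eq_zero fun ζ hζ => ?_).symm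
    rw [gs_eq, image_eq_zero_of_notMem_tsupport hζ]
    ring
  rw [h1]
  refine continuous_parametric_integral_of_continuous
    (f := fun (p : ℂ × ℂ) ζ => ch p.1 ζ * gs r p.2 g ζ) ?_ hg.2
  have := hg.1
  unfold ch gs
  simp only [Function.uncurry_def]
  fun_prop

lemma ga_int_val {ρ : ℝ} (hρ : 0 < ρ) : ∫ η : ℂ, ga ρ η = 1 / ρ ^ 2 := by
  have h := ga_fourier hρ 0
  simp only [ch_zero_left, one_mul] at h
  rw [integral_complex_ofReal] at h
  have h2 := Complex.ofReal_injective h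
  rw [h2]
  simp

lemma enorm_pow_four (w : ℂ) : ‖w‖ₑ ^ 4 = ENNReal.ofReal (‖w‖ ^ 4) := by
  rw [← ofReal_norm, ENNReal.ofReal_pow (norm_nonneg _)]

end SynM

open SynM in
/-- windowed form of the sharp inequality -/
theorem syn (hH : StmtHLP) (hP : StmtPS) (hB : StmtBase) : StmtSyn := by
  intro r g hr hg
  have hFc : Continuous (iF g) := (hB.1 g hg).1
  have hF4 : Integrable (fun x => ‖iF g x‖ ^ 4) := (hB.1 g hg).2.2.2.1
  have hAs : CC (As r g g) := as_cc hB hg hg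
  -- the left-hand side
  have hL : ∫⁻ z, ∫⁻ x, ‖iF (hz r g z) x‖ₑ ^ 4 = ENNReal.ofReal (r ^ 2 / 4 * N4 g) := by
    have e : ∀ z x, ‖iF (hz r g z) x‖ₑ ^ 4 =
        ENNReal.ofReal (ga (2 / r) (x - z) * ‖iF g x‖ ^ 4) := by
      intro z x
      rw [enorm_pow_four, iF_hz hr hg, norm_mul, mul_pow, Complex.norm_real, Real.norm_eq_abs,
        Real.abs_exp]
      congr 2
      unfold ga
      rw [← Real.exp_nat_mul]
      congr 1
      push_cast
      field_simp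
      ring
    simp only [e]
    rw [lintegral_lintegral_swap]
    · have h1 : ∀ x, ∫⁻ z, ENNReal.ofReal (ga (2 / r) (x - z) * ‖iF g x‖ ^ 4) =
          ENNReal.ofReal (r ^ 2 / 4 * ‖iF g x‖ ^ 4) := by
        intro x
        have hr2 : 0 < 2 / r := by positivity
        have i1 : Integrable (fun z => ga (2 / r) (x - z) * ‖iF g x‖ ^ 4) :=
          ((ga_integrable hr2).comp_sub_left x).mul_const _
        rw [← ofReal_integral_eq_lintegral_ofReal i1
          (Eventually.of_forall fun z => by have := ga_pos (2 / r) (x - z); positivity)]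
        congr 1
        rw [integral_mul_const, integral_sub_left_eq_self (fun y => ga (2 / r) y), ga_int_val hr2]
        field_simp
        ring
      simp only [h1]
      rw [← ofReal_integral_eq_lintegral_ofReal (hF4.const_mul _)
        (Eventually.of_forall fun x => by positivity), integral_const_mul]
      rfl
    · have hcont : Continuous (fun p : ℂ × ℂ => ga (2 / r) (p.2 - p.1) * ‖iF g p.2‖ ^ 4) := by
        have := continuous_ga (2 / r)
        fun_prop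
      exact hcont.measurable.ennreal_ofReal.aemeasurable
  -- the integrals over `z`
  have hu : ∀ ξ, Integrable (fun z => ‖iF (gs r ξ g) z‖ ^ 4) ∧
      ∫ z, ‖iF (gs r ξ g) z‖ ^ 4 = ∫ θ, Real.exp (-(Real.pi * r ^ 2 * ‖θ - 2 * ξ‖ ^ 2)) *
        ‖As r g g θ‖ ^ 2 := by
    intro ξ
    refine ⟨(hB.1 _ (gs_cc hg)).2.2.2.1, ?_⟩
    rw [← hP r g g ξ hg hg]
    congr 1
    ext z
    have : (fun ζ => (Real.exp (-(Real.pi * r ^ 2 * ‖ζ - ξ‖ ^ 2)) : ℂ) * g ζ) = gs r ξ g := rfl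
    rw [this]
    ring
  set c : ℝ := 4 * Real.pi * r ^ 2 with hc
  have hc0 : 0 < c := by positivity
  have hexp : ∀ θ ξ : ℂ, Real.exp (-(Real.pi * r ^ 2 * ‖θ - 2 * ξ‖ ^ 2)) =
      Real.exp (-(c * ‖ξ - θ / 2‖ ^ 2)) := by
    intro θ ξ
    congr 1
    have h2 : θ - 2 * ξ = (-2) * (ξ - θ / 2) := by ring
    rw [h2, norm_mul, norm_neg, Complex.norm_ofNat, hc]
    ring
  -- the right-hand side
  have hR : ∫⁻ z, ∫⁻ ξ, ‖hz r g z ξ‖ₑ ^ 4 * ‖ξ‖ₑ ^ 4 =
      ENNReal.ofReal (∫ θ, r ^ 8 * ‖As r g g θ‖ ^ 2 *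
        (Real.pi / c * (‖θ / 2‖ ^ 4 + 4 * ‖θ / 2‖ ^ 2 / c + 2 / c ^ 2))) := by
    have e : ∀ z ξ, ‖hz r g z ξ‖ₑ ^ 4 * ‖ξ‖ₑ ^ 4 =
        ENNReal.ofReal (r ^ 8 * ‖ξ‖ ^ 4 * ‖iF (gs r ξ g) z‖ ^ 4) := by
      intro z ξ
      rw [enorm_pow_four, enorm_pow_four, ← ENNReal.ofReal_mul (by positivity)]
      congr 1
      unfold hz
      rw [norm_mul, norm_mul, norm_ch, Complex.norm_real, Real.norm_eq_abs,
        abs_of_nonneg (by positivity)]
      ring
    simp only [e]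
    rw [lintegral_lintegral_swap]
    · have h1 : ∀ ξ, ∫⁻ z, ENNReal.ofReal (r ^ 8 * ‖ξ‖ ^ 4 * ‖iF (gs r ξ g) z‖ ^ 4) =
          ∫⁻ θ, ENNReal.ofReal (r ^ 8 * ‖As r g g θ‖ ^ 2 *
            (‖ξ‖ ^ 4 * Real.exp (-(c * ‖ξ - θ / 2‖ ^ 2)))) := by
        intro ξ
        rw [← ofReal_integral_eq_lintegral_ofReal ((hu ξ).1.const_mul _)
          (Eventually.of_forall fun x => by positivity), integral_const_mul, (hu ξ).2,
          ← integral_const_mul]
        have i2 : Integrable (fun θ => r ^ 8 * ‖As r g g θ‖ ^ 2 *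
            (‖ξ‖ ^ 4 * Real.exp (-(c * ‖ξ - θ / 2‖ ^ 2)))) := by
          refine Continuous.integrable_of_hasCompactSupport ?_ ?_
          · have := hAs.1
            fun_prop
          · refine HasCompactSupport.mul_right ?_
            refine HasCompactSupport.mul_left ?_
            exact (hAs.2.norm).comp_left (g := fun t : ℝ => t ^ 2) (by norm_num)
        rw [← ofReal_integral_eq_lintegral_ofReal i2
          (Eventually.of_forall fun x => by positivity)]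
        congr 2
        ext θ
        rw [hexp]
        ring
      simp only [h1]
      rw [lintegral_lintegral_swap]
      · have h2 : ∀ θ, ∫⁻ ξ, ENNReal.ofReal (r ^ 8 * ‖As r g g θ‖ ^ 2 *
            (‖ξ‖ ^ 4 * Real.exp (-(c * ‖ξ - θ / 2‖ ^ 2)))) =
            ENNReal.ofReal (r ^ 8 * ‖As r g g θ‖ ^ 2 *
              (Real.pi / c * (‖θ / 2‖ ^ 4 + 4 * ‖θ / 2‖ ^ 2 / c + 2 / c ^ 2))) := by
          intro θ
          obtain ⟨j1, j2⟩ := plane_four hc0 (θ / 2)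
          rw [← ofReal_integral_eq_lintegral_ofReal (j1.const_mul _)
            (Eventually.of_forall fun x => by positivity), integral_const_mul, j2]
        simp only [h2]
        rw [← ofReal_integral_eq_lintegral_ofReal]
        · refine Continuous.integrable_of_hasCompactSupport ?_ ?_
          · have := hAs.1
            fun_prop
          · refine HasCompactSupport.mul_right ?_
            refine HasCompactSupport.mul_left ?_
            exact (hAs.2.norm).comp_left (g := fun t : ℝ => t ^ 2) (by norm_num)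
        · exact Eventually.of_forall fun x => by positivity
      · have hcont : Continuous (fun p : ℂ × ℂ => r ^ 8 * ‖As r g g p.2‖ ^ 2 *
            (‖p.1‖ ^ 4 * Real.exp (-(c * ‖p.1 - p.2 / 2‖ ^ 2)))) := by
          have := hAs.1
          fun_prop
        exact hcont.measurable.ennreal_ofReal.aemeasurable
    · have h3 := cont_u (r := r) hg
      have hcont : Continuous (fun p : ℂ × ℂ => r ^ 8 * ‖p.2‖ ^ 4 * ‖iF (gs r p.2 g) p.1‖ ^ 4) :=
        (by fun_prop : Continuous (fun p : ℂ × ℂ => r ^ 8 * ‖p.2‖ ^ 4)).mul ((h3.norm).pow 4)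
      exact hcont.measurable.ennreal_ofReal.aemeasurable
  -- the inequality
  have hmain : ENNReal.ofReal (r ^ 2 / 4 * N4 g) ≤ ENNReal.ofReal (Real.pi ^ 2 * gam ^ 4) *
      ENNReal.ofReal (∫ θ, r ^ 8 * ‖As r g g θ‖ ^ 2 *
        (Real.pi / c * (‖θ / 2‖ ^ 4 + 4 * ‖θ / 2‖ ^ 2 / c + 2 / c ^ 2))) := by
    rw [← hL, ← hR, ← lintegral_const_mul']
    · exact lintegral_mono fun z => hH _ (hz_integrable hr hg z)
    · exact ENNReal.ofReal_ne_top
  have hI0 : 0 ≤ ∫ θ, r ^ 8 * ‖As r g g θ‖ ^ 2 *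
        (Real.pi / c * (‖θ / 2‖ ^ 4 + 4 * ‖θ / 2‖ ^ 2 / c + 2 / c ^ 2)) :=
    integral_nonneg fun θ => by positivity
  rw [← ENNReal.ofReal_mul (by positivity), ENNReal.ofReal_le_ofReal_iff (by positivity)] at hmain
  have hval : ∫ θ, r ^ 8 * ‖As r g g θ‖ ^ 2 *
        (Real.pi / c * (‖θ / 2‖ ^ 4 + 4 * ‖θ / 2‖ ^ 2 / c + 2 / c ^ 2)) = r ^ 2 / 64 *
      ∫ θ, (r ^ 4 * ‖θ‖ ^ 4 + 4 / Real.pi * r ^ 2 * ‖θ‖ ^ 2 + 2 / Real.pi ^ 2) *
        ‖As r g g θ‖ ^ 2 := by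
    rw [← integral_const_mul]
    congr 1
    ext θ
    rw [norm_div, Complex.norm_ofNat, hc]
    have := Real.pi_ne_zero
    field_simp
    ring
  rw [hval] at hmain
  have hr2 : 0 < r ^ 2 / 4 := by positivity
  have h5 : r ^ 2 / 4 * N4 g ≤ r ^ 2 / 4 * (Real.pi ^ 2 * gam ^ 4 / 16 *
      ∫ θ, (r ^ 4 * ‖θ‖ ^ 4 + 4 / Real.pi * r ^ 2 * ‖θ‖ ^ 2 + 2 / Real.pi ^ 2) *
        ‖As r g g θ‖ ^ 2) := by
    refine hmain.trans (le_of_eq ?_)
    ring
  exact le_of_mul_le_mul_left h5 hr2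

end Pool.Agent.Lib.MP_dd244f_an.Four
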