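import Pool.Agent.Lib.MP_dd244f_an.Four.L2

/-!
Full operator, `p = 4`: elementary facts about `iF` for continuous functions with compact support.
-/

set_option autoImplicit false

namespace Pool.Agent.Lib.MP_dd244f_an.Four

open MeasureTheory Filter Topology FourierTransform Convolution

theorem CC.integrable {g : ℂ → ℂ} (hg : CC g) : Integrable g :=
  hg.1.integrable_of_hasCompactSupport hg.2

theorem CC.memLp {g : ℂ → ℂ} (hg : CC g) : MemLp g 2 volume :=
  hg.1.memLp_of_hasCompactSupport hg.2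

theorem CC.integrable_ch {g : ℂ → ℂ} (hg : CC g) (x : ℂ) : Integrable (fun ζ => ch x ζ * g ζ) := by
  refine (Continuous.integrable_of_hasCompactSupport ?_ hg.2.mul_left)
  exact (continuous_ch x).mul hg.1

theorem bil_one_eq (g h : ℂ → ℂ) :
    bil (fun _ => 1) g h = (g ⋆[ContinuousLinearMap.mul ℂ ℂ, volume] h) := by
  ext θ
  rw [convolution_def]
  unfold bil
  rw [← integral_add_left_eq_self
    (fun t => (ContinuousLinearMap.mul ℂ ℂ) (g t) (h (θ - t))) (θ / 2)]
  congr 1
  ext δ
  rw [ContinuousLinearMap.mul_apply', one_mul]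
  congr 2
  ring

theorem bil_one_cc {g h : ℂ → ℂ} (hg : CC g) (hh : CC h) : CC (bil (fun _ => 1) g h) := by
  rw [bil_one_eq]
  exact ⟨hh.2.continuous_convolution_right _ hg.1.locallyIntegrable hh.1,
    HasCompactSupport.convolution _ hg.2 hh.2⟩

theorem iF_mul {g h : ℂ → ℂ} (hg : CC g) (hh : CC h) (x : ℂ) :
    iF g x * iF h x = iF (bil (fun _ => 1) g h) x := by
  rw [bil_one_eq, iF_eq, iF_eq, iF_eq]
  exact (Real.fourier_mul_convolution_eq hg.integrable hh.integrable (-x)).symm

theorem conj_iF (g : ℂ → ℂ) (x : ℂ) :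
    starRingEnd ℂ (iF g x) = iF (fun ζ => starRingEnd ℂ (g (-ζ))) x := by
  unfold iF
  rw [← integral_conj, ← integral_neg_eq_self]
  congr 1
  ext ζ
  rw [map_mul, conj_ch, ch_neg_left, neg_neg]

theorem iF_sq_integrable {g : ℂ → ℂ} (hg : CC g) : Integrable (fun x => ‖iF g x‖ ^ 2) :=
  (iF_memLp hg.integrable hg.memLp).integrable_norm_pow (by norm_num)

theorem iF_four_integrable {g : ℂ → ℂ} (hg : CC g) : Integrable (fun x => ‖iF g x‖ ^ 4) := by
  set B := ∫ ζ, ‖g ζ‖ with hB
  refine ((iF_sq_integrable hg).const_mul (B ^ 2)).mono' ?_ ?_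
  · exact ((iF_continuous hg.integrable).norm.pow 4).aestronglyMeasurable
  · refine Eventually.of_forall fun x => ?_
    rw [Real.norm_of_nonneg (by positivity)]
    have h1 := norm_iF_le g x
    have h2 : ‖iF g x‖ ^ 2 ≤ B ^ 2 := pow_le_pow_left₀ (norm_nonneg _) h1 2
    nlinarith [sq_nonneg ‖iF g x‖]

/-- Elementary facts about `iF`. -/
theorem base : StmtBase := by
  refine ⟨fun g hg => ⟨iF_continuous hg.integrable, ⟨_, norm_iF_le g⟩, iF_sq_integrable hg,
    iF_four_integrable hg, (l2 g hg.integrable hg.memLp).2⟩, fun g h hg hh =>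
    ⟨bil_one_cc hg hh, iF_mul hg hh, ?_⟩, ?_, conj_iF, ?_, ?_⟩
  · have h1 := bil_one_cc hg hh
    rw [← (l2 _ h1.integrable h1.memLp).2]
    unfold N22
    congr 1
    ext x
    rw [← iF_mul hg hh, norm_mul, mul_pow]
  · intro g x y
    unfold iF
    congr 1
    ext ζ
    rw [ch_add]
    ring
  · intro g h hg hh x
    unfold iF
    rw [← integral_add (hg.integrable_ch x) (hh.integrable_ch x)]
    congr 1
    ext ζ
    ring
  · intro g h hg hh
    exact iF_inner hg.integrable hg.memLp hh.integrable hh.memLp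

end Pool.Agent.Lib.MP_dd244f_an.Four
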