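import Pool.Agent.Lib.MP_dd244f_an.Four.Stmts
import Pool.Agent.Lib.MP_dd244f_an.Four.Basic

/-!
Full operator, `p = 4`: averaging the chirp inequality over discs (`StmtBlkAvg`).
-/

set_option autoImplicit false

namespace Pool.Agent.Lib.MP_dd244f_an.Four

open MeasureTheory Filter Topology
open scoped ENNReal

namespace BlkP

/-! ### Gaussians -/

theorem int_gauss {b : ℝ} (hb : 0 < b) :
    Integrable (fun z : ℂ => Real.exp (-(b * ‖z‖ ^ 2))) ∧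
      ∫ z : ℂ, Real.exp (-(b * ‖z‖ ^ 2)) = Real.pi / b := by
  have h := GaussianFourier.integral_rexp_neg_mul_sq_norm (V := ℂ) hb
  have e : (fun z : ℂ => Real.exp (-b * ‖z‖ ^ 2)) = fun z : ℂ => Real.exp (-(b * ‖z‖ ^ 2)) := by
    funext z; rw [neg_mul]
  rw [e] at h
  have hf : (Module.finrank ℝ ℂ / 2 : ℝ) = 1 := by
    rw [Complex.finrank_real_complex]; norm_num
  rw [hf, Real.rpow_one] at h
  refine ⟨?_, h⟩
  by_contra hcon
  rw [integral_undef hcon] at h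
  have : 0 < Real.pi / b := div_pos Real.pi_pos hb
  linarith

theorem lint_gauss {b : ℝ} (hb : 0 < b) (θ : ℂ) :
    ∫⁻ ξ : ℂ, ENNReal.ofReal (Real.exp (-(b * ‖θ - ξ‖ ^ 2))) = ENNReal.ofReal (Real.pi / b) := by
  obtain ⟨h1, h2⟩ := int_gauss hb
  have h3 := ofReal_integral_eq_lintegral_ofReal h1 (Eventually.of_forall fun z => (Real.exp_pos _).le)
  rw [h2] at h3
  rw [h3]
  have h4 := lintegral_sub_left_eq_self (μ := (volume : Measure ℂ))
    (fun z : ℂ => ENNReal.ofReal (Real.exp (-(b * ‖z‖ ^ 2)))) θ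
  exact h4

/-- the normalised Gaussian kernel -/
noncomputable def kk (σ : ℝ) (θ ξ : ℂ) : ℝ≥0∞ :=
  ENNReal.ofReal (σ ^ 2 * Real.exp (-(Real.pi * σ ^ 2 * ‖θ - ξ‖ ^ 2)))

/-- the wider kernel -/
noncomputable def kh (σ : ℝ) (θ ξ : ℂ) : ℝ≥0∞ :=
  ENNReal.ofReal (σ ^ 2 * Real.exp (-(Real.pi * σ ^ 2 / 2 * ‖θ - ξ‖ ^ 2)))

open Classical in
/-- the indicator of a disc -/
noncomputable def ww (D : ℝ) (q ξ : ℂ) : ℝ≥0∞ := if ‖q - ξ‖ ≤ D then 1 else 0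

theorem ww_symm (D : ℝ) (q ξ : ℂ) : ww D q ξ = ww D ξ q := by
  unfold ww
  rw [norm_sub_rev]

theorem ww_le (D : ℝ) (q ξ : ℂ) : ww D q ξ ≤ 1 := by
  unfold ww
  split_ifs
  · exact le_rfl
  · exact zero_le

theorem lint_kk {σ : ℝ} (hσ : 0 < σ) (θ : ℂ) : ∫⁻ ξ, kk σ θ ξ = 1 := by
  unfold kk
  have e : ∀ ξ : ℂ, ENNReal.ofReal (σ ^ 2 * Real.exp (-(Real.pi * σ ^ 2 * ‖θ - ξ‖ ^ 2))) =
      ENNReal.ofReal (σ ^ 2) * ENNReal.ofReal (Real.exp (-(Real.pi * σ ^ 2 * ‖θ - ξ‖ ^ 2))) :=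
    fun ξ => ENNReal.ofReal_mul (by positivity)
  simp only [e]
  rw [lintegral_const_mul' _ _ ENNReal.ofReal_ne_top, lint_gauss (by positivity),
    ← ENNReal.ofReal_mul (by positivity)]
  have : σ ^ 2 * (Real.pi / (Real.pi * σ ^ 2)) = 1 := by
    have := Real.pi_pos
    field_simp
  rw [this, ENNReal.ofReal_one]

theorem lint_kh {σ : ℝ} (hσ : 0 < σ) (θ : ℂ) : ∫⁻ ξ, kh σ θ ξ = ENNReal.ofReal 2 := by
  unfold kh
  have e : ∀ ξ : ℂ, ENNReal.ofReal (σ ^ 2 * Real.exp (-(Real.pi * σ ^ 2 / 2 * ‖θ - ξ‖ ^ 2))) =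
      ENNReal.ofReal (σ ^ 2) * ENNReal.ofReal (Real.exp (-(Real.pi * σ ^ 2 / 2 * ‖θ - ξ‖ ^ 2))) :=
    fun ξ => ENNReal.ofReal_mul (by positivity)
  simp only [e]
  rw [lintegral_const_mul' _ _ ENNReal.ofReal_ne_top, lint_gauss (by positivity),
    ← ENNReal.ofReal_mul (by positivity)]
  congr 1
  have := Real.pi_pos
  field_simp

theorem kk_le_kh {σ R : ℝ} (hR : 0 ≤ R) {θ ξ : ℂ} (h : R ≤ ‖θ - ξ‖) :
    kk σ θ ξ ≤ ENNReal.ofReal (Real.exp (-(Real.pi * σ ^ 2 / 2 * R ^ 2))) * kh σ θ ξ := by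
  unfold kk kh
  rw [← ENNReal.ofReal_mul (Real.exp_pos _).le]
  apply ENNReal.ofReal_le_ofReal
  have e : Real.exp (-(Real.pi * σ ^ 2 / 2 * R ^ 2)) *
      (σ ^ 2 * Real.exp (-(Real.pi * σ ^ 2 / 2 * ‖θ - ξ‖ ^ 2))) =
      σ ^ 2 * Real.exp (-(Real.pi * σ ^ 2 / 2 * R ^ 2) + -(Real.pi * σ ^ 2 / 2 * ‖θ - ξ‖ ^ 2)) := by
    rw [Real.exp_add]; ring
  rw [e]
  apply mul_le_mul_of_nonneg_left _ (sq_nonneg σ)
  apply Real.exp_le_exp.2
  have h1 : R ^ 2 ≤ ‖θ - ξ‖ ^ 2 := pow_le_pow_left₀ hR h 2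
  have h2 : 0 ≤ Real.pi * σ ^ 2 / 2 := by have := Real.pi_pos; positivity
  nlinarith

@[fun_prop]
theorem meas_kk (σ : ℝ) {α : Type*} [MeasurableSpace α] {f g : α → ℂ} (hf : Measurable f)
    (hg : Measurable g) : Measurable (fun a => kk σ (f a) (g a)) := by
  unfold kk
  fun_prop

@[fun_prop]
theorem meas_kh (σ : ℝ) {α : Type*} [MeasurableSpace α] {f g : α → ℂ} (hf : Measurable f)
    (hg : Measurable g) : Measurable (fun a => kh σ (f a) (g a)) := by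
  unfold kh
  fun_prop

@[fun_prop]
theorem meas_ww (D : ℝ) {α : Type*} [MeasurableSpace α] {f g : α → ℂ} (hf : Measurable f)
    (hg : Measurable g) : Measurable (fun a => ww D (f a) (g a)) := by
  unfold ww
  refine Measurable.ite ?_ measurable_const measurable_const
  exact measurableSet_le (by fun_prop) measurable_const

theorem lint_ww {D : ℝ} (hD : 0 ≤ D) (ξ : ℂ) :
    ∫⁻ q, ww D q ξ = ENNReal.ofReal (Real.pi * D ^ 2) := by
  have e : (fun q => ww D q ξ) = (Metric.closedBall ξ D).indicator (fun _ => 1) := by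
    classical
    funext q
    unfold ww
    rw [Set.indicator_apply]
    simp only [Metric.mem_closedBall, dist_eq_norm]
  rw [e, lintegral_indicator Metric.isClosed_closedBall.measurableSet]
  simp only [lintegral_const, Measure.restrict_apply MeasurableSet.univ, Set.univ_inter, one_mul]
  rw [Complex.volume_closedBall, ENNReal.ofReal_mul Real.pi_pos.le, ← ENNReal.ofReal_pow hD, mul_comm]
  congr 1
  rw [ENNReal.ofReal]
  congr 1
  apply NNReal.eq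
  rw [Real.coe_toNNReal _ Real.pi_pos.le]
  rfl

theorem ww_of_le {D : ℝ} {q ξ : ℂ} (h : ‖q - ξ‖ ≤ D) : ww D q ξ = 1 := by
  unfold ww; rw [if_pos h]

theorem ww_of_lt {D : ℝ} {q ξ : ℂ} (h : D < ‖q - ξ‖) : ww D q ξ = 0 := by
  unfold ww; rw [if_neg (not_le.2 h)]

theorem kk_ne_top (σ : ℝ) (θ ξ : ℂ) : kk σ θ ξ ≠ ⊤ := ENNReal.ofReal_ne_top

/-- the window of a disc -/
noncomputable def GG (σ D : ℝ) (q θ : ℂ) : ℝ≥0∞ := ∫⁻ ξ, ww D q ξ * kk σ θ ξ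

@[fun_prop]
theorem meas_GG (σ D : ℝ) {α : Type*} [MeasurableSpace α] {f g : α → ℂ} (hf : Measurable f)
    (hg : Measurable g) : Measurable (fun a => GG σ D (f a) (g a)) := by
  unfold GG
  exact Measurable.lintegral_prod_right' (f := fun w : α × ℂ => ww D (f w.1) w.2 * kk σ (g w.1) w.2)
    (by fun_prop)

attribute [local irreducible] kk kh ww

theorem GG_ge {σ ℓ μ ε : ℝ} (hσ : 0 < σ) (hℓ : 0 < ℓ) (hμ : 0 < μ) (hε : 0 < ε)
    (hbig : 2 * Real.exp (-(Real.pi * σ ^ 2 / 2 * (μ * ℓ) ^ 2)) ≤ ε / (1 + ε)) {q θ : ℂ}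
    (h : ‖q - θ‖ ≤ ℓ) : 1 ≤ ENNReal.ofReal (1 + ε) * GG σ ((1 + μ) * ℓ) q θ := by
  set t := Real.exp (-(Real.pi * σ ^ 2 / 2 * (μ * ℓ) ^ 2)) with ht
  have ht0 : 0 < t := Real.exp_pos _
  have h1 : ∀ ξ, kk σ θ ξ ≤ ww ((1 + μ) * ℓ) q ξ * kk σ θ ξ + ENNReal.ofReal t * kh σ θ ξ := by
    intro ξ
    by_cases hξ : ‖q - ξ‖ ≤ (1 + μ) * ℓ
    · rw [ww_of_le hξ, one_mul]
      exact le_self_add
    · rw [not_le] at hξ
      rw [ww_of_lt hξ, zero_mul, zero_add]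
      apply kk_le_kh (by positivity)
      have h2 : ‖q - ξ‖ ≤ ‖θ - ξ‖ + ‖q - θ‖ := by
        have : q - ξ = (θ - ξ) + (q - θ) := by ring
        rw [this]
        exact norm_add_le _ _
      nlinarith
  have h2 : (1 : ℝ≥0∞) ≤ GG σ ((1 + μ) * ℓ) q θ + ENNReal.ofReal (2 * t) := by
    calc (1 : ℝ≥0∞) = ∫⁻ ξ, kk σ θ ξ := (lint_kk hσ θ).symm
      _ ≤ ∫⁻ ξ, (ww ((1 + μ) * ℓ) q ξ * kk σ θ ξ + ENNReal.ofReal t * kh σ θ ξ) := lintegral_mono h1
      _ = GG σ ((1 + μ) * ℓ) q θ + ENNReal.ofReal t * ∫⁻ ξ, kh σ θ ξ := by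
          rw [lintegral_add_left, lintegral_const_mul' _ _ ENNReal.ofReal_ne_top]
          · rfl
          · fun_prop
      _ = _ := by
          rw [lint_kh hσ, ← ENNReal.ofReal_mul ht0.le, mul_comm t]
  have h3 : ENNReal.ofReal (1 + ε) ≤
      ENNReal.ofReal (1 + ε) * GG σ ((1 + μ) * ℓ) q θ + ENNReal.ofReal ε := by
    calc ENNReal.ofReal (1 + ε) = ENNReal.ofReal (1 + ε) * 1 := (mul_one _).symm
      _ ≤ ENNReal.ofReal (1 + ε) * (GG σ ((1 + μ) * ℓ) q θ + ENNReal.ofReal (2 * t)) :=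
          mul_le_mul' le_rfl h2
      _ = ENNReal.ofReal (1 + ε) * GG σ ((1 + μ) * ℓ) q θ + ENNReal.ofReal ((1 + ε) * (2 * t)) := by
          rw [mul_add, ENNReal.ofReal_mul (by positivity : 0 ≤ 1 + ε)]
      _ ≤ _ := by
          apply add_le_add_right
          apply ENNReal.ofReal_le_ofReal
          rw [le_div_iff₀ (by positivity)] at hbig
          linarith
  rw [ENNReal.ofReal_add zero_le_one hε.le, ENNReal.ofReal_one] at h3
  have h4 := ENNReal.le_of_add_le_add_right ENNReal.ofReal_ne_top h3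
  rwa [ENNReal.ofReal_add zero_le_one hε.le, ENNReal.ofReal_one]

theorem lint_GG {σ D : ℝ} (hσ : 0 < σ) (hD : 0 ≤ D) (θ : ℂ) :
    ∫⁻ q, GG σ D q θ = ENNReal.ofReal (Real.pi * D ^ 2) := by
  unfold GG
  rw [lintegral_lintegral_swap]
  · have e : ∀ ξ : ℂ, ∫⁻ q, ww D q ξ * kk σ θ ξ = ENNReal.ofReal (Real.pi * D ^ 2) * kk σ θ ξ := by
      intro ξ
      rw [lintegral_mul_const' _ _ (kk_ne_top _ _ _), lint_ww hD]
    simp only [e]
    rw [lintegral_const_mul' _ _ ENNReal.ofReal_ne_top, lint_kk hσ, mul_one]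
  · exact Measurable.aemeasurable (by fun_prop)

/-! ### bounds of the bilinear forms -/

theorem cc_sq_int {g : ℂ → ℂ} (hg : CC g) : Integrable (fun ζ => ‖g ζ‖ ^ 2) := by
  have hc : Continuous fun ζ => ‖g ζ‖ ^ 2 := (hg.1.norm).pow 2
  refine hc.integrable_of_hasCompactSupport ?_
  exact (hg.2.norm).comp_left (g := fun t : ℝ => t ^ 2) (by norm_num)

theorem norm_bil_le {a g : ℂ → ℂ} (ha : ∀ δ, ‖a δ‖ ≤ 1) (hg : CC g) (θ : ℂ) :
    ‖bil a g g θ‖ ≤ ∫ ζ, ‖g ζ‖ ^ 2 := by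
  have h0 := cc_sq_int hg
  have h1 : Integrable (fun δ => ‖g (θ / 2 + δ)‖ ^ 2) := h0.comp_add_left (θ / 2)
  have h2 : Integrable (fun δ => ‖g (θ / 2 - δ)‖ ^ 2) := h0.comp_sub_left (θ / 2)
  have hb : Integrable (fun δ => (‖g (θ / 2 + δ)‖ ^ 2 + ‖g (θ / 2 - δ)‖ ^ 2) / 2) :=
    (h1.add h2).div_const 2
  unfold bil
  refine (norm_integral_le_of_norm_le hb (Eventually.of_forall fun δ => ?_)).trans ?_
  · rw [norm_mul, norm_mul]
    have h3 := ha δ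
    have h4 := norm_nonneg (g (θ / 2 + δ))
    have h5 := norm_nonneg (g (θ / 2 - δ))
    calc ‖a δ‖ * (‖g (θ / 2 + δ)‖ * ‖g (θ / 2 - δ)‖)
        ≤ 1 * (‖g (θ / 2 + δ)‖ * ‖g (θ / 2 - δ)‖) :=
          mul_le_mul_of_nonneg_right h3 (mul_nonneg h4 h5)
      _ ≤ _ := by nlinarith [sq_nonneg (‖g (θ / 2 + δ)‖ - ‖g (θ / 2 - δ)‖)]
  · rw [integral_div, integral_add h1 h2]
    rw [integral_add_left_eq_self (fun ζ => ‖g ζ‖ ^ 2) (θ / 2),
      integral_sub_left_eq_self (fun ζ => ‖g ζ‖ ^ 2) volume (θ / 2)]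
    linarith

theorem norm_cs_le (n : ℕ) (r : ℝ) (q δ : ℂ) : ‖cs n r q δ‖ ≤ 1 := by
  unfold cs
  rw [Complex.norm_exp]
  have e : (((-(2 * Real.pi * r ^ 2 * ‖δ‖ ^ 2) : ℝ) : ℂ)
      + Complex.I * (8 * n / ‖q‖ ^ 2 * (δ ^ 2 * (‖q‖ / q) ^ 2).im : ℝ)).re =
      -(2 * Real.pi * r ^ 2 * ‖δ‖ ^ 2) := by
    rw [Complex.add_re, Complex.ofReal_re, Complex.mul_re, Complex.I_re, Complex.I_im,
      Complex.ofReal_im]
    ring
  rw [e]
  apply Real.exp_le_one_iff.2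
  have := Real.pi_pos
  have : 0 ≤ 2 * Real.pi * r ^ 2 * ‖δ‖ ^ 2 := by positivity
  linarith

@[fun_prop]
theorem meas_cs (n : ℕ) (r : ℝ) {α : Type*} [MeasurableSpace α] {f g : α → ℂ} (hf : Measurable f)
    (hg : Measurable g) : Measurable (fun a => cs n r (f a) (g a)) := by
  unfold cs
  fun_prop

theorem cs_eq (n : ℕ) (r : ℝ) (q : ℂ) : cs n r q = fun δ =>
    Complex.exp ((-(2 * Real.pi * r ^ 2 * ‖δ‖ ^ 2) : ℝ)
      + Complex.I * (8 * n / ‖q‖ ^ 2 * (δ ^ 2 * (‖q‖ / q) ^ 2).im : ℝ)) := rfl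

attribute [local irreducible] cs

/-- joint measurability of the chirped form -/
theorem meas_bil_cs (n : ℕ) (r : ℝ) {g : ℂ → ℂ} (hg : CC g) {α : Type*} [MeasurableSpace α]
    {f h : α → ℂ} (hf : Measurable f) (hh : Measurable h) :
    Measurable (fun a => bil (cs n r (h a)) g g (f a)) := by
  unfold bil
  have hgm : Measurable g := hg.1.measurable
  have h1 : Measurable (fun w : α × ℂ => cs n r (h w.1) w.2 *
      (g (f w.1 / 2 + w.2) * g (f w.1 / 2 - w.2))) := by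
    fun_prop
  exact (h1.stronglyMeasurable.integral_prod_right' (ν := (volume : Measure ℂ))).measurable

theorem meas_As (hB : StmtBase) (σ : ℝ) {g : ℂ → ℂ} (hg : CC g) : Measurable (As σ g g) :=
  (as_cc hB hg hg).1.measurable

theorem norm_As_le (σ : ℝ) {g : ℂ → ℂ} (hg : CC g) (θ : ℂ) : ‖As σ g g θ‖ ≤ ∫ ζ, ‖g ζ‖ ^ 2 := by
  refine norm_bil_le (fun δ => ?_) hg θ
  rw [Complex.norm_real, Real.norm_eq_abs, abs_of_pos (Real.exp_pos _)]
  apply Real.exp_le_one_iff.2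
  have := Real.pi_pos
  have : 0 ≤ 2 * Real.pi * σ ^ 2 * ‖δ‖ ^ 2 := by positivity
  linarith

/-- the chirp inequality, for the lower Lebesgue integral -/
theorem chirp_l (hC : StmtChirp) (hB : StmtBase) {σ r : ℝ} (hσ : 0 < σ) (hr : σ < r) (n : ℕ) {q : ℂ}
    (hq : q ≠ 0) {g : ℂ → ℂ} (hg : CC g) (ξ : ℂ) :
    ∫⁻ θ, kk σ θ ξ * ENNReal.ofReal (‖bil (cs n r q) g g θ‖ ^ 2) ≤
      ENNReal.ofReal (1 + (8 * n / ‖q‖ ^ 2) ^ 2 / (2 * Real.pi * (r ^ 2 - σ ^ 2)) ^ 2) *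
        ∫⁻ θ, kk σ θ ξ * ENNReal.ofReal (‖As σ g g θ‖ ^ 2) := by
  set B0 := ∫ ζ, ‖g ζ‖ ^ 2 with hB0
  have hB0n : 0 ≤ B0 := integral_nonneg fun _ => by positivity
  have hint : Integrable (fun θ : ℂ => Real.exp (-(Real.pi * σ ^ 2 * ‖θ - ξ‖ ^ 2))) :=
    (int_gauss (b := Real.pi * σ ^ 2) (by have := Real.pi_pos; positivity)).1.comp_sub_right ξ
  have key : ∀ F : ℂ → ℂ, Measurable F → (∀ θ, ‖F θ‖ ≤ B0) →
      Integrable (fun θ => Real.exp (-(Real.pi * σ ^ 2 * ‖θ - ξ‖ ^ 2)) * ‖F θ‖ ^ 2) ∧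
      ∫⁻ θ, kk σ θ ξ * ENNReal.ofReal (‖F θ‖ ^ 2) = ENNReal.ofReal (σ ^ 2) *
        ENNReal.ofReal (∫ θ, Real.exp (-(Real.pi * σ ^ 2 * ‖θ - ξ‖ ^ 2)) * ‖F θ‖ ^ 2) := by
    intro F hF hFb
    have h1 : Integrable (fun θ => Real.exp (-(Real.pi * σ ^ 2 * ‖θ - ξ‖ ^ 2)) * ‖F θ‖ ^ 2) := by
      refine (hint.mul_const (B0 ^ 2)).mono' (by fun_prop) (Eventually.of_forall fun θ => ?_)
      rw [Real.norm_eq_abs, abs_of_nonneg (by positivity)]
      apply mul_le_mul_of_nonneg_left _ (Real.exp_pos _).le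
      exact pow_le_pow_left₀ (norm_nonneg _) (hFb θ) 2
    refine ⟨h1, ?_⟩
    rw [ofReal_integral_eq_lintegral_ofReal h1 (Eventually.of_forall fun θ => by positivity),
      ← lintegral_const_mul' _ _ ENNReal.ofReal_ne_top]
    refine lintegral_congr fun θ => ?_
    unfold kk
    rw [← ENNReal.ofReal_mul (by positivity), ← ENNReal.ofReal_mul (by positivity)]
    ring_nf
  have hm1 : Measurable (fun θ : ℂ => bil (cs n r q) g g θ) :=
    meas_bil_cs n r hg measurable_id measurable_const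
  rw [(key _ hm1 (fun θ => norm_bil_le (norm_cs_le n r q) hg θ)).2,
    (key _ (meas_As hB σ hg) (fun θ => norm_As_le σ hg θ)).2]
  have hu : ‖((‖q‖ : ℂ) / q)‖ = 1 := by
    rw [norm_div, Complex.norm_real, norm_norm, div_self (norm_ne_zero_iff.2 hq)]
  have h := hC σ r (8 * n / ‖q‖ ^ 2) ((‖q‖ : ℂ) / q) ξ g hσ hr hu hg
  rw [← cs_eq] at h
  rw [mul_left_comm (ENNReal.ofReal (1 + _))]
  refine mul_le_mul' le_rfl ?_
  rw [← ENNReal.ofReal_mul (by positivity)]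
  exact ENNReal.ofReal_le_ofReal h

/-! ### averaging over discs -/

theorem swapG (σ D : ℝ) (q : ℂ) {b : ℂ → ℝ≥0∞} (hb : Measurable b) :
    ∫⁻ θ, GG σ D q θ * b θ = ∫⁻ ξ, ww D q ξ * ∫⁻ θ, kk σ θ ξ * b θ := by
  have e1 : ∀ θ, GG σ D q θ * b θ = ∫⁻ ξ, ww D q ξ * kk σ θ ξ * b θ := by
    intro θ
    unfold GG
    rw [lintegral_mul_const _ (by fun_prop)]
  simp only [e1]
  rw [lintegral_lintegral_swap (Measurable.aemeasurable (by fun_prop))]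
  refine lintegral_congr fun ξ => ?_
  rw [← lintegral_const_mul _ (by fun_prop)]
  refine lintegral_congr fun θ => ?_
  rw [mul_assoc]

/-- the inequality for one centre `q` -/
theorem inner_le (hC : StmtChirp) (hB : StmtBase) {σ r ℓ μ ε : ℝ} (hσ : 0 < σ) (hr : σ < r) (hℓ : 0 < ℓ)
    (hμ : 0 < μ) (hε : 0 < ε)
    (hbig : 2 * Real.exp (-(Real.pi * σ ^ 2 / 2 * (μ * ℓ) ^ 2)) ≤ ε / (1 + ε)) (n : ℕ) {q : ℂ}
    (hq : q ≠ 0) {g : ℂ → ℂ} (hg : CC g) :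
    ∫⁻ θ, ww ℓ q θ * ENNReal.ofReal (‖bil (cs n r q) g g θ‖ ^ 2) ≤
      ENNReal.ofReal ((1 + ε) *
        (1 + (8 * n / ‖q‖ ^ 2) ^ 2 / (2 * Real.pi * (r ^ 2 - σ ^ 2)) ^ 2)) *
        ∫⁻ θ, GG σ ((1 + μ) * ℓ) q θ * ENNReal.ofReal (‖As σ g g θ‖ ^ 2) := by
  have hm1 : Measurable (fun θ : ℂ => bil (cs n r q) g g θ) :=
    meas_bil_cs n r hg measurable_id measurable_const
  have hm2 : Measurable (As σ g g) := meas_As hB σ hg
  have hb1 : Measurable (fun θ : ℂ => ENNReal.ofReal (‖bil (cs n r q) g g θ‖ ^ 2)) := by fun_prop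
  have hb2 : Measurable (fun θ : ℂ => ENNReal.ofReal (‖As σ g g θ‖ ^ 2)) := by fun_prop
  have h1 : ∀ θ, ww ℓ q θ ≤ ENNReal.ofReal (1 + ε) * GG σ ((1 + μ) * ℓ) q θ := by
    intro θ
    by_cases h : ‖q - θ‖ ≤ ℓ
    · rw [ww_of_le h]
      exact GG_ge hσ hℓ hμ hε hbig h
    · rw [ww_of_lt (not_le.1 h)]
      exact zero_le
  calc ∫⁻ θ, ww ℓ q θ * ENNReal.ofReal (‖bil (cs n r q) g g θ‖ ^ 2)
      ≤ ∫⁻ θ, ENNReal.ofReal (1 + ε) *
          (GG σ ((1 + μ) * ℓ) q θ * ENNReal.ofReal (‖bil (cs n r q) g g θ‖ ^ 2)) := by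
        refine lintegral_mono fun θ => ?_
        rw [← mul_assoc]
        exact mul_le_mul' (h1 θ) le_rfl
    _ = ENNReal.ofReal (1 + ε) *
          ∫⁻ ξ, ww ((1 + μ) * ℓ) q ξ * ∫⁻ θ, kk σ θ ξ * ENNReal.ofReal (‖bil (cs n r q) g g θ‖ ^ 2) := by
        rw [lintegral_const_mul' _ _ ENNReal.ofReal_ne_top, swapG _ _ _ hb1]
    _ ≤ ENNReal.ofReal (1 + ε) *
          ∫⁻ ξ, ENNReal.ofReal (1 + (8 * n / ‖q‖ ^ 2) ^ 2 / (2 * Real.pi * (r ^ 2 - σ ^ 2)) ^ 2) *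
            (ww ((1 + μ) * ℓ) q ξ * ∫⁻ θ, kk σ θ ξ * ENNReal.ofReal (‖As σ g g θ‖ ^ 2)) := by
        refine mul_le_mul' le_rfl (lintegral_mono fun ξ => ?_)
        rw [mul_left_comm]
        exact mul_le_mul' le_rfl (chirp_l hC hB hσ hr n hq hg ξ)
    _ = _ := by
        rw [lintegral_const_mul' _ _ ENNReal.ofReal_ne_top, ← swapG _ _ _ hb2, ← mul_assoc,
          ← ENNReal.ofReal_mul (by positivity)]

theorem H_le {σ D : ℝ} (hσ : 0 < σ) (hD : 0 ≤ D) {c : ℂ → ℝ} (hc1 : ∀ q, c q ≤ 1) (θ : ℂ) :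
    ∫⁻ q, ENNReal.ofReal (c q) * GG σ D q θ ≤ ENNReal.ofReal (Real.pi * D ^ 2) := by
  rw [← lint_GG hσ hD θ]
  refine lintegral_mono fun q => ?_
  calc ENNReal.ofReal (c q) * GG σ D q θ ≤ 1 * GG σ D q θ := by
        refine mul_le_mul' ?_ le_rfl
        rw [← ENNReal.ofReal_one]
        exact ENNReal.ofReal_le_ofReal (hc1 q)
    _ = _ := one_mul _

theorem H_le' {σ D R : ℝ} (hσ : 0 < σ) (hD : 0 ≤ D) (hR : 0 ≤ R) {c : ℂ → ℝ} (hc1 : ∀ q, c q ≤ 1) (θ : ℂ)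
    (hfar : ∀ q, c q ≠ 0 → ∀ ξ, ‖q - ξ‖ ≤ D → R ≤ ‖θ - ξ‖) :
    ∫⁻ q, ENNReal.ofReal (c q) * GG σ D q θ ≤
      ENNReal.ofReal (Real.pi * D ^ 2 * (2 * Real.exp (-(Real.pi * σ ^ 2 / 2 * R ^ 2)))) := by
  set t := Real.exp (-(Real.pi * σ ^ 2 / 2 * R ^ 2)) with ht
  have ht0 : 0 < t := Real.exp_pos _
  have h1 : ∀ q, ENNReal.ofReal (c q) * GG σ D q θ ≤
      ENNReal.ofReal t * ∫⁻ ξ, ww D q ξ * kh σ θ ξ := by
    intro q
    by_cases hq : c q = 0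
    · rw [hq, ENNReal.ofReal_zero, zero_mul]
      exact zero_le
    · calc ENNReal.ofReal (c q) * GG σ D q θ ≤ 1 * GG σ D q θ := by
            refine mul_le_mul' ?_ le_rfl
            rw [← ENNReal.ofReal_one]
            exact ENNReal.ofReal_le_ofReal (hc1 q)
        _ = ∫⁻ ξ, ww D q ξ * kk σ θ ξ := one_mul _
        _ ≤ ∫⁻ ξ, ENNReal.ofReal t * (ww D q ξ * kh σ θ ξ) := by
            refine lintegral_mono fun ξ => ?_
            by_cases hξ : ‖q - ξ‖ ≤ D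
            · show ww D q ξ * kk σ θ ξ ≤ ENNReal.ofReal t * (ww D q ξ * kh σ θ ξ)
              rw [mul_left_comm]
              exact mul_le_mul' le_rfl (kk_le_kh hR (hfar q hq ξ hξ))
            · show ww D q ξ * kk σ θ ξ ≤ ENNReal.ofReal t * (ww D q ξ * kh σ θ ξ)
              rw [ww_of_lt (not_le.1 hξ), zero_mul]
              exact zero_le
        _ = _ := lintegral_const_mul' _ _ ENNReal.ofReal_ne_top
  calc ∫⁻ q, ENNReal.ofReal (c q) * GG σ D q θ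
      ≤ ∫⁻ q, ENNReal.ofReal t * ∫⁻ ξ, ww D q ξ * kh σ θ ξ := lintegral_mono h1
    _ = ENNReal.ofReal t * ∫⁻ ξ, ∫⁻ q, ww D q ξ * kh σ θ ξ := by
        rw [lintegral_const_mul' _ _ ENNReal.ofReal_ne_top, lintegral_lintegral_swap]
        exact Measurable.aemeasurable (by fun_prop)
    _ = ENNReal.ofReal t * ∫⁻ ξ, ENNReal.ofReal (Real.pi * D ^ 2) * kh σ θ ξ := by
        congr 1
        refine lintegral_congr fun ξ => ?_
        rw [lintegral_mul_const _ (by fun_prop), lint_ww hD]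
    _ = ENNReal.ofReal t * (ENNReal.ofReal (Real.pi * D ^ 2) * ENNReal.ofReal 2) := by
        rw [lintegral_const_mul' _ _ ENNReal.ofReal_ne_top, lint_kh hσ]
    _ = _ := by
        have hpi := Real.pi_pos
        rw [← ENNReal.ofReal_mul (by positivity), ← ENNReal.ofReal_mul (by positivity)]
        congr 1
        ring

/-- the main estimate, for the lower Lebesgue integral -/
theorem main_l (hC : StmtChirp) (hB : StmtBase) {σ r ℓ μ ε R A : ℝ} (hσ : 0 < σ) (hr : σ < r) (hℓ : 0 < ℓ)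
    (hμ : 0 < μ) (hε : 0 < ε) (hR : 0 ≤ R) (hA : 0 ≤ A)
    (hbig : 2 * Real.exp (-(Real.pi * σ ^ 2 / 2 * (μ * ℓ) ^ 2)) ≤ ε / (1 + ε)) (n : ℕ)
    {g : ℂ → ℂ} (hg : CC g) {c W : ℂ → ℝ} (hcm : Measurable c) (hWm : Measurable W)
    (hc0 : ∀ q, 0 ≤ c q) (hc1 : ∀ q, c q ≤ 1) (hcz : c 0 = 0) {J : Set ℂ} (hJ : MeasurableSet J)
    (hfar : ∀ θ ∉ J, ∀ q, c q ≠ 0 → ∀ ξ, ‖q - ξ‖ ≤ (1 + μ) * ℓ → R ≤ ‖θ - ξ‖)
    (hnum : ∀ q, c q ≠ 0 → 0 ≤ W q ∧
      W q * ((1 + ε) * (1 + (8 * n / ‖q‖ ^ 2) ^ 2 / (2 * Real.pi * (r ^ 2 - σ ^ 2)) ^ 2)) ≤ A) :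
    ∫⁻ z in {z : ℂ × ℂ | z.1 ∈ J ∧ ‖z.2 - z.1‖ ≤ ℓ},
        ENNReal.ofReal (c z.2 * W z.2 * ‖bil (cs n r z.2) g g z.1‖ ^ 2) ≤
      ENNReal.ofReal A * (ENNReal.ofReal (Real.pi * ((1 + μ) * ℓ) ^ 2) *
          (∫⁻ θ in J, ENNReal.ofReal (‖As σ g g θ‖ ^ 2)) +
        ENNReal.ofReal (Real.pi * ((1 + μ) * ℓ) ^ 2 * (2 * Real.exp (-(Real.pi * σ ^ 2 / 2 * R ^ 2)))) *
          ∫⁻ θ, ENNReal.ofReal (‖As σ g g θ‖ ^ 2)) := by
  have hD : 0 ≤ (1 + μ) * ℓ := by positivity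
  have hm2 : Measurable (As σ g g) := meas_As hB σ hg
  have hb2 : Measurable (fun θ : ℂ => ENNReal.ofReal (‖As σ g g θ‖ ^ 2)) := by fun_prop
  have hbm : Measurable (fun z : ℂ × ℂ => bil (cs n r z.2) g g z.1) :=
    meas_bil_cs n r hg measurable_fst measurable_snd
  have hS : MeasurableSet {z : ℂ × ℂ | z.1 ∈ J ∧ ‖z.2 - z.1‖ ≤ ℓ} :=
    (measurable_fst hJ).inter (measurableSet_le (f := fun z : ℂ × ℂ => ‖z.2 - z.1‖) (g := fun _ => ℓ)
      (by fun_prop) measurable_const)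
  have hFm : Measurable (fun z : ℂ × ℂ =>
      ENNReal.ofReal (c z.2 * W z.2 * ‖bil (cs n r z.2) g g z.1‖ ^ 2)) := by fun_prop
  rw [← lintegral_indicator hS, Measure.volume_eq_prod, lintegral_prod_symm _
    (hFm.indicator hS).aemeasurable]
  -- the inner integral
  have hin : ∀ q : ℂ, ∫⁻ θ, ({z : ℂ × ℂ | z.1 ∈ J ∧ ‖z.2 - z.1‖ ≤ ℓ}).indicator (fun z : ℂ × ℂ =>
      ENNReal.ofReal (c z.2 * W z.2 * ‖bil (cs n r z.2) g g z.1‖ ^ 2)) (θ, q) ≤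
      ENNReal.ofReal A * ∫⁻ θ, ENNReal.ofReal (c q) * GG σ ((1 + μ) * ℓ) q θ *
        ENNReal.ofReal (‖As σ g g θ‖ ^ 2) := by
    intro q
    by_cases hq : c q = 0
    · have e : ∀ θ : ℂ, ({z : ℂ × ℂ | z.1 ∈ J ∧ ‖z.2 - z.1‖ ≤ ℓ}).indicator (fun z : ℂ × ℂ =>
          ENNReal.ofReal (c z.2 * W z.2 * ‖bil (cs n r z.2) g g z.1‖ ^ 2)) (θ, q) = 0 := by
        intro θ
        apply Set.indicator_apply_eq_zero.2
        intro _
        rw [hq]; simp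
      simp only [e, lintegral_zero]
      exact zero_le
    · have hq0 : q ≠ 0 := fun h => hq (h ▸ hcz)
      obtain ⟨hW0, hWA⟩ := hnum q hq
      have h1 : ∀ θ : ℂ, ({z : ℂ × ℂ | z.1 ∈ J ∧ ‖z.2 - z.1‖ ≤ ℓ}).indicator (fun z : ℂ × ℂ =>
          ENNReal.ofReal (c z.2 * W z.2 * ‖bil (cs n r z.2) g g z.1‖ ^ 2)) (θ, q) ≤
          ENNReal.ofReal (c q * W q) * (ww ℓ q θ * ENNReal.ofReal (‖bil (cs n r q) g g θ‖ ^ 2)) := by
        intro θ
        by_cases hz : ((θ, q) : ℂ × ℂ) ∈ {z : ℂ × ℂ | z.1 ∈ J ∧ ‖z.2 - z.1‖ ≤ ℓ}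
        · have hz2 : ‖q - θ‖ ≤ ℓ := hz.2
          rw [Set.indicator_of_mem hz, ww_of_le hz2, one_mul,
            ← ENNReal.ofReal_mul (mul_nonneg (hc0 q) hW0)]
        · rw [Set.indicator_of_notMem hz]
          exact zero_le
      calc _ ≤ ∫⁻ θ, ENNReal.ofReal (c q * W q) *
            (ww ℓ q θ * ENNReal.ofReal (‖bil (cs n r q) g g θ‖ ^ 2)) := lintegral_mono h1
        _ = ENNReal.ofReal (c q * W q) *
            ∫⁻ θ, ww ℓ q θ * ENNReal.ofReal (‖bil (cs n r q) g g θ‖ ^ 2) :=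
            lintegral_const_mul' _ _ ENNReal.ofReal_ne_top
        _ ≤ ENNReal.ofReal (c q * W q) * (ENNReal.ofReal ((1 + ε) *
            (1 + (8 * n / ‖q‖ ^ 2) ^ 2 / (2 * Real.pi * (r ^ 2 - σ ^ 2)) ^ 2)) *
            ∫⁻ θ, GG σ ((1 + μ) * ℓ) q θ * ENNReal.ofReal (‖As σ g g θ‖ ^ 2)) :=
            mul_le_mul' le_rfl (inner_le hC hB hσ hr hℓ hμ hε hbig n hq0 hg)
        _ ≤ ENNReal.ofReal (A * c q) *
            ∫⁻ θ, GG σ ((1 + μ) * ℓ) q θ * ENNReal.ofReal (‖As σ g g θ‖ ^ 2) := by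
            rw [← mul_assoc, ← ENNReal.ofReal_mul (mul_nonneg (hc0 q) hW0)]
            refine mul_le_mul' (ENNReal.ofReal_le_ofReal ?_) le_rfl
            calc _ = c q * (W q * ((1 + ε) *
                (1 + (8 * n / ‖q‖ ^ 2) ^ 2 / (2 * Real.pi * (r ^ 2 - σ ^ 2)) ^ 2))) := by ring
              _ ≤ c q * A := mul_le_mul_of_nonneg_left hWA (hc0 q)
              _ = _ := mul_comm _ _
        _ = _ := by
            rw [ENNReal.ofReal_mul hA, mul_assoc, ← lintegral_const_mul' _ _ ENNReal.ofReal_ne_top]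
            simp only [mul_assoc]
  calc _ ≤ ∫⁻ q, ENNReal.ofReal A * ∫⁻ θ, ENNReal.ofReal (c q) * GG σ ((1 + μ) * ℓ) q θ *
        ENNReal.ofReal (‖As σ g g θ‖ ^ 2) := lintegral_mono hin
    _ = ENNReal.ofReal A * ∫⁻ θ, (∫⁻ q, ENNReal.ofReal (c q) * GG σ ((1 + μ) * ℓ) q θ) *
        ENNReal.ofReal (‖As σ g g θ‖ ^ 2) := by
        rw [lintegral_const_mul' _ _ ENNReal.ofReal_ne_top, lintegral_lintegral_swap]
        · congr 1
          refine lintegral_congr fun θ => ?_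
          rw [lintegral_mul_const]
          fun_prop
        · exact Measurable.aemeasurable (by fun_prop)
    _ ≤ _ := by
        refine mul_le_mul' le_rfl ?_
        rw [← lintegral_add_compl _ hJ]
        refine add_le_add ?_ ?_
        · rw [← lintegral_const_mul' _ _ ENNReal.ofReal_ne_top]
          exact lintegral_mono fun θ => mul_le_mul' (H_le hσ hD hc1 θ) le_rfl
        · calc _ ≤ ∫⁻ θ in Jᶜ, ENNReal.ofReal (Real.pi * ((1 + μ) * ℓ) ^ 2 *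
                (2 * Real.exp (-(Real.pi * σ ^ 2 / 2 * R ^ 2)))) * ENNReal.ofReal (‖As σ g g θ‖ ^ 2) := by
                refine setLIntegral_mono (by fun_prop) fun θ hθ => ?_
                exact mul_le_mul' (H_le' hσ hD hR hc1 θ (hfar θ hθ)) le_rfl
            _ = _ := lintegral_const_mul' _ _ ENNReal.ofReal_ne_top
            _ ≤ _ := mul_le_mul' le_rfl (setLIntegral_le_lintegral _ _)

/-! ### the total energy of the Gaussian averages -/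

theorem meas_bil {g : ℂ → ℂ} (hg : CC g) {α : Type*} [MeasurableSpace α] {a : α → ℂ → ℂ}
    (ha : Measurable (fun w : α × ℂ => a w.1 w.2)) {f : α → ℂ} (hf : Measurable f) :
    Measurable (fun x => bil (a x) g g (f x)) := by
  unfold bil
  have hgm : Measurable g := hg.1.measurable
  have h1 : Measurable (fun w : α × ℂ => a w.1 w.2 * (g (f w.1 / 2 + w.2) * g (f w.1 / 2 - w.2))) := by
    fun_prop
  exact (h1.stronglyMeasurable.integral_prod_right' (ν := (volume : Measure ℂ))).measurable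

theorem cc_ch {g : ℂ → ℂ} (hg : CC g) (v : ℂ) : CC (fun ζ => ch v ζ * g ζ) :=
  ⟨(continuous_ch v).mul hg.1, hg.2.mul_left⟩

theorem int_bil_ch_le (hB : StmtBase) {g : ℂ → ℂ} (hg : CC g) (v : ℂ) :
    Integrable (fun θ => ‖bil (ch v) g g θ‖ ^ 2) ∧ ∫ θ, ‖bil (ch v) g g θ‖ ^ 2 ≤ N4 g := by
  obtain ⟨hB1, hB2, hB3, -⟩ := hB
  obtain ⟨h1, -, h3⟩ := hB2 _ _ (cc_ch hg (v / 2)) (cc_ch hg (-(v / 2)))
  have e : (fun θ => ‖bil (ch v) g g θ‖ ^ 2) = fun θ => ‖bil (fun _ => 1)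
      (fun ζ => ch (v / 2) ζ * g ζ) (fun ζ => ch (-(v / 2)) ζ * g ζ) θ‖ ^ 2 := by
    funext θ
    rw [← bil_ch]
  rw [e]
  refine ⟨cc_sq_int h1, ?_⟩
  rw [← h3]
  unfold N22 N4
  simp only [hB3]
  have h4 : Integrable (fun x => ‖iF g x‖ ^ 4) := (hB1 g hg).2.2.2.1
  have h5 : Integrable (fun x => ‖iF g (x + v / 2)‖ ^ 4) := h4.comp_add_right (v / 2)
  have h6 : Integrable (fun x => ‖iF g (x + -(v / 2))‖ ^ 4) := h4.comp_add_right (-(v / 2))
  have hb : Integrable (fun x => (‖iF g (x + v / 2)‖ ^ 4 + ‖iF g (x + -(v / 2))‖ ^ 4) / 2) :=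
    (h5.add h6).div_const 2
  have hc : Continuous (iF g) := (hB1 g hg).1
  have hle : ∀ x, ‖iF g (x + v / 2)‖ ^ 2 * ‖iF g (x + -(v / 2))‖ ^ 2 ≤
      (‖iF g (x + v / 2)‖ ^ 4 + ‖iF g (x + -(v / 2))‖ ^ 4) / 2 := by
    intro x
    nlinarith [sq_nonneg (‖iF g (x + v / 2)‖ ^ 2 - ‖iF g (x + -(v / 2))‖ ^ 2)]
  have hi : Integrable (fun x => ‖iF g (x + v / 2)‖ ^ 2 * ‖iF g (x + -(v / 2))‖ ^ 2) := by
    refine hb.mono' (Continuous.aestronglyMeasurable (by fun_prop)) (Eventually.of_forall fun x => ?_)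
    rw [Real.norm_eq_abs, abs_of_nonneg (by positivity)]
    exact hle x
  calc ∫ x, ‖iF g (x + v / 2)‖ ^ 2 * ‖iF g (x + -(v / 2))‖ ^ 2
      ≤ ∫ x, (‖iF g (x + v / 2)‖ ^ 4 + ‖iF g (x + -(v / 2))‖ ^ 4) / 2 := integral_mono hi hb hle
    _ = ∫ x, ‖iF g x‖ ^ 4 := by
        rw [integral_div, integral_add h5 h6,
          integral_add_right_eq_self (fun x => ‖iF g x‖ ^ 4) (v / 2),
          integral_add_right_eq_self (fun x => ‖iF g x‖ ^ 4) (-(v / 2))]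
        ring

theorem tonelli_K {K : ℂ → ℂ} (hK : Integrable K) (hK1 : ∫ v, ‖K v‖ = 1) {F : ℂ → ℂ → ℝ}
    (hF0 : ∀ θ v, 0 ≤ F θ v) (hFm : Measurable (fun z : ℂ × ℂ => F z.1 z.2)) {N : ℝ}
    (hFi : ∀ v, Integrable (fun θ => F θ v) ∧ ∫ θ, F θ v ≤ N) {G : ℂ → ℝ}
    (hG : ∀ θ, Integrable (fun v => ‖K v‖ * F θ v) ∧ G θ ≤ ∫ v, ‖K v‖ * F θ v) :
    ∫⁻ θ, ENNReal.ofReal (G θ) ≤ ENNReal.ofReal N := by
  have hKn : Integrable (fun v => ‖K v‖) := hK.norm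
  have h1 : AEMeasurable (fun z : ℂ × ℂ => ‖K z.2‖) ((volume : Measure ℂ).prod (volume : Measure ℂ)) :=
    hKn.aestronglyMeasurable.aemeasurable.comp_quasiMeasurePreserving
      Measure.quasiMeasurePreserving_snd
  have h2 : AEMeasurable (fun z : ℂ × ℂ => ENNReal.ofReal (‖K z.2‖ * F z.1 z.2))
      ((volume : Measure ℂ).prod (volume : Measure ℂ)) := (h1.mul hFm.aemeasurable).ennreal_ofReal
  calc ∫⁻ θ, ENNReal.ofReal (G θ)
      ≤ ∫⁻ θ, ∫⁻ v, ENNReal.ofReal (‖K v‖ * F θ v) := by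
        refine lintegral_mono fun θ => ?_
        rw [← ofReal_integral_eq_lintegral_ofReal (hG θ).1
          (Eventually.of_forall fun v => mul_nonneg (norm_nonneg _) (hF0 _ _))]
        exact ENNReal.ofReal_le_ofReal (hG θ).2
    _ = ∫⁻ v, ∫⁻ θ, ENNReal.ofReal (‖K v‖ * F θ v) := lintegral_lintegral_swap h2
    _ ≤ ∫⁻ v, ENNReal.ofReal (‖K v‖) * ENNReal.ofReal N := by
        refine lintegral_mono fun v => ?_
        have e : ∀ θ, ENNReal.ofReal (‖K v‖ * F θ v) =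
            ENNReal.ofReal (‖K v‖) * ENNReal.ofReal (F θ v) :=
          fun θ => ENNReal.ofReal_mul (norm_nonneg _)
        simp only [e]
        rw [lintegral_const_mul' _ _ ENNReal.ofReal_ne_top]
        refine mul_le_mul' le_rfl ?_
        obtain ⟨h1, h2⟩ := hFi v
        rw [← ofReal_integral_eq_lintegral_ofReal h1 (Eventually.of_forall fun θ => hF0 _ _)]
        exact ENNReal.ofReal_le_ofReal h2
    _ = ENNReal.ofReal N := by
        rw [lintegral_mul_const' _ _ ENNReal.ofReal_ne_top,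
          ← ofReal_integral_eq_lintegral_ofReal hKn (Eventually.of_forall fun v => norm_nonneg _),
          hK1, ENNReal.ofReal_one, one_mul]

theorem int_as_le (hB : StmtBase) (hCG : StmtCG) {σ : ℝ} (hσ : 0 < σ) {g : ℂ → ℂ} (hg : CC g) :
    Integrable (fun θ => ‖As σ g g θ‖ ^ 2) ∧ ∫ θ, ‖As σ g g θ‖ ^ 2 ≤ N4 g := by
  have hint : Integrable (fun θ => ‖As σ g g θ‖ ^ 2) := cc_sq_int (as_cc hB hg hg)
  refine ⟨hint, ?_⟩
  obtain ⟨K, hK, hK1, hKe⟩ := hCG (2 * Real.pi * σ ^ 2) 0 1 (by have := Real.pi_pos; positivity) (by simp)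
  have hK1' : ∫ v, ‖K v‖ = 1 := by rw [hK1]; simp
  have hKe' : ∀ δ : ℂ, ((Real.exp (-(2 * Real.pi * σ ^ 2 * ‖δ‖ ^ 2)) : ℝ) : ℂ) = ∫ v, K v * ch v δ := by
    intro δ
    rw [← hKe]
    simp
  set B0 := ∫ ζ, ‖g ζ‖ ^ 2 with hB0
  have hbound : ∀ v θ, ‖bil (ch v) g g θ‖ ≤ B0 := fun v θ =>
    norm_bil_le (fun δ => (norm_ch v δ).le) hg θ
  have hchm : Measurable (fun z : ℂ × ℂ => ch z.1 z.2) := continuous_ch2.measurable
  have hbm : Measurable (fun z : ℂ × ℂ => bil (ch z.2) g g z.1) := by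
    refine meas_bil hg (a := fun z : ℂ × ℂ => ch z.2) ?_ measurable_fst
    exact hchm.comp (by fun_prop : Measurable fun w : (ℂ × ℂ) × ℂ => (w.1.2, w.2))
  -- the superposition formula
  have hAs : ∀ θ, As σ g g θ = ∫ v, K v * bil (ch v) g g θ := by
    intro θ
    have h0 : Integrable (fun δ => g (θ / 2 + δ) * g (θ / 2 - δ)) := by
      have h1 := (cc_sq_int hg).comp_add_left (θ / 2)
      have h2 := (cc_sq_int hg).comp_sub_left (θ / 2)
      have hc := hg.1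
      refine ((h1.add h2).div_const 2).mono' (Continuous.aestronglyMeasurable (by fun_prop))
        (Eventually.of_forall fun δ => ?_)
      rw [norm_mul]
      show _ ≤ (‖g (θ / 2 + δ)‖ ^ 2 + ‖g (θ / 2 - δ)‖ ^ 2) / 2
      nlinarith [sq_nonneg (‖g (θ / 2 + δ)‖ - ‖g (θ / 2 - δ)‖)]
    have hprod : Integrable (fun z : ℂ × ℂ => K z.2 * ch z.2 z.1 * (g (θ / 2 + z.1) * g (θ / 2 - z.1)))
        (volume.prod volume) := by
      have h1 : Integrable (fun z : ℂ × ℂ => (g (θ / 2 + z.1) * g (θ / 2 - z.1)) * K z.2)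
          (volume.prod volume) := h0.mul_prod hK
      have h2 : AEStronglyMeasurable (fun z : ℂ × ℂ => ch z.2 z.1) (volume.prod volume) :=
        (hchm.comp (by fun_prop : Measurable fun z : ℂ × ℂ => (z.2, z.1))).aestronglyMeasurable
      have h3 := h1.bdd_mul (c := 1) h2 (Eventually.of_forall fun z => (norm_ch z.2 z.1).le)
      refine h3.congr (Eventually.of_forall fun z => ?_)
      show ch z.2 z.1 * ((g (θ / 2 + z.1) * g (θ / 2 - z.1)) * K z.2) = _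
      ring
    have h4 : As σ g g θ = ∫ δ, ∫ v, K v * ch v δ * (g (θ / 2 + δ) * g (θ / 2 - δ)) := by
      unfold As bil
      refine integral_congr_ae (Eventually.of_forall fun δ => ?_)
      show ((Real.exp (-(2 * Real.pi * σ ^ 2 * ‖δ‖ ^ 2)) : ℝ) : ℂ) * (g (θ / 2 + δ) * g (θ / 2 - δ)) =
        ∫ v, K v * ch v δ * (g (θ / 2 + δ) * g (θ / 2 - δ))
      rw [integral_mul_const, hKe']
    rw [h4, integral_integral_swap hprod]
    refine integral_congr_ae (Eventually.of_forall fun v => ?_)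
    show ∫ δ, K v * ch v δ * (g (θ / 2 + δ) * g (θ / 2 - δ)) = K v * bil (ch v) g g θ
    unfold bil
    rw [← integral_const_mul]
    refine integral_congr_ae (Eventually.of_forall fun δ => ?_)
    show K v * ch v δ * (g (θ / 2 + δ) * g (θ / 2 - δ)) = K v * (ch v δ * (g (θ / 2 + δ) * g (θ / 2 - δ)))
    ring
  -- Cauchy-Schwarz
  have hKn : Integrable (fun v => ‖K v‖) := hK.norm
  have hCS : ∀ θ, Integrable (fun v => ‖K v‖ * ‖bil (ch v) g g θ‖ ^ 2) ∧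
      ‖As σ g g θ‖ ^ 2 ≤ ∫ v, ‖K v‖ * ‖bil (ch v) g g θ‖ ^ 2 := by
    intro θ
    have hm : Measurable (fun v => bil (ch v) g g θ) :=
      hbm.comp (by fun_prop : Measurable fun v : ℂ => (θ, v))
    have hI1 : Integrable (fun v => ‖K v‖ * ‖bil (ch v) g g θ‖) := by
      have := hKn.bdd_mul (c := B0) (f := fun v => ‖bil (ch v) g g θ‖)
        hm.norm.aestronglyMeasurable
        (Eventually.of_forall fun v => by rw [norm_norm]; exact hbound v θ)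
      refine this.congr (Eventually.of_forall fun v => ?_)
      exact mul_comm _ _
    have hI2 : Integrable (fun v => ‖K v‖ * ‖bil (ch v) g g θ‖ ^ 2) := by
      have := hKn.bdd_mul (c := B0 ^ 2) (f := fun v => ‖bil (ch v) g g θ‖ ^ 2)
        (hm.norm.pow_const 2).aestronglyMeasurable
        (Eventually.of_forall fun v => by
          rw [Real.norm_eq_abs, abs_of_nonneg (by positivity)]
          exact pow_le_pow_left₀ (norm_nonneg _) (hbound v θ) 2)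
      refine this.congr (Eventually.of_forall fun v => ?_)
      exact mul_comm _ _
    refine ⟨hI2, ?_⟩
    set b := ∫ v, ‖K v‖ * ‖bil (ch v) g g θ‖ with hb
    have h1 : ‖As σ g g θ‖ ≤ b := by
      rw [hAs θ]
      refine (norm_integral_le_integral_norm _).trans (le_of_eq ?_)
      rw [hb]
      refine integral_congr_ae (Eventually.of_forall fun v => ?_)
      exact norm_mul _ _
    have h2 : 0 ≤ ∫ v, ‖K v‖ * (‖bil (ch v) g g θ‖ - b) ^ 2 :=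
      integral_nonneg fun v => mul_nonneg (norm_nonneg _) (sq_nonneg _)
    have h3 : ∫ v, ‖K v‖ * (‖bil (ch v) g g θ‖ - b) ^ 2 =
        (∫ v, ‖K v‖ * ‖bil (ch v) g g θ‖ ^ 2) - 2 * b * b + b ^ 2 := by
      have e : ∀ v, ‖K v‖ * (‖bil (ch v) g g θ‖ - b) ^ 2 = ‖K v‖ * ‖bil (ch v) g g θ‖ ^ 2 -
          2 * b * (‖K v‖ * ‖bil (ch v) g g θ‖) + b ^ 2 * ‖K v‖ := by intro v; ring
      simp only [e]
      have f1 := integral_add (hI2.sub (hI1.const_mul (2 * b))) (hKn.const_mul (b ^ 2))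
      have f2 := integral_sub hI2 (hI1.const_mul (2 * b))
      simp only [Pi.sub_apply] at f1
      rw [f1, f2, integral_const_mul, integral_const_mul, hK1', ← hb]
      ring
    have hb0 : 0 ≤ b := (norm_nonneg _).trans h1
    have h5 : ‖As σ g g θ‖ ^ 2 ≤ b ^ 2 := pow_le_pow_left₀ (norm_nonneg _) h1 2
    rw [h3] at h2
    nlinarith
  -- Tonelli
  have hfin : ∫⁻ θ, ENNReal.ofReal (‖As σ g g θ‖ ^ 2) ≤ ENNReal.ofReal (N4 g) :=
    tonelli_K hK hK1' (F := fun θ v => ‖bil (ch v) g g θ‖ ^ 2) (fun θ v => by positivity)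
      (hbm.norm.pow_const 2) (fun v => int_bil_ch_le hB hg v) hCS
  rw [← ofReal_integral_eq_lintegral_ofReal hint (Eventually.of_forall fun θ => by positivity)] at hfin
  exact (ENNReal.ofReal_le_ofReal_iff (n4_nonneg g)).1 hfin

end BlkP

end Pool.Agent.Lib.MP_dd244f_an.Four
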