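import Pool.Agent.Lib.MP_dd244f_an.Four.Defs
import Pool.Agent.Lib.MP_dd244f_an.Joint.Stmts

/-!
Full operator, `p = 4`, `n → ∞`: the statements of the modules (nothing is proved here).
-/

set_option autoImplicit false

namespace Pool.Agent.Lib.MP_dd244f_an.Four

open MeasureTheory Filter Topology Finset
open Pool.Agent.Lib.MP_dd244f_an.Joint (st ct Mst ratio)
open scoped SchwartzMap ENNReal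

/-! ### Group A: basic facts -/

/-- (Base) elementary facts about `iF` -/
def StmtBase : Prop :=
  (∀ g, CC g → Continuous (iF g) ∧ (∃ B, ∀ x, ‖iF g x‖ ≤ B) ∧ Integrable (fun x => ‖iF g x‖ ^ 2) ∧
    Integrable (fun x => ‖iF g x‖ ^ 4) ∧ ∫ x, ‖iF g x‖ ^ 2 = ∫ ζ, ‖g ζ‖ ^ 2) ∧
  (∀ g h, CC g → CC h → CC (bil (fun _ => 1) g h) ∧
    (∀ x, iF g x * iF h x = iF (bil (fun _ => 1) g h) x) ∧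
    N22 g h = ∫ θ, ‖bil (fun _ => 1) g h θ‖ ^ 2) ∧
  (∀ g x y, iF (fun ζ => ch y ζ * g ζ) x = iF g (x + y)) ∧
  (∀ g x, starRingEnd ℂ (iF g x) = iF (fun ζ => starRingEnd ℂ (g (-ζ))) x) ∧
  (∀ g h, CC g → CC h → ∀ x, iF (fun ζ => g ζ + h ζ) x = iF g x + iF h x) ∧
  (∀ g h, CC g → CC h → Integrable (fun x => iF g x * starRingEnd ℂ (iF h x)) ∧
    ∫ x, iF g x * starRingEnd ℂ (iF h x) = ∫ ζ, g ζ * starRingEnd ℂ (h ζ))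

/-- (L2) Plancherel for `L^1 ∩ L^2` -/
def StmtL2 : Prop := ∀ φ : ℂ → ℂ, Integrable φ → MemLp φ 2 volume →
  MemLp (iF φ) 2 volume ∧ ∫ x, ‖iF φ x‖ ^ 2 = ∫ ζ, ‖φ ζ‖ ^ 2

/-- (Fac) `lo`, `sh`, `cut`, `mg` are harmless -/
def StmtFac : Prop :=
  (∀ a ζ, 0 ≤ lo a ζ ∧ lo a ζ ≤ 1) ∧ (∀ a ζ, ‖ζ‖ ≤ (2 : ℝ) ^ a → lo a ζ = 1) ∧
  (∀ a ζ, 2 * ((2 : ℝ) ^ a) ^ 2 ≤ ‖ζ‖ ^ 2 → lo a ζ = 0) ∧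
  (∀ (a : ℤ) (k : ℕ∞), ContDiff ℝ k (lo a)) ∧
  (∀ g (a b : ℤ), CC g → CC (cut (lo a) g) ∧ CC (cut (bd a b) g) ∧ CC (cut (sh a) g)) ∧
  (∀ g n, 1 ≤ n → CC g → Z0 g → CC (mg n g) ∧ Z0 (mg n g)) ∧
  (∀ g n (a b : ℤ), CC g → CC (cut (bd a b) (mg n g)))

/-- (BilPt) the pointwise bilinear estimate -/
def StmtBilPt : Prop := ∀ (N : ℝ) (g h : ℂ → ℂ), 0 < N → CC g → CC h →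
  (∀ (θ : ℂ) (a : ℂ → ℂ), ContDiff ℝ 2 a → HasCompactSupport a →
    ‖bil a g h θ‖ ^ 2 ≤ (∫ δ, ‖a δ - lap a δ / (4 * Real.pi ^ 2 * N ^ 2 : ℝ)‖ ^ 2) * Om N g h θ) ∧
  (∀ θ, 0 ≤ Om N g h θ) ∧ Integrable (Om N g h) ∧
  ∫ θ, Om N g h θ = N ^ 2 * ∫ x, ‖iF g x‖ ^ 2 * ∫ y, KK N (x - y) * ‖iF h y‖ ^ 2 ∧
  ∫ θ, Om N g h θ ≤ Real.pi * N ^ 2 * (Real.sqrt (N4 g) * Real.sqrt (N4 h))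

/-- (Lap) calculus of the Laplacian -/
def StmtLap : Prop :=
  (∀ f g : ℂ → ℂ, ContDiff ℝ 2 f → ContDiff ℝ 2 g → ∀ δ,
    lap (fun z => f z * g z) δ = f δ * lap g δ + g δ * lap f δ
      + 2 * (fderiv ℝ f δ 1 * fderiv ℝ g δ 1 + fderiv ℝ f δ Complex.I * fderiv ℝ g δ Complex.I) ∧
    ‖fderiv ℝ (fun z => f z * g z) δ‖ ≤ ‖f δ‖ * ‖fderiv ℝ g δ‖ + ‖g δ‖ * ‖fderiv ℝ f δ‖ ∧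
    ‖lap (fun z => f z * g z) δ‖ ≤
      ‖f δ‖ * ‖lap g δ‖ + ‖g δ‖ * ‖lap f δ‖ + 4 * ‖fderiv ℝ f δ‖ * ‖fderiv ℝ g δ‖) ∧
  (∀ (f : ℂ → ℂ) (θ δ : ℂ), ContDiff ℝ 2 f →
    lap (fun z => f (θ + z)) δ = lap f (θ + δ) ∧ lap (fun z => f (θ - z)) δ = lap f (θ - δ) ∧
    ‖fderiv ℝ (fun z => f (θ + z)) δ‖ = ‖fderiv ℝ f (θ + δ)‖ ∧
    ‖fderiv ℝ (fun z => f (θ - z)) δ‖ = ‖fderiv ℝ f (θ - δ)‖) ∧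
  (∀ (r : ℝ) (δ : ℂ), 0 < r →
    lap (fun z => ((Real.exp (-(r * ‖z‖ ^ 2)) : ℝ) : ℂ)) δ
      = (((4 * r ^ 2 * ‖δ‖ ^ 2 - 4 * r) * Real.exp (-(r * ‖δ‖ ^ 2)) : ℝ) : ℂ) ∧
    ‖fderiv ℝ (fun z : ℂ => ((Real.exp (-(r * ‖z‖ ^ 2)) : ℝ) : ℂ)) δ‖
      ≤ 2 * r * ‖δ‖ * Real.exp (-(r * ‖δ‖ ^ 2))) ∧
  (∀ (H : ℂ → ℂ) (δ : ℂ), AnalyticAt ℂ H δ →
    lap (fun z => Complex.exp (Complex.I * ((H z).im : ℂ))) δ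
      = -((‖deriv H δ‖ ^ 2 : ℝ) : ℂ) * Complex.exp (Complex.I * ((H δ).im : ℂ)) ∧
    ‖fderiv ℝ (fun z => Complex.exp (Complex.I * ((H z).im : ℂ))) δ‖ ≤ ‖deriv H δ‖)

/-- (MM) the symbol, cut off near `0` -/
def StmtMM : Prop := ∃ C, 0 < C ∧ ∀ (n : ℕ) (a b : ℤ), a < b →
  ContDiff ℝ 2 (fun ζ => (bd a b ζ : ℂ) * mm n ζ) ∧
  HasCompactSupport (fun ζ => (bd a b ζ : ℂ) * mm n ζ) ∧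
  ∀ ζ, ‖fderiv ℝ (fun ζ => (bd a b ζ : ℂ) * mm n ζ) ζ‖ ≤ C * (n + 1) / (2 : ℝ) ^ a ∧
    ‖lap (fun ζ => (bd a b ζ : ℂ) * mm n ζ) ζ‖ ≤ C * (n + 1) ^ 2 / ((2 : ℝ) ^ a) ^ 2

/-- product of the symbol and its conjugate, difference of the frequencies `θ` -/
noncomputable def E1 (n : ℕ) (θ δ : ℂ) : ℂ :=
  mm n (δ + θ / 2) * starRingEnd ℂ (mm n (δ - θ / 2))

/-- product of two values of the symbol, sum of the frequencies `θ` -/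
noncomputable def E2 (n : ℕ) (θ δ : ℂ) : ℂ := mm n (θ / 2 + δ) * mm n (θ / 2 - δ)

/-- (MM2) the products of two symbols: derivatives -/
def StmtMM2 : Prop := ∀ (n : ℕ) (θ δ : ℂ), θ / 2 + δ ≠ 0 → θ / 2 - δ ≠ 0 →
  ContDiffAt ℝ 2 (E1 n θ) δ ∧ ContDiffAt ℝ 2 (E2 n θ) δ ∧ ‖E1 n θ δ‖ = 1 ∧ ‖E2 n θ δ‖ = 1 ∧
  ‖fderiv ℝ (E1 n θ) δ‖ ≤ 2 * n * ‖θ‖ / (‖θ / 2 + δ‖ * ‖θ / 2 - δ‖) ∧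
  ‖lap (E1 n θ) δ‖ ≤ 4 * n ^ 2 * ‖θ‖ ^ 2 / (‖θ / 2 + δ‖ * ‖θ / 2 - δ‖) ^ 2 ∧
  ‖fderiv ℝ (E2 n θ) δ‖ ≤ 4 * n * ‖δ‖ / (‖θ / 2 + δ‖ * ‖θ / 2 - δ‖) ∧
  ‖lap (E2 n θ) δ‖ ≤ 16 * n ^ 2 * ‖δ‖ ^ 2 / (‖θ / 2 + δ‖ * ‖θ / 2 - δ‖) ^ 2 ∧
  (2 * ‖δ‖ < ‖θ‖ →
    E2 n θ δ / mm n (θ / 2) ^ 2
      = Complex.exp (Complex.I * (((-(2 * n) * Complex.log (1 - 4 * δ ^ 2 / θ ^ 2)).im : ℝ) : ℂ))) ∧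
  ‖E1 n θ δ - 1‖ ≤ 2 * n * ‖θ‖ / min ‖θ / 2 + δ‖ ‖θ / 2 - δ‖

/-- (KK) the averaging kernel -/
def StmtKK : Prop :=
  (∀ ρ, 0 < ρ → Integrable (KK ρ) ∧ ∫ x, KK ρ x = Real.pi ∧
    (∀ x, 0 < KK ρ x ∧ KK ρ x ≤ 1 / ρ ^ 2)) ∧
  (∃ C, 0 < C ∧ ∀ τ ρ, 0 < τ → τ ≤ ρ → ∀ x, ∫ y, KK τ y * KK ρ (x - y) ≤ C * KK ρ x) ∧
  (∀ ρ, 0 < ρ → ∀ x h, KK ρ (x + h) ≤ 4 * (1 + ‖h‖ ^ 2 / ρ ^ 2) ^ 2 * KK ρ x) ∧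
  (∀ ρ ν, 0 < ρ → 1 ≤ ν → ∀ x, KK (ν * ρ) x ≤ ν ^ 2 * KK ρ x)

/-- (Ker) the kernels of `lo` and `sh` -/
def StmtKer : Prop := ∃ (C : ℝ) (kl ks : ℂ → ℂ), 0 < C ∧ Continuous kl ∧ Continuous ks ∧
  (∀ x, ‖kl x‖ ≤ C / (1 + ‖x‖ ^ 2) ^ 4) ∧ (∀ x, ‖ks x‖ ≤ C / (1 + ‖x‖ ^ 2) ^ 4) ∧
  ∀ (a : ℤ) (g : ℂ → ℂ), CC g → ∀ x,
    iF (cut (lo a) g) x = ∫ y, (((4 : ℝ) ^ a : ℝ) : ℂ) * kl (((2 : ℝ) ^ a : ℝ) * (x - y)) * iF g y ∧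
    iF (cut (sh a) g) x = ∫ y, (((4 : ℝ) ^ a : ℝ) : ℂ) * ks (((2 : ℝ) ^ a : ℝ) * (x - y)) * iF g y

/-- (LPK) pointwise domination -/
def StmtLPK : Prop := ∃ C, 0 < C ∧ ∀ (a : ℤ) (g : ℂ → ℂ), CC g → ∀ x,
  ‖iF (cut (lo a) g) x‖ ^ 2 ≤ C * ∫ y, KK ((2 : ℝ) ^ (-a)) (x - y) * ‖iF g y‖ ^ 2 ∧
  ‖iF (cut (sh a) g) x‖ ^ 2 ≤ C * ∫ y, KK ((2 : ℝ) ^ (-a)) (x - y) * ‖iF g y‖ ^ 2 ∧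
  ‖iF (cut (sh a) g) x‖ ^ 2 ≤ C * qa a g x

/-- (LocL2) local `L^2` orthogonality -/
def StmtLocL2 : Prop := ∃ C, 0 < C ∧ ∀ (a : ℤ) (A : Finset ℤ), (∀ b ∈ A, a ≤ b) →
  ∀ (g : ℂ → ℂ) (w : ℂ → ℝ), CC g → Continuous w → (∀ x, 0 ≤ w x) → Integrable w →
  ∑ b ∈ A, ∫ x, (∫ y, KK ((2 : ℝ) ^ (-a)) (x - y) * w y) * ‖iF (cut (sh b) g) x‖ ^ 2 ≤
    C * ∫ x, (∫ y, KK ((2 : ℝ) ^ (-a)) (x - y) * w y) * ‖iF g x‖ ^ 2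

/-- (DD) the dual Doob inequality -/
def StmtDD : Prop := ∃ C, 0 < C ∧ ∀ (A : Finset ℤ) (φ : ℤ → ℂ → ℝ),
  (∀ a ∈ A, (∀ x, 0 ≤ φ a x) ∧ MemLp (φ a) 2 volume) →
  Integrable (fun x => (∑ a ∈ A, ∫ y, KK ((2 : ℝ) ^ (-a)) (x - y) * φ a y) ^ 2) ∧
  ∫ x, (∑ a ∈ A, ∫ y, KK ((2 : ℝ) ^ (-a)) (x - y) * φ a y) ^ 2 ≤ C * ∫ x, (∑ a ∈ A, φ a x) ^ 2

/-- (Max) the maximal inequality -/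
def StmtMax : Prop := ∃ C, 0 < C ∧ ∀ (A : Finset ℤ) (g : ℂ → ℂ), CC g →
  ∃ M : ℂ → ℝ, Measurable M ∧ (∀ x, 0 ≤ M x) ∧ (∀ a ∈ A, ∀ x, ‖iF (cut (lo a) g) x‖ ^ 2 ≤ M x) ∧
    Integrable (fun x => M x ^ 2) ∧ ∫ x, M x ^ 2 ≤ C * N4 g

/-- (Sq) the square function inequality -/
def StmtSq : Prop := ∃ C, 0 < C ∧ ∀ (A : Finset ℤ) (g : ℂ → ℂ), CC g →
  Integrable (fun x => (∑ a ∈ A, qa a g x) ^ 2) ∧ ∫ x, (∑ a ∈ A, qa a g x) ^ 2 ≤ C * N4 g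

/-- (PP) paraproduct bound -/
def StmtPP : Prop := ∃ C, 0 < C ∧ ∀ (A : Finset ℤ) (τ : ℤ → ℤ) (g h : ℂ → ℂ), CC g → CC h →
  (∀ a ∈ A, Integrable (fun x => qa a g x * ‖iF (cut (lo (τ a)) h) x‖ ^ 2)) ∧
  ∑ a ∈ A, ∫ x, qa a g x * ‖iF (cut (lo (τ a)) h) x‖ ^ 2
    ≤ C * (Real.sqrt (N4 g) * Real.sqrt (N4 h)) ∧
  ∑ a ∈ A, N22 (cut (sh a) g) (cut (lo (τ a)) h) ≤ C * (Real.sqrt (N4 g) * Real.sqrt (N4 h)) ∧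
  ∑ a ∈ A, N4 (cut (sh a) g) ≤ C * N4 g

/-! ### Group B: decoupling of the scales (crude constants) -/

/-- (R) the low frequencies of `|T^n f|^2 - |f|^2` for `f` in one shell -/
def StmtR : Prop := ∃ C, 0 < C ∧ ∀ (n : ℕ) (a : ℤ) (ρ : ℝ) (g : ℂ → ℂ), 1 ≤ n → 0 < ρ → CC g →
  (∀ ζ, g ζ ≠ 0 → (2 : ℝ) ^ a ≤ ‖ζ‖ ∧ ‖ζ‖ ≤ (2 : ℝ) ^ (a + 2)) →
  ∫ θ in Metric.closedBall (0 : ℂ) ρ,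
    ‖∫ δ, (E1 n θ δ - 1) * (g (δ + θ / 2) * starRingEnd ℂ (g (δ - θ / 2)))‖ ^ 2
      ≤ C * (n * ρ / (2 : ℝ) ^ a) ^ 2 * N4 g

/-- (Dec) decay of the interaction of two scales -/
def StmtDec : Prop := ∃ C, 0 < C ∧ ∀ (n : ℕ) (g : ℂ → ℂ), 1 ≤ n → CC g → Z0 g →
  ∀ (A : Finset ℤ) (d : ℕ),
  ∑ a ∈ A, N22 (cut (sh a) (mg n g)) (cut (lo (a - d)) (mg n g)) ≤
    C * (1 + n * (2 : ℝ) ^ (-(d : ℤ))) * (Real.sqrt (N4 g) * Real.sqrt (N4 (mg n g)))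

/-- energy near the shell `a` -/
noncomputable def Ya (a : ℤ) (d : ℕ) (G : ℂ → ℂ) : ℝ :=
  ∑ i ∈ Finset.Icc (a - 3) a, (N4 (cut (sh i) G) + N22 (cut (sh i) G) (cut (lo i) G)
    + N22 (cut (sh i) G) (cut (lo (a - d)) G))

/-- the interaction of the shell `a` with everything below `a - d` -/
noncomputable def Dd (a : ℤ) (d : ℕ) (G : ℂ → ℂ) : ℝ :=
  (N4 (cut (lo (a + 1)) G) - N4 (cut (lo a) G))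
    - (N4 (cut (bd (a - d) (a + 1)) G) - N4 (cut (bd (a - d) a) G))

/-- (Top) -/
def StmtTop : Prop := ∃ C, 0 < C ∧ ∀ (a : ℤ) (d : ℕ) (G : ℂ → ℂ), CC G →
  (d < 4 → |Dd a d G| ≤ C * Ya a d G) ∧
  (4 ≤ d → |Dd a d G| ≤
    C * (Real.sqrt (N22 (cut (sh a) G) (cut (lo (a - d)) G)) * Real.sqrt (Ya a d G)))

/-- (Avg) averaging over the position of the blocks -/
def StmtAvg : Prop := ∃ C, 0 < C ∧ ∀ (n : ℕ) (B : ℝ) (R L : ℕ) (g : ℂ → ℂ), 1 ≤ n → 1 ≤ B → 1 ≤ L →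
  CC g → Sup R g → N4 (mg n g) ≤ B * n ^ 2 * N4 g →
  ∑ t ∈ Finset.range L, (N4 (mg n g) - ∑ b ∈ Finset.Icc (-((R : ℤ) + 4)) (R + 4),
      N4 (cut (bd (b * L - t) ((b + 1) * L - t)) (mg n g)))
    ≤ C * B * (1 + L / Real.sqrt n) * n ^ 2 * N4 g

/-- (Apr) a priori bound, from the theorem `FullOperatorUniform` at `p = 4` -/
def StmtApr : Prop := ∃ (B : ℝ) (n₀ : ℕ), 1 ≤ B ∧ 1 ≤ n₀ ∧ ∀ n ≥ n₀, ∀ g, CC g → Z0 g →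
  N4 (mg n g) ≤ B * n ^ 2 * N4 g

/-! ### Group C: the sharp inequality for one focus -/

/-- (Riesz) two explicit integrals -/
def StmtRiesz : Prop := ∀ η : ℂ, η ≠ 0 →
  Integrable (fun ζ : ℂ => ‖ζ‖ ^ (-(3 / 2) : ℝ) * ‖η - ζ‖ ^ (-1 : ℝ)) ∧
  ∫ ζ : ℂ, ‖ζ‖ ^ (-(3 / 2) : ℝ) * ‖η - ζ‖ ^ (-1 : ℝ) = Real.pi * gam ^ 2 * ‖η‖ ^ (-(1 / 2) : ℝ) ∧
  Integrable (fun ζ : ℂ => ‖ζ‖ ^ (-(3 / 2) : ℝ) * ‖η - ζ‖ ^ (-(3 / 2) : ℝ)) ∧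
  ∫ ζ : ℂ, ‖ζ‖ ^ (-(3 / 2) : ℝ) * ‖η - ζ‖ ^ (-(3 / 2) : ℝ) = Real.pi * gam ^ 2 * ‖η‖ ^ (-1 : ℝ)

/-- (HLP) the sharp Hardy-Littlewood-Paley inequality for `p = 4` in the plane -/
def StmtHLP : Prop := ∀ h : ℂ → ℂ, Integrable h →
  ∫⁻ x, ‖iF h x‖ₑ ^ 4 ≤ ENNReal.ofReal (Real.pi ^ 2 * gam ^ 4) * ∫⁻ ξ, ‖h ξ‖ₑ ^ 4 * ‖ξ‖ₑ ^ 4

/-- (PS) phase space identity -/
def StmtPS : Prop := ∀ (σ : ℝ) (g h : ℂ → ℂ) (ξ : ℂ), CC g → CC h →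
  ∫ z, ‖iF (fun ζ => (Real.exp (-(Real.pi * σ ^ 2 * ‖ζ - ξ‖ ^ 2)) : ℂ) * g ζ) z‖ ^ 2 *
      ‖iF (fun ζ => (Real.exp (-(Real.pi * σ ^ 2 * ‖ζ - ξ‖ ^ 2)) : ℂ) * h ζ) z‖ ^ 2
    = ∫ θ, Real.exp (-(Real.pi * σ ^ 2 * ‖θ - 2 * ξ‖ ^ 2)) * ‖As σ g h θ‖ ^ 2

/-- (Syn) windowed form of the sharp inequality -/
def StmtSyn : Prop := ∀ (r : ℝ) (g : ℂ → ℂ), 0 < r → CC g →
  N4 g ≤ Real.pi ^ 2 * gam ^ 4 / 16 *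
    ∫ θ, (r ^ 4 * ‖θ‖ ^ 4 + 4 / Real.pi * r ^ 2 * ‖θ‖ ^ 2 + 2 / Real.pi ^ 2) * ‖As r g g θ‖ ^ 2

/-- (CG) complex Gaussians as superpositions of characters -/
def StmtCG : Prop := ∀ (a β : ℝ) (u : ℂ), 0 < a → ‖u‖ = 1 → ∃ K : ℂ → ℂ, Integrable K ∧
  ∫ v, ‖K v‖ = Real.sqrt (1 + β ^ 2 / a ^ 2) ∧
  ∀ δ : ℂ, Complex.exp ((-(a * ‖δ‖ ^ 2) : ℝ) + Complex.I * (β * (δ ^ 2 * u ^ 2).im : ℝ))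
    = ∫ v, K v * ch v δ

/-- (Hold) the energy decreases under opposite translations -/
def StmtHold : Prop := ∀ (σ : ℝ) (g : ℂ → ℂ) (y ξ : ℂ), CC g →
  ∫ θ, Real.exp (-(Real.pi * σ ^ 2 * ‖θ - ξ‖ ^ 2)) *
      ‖As σ (fun ζ => ch y ζ * g ζ) (fun ζ => ch (-y) ζ * g ζ) θ‖ ^ 2
    ≤ ∫ θ, Real.exp (-(Real.pi * σ ^ 2 * ‖θ - ξ‖ ^ 2)) * ‖As σ g g θ‖ ^ 2

/-- (Chirp) -/
def StmtChirp : Prop := ∀ (σ r β : ℝ) (u ξ : ℂ) (g : ℂ → ℂ), 0 < σ → σ < r → ‖u‖ = 1 → CC g →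
  ∫ θ, Real.exp (-(Real.pi * σ ^ 2 * ‖θ - ξ‖ ^ 2)) *
      ‖bil (fun δ => Complex.exp ((-(2 * Real.pi * r ^ 2 * ‖δ‖ ^ 2) : ℝ)
        + Complex.I * (β * (δ ^ 2 * u ^ 2).im : ℝ))) g g θ‖ ^ 2
    ≤ (1 + β ^ 2 / (2 * Real.pi * (r ^ 2 - σ ^ 2)) ^ 2) *
      ∫ θ, Real.exp (-(Real.pi * σ ^ 2 * ‖θ - ξ‖ ^ 2)) * ‖As σ g g θ‖ ^ 2

/-- (EI) the exact multiscale energy inequality -/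
def StmtEI : Prop := ∀ (J : ℕ) (K σ : ℕ → ℝ) (g : ℂ → ℂ), CC g →
  (∀ j, 0 < K j) → (∀ j, 0 < σ j) → (∀ j, K j ≤ K (j + 1)) → (∀ j, σ (j + 1) ≤ σ j) →
  (∀ j, 1 < K j * σ j) →
  ∑ j ∈ Finset.range J, ∫ θ, (Real.exp (-(Real.pi * ‖θ‖ ^ 2 / K (j + 1) ^ 2))
      - Real.exp (-(Real.pi * ‖θ‖ ^ 2 / K j ^ 2))) * ‖As (σ j) g g θ‖ ^ 2 ≤ N4 g

/-! ### Group D: blocks -/

/-- (EIJ) -/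
def StmtEIJ : Prop := ∀ ε : ℝ, 0 < ε → ∃ m₀ : ℕ, ∀ m ≥ m₀, ∀ L : ℕ, 2 * m < L → ∀ Q : ℝ, 1 ≤ Q →
  ∃ n₀ : ℕ, ∀ n ≥ n₀, ∀ g, CC g → ∀ (c : ℤ) (Bs : Finset ℤ),
  ∑ b ∈ Bs, ∫ θ in Jset (c + b * L) L m, ‖As (win n Q (c + b * L) L) g g θ‖ ^ 2 ≤ (1 + ε) * N4 g

/-- (GT) Gaussian averages of separated frequencies -/
def StmtGT : Prop := ∃ C, 0 < C ∧ ∀ (σ ρ : ℝ) (g h : ℂ → ℂ) (θ : ℂ), 0 < σ → 1 ≤ σ * ρ →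
  CC g → CC h → (∀ δ, g (θ / 2 + δ) ≠ 0 → h (θ / 2 - δ) ≠ 0 → ρ ≤ ‖δ‖) →
  ‖As σ g h θ‖ ^ 2 ≤ C * Real.exp (-(σ ^ 2 * ρ ^ 2)) / σ ^ 2 * Om σ g h θ

/-- (TailLow) -/
def StmtTailLow : Prop := ∀ (Q : ℝ) (L m : ℕ) (ε : ℝ), 1 ≤ Q → 4 ≤ m → 2 * m < L → 0 < ε →
  ∃ n₀ : ℕ, ∀ n ≥ n₀, ∀ g, CC g → ∀ (c : ℤ) (Bs : Finset ℤ),
  ∑ b ∈ Bs, ∫ θ in Jset (c + b * L) L m, ‖As (win n Q (c + b * L) L)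
      (cut (lo (c + b * L)) g) (cut (lo (c + b * L + L)) g) θ‖ ^ 2 ≤ ε * N4 g

/-- (TailHigh) -/
def StmtTailHigh : Prop := ∀ (Q : ℝ) (L m : ℕ) (ε : ℝ), 1 ≤ Q → 4 ≤ m → 2 * m < L → 0 < ε →
  ∃ n₀ : ℕ, ∀ n ≥ n₀, ∀ g, CC g → ∀ (c : ℤ) (Bs : Finset ℤ),
  ∑ b ∈ Bs, ∫ θ in Jset (c + b * L) L m, ‖As (win n Q (c + b * L) L) g g θ
      - As (win n Q (c + b * L) L) (cut (lo (c + b * L + L)) g) (cut (lo (c + b * L + L)) g) θ‖ ^ 2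
    ≤ ε * N4 g

/-- (Tail) only the frequencies of the block matter -/
def StmtTail : Prop := ∀ (Q : ℝ) (L m : ℕ) (ε : ℝ), 1 ≤ Q → 4 ≤ m → 2 * m < L → 0 < ε →
  ∃ n₀ : ℕ, ∀ n ≥ n₀, ∀ g, CC g → ∀ (c : ℤ) (Bs : Finset ℤ),
  ∑ b ∈ Bs, ∫ θ in Jset (c + b * L) L m, ‖As (win n Q (c + b * L) L) g g θ
      - As (win n Q (c + b * L) L) (cut (bd (c + b * L) (c + b * L + L)) g)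
          (cut (bd (c + b * L) (c + b * L + L)) g) θ‖ ^ 2 ≤ ε * N4 g

/-- the chirped Gaussian -/
noncomputable def cs (n : ℕ) (r : ℝ) (q δ : ℂ) : ℂ :=
  Complex.exp ((-(2 * Real.pi * r ^ 2 * ‖δ‖ ^ 2) : ℝ)
    + Complex.I * (8 * n / ‖q‖ ^ 2 * (δ ^ 2 * (‖q‖ / q) ^ 2).im : ℝ))

/-- the error symbol -/
noncomputable def Es (n : ℕ) (r : ℝ) (s : ℤ) (L m : ℕ) (θ q δ : ℂ) : ℂ :=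
  ((bd (s - 1) (s + L + 1) (θ / 2 + δ) * bd (s - 1) (s + L + 1) (θ / 2 - δ) : ℝ) : ℂ) *
    ((Real.exp (-(2 * Real.pi * r ^ 2 * ‖δ‖ ^ 2)) *
          (bd (s + m) (s + L - m) (θ / 2 + δ) * bd (s + m) (s + L - m) (θ / 2 - δ)) : ℝ)
        * (E2 n θ δ / mm n (θ / 2) ^ 2)
      - ((bd (s + m) (s + L - m) (q / 2) ^ 2 : ℝ) : ℂ) * cs n r q δ)

/-- (Err) the error symbol is small -/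
def StmtErr : Prop := ∀ (M : ℝ) (L m : ℕ) (ε : ℝ), 1 ≤ M → 4 ≤ m → 2 * m < L → 0 < ε →
  ∃ (η : ℝ) (n₀ : ℕ), 0 < η ∧ η < 1 ∧ η ≤ ε ∧ ∀ n ≥ n₀, ∀ (s : ℤ) (θ q : ℂ), θ ∈ Jset s L m →
  ‖q - θ‖ ≤ η * (2 : ℝ) ^ s →
  ContDiff ℝ 2 (Es n (win n M s L) s L m θ q) ∧ HasCompactSupport (Es n (win n M s L) s L m θ q) ∧
  ∀ δ, ‖Es n (win n M s L) s L m θ q δ‖ ≤ ε * Real.exp (-(win n M s L ^ 2 * ‖δ‖ ^ 2)) ∧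
    ‖lap (Es n (win n M s L) s L m θ q) δ‖ ≤
      ε * win n M s L ^ 2 * Real.exp (-(win n M s L ^ 2 * ‖δ‖ ^ 2))

/-- the symbol at low total frequency -/
noncomputable def Ls (n : ℕ) (r : ℝ) (s : ℤ) (L m : ℕ) (θ δ : ℂ) : ℂ :=
  ((Real.exp (-(2 * Real.pi * r ^ 2 * ‖δ‖ ^ 2)) *
    (bd (s + m) (s + L - m) (θ / 2 + δ) * bd (s + m) (s + L - m) (θ / 2 - δ)) : ℝ) : ℂ) * E2 n θ δ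

/-- (ErrLow) -/
def StmtErrLow : Prop := ∀ (M : ℝ) (L m : ℕ) (ε : ℝ), 1 ≤ M → 4 ≤ m → 2 * m < L → 0 < ε →
  ∃ n₀ : ℕ, ∀ n ≥ n₀, ∀ (s : ℤ) (θ : ℂ), ‖θ‖ < (2 : ℝ) ^ (s + m) →
  ContDiff ℝ 2 (Ls n (win n M s L) s L m θ) ∧ HasCompactSupport (Ls n (win n M s L) s L m θ) ∧
  ∀ δ, ‖Ls n (win n M s L) s L m θ δ‖ ≤ ε * Real.exp (-(win n M s L ^ 2 * ‖δ‖ ^ 2)) ∧
    ‖lap (Ls n (win n M s L) s L m θ) δ‖ ≤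
      ε * win n M s L ^ 2 * Real.exp (-(win n M s L ^ 2 * ‖δ‖ ^ 2))

/-- (Blk1) pointwise comparison with the chirped Gaussian -/
def StmtBlk1 : Prop := ∀ (M : ℝ) (L m : ℕ) (ε : ℝ), 1 ≤ M → 4 ≤ m → 2 * m < L → 0 < ε →
  ∃ (η : ℝ) (n₀ : ℕ), 0 < η ∧ η < 1 ∧ η ≤ ε ∧ ∀ n ≥ n₀, ∀ (s : ℤ) (g : ℂ → ℂ), CC g →
  (∀ θ ∈ Jset s L m, ∀ q : ℂ, ‖q - θ‖ ≤ η * (2 : ℝ) ^ s →
    ‖As (win n M s L) (cut (bd (s + m) (s + L - m)) (mg n g))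
        (cut (bd (s + m) (s + L - m)) (mg n g)) θ‖ ^ 2 ≤
      (1 + ε) * (bd (s + m) (s + L - m) (q / 2) ^ 4 *
        ‖bil (cs n (win n M s L) q) (cut (bd s (s + L)) g) (cut (bd s (s + L)) g) θ‖ ^ 2)
      + ε / win n M s L ^ 2 *
          Om (win n M s L) (cut (bd s (s + L)) g) (cut (bd s (s + L)) g) θ) ∧
  (∀ θ, ‖θ‖ < (2 : ℝ) ^ (s + m) →
    ‖As (win n M s L) (cut (bd (s + m) (s + L - m)) (mg n g))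
        (cut (bd (s + m) (s + L - m)) (mg n g)) θ‖ ^ 2 ≤
      ε / win n M s L ^ 2 *
        Om (win n M s L) (cut (bd s (s + L)) g) (cut (bd s (s + L)) g) θ) ∧
  (∀ θ, (2 : ℝ) ^ (s + L - m + 2) < ‖θ‖ →
    As (win n M s L) (cut (bd (s + m) (s + L - m)) (mg n g))
        (cut (bd (s + m) (s + L - m)) (mg n g)) θ = 0)

/-- the weight of `StmtSyn` -/
noncomputable def Wr (r : ℝ) (θ : ℂ) : ℝ :=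
  r ^ 4 * ‖θ‖ ^ 4 + 4 / Real.pi * r ^ 2 * ‖θ‖ ^ 2 + 2 / Real.pi ^ 2

/-- (BlkAvg) average over discs -/
def StmtBlkAvg : Prop := ∀ ε : ℝ, 0 < ε → ∃ (M M₂ : ℝ), 1 ≤ M ∧ 1 < M₂ ∧ ∀ (m L : ℕ), 4 ≤ m →
  2 * m < L → ∀ (η ε₂ : ℝ), 0 < η → η < 1 → 0 < ε₂ → ∃ n₀ : ℕ, ∀ n ≥ n₀, ∀ (s : ℤ) (g : ℂ → ℂ),
  CC g →
  IntegrableOn (fun z : ℂ × ℂ => bd (s + m) (s + L - m) (z.2 / 2) ^ 4 * Wr (win n M s L) z.2 *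
      ‖bil (cs n (win n M s L) z.2) g g z.1‖ ^ 2)
    {z | z.1 ∈ Jset s L m ∧ ‖z.2 - z.1‖ ≤ η * (2 : ℝ) ^ s} ∧
  (∫ z in {z : ℂ × ℂ | z.1 ∈ Jset s L m ∧ ‖z.2 - z.1‖ ≤ η * (2 : ℝ) ^ s},
      bd (s + m) (s + L - m) (z.2 / 2) ^ 4 * Wr (win n M s L) z.2 *
        ‖bil (cs n (win n M s L) z.2) g g z.1‖ ^ 2) / (Real.pi * (η * (2 : ℝ) ^ s) ^ 2)
    ≤ (1 + ε) * (16 / Real.pi ^ 2 * n ^ 2) *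
        (∫ θ in Jset s L m, ‖As (win n (M * M₂) s L) g g θ‖ ^ 2)
      + ε₂ * n ^ 2 * N4 g

/-- (Block) the sharp inequality for one block -/
def StmtBlock : Prop := ∀ ε : ℝ, 0 < ε → ∃ (Q : ℝ) (m₀ : ℕ), 1 ≤ Q ∧ 4 ≤ m₀ ∧ ∀ m ≥ m₀, ∀ L : ℕ,
  2 * m < L → ∀ ε₂ : ℝ, 0 < ε₂ → ∃ n₀ : ℕ, 1 ≤ n₀ ∧ ∀ n ≥ n₀, ∀ (s : ℤ) (g : ℂ → ℂ), CC g →
  N4 (cut (bd (s + m) (s + L - m)) (mg n g)) ≤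
    (1 + ε) * gam ^ 4 * n ^ 2 *
      (∫ θ in Jset s L m, ‖As (win n Q s L) (cut (bd s (s + L)) g) (cut (bd s (s + L)) g) θ‖ ^ 2)
    + ε₂ * n ^ 2 * N4 (cut (bd s (s + L)) g)

/-! ### Group E: conclusion -/

/-- (Bdry) the boundary of a block -/
def StmtBdry : Prop := ∀ ε : ℝ, 0 < ε → ∃ C : ℝ, 0 < C ∧ ∀ (m L : ℕ) (s : ℤ) (G : ℂ → ℂ), 2 * m < L →
  CC G → N4 (cut (bd s (s + L)) G) ≤ (1 + ε) * N4 (cut (bd (s + m) (s + L - m)) G)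
    + C * (m : ℝ) ^ 3 * ∑ i ∈ Finset.range m,
        (N4 (cut (sh (s + i)) G) + N4 (cut (sh (s + L - 1 - i)) G))

/-- (Shift) averaging the boundaries -/
def StmtShift : Prop := ∀ (m L : ℕ) (N : ℕ) (x : ℤ → ℝ), 2 * m < L → (∀ i, 0 ≤ x i) →
  (∀ i, i < -(N : ℤ) → x i = 0) → (∀ i, (N : ℤ) < i → x i = 0) → ∀ Bs : Finset ℤ,
  ∑ t ∈ Finset.range L, ∑ b ∈ Bs, ∑ i ∈ Finset.range m,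
      (x (b * L - t + i) + x ((b + 1) * L - t - 1 - i))
    ≤ 2 * m * ∑ i ∈ Finset.Icc (-(N : ℤ)) N, x i

/-- (Main4) -/
def StmtMain4 : Prop := ∀ ε : ℝ, 0 < ε → ∃ n₀ : ℕ, ∀ n ≥ n₀, ∀ g, CC g → Z0 g →
  N4 (mg n g) ≤ (1 + ε) * gam ^ 4 * n ^ 2 * N4 g

/-- (Ratio4) -/
def StmtRatio4 : Prop := Tendsto (fun n : ℕ => ratio n 4 / Real.sqrt n) atTop (𝓝 gam)

/-- (Final4) -/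
def StmtFinal4 : Prop := ∀ ε : ℝ, 0 < ε → ∃ n₀ : ℕ, ∀ n ≥ n₀, ∀ f : 𝓢(ℂ, ℂ),
  eLpNorm (Tn n f) 4 volume ≤ ENNReal.ofReal ((1 + ε) * ratio n 4) * eLpNorm f 4 volume

end Pool.Agent.Lib.MP_dd244f_an.Four
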