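import Mathlib
import Pool.Agent.Lib.MP_dd244f_an.Four.Stmts

/-!
Full operator, `p = 4`: the dual Doob inequality (module F4-DD).
-/

set_option autoImplicit false

namespace Pool.Agent.Lib.MP_dd244f_an.Four

open MeasureTheory Filter Topology Finset

namespace DD

/-- what we use of the kernel -/
structure Ker (K : ℂ → ℝ) : Prop where
  int : Integrable K
  one : ∫ x, K x = Real.pi
  pos : ∀ x, 0 ≤ K x
  bdd : ∃ M, 0 ≤ M ∧ ∀ x, K x ≤ M
  meas : Measurable K
  even : ∀ x, K (-x) = K x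

/-- the averages -/
noncomputable def P (K : ℂ → ℝ) (φ : ℂ → ℝ) (x : ℂ) : ℝ := ∫ y, K (x - y) * φ y

variable {K : ℂ → ℝ} {φ : ℂ → ℝ}

lemma Ker.shift (hK : Ker K) (x : ℂ) : Integrable (fun y => K (x - y)) :=
  hK.int.comp_sub_left x

lemma Ker.memLp (hK : Ker K) (x : ℂ) : MemLp (fun y => K (x - y)) 2 volume := by
  obtain ⟨M, hM0, hM⟩ := hK.bdd
  have hm : Measurable (fun y => K (x - y)) := hK.meas.comp (measurable_const.sub measurable_id)
  rw [memLp_two_iff_integrable_sq hm.aestronglyMeasurable]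
  refine ((hK.shift x).const_mul M).mono' (hm.pow_const 2).aestronglyMeasurable
    (Eventually.of_forall fun y => ?_)
  rw [Real.norm_eq_abs, abs_of_nonneg (sq_nonneg _), sq]
  exact mul_le_mul_of_nonneg_right (hM _) (hK.pos _)

lemma int1 (hK : Ker K) (h2 : MemLp φ 2 volume) (x : ℂ) :
    Integrable (fun y => K (x - y) * φ y) :=
  (hK.memLp x).integrable_mul h2

lemma int2 (hK : Ker K) (h2 : MemLp φ 2 volume) (x : ℂ) :
    Integrable (fun y => K (x - y) * φ y ^ 2) := by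
  obtain ⟨M, hM0, hM⟩ := hK.bdd
  have hm : Measurable (fun y => K (x - y)) := hK.meas.comp (measurable_const.sub measurable_id)
  refine h2.integrable_sq.bdd_mul (c := M) hm.aestronglyMeasurable (Eventually.of_forall fun y => ?_)
  rw [Real.norm_eq_abs, abs_of_nonneg (hK.pos _)]
  exact hM _

lemma P_sq_le (hK : Ker K) (h2 : MemLp φ 2 volume) (x : ℂ) :
    P K φ x ^ 2 ≤ Real.pi * ∫ y, K (x - y) * φ y ^ 2 := by
  have hpi := Real.pi_pos
  set t : ℝ := P K φ x / Real.pi with ht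
  have h0 : 0 ≤ ∫ y, K (x - y) * (φ y - t) ^ 2 :=
    integral_nonneg fun y => mul_nonneg (hK.pos _) (sq_nonneg _)
  have h1 : ∫ y, K (x - y) * (φ y - t) ^ 2
      = (∫ y, K (x - y) * φ y ^ 2) - 2 * t * P K φ x + t ^ 2 * Real.pi := by
    have e : (fun y => K (x - y) * (φ y - t) ^ 2)
        = fun y => (K (x - y) * φ y ^ 2 - (2 * t) * (K (x - y) * φ y)) + t ^ 2 * K (x - y) := by
      funext y; ring
    rw [e, integral_add, integral_sub, integral_const_mul, integral_const_mul]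
    · have : ∫ y, K (x - y) = Real.pi := by
        rw [integral_sub_left_eq_self (fun y => K y) volume x]; exact hK.one
      rw [this]; rfl
    · exact int2 hK h2 x
    · exact (int1 hK h2 x).const_mul _
    · exact (int2 hK h2 x).sub ((int1 hK h2 x).const_mul _)
    · exact (hK.shift x).const_mul _
  rw [h1] at h0
  have h3 : t * Real.pi = P K φ x := by rw [ht]; field_simp
  have h4 : t ^ 2 * Real.pi = t * P K φ x := by rw [← h3]; ring
  rw [h4] at h0
  have h5 : t * P K φ x ≤ ∫ y, K (x - y) * φ y ^ 2 := by linarith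
  calc P K φ x ^ 2 = Real.pi * (t * P K φ x) := by
        rw [sq]; nth_rewrite 1 [← h3]; ring
    _ ≤ _ := mul_le_mul_of_nonneg_left h5 hpi.le

lemma Q_int (hK : Ker K) (h2 : MemLp φ 2 volume) :
    Integrable (fun x => ∫ y, K (x - y) * φ y ^ 2) := by
  have h := (h2.integrable_sq).integrable_convolution (ContinuousLinearMap.mul ℝ ℝ) hK.int
  refine h.congr (Eventually.of_forall fun x => ?_)
  simp only [convolution_def, ContinuousLinearMap.mul_apply']
  exact integral_congr_ae (Eventually.of_forall fun y => mul_comm _ _)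

/-- the kernel in `[0, ∞]` -/
noncomputable def kk (K : ℂ → ℝ) (x : ℂ) : ENNReal := ENNReal.ofReal (K x)

lemma ofReal_P (hK : Ker K) (h0 : ∀ x, 0 ≤ φ x) (h2 : MemLp φ 2 volume) (x : ℂ) :
    ENNReal.ofReal (P K φ x) = ∫⁻ y, kk K (x - y) * kk φ y := by
  unfold P
  rw [ofReal_integral_eq_lintegral_ofReal (int1 hK h2 x)
    (Eventually.of_forall fun y => mul_nonneg (hK.pos _) (h0 _))]
  refine lintegral_congr fun y => ?_
  rw [ENNReal.ofReal_mul (hK.pos _)]; rfl

lemma P_nonneg (hK : Ker K) (h0 : ∀ x, 0 ≤ φ x) (x : ℂ) : 0 ≤ P K φ x :=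
  integral_nonneg fun y => mul_nonneg (hK.pos _) (h0 _)

lemma meas_lin (hK : Ker K) (hm : Measurable φ) :
    Measurable (fun x => ∫⁻ y, kk K (x - y) * kk φ y) := by
  refine Measurable.lintegral_prod_right'
    (f := fun p : ℂ × ℂ => kk K (p.1 - p.2) * kk φ p.2) ?_
  exact ((hK.meas.comp (measurable_fst.sub measurable_snd)).ennreal_ofReal).mul
    ((hm.comp measurable_snd).ennreal_ofReal)

lemma P_meas (hK : Ker K) (h0 : ∀ x, 0 ≤ φ x) (h2 : MemLp φ 2 volume) (hm : Measurable φ) :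
    Measurable (P K φ) := by
  have e : P K φ = fun x => (∫⁻ y, kk K (x - y) * kk φ y).toReal := by
    funext x
    rw [← ofReal_P hK h0 h2 x, ENNReal.toReal_ofReal (P_nonneg hK h0 x)]
  rw [e]
  exact (meas_lin hK hm).ennreal_toReal

lemma P_memLp (hK : Ker K) (h0 : ∀ x, 0 ≤ φ x) (h2 : MemLp φ 2 volume) (hm : Measurable φ) :
    MemLp (P K φ) 2 volume := by
  have hP := P_meas hK h0 h2 hm
  rw [memLp_two_iff_integrable_sq hP.aestronglyMeasurable]
  refine ((Q_int hK h2).const_mul Real.pi).mono' (hP.pow_const 2).aestronglyMeasurable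
    (Eventually.of_forall fun x => ?_)
  rw [Real.norm_eq_abs, abs_of_nonneg (sq_nonneg _)]
  exact P_sq_le hK h2 x

/-- the key inequality for two scales -/
lemma pair {K L : ℂ → ℝ} {φ ψ : ℂ → ℝ} (hK : Ker K) (hL : Ker L) {C : ℝ} (hC : 0 ≤ C)
    (h : ∀ x, ∫ y, L y * K (x - y) ≤ C * K x)
    (hφ0 : ∀ x, 0 ≤ φ x) (hφ2 : MemLp φ 2 volume) (hφm : Measurable φ)
    (hψ0 : ∀ x, 0 ≤ ψ x) (hψ2 : MemLp ψ 2 volume) (hψm : Measurable ψ) :
    ∫ x, P K φ x * P L ψ x ≤ C * ∫ x, P K φ x * ψ x := by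
  have hPφ := P_memLp hK hφ0 hφ2 hφm
  have hPψ := P_memLp hL hψ0 hψ2 hψm
  have i1 : Integrable (fun x => P K φ x * P L ψ x) := hPφ.integrable_mul hPψ
  have i2 : Integrable (fun x => P K φ x * ψ x) := hPφ.integrable_mul hψ2
  have hPφ0 := P_nonneg (φ := φ) hK hφ0
  have hPψ0 := P_nonneg (φ := ψ) hL hψ0
  -- the convolution of the two kernels
  have hconv : ∀ y z : ℂ, ∫⁻ x, kk K (x - z) * kk L (x - y) ≤ ENNReal.ofReal C * kk K (y - z) := by
    intro y z
    have iKL : Integrable (fun u => L u * K (y - z - u)) := by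
      obtain ⟨M, hM0, hM⟩ := hK.bdd
      have hm : Measurable (fun u => K (y - z - u)) :=
        hK.meas.comp (measurable_const.sub measurable_id)
      have := hL.int.bdd_mul (c := M) hm.aestronglyMeasurable (Eventually.of_forall fun u => by
        rw [Real.norm_eq_abs, abs_of_nonneg (hK.pos _)]
        exact hM _)
      refine this.congr (Eventually.of_forall fun u => mul_comm _ _)
    have e1 : ∫⁻ x, kk K (x - z) * kk L (x - y) = ∫⁻ u, kk L u * kk K (y - z - u) := by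
      rw [← lintegral_sub_left_eq_self (fun x => kk K (x - z) * kk L (x - y)) y]
      refine lintegral_congr fun u => ?_
      have a1 : y - u - z = y - z - u := by ring
      have a2 : kk L (y - u - y) = kk L u := by
        unfold kk
        rw [show y - u - y = -u by ring, hL.even]
      rw [a1, a2, mul_comm]
    rw [e1]
    have e2 : ∫⁻ u, kk L u * kk K (y - z - u) = ENNReal.ofReal (∫ u, L u * K (y - z - u)) := by
      rw [ofReal_integral_eq_lintegral_ofReal iKL
        (Eventually.of_forall fun u => mul_nonneg (hL.pos _) (hK.pos _))]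
      refine lintegral_congr fun u => ?_
      rw [ENNReal.ofReal_mul (hL.pos _)]; rfl
    rw [e2]
    unfold kk
    rw [← ENNReal.ofReal_mul hC]
    exact ENNReal.ofReal_le_ofReal (h _)
  -- pass to `[0, ∞]`
  have mK : Measurable (kk K) := hK.meas.ennreal_ofReal
  have mL : Measurable (kk L) := hL.meas.ennreal_ofReal
  have mφ : Measurable (kk φ) := hφm.ennreal_ofReal
  have mψ : Measurable (kk ψ) := hψm.ennreal_ofReal
  have mp : Measurable (fun x => ∫⁻ y, kk K (x - y) * kk φ y) := meas_lin hK hφm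
  -- one kernel applied to the averages
  have hone : ∀ y : ℂ, ∫⁻ x, (∫⁻ z, kk K (x - z) * kk φ z) * kk L (x - y)
      ≤ ENNReal.ofReal C * ∫⁻ z, kk K (y - z) * kk φ z := by
    intro y
    have s1 : ∫⁻ x, (∫⁻ z, kk K (x - z) * kk φ z) * kk L (x - y)
        = ∫⁻ x, ∫⁻ z, kk K (x - z) * kk φ z * kk L (x - y) := by
      refine lintegral_congr fun x => ?_
      rw [lintegral_mul_const]
      exact (mK.comp (measurable_const.sub measurable_id)).mul mφ
    rw [s1, lintegral_lintegral_swap]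
    · have s2 : ∀ z, ∫⁻ x, kk K (x - z) * kk φ z * kk L (x - y)
          ≤ kk φ z * (ENNReal.ofReal C * kk K (y - z)) := by
        intro z
        have : ∫⁻ x, kk K (x - z) * kk φ z * kk L (x - y)
            = kk φ z * ∫⁻ x, kk K (x - z) * kk L (x - y) := by
          rw [← lintegral_const_mul]
          · refine lintegral_congr fun x => ?_
            ring
          · exact (mK.comp (measurable_id.sub measurable_const)).mul
              (mL.comp (measurable_id.sub measurable_const))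
        rw [this]
        gcongr
        exact hconv y z
      refine (lintegral_mono s2).trans (le_of_eq ?_)
      rw [← lintegral_const_mul]
      · refine lintegral_congr fun z => ?_
        ring
      · exact (mK.comp (measurable_const.sub measurable_id)).mul mφ
    · refine Measurable.aemeasurable ?_
      exact ((mK.comp (measurable_fst.sub measurable_snd)).mul (mφ.comp measurable_snd)).mul
        (mL.comp (measurable_fst.sub measurable_const))
  have hmain : ∫⁻ x, (∫⁻ z, kk K (x - z) * kk φ z) * (∫⁻ y, kk L (x - y) * kk ψ y)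
      ≤ ENNReal.ofReal C * ∫⁻ y, (∫⁻ z, kk K (y - z) * kk φ z) * kk ψ y := by
    have s1 : ∫⁻ x, (∫⁻ z, kk K (x - z) * kk φ z) * (∫⁻ y, kk L (x - y) * kk ψ y)
        = ∫⁻ x, ∫⁻ y, (∫⁻ z, kk K (x - z) * kk φ z) * (kk L (x - y) * kk ψ y) := by
      refine lintegral_congr fun x => ?_
      rw [lintegral_const_mul]
      exact (mL.comp (measurable_const.sub measurable_id)).mul mψ
    rw [s1, lintegral_lintegral_swap]
    · have s2 : ∀ y, ∫⁻ x, (∫⁻ z, kk K (x - z) * kk φ z) * (kk L (x - y) * kk ψ y)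
          ≤ kk ψ y * (ENNReal.ofReal C * ∫⁻ z, kk K (y - z) * kk φ z) := by
        intro y
        have : ∫⁻ x, (∫⁻ z, kk K (x - z) * kk φ z) * (kk L (x - y) * kk ψ y)
            = kk ψ y * ∫⁻ x, (∫⁻ z, kk K (x - z) * kk φ z) * kk L (x - y) := by
          rw [← lintegral_const_mul]
          · refine lintegral_congr fun x => ?_
            ring
          · exact mp.mul (mL.comp (measurable_id.sub measurable_const))
        rw [this]
        gcongr
        exact hone y
      refine (lintegral_mono s2).trans (le_of_eq ?_)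
      rw [← lintegral_const_mul]
      · refine lintegral_congr fun y => ?_
        ring
      · exact mp.mul mψ
    · refine Measurable.aemeasurable ?_
      exact (mp.comp measurable_fst).mul
        ((mL.comp (measurable_fst.sub measurable_snd)).mul (mψ.comp measurable_snd))
  -- back to real numbers
  have r1 : ENNReal.ofReal (∫ x, P K φ x * P L ψ x)
      = ∫⁻ x, (∫⁻ z, kk K (x - z) * kk φ z) * (∫⁻ y, kk L (x - y) * kk ψ y) := by
    rw [ofReal_integral_eq_lintegral_ofReal i1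
      (Eventually.of_forall fun x => mul_nonneg (hPφ0 _) (hPψ0 _))]
    refine lintegral_congr fun x => ?_
    rw [ENNReal.ofReal_mul (hPφ0 _), ofReal_P hK hφ0 hφ2, ofReal_P hL hψ0 hψ2]
  have r2 : ENNReal.ofReal (∫ x, P K φ x * ψ x)
      = ∫⁻ y, (∫⁻ z, kk K (y - z) * kk φ z) * kk ψ y := by
    rw [ofReal_integral_eq_lintegral_ofReal i2
      (Eventually.of_forall fun x => mul_nonneg (hPφ0 _) (hψ0 _))]
    refine lintegral_congr fun x => ?_
    rw [ENNReal.ofReal_mul (hPφ0 _), ofReal_P hK hφ0 hφ2]; rfl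
  rw [← r1, ← r2, ← ENNReal.ofReal_mul hC] at hmain
  have hnn : 0 ≤ C * ∫ x, P K φ x * ψ x :=
    mul_nonneg hC (integral_nonneg fun x => mul_nonneg (hPφ0 _) (hψ0 _))
  exact (ENNReal.ofReal_le_ofReal_iff hnn).1 hmain

lemma ker_KK (hK : StmtKK) {ρ : ℝ} (hρ : 0 < ρ) : Ker (KK ρ) := by
  obtain ⟨h1, -, -, -⟩ := hK
  obtain ⟨hi, ho, hb⟩ := h1 ρ hρ
  refine ⟨hi, ho, fun x => (hb x).1.le, ⟨1 / ρ ^ 2, by positivity, fun x => (hb x).2⟩, ?_, ?_⟩
  · unfold KK
    fun_prop
  · intro x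
    unfold KK
    rw [norm_neg]

/-- the inequality for measurable functions -/
theorem core (hK : StmtKK) : ∃ C, 0 < C ∧ ∀ (A : Finset ℤ) (φ : ℤ → ℂ → ℝ),
    (∀ a ∈ A, (∀ x, 0 ≤ φ a x) ∧ MemLp (φ a) 2 volume ∧ Measurable (φ a)) →
    Integrable (fun x => (∑ a ∈ A, P (KK ((2 : ℝ) ^ (-a))) (φ a) x) ^ 2) ∧
    ∫ x, (∑ a ∈ A, P (KK ((2 : ℝ) ^ (-a))) (φ a) x) ^ 2 ≤ C * ∫ x, (∑ a ∈ A, φ a x) ^ 2 := by
  obtain ⟨C, hC, hconv⟩ := hK.2.1
  refine ⟨4 * C ^ 2, by positivity, fun A φ hφ => ?_⟩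
  set Q : ℤ → ℂ → ℝ := fun a => P (KK ((2 : ℝ) ^ (-a))) (φ a) with hQ
  have hker : ∀ a : ℤ, Ker (KK ((2 : ℝ) ^ (-a))) := fun a => ker_KK hK (by positivity)
  have hQ2 : ∀ a ∈ A, MemLp (Q a) 2 volume := fun a ha =>
    P_memLp (hker a) (hφ a ha).1 (hφ a ha).2.1 (hφ a ha).2.2
  have hQ0 : ∀ a ∈ A, ∀ x, 0 ≤ Q a x := fun a ha => P_nonneg (hker a) (hφ a ha).1
  have hS2 : MemLp (fun x => ∑ a ∈ A, Q a x) 2 volume := memLp_finset_sum A hQ2
  have hΦ2 : MemLp (fun x => ∑ a ∈ A, φ a x) 2 volume :=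
    memLp_finset_sum A fun a ha => (hφ a ha).2.1
  refine ⟨hS2.integrable_sq, ?_⟩
  -- two scales
  have hpair : ∀ a ∈ A, ∀ b ∈ A, a ≤ b → ∫ x, Q a x * Q b x ≤ C * ∫ x, Q a x * φ b x := by
    intro a ha b hb hab
    refine pair (hker a) (hker b) hC.le (fun x => ?_) (hφ a ha).1 (hφ a ha).2.1 (hφ a ha).2.2
      (hφ b hb).1 (hφ b hb).2.1 (hφ b hb).2.2
    refine hconv _ _ (by positivity) ?_ x
    exact zpow_le_zpow_right₀ (by norm_num) (by omega)
  have hI : ∀ a ∈ A, ∀ b ∈ A, 0 ≤ ∫ x, Q a x * φ b x := fun a ha b hb =>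
    integral_nonneg fun x => mul_nonneg (hQ0 a ha x) ((hφ b hb).1 x)
  have hpair' : ∀ a ∈ A, ∀ b ∈ A, ∫ x, Q a x * Q b x
      ≤ C * ((∫ x, Q a x * φ b x) + ∫ x, Q b x * φ a x) := by
    intro a ha b hb
    rcases le_total a b with hab | hab
    · have h1 := hpair a ha b hb hab
      have h2 := hI b hb a ha
      nlinarith
    · have h1 := hpair b hb a ha hab
      have h2 := hI a ha b hb
      have h3 : ∫ x, Q a x * Q b x = ∫ x, Q b x * Q a x :=
        integral_congr_ae (Eventually.of_forall fun x => mul_comm _ _)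
      rw [h3]
      nlinarith
  -- expand the square
  have iQQ : ∀ a ∈ A, ∀ b ∈ A, Integrable (fun x => Q a x * Q b x) := fun a ha b hb =>
    (hQ2 a ha).integrable_mul (hQ2 b hb)
  have iQφ : ∀ a ∈ A, ∀ b ∈ A, Integrable (fun x => Q a x * φ b x) := fun a ha b hb =>
    (hQ2 a ha).integrable_mul (hφ b hb).2.1
  have e1 : ∫ x, (∑ a ∈ A, Q a x) ^ 2 = ∑ a ∈ A, ∑ b ∈ A, ∫ x, Q a x * Q b x := by
    have : (fun x => (∑ a ∈ A, Q a x) ^ 2) = fun x => ∑ a ∈ A, ∑ b ∈ A, Q a x * Q b x := by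
      funext x
      rw [sq, Finset.sum_mul_sum]
    rw [this, integral_finset_sum]
    · refine Finset.sum_congr rfl fun a ha => ?_
      rw [integral_finset_sum]
      exact fun b hb => iQQ a ha b hb
    · exact fun a ha => integrable_finset_sum _ fun b hb => iQQ a ha b hb
  have e2 : ∫ x, (∑ a ∈ A, Q a x) * (∑ b ∈ A, φ b x) = ∑ a ∈ A, ∑ b ∈ A, ∫ x, Q a x * φ b x := by
    have : (fun x => (∑ a ∈ A, Q a x) * (∑ b ∈ A, φ b x))
        = fun x => ∑ a ∈ A, ∑ b ∈ A, Q a x * φ b x := by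
      funext x
      rw [Finset.sum_mul_sum]
    rw [this, integral_finset_sum]
    · refine Finset.sum_congr rfl fun a ha => ?_
      rw [integral_finset_sum]
      exact fun b hb => iQφ a ha b hb
    · exact fun a ha => integrable_finset_sum _ fun b hb => iQφ a ha b hb
  have e3 : ∑ a ∈ A, ∑ b ∈ A, ∫ x, Q b x * φ a x = ∑ a ∈ A, ∑ b ∈ A, ∫ x, Q a x * φ b x :=
    Finset.sum_comm
  have h1 : ∫ x, (∑ a ∈ A, Q a x) ^ 2 ≤ 2 * C * ∫ x, (∑ a ∈ A, Q a x) * (∑ b ∈ A, φ b x) := by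
    rw [e1, e2]
    calc ∑ a ∈ A, ∑ b ∈ A, ∫ x, Q a x * Q b x
        ≤ ∑ a ∈ A, ∑ b ∈ A, C * ((∫ x, Q a x * φ b x) + ∫ x, Q b x * φ a x) :=
          Finset.sum_le_sum fun a ha => Finset.sum_le_sum fun b hb => hpair' a ha b hb
      _ = C * ((∑ a ∈ A, ∑ b ∈ A, ∫ x, Q a x * φ b x)
            + ∑ a ∈ A, ∑ b ∈ A, ∫ x, Q b x * φ a x) := by
          rw [← Finset.sum_add_distrib, Finset.mul_sum]
          refine Finset.sum_congr rfl fun a _ => ?_
          rw [← Finset.sum_add_distrib, Finset.mul_sum]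
      _ = _ := by rw [e3]; ring
  have iSΦ : Integrable (fun x => (∑ a ∈ A, Q a x) * (∑ b ∈ A, φ b x)) := hS2.integrable_mul hΦ2
  have h2 : 2 * C * ∫ x, (∑ a ∈ A, Q a x) * (∑ b ∈ A, φ b x)
      ≤ (1 / 2) * (∫ x, (∑ a ∈ A, Q a x) ^ 2) + 2 * C ^ 2 * ∫ x, (∑ a ∈ A, φ a x) ^ 2 := by
    rw [← integral_const_mul, ← integral_const_mul, ← integral_const_mul, ← integral_add]
    · refine integral_mono (iSΦ.const_mul _) ((hS2.integrable_sq.const_mul _).add
        (hΦ2.integrable_sq.const_mul _)) fun x => ?_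
      simp only
      nlinarith [sq_nonneg ((∑ a ∈ A, Q a x) - 2 * C * ∑ a ∈ A, φ a x)]
    · exact hS2.integrable_sq.const_mul _
    · exact hΦ2.integrable_sq.const_mul _
  have h3 := h1.trans h2
  linarith

end DD

open DD in
/-- (DD) the dual Doob inequality -/
theorem dd (hK : StmtKK) : StmtDD := by
  obtain ⟨C, hC, h⟩ := core hK
  refine ⟨C, hC, fun A φ hφ => ?_⟩
  classical
  -- measurable versions
  have hex : ∀ a : ℤ, ∃ ψ : ℂ → ℝ, a ∈ A → ((∀ x, 0 ≤ ψ x) ∧ MemLp ψ 2 volume ∧ Measurable ψ) ∧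
      φ a =ᵐ[volume] ψ := by
    intro a
    by_cases ha : a ∈ A
    · obtain ⟨h0, h2⟩ := hφ a ha
      have hae := h2.1.ae_eq_mk
      refine ⟨fun x => max 0 (h2.1.mk (φ a) x), fun _ => ?_⟩
      have hE : φ a =ᵐ[volume] fun x => max 0 (h2.1.mk (φ a) x) := by
        filter_upwards [hae] with x hx
        rw [← hx, max_eq_right (h0 x)]
      refine ⟨⟨fun x => le_max_left _ _, h2.ae_eq hE, ?_⟩, hE⟩
      exact measurable_const.max h2.1.stronglyMeasurable_mk.measurable
    · exact ⟨fun _ => 0, fun hh => absurd hh ha⟩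
  choose ψ hψ using hex
  obtain ⟨i1, i2⟩ := h A ψ fun a ha => (hψ a ha).1
  have eP : ∀ x, ∑ a ∈ A, ∫ y, KK ((2 : ℝ) ^ (-a)) (x - y) * φ a y
      = ∑ a ∈ A, P (KK ((2 : ℝ) ^ (-a))) (ψ a) x := by
    intro x
    refine Finset.sum_congr rfl fun a ha => ?_
    refine integral_congr_ae ?_
    filter_upwards [(hψ a ha).2] with y hy
    rw [hy]
  have eS : ∫ x, (∑ a ∈ A, φ a x) ^ 2 = ∫ x, (∑ a ∈ A, ψ a x) ^ 2 := by
    refine integral_congr_ae ?_
    have : ∀ᵐ x ∂(volume : Measure ℂ), ∀ a ∈ A, φ a x = ψ a x :=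
      (Filter.eventually_all_finset A).2 fun a ha => (hψ a ha).2
    filter_upwards [this] with x hx
    rw [Finset.sum_congr rfl hx]
  simp only [eP, eS]
  exact ⟨i1, i2⟩

end Pool.Agent.Lib.MP_dd244f_an.Four
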