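import Mathlib
import Pool.Agent.Lib.MP_dd244f_an.Joint.Defs

/-!
Full operator, `p = 4`, `n → ∞`: definitions.
Everything is written on the Fourier side: `g` is the Fourier transform, `iF g` the function.
See the blueprint `dd244f_four_blueprint.md` in the team store.
-/

set_option autoImplicit false

namespace Pool.Agent.Lib.MP_dd244f_an.Four

open MeasureTheory Filter Topology
open Pool.Agent.Lib.MP_dd244f_an.Joint (st ct Mst)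

/-- the character `exp (2 π i ⟨x, ζ⟩)` -/
noncomputable def ch (x ζ : ℂ) : ℂ :=
  Complex.exp (2 * (Real.pi : ℂ) * Complex.I * ((x.re * ζ.re + x.im * ζ.im : ℝ) : ℂ))

/-- inverse Fourier transform -/
noncomputable def iF (g : ℂ → ℂ) (x : ℂ) : ℂ := ∫ ζ, ch x ζ * g ζ

/-- continuous with compact support -/
def CC (g : ℂ → ℂ) : Prop := Continuous g ∧ HasCompactSupport g

/-- `g` vanishes near `0` -/
def Z0 (g : ℂ → ℂ) : Prop := ∀ᶠ ζ in 𝓝 (0 : ℂ), g ζ = 0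

/-- fourth power of the `L^4` norm of `iF g` -/
noncomputable def N4 (g : ℂ → ℂ) : ℝ := ∫ x, ‖iF g x‖ ^ 4

/-- bilinear form with symbol `a` -/
noncomputable def bil (a : ℂ → ℂ) (g h : ℂ → ℂ) (θ : ℂ) : ℂ :=
  ∫ δ, a δ * (g (θ / 2 + δ) * h (θ / 2 - δ))

/-- Gaussian averages: the Fourier transform of
`x ↦ ∫ f₁ (x + y) f₂ (x - y) (2 / σ ^ 2) exp (- 2 π |y| ^ 2 / σ ^ 2) dy` -/
noncomputable def As (σ : ℝ) (g h : ℂ → ℂ) (θ : ℂ) : ℂ :=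
  bil (fun δ => (Real.exp (-(2 * Real.pi * σ ^ 2 * ‖δ‖ ^ 2)) : ℂ)) g h θ

/-- the Fourier multiplier of `T ^ n` -/
noncomputable def mm (n : ℕ) (ζ : ℂ) : ℂ := (starRingEnd ℂ ζ / ζ) ^ n

/-- multiplication by the symbol of `T ^ n` -/
noncomputable def mg (n : ℕ) (g : ℂ → ℂ) (ζ : ℂ) : ℂ := mm n ζ * g ζ

/-- multiplication by a real function -/
noncomputable def cut (χ : ℂ → ℝ) (g : ℂ → ℂ) (ζ : ℂ) : ℂ := (χ ζ : ℂ) * g ζ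

/-- low pass: `1` for `|ζ| ≤ 2 ^ a`, `0` for `|ζ| ≥ √2 * 2 ^ a` -/
noncomputable def lo (a : ℤ) (ζ : ℂ) : ℝ := 1 - ct ((2 : ℝ) ^ a) ζ

/-- difference of two low passes: frequencies between `2 ^ a` and `√2 * 2 ^ b` -/
noncomputable def bd (a b : ℤ) (ζ : ℂ) : ℝ := lo b ζ - lo a ζ

/-- the dyadic shell `2 ^ a ≤ |ζ| ≤ √2 * 2 ^ (a + 1)` -/
noncomputable def sh (a : ℤ) (ζ : ℂ) : ℝ := bd a (a + 1) ζ

/-- the averaging kernel -/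
noncomputable def KK (ρ : ℝ) (x : ℂ) : ℝ := ρ ^ 2 / (ρ ^ 2 + ‖x‖ ^ 2) ^ 2

/-- Laplacian -/
noncomputable def lap (a : ℂ → ℂ) (δ : ℂ) : ℂ :=
  fderiv ℝ (fun z => fderiv ℝ a z 1) δ 1 + fderiv ℝ (fun z => fderiv ℝ a z Complex.I) δ Complex.I

/-- weighted local energy at frequency `θ` -/
noncomputable def Om (N : ℝ) (g h : ℂ → ℂ) (θ : ℂ) : ℝ :=
  ∫ v, ‖bil (fun δ => ch v δ) g h θ‖ ^ 2 / (1 + ‖v‖ ^ 2 / N ^ 2) ^ 2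

/-- local average of `|f_a| ^ 2` -/
noncomputable def qa (a : ℤ) (g : ℂ → ℂ) (x : ℂ) : ℝ :=
  ∫ y, KK ((2 : ℝ) ^ (-a)) (x - y) * ‖iF (cut (sh a) g) y‖ ^ 2

/-- `Γ(1/4)/Γ(3/4)` -/
noncomputable def gam : ℝ := Real.Gamma (1 / 4) / Real.Gamma (3 / 4)

/-- mixed energy `∫ |iF g| ^ 2 |iF h| ^ 2` -/
noncomputable def N22 (g h : ℂ → ℂ) : ℝ := ∫ x, ‖iF g x‖ ^ 2 * ‖iF h x‖ ^ 2

/-- `g` is supported in `2 ^ (-R) ≤ |ζ| ≤ 2 ^ R` -/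
def Sup (R : ℕ) (g : ℂ → ℂ) : Prop :=
  ∀ ζ, g ζ ≠ 0 → (2 : ℝ) ^ (-(R : ℤ)) ≤ ‖ζ‖ ∧ ‖ζ‖ ≤ (2 : ℝ) ^ (R : ℤ)

/-- the interior frequencies of the block `[s, s + L)` -/
def Jset (s : ℤ) (L m : ℕ) : Set ℂ :=
  {θ | (2 : ℝ) ^ (s + m) ≤ ‖θ‖ ∧ ‖θ‖ ≤ (2 : ℝ) ^ (s + L - m + 2)}

/-- the window of the block `[s, s + L)` -/
noncomputable def win (n : ℕ) (Q : ℝ) (s : ℤ) (L : ℕ) : ℝ := Real.sqrt n / (Q * (2 : ℝ) ^ (s + L))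

end Pool.Agent.Lib.MP_dd244f_an.Four
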