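import Pool.Agent.Lib.MP_dd244f_an.Four.Jet

/-!
(Err) the error symbol is small.
-/

set_option autoImplicit false

namespace Pool.Agent.Lib.MP_dd244f_an.Four

open MeasureTheory Filter Topology

namespace ErrM

/-- scaled jet -/
abbrev JB (r : ℝ) (f : ℂ → ℂ) (δ : ℂ) (A : ℝ) : Prop := J f δ A (A * r) (A * r ^ 2)

lemma JB.mono {r : ℝ} {f : ℂ → ℂ} {δ : ℂ} {A B : ℝ} (hr : 0 ≤ r) (h : JB r f δ A) (hAB : A ≤ B) :
    JB r f δ B :=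
  J.mono h hAB (mul_le_mul_of_nonneg_right hAB hr)
    (mul_le_mul_of_nonneg_right hAB (sq_nonneg r))

lemma JB.add {r : ℝ} {f g : ℂ → ℂ} {δ : ℂ} {A B : ℝ} (h : JB r f δ A) (h' : JB r g δ B) :
    JB r (fun z => f z + g z) δ (A + B) :=
  J.mono (J.add h h') le_rfl (by linarith) (by linarith)

lemma JB.sub {r : ℝ} {f g : ℂ → ℂ} {δ : ℂ} {A B : ℝ} (h : JB r f δ A) (h' : JB r g δ B) :
    JB r (fun z => f z - g z) δ (A + B) :=
  J.mono (J.sub h h') le_rfl (by linarith) (by linarith)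

lemma JB.cmul {r : ℝ} {f : ℂ → ℂ} {δ : ℂ} {A : ℝ} (hr : 0 ≤ r) (h : JB r f δ A) {k : ℂ}
    (hk : ‖k‖ ≤ 1) : JB r (fun z => k * f z) δ A := by
  have hA := h.a0
  refine J.mono (J.const_mul h k) ?_ ?_ ?_
  · exact mul_le_of_le_one_left hA hk
  · exact mul_le_of_le_one_left (mul_nonneg hA hr) hk
  · exact mul_le_of_le_one_left (mul_nonneg hA (sq_nonneg r)) hk

lemma JB.zero {r : ℝ} {δ : ℂ} {A : ℝ} (hr : 0 ≤ r) (hA : 0 ≤ A) :
    JB r (fun _ => (0 : ℂ)) δ A := by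
  have h := J.const (δ := δ) 0
  refine J.mono h ?_ ?_ ?_
  · simpa using hA
  · exact mul_nonneg hA hr
  · exact mul_nonneg hA (sq_nonneg r)

/-- the cut-offs -/
lemma bd_jet {C : ℝ} (hMM : ∀ (n : ℕ) (a b : ℤ), a < b →
    ContDiff ℝ 2 (fun ζ => (bd a b ζ : ℂ) * mm n ζ) ∧
    HasCompactSupport (fun ζ => (bd a b ζ : ℂ) * mm n ζ) ∧
    ∀ ζ, ‖fderiv ℝ (fun ζ => (bd a b ζ : ℂ) * mm n ζ) ζ‖ ≤ C * (n + 1) / (2 : ℝ) ^ a ∧
    ‖lap (fun ζ => (bd a b ζ : ℂ) * mm n ζ) ζ‖ ≤ C * (n + 1) ^ 2 / ((2 : ℝ) ^ a) ^ 2)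
    {a b : ℤ} (hab : a < b) :
    ContDiff ℝ 2 (fun ζ => (bd a b ζ : ℂ)) ∧ HasCompactSupport (fun ζ => (bd a b ζ : ℂ)) ∧
    ∀ ζ, ‖fderiv ℝ (fun ζ => (bd a b ζ : ℂ)) ζ‖ ≤ C / (2 : ℝ) ^ a ∧
    ‖lap (fun ζ => (bd a b ζ : ℂ)) ζ‖ ≤ C / ((2 : ℝ) ^ a) ^ 2 := by
  have h := hMM 0 a b hab
  simpa [mm] using h

lemma bd_abs (hF : StmtFac) (a b : ℤ) (ζ : ℂ) : ‖(bd a b ζ : ℂ)‖ ≤ 1 := by
  rw [Complex.norm_real, Real.norm_eq_abs, abs_le]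
  have h1 := hF.1 a ζ
  have h2 := hF.1 b ζ
  unfold bd
  constructor <;> linarith

/-- the two translated cut-offs -/
lemma bd_trans (hL : StmtLap) (hF : StmtFac) {a b : ℤ} {B0 B1 : ℝ}
    (h1 : ContDiff ℝ 2 (fun ζ => (bd a b ζ : ℂ)))
    (h2 : ∀ ζ, ‖fderiv ℝ (fun ζ => (bd a b ζ : ℂ)) ζ‖ ≤ B0)
    (h3 : ∀ ζ, ‖lap (fun ζ => (bd a b ζ : ℂ)) ζ‖ ≤ B1) (θ δ : ℂ) :
    J (fun z => (bd a b (θ + z) : ℂ)) δ 1 B0 B1 ∧ J (fun z => (bd a b (θ - z) : ℂ)) δ 1 B0 B1 := by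
  obtain ⟨e1, e2, e3, e4⟩ := hL.2.1 _ θ δ h1
  refine ⟨⟨?_, bd_abs hF _ _ _, ?_, ?_⟩, ⟨?_, bd_abs hF _ _ _, ?_, ?_⟩⟩
  · exact (h1.comp (contDiff_const.add contDiff_id)).contDiffAt
  · rw [e3]
    exact h2 _
  · rw [e1]
    exact h3 _
  · exact (h1.comp (contDiff_const.sub contDiff_id)).contDiffAt
  · rw [e4]
    exact h2 _
  · rw [e2]
    exact h3 _

/-- Lipschitz bound -/
lemma bd_lip {a b : ℤ} {B0 : ℝ} (h1 : ContDiff ℝ 2 (fun ζ => (bd a b ζ : ℂ)))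
    (h2 : ∀ ζ, ‖fderiv ℝ (fun ζ => (bd a b ζ : ℂ)) ζ‖ ≤ B0) (x y : ℂ) :
    ‖(bd a b x : ℂ) - bd a b y‖ ≤ B0 * ‖x - y‖ := by
  have := Convex.norm_image_sub_le_of_norm_fderiv_le (𝕜 := ℝ) (s := Set.univ)
    (f := fun ζ => (bd a b ζ : ℂ)) (C := B0) (x := y) (y := x)
    (fun z _ => (h1.differentiable (by norm_num)).differentiableAt) (fun z _ => h2 z)
    convex_univ (Set.mem_univ _) (Set.mem_univ _)
  exact this

/-- chirp -/
noncomputable def Gc (n : ℕ) (q z : ℂ) : ℂ :=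
  Complex.exp (Complex.I * (((8 * n * z ^ 2 / q ^ 2 : ℂ)).im : ℂ))

lemma cs_eq (n : ℕ) (r : ℝ) {q : ℂ} (hq : q ≠ 0) (z : ℂ) :
    cs n r q z = ((Real.exp (-(2 * Real.pi * r ^ 2 * ‖z‖ ^ 2)) : ℝ) : ℂ) * Gc n q z := by
  unfold cs Gc
  rw [Complex.exp_add, Complex.ofReal_exp]
  congr 3
  have hq' : (‖q‖ : ℂ) ≠ 0 := by
    exact_mod_cast (norm_ne_zero_iff.2 hq)
  have hq2 : ‖q‖ ≠ 0 := norm_ne_zero_iff.2 hq
  have h1 : (8 * n * z ^ 2 / q ^ 2 : ℂ) =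
      ((8 * n / ‖q‖ ^ 2 : ℝ) : ℂ) * (z ^ 2 * (‖q‖ / q) ^ 2) := by
    push_cast
    field_simp
  rw [h1, Complex.im_ofReal_mul]

/-- relations between the parameters -/
structure P0 (Λ τ r S : ℝ) (n : ℕ) : Prop where
  r0 : 0 < r
  S0 : 0 < S
  Λ0 : 0 < Λ
  τ0 : 0 < τ
  hn : (n : ℝ) = Λ * r ^ 2 * S ^ 2
  hτ : τ * r * S = 1

lemma hasDeriv_H2 (n : ℕ) (q δ : ℂ) :
    HasDerivAt (fun z : ℂ => (8 * n * z ^ 2 / q ^ 2 : ℂ)) (16 * n * δ / q ^ 2) δ := by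
  have h := (((hasDerivAt_id δ).pow 2).const_mul (8 * n : ℂ)).div_const (q ^ 2)
  refine (h.congr_deriv ?_)
  simp
  ring

lemma an_H2 (n : ℕ) (q δ : ℂ) : AnalyticAt ℂ (fun z : ℂ => (8 * n * z ^ 2 / q ^ 2 : ℂ)) δ := by
  have h : Differentiable ℂ (fun z : ℂ => (8 * n * z ^ 2 / q ^ 2 : ℂ)) := fun z =>
    (hasDeriv_H2 n q z).differentiableAt
  exact h.analyticAt δ

variable {Λ τ r S : ℝ} {n : ℕ}

/-- the chirp -/
lemma J_Gc (hL : StmtLap) (h : P0 Λ τ r S n) {q : ℂ} (hq : S ≤ ‖q‖) (δ : ℂ) :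
    J (Gc n q) δ 1 (16 * Λ * (r * ‖δ‖) * r) ((16 * Λ * (r * ‖δ‖) * r) ^ 2) := by
  obtain ⟨r0, S0, Λ0, τ0, hn, hτ⟩ := h
  refine J_exp hL (an_H2 n q δ) ?_
  rw [(hasDeriv_H2 n q δ).deriv, norm_div, norm_mul, norm_mul, norm_pow]
  have h1 : ‖(16 : ℂ)‖ = 16 := by simp
  have h2 : ‖(n : ℂ)‖ = n := by simp
  rw [h1, h2, div_le_iff₀ (by nlinarith : (0 : ℝ) < ‖q‖ ^ 2), hn]
  have h3 : S ^ 2 ≤ ‖q‖ ^ 2 := pow_le_pow_left₀ S0.le hq 2
  have h4 : 0 ≤ 16 * Λ * (r * ‖δ‖) * r := by positivity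
  nlinarith [mul_le_mul_of_nonneg_left h3 h4]

lemma JB_Gc (hL : StmtLap) (h : P0 Λ τ r S n) {q : ℂ} (hq : S ≤ ‖q‖) (δ : ℂ) :
    JB r (Gc n q) δ (256 * (1 + Λ ^ 2) * (1 + (r * ‖δ‖) ^ 2)) := by
  have h1 := J_Gc hL h hq δ
  obtain ⟨r0, S0, Λ0, τ0, hn, hτ⟩ := h
  set x := r * ‖δ‖ with hx
  have hx0 : 0 ≤ x := by positivity
  refine h1.mono ?_ ?_ ?_
  · nlinarith [sq_nonneg x, sq_nonneg Λ, mul_nonneg (sq_nonneg x) (sq_nonneg Λ)]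
  · refine mul_le_mul_of_nonneg_right ?_ r0.le
    nlinarith [sq_nonneg (Λ - x), sq_nonneg x, sq_nonneg Λ, mul_nonneg (sq_nonneg x) (sq_nonneg Λ)]
  · rw [mul_pow]
    refine mul_le_mul_of_nonneg_right ?_ (sq_nonneg r)
    nlinarith [sq_nonneg x, sq_nonneg Λ, mul_nonneg (sq_nonneg x) (sq_nonneg Λ)]

/-- the Gaussian -/
lemma JB_G (hL : StmtLap) (r0 : 0 < r) (δ : ℂ) :
    JB r (fun z => ((Real.exp (-(2 * Real.pi * r ^ 2 * ‖z‖ ^ 2)) : ℝ) : ℂ)) δ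
      (256 * (1 + (r * ‖δ‖) ^ 2) * Real.exp (-(2 * Real.pi * (r * ‖δ‖) ^ 2))) := by
  have hpi := Real.pi_pos
  have hpi4 := Real.pi_le_four
  have h1 := J_gauss hL (r := 2 * Real.pi * r ^ 2) (by positivity) δ
  have he : Real.exp (-(2 * Real.pi * r ^ 2 * ‖δ‖ ^ 2)) =
      Real.exp (-(2 * Real.pi * (r * ‖δ‖) ^ 2)) := by
    congr 1
    ring
  rw [he] at h1
  set x := r * ‖δ‖ with hx
  have hx0 : 0 ≤ x := by positivity
  have e0 := (Real.exp_pos (-(2 * Real.pi * x ^ 2))).le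
  set e := Real.exp (-(2 * Real.pi * x ^ 2))
  refine h1.mono ?_ ?_ ?_
  · nlinarith [mul_nonneg (sq_nonneg x) e0]
  · have : 2 * (2 * Real.pi * r ^ 2) * ‖δ‖ * e = (4 * Real.pi * x) * e * r := by
      rw [hx]; ring
    rw [this]
    refine mul_le_mul_of_nonneg_right (mul_le_mul_of_nonneg_right ?_ e0) r0.le
    nlinarith [sq_nonneg (x - 1), mul_le_mul_of_nonneg_right hpi4 hx0]
  · have : (4 * (2 * Real.pi * r ^ 2) ^ 2 * ‖δ‖ ^ 2 + 4 * (2 * Real.pi * r ^ 2)) * e =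
        (16 * Real.pi ^ 2 * x ^ 2 + 8 * Real.pi) * e * r ^ 2 := by
      rw [hx]; ring
    rw [this]
    refine mul_le_mul_of_nonneg_right (mul_le_mul_of_nonneg_right ?_ e0) (sq_nonneg r)
    have h2 : Real.pi ^ 2 ≤ 16 := by nlinarith
    nlinarith [mul_le_mul_of_nonneg_right h2 (sq_nonneg x)]

/-- the product of the two symbols -/
lemma JB_P (hM2 : StmtMM2) (h : P0 Λ τ r S n) {θ δ : ℂ} (h1 : S ≤ ‖θ / 2 + δ‖)
    (h2 : S ≤ ‖θ / 2 - δ‖) (hθ : θ ≠ 0) :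
    JB r (fun z => E2 n θ z / mm n (θ / 2) ^ 2) δ
      (256 * (1 + Λ ^ 2) * (1 + (r * ‖δ‖) ^ 2)) := by
  obtain ⟨r0, S0, Λ0, τ0, hn, hτ⟩ := h
  have n1 : θ / 2 + δ ≠ 0 := norm_pos_iff.1 (S0.trans_le h1)
  have n2 : θ / 2 - δ ≠ 0 := norm_pos_iff.1 (S0.trans_le h2)
  obtain ⟨-, k1, -, k2, -, -, k3, k4, -, -⟩ := hM2 n θ δ n1 n2
  have hJ : J (E2 n θ) δ 1 (4 * Λ * (r * ‖δ‖) * r) (16 * Λ ^ 2 * (r * ‖δ‖) ^ 2 * r ^ 2) := by
    have hp : S ^ 2 ≤ ‖θ / 2 + δ‖ * ‖θ / 2 - δ‖ := by nlinarith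
    have hS2 : 0 < S ^ 2 := by positivity
    refine ⟨k1, k2.le, k3.trans ?_, k4.trans ?_⟩
    · rw [div_le_iff₀ (by linarith), hn]
      have h4 : 0 ≤ 4 * Λ * (r * ‖δ‖) * r := by positivity
      nlinarith [mul_le_mul_of_nonneg_left hp h4]
    · have hp2 : (S ^ 2) ^ 2 ≤ (‖θ / 2 + δ‖ * ‖θ / 2 - δ‖) ^ 2 :=
        pow_le_pow_left₀ hS2.le hp 2
      rw [div_le_iff₀ (by nlinarith [sq_nonneg (S ^ 2), pow_pos hS2 2]), hn]
      have h4 : 0 ≤ 16 * Λ ^ 2 * (r * ‖δ‖) ^ 2 * r ^ 2 := by positivity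
      nlinarith [mul_le_mul_of_nonneg_left hp2 h4]
  have hm : ‖(mm n (θ / 2) ^ 2)⁻¹‖ ≤ 1 := by
    have h5 : θ / 2 ≠ 0 := by simpa using hθ
    have : ‖mm n (θ / 2)‖ = 1 := by
      unfold mm
      rw [norm_pow, norm_div, RCLike.norm_conj, div_self (norm_ne_zero_iff.2 h5), one_pow]
    rw [norm_inv, norm_pow, this]
    norm_num
  have hJ' : JB r (E2 n θ) δ (256 * (1 + Λ ^ 2) * (1 + (r * ‖δ‖) ^ 2)) := by
    set x := r * ‖δ‖ with hx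
    have hx0 : 0 ≤ x := by positivity
    refine hJ.mono ?_ ?_ ?_
    · nlinarith [sq_nonneg x, sq_nonneg Λ, mul_nonneg (sq_nonneg x) (sq_nonneg Λ)]
    · refine mul_le_mul_of_nonneg_right ?_ r0.le
      nlinarith [sq_nonneg (Λ - x), sq_nonneg x, sq_nonneg Λ,
        mul_nonneg (sq_nonneg x) (sq_nonneg Λ)]
    · refine mul_le_mul_of_nonneg_right ?_ (sq_nonneg r)
      nlinarith [sq_nonneg x, sq_nonneg Λ, mul_nonneg (sq_nonneg x) (sq_nonneg Λ)]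
  have := JB.cmul r0.le hJ' hm
  refine J.congr this (Eventually.of_forall fun z => ?_)
  show E2 n θ z / mm n (θ / 2) ^ 2 = (mm n (θ / 2) ^ 2)⁻¹ * E2 n θ z
  rw [div_eq_inv_mul]

/-- the holomorphic phase of `E2` -/
noncomputable def H1 (n : ℕ) (θ z : ℂ) : ℂ := -(2 * n) * Complex.log (1 - 4 * z ^ 2 / θ ^ 2)

lemma hasDeriv_H1 (n : ℕ) (θ δ : ℂ) (hu : ‖4 * δ ^ 2 / θ ^ 2‖ ≤ 1 / 2) :
    HasDerivAt (H1 n θ) (16 * n * δ / (θ ^ 2 * (1 - 4 * δ ^ 2 / θ ^ 2))) δ := by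
  have h0 : HasDerivAt (fun z : ℂ => 1 - 4 * z ^ 2 / θ ^ 2) (-(8 * δ / θ ^ 2)) δ := by
    have h := ((((hasDerivAt_id δ).pow 2).const_mul (4 : ℂ)).div_const (θ ^ 2)).const_sub 1
    refine (h.congr_deriv ?_)
    simp
    ring
  have hs : 1 - 4 * δ ^ 2 / θ ^ 2 ∈ Complex.slitPlane := by
    rw [Complex.mem_slitPlane_iff]
    left
    have h1 := (Complex.abs_re_le_norm (4 * δ ^ 2 / θ ^ 2)).trans hu
    rw [abs_le] at h1
    rw [Complex.sub_re, Complex.one_re]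
    linarith [h1.2]
  have h1 := (h0.clog hs).const_mul (-(2 * n) : ℂ)
  refine h1.congr_deriv ?_
  have hne := Complex.slitPlane_ne_zero hs
  by_cases hθ : θ = 0
  · subst hθ
    simp
  field_simp
  ring

lemma an_H1 (n : ℕ) (θ δ : ℂ) (hu : ‖4 * δ ^ 2 / θ ^ 2‖ ≤ 1 / 2) :
    AnalyticAt ℂ (H1 n θ) δ := by
  have h0 : AnalyticAt ℂ (fun z : ℂ => 1 - 4 * z ^ 2 / θ ^ 2) δ := by
    have : Differentiable ℂ (fun z : ℂ => 1 - 4 * z ^ 2 / θ ^ 2) := by fun_prop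
    exact this.analyticAt δ
  have hs : 1 - 4 * δ ^ 2 / θ ^ 2 ∈ Complex.slitPlane := by
    rw [Complex.mem_slitPlane_iff]
    left
    have h1 := (Complex.abs_re_le_norm (4 * δ ^ 2 / θ ^ 2)).trans hu
    rw [abs_le] at h1
    rw [Complex.sub_re, Complex.one_re]
    linarith [h1.2]
  exact analyticAt_const.mul (h0.clog hs)

/-- the difference of the phases -/
lemma phase (h : P0 Λ τ r S n) {θ q δ : ℂ} {η X0 : ℝ} (hθ : 16 * S ≤ ‖θ‖) (hη : 0 < η)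
    (hη1 : η < 1) (hq : ‖q - θ‖ ≤ η * S) (hX : 1 ≤ X0) (hx : r * ‖δ‖ ≤ X0) (hτ1 : X0 * τ ≤ 1) :
    ‖4 * δ ^ 2 / θ ^ 2‖ ≤ 1 / 2 ∧
    ‖H1 n θ δ - 8 * n * δ ^ 2 / q ^ 2‖ ≤ 32 * Λ * X0 ^ 4 * (τ + η) ∧
    ‖16 * n * δ / (θ ^ 2 * (1 - 4 * δ ^ 2 / θ ^ 2)) - 16 * n * δ / q ^ 2‖
      ≤ 32 * Λ * X0 ^ 4 * (τ + η) * r := by
  obtain ⟨r0, S0, Λ0, τ0, hn, hτ⟩ := h
  set x := r * ‖δ‖ with hxd
  have hx0 : 0 ≤ x := by positivity
  have hθ0 : θ ≠ 0 := norm_pos_iff.1 (lt_of_lt_of_le (by positivity) hθ)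
  have hqS : 15 * S ≤ ‖q‖ := by
    have h1 := norm_sub_norm_le θ q
    rw [norm_sub_rev] at h1
    nlinarith
  have hq0 : q ≠ 0 := norm_pos_iff.1 (lt_of_lt_of_le (by positivity) hqS)
  have hnn : (0 : ℝ) ≤ n := Nat.cast_nonneg n
  -- `‖δ‖ = x τ S`
  have hδ : ‖δ‖ = x * τ * S := by
    rw [hxd]
    linear_combination (-‖δ‖) * hτ
  have hτ' : τ ≤ 1 := by nlinarith
  have hxτ : x * τ ≤ 1 := le_trans (mul_le_mul_of_nonneg_right hx τ0.le) hτ1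
  have hxτ0 : 0 ≤ x * τ := by positivity
  -- `u`
  have hu : ‖4 * δ ^ 2 / θ ^ 2‖ ≤ (x * τ) ^ 2 / 64 := by
    rw [norm_div, norm_mul, norm_pow, norm_pow]
    have h4 : ‖(4 : ℂ)‖ = 4 := by simp
    rw [h4, div_le_iff₀ (by positivity), hδ]
    have h1 : (16 * S) ^ 2 ≤ ‖θ‖ ^ 2 := pow_le_pow_left₀ (by positivity) hθ 2
    nlinarith [mul_le_mul_of_nonneg_left h1 (sq_nonneg (x * τ))]
  have hu2 : ‖4 * δ ^ 2 / θ ^ 2‖ ≤ 1 / 2 := by
    refine hu.trans ?_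
    nlinarith
  -- the difference of the inverse squares
  have hinv : ‖1 / θ ^ 2 - 1 / q ^ 2‖ ≤ 2 * η / S ^ 2 := by
    have h1 : 1 / θ ^ 2 - 1 / q ^ 2 = (q - θ) * (1 / (θ ^ 2 * q) + 1 / (θ * q ^ 2)) := by
      field_simp
      ring
    rw [h1, norm_mul]
    have h2 : ‖1 / (θ ^ 2 * q)‖ ≤ 1 / S ^ 3 := by
      rw [norm_div, norm_one, norm_mul, norm_pow]
      apply one_div_le_one_div_of_le (by positivity)
      have : S ^ 2 ≤ ‖θ‖ ^ 2 := pow_le_pow_left₀ S0.le (by linarith) 2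
      calc S ^ 3 = S ^ 2 * S := by ring
        _ ≤ ‖θ‖ ^ 2 * ‖q‖ := mul_le_mul this (by linarith) S0.le (by positivity)
    have h3 : ‖1 / (θ * q ^ 2)‖ ≤ 1 / S ^ 3 := by
      rw [norm_div, norm_one, norm_mul, norm_pow]
      apply one_div_le_one_div_of_le (by positivity)
      have : S ^ 2 ≤ ‖q‖ ^ 2 := pow_le_pow_left₀ S0.le (by linarith) 2
      calc S ^ 3 = S * S ^ 2 := by ring
        _ ≤ ‖θ‖ * ‖q‖ ^ 2 := mul_le_mul (by linarith) this (by positivity) (by positivity)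
    calc ‖q - θ‖ * ‖1 / (θ ^ 2 * q) + 1 / (θ * q ^ 2)‖
        ≤ (η * S) * (1 / S ^ 3 + 1 / S ^ 3) :=
          mul_le_mul hq ((norm_add_le _ _).trans (add_le_add h2 h3)) (norm_nonneg _)
            (by positivity)
      _ = 2 * η / S ^ 2 := by
          field_simp
          ring
  have hX4 : x ^ 4 ≤ X0 ^ 4 := pow_le_pow_left₀ hx0 hx 4
  have hX2 : x ^ 2 ≤ X0 ^ 2 := pow_le_pow_left₀ hx0 hx 2
  have hX3 : x ^ 3 ≤ X0 ^ 3 := pow_le_pow_left₀ hx0 hx 3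
  have hXm : X0 ^ 2 ≤ X0 ^ 4 := pow_le_pow_right₀ hX (by norm_num)
  have hXm3 : X0 ^ 3 ≤ X0 ^ 4 := pow_le_pow_right₀ hX (by norm_num)
  have hXm1 : X0 ≤ X0 ^ 4 := by
    calc X0 = X0 ^ 1 := (pow_one _).symm
      _ ≤ _ := pow_le_pow_right₀ hX (by norm_num)
  refine ⟨hu2, ?_, ?_⟩
  · have h1 : H1 n θ δ - 8 * n * δ ^ 2 / q ^ 2 =
        -(2 * n) * (Complex.log (1 + -(4 * δ ^ 2 / θ ^ 2)) - -(4 * δ ^ 2 / θ ^ 2)) +
          8 * n * δ ^ 2 * (1 / θ ^ 2 - 1 / q ^ 2) := by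
      unfold H1
      rw [← sub_eq_add_neg]
      ring
    rw [h1]
    have h2 : ‖Complex.log (1 + -(4 * δ ^ 2 / θ ^ 2)) - -(4 * δ ^ 2 / θ ^ 2)‖ ≤
        ((x * τ) ^ 2) ^ 2 := by
      refine (Complex.norm_log_one_add_sub_self_le (by rw [norm_neg]; linarith)).trans ?_
      rw [norm_neg]
      set u := ‖4 * δ ^ 2 / θ ^ 2‖
      have hu0 : 0 ≤ u := norm_nonneg _
      have h3 : (1 - u)⁻¹ ≤ 2 := by
        rw [inv_le_comm₀ (by linarith) two_pos]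
        linarith
      have h4 : u ^ 2 ≤ ((x * τ) ^ 2) ^ 2 := by
        refine pow_le_pow_left₀ hu0 (hu.trans ?_) 2
        nlinarith [sq_nonneg (x * τ)]
      calc u ^ 2 * (1 - u)⁻¹ / 2 ≤ u ^ 2 * 2 / 2 := by
            have := mul_le_mul_of_nonneg_left h3 (sq_nonneg u)
            linarith
        _ = u ^ 2 := by ring
        _ ≤ _ := h4
    have h5 : ‖-(2 * n : ℂ)‖ = 2 * n := by simp
    have h6 : ‖(8 * n * δ ^ 2 : ℂ)‖ = 8 * n * ‖δ‖ ^ 2 := by simp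
    refine (norm_add_le _ _).trans ?_
    rw [norm_mul, norm_mul, h5, h6]
    have h7 : 2 * n * ‖Complex.log (1 + -(4 * δ ^ 2 / θ ^ 2)) - -(4 * δ ^ 2 / θ ^ 2)‖ ≤
        2 * Λ * x ^ 4 * τ ^ 2 := by
      calc 2 * n * ‖Complex.log (1 + -(4 * δ ^ 2 / θ ^ 2)) - -(4 * δ ^ 2 / θ ^ 2)‖
          ≤ 2 * n * ((x * τ) ^ 2) ^ 2 := mul_le_mul_of_nonneg_left h2 (by positivity)
        _ = 2 * Λ * x ^ 4 * τ ^ 2 * (τ * r * S) ^ 2 := by rw [hn]; ring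
        _ = _ := by rw [hτ]; ring
    have h8 : 8 * n * ‖δ‖ ^ 2 * ‖1 / θ ^ 2 - 1 / q ^ 2‖ ≤ 16 * Λ * x ^ 2 * η := by
      calc 8 * n * ‖δ‖ ^ 2 * ‖1 / θ ^ 2 - 1 / q ^ 2‖
          ≤ 8 * n * ‖δ‖ ^ 2 * (2 * η / S ^ 2) := mul_le_mul_of_nonneg_left hinv (by positivity)
        _ = 16 * Λ * x ^ 2 * η := by
            rw [hn, hxd]
            field_simp
            ring
    have h9 : x ^ 4 * τ ^ 2 ≤ X0 ^ 4 * τ := by
      have : τ ^ 2 ≤ τ := by nlinarith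
      exact mul_le_mul hX4 this (by positivity) (by positivity)
    have h10 : x ^ 2 * η ≤ X0 ^ 4 * η := mul_le_mul_of_nonneg_right (hX2.trans hXm) hη.le
    have h11 : 0 ≤ Λ * (X0 ^ 4 * τ) := by positivity
    have h12 : 0 ≤ Λ * (X0 ^ 4 * η) := by positivity
    nlinarith [mul_le_mul_of_nonneg_left h9 Λ0.le, mul_le_mul_of_nonneg_left h10 Λ0.le]
  · set u : ℂ := 4 * δ ^ 2 / θ ^ 2 with hud
    have hu1 : 1 - u ≠ 0 := by
      intro h0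
      have h1 : u = 1 := by linear_combination -h0
      rw [h1, norm_one] at hu2
      norm_num at hu2
    have h1 : 16 * n * δ / (θ ^ 2 * (1 - u)) - 16 * n * δ / q ^ 2 =
        16 * n * δ * (1 / θ ^ 2 * (u / (1 - u)) + (1 / θ ^ 2 - 1 / q ^ 2)) := by
      have hd1 : u / (1 - u) = 1 / (1 - u) - 1 := by
        field_simp
        ring
      rw [hd1]
      field_simp
      ring
    have h2 : ‖u / (1 - u)‖ ≤ (x * τ) ^ 2 := by
      rw [norm_div]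
      have h3 : 1 / 2 ≤ ‖1 - u‖ := by
        have := norm_sub_norm_le (1 : ℂ) u
        rw [norm_one] at this
        linarith
      rw [div_le_iff₀ (by linarith)]
      have h4 : 0 ≤ (x * τ) ^ 2 := sq_nonneg _
      nlinarith
    have h3 : ‖1 / θ ^ 2‖ ≤ 1 / S ^ 2 := by
      rw [norm_div, norm_one, norm_pow]
      apply one_div_le_one_div_of_le (by positivity)
      exact pow_le_pow_left₀ S0.le (by linarith) 2
    have h6 : ‖(16 * n * δ : ℂ)‖ = 16 * n * ‖δ‖ := by simp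
    rw [h1, norm_mul, h6]
    calc 16 * n * ‖δ‖ * ‖1 / θ ^ 2 * (u / (1 - u)) + (1 / θ ^ 2 - 1 / q ^ 2)‖
        ≤ 16 * n * ‖δ‖ * (1 / S ^ 2 * (x * τ) ^ 2 + 2 * η / S ^ 2) := by
          refine mul_le_mul_of_nonneg_left ?_ (by positivity)
          refine (norm_add_le _ _).trans (add_le_add ?_ hinv)
          rw [norm_mul]
          exact mul_le_mul h3 h2 (norm_nonneg _) (by positivity)
      _ = 16 * Λ * (x ^ 3 * τ ^ 2 + 2 * x * η) * r := by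
          rw [hn, hxd]
          field_simp
      _ ≤ 32 * Λ * X0 ^ 4 * (τ + η) * r := by
          refine mul_le_mul_of_nonneg_right ?_ r0.le
          have h9 : x ^ 3 * τ ^ 2 ≤ X0 ^ 4 * τ := by
            have : τ ^ 2 ≤ τ := by nlinarith
            exact mul_le_mul (hX3.trans hXm3) this (by positivity) (by positivity)
          have h10 : x * η ≤ X0 ^ 4 * η := mul_le_mul_of_nonneg_right (hx.trans hXm1) hη.le
          have h11 : 0 ≤ Λ * (X0 ^ 4 * τ) := by positivity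
          nlinarith [mul_le_mul_of_nonneg_left h9 Λ0.le, mul_le_mul_of_nonneg_left h10 Λ0.le]

/-- product of two cut-offs -/
noncomputable def KKp (a b : ℤ) (θ z : ℂ) : ℂ :=
  (bd a b (θ / 2 + z) : ℂ) * (bd a b (θ / 2 - z) : ℂ)

/-- the Gaussian -/
noncomputable def Gs (r : ℝ) (z : ℂ) : ℂ :=
  ((Real.exp (-(2 * Real.pi * r ^ 2 * ‖z‖ ^ 2)) : ℝ) : ℂ)

/-- the normalised product of the symbols -/
noncomputable def Pp (n : ℕ) (θ z : ℂ) : ℂ := E2 n θ z / mm n (θ / 2) ^ 2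

lemma Es_eq (n : ℕ) (r : ℝ) (s : ℤ) (L m : ℕ) (θ : ℂ) {q : ℂ} (hq : q ≠ 0) :
    Es n r s L m θ q = fun z => KKp (s - 1) (s + L + 1) θ z * (Gs r z *
      (KKp (s + m) (s + L - m) θ z * Pp n θ z -
        ((bd (s + m) (s + L - m) (q / 2) ^ 2 : ℝ) : ℂ) * Gc n q z)) := by
  funext z
  unfold Es KKp Gs Pp
  rw [cs_eq n r hq]
  push_cast
  ring

lemma bd_zero (hF : StmtFac) {a b : ℤ} (hab : a ≤ b) {ζ : ℂ} (h : ‖ζ‖ ≤ (2 : ℝ) ^ a) :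
    bd a b ζ = 0 := by
  unfold bd
  rw [hF.2.1 a ζ h, hF.2.1 b ζ (h.trans (zpow_le_zpow_right₀ (by norm_num) hab)), sub_self]

/-- bounds for the cut-offs -/
structure BH (a b : ℤ) (B0 B1 : ℝ) : Prop where
  h1 : ContDiff ℝ 2 (fun ζ => (bd a b ζ : ℂ))
  h2 : ∀ ζ, ‖fderiv ℝ (fun ζ => (bd a b ζ : ℂ)) ζ‖ ≤ B0
  h3 : ∀ ζ, ‖lap (fun ζ => (bd a b ζ : ℂ)) ζ‖ ≤ B1

lemma J_KKp (hL : StmtLap) (hF : StmtFac) {a b : ℤ} {B0 B1 : ℝ} (h : BH a b B0 B1) (θ δ : ℂ) :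
    J (KKp a b θ) δ 1 (2 * B0) (2 * B1 + 4 * B0 ^ 2) := by
  obtain ⟨h1, h2⟩ := bd_trans hL hF h.h1 h.h2 h.h3 (θ / 2) δ
  refine (h1.mul h2).mono ?_ ?_ ?_
  · norm_num
  · linarith
  · linarith

section main

variable (hL : StmtLap) (hM2 : StmtMM2) (hF : StmtFac) {C : ℝ} (hC : 0 < C)
  (hp : P0 Λ τ r S n) (hτ1 : τ ≤ 1) {a b a' b' : ℤ} (hab : a ≤ b) (haS : S ≤ (2 : ℝ) ^ a)
  (hκ : BH a b (C * τ * r) (C * τ ^ 2 * r ^ 2))
  (hχ : BH a' b' (2 * C * τ * r) (4 * C * τ ^ 2 * r ^ 2))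

/-- the symbol -/
noncomputable def Sy (n : ℕ) (r : ℝ) (a b a' b' : ℤ) (θ q z : ℂ) : ℂ :=
  KKp a' b' θ z * (Gs r z * (KKp a b θ z * Pp n θ z -
        ((bd a b (q / 2) ^ 2 : ℝ) : ℂ) * Gc n q z))

include hL hF hC hp hτ1 hχ in
lemma JB_chi (θ δ : ℂ) : JB r (KKp a' b' θ) δ (1 + 8 * C + 16 * C ^ 2) := by
  obtain ⟨r0, S0, Λ0, τ0, hn, hτ⟩ := hp
  have hτ2 : τ ^ 2 ≤ 1 := by nlinarith
  refine (J_KKp hL hF hχ θ δ).mono ?_ ?_ ?_
  · nlinarith [sq_nonneg C]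
  · have : 2 * (2 * C * τ * r) = (4 * C) * τ * r := by ring
    rw [this]
    refine mul_le_mul_of_nonneg_right ?_ r0.le
    nlinarith [sq_nonneg C, mul_le_mul_of_nonneg_left hτ1 hC.le]
  · have : 2 * (4 * C * τ ^ 2 * r ^ 2) + 4 * (2 * C * τ * r) ^ 2 =
        ((8 * C + 16 * C ^ 2) * τ ^ 2) * r ^ 2 := by ring
    rw [this]
    refine mul_le_mul_of_nonneg_right ?_ (sq_nonneg r)
    have h0 : 0 ≤ 8 * C + 16 * C ^ 2 := by positivity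
    nlinarith [mul_le_mul_of_nonneg_left hτ2 h0]

include hL hF hC hp hτ1 hκ in
lemma JB_kap (θ δ : ℂ) : JB r (KKp a b θ) δ (1 + 8 * C + 16 * C ^ 2) := by
  obtain ⟨r0, S0, Λ0, τ0, hn, hτ⟩ := hp
  have hτ2 : τ ^ 2 ≤ 1 := by nlinarith
  refine (J_KKp hL hF hκ θ δ).mono ?_ ?_ ?_
  · nlinarith [sq_nonneg C]
  · have : 2 * (C * τ * r) = (2 * C) * τ * r := by ring
    rw [this]
    refine mul_le_mul_of_nonneg_right ?_ r0.le
    nlinarith [sq_nonneg C, mul_le_mul_of_nonneg_left hτ1 hC.le]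
  · have : 2 * (C * τ ^ 2 * r ^ 2) + 4 * (C * τ * r) ^ 2 =
        ((2 * C + 4 * C ^ 2) * τ ^ 2) * r ^ 2 := by ring
    rw [this]
    refine mul_le_mul_of_nonneg_right ?_ (sq_nonneg r)
    have h0 : 0 ≤ 2 * C + 4 * C ^ 2 := by positivity
    nlinarith [mul_le_mul_of_nonneg_left hτ2 h0, sq_nonneg C]

include hL hM2 hF hC hp hτ1 hab haS hκ in
lemma JB_kP {θ : ℂ} (hθ : θ ≠ 0) (δ : ℂ) : JB r (fun z => KKp a b θ z * Pp n θ z) δ
    (6 * (1 + 8 * C + 16 * C ^ 2) * (256 * (1 + Λ ^ 2) * (1 + (r * ‖δ‖) ^ 2))) := by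
  have r0 := hp.r0
  have hzero : (∀ᶠ z in 𝓝 δ, KKp a b θ z = 0) → JB r (fun z => KKp a b θ z * Pp n θ z) δ
      (6 * (1 + 8 * C + 16 * C ^ 2) * (256 * (1 + Λ ^ 2) * (1 + (r * ‖δ‖) ^ 2))) := by
    intro h
    have h1 : (fun z => KKp a b θ z * Pp n θ z) =ᶠ[𝓝 δ] fun _ => (0 : ℂ) := by
      filter_upwards [h] with z hz
      rw [hz, zero_mul]
    exact J.congr (JB.zero r0.le (by positivity)) h1
  by_cases c1 : ‖θ / 2 + δ‖ < (2 : ℝ) ^ a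
  · apply hzero
    have : ∀ᶠ z in 𝓝 δ, ‖θ / 2 + z‖ < (2 : ℝ) ^ a :=
      (continuous_const.add continuous_id).norm.continuousAt.eventually_lt continuousAt_const c1
    filter_upwards [this] with z hz
    unfold KKp
    rw [bd_zero hF hab hz.le]
    simp
  by_cases c2 : ‖θ / 2 - δ‖ < (2 : ℝ) ^ a
  · apply hzero
    have : ∀ᶠ z in 𝓝 δ, ‖θ / 2 - z‖ < (2 : ℝ) ^ a :=
      (continuous_const.sub continuous_id).norm.continuousAt.eventually_lt continuousAt_const c2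
    filter_upwards [this] with z hz
    unfold KKp
    rw [bd_zero hF hab hz.le]
    simp
  · exact J.mulB r0.le (JB_kap hL hF hC hp hτ1 hκ θ δ)
      (JB_P hM2 hp (haS.trans (not_lt.1 c1)) (haS.trans (not_lt.1 c2)) hθ)

lemma kq_le (hF : StmtFac) (a b : ℤ) (q : ℂ) : ‖((bd a b (q / 2) ^ 2 : ℝ) : ℂ)‖ ≤ 1 := by
  have h := bd_abs hF a b (q / 2)
  rw [Complex.norm_real] at h ⊢
  rw [norm_pow]
  exact pow_le_one₀ (norm_nonneg _) h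

include hL hM2 hF hC hp hτ1 hab haS hκ hχ in
/-- global bound -/
lemma far {θ q : ℂ} (hθ : θ ≠ 0) (hq : S ≤ ‖q‖) (δ : ℂ) : JB r (Sy n r a b a' b' θ q) δ
    (6 * (1 + 8 * C + 16 * C ^ 2) *
      (6 * (256 * (1 + (r * ‖δ‖) ^ 2) * Real.exp (-(2 * Real.pi * (r * ‖δ‖) ^ 2))) *
      (6 * (1 + 8 * C + 16 * C ^ 2) * (256 * (1 + Λ ^ 2) * (1 + (r * ‖δ‖) ^ 2)) +
        256 * (1 + Λ ^ 2) * (1 + (r * ‖δ‖) ^ 2)))) := by
  have r0 := hp.r0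
  have h1 := JB_kP hL hM2 hF hC hp hτ1 hab haS hκ hθ δ
  have h2 := JB.cmul r0.le (JB_Gc hL hp hq δ) (kq_le hF a b q)
  have h3 := JB.sub h1 h2
  exact J.mulB r0.le (JB_chi hL hF hC hp hτ1 hχ θ δ) (J.mulB r0.le (JB_G hL r0 δ) h3)

include hL hM2 hF hC hp hτ1 hκ hχ in
/-- the bound near the origin -/
lemma near {θ q δ : ℂ} {η X0 : ℝ} (hθ : 16 * S ≤ ‖θ‖) (hη : 0 < η)
    (hη1 : η < 1) (hq : ‖q - θ‖ ≤ η * S) (hX : 1 ≤ X0) (hx : r * ‖δ‖ ≤ X0) (hXτ : X0 * τ ≤ 1)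
    (hd1 : 32 * Λ * X0 ^ 4 * (τ + η) ≤ 1) : JB r (Sy n r a b a' b' θ q) δ
    (6 * (1 + 8 * C + 16 * C ^ 2) * (6 * (256 * (1 + X0 ^ 2)) *
      (6 * ((2 * C + 4 * C ^ 2) * X0 * (τ + η)) * (256 * (1 + Λ ^ 2) * (1 + X0 ^ 2)) +
        6 * (256 * (1 + Λ ^ 2) * (1 + X0 ^ 2)) * (32 * Λ * X0 ^ 4 * (τ + η))))) := by
  obtain ⟨u1, u2, u3⟩ := phase hp hθ hη hη1 hq hX hx hXτ
  have hp' := hp
  obtain ⟨r0, S0, Λ0, τ0, hn, hτ⟩ := hp'
  have hx0 : 0 ≤ r * ‖δ‖ := by positivity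
  have hδ : ‖δ‖ = (r * ‖δ‖) * τ * S := by
    linear_combination (-‖δ‖) * hτ
  have hδS : ‖δ‖ ≤ S := by
    have : (r * ‖δ‖) * τ ≤ 1 := (mul_le_mul_of_nonneg_right hx τ0.le).trans hXτ
    rw [hδ]
    exact mul_le_of_le_one_left S0.le this
  have hθ0 : θ ≠ 0 := norm_pos_iff.1 (lt_of_lt_of_le (by positivity) hθ)
  have hqS : 15 * S ≤ ‖q‖ := by
    have h1 := norm_sub_norm_le θ q
    rw [norm_sub_rev] at h1
    nlinarith
  have hhalf : ‖θ / 2‖ = ‖θ‖ / 2 := by simp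
  have t1 : S ≤ ‖θ / 2 + δ‖ := by
    have := norm_sub_norm_le (θ / 2) (-δ)
    rw [sub_neg_eq_add, norm_neg, hhalf] at this
    linarith
  have t2 : S ≤ ‖θ / 2 - δ‖ := by
    have := norm_sub_norm_le (θ / 2) δ
    rw [hhalf] at this
    linarith
  have hxsq : (r * ‖δ‖) ^ 2 ≤ X0 ^ 2 := pow_le_pow_left₀ hx0 hx 2
  have hA : 256 * (1 + Λ ^ 2) * (1 + (r * ‖δ‖) ^ 2) ≤ 256 * (1 + Λ ^ 2) * (1 + X0 ^ 2) :=
    mul_le_mul_of_nonneg_left (by linarith) (by positivity)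
  have jP : JB r (Pp n θ) δ (256 * (1 + Λ ^ 2) * (1 + X0 ^ 2)) :=
    JB.mono r0.le (JB_P hM2 hp t1 t2 hθ0) hA
  have jG : JB r (Gc n q) δ (256 * (1 + Λ ^ 2) * (1 + X0 ^ 2)) :=
    JB.mono r0.le (JB_Gc hL hp (by linarith) δ) hA
  have jΓ : JB r (Gs r) δ (256 * (1 + X0 ^ 2)) := by
    refine JB.mono r0.le (JB_G hL r0 δ) ?_
    have he : Real.exp (-(2 * Real.pi * (r * ‖δ‖) ^ 2)) ≤ 1 := by
      apply Real.exp_le_one_iff.2
      have := Real.pi_pos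
      have : 0 ≤ 2 * Real.pi * (r * ‖δ‖) ^ 2 := by positivity
      linarith
    calc 256 * (1 + (r * ‖δ‖) ^ 2) * Real.exp (-(2 * Real.pi * (r * ‖δ‖) ^ 2))
        ≤ 256 * (1 + (r * ‖δ‖) ^ 2) * 1 := mul_le_mul_of_nonneg_left he (by positivity)
      _ ≤ _ := by linarith
  set d := 32 * Λ * X0 ^ 4 * (τ + η) with hd
  have hd0 : 0 ≤ d := by positivity
  -- the phase factor minus one
  let D : ℂ → ℂ := fun z => H1 n θ z - 8 * n * z ^ 2 / q ^ 2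
  have aD : AnalyticAt ℂ D δ := (an_H1 n θ δ u1).sub (an_H2 n q δ)
  have dD : deriv D δ = 16 * n * δ / (θ ^ 2 * (1 - 4 * δ ^ 2 / θ ^ 2)) - 16 * n * δ / q ^ 2 :=
    ((hasDeriv_H1 n θ δ u1).sub (hasDeriv_H2 n q δ)).deriv
  have jE0 := J_exp hL aD (d := d * r) (by rw [dD]; exact u3)
  have jE : JB r (fun z => Complex.exp (Complex.I * ((D z).im : ℂ)) - 1) δ d := by
    have h1 : ‖Complex.exp (Complex.I * ((D δ).im : ℂ)) - 1‖ ≤ d := by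
      refine Real.norm_exp_I_mul_ofReal_sub_one_le.trans ?_
      rw [Real.norm_eq_abs]
      exact (Complex.abs_im_le_norm _).trans u2
    refine (jE0.sub_const 1 h1).mono le_rfl le_rfl ?_
    rw [mul_pow]
    refine mul_le_mul_of_nonneg_right ?_ (sq_nonneg r)
    nlinarith
  -- the cut-offs
  have jK : JB r (fun z => KKp a b θ z - ((bd a b (q / 2) ^ 2 : ℝ) : ℂ)) δ
      ((2 * C + 4 * C ^ 2) * X0 * (τ + η)) := by
    have h1 := J_KKp hL hF hκ θ δ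
    have hL1 := bd_lip hκ.h1 hκ.h2
    have hv : ‖KKp a b θ δ - ((bd a b (q / 2) ^ 2 : ℝ) : ℂ)‖ ≤
        (2 * C + 4 * C ^ 2) * X0 * (τ + η) := by
      have e1 : KKp a b θ δ - ((bd a b (q / 2) ^ 2 : ℝ) : ℂ) =
          ((bd a b (θ / 2 + δ) : ℂ) - bd a b (q / 2)) * bd a b (θ / 2 - δ) +
          bd a b (q / 2) * ((bd a b (θ / 2 - δ) : ℂ) - bd a b (q / 2)) := by
        unfold KKp
        push_cast
        ring
      have hC0 : 0 ≤ C * τ * r := by positivity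
      have e2 : ‖θ / 2 + δ - q / 2‖ ≤ ‖δ‖ + η * S / 2 := by
        have : θ / 2 + δ - q / 2 = δ - (q - θ) / 2 := by ring
        rw [this]
        refine (norm_sub_le _ _).trans ?_
        rw [norm_div]
        have : ‖(2 : ℂ)‖ = 2 := by simp
        rw [this]
        linarith
      have e3 : ‖θ / 2 - δ - q / 2‖ ≤ ‖δ‖ + η * S / 2 := by
        have : θ / 2 - δ - q / 2 = -δ - (q - θ) / 2 := by ring
        rw [this]
        refine (norm_sub_le _ _).trans ?_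
        rw [norm_div, norm_neg]
        have : ‖(2 : ℂ)‖ = 2 := by simp
        rw [this]
        linarith
      have e4 := (hL1 (θ / 2 + δ) (q / 2)).trans (mul_le_mul_of_nonneg_left e2 hC0)
      have e5 := (hL1 (θ / 2 - δ) (q / 2)).trans (mul_le_mul_of_nonneg_left e3 hC0)
      have e6 := bd_abs hF a b (θ / 2 - δ)
      have e7 := bd_abs hF a b (q / 2)
      rw [e1]
      refine (norm_add_le _ _).trans ?_
      rw [norm_mul, norm_mul]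
      have e8 : ‖(bd a b (θ / 2 + δ) : ℂ) - bd a b (q / 2)‖ * ‖(bd a b (θ / 2 - δ) : ℂ)‖ ≤
          C * τ * r * (‖δ‖ + η * S / 2) := by
        calc _ ≤ C * τ * r * (‖δ‖ + η * S / 2) * 1 :=
              mul_le_mul e4 e6 (norm_nonneg _) (by positivity)
          _ = _ := mul_one _
      have e9 : ‖(bd a b (q / 2) : ℂ)‖ * ‖(bd a b (θ / 2 - δ) : ℂ) - bd a b (q / 2)‖ ≤
          C * τ * r * (‖δ‖ + η * S / 2) := by
        calc _ ≤ 1 * (C * τ * r * (‖δ‖ + η * S / 2)) :=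
              mul_le_mul e7 e5 (norm_nonneg _) zero_le_one
          _ = _ := one_mul _
      have e10 : C * τ * r * (‖δ‖ + η * S / 2) + C * τ * r * (‖δ‖ + η * S / 2) =
          2 * C * (r * ‖δ‖) * τ + C * η := by
        linear_combination C * η * hτ
      have e11 : 2 * C * (r * ‖δ‖) * τ ≤ 2 * C * X0 * τ :=
        mul_le_mul_of_nonneg_right (mul_le_mul_of_nonneg_left hx (by positivity)) τ0.le
      have e12 : C * η ≤ 2 * C * X0 * η := by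
        nlinarith [mul_pos hC hη, mul_le_mul_of_nonneg_left hX (mul_pos hC hη).le]
      have e13 : 0 ≤ 4 * C ^ 2 * X0 * (τ + η) := by positivity
      nlinarith
    refine (h1.sub_const _ hv).mono le_rfl ?_ ?_
    · have e1 : 2 * (C * τ * r) = (2 * C * τ) * r := by ring
      rw [e1]
      refine mul_le_mul_of_nonneg_right ?_ r0.le
      have e2 : τ ≤ X0 * (τ + η) := by nlinarith
      have e3 : 0 ≤ 4 * C ^ 2 * (X0 * (τ + η)) := by positivity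
      nlinarith [mul_le_mul_of_nonneg_left e2 hC.le]
    · have e1 : 2 * (C * τ ^ 2 * r ^ 2) + 4 * (C * τ * r) ^ 2 =
        ((2 * C + 4 * C ^ 2) * τ ^ 2) * r ^ 2 := by ring
      rw [e1, mul_assoc (2 * C + 4 * C ^ 2) X0]
      refine mul_le_mul_of_nonneg_right (mul_le_mul_of_nonneg_left ?_ (by positivity))
        (sq_nonneg r)
      nlinarith
  have hsum := JB.add (J.mulB r0.le jK jP)
    (JB.cmul r0.le (J.mulB r0.le jG jE) (kq_le hF a b q))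
  have hall := J.mulB r0.le (JB_chi hL hF hC hp hτ1 hχ θ δ) (J.mulB r0.le jΓ hsum)
  refine J.congr hall ?_
  -- the identity near `δ`
  have hlt : 2 * ‖δ‖ < ‖θ‖ := by linarith
  have hev1 : ∀ᶠ z in 𝓝 δ, 2 * ‖z‖ < ‖θ‖ :=
    (continuous_const.mul continuous_norm).continuousAt.eventually_lt continuousAt_const hlt
  filter_upwards [hev1] with z hz
  have n1 : θ / 2 + z ≠ 0 := by
    intro h0
    have : z = -(θ / 2) := by linear_combination h0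
    rw [this, norm_neg, hhalf] at hz
    linarith
  have n2 : θ / 2 - z ≠ 0 := by
    intro h0
    have : z = θ / 2 := by linear_combination -h0
    rw [this, hhalf] at hz
    linarith
  have hE := (hM2 n θ z n1 n2).2.2.2.2.2.2.2.2.1 hz
  have hPz : Pp n θ z = Gc n q z * Complex.exp (Complex.I * ((D z).im : ℂ)) := by
    show E2 n θ z / mm n (θ / 2) ^ 2 = _
    rw [hE]
    unfold Gc
    rw [← Complex.exp_add]
    congr 1
    have : (H1 n θ z) = 8 * n * z ^ 2 / q ^ 2 + D z := by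
      show _ = _ + (H1 n θ z - _)
      ring
    show Complex.I * ((H1 n θ z).im : ℂ) = _
    rw [this, Complex.add_im]
    push_cast
    ring
  unfold Sy
  rw [hPz]
  ring

/-- the constant of the far region -/
noncomputable def Kf (C Λ : ℝ) : ℝ := 6 * (1 + 8 * C + 16 * C ^ 2) *
  (6 * 256 * ((6 * (1 + 8 * C + 16 * C ^ 2) + 1) * (256 * (1 + Λ ^ 2))))

/-- the constant of the near region -/
noncomputable def Kn (C Λ X0 : ℝ) : ℝ := 6 * (1 + 8 * C + 16 * C ^ 2) *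
  (6 * (256 * (1 + X0 ^ 2)) * (6 * ((2 * C + 4 * C ^ 2) * X0) *
    (256 * (1 + Λ ^ 2) * (1 + X0 ^ 2)) +
    6 * (256 * (1 + Λ ^ 2) * (1 + X0 ^ 2)) * (32 * Λ * X0 ^ 4)))

include hL hM2 hF hC hp hab haS hκ hχ in
lemma core {θ q : ℂ} {ε X0 w : ℝ} (hθ : 16 * S ≤ ‖θ‖) (hε : 0 < ε) (hX : 1 ≤ X0)
    (hK : Kf C Λ ≤ ε * (X0 - 1)) (w0 : 0 < w) (hτw : τ ≤ w) (w2 : w ≤ 1 / 2)
    (w3 : X0 * w ≤ 1) (w4 : 64 * Λ * X0 ^ 4 * w ≤ 1)
    (w5 : 2 * Kn C Λ X0 * w ≤ ε * Real.exp (-(X0 ^ 2))) (hq : ‖q - θ‖ ≤ w * S) (δ : ℂ) :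
    ContDiffAt ℝ 2 (Sy n r a b a' b' θ q) δ ∧
    ‖Sy n r a b a' b' θ q δ‖ ≤ ε * Real.exp (-(r ^ 2 * ‖δ‖ ^ 2)) ∧
    ‖lap (Sy n r a b a' b' θ q) δ‖ ≤ ε * r ^ 2 * Real.exp (-(r ^ 2 * ‖δ‖ ^ 2)) := by
  have hp' := hp
  obtain ⟨r0, S0, Λ0, τ0, hn, hτ⟩ := hp'
  have X00 : 0 < X0 := by linarith
  have hτ1 : τ ≤ 1 := by linarith
  have hθ0 : θ ≠ 0 := norm_pos_iff.1 (lt_of_lt_of_le (by positivity) hθ)
  have hqS : S ≤ ‖q‖ := by
    have h1 := norm_sub_norm_le θ q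
    rw [norm_sub_rev] at h1
    nlinarith
  have hfar := far hL hM2 hF hC hp hτ1 hab haS hκ hχ hθ0 hqS δ
  refine ⟨hfar.s, ?_⟩
  have key : ∀ A : ℝ, JB r (Sy n r a b a' b' θ q) δ A →
      A ≤ ε * Real.exp (-(r ^ 2 * ‖δ‖ ^ 2)) →
      ‖Sy n r a b a' b' θ q δ‖ ≤ ε * Real.exp (-(r ^ 2 * ‖δ‖ ^ 2)) ∧
      ‖lap (Sy n r a b a' b' θ q) δ‖ ≤ ε * r ^ 2 * Real.exp (-(r ^ 2 * ‖δ‖ ^ 2)) := by
    intro A hA hle
    refine ⟨hA.v.trans hle, hA.l.trans ?_⟩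
    calc A * r ^ 2 ≤ ε * Real.exp (-(r ^ 2 * ‖δ‖ ^ 2)) * r ^ 2 :=
          mul_le_mul_of_nonneg_right hle (sq_nonneg r)
      _ = _ := by ring
  have hx0 : 0 ≤ r * ‖δ‖ := by positivity
  have hxe : r ^ 2 * ‖δ‖ ^ 2 = (r * ‖δ‖) ^ 2 := by ring
  by_cases hx : r * ‖δ‖ ≤ X0
  · have hXτ : X0 * τ ≤ 1 := (mul_le_mul_of_nonneg_left hτw X00.le).trans w3
    have hsum : τ + w ≤ 2 * w := by linarith
    have hd1 : 32 * Λ * X0 ^ 4 * (τ + w) ≤ 1 := by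
      refine (mul_le_mul_of_nonneg_left hsum (by positivity)).trans ?_
      linarith
    have hn' := near hL hM2 hF hC hp hτ1 hκ hχ hθ w0 (by linarith) hq hX hx hXτ hd1
    refine key _ hn' ?_
    have K'0 : 0 ≤ Kn C Λ X0 := by
      unfold Kn
      positivity
    have e1 : 6 * (1 + 8 * C + 16 * C ^ 2) * (6 * (256 * (1 + X0 ^ 2)) *
      (6 * ((2 * C + 4 * C ^ 2) * X0 * (τ + w)) * (256 * (1 + Λ ^ 2) * (1 + X0 ^ 2)) +
        6 * (256 * (1 + Λ ^ 2) * (1 + X0 ^ 2)) * (32 * Λ * X0 ^ 4 * (τ + w)))) =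
        Kn C Λ X0 * (τ + w) := by
      unfold Kn
      ring
    rw [e1]
    refine (mul_le_mul_of_nonneg_left hsum K'0).trans ?_
    have e2 : ε * Real.exp (-(X0 ^ 2)) ≤ ε * Real.exp (-(r ^ 2 * ‖δ‖ ^ 2)) := by
      refine mul_le_mul_of_nonneg_left (Real.exp_le_exp.2 ?_) hε.le
      rw [hxe]
      have := pow_le_pow_left₀ hx0 hx 2
      linarith
    linarith
  · have hx' : X0 ≤ r * ‖δ‖ := (not_le.1 hx).le
    refine key _ hfar ?_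
    rw [hxe]
    generalize r * ‖δ‖ = x at hx'
    have hy1 : X0 ≤ 3 * x ^ 2 := by nlinarith
    have hy0 : 0 ≤ x ^ 2 := sq_nonneg x
    generalize x ^ 2 = y at hy1 hy0
    have hpi : 3 ≤ Real.pi := Real.pi_gt_three.le
    have e1 : (1 + y) ^ 2 ≤ Real.exp (2 * y) := by
      have h1 : 1 + y ≤ Real.exp y := by
        have := Real.add_one_le_exp y
        linarith
      calc (1 + y) ^ 2 ≤ Real.exp y ^ 2 := pow_le_pow_left₀ (by linarith) h1 2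
        _ = Real.exp (2 * y) := by
            rw [← Real.exp_nat_mul]
            norm_num
    have e2 : Real.exp (-(2 * Real.pi * y)) ≤ Real.exp (-(6 * y)) := by
      apply Real.exp_le_exp.2
      nlinarith
    have e3 : Kf C Λ ≤ ε * Real.exp (3 * y) := by
      have h1 := Real.add_one_le_exp (3 * y)
      exact hK.trans (mul_le_mul_of_nonneg_left (by linarith) hε.le)
    have K0 : 0 ≤ Kf C Λ := by
      unfold Kf
      positivity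
    have e4 : 6 * (1 + 8 * C + 16 * C ^ 2) *
      (6 * (256 * (1 + y) * Real.exp (-(2 * Real.pi * y))) *
      (6 * (1 + 8 * C + 16 * C ^ 2) * (256 * (1 + Λ ^ 2) * (1 + y)) +
        256 * (1 + Λ ^ 2) * (1 + y))) =
        Kf C Λ * ((1 + y) ^ 2 * Real.exp (-(2 * Real.pi * y))) := by
      unfold Kf
      ring
    rw [e4]
    calc Kf C Λ * ((1 + y) ^ 2 * Real.exp (-(2 * Real.pi * y)))
        ≤ Kf C Λ * (Real.exp (2 * y) * Real.exp (-(6 * y))) := by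
          refine mul_le_mul_of_nonneg_left ?_ K0
          exact mul_le_mul e1 e2 (Real.exp_pos _).le (Real.exp_pos _).le
      _ ≤ ε * Real.exp (3 * y) * (Real.exp (2 * y) * Real.exp (-(6 * y))) :=
          mul_le_mul_of_nonneg_right e3 (by positivity)
      _ = ε * Real.exp (-y) := by
          rw [mul_assoc, ← Real.exp_add, ← Real.exp_add]
          congr 2
          ring

end main

end ErrM

end Pool.Agent.Lib.MP_dd244f_an.Four
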