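import Pool.Agent.Lib.MP_dd244f_an.Four.Stmts

/-!
Local calculus for `lap`: second order jets with bounds.
-/

set_option autoImplicit false

namespace Pool.Agent.Lib.MP_dd244f_an.Four

open Filter Topology

variable {f g : ℂ → ℂ} {δ : ℂ}

lemma fderiv_dir_congr (h : f =ᶠ[𝓝 δ] g) (v : ℂ) :
    (fun z => fderiv ℝ f z v) =ᶠ[𝓝 δ] (fun z => fderiv ℝ g z v) := by
  have h1 := h.fderiv (𝕜 := ℝ)
  filter_upwards [h1] with z hz
  rw [hz]

lemma lap_congr (h : f =ᶠ[𝓝 δ] g) : lap f δ = lap g δ := by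
  unfold lap
  rw [(fderiv_dir_congr h 1).fderiv_eq, (fderiv_dir_congr h Complex.I).fderiv_eq]

lemma ev_diff (h : ContDiffAt ℝ 2 f δ) : ∀ᶠ z in 𝓝 δ, DifferentiableAt ℝ f z := by
  have h1 := h.eventually (by simp)
  filter_upwards [h1] with z hz
  exact hz.differentiableAt (by norm_num)

lemma diff_dir (h : ContDiffAt ℝ 2 f δ) (v : ℂ) :
    DifferentiableAt ℝ (fun z => fderiv ℝ f z v) δ := by
  have h1 : ContDiffAt ℝ 1 (fderiv ℝ f) δ := h.fderiv_right (m := 1) (by norm_num)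
  exact (h1.clm_apply contDiffAt_const).differentiableAt (by norm_num)

lemma dir_mul (hf : ContDiffAt ℝ 2 f δ) (hg : ContDiffAt ℝ 2 g δ) (v : ℂ) :
    fderiv ℝ (fun z => fderiv ℝ (fun z => f z * g z) z v) δ v =
      f δ * fderiv ℝ (fun z => fderiv ℝ g z v) δ v + g δ * fderiv ℝ (fun z => fderiv ℝ f z v) δ v
        + 2 * (fderiv ℝ f δ v * fderiv ℝ g δ v) := by
  have h1 : (fun z => fderiv ℝ (fun z => f z * g z) z v) =ᶠ[𝓝 δ]
      fun z => f z * fderiv ℝ g z v + g z * fderiv ℝ f z v := by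
    filter_upwards [ev_diff hf, ev_diff hg] with z h1 h2
    rw [fderiv_fun_mul h1 h2]
    simp
  have d1 : DifferentiableAt ℝ f δ := hf.differentiableAt (by norm_num)
  have d2 : DifferentiableAt ℝ g δ := hg.differentiableAt (by norm_num)
  have d3 := diff_dir hf v
  have d4 := diff_dir hg v
  have d5 : DifferentiableAt ℝ (fun z => f z * fderiv ℝ g z v) δ := d1.mul d4
  have d6 : DifferentiableAt ℝ (fun z => g z * fderiv ℝ f z v) δ := d2.mul d3
  rw [h1.fderiv_eq, fderiv_fun_add d5 d6, fderiv_fun_mul d1 d4, fderiv_fun_mul d2 d3]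
  simp only [ContinuousLinearMap.add_apply, ContinuousLinearMap.smul_apply, smul_eq_mul]
  ring

lemma lap_mul_at (hf : ContDiffAt ℝ 2 f δ) (hg : ContDiffAt ℝ 2 g δ) :
    lap (fun z => f z * g z) δ = f δ * lap g δ + g δ * lap f δ
      + 2 * (fderiv ℝ f δ 1 * fderiv ℝ g δ 1 +
        fderiv ℝ f δ Complex.I * fderiv ℝ g δ Complex.I) := by
  unfold lap
  rw [dir_mul hf hg, dir_mul hf hg]
  ring

lemma lap_add_at (hf : ContDiffAt ℝ 2 f δ) (hg : ContDiffAt ℝ 2 g δ) :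
    lap (fun z => f z + g z) δ = lap f δ + lap g δ := by
  have h1 : ∀ v : ℂ, fderiv ℝ (fun z => fderiv ℝ (fun z => f z + g z) z v) δ v =
      fderiv ℝ (fun z => fderiv ℝ f z v) δ v + fderiv ℝ (fun z => fderiv ℝ g z v) δ v := by
    intro v
    have h1 : (fun z => fderiv ℝ (fun z => f z + g z) z v) =ᶠ[𝓝 δ]
        fun z => fderiv ℝ f z v + fderiv ℝ g z v := by
      filter_upwards [ev_diff hf, ev_diff hg] with z h1 h2
      rw [fderiv_fun_add h1 h2]
      simp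
    rw [h1.fderiv_eq, fderiv_fun_add (diff_dir hf v) (diff_dir hg v)]
    simp
  unfold lap
  rw [h1, h1]
  ring

lemma lap_const' (c : ℂ) : lap (fun _ => c) δ = 0 := by
  unfold lap
  simp

/-- Bounds for the value, the gradient and the Laplacian at a point. -/
structure J (f : ℂ → ℂ) (δ : ℂ) (a b c : ℝ) : Prop where
  s : ContDiffAt ℝ 2 f δ
  v : ‖f δ‖ ≤ a
  g : ‖fderiv ℝ f δ‖ ≤ b
  l : ‖lap f δ‖ ≤ c

namespace J

variable {a b c a' b' c' : ℝ}

lemma a0 (h : J f δ a b c) : 0 ≤ a := (norm_nonneg _).trans h.v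

lemma b0 (h : J f δ a b c) : 0 ≤ b := (norm_nonneg _).trans h.g

lemma c0 (h : J f δ a b c) : 0 ≤ c := (norm_nonneg _).trans h.l

lemma mono (h : J f δ a b c) (ha : a ≤ a') (hb : b ≤ b') (hc : c ≤ c') : J f δ a' b' c' :=
  ⟨h.s, h.v.trans ha, h.g.trans hb, h.l.trans hc⟩

lemma congr (h : J g δ a b c) (e : f =ᶠ[𝓝 δ] g) : J f δ a b c := by
  refine ⟨h.s.congr_of_eventuallyEq e, ?_, ?_, ?_⟩
  · rw [e.eq_of_nhds]
    exact h.v
  · rw [e.fderiv_eq]
    exact h.g
  · rw [lap_congr e]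
    exact h.l

lemma const (k : ℂ) : J (fun _ => k) δ ‖k‖ 0 0 :=
  ⟨contDiffAt_const, le_rfl, by simp, by rw [lap_const']; simp⟩

lemma mul (h : J f δ a b c) (h' : J g δ a' b' c') :
    J (fun z => f z * g z) δ (a * a') (a * b' + a' * b) (a * c' + a' * c + 4 * (b * b')) := by
  have d1 : DifferentiableAt ℝ f δ := h.s.differentiableAt (by norm_num)
  have d2 : DifferentiableAt ℝ g δ := h'.s.differentiableAt (by norm_num)
  refine ⟨h.s.mul h'.s, ?_, ?_, ?_⟩
  · rw [norm_mul]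
    exact mul_le_mul h.v h'.v (norm_nonneg _) h.a0
  · rw [fderiv_fun_mul d1 d2]
    refine (norm_add_le _ _).trans ?_
    rw [norm_smul, norm_smul]
    exact add_le_add (mul_le_mul h.v h'.g (norm_nonneg _) h.a0)
      (mul_le_mul h'.v h.g (norm_nonneg _) h'.a0)
  · rw [lap_mul_at h.s h'.s]
    have h1 : ∀ v : ℂ, ‖v‖ = 1 → ‖fderiv ℝ f δ v * fderiv ℝ g δ v‖ ≤ b * b' := by
      intro v hv
      rw [norm_mul]
      refine mul_le_mul ?_ ?_ (norm_nonneg _) h.b0
      · refine ((fderiv ℝ f δ).le_opNorm v).trans ?_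
        rw [hv, mul_one]
        exact h.g
      · refine ((fderiv ℝ g δ).le_opNorm v).trans ?_
        rw [hv, mul_one]
        exact h'.g
    refine (norm_add_le _ _).trans (add_le_add ((norm_add_le _ _).trans (add_le_add ?_ ?_)) ?_)
    · rw [norm_mul]
      exact mul_le_mul h.v h'.l (norm_nonneg _) h.a0
    · rw [norm_mul]
      exact mul_le_mul h'.v h.l (norm_nonneg _) h'.a0
    · rw [norm_mul]
      have h2 := (norm_add_le (fderiv ℝ f δ 1 * fderiv ℝ g δ 1)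
        (fderiv ℝ f δ Complex.I * fderiv ℝ g δ Complex.I)).trans
        (add_le_add (h1 1 (by simp)) (h1 Complex.I (by simp)))
      have h3 : ‖(2 : ℂ)‖ = 2 := by simp
      rw [h3]
      linarith

lemma add (h : J f δ a b c) (h' : J g δ a' b' c') :
    J (fun z => f z + g z) δ (a + a') (b + b') (c + c') := by
  have d1 : DifferentiableAt ℝ f δ := h.s.differentiableAt (by norm_num)
  have d2 : DifferentiableAt ℝ g δ := h'.s.differentiableAt (by norm_num)
  refine ⟨h.s.add h'.s, ?_, ?_, ?_⟩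
  · exact (norm_add_le _ _).trans (add_le_add h.v h'.v)
  · rw [fderiv_fun_add d1 d2]
    exact (norm_add_le _ _).trans (add_le_add h.g h'.g)
  · rw [lap_add_at h.s h'.s]
    exact (norm_add_le _ _).trans (add_le_add h.l h'.l)

lemma const_mul (h : J f δ a b c) (k : ℂ) :
    J (fun z => k * f z) δ (‖k‖ * a) (‖k‖ * b) (‖k‖ * c) := by
  have := (J.const (δ := δ) k).mul h
  simpa using this

lemma neg (h : J f δ a b c) : J (fun z => -f z) δ a b c := by
  have := h.const_mul (-1)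
  simpa using this

lemma sub (h : J f δ a b c) (h' : J g δ a' b' c') :
    J (fun z => f z - g z) δ (a + a') (b + b') (c + c') := by
  have := h.add h'.neg
  simpa [sub_eq_add_neg] using this

/-- Subtracting a constant only changes the value. -/
lemma sub_const (h : J f δ a b c) (k : ℂ) (hk : ‖f δ - k‖ ≤ a') :
    J (fun z => f z - k) δ a' b c := by
  refine ⟨h.s.sub contDiffAt_const, hk, ?_, ?_⟩
  · rw [fderiv_sub_const]
    exact h.g
  · have : lap (fun z => f z - k) δ = lap f δ := by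
      have h1 := lap_add_at h.s (contDiffAt_const (c := -k) (n := 2) (𝕜 := ℝ) (x := δ))
      rw [lap_const', add_zero] at h1
      rw [← h1]
      simp [sub_eq_add_neg]
    rw [this]
    exact h.l

/-- The form with one constant and a scale. -/
lemma mulB {r A B : ℝ} (hr : 0 ≤ r) (h : J f δ A (A * r) (A * r ^ 2))
    (h' : J g δ B (B * r) (B * r ^ 2)) :
    J (fun z => f z * g z) δ (6 * A * B) (6 * A * B * r) (6 * A * B * r ^ 2) := by
  have hA := h.a0
  have hB := h'.a0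
  have hAB : 0 ≤ A * B := mul_nonneg hA hB
  refine (h.mul h').mono ?_ ?_ ?_
  · nlinarith
  · nlinarith [mul_nonneg hAB hr]
  · nlinarith [mul_nonneg hAB (sq_nonneg r)]

end J

/-- `exp (i Im H)` for `H` holomorphic. -/
lemma J_exp (hL : StmtLap) {H : ℂ → ℂ} (hH : AnalyticAt ℂ H δ) {d : ℝ} (hd : ‖deriv H δ‖ ≤ d) :
    J (fun z => Complex.exp (Complex.I * ((H z).im : ℂ))) δ 1 d (d ^ 2) := by
  obtain ⟨h1, h2⟩ := hL.2.2.2 H δ hH
  have hn : ∀ x : ℝ, ‖Complex.exp (Complex.I * (x : ℂ))‖ = 1 := by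
    intro x
    rw [mul_comm, Complex.norm_exp_ofReal_mul_I]
  refine ⟨?_, (hn _).le, h2.trans hd, ?_⟩
  · have h3 : ContDiffAt ℝ 2 H δ := (hH.contDiffAt (n := 2)).restrict_scalars ℝ
    have h4 : ContDiffAt ℝ 2 (fun z => (H z).im) δ :=
      Complex.imCLM.contDiff.contDiffAt.comp δ h3
    have h5 : ContDiffAt ℝ 2 (fun z => ((H z).im : ℂ)) δ :=
      Complex.ofRealCLM.contDiff.contDiffAt.comp δ h4
    have h6 : ContDiffAt ℝ 2 (fun z => Complex.I * ((H z).im : ℂ)) δ := contDiffAt_const.mul h5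
    exact h6.cexp
  · rw [h1, norm_mul, hn, norm_neg, mul_one]
    have h3 : ‖((‖deriv H δ‖ ^ 2 : ℝ) : ℂ)‖ = ‖deriv H δ‖ ^ 2 := by
      rw [Complex.norm_real, Real.norm_of_nonneg (by positivity)]
    rw [h3]
    exact pow_le_pow_left₀ (norm_nonneg _) hd 2

lemma contDiff_gauss (r : ℝ) (n : ℕ∞) :
    ContDiff ℝ n (fun z : ℂ => ((Real.exp (-(r * ‖z‖ ^ 2)) : ℝ) : ℂ)) := by
  have h1 : ContDiff ℝ n (fun z : ℂ => Real.exp (-(r * ‖z‖ ^ 2))) :=
    (Real.contDiff_exp.comp ((contDiff_const.mul (contDiff_norm_sq ℝ)).neg))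
  exact Complex.ofRealCLM.contDiff.comp h1

/-- The Gaussian. -/
lemma J_gauss (hL : StmtLap) {r : ℝ} (hr : 0 < r) (δ : ℂ) :
    J (fun z => ((Real.exp (-(r * ‖z‖ ^ 2)) : ℝ) : ℂ)) δ (Real.exp (-(r * ‖δ‖ ^ 2)))
      (2 * r * ‖δ‖ * Real.exp (-(r * ‖δ‖ ^ 2)))
      ((4 * r ^ 2 * ‖δ‖ ^ 2 + 4 * r) * Real.exp (-(r * ‖δ‖ ^ 2))) := by
  obtain ⟨h1, h2⟩ := hL.2.2.1 r δ hr
  refine ⟨(contDiff_gauss r 2).contDiffAt, ?_, h2, ?_⟩
  · rw [Complex.norm_real, Real.norm_of_nonneg (Real.exp_pos _).le]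
  · rw [h1, Complex.norm_real, norm_mul, Real.norm_of_nonneg (Real.exp_pos _).le]
    refine mul_le_mul_of_nonneg_right ?_ (Real.exp_pos _).le
    rw [Real.norm_eq_abs, abs_le]
    have h3 : 0 ≤ 4 * r ^ 2 * ‖δ‖ ^ 2 := by positivity
    constructor <;> linarith

end Pool.Agent.Lib.MP_dd244f_an.Four
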