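import Pool.Agent.Lib.MP_dd244f_an.Four.Basic

/-!
Fubini on a strip around the diagonal.
-/

set_option autoImplicit false

namespace Pool.Agent.Lib.MP_dd244f_an.Four

open MeasureTheory Filter Topology Finset

theorem strip_meas2 (l : ℝ) : MeasurableSet {z : ℂ × ℂ | ‖z.2 - z.1‖ ≤ l} := by
  have h : Continuous (fun z : ℂ × ℂ => ‖z.2 - z.1‖) := by fun_prop
  exact measurableSet_le h.measurable measurable_const

theorem strip_meas (J : Set ℂ) (hJ : MeasurableSet J) (l : ℝ) :
    MeasurableSet {z : ℂ × ℂ | z.1 ∈ J ∧ ‖z.2 - z.1‖ ≤ l} :=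
  (hJ.preimage measurable_fst).inter (strip_meas2 l)

/-- Fubini on a strip around the diagonal. -/
theorem strip_int (J : Set ℂ) (hJ : MeasurableSet J) (l : ℝ) (hl : 0 < l) (F : ℂ → ℝ)
    (hF : IntegrableOn F J) :
    IntegrableOn (fun z : ℂ × ℂ => F z.1) {z | z.1 ∈ J ∧ ‖z.2 - z.1‖ ≤ l} ∧
    ∫ z in {z : ℂ × ℂ | z.1 ∈ J ∧ ‖z.2 - z.1‖ ≤ l}, F z.1 = Real.pi * l ^ 2 * ∫ θ in J, F θ := by
  have hS : MeasurableSet {z : ℂ × ℂ | z.1 ∈ J ∧ ‖z.2 - z.1‖ ≤ l} := strip_meas J hJ l
  have hFi : Integrable (J.indicator F) := hF.integrable_indicator hJ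
  have hind : ({z : ℂ × ℂ | z.1 ∈ J ∧ ‖z.2 - z.1‖ ≤ l}).indicator (fun z => F z.1)
      = fun z : ℂ × ℂ => J.indicator F z.1 *
          (Metric.closedBall z.1 l).indicator (fun _ => (1 : ℝ)) z.2 := by
    ext z
    by_cases h1 : z.1 ∈ J
    · by_cases h2 : ‖z.2 - z.1‖ ≤ l
      · rw [Set.indicator_of_mem (show z ∈ {z : ℂ × ℂ | z.1 ∈ J ∧ ‖z.2 - z.1‖ ≤ l} from ⟨h1, h2⟩),
          Set.indicator_of_mem h1, Set.indicator_of_mem (by
            rw [Metric.mem_closedBall, dist_eq_norm]; exact h2)]
        ring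
      · rw [Set.indicator_of_notMem (fun h => h2 h.2), Set.indicator_of_notMem (s :=
          Metric.closedBall z.1 l) (by rw [Metric.mem_closedBall, dist_eq_norm]; exact h2)]
        ring
    · rw [Set.indicator_of_notMem (fun h => h1 h.1), Set.indicator_of_notMem h1]
      ring
  have hball : ∀ θ : ℂ, Integrable (fun q => (Metric.closedBall θ l).indicator
      (fun _ => (1 : ℝ)) q) := by
    intro θ
    apply IntegrableOn.integrable_indicator _ measurableSet_closedBall
    rw [integrableOn_const_iff]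
    right
    rw [Complex.volume_closedBall]
    exact ENNReal.mul_lt_top (ENNReal.pow_lt_top ENNReal.ofReal_lt_top) ENNReal.coe_lt_top
  have hballi : ∀ θ : ℂ, ∫ q, (Metric.closedBall θ l).indicator (fun _ => (1 : ℝ)) q
      = Real.pi * l ^ 2 := by
    intro θ
    rw [integral_indicator measurableSet_closedBall]
    rw [setIntegral_const, measureReal_def, Complex.volume_closedBall, ENNReal.toReal_mul,
      ENNReal.toReal_pow, ENNReal.toReal_ofReal hl.le]
    simp [mul_comm]
  have hmeas : AEStronglyMeasurable (fun z : ℂ × ℂ => J.indicator F z.1 *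
          (Metric.closedBall z.1 l).indicator (fun _ => (1 : ℝ)) z.2)
          ((volume : Measure ℂ).prod volume) := by
    apply AEStronglyMeasurable.mul
    · exact hFi.aestronglyMeasurable.comp_fst
    · have : (fun z : ℂ × ℂ => (Metric.closedBall z.1 l).indicator (fun _ => (1 : ℝ)) z.2)
          = ({z : ℂ × ℂ | ‖z.2 - z.1‖ ≤ l}).indicator (fun _ => (1 : ℝ)) := by
        ext z
        simp only [Set.indicator, Metric.mem_closedBall, dist_eq_norm, Set.mem_ofPred_eq]
      rw [this]
      apply Measurable.aestronglyMeasurable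
      exact measurable_const.indicator (strip_meas2 l)
  have hint : Integrable (fun z : ℂ × ℂ => J.indicator F z.1 *
          (Metric.closedBall z.1 l).indicator (fun _ => (1 : ℝ)) z.2)
          ((volume : Measure ℂ).prod volume) := by
    rw [integrable_prod_iff hmeas]
    refine ⟨Eventually.of_forall fun θ => ?_, ?_⟩
    · exact (hball θ).const_mul (J.indicator F θ)
    have : (fun θ : ℂ => ∫ q, ‖J.indicator F θ *
        (Metric.closedBall θ l).indicator (fun _ => (1 : ℝ)) q‖)
        = fun θ => ‖J.indicator F θ‖ * (Real.pi * l ^ 2) := by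
      ext θ
      rw [← hballi θ, ← integral_const_mul]
      congr 1
      ext q
      rw [norm_mul]
      congr 1
      rw [Real.norm_of_nonneg]
      exact Set.indicator_nonneg (fun _ _ => zero_le_one) _
    simp only at this ⊢
    rw [this]
    exact hFi.norm.mul_const _
  constructor
  · rw [← integrable_indicator_iff hS, hind]
    exact hint
  · rw [← integral_indicator hS, hind]
    change ∫ z : ℂ × ℂ, _ ∂((volume : Measure ℂ).prod volume) = _
    rw [integral_prod _ hint]
    simp only [integral_const_mul, hballi]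
    rw [integral_mul_const, integral_indicator hJ]
    ring


end Pool.Agent.Lib.MP_dd244f_an.Four
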